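import Mathlib

/-!
# MP_ddee1b_al: the finiteness property FP_2 and the Cayley graph

`FPtwo R H`: the group `H` is of type FP_2 over the commutative ring `R`.
`cayD s`: the boundary map of the Cayley graph of `H` with respect to `s : Fin n → H`, as a map of left
modules over the group ring. The edge `(k, j)` goes from `k` to `k * s j`.
`cayInt s c k w`: the integral of the function `c` on the edges along the path which starts at `k` and
spells the word `w`.
-/

set_option autoImplicit false

namespace Pool.Agent.H62.CI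

/-- The group `H` is of type `FP₂` over the ring `R`: there is an exact sequence
`R[H]^c → R[H]^b → R[H]^a → R → 0` of `R[H]`-modules (with the trivial action on `R`). -/
def FPtwo (R : Type) [CommRing R] (H : Type) [Group H] : Prop :=
  ∃ (a b c : ℕ) (ε : (Fin a → MonoidAlgebra R H) →ₗ[R] R)
    (d₁ : (Fin b → MonoidAlgebra R H) →ₗ[MonoidAlgebra R H] (Fin a → MonoidAlgebra R H))
    (d₂ : (Fin c → MonoidAlgebra R H) →ₗ[MonoidAlgebra R H] (Fin b → MonoidAlgebra R H)),
    (∀ (h : H) x, ε (MonoidAlgebra.single h (1 : R) • x) = ε x) ∧ Function.Surjective ε ∧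
    (∀ x, ε x = 0 ↔ ∃ y, d₁ y = x) ∧ ∀ x, d₁ x = 0 ↔ ∃ y, d₂ y = x

variable {H : Type} [Group H]

/-- augmentation -/
noncomputable def aug : MonoidAlgebra ℚ H →ₗ[ℚ] ℚ where
  toFun := fun x => x.coeff.sum fun _ r => r
  map_add' := fun x y => by
    rw [MonoidAlgebra.coeff_add]
    exact Finsupp.sum_add_index' (fun _ => rfl) (fun _ _ _ => rfl)
  map_smul' := fun r x => by
    rw [MonoidAlgebra.coeff_smul, Finsupp.sum_smul_index' (fun _ => rfl)]
    simp [Finsupp.sum, Finset.mul_sum]

/-- boundary map of the Cayley graph -/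
noncomputable def cayD {n : ℕ} (s : Fin n → H) :
    (Fin n → MonoidAlgebra ℚ H) →ₗ[MonoidAlgebra ℚ H] MonoidAlgebra ℚ H where
  toFun := fun x => ∑ j, x j * (MonoidAlgebra.single (s j) 1 - 1)
  map_add' := fun x y => by simp [add_mul, Finset.sum_add_distrib]
  map_smul' := fun r x => by simp [Finset.mul_sum, mul_assoc]

/-- integral of `c` along the path of the Cayley graph which starts at `k` and spells `w` -/
def cayInt {n : ℕ} (s : Fin n → H) (c : H → Fin n → ℚ) : H → List (Fin n × Bool) → ℚ
  | _, [] => 0
  | k, (j, true) :: w => c k j + cayInt s c (k * s j) w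
  | k, (j, false) :: w => - c (k * (s j)⁻¹) j + cayInt s c (k * (s j)⁻¹) w

end Pool.Agent.H62.CI
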