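import Pool.Agent.H62.CI.NF
import Pool.Agent.H50.CI.N0

/-!
# Row GAU (260 lines): the gauge lemma

Data: a graph `(V1, E1)` with closed words `r1 i`, a set of letters `E2` with words `r2 i`, a map `g : E1 → E2` which maps the words `r1` to words `r2`, and the
cohomological conditions `H1` (every cocycle of `r1` is the pull back of a cocycle of `r2` plus a coboundary) and `H2` (every function on the relators `r2`
is a coboundary). `lift ρ w` below means `FreeGroup.lift ρ (FreeGroup.mk w)`.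

PROOF. (0) `gau_prod` (no cohomology): let `β, ρ : E → G` with `β e ∈ Γ d` for all `e`. For every word `w` there is `Θ ∈ Γ d` with
`lift (fun e => β e * ρ e) w = Θ * lift ρ w` and `π d Θ = (fun i => integ (fun e => π d (β e) i) w)`. Induction on `w`:
`β e * ρ e * (Θ * L) = (β e * (ρ e * Θ * (ρ e)⁻¹)) * (ρ e * L)` and
`(β e * ρ e)⁻¹ * (Θ * L) = ((ρ e)⁻¹ * ((β e)⁻¹ * Θ) * ρ e) * ((ρ e)⁻¹ * L)`; use `π_mul`, `π_conj`, and `π d x⁻¹ = - π d x` (from `π_mul`, `π_ker`: `π d 1 = 0`).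
(1) Claim(d): there are `ρ' : E2 → G`, `φ : V1 → G` with `lift ρ' (r2 i) ∈ Γ d` for all `i` and
`(φ (src e))⁻¹ * ρ e * φ (tgt e) * (ρ' (g e))⁻¹ ∈ Γ d` for all `e`. Claim(0): `ρ' = 1, φ = 1`, `Γ 0 = ⊤`.
(2) Claim(d) implies Claim(d+1). Let `δ i = π d (lift ρ' (r2 i))`. By `H2` for every coordinate `i' : ι d` choose `b : E2 → ι d → ℚ` with
`integ (fun e => b e i') (r2 i) = - δ i i'`. Choose `β e ∈ Γ d` with `π d (β e) = b e`, and let `ρ1 e = β e * ρ' e`. By (0), `lift ρ1 (r2 i) = Θ * lift ρ' (r2 i)` is in `Γ d` and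
its `π d` is `0`, so `lift ρ1 (r2 i) ∈ Γ (d+1)`.
Let `ρ'' e = (φ (src e))⁻¹ * ρ e * φ (tgt e)`; for a walk `w` from `x` to `y`: `lift ρ'' w = (φ x)⁻¹ * lift ρ w * φ y` (induction); so `lift ρ'' (r1 i) = 1`.
Let `a e = ρ'' e * (ρ1 (g e))⁻¹ = (ρ'' e * (ρ' (g e))⁻¹) * (β (g e))⁻¹... ` (write `(ρ1 (g e))⁻¹ = (ρ' (g e))⁻¹ * (β (g e))⁻¹`), so `a e ∈ Γ d` and `ρ'' e = a e * ρ1 (g e)`. By (0) for `β = a`
and the function `fun e => ρ1 (g e)` on `E1`: `1 = lift ρ'' (r1 i) = Θ * lift ρ1 ((r1 i).map (Prod.map g id)) = Θ * lift ρ1 (r2 (j i))`, so `Θ ∈ Γ (d+1)` and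
`integ (fun e => π d (a e) i') (r1 i) = 0` for all coordinates `i'`. By `H1` for every coordinate: `π d (a e) i' = b' (g e) i' + θ (tgt e) i' - θ (src e) i'` with
`integ (fun e => b' e i') (r2 i) = 0`. Choose `β' e ∈ Γ d` with `π d (β' e) = b' e` and `ψ x ∈ Γ d` with `π d (ψ x) = θ x`.
New data: `ρ'new e = β' e * ρ1 e`, `φnew x = φ x * (ψ x)⁻¹`. By (0) `lift ρ'new (r2 i) ∈ Γ (d+1)`. And
`(φnew (src e))⁻¹ * ρ e * φnew (tgt e) * (ρ'new (g e))⁻¹ = ψ (src e) * a e * (ρ1 (g e) * (ψ (tgt e))⁻¹ * (ρ1 (g e))⁻¹) * (β' (g e))⁻¹` is in `Γ d` and its `π d` is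
`θ (src e) + π d (a e) - θ (tgt e) - b' (g e) = 0`.
(3) Conclusion. Fix `d`, take the data of Claim(d), `ρ''` as in (2), `a e = ρ'' e * (ρ' (g e))⁻¹ ∈ Γ d`. By (0):
`(φ x)⁻¹ * lift ρ γ * φ x = lift ρ'' γ = Θ * lift ρ' (γ.map (Prod.map g id))`, `Θ ∈ Γ d`. The second factor is in `Γ d` because `hn` and
`Subgroup.normalClosure_le_normal` for the normal subgroup `(Γ d).comap (lift ρ')` (`Γ d` is normal by `conj_mem`). So `lift ρ γ ∈ Γ d` (`conj_mem`) for every `d`; `sep`.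
-/

set_option autoImplicit false

namespace Pool.Agent.H60.CI

/-- the value of a word -/
def gau_P {E G : Type} [Group G] (ρ : E → G) (w : List (E × Bool)) : G :=
  FreeGroup.lift ρ (FreeGroup.mk w)

theorem gau_P_nil {E G : Type} [Group G] (ρ : E → G) : gau_P ρ [] = 1 := by
  simp [gau_P]

theorem gau_P_cons_true {E G : Type} [Group G] (ρ : E → G) (e : E) (w : List (E × Bool)) :
    gau_P ρ ((e, true) :: w) = ρ e * gau_P ρ w := by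
  simp [gau_P]

theorem gau_P_cons_false {E G : Type} [Group G] (ρ : E → G) (e : E) (w : List (E × Bool)) :
    gau_P ρ ((e, false) :: w) = (ρ e)⁻¹ * gau_P ρ w := by
  simp [gau_P]

theorem gau_map {E E' G : Type} [Group G] (g : E → E') (ρ : E' → G) (w : List (E × Bool)) :
    gau_P ρ (w.map (Prod.map g id)) = gau_P (fun e => ρ (g e)) w := by
  induction w with
  | nil => simp [gau_P_nil]
  | cons a w ih =>
    obtain ⟨e, b⟩ := a
    cases b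
    · simp only [List.map_cons, Prod.map_apply, id_eq]
      rw [gau_P_cons_false, gau_P_cons_false, ih]
    · simp only [List.map_cons, Prod.map_apply, id_eq]
      rw [gau_P_cons_true, gau_P_cons_true, ih]

theorem gau_π_one {G : Type} [Group G] (nf : NF G) (d : ℕ) : nf.π d 1 = 0 :=
  (nf.π_ker d 1 (one_mem _)).2 (one_mem _)

theorem gau_π_inv {G : Type} [Group G] (nf : NF G) (d : ℕ) {x : G} (hx : x ∈ nf.Γ d) :
    nf.π d x⁻¹ = - nf.π d x := by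
  have h := nf.π_mul d x x⁻¹ hx (inv_mem hx)
  rw [mul_inv_cancel, gau_π_one] at h
  exact (neg_eq_of_add_eq_zero_right h.symm).symm

theorem gau_prod {E G : Type} [Group G] (nf : NF G) (β ρ : E → G) (d : ℕ)
    (hβ : ∀ e, β e ∈ nf.Γ d) (w : List (E × Bool)) :
    ∃ Θ ∈ nf.Γ d, gau_P (fun e => β e * ρ e) w = Θ * gau_P ρ w ∧
      ∀ i, nf.π d Θ i = Cpx.integ (fun e => nf.π d (β e) i) w := by
  induction w with
  | nil =>
    refine ⟨1, one_mem _, by simp [gau_P_nil], fun i => ?_⟩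
    rw [gau_π_one, Cpx.integ_nil]; rfl
  | cons a w ih =>
    obtain ⟨Θ, hΘ, hP, hπ⟩ := ih
    obtain ⟨e, b⟩ := a
    cases b
    · have hm : (β e)⁻¹ * Θ ∈ nf.Γ d := mul_mem (inv_mem (hβ e)) hΘ
      refine ⟨(ρ e)⁻¹ * ((β e)⁻¹ * Θ) * ρ e, ?_, ?_, fun i => ?_⟩
      · have := nf.conj_mem d (ρ e)⁻¹ _ hm
        rwa [inv_inv] at this
      · rw [gau_P_cons_false, gau_P_cons_false, hP]
        group
      · have h1 := nf.π_conj d (ρ e)⁻¹ _ hm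
        rw [inv_inv] at h1
        rw [h1, nf.π_mul d _ _ (inv_mem (hβ e)) hΘ, gau_π_inv nf d (hβ e), Cpx.integ_cons,
          Pi.add_apply, hπ i]
        simp
    · have hm : ρ e * Θ * (ρ e)⁻¹ ∈ nf.Γ d := nf.conj_mem d _ _ hΘ
      refine ⟨β e * (ρ e * Θ * (ρ e)⁻¹), mul_mem (hβ e) hm, ?_, fun i => ?_⟩
      · rw [gau_P_cons_true, gau_P_cons_true, hP]
        group
      · rw [nf.π_mul d _ _ (hβ e) hm, nf.π_conj d _ _ hΘ, Cpx.integ_cons, Pi.add_apply, hπ i]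
        simp

theorem gau_walk {V1 E1 G : Type} [Group G] (src tgt : E1 → V1) (φ : V1 → G) (ρ : E1 → G)
    (w : List (E1 × Bool)) : ∀ (x y : V1), IsWalk src tgt x w y →
    gau_P (fun e => (φ (src e))⁻¹ * ρ e * φ (tgt e)) w = (φ x)⁻¹ * gau_P ρ w * φ y := by
  induction w with
  | nil =>
    intro x y h
    have h' : x = y := h
    subst h'
    simp [gau_P_nil]
  | cons a w ih =>
    intro x y h
    obtain ⟨e, b⟩ := a
    obtain ⟨h1, h2⟩ := h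
    cases b
    · have h1' : tgt e = x := by simpa [oS] using h1
      have h2' : IsWalk src tgt (src e) w y := by simpa [oT] using h2
      rw [gau_P_cons_false, gau_P_cons_false, ih _ _ h2', ← h1']
      group
    · have h1' : src e = x := by simpa [oS] using h1
      have h2' : IsWalk src tgt (tgt e) w y := by simpa [oT] using h2
      rw [gau_P_cons_true, gau_P_cons_true, ih _ _ h2', ← h1']
      group

theorem gau_step {V1 E1 E2 I1 I2 : Type} (src tgt : E1 → V1) (g : E1 → E2)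
    (r1 : I1 → List (E1 × Bool)) (r2 : I2 → List (E2 × Bool)) (j : I1 → I2)
    (hj : ∀ i, (r1 i).map (Prod.map g id) = r2 (j i))
    (hcl : ∀ i, ∃ x, IsWalk src tgt x (r1 i) x)
    (H1 : ∀ a : E1 → ℚ, (∀ i, Cpx.integ a (r1 i) = 0) → ∃ (b : E2 → ℚ) (θ : V1 → ℚ),
      (∀ i, Cpx.integ b (r2 i) = 0) ∧ ∀ e, a e = b (g e) + θ (tgt e) - θ (src e))
    (H2 : ∀ δ : I2 → ℚ, ∃ b : E2 → ℚ, ∀ i, Cpx.integ b (r2 i) = δ i)
    {G : Type} [Group G] (nf : NF G) (ρ : E1 → G)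
    (hρ : ∀ i, gau_P ρ (r1 i) = 1) (d : ℕ)
    (hd : ∃ (ρ' : E2 → G) (φ : V1 → G), (∀ i, gau_P ρ' (r2 i) ∈ nf.Γ d) ∧
      ∀ e, (φ (src e))⁻¹ * ρ e * φ (tgt e) * (ρ' (g e))⁻¹ ∈ nf.Γ d) :
    ∃ (ρ' : E2 → G) (φ : V1 → G), (∀ i, gau_P ρ' (r2 i) ∈ nf.Γ (d + 1)) ∧
      ∀ e, (φ (src e))⁻¹ * ρ e * φ (tgt e) * (ρ' (g e))⁻¹ ∈ nf.Γ (d + 1) := by
  obtain ⟨ρ', φ, h1, h2⟩ := hd
  have hb : ∀ i' : nf.ι d, ∃ b : E2 → ℚ, ∀ i, Cpx.integ b (r2 i) =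
      - nf.π d (gau_P ρ' (r2 i)) i' := fun i' => H2 (fun i => - nf.π d (gau_P ρ' (r2 i)) i')
  choose b hb using hb
  have hβ : ∀ e : E2, ∃ x ∈ nf.Γ d, nf.π d x = fun i' => b i' e := fun e => nf.π_surj d _
  choose β hβm hβπ using hβ
  obtain ⟨ρ1, hρ1⟩ : ∃ ρ1 : E2 → G, ρ1 = fun e => β e * ρ' e := ⟨_, rfl⟩
  have h3 : ∀ i, gau_P ρ1 (r2 i) ∈ nf.Γ (d + 1) := by
    intro i
    obtain ⟨Θ, hΘ, hP, hπ⟩ := gau_prod nf β ρ' d hβm (r2 i)
    rw [hρ1, hP]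
    rw [← nf.π_ker d _ (mul_mem hΘ (h1 i)), nf.π_mul d _ _ hΘ (h1 i)]
    funext i'
    have h0 : (fun e => nf.π d (β e) i') = b i' := by
      funext e
      rw [hβπ]
    rw [Pi.add_apply, hπ i', h0, hb]
    simp
  obtain ⟨ρ'', hρ''⟩ : ∃ ρ'' : E1 → G, ρ'' = fun e => (φ (src e))⁻¹ * ρ e * φ (tgt e) :=
    ⟨_, rfl⟩
  have h4 : ∀ i, gau_P ρ'' (r1 i) = 1 := by
    intro i
    obtain ⟨x, hx⟩ := hcl i
    rw [hρ'', gau_walk src tgt φ ρ _ _ _ hx, hρ i]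
    group
  obtain ⟨a, ha0⟩ : ∃ a : E1 → G, a = fun e => ρ'' e * (ρ1 (g e))⁻¹ := ⟨_, rfl⟩
  have ha : ∀ e, a e ∈ nf.Γ d := by
    intro e
    have h0 : a e = ((φ (src e))⁻¹ * ρ e * φ (tgt e) * (ρ' (g e))⁻¹) * (β (g e))⁻¹ := by
      rw [ha0, hρ'', hρ1]
      group
    rw [h0]
    exact mul_mem (h2 e) (inv_mem (hβm _))
  have haρ : ρ'' = fun e => a e * ρ1 (g e) := by
    funext e
    rw [ha0]
    group
  have h5 : ∀ i i', Cpx.integ (fun e => nf.π d (a e) i') (r1 i) = 0 := by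
    intro i i'
    obtain ⟨Θ, hΘ, hP, hπ⟩ := gau_prod nf a (fun e => ρ1 (g e)) d ha (r1 i)
    rw [← haρ, h4, ← gau_map, hj] at hP
    have hΘ' : Θ ∈ nf.Γ (d + 1) := by
      have h0 : Θ = (gau_P ρ1 (r2 (j i)))⁻¹ := eq_inv_of_mul_eq_one_left hP.symm
      rw [h0]
      exact inv_mem (h3 _)
    rw [← hπ i', (nf.π_ker d Θ hΘ).2 hΘ']
    rfl
  have h6 : ∀ i' : nf.ι d, ∃ (b' : E2 → ℚ) (θ : V1 → ℚ), (∀ i, Cpx.integ b' (r2 i) = 0) ∧
      ∀ e, nf.π d (a e) i' = b' (g e) + θ (tgt e) - θ (src e) :=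
    fun i' => H1 _ (fun i => h5 i i')
  choose b' θ hb' hθ using h6
  have hβ' : ∀ e : E2, ∃ x ∈ nf.Γ d, nf.π d x = fun i' => b' i' e := fun e => nf.π_surj d _
  choose β' hβ'm hβ'π using hβ'
  have hψ : ∀ x : V1, ∃ y ∈ nf.Γ d, nf.π d y = fun i' => θ i' x := fun e => nf.π_surj d _
  choose ψ hψm hψπ using hψ
  refine ⟨fun e => β' e * ρ1 e, fun x => φ x * (ψ x)⁻¹, ?_, ?_⟩
  · intro i
    obtain ⟨Θ, hΘ, hP, hπ⟩ := gau_prod nf β' ρ1 d hβ'm (r2 i)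
    rw [hP]
    refine mul_mem ((nf.π_ker d _ hΘ).1 ?_) (h3 i)
    funext i'
    have h0 : (fun e => nf.π d (β' e) i') = b' i' := by
      funext e
      rw [hβ'π]
    rw [hπ i', h0, hb']
    rfl
  · intro e
    have h0 : (φ (src e) * (ψ (src e))⁻¹)⁻¹ * ρ e * (φ (tgt e) * (ψ (tgt e))⁻¹) *
        (β' (g e) * ρ1 (g e))⁻¹ = ψ (src e) * (a e *
          ((ρ1 (g e) * (ψ (tgt e))⁻¹ * (ρ1 (g e))⁻¹) * (β' (g e))⁻¹)) := by
      rw [ha0, hρ'']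
      group
    have m1 : (ψ (tgt e))⁻¹ ∈ nf.Γ d := inv_mem (hψm _)
    have m2 : ρ1 (g e) * (ψ (tgt e))⁻¹ * (ρ1 (g e))⁻¹ ∈ nf.Γ d := nf.conj_mem d _ _ m1
    have m3 : (β' (g e))⁻¹ ∈ nf.Γ d := inv_mem (hβ'm _)
    have m4 := mul_mem m2 m3
    have m5 := mul_mem (ha e) m4
    have m6 := mul_mem (hψm (src e)) m5
    show (φ (src e) * (ψ (src e))⁻¹)⁻¹ * ρ e * (φ (tgt e) * (ψ (tgt e))⁻¹) *
        (β' (g e) * ρ1 (g e))⁻¹ ∈ nf.Γ (d + 1)
    rw [h0, ← nf.π_ker d _ m6, nf.π_mul d _ _ (hψm _) m5, nf.π_mul d _ _ (ha e) m4,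
      nf.π_mul d _ _ m2 m3, nf.π_conj d _ _ m1, gau_π_inv nf d (hψm _), gau_π_inv nf d (hβ'm _),
      hψπ, hψπ, hβ'π]
    funext i'
    have := hθ i' e
    simp only [Pi.add_apply, Pi.neg_apply, Pi.zero_apply]
    linarith

theorem gauge {V1 E1 E2 I1 I2 : Type} (src tgt : E1 → V1) (g : E1 → E2)
    (r1 : I1 → List (E1 × Bool)) (r2 : I2 → List (E2 × Bool)) (j : I1 → I2)
    (hj : ∀ i, (r1 i).map (Prod.map g id) = r2 (j i))
    (hcl : ∀ i, ∃ x, IsWalk src tgt x (r1 i) x)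
    (H1 : ∀ a : E1 → ℚ, (∀ i, Cpx.integ a (r1 i) = 0) → ∃ (b : E2 → ℚ) (θ : V1 → ℚ),
      (∀ i, Cpx.integ b (r2 i) = 0) ∧ ∀ e, a e = b (g e) + θ (tgt e) - θ (src e))
    (H2 : ∀ δ : I2 → ℚ, ∃ b : E2 → ℚ, ∀ i, Cpx.integ b (r2 i) = δ i)
    {G : Type} [Group G] (nf : NF G) (ρ : E1 → G)
    (hρ : ∀ i, FreeGroup.lift ρ (FreeGroup.mk (r1 i)) = 1) (x : V1) (γ : List (E1 × Bool))
    (hγ : IsWalk src tgt x γ x)
    (hn : FreeGroup.mk (γ.map (Prod.map g id)) ∈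
      Subgroup.normalClosure (Set.range fun i => FreeGroup.mk (r2 i))) :
    FreeGroup.lift ρ (FreeGroup.mk γ) = 1 := by
  have hall : ∀ d : ℕ, ∃ (ρ' : E2 → G) (φ : V1 → G), (∀ i, gau_P ρ' (r2 i) ∈ nf.Γ d) ∧
      ∀ e, (φ (src e))⁻¹ * ρ e * φ (tgt e) * (ρ' (g e))⁻¹ ∈ nf.Γ d := by
    intro d
    induction d with
    | zero =>
      refine ⟨fun _ => 1, fun _ => 1, fun i => ?_, fun e => ?_⟩
      · rw [nf.zero]; exact Subgroup.mem_top _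
      · rw [nf.zero]; exact Subgroup.mem_top _
    | succ d ih => exact gau_step src tgt g r1 r2 j hj hcl H1 H2 nf ρ hρ d ih
  apply nf.sep
  intro d
  obtain ⟨ρ', φ, h1, h2⟩ := hall d
  have hN : (nf.Γ d).Normal := ⟨fun x hx g => nf.conj_mem d g x hx⟩
  have hC : ((nf.Γ d).comap (FreeGroup.lift ρ')).Normal := hN.comap _
  have h3 : gau_P ρ' (γ.map (Prod.map g id)) ∈ nf.Γ d := by
    have h0 : Subgroup.normalClosure (Set.range fun i => FreeGroup.mk (r2 i)) ≤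
        (nf.Γ d).comap (FreeGroup.lift ρ') := by
      apply Subgroup.normalClosure_le_normal
      rintro _ ⟨i, rfl⟩
      exact h1 i
    exact h0 hn
  obtain ⟨Θ, hΘ, hP, -⟩ := gau_prod nf
    (fun e => (φ (src e))⁻¹ * ρ e * φ (tgt e) * (ρ' (g e))⁻¹) (fun e => ρ' (g e)) d h2 γ
  have h4 : (fun e => (φ (src e))⁻¹ * ρ e * φ (tgt e) * (ρ' (g e))⁻¹ * ρ' (g e)) =
      fun e => (φ (src e))⁻¹ * ρ e * φ (tgt e) := by
    funext e
    group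
  rw [h4, gau_walk src tgt φ ρ _ _ _ hγ, ← gau_map g ρ' γ] at hP
  have h5 : (φ x)⁻¹ * gau_P ρ γ * φ x ∈ nf.Γ d := by
    rw [hP]
    exact mul_mem hΘ h3
  have h6 := nf.conj_mem d (φ x) _ h5
  have h7 : φ x * ((φ x)⁻¹ * gau_P ρ γ * φ x) * (φ x)⁻¹ = gau_P ρ γ := by group
  rw [h7] at h6
  exact h6

/-- Conclusion: if the words `r1` satisfy the free face condition (finitely many), then a closed walk whose image is in the normal
closure of the `r2` is in the normal closure of the `r1`. -/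
theorem gauge_fin {V1 E1 E2 I1 I2 : Type} (src tgt : E1 → V1) (g : E1 → E2)
    (r1 : I1 → List (E1 × Bool)) (r2 : I2 → List (E2 × Bool)) (j : I1 → I2)
    (hj : ∀ i, (r1 i).map (Prod.map g id) = r2 (j i))
    (hcl : ∀ i, ∃ x, IsWalk src tgt x (r1 i) x)
    (H1 : ∀ a : E1 → ℚ, (∀ i, Cpx.integ a (r1 i) = 0) → ∃ (b : E2 → ℚ) (θ : V1 → ℚ),
      (∀ i, Cpx.integ b (r2 i) = 0) ∧ ∀ e, a e = b (g e) + θ (tgt e) - θ (src e))
    (H2 : ∀ δ : I2 → ℚ, ∃ b : E2 → ℚ, ∀ i, Cpx.integ b (r2 i) = δ i)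
    (hdet : ∀ h : FreeGroup E1, h ∉ Subgroup.normalClosure (Set.range fun i => FreeGroup.mk (r1 i)) →
      ∃ (G : Type) (_ : Group G) (_ : Nonempty (NF G)) (θ : FreeGroup E1 →* G),
        (∀ i, θ (FreeGroup.mk (r1 i)) = 1) ∧ θ h ≠ 1)
    (x : V1) (γ : List (E1 × Bool)) (hγ : IsWalk src tgt x γ x)
    (hn : FreeGroup.mk (γ.map (Prod.map g id)) ∈
      Subgroup.normalClosure (Set.range fun i => FreeGroup.mk (r2 i))) :
    FreeGroup.mk γ ∈ Subgroup.normalClosure (Set.range fun i => FreeGroup.mk (r1 i)) := by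
  by_contra hc
  obtain ⟨G, hG, ⟨nf⟩, θ, h1, h2⟩ := hdet _ hc
  have h3 : θ = FreeGroup.lift (fun e => θ (FreeGroup.of e)) := by
    apply FreeGroup.ext_hom
    intro e
    simp
  apply h2
  rw [h3]
  refine gauge src tgt g r1 r2 j hj hcl H1 H2 nf _ ?_ x γ hγ hn
  intro i
  rw [← h3]
  exact h1 i

end Pool.Agent.H60.CI
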