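import Pool.Agent.H62.CI.MGC

/-!
# Row TIE (120 lines): Tietze elimination with free faces

PROOF. By induction on the number of elements of the finite set `T` (`Set.Finite.induction_on` does not fit directly: do induction on `T.ncard`, for all `g`).
`T = ∅`: then the normal closure is trivial, `g ≠ 1`; use `magnus`.
`T ≠ ∅`: apply `hff` to `S = T`: `σ ∈ T`, `r σ = w₁ ++ a :: w₂`, the letter `s = a.1` does not occur in `w₁, w₂` nor in `r σ'` for the other `σ' ∈ T`. Let
`u = mk w₁`, `v = mk w₂`, so `mk (r σ) = u * (of s)^{±1} * v` (sign given by `a.2`). Let `η : FreeGroup α →* FreeGroup α` be the lift of the function which sends `s` to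
`(u⁻¹ * v⁻¹)^{±1}` (same sign) and every other letter `t` to `of t`. Then
(1) `η (mk w) = mk w` for every word `w` in which `s` does not occur (induction on `w`). So `η (mk (r σ)) = u * (u⁻¹ * v⁻¹) * v = 1` and
`η (mk (r σ')) = mk (r σ')` for `σ' ∈ T`, `σ' ≠ σ`.
(2) For all `x`: `η x * x⁻¹` (equivalently: the classes of `η x` and `x` in the quotient by the normal closure of `mk (r σ)` agree): two homomorphisms
`FreeGroup α →* FreeGroup α ⧸ normalClosure {mk (r σ)}` which agree on the generators (`FreeGroup.ext_hom`); for the generator `s` this is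
`u⁻¹ v⁻¹ ≡ (of s)^{±1}` because `u (of s)^{±1} v ≡ 1`.
(3) `η g` is not in the normal closure of `T' = T \ {σ}`: otherwise `η g` is in the normal closure of `T`, and so is `g` by (2).
By induction (`hff` is inherited by `T' ⊆ T`) there are `G`, `θ'` with `θ' (mk (r σ')) = 1` for `σ' ∈ T'` and `θ' (η g) ≠ 1`. Put `θ = θ'.comp η`: it kills
`mk (r σ)` and the other `mk (r σ')` by (1), and `θ g ≠ 1`.
-/

set_option autoImplicit false

namespace Pool.Agent.H60.CI

theorem TIE_cons {α : Type} (c : α × Bool) (w : List (α × Bool)) :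
    FreeGroup.mk (c :: w) = FreeGroup.mk [c] * FreeGroup.mk w := by
  rw [FreeGroup.mul_mk]
  rfl

theorem tietze {α β : Type} (r : β → List (α × Bool)) (T : Set β) (hT : T.Finite)
    (hff : ∀ S : Set β, S ⊆ T → S.Nonempty → ∃ σ ∈ S, ∃ w₁ a w₂, r σ = w₁ ++ a :: w₂ ∧
      (∀ c ∈ w₁ ++ w₂, c.1 ≠ a.1) ∧ ∀ σ' ∈ S, σ' ≠ σ → ∀ c ∈ r σ', c.1 ≠ a.1)
    (g : FreeGroup α) (hg : g ∉ Subgroup.normalClosure ((fun b => FreeGroup.mk (r b)) '' T)) :
    ∃ (G : Type) (_ : Group G) (_ : Nonempty (NF G)) (θ : FreeGroup α →* G),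
      (∀ b ∈ T, θ (FreeGroup.mk (r b)) = 1) ∧ θ g ≠ 1 := by
  classical
  obtain ⟨n, hn⟩ : ∃ n, T.ncard = n := ⟨_, rfl⟩
  induction n generalizing T g with
  | zero =>
    have hT0 : T = ∅ := (Set.ncard_eq_zero hT).1 hn
    have hg1 : g ≠ 1 := by
      rintro rfl
      exact hg (one_mem _)
    obtain ⟨G, hG, hNF, θ, hθ⟩ := magnus g hg1
    refine ⟨G, hG, hNF, θ, ?_, hθ⟩
    intro b hb
    rw [hT0] at hb
    exact absurd hb (Set.notMem_empty b)
  | succ n ih =>
    have hne : T.Nonempty := by
      rw [Set.nonempty_iff_ne_empty]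
      rintro rfl
      simp at hn
    obtain ⟨σ, hσ, w₁, a, w₂, hr, h1, h2⟩ := hff T (fun _ h => h) hne
    obtain ⟨s, b⟩ := a
    obtain ⟨u, hu⟩ : ∃ u : FreeGroup α, u = FreeGroup.mk w₁ := ⟨_, rfl⟩
    obtain ⟨v, hv⟩ : ∃ v : FreeGroup α, v = FreeGroup.mk w₂ := ⟨_, rfl⟩
    have hrel : FreeGroup.mk (r σ) = u * (FreeGroup.mk [(s, b)] * v) := by
      rw [hr, ← FreeGroup.mul_mk, TIE_cons, hu, hv]
    obtain ⟨η, hη⟩ : ∃ η : FreeGroup α →* FreeGroup α, η = FreeGroup.lift
      (fun t => if t = s then (if b then u⁻¹ * v⁻¹ else (u⁻¹ * v⁻¹)⁻¹) else FreeGroup.of t) :=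
      ⟨_, rfl⟩
    have hηs : η (FreeGroup.mk [(s, b)]) = u⁻¹ * v⁻¹ := by
      rw [hη]
      cases b <;> simp [FreeGroup.lift_mk]
    have hηt : ∀ t, t ≠ s → η (FreeGroup.of t) = FreeGroup.of t := by
      intro t ht
      rw [hη, FreeGroup.lift_apply_of, if_neg ht]
    have hη1 : ∀ w : List (α × Bool), (∀ c ∈ w, c.1 ≠ s) → η (FreeGroup.mk w) = FreeGroup.mk w := by
      intro w
      induction w with
      | nil => intro _; exact map_one η
      | cons c w ihw =>
        intro hc
        rw [TIE_cons, map_mul, ihw fun c' hc' => hc c' (List.mem_cons_of_mem _ hc')]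
        congr 1
        obtain ⟨t, b'⟩ := c
        have ht : t ≠ s := hc (t, b') List.mem_cons_self
        cases b' with
        | true => exact hηt t ht
        | false =>
          have h3 : (FreeGroup.mk [(t, false)] : FreeGroup α) = (FreeGroup.of t)⁻¹ := rfl
          rw [h3, map_inv, hηt t ht]
    have hu1 : η u = u := by
      rw [hu]
      exact hη1 w₁ fun c hc => h1 c (List.mem_append_left _ hc)
    have hv1 : η v = v := by
      rw [hv]
      exact hη1 w₂ fun c hc => h1 c (List.mem_append_right _ hc)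
    have hησ : η (FreeGroup.mk (r σ)) = 1 := by
      rw [hrel, map_mul, map_mul, hηs, hu1, hv1]
      group
    -- the quotient
    obtain ⟨N, hN⟩ : ∃ N : Subgroup (FreeGroup α),
      N = Subgroup.normalClosure ((fun b => FreeGroup.mk (r b)) '' T) := ⟨_, rfl⟩
    have hNn : N.Normal := by
      rw [hN]
      exact Subgroup.normalClosure_normal
    rw [← hN] at hg
    have hσN : FreeGroup.mk (r σ) ∈ N := by
      rw [hN]
      exact Subgroup.subset_normalClosure ⟨σ, hσ, rfl⟩
    have hφ : (QuotientGroup.mk' N).comp η = QuotientGroup.mk' N := by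
      have h3 : QuotientGroup.mk' N (FreeGroup.mk [(s, b)]) = QuotientGroup.mk' N (u⁻¹ * v⁻¹) := by
        have h4 : QuotientGroup.mk' N (FreeGroup.mk (r σ)) = 1 := by
          rw [QuotientGroup.mk'_apply, QuotientGroup.eq_one_iff]
          exact hσN
        rw [hrel, map_mul, map_mul] at h4
        rw [map_mul, map_inv, map_inv, eq_mul_inv_iff_mul_eq, eq_inv_iff_mul_eq_one]
        exact mul_eq_one_iff_eq_inv.2 (eq_inv_of_mul_eq_one_right h4)
      refine FreeGroup.ext_hom _ _ fun t => ?_
      show QuotientGroup.mk' N (η (FreeGroup.of t)) = QuotientGroup.mk' N (FreeGroup.of t)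
      by_cases ht : t = s
      · subst ht
        cases b with
        | true =>
          have h5 : (FreeGroup.of t : FreeGroup α) = FreeGroup.mk [(t, true)] := rfl
          rw [h5, hηs, h3]
        | false =>
          have h5 : (FreeGroup.of t : FreeGroup α) = (FreeGroup.mk [(t, false)])⁻¹ := rfl
          rw [h5, map_inv, hηs, map_inv, map_inv, h3]
      · rw [hηt t ht]
    have hT'ncard : (T \ {σ}).ncard = n := by
      have h3 := Set.ncard_sdiff_singleton_add_one hσ hT
      omega
    have hT'sub : T \ {σ} ⊆ T := Set.sdiff_subset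
    have hg' : η g ∉ Subgroup.normalClosure ((fun b => FreeGroup.mk (r b)) '' (T \ {σ})) := by
      intro hcon
      have h3 : η g ∈ N := by
        rw [hN]
        exact Subgroup.normalClosure_mono (Set.image_mono hT'sub) hcon
      have h4 : QuotientGroup.mk' N (η g) = 1 := by
        rw [QuotientGroup.mk'_apply, QuotientGroup.eq_one_iff]
        exact h3
      have h5 : QuotientGroup.mk' N g = 1 := by
        rw [← h4]
        exact (DFunLike.congr_fun hφ g).symm
      rw [QuotientGroup.mk'_apply, QuotientGroup.eq_one_iff] at h5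
      exact hg h5
    obtain ⟨G, hG, hNF, θ', h3, h4⟩ := ih (T \ {σ}) (hT.subset hT'sub)
      (fun S hS hSne => hff S (hS.trans hT'sub) hSne) (η g) hg' hT'ncard
    refine ⟨G, hG, hNF, θ'.comp η, ?_, h4⟩
    intro b' hb'
    by_cases hbσ : b' = σ
    · show θ' (η (FreeGroup.mk (r b'))) = 1
      rw [hbσ, hησ, map_one]
    · show θ' (η (FreeGroup.mk (r b'))) = 1
      rw [hη1 (r b') (h2 b' hb' hbσ)]
      exact h3 b' ⟨hb', hbσ⟩

end Pool.Agent.H60.CI
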