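import Pool.Agent.H62.CI.FPE

/-!
# Finiteness of the sets of orbits of cells of an immersed complex which is finite modulo the group
-/

set_option autoImplicit false

namespace Pool.Agent.H60.CI

variable {H : Type} [Group H] {B : HCpx H}

theorem fpf_orb {T : Type} [MulAction H T] (S : Set T) (hS : S.Finite)
    (h : ∀ x : T, ∃ k : H, ∃ s ∈ S, x = k • s) : Finite (MulAction.orbitRel.Quotient H T) := by
  have := hS.to_subtype
  refine Finite.of_surjective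
    (fun s : S => (Quotient.mk'' (s : T) : MulAction.orbitRel.Quotient H T)) ?_
  intro q
  induction q using Quotient.ind with
  | _ x =>
    obtain ⟨k, s, hs, rfl⟩ := h x
    exact ⟨⟨s, hs⟩, Quotient.sound ⟨k⁻¹, inv_smul_smul k s⟩⟩

theorem fpf_V (Z : HIm B) (hF : Z.HFin) : Finite (MulAction.orbitRel.Quotient H Z.toHCpx.V) := by
  obtain ⟨S, hS⟩ := hF.orb
  exact fpf_orb (T := Z.V) (S : Set Z.V) S.finite_toSet hS

theorem fpf_E (Z : HIm B) (hF : Z.HFin) : Finite (MulAction.orbitRel.Quotient H Z.toHCpx.E) := by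
  obtain ⟨S, hS⟩ := hF.orb
  refine fpf_orb (T := Z.Edg) {ε | Z.esrc ε ∈ S} ?_ ?_
  · have h1 : {ε : Z.Edg | Z.esrc ε ∈ S} ⊆ ⋃ x ∈ S, {ε : Z.Edg | Z.esrc ε = x} := by
      intro ε hε
      simp only [Set.mem_iUnion]
      exact ⟨_, hε, rfl⟩
    refine Set.Finite.subset (Set.Finite.biUnion S.finite_toSet fun x _ => ?_) h1
    refine Set.Finite.of_finite_image (f := Z.epr) ?_ ?_
    · refine (hF.out x).subset ?_
      rintro _ ⟨ε, hε, rfl⟩
      have h2 : Z.esrc ε = x := hε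
      exact ⟨Z.etgt ε, by rw [← h2]; exact ε.2⟩
    · intro ε hε ε' hε' he
      have h2 : Z.esrc ε = x := hε
      have h3 : Z.esrc ε' = x := hε'
      exact Z.toIm.hom_isImm.src_inj ε ε' (h2.trans h3.symm) he
  · intro ε
    obtain ⟨k, s, hs, hx⟩ := hS (Z.esrc ε)
    refine ⟨k, k⁻¹ • ε, ?_, (smul_inv_smul k ε).symm⟩
    show k⁻¹ • Z.esrc ε ∈ S
    rw [hx, inv_smul_smul]
    exact hs

theorem fpf_F (Z : HIm B) (hF : Z.HFin) : Finite (MulAction.orbitRel.Quotient H Z.toHCpx.F) := by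
  obtain ⟨S, hS⟩ := hF.orb
  refine fpf_orb (T := Z.Mks) {τ | Z.mbase τ ∈ S} ?_ ?_
  · have h1 : {τ : Z.Mks | Z.mbase τ ∈ S} ⊆ ⋃ x ∈ S, {τ : Z.Mks | Z.mbase τ = x} := by
      intro τ hτ
      simp only [Set.mem_iUnion]
      exact ⟨_, hτ, rfl⟩
    refine Set.Finite.subset (Set.Finite.biUnion S.finite_toSet fun x _ => ?_) h1
    refine Set.Finite.of_finite_image (f := Z.mpr) ?_ ?_
    · refine (hF.mks x).subset ?_
      rintro _ ⟨τ, hτ, rfl⟩
      have h2 : Z.mbase τ = x := hτ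
      have h3 : Z.mark (Z.mbase τ) (Z.mpr τ) := τ.2
      rw [h2] at h3
      exact h3
    · intro τ hτ τ' hτ' he
      have h2 : Z.mbase τ = x := hτ
      have h3 : Z.mbase τ' = x := hτ'
      exact Z.mks_ext (h2.trans h3.symm) he
  · intro τ
    obtain ⟨k, s, hs, hx⟩ := hS (Z.mbase τ)
    refine ⟨k, k⁻¹ • τ, ?_, (smul_inv_smul k τ).symm⟩
    show k⁻¹ • Z.mbase τ ∈ S
    rw [hx, inv_smul_smul]
    exact hs

theorem fp_of_weakSC_aux (Z : HIm B) (hC : Z.toHCpx.toCpx.Conn) (hF : Z.HFin)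
    (hW : ∀ (v : Z.toHCpx.V) (w : List (Z.toHCpx.E × Bool)), Z.toHCpx.toCpx.Walk v w v →
      FreeGroup.mk w ∈ Subgroup.normalClosure
        (Set.range fun τ : Z.toHCpx.F => FreeGroup.mk (Z.toHCpx.bd τ))) :
    Group.IsFinitelyPresented H :=
  fp_end Z.toHCpx hC (fpf_V Z hF) (fpf_E Z hF) (fpf_F Z hF) hW

end Pool.Agent.H60.CI
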