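import Pool.Agent.H62.CI.EXZ
import Pool.Agent.H62.CI.FPF
import Pool.Agent.H60.CI.Good
import Pool.Agent.H60.CI.Hz

/-!
# Existence of a minimal `Z`; finite presentation at the end
-/

set_option autoImplicit false

namespace Pool.Agent.H60.CI

open Pool.Agent.H62.CI

variable {H : Type} [Group H]

theorem exists_good (B : HCpx H) (hC : B.toCpx.Conn) (hSC : B.toCpx.LolliSC)
    (hfg : Group.FG H) (hFP : FPtwo ℚ H) : ∃ Z : HIm B, Z.Good := by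
  obtain ⟨Z, h1, h2, h3⟩ := exists_Z B hC hSC hfg hFP
  exact ⟨Z, ⟨h1, h2, H1z_of_H1Zero h3⟩⟩

theorem exists_min (B : HCpx H) (h : ∃ Z : HIm B, Z.Good) :
    ∃ Z : HIm B, Z.Good ∧ ∀ Z' : HIm B, Z'.Good → Z.orbs ≤ Z'.orbs := by
  classical
  have hex : ∃ n, ∃ Z : HIm B, Z.Good ∧ Z.orbs = n := by
    obtain ⟨Z, hZ⟩ := h
    exact ⟨_, Z, hZ, rfl⟩
  obtain ⟨Z, hZ, hn⟩ := Nat.find_spec hex
  refine ⟨Z, hZ, fun Z' hZ' => ?_⟩
  rw [hn]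
  exact Nat.find_min' hex ⟨Z', hZ', rfl⟩

theorem fp_of_weakSC {B : HCpx H} (Z : HIm B) (hC : Z.toHCpx.toCpx.Conn) (hF : Z.HFin)
    (hW : Z.toHCpx.toCpx.WeakSC) : Group.IsFinitelyPresented H :=
  fp_of_weakSC_aux Z hC hF hW

end Pool.Agent.H60.CI
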