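import Pool.Agent.H62.CI.FP

/-!
# Groups of type FP_2 over the rationals are finitely generated
-/

set_option autoImplicit false

namespace Pool.Agent.H62.CI



theorem FPG_aug_single {H : Type} [Group H] (h : H) (q : ℚ) : aug (MonoidAlgebra.single h q) = q := by
  show (MonoidAlgebra.single h q).coeff.sum (fun _ r => r) = q
  rw [MonoidAlgebra.coeff_single, Finsupp.sum_single_index rfl]

theorem FPG_eps {H : Type} [Group H] {a : ℕ} (ε : (Fin a → MonoidAlgebra ℚ H) →ₗ[ℚ] ℚ)
    (hε : ∀ (h : H) x, ε (MonoidAlgebra.single h (1 : ℚ) • x) = ε x) (r : MonoidAlgebra ℚ H)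
    (x : Fin a → MonoidAlgebra ℚ H) : ε (r • x) = aug r * ε x := by
  induction r using MonoidAlgebra.induction_linear with
  | zero => rw [zero_smul, map_zero, map_zero, zero_mul]
  | add r s hr hs => rw [add_smul, map_add, map_add, hr, hs, add_mul]
  | single h q =>
    have e1 : MonoidAlgebra.single h q = q • MonoidAlgebra.single h (1 : ℚ) := by
      rw [MonoidAlgebra.smul_single, smul_eq_mul, mul_one]
    rw [e1, smul_assoc, map_smul, hε, map_smul, FPG_aug_single, smul_eq_mul, smul_eq_mul, mul_one]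

theorem FPG_decomp {H : Type} [Group H] {a : ℕ} (x : Fin a → MonoidAlgebra ℚ H) :
    x = ∑ i, x i • (Pi.single i (1 : MonoidAlgebra ℚ H) : Fin a → MonoidAlgebra ℚ H) := by
  funext j
  rw [Finset.sum_apply, Finset.sum_eq_single j]
  · rw [Pi.smul_apply, Pi.single_eq_same, smul_eq_mul, mul_one]
  · intro b _ hb
    rw [Pi.smul_apply, Pi.single_eq_of_ne (Ne.symm hb), smul_zero]
  · intro h
    exact absurd (Finset.mem_univ j) h

theorem FPG_map {H : Type} [Group H] (K : Subgroup H) (r : MonoidAlgebra ℚ H) (hr : ∀ h ∈ r.coeff.support, h ∈ K)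
    (g : H) (q : ℚ) :
    Finsupp.mapDomain (fun h : H => (h : H ⧸ K)) (MonoidAlgebra.single g q * r).coeff =
      Finsupp.single (g : H ⧸ K) (q * aug r) := by
  have e1 : MonoidAlgebra.single g q * r =
      r.coeff.sum (fun h s => MonoidAlgebra.single (g * h) (q * s)) := by
    rw [MonoidAlgebra.mul_def, MonoidAlgebra.coeff_single, Finsupp.sum_single_index]
    simp
  rw [e1, MonoidAlgebra.coeff_finsuppSum, Finsupp.sum, Finsupp.mapDomain_finsetSum]
  have e2 : aug r = ∑ h ∈ r.coeff.support, r.coeff h := rfl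
  rw [e2, Finset.mul_sum, Finsupp.single_finsetSum]
  apply Finset.sum_congr rfl
  intro h hh
  rw [MonoidAlgebra.coeff_single, Finsupp.mapDomain_single]
  have e3 : ((g * h : H) : H ⧸ K) = (g : H ⧸ K) := by
    rw [QuotientGroup.eq]
    simpa using K.inv_mem (hr h hh)
  rw [e3]

theorem fptwo_fg {H : Type} [Group H] (h : FPtwo ℚ H) : Group.FG H := by
  classical
  obtain ⟨a, b, c, ε, d₁, d₂, hε, hsurj, hex, -⟩ := h
  -- the finite set
  let S : Finset H := Finset.univ.biUnion (fun j : Fin b => Finset.univ.biUnion (fun i : Fin a =>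
    ((d₁ (Pi.single j 1)) i).coeff.support))
  let K : Subgroup H := Subgroup.closure (S : Set H)
  have hS : ∀ (j : Fin b) (i : Fin a), ∀ h ∈ ((d₁ (Pi.single j 1)) i).coeff.support, h ∈ K := by
    intro j i h hh
    apply Subgroup.subset_closure
    rw [Finset.mem_coe, Finset.mem_biUnion]
    refine ⟨j, Finset.mem_univ _, ?_⟩
    rw [Finset.mem_biUnion]
    exact ⟨i, Finset.mem_univ _, hh⟩
  let mk : H → H ⧸ K := fun h => (h : H ⧸ K)
  let Φ : (Fin a → MonoidAlgebra ℚ H) → (H ⧸ K →₀ ℚ) := fun x =>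
    ∑ i, ε (Pi.single i 1) • Finsupp.mapDomain mk (x i).coeff
  have hΦ : ∀ x, Φ x = ∑ i, ε (Pi.single i 1) • Finsupp.mapDomain mk (x i).coeff := fun x => rfl
  have hadd : ∀ x y, Φ (x + y) = Φ x + Φ y := by
    intro x y
    rw [hΦ, hΦ, hΦ, ← Finset.sum_add_distrib]
    apply Finset.sum_congr rfl
    intro i _
    rw [Pi.add_apply, MonoidAlgebra.coeff_add, Finsupp.mapDomain_add, smul_add]
  have hzero : Φ 0 = 0 := by
    rw [hΦ]
    apply Finset.sum_eq_zero
    intro i _
    rw [Pi.zero_apply, MonoidAlgebra.coeff_zero, Finsupp.mapDomain_zero, smul_zero]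
  have hsum : ∀ (n : ℕ) (f : Fin n → (Fin a → MonoidAlgebra ℚ H)), Φ (∑ j, f j) = ∑ j, Φ (f j) := by
    intro n f
    let Φ' : (Fin a → MonoidAlgebra ℚ H) →+ (H ⧸ K →₀ ℚ) := ⟨⟨Φ, hzero⟩, hadd⟩
    exact map_sum Φ' f Finset.univ
  have hgen : ∀ (r : MonoidAlgebra ℚ H) (j : Fin b), Φ (r • d₁ (Pi.single j 1)) = 0 := by
    intro r j
    induction r using MonoidAlgebra.induction_linear with
    | zero => rw [zero_smul, hzero]
    | add r s hr hs => rw [add_smul, hadd, hr, hs, add_zero]
    | single g q =>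
      have h0 : ε (d₁ (Pi.single j 1)) = 0 := (hex _).2 ⟨_, rfl⟩
      have h1 : ε (d₁ (Pi.single j 1)) = ∑ i, aug ((d₁ (Pi.single j 1)) i) * ε (Pi.single i 1) := by
        conv_lhs => rw [FPG_decomp (d₁ (Pi.single j 1)), map_sum]
        apply Finset.sum_congr rfl
        intro i _
        rw [FPG_eps ε hε]
      rw [hΦ]
      have h2 : ∀ i, ε (Pi.single i 1) • Finsupp.mapDomain mk
          ((MonoidAlgebra.single g q • d₁ (Pi.single j 1)) i).coeff =
          Finsupp.single (g : H ⧸ K) (q * (aug ((d₁ (Pi.single j 1)) i) * ε (Pi.single i 1))) := by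
        intro i
        rw [Pi.smul_apply, smul_eq_mul, FPG_map K _ (hS j i) g q, Finsupp.smul_single, smul_eq_mul]
        congr 1
        ring
      rw [Finset.sum_congr rfl (fun i _ => h2 i), ← Finsupp.single_finsetSum, ← Finset.mul_sum,
        ← h1, h0, mul_zero, Finsupp.single_zero]
  have hker : ∀ x, ε x = 0 → Φ x = 0 := by
    intro x hx
    obtain ⟨y, rfl⟩ := (hex x).1 hx
    rw [FPG_decomp y, map_sum, hsum]
    apply Finset.sum_eq_zero
    intro j _
    rw [map_smul, hgen]
  -- some i has nonzero image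
  have hi : ∃ i, ε (Pi.single i 1) ≠ 0 := by
    by_contra hcon
    push Not at hcon
    obtain ⟨x, hx⟩ := hsurj 1
    rw [FPG_decomp x, map_sum] at hx
    have : ∑ i, ε (x i • (Pi.single i (1 : MonoidAlgebra ℚ H) : Fin a → MonoidAlgebra ℚ H)) = 0 := by
      apply Finset.sum_eq_zero
      intro i _
      rw [FPG_eps ε hε, hcon i, mul_zero]
    rw [this] at hx
    exact zero_ne_one hx
  obtain ⟨i, hi⟩ := hi
  have htop : K = ⊤ := by
    rw [eq_top_iff]
    intro h _
    have hx : ε ((MonoidAlgebra.single h (1 : ℚ) - 1) • (Pi.single i (1 : MonoidAlgebra ℚ H) : Fin a → MonoidAlgebra ℚ H)) = 0 := by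
      rw [sub_smul, map_sub, hε, one_smul, sub_self]
    have h1 := hker _ hx
    rw [hΦ, Finset.sum_eq_single i] at h1
    · rw [Pi.smul_apply, Pi.single_eq_same, smul_eq_mul, mul_one, smul_eq_zero] at h1
      have h2 := h1.resolve_left hi
      have e1 : (MonoidAlgebra.single h (1 : ℚ) - 1 : MonoidAlgebra ℚ H).coeff =
          Finsupp.single h 1 - Finsupp.single 1 1 := rfl
      rw [e1, sub_eq_add_neg, Finsupp.mapDomain_add, ← Finsupp.single_neg, Finsupp.mapDomain_single,
        Finsupp.mapDomain_single, Finsupp.single_neg, ← sub_eq_add_neg, sub_eq_zero] at h2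
      have h3 : mk h = mk 1 := by
        rcases Finsupp.single_eq_single_iff _ _ _ _ |>.1 h2 with h3 | h3
        · exact h3.1
        · exact absurd h3.1 one_ne_zero
      have h4 : (1 : H)⁻¹ * h ∈ K := by
        have : ((1 : H) : H ⧸ K) = (h : H ⧸ K) := h3.symm
        exact QuotientGroup.eq.1 this
      simpa using h4
    · intro k _ hk
      rw [Pi.smul_apply, Pi.single_eq_of_ne (by exact hk), smul_zero, MonoidAlgebra.coeff_zero,
        Finsupp.mapDomain_zero, smul_zero]
    · intro h'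
      exact absurd (Finset.mem_univ i) h'
  exact ⟨⟨S, htop⟩⟩

end Pool.Agent.H62.CI
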