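import Pool.Agent.H62.CI.FP

/-!
# Row FPZ (170 lines): type FP_2 over ℤ implies type FP_2 over ℚ

PROOF. Let `ι : MonoidAlgebra ℤ H →+* MonoidAlgebra ℚ H` be the ring homomorphism induced by `ℤ → ℚ` (`MonoidAlgebra.mapRangeRingHom` /
coefficientwise cast); it is injective, and every `x : MonoidAlgebra ℚ H` has `m • x = ι x'` for some `m : ℕ`, `m ≠ 0` (common denominator of the
finitely many coefficients; e.g. `IsLocalization.exist_integer_multiples_of_finset (nonZeroDivisors ℤ)` or a product of the denominators). The same for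
finitely many entries: for `x : Fin b → MonoidAlgebra ℚ H` there are `m ≠ 0` and `x'` with `m • x = ι ∘ x'`.
Let `ε, d₁, d₂` be the data over ℤ. Put (matrices): `D₁ x = ∑ j, x j • (ι ∘ d₁ (Pi.single j 1))`, `D₂` similarly, and
`E x = ∑ i, (x i).coeff.sum (fun _ q => q * (ε (Pi.single i 1) : ℚ))`, a ℚ-linear, `H`-invariant map. Then
`D₁ (ι ∘ y) = ι ∘ (d₁ y)`, `D₂ (ι ∘ y) = ι ∘ (d₂ y)` (write `y = ∑ y_j • Pi.single j 1`) and `E (ι ∘ x) = (ε x : ℚ)` (write `x = ∑ x_i • Pi.single i 1` and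
`x_i = ∑ single h (x_i h)`; `ε (single h r • e_i) = r * ε e_i` by ℤ-linearity and invariance).
* `E` is surjective: `ε x0 = 1` for some `x0` and `E (q • (ι ∘ x0)) = q`.
* `E x = 0 ↔ ∃ y, D₁ y = x`. If `x = D₁ y`: choose `m ≠ 0` with `m • y = ι ∘ y'`; `m * E x = E (D₁ (ι ∘ y')) = ε (d₁ y') = 0`. If `E x = 0`: choose
  `m • x = ι ∘ x'`; `ε x' = 0` so `x' = d₁ y'` and `x = D₁ (m⁻¹ • (ι ∘ y'))` (`D₁` is ℚ-linear).
* `D₁ x = 0 ↔ ∃ y, D₂ y = x` in the same way, using the injectivity of `ι`.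
-/

set_option autoImplicit false

namespace Pool.Agent.H62.CI

variable {H : Type} [Group H]

/-- the embedding of the group rings -/
noncomputable def FPZ_i (H : Type) [Group H] : MonoidAlgebra ℤ H →+* MonoidAlgebra ℚ H :=
  MonoidAlgebra.mapRingHom H (Int.castRingHom ℚ)

theorem FPZ_coeff (x : MonoidAlgebra ℤ H) (k : H) :
    (FPZ_i H x).coeff k = (x.coeff k : ℚ) := by
  unfold FPZ_i
  rw [MonoidAlgebra.coeff_mapRingHom]
  rfl

theorem FPZ_single (k : H) (r : ℤ) :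
    FPZ_i H (MonoidAlgebra.single k r) = MonoidAlgebra.single k (r : ℚ) := by
  unfold FPZ_i
  rw [MonoidAlgebra.mapRingHom_single]
  rfl

theorem FPZ_inj : Function.Injective (FPZ_i H) := by
  intro x y hxy
  ext k
  have h1 : (FPZ_i H x).coeff k = (FPZ_i H y).coeff k := by rw [hxy]
  rw [FPZ_coeff, FPZ_coeff] at h1
  exact_mod_cast h1

theorem FPZ_smul (m : ℤ) (x : MonoidAlgebra ℤ H) :
    (m : ℚ) • FPZ_i H x = FPZ_i H (m • x) := by
  ext k
  rw [MonoidAlgebra.coeff_smul_apply, FPZ_coeff, FPZ_coeff, MonoidAlgebra.coeff_smul_apply]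
  simp

theorem FPZ_den1 (x : MonoidAlgebra ℚ H) :
    ∃ m : ℤ, m ≠ 0 ∧ ∃ x' : MonoidAlgebra ℤ H, (m : ℚ) • x = FPZ_i H x' := by
  induction x using MonoidAlgebra.induction_linear with
  | zero => exact ⟨1, one_ne_zero, 0, by simp⟩
  | add x y hx hy =>
    obtain ⟨m, hm, x', hx'⟩ := hx
    obtain ⟨k, hk, y', hy'⟩ := hy
    refine ⟨m * k, mul_ne_zero hm hk, k • x' + m • y', ?_⟩
    rw [map_add, ← FPZ_smul, ← FPZ_smul, ← hx', ← hy', smul_add, smul_smul, smul_smul]
    push_cast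
    rw [mul_comm (k : ℚ) (m : ℚ)]
  | single h r =>
    refine ⟨r.den, by exact_mod_cast r.den_nz, MonoidAlgebra.single h r.num, ?_⟩
    rw [FPZ_single, MonoidAlgebra.smul_single, smul_eq_mul]
    congr 1
    push_cast
    rw [mul_comm]
    exact Rat.mul_den_eq_num r

theorem FPZ_den {b : ℕ} (x : Fin b → MonoidAlgebra ℚ H) :
    ∃ m : ℤ, m ≠ 0 ∧ ∃ x' : Fin b → MonoidAlgebra ℤ H,
      (m : ℚ) • x = fun j => FPZ_i H (x' j) := by
  choose m hm x' hx' using fun j => FPZ_den1 (x j)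
  have h1 : ∀ j, ∃ c : ℤ, ∏ i, m i = m j * c := fun j =>
    Finset.dvd_prod_of_mem m (Finset.mem_univ j)
  choose c hc using h1
  refine ⟨∏ i, m i, Finset.prod_ne_zero_iff.2 fun i _ => hm i, fun j => c j • x' j, ?_⟩
  funext j
  rw [← FPZ_smul, ← hx', Pi.smul_apply, smul_smul, hc j]
  push_cast
  rw [mul_comm]

/-- the matrix map -/
noncomputable def FPZ_D {a b : ℕ}
    (d : (Fin b → MonoidAlgebra ℤ H) →ₗ[MonoidAlgebra ℤ H] (Fin a → MonoidAlgebra ℤ H)) :
    (Fin b → MonoidAlgebra ℚ H) →ₗ[MonoidAlgebra ℚ H] (Fin a → MonoidAlgebra ℚ H) where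
  toFun := fun x i => ∑ j, x j * FPZ_i H (d (Pi.single j 1) i)
  map_add' := fun x y => by
    funext i
    simp [add_mul, Finset.sum_add_distrib]
  map_smul' := fun r x => by
    funext i
    simp [Finset.mul_sum, mul_assoc]

theorem FPZ_D_i {a b : ℕ}
    (d : (Fin b → MonoidAlgebra ℤ H) →ₗ[MonoidAlgebra ℤ H] (Fin a → MonoidAlgebra ℤ H))
    (y : Fin b → MonoidAlgebra ℤ H) :
    FPZ_D d (fun j => FPZ_i H (y j)) = fun i => FPZ_i H (d y i) := by
  funext i
  have h1 : d y = ∑ j, y j • d (Pi.single j 1) := by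
    have h2 : y = ∑ j, y j • (Pi.single j 1 : Fin b → MonoidAlgebra ℤ H) := by
      funext k
      rw [Finset.sum_apply, Finset.sum_eq_single k]
      · simp
      · intro j _ hj
        simp [hj.symm]
      · intro h
        exact absurd (Finset.mem_univ k) h
    conv_lhs => rw [h2]
    rw [map_sum]
    exact Finset.sum_congr rfl fun j _ => map_smul d _ _
  rw [h1, Finset.sum_apply, map_sum]
  change ∑ j, FPZ_i H (y j) * FPZ_i H (d (Pi.single j 1) i) = _
  refine Finset.sum_congr rfl fun j _ => ?_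
  rw [Pi.smul_apply, smul_eq_mul, map_mul]

theorem FPZ_D_smul {a b : ℕ}
    (d : (Fin b → MonoidAlgebra ℤ H) →ₗ[MonoidAlgebra ℤ H] (Fin a → MonoidAlgebra ℤ H))
    (m : ℚ) (x : Fin b → MonoidAlgebra ℚ H) : FPZ_D d (m • x) = m • FPZ_D d x := by
  funext i
  change ∑ j, (m • x) j * FPZ_i H (d (Pi.single j 1) i) =
    m • ∑ j, x j * FPZ_i H (d (Pi.single j 1) i)
  rw [Finset.smul_sum]
  exact Finset.sum_congr rfl fun j _ => by rw [Pi.smul_apply, smul_mul_assoc]

omit [Group H] in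
theorem FPZ_aug_single (k : H) (r : ℚ) : aug (MonoidAlgebra.single k r) = r := by
  change (MonoidAlgebra.single k r).coeff.sum (fun _ r => r) = r
  rw [MonoidAlgebra.coeff_single]
  exact Finsupp.sum_single_index rfl

theorem FPZ_aug_inv (k : H) (z : MonoidAlgebra ℚ H) :
    aug (MonoidAlgebra.single k (1 : ℚ) * z) = aug z := by
  induction z using MonoidAlgebra.induction_linear with
  | zero => simp
  | add x y hx hy => rw [mul_add, map_add, map_add, hx, hy]
  | single h r =>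
    rw [MonoidAlgebra.single_mul_single, FPZ_aug_single, FPZ_aug_single, one_mul]

/-- the augmentation -/
noncomputable def FPZ_E {a : ℕ} (ε : (Fin a → MonoidAlgebra ℤ H) →ₗ[ℤ] ℤ) :
    (Fin a → MonoidAlgebra ℚ H) →ₗ[ℚ] ℚ where
  toFun := fun x => ∑ i, aug (x i) * (ε (Pi.single i 1) : ℚ)
  map_add' := fun x y => by
    simp [add_mul, Finset.sum_add_distrib]
  map_smul' := fun r x => by
    simp [Finset.mul_sum, mul_assoc]

theorem FPZ_E_i {a : ℕ} (ε : (Fin a → MonoidAlgebra ℤ H) →ₗ[ℤ] ℤ)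
    (hε : ∀ (h : H) x, ε (MonoidAlgebra.single h (1 : ℤ) • x) = ε x)
    (x : Fin a → MonoidAlgebra ℤ H) : FPZ_E ε (fun i => FPZ_i H (x i)) = (ε x : ℚ) := by
  have h1 : ∀ i (z : MonoidAlgebra ℤ H),
      aug (FPZ_i H z) * (ε (Pi.single i 1) : ℚ) = (ε (Pi.single i z) : ℚ) := by
    intro i z
    induction z using MonoidAlgebra.induction_linear with
    | zero => simp
    | add x y hx hy =>
      rw [map_add, map_add, add_mul, hx, hy, Pi.single_add, map_add]
      push_cast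
      rfl
    | single h r =>
      rw [FPZ_single, FPZ_aug_single]
      have h2 : (Pi.single i (MonoidAlgebra.single h r) : Fin a → MonoidAlgebra ℤ H) =
          r • (MonoidAlgebra.single h (1 : ℤ) • Pi.single i 1) := by
        funext k
        by_cases hk : k = i
        · subst hk
          simp only [Pi.single_eq_same, Pi.smul_apply, smul_eq_mul, mul_one]
          rw [MonoidAlgebra.smul_single]
          simp
        · simp [hk]
      rw [h2, map_smul, hε]
      simp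
  have h2 : ε x = ∑ i, ε (Pi.single i (x i)) := by
    conv_lhs => rw [← Finset.univ_sum_single x]
    rw [map_sum]
  rw [h2]
  push_cast
  change ∑ i, aug (FPZ_i H (x i)) * (ε (Pi.single i 1) : ℚ) = _
  exact Finset.sum_congr rfl fun i _ => h1 i (x i)

theorem fptwo_rat {H : Type} [Group H] (h : FPtwo ℤ H) : FPtwo ℚ H := by
  obtain ⟨a, b, c, ε, d₁, d₂, hinv, hsurj, hex1, hex2⟩ := h
  refine ⟨a, b, c, FPZ_E ε, FPZ_D d₁, FPZ_D d₂, ?_, ?_, ?_, ?_⟩
  · intro h x
    change ∑ i, aug ((MonoidAlgebra.single h (1 : ℚ) • x) i) * (ε (Pi.single i 1) : ℚ) =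
      ∑ i, aug (x i) * (ε (Pi.single i 1) : ℚ)
    refine Finset.sum_congr rfl fun i _ => ?_
    rw [Pi.smul_apply, smul_eq_mul, FPZ_aug_inv]
  · intro r
    obtain ⟨x0, hx0⟩ := hsurj 1
    refine ⟨r • fun i => FPZ_i H (x0 i), ?_⟩
    rw [map_smul, FPZ_E_i ε hinv, hx0]
    simp
  · intro x
    constructor
    · intro hx
      obtain ⟨m, hm, x', hx'⟩ := FPZ_den x
      have h1 : ((ε x' : ℤ) : ℚ) = 0 := by
        rw [← FPZ_E_i ε hinv, ← hx', map_smul, hx, smul_zero]
      have h2 : ε x' = 0 := by exact_mod_cast h1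
      obtain ⟨y', hy'⟩ := (hex1 x').1 h2
      have hm' : (m : ℚ) ≠ 0 := by exact_mod_cast hm
      refine ⟨(m : ℚ)⁻¹ • fun j => FPZ_i H (y' j), ?_⟩
      rw [FPZ_D_smul, FPZ_D_i, hy', ← hx', smul_smul, inv_mul_cancel₀ hm', one_smul]
    · rintro ⟨y, rfl⟩
      obtain ⟨m, hm, y', hy'⟩ := FPZ_den y
      have hm' : (m : ℚ) ≠ 0 := by exact_mod_cast hm
      have h1 : (m : ℚ) • FPZ_E ε (FPZ_D d₁ y) = 0 := by
        rw [← map_smul, ← FPZ_D_smul, hy', FPZ_D_i, FPZ_E_i ε hinv, (hex1 _).2 ⟨y', rfl⟩,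
          Int.cast_zero]
      rcases smul_eq_zero.1 h1 with h2 | h2
      · exact absurd h2 hm'
      · exact h2
  · intro x
    constructor
    · intro hx
      obtain ⟨m, hm, x', hx'⟩ := FPZ_den x
      have h2 : d₁ x' = 0 := by
        have h1 : (fun i => FPZ_i H (d₁ x' i)) = 0 := by
          rw [← FPZ_D_i, ← hx', FPZ_D_smul, hx, smul_zero]
        funext i
        apply FPZ_inj
        rw [Pi.zero_apply, map_zero]
        exact congrFun h1 i
      obtain ⟨y', hy'⟩ := (hex2 x').1 h2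
      have hm' : (m : ℚ) ≠ 0 := by exact_mod_cast hm
      refine ⟨(m : ℚ)⁻¹ • fun j => FPZ_i H (y' j), ?_⟩
      rw [FPZ_D_smul, FPZ_D_i, hy', ← hx', smul_smul, inv_mul_cancel₀ hm', one_smul]
    · rintro ⟨y, rfl⟩
      obtain ⟨m, hm, y', hy'⟩ := FPZ_den y
      have hm' : (m : ℚ) ≠ 0 := by exact_mod_cast hm
      have h1 : (m : ℚ) • FPZ_D d₁ (FPZ_D d₂ y) = 0 := by
        rw [← FPZ_D_smul, ← FPZ_D_smul, hy', FPZ_D_i, FPZ_D_i, (hex2 _).2 ⟨y', rfl⟩]
        funext i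
        simp
      rcases smul_eq_zero.1 h1 with h2 | h2
      · exact absurd h2 hm'
      · exact h2

end Pool.Agent.H62.CI
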