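import Pool.Agent.H50.CI.N0

/-!
# Nonpositive immersions (weak form) and diagrammatic reducibility
-/

set_option autoImplicit false

namespace Pool.Agent.H60.CI

/-- nonpositive immersions (weak form): every finite connected complex immersed in `X` has
nonpositive Euler characteristic or is simply connected -/
def Cpx.NPIsc (X : Cpx) : Prop := ∀ Y : Cpx, Finite Y.V → Finite Y.E → Finite Y.F → Y.Conn →
  ∀ φ : Cpx.Hom Y X, φ.IsImm → Y.chi ≤ 0 ∨ Y.LolliSC

/-- diagrammatically reducible: every connected and simply connected complex immersed in `X` (for
instance the universal cover) has the property `DR`: each finite non-empty set of its 2-cells has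
a free face -/
def Cpx.DRc (X : Cpx) : Prop := ∀ B : Cpx, B.Conn → B.LolliSC → ∀ φ : Cpx.Hom B X, φ.IsImm → B.DR

end Pool.Agent.H60.CI
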