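import Pool.Agent.H50.CI.N1
import Pool.Agent.H50.CI.U4

/-!
# Row NSC (130 lines): a connected free cover of a simply connected complex is trivial

`Z : HCpx K`, `Z.quot` the quotient complex, `Z.proj` the projection (`N0.lean`), `N4_v, N4_e, N4_kv, N4_ke, N4_free` in `N4.lean`.

PROOF. (a) `nsc_imm`: `Z.proj` is an immersion. If `src ε = src ε'` and `proj ε = proj ε'` then `ε = k • ε'`, so `k • src ε' = src ε = src ε'`, `k = 1` (`Z.free`).
Same for targets and for base points of 2-cells.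
(b) `nsc_lift`: if `Z.quot.Walk (Z.proj.v v) u y` then there are `w, z` with `Z.Walk v w z`, `w.map (Prod.map Z.proj.e id) = u`, `Z.proj.v z = y`. Induction on `u`,
generalizing `v`: for the letter `(e, b)` choose a representative `ε0` of `e`; `oS (ε0, b)` and `v` have the same class, so `k • oS (ε0, b) = v`; use the letter
`(k • ε0, b)` and continue at `k • oT (ε0, b)`.
(c) `nsc_lolli`: for `v` and a list `L` of lollipops of `Z.quot` with `Z.quot.Walk (Z.proj.v v) t.1 (Z.quot.base t.2.1)` for `t ∈ L` there is `P` with `Z.Walk v P v` and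
`FreeGroup.mk (P.map (Prod.map Z.proj.e id)) = (L.map Z.quot.lolli).prod`. Induction on `L`. For one lollipop `(u, σ, b)`: lift `u` to a walk `p` from `v` to `z` by (b),
`Z.proj.v z = Z.quot.base σ`; a representative `τ` of `σ` can be translated so that `Z.base τ = z`; take `p ++ Z.bd τ ++ invRev p` (or
`p ++ invRev (Z.bd τ) ++ invRev p` if `b = false`). (`U4_piece` in `U4.lean` is exactly this construction for an arbitrary cellular map.)
(d) Let `v : Z.V`, `w` a walk of `Z` from `v` to `k • v` (`hc`). Its image is a closed walk at `Z.proj.v v` (`hom_walk_map`, `N4_kv`), so by `h` its class is `(L.map lolli).prod`, which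
is the class of the image of the closed walk `P` of (c). `Cpx.Hom.IsImm.mk_eq` (`U2.lean`) gives `k • v = v`, so `k = 1`.
-/

set_option autoImplicit false

namespace Pool.Agent.H60.CI.HCpx

variable {K : Type} [Group K]

theorem NSC_f (Z : HCpx K) {τ τ' : Z.F} : Z.proj.f τ = Z.proj.f τ' ↔ ∃ k : K, k • τ' = τ := by
  change (Quotient.mk'' τ : MulAction.orbitRel.Quotient K Z.F) = Quotient.mk'' τ' ↔ _
  rw [Quotient.eq'']
  exact Iff.rfl

/-- the projection is an immersion -/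
theorem NSC_imm (Z : HCpx K) : Z.proj.IsImm := by
  refine ⟨?_, ?_, ?_⟩
  · intro ε ε' h h'
    obtain ⟨k, hk⟩ := (N4_e Z).1 h'
    have h1 : k • Z.src ε' = Z.src ε' := by rw [← Z.src_smul, hk, h]
    have h2 := Z.free _ _ h1
    rw [h2, one_smul] at hk
    exact hk.symm
  · intro ε ε' h h'
    obtain ⟨k, hk⟩ := (N4_e Z).1 h'
    have h1 : k • Z.tgt ε' = Z.tgt ε' := by rw [← Z.tgt_smul, hk, h]
    have h2 := Z.free _ _ h1
    rw [h2, one_smul] at hk
    exact hk.symm
  · intro τ τ' h h'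
    obtain ⟨k, hk⟩ := (NSC_f Z).1 h'
    have h1 : k • Z.base τ' = Z.base τ' := by rw [← Z.base_smul, hk, h]
    have h2 := Z.free _ _ h1
    rw [h2, one_smul] at hk
    exact hk.symm

/-- walks of the quotient lift -/
theorem NSC_lift (Z : HCpx K) : ∀ (u : List (Z.quot.E × Bool)) (v : Z.V) (y : Z.quot.V),
    Z.quot.Walk (Z.proj.v v) u y →
    ∃ (w : List (Z.E × Bool)) (z : Z.V), Z.Walk v w z ∧ w.map (Prod.map Z.proj.e id) = u ∧
      Z.proj.v z = y := by
  intro u
  induction u with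
  | nil =>
    intro v y h
    exact ⟨[], v, rfl, rfl, h⟩
  | cons a u ih =>
    intro v y h
    obtain ⟨h1, h2⟩ := h
    obtain ⟨e, b⟩ := a
    obtain ⟨ε0, rfl⟩ : ∃ ε0 : Z.E, Z.proj.e ε0 = e := Quotient.exists_rep e
    have h3 : oS Z.quot.src Z.quot.tgt (Z.proj.e ε0, b) = Z.proj.v (oS Z.src Z.tgt (ε0, b)) := by
      cases b <;> rfl
    rw [h3] at h1
    obtain ⟨k, hk⟩ := (N4_v Z).1 h1.symm
    have h4 : oS Z.src Z.tgt (k • ε0, b) = v := by
      rw [← hk]
      cases b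
      · exact Z.tgt_smul k ε0
      · exact Z.src_smul k ε0
    have h5 : oT Z.quot.src Z.quot.tgt (Z.proj.e ε0, b) =
        Z.proj.v (oT Z.src Z.tgt (k • ε0, b)) := by
      have h6 : oT Z.src Z.tgt (k • ε0, b) = k • oT Z.src Z.tgt (ε0, b) := by
        cases b
        · exact Z.src_smul k ε0
        · exact Z.tgt_smul k ε0
      rw [h6, N4_kv]
      cases b <;> rfl
    rw [h5] at h2
    obtain ⟨w, z, hw, hwu, hz⟩ := ih _ _ h2
    refine ⟨(k • ε0, b) :: w, z, ⟨h4, hw⟩, ?_, hz⟩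
    rw [List.map_cons, hwu]
    congr 1
    exact Prod.ext (N4_ke Z k ε0) rfl

/-- products of lollipops lift to closed walks -/
theorem NSC_lolli (Z : HCpx K) (v : Z.V)
    (L : List (List (Z.quot.E × Bool) × Z.quot.F × Bool))
    (hL : ∀ t ∈ L, Z.quot.Walk (Z.proj.v v) t.1 (Z.quot.base t.2.1)) :
    ∃ P : List (Z.E × Bool), Z.Walk v P v ∧
      FreeGroup.mk (P.map (Prod.map Z.proj.e id)) = (L.map Z.quot.lolli).prod := by
  induction L with
  | nil => exact ⟨[], rfl, rfl⟩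
  | cons t L ih =>
    obtain ⟨P, hP, hPm⟩ := ih fun t ht => hL t (List.mem_cons_of_mem _ ht)
    obtain ⟨u, σ, b⟩ := t
    have hu : Z.quot.Walk (Z.proj.v v) u (Z.quot.base σ) := hL (u, σ, b) List.mem_cons_self
    obtain ⟨p, z, hp, hpu, hz⟩ := NSC_lift Z u v _ hu
    obtain ⟨τ0, hτ0⟩ : ∃ τ0 : Z.F, Z.proj.f τ0 = σ := Quotient.exists_rep σ
    rw [← hτ0, Z.proj.base_v] at hz
    obtain ⟨k, hk⟩ := (N4_v Z).1 hz
    have hb : Z.base (k • τ0) = z := by rw [Z.base_smul, hk]
    have hf : Z.proj.f (k • τ0) = σ := by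
      rw [← hτ0]
      exact (NSC_f Z).2 ⟨k, rfl⟩
    obtain ⟨W, hW, hWm, -⟩ := Pool.Agent.H50.CI.U4_piece Z.proj hp (k • τ0) hb b
    refine ⟨W ++ P, isWalk_append.2 ⟨v, hW, hP⟩, ?_⟩
    rw [List.map_append, ← FreeGroup.mul_mk, hWm, hPm, hpu, hf, List.map_cons, List.prod_cons]

theorem trivial_of_quot_sc (Z : HCpx K) (hc : Z.Conn) (h : Z.quot.LolliSC) (k : K) : k = 1 := by
  obtain ⟨⟨v⟩, hconn⟩ := hc
  obtain ⟨w, hw⟩ := hconn v (k • v)
  have h1 := hom_walk_map Z.proj hw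
  rw [N4_kv] at h1
  obtain ⟨L, hL, hLm⟩ := h _ _ h1
  obtain ⟨P, hP, hPm⟩ := NSC_lolli Z v L hL
  have h2 := (NSC_imm Z).mk_eq hw hP (by rw [hLm, hPm])
  exact Z.free k v h2.2

end Pool.Agent.H60.CI.HCpx
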