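import Pool.Agent.H50.CI.SE
import Pool.Agent.H50.CI.Fin
import Pool.Agent.H62.CI.EXM
import Pool.Agent.H62.CI.FPG
import Pool.Agent.H62.CI.FPZ
import Pool.Agent.H62.CI.N7s

/-!
# Theorem A from the finite closure theorem (Section 4)
-/

noncomputable section

set_option autoImplicit false
set_option linter.unusedVariables false

namespace Pool.Agent.H60.CI

open Pool.Agent.H62.CI

/-- the finite closure property of a good `Z` with the minimal number of orbits -/
def FinClo : Prop := ∀ (H : Type) [Group H] (B : HCpx H), B.Conn → B.LolliSC → B.DR →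
  NoZeroDivisors (MonoidAlgebra ℚ H) → ∀ Z : HIm B, Z.Good → (∀ Z' : HIm B, Z'.Good → Z.orbs ≤ Z'.orbs) →
  ∀ R : Setoid Z.V, Z.toPC.Cong R →
      (∃ S : Set (Z.V →₀ ℚ), S.Finite ∧ Z.toPC.KK R ≤ Z.toPC.DD R ⊔ Submodule.span ℚ S) →
      {x : Z.V | ∃ y, y ≠ x ∧ R x y}.Finite

theorem thmA_of_finClo (hF : FinClo) : Pool.Agent.H50.CI.ThmA := by
  intro H _ B hC hSC hDR hnz hFP
  obtain ⟨Z, hG, hmin⟩ := exists_min B (exists_good B hC hSC (fptwo_fg hFP) hFP)
  have hW := weakSC_of_fc hSC hDR Z hG (hF H B hC hSC hDR hnz Z hG hmin)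
  exact fp_of_weakSC Z hG.conn hG.fin hW

end Pool.Agent.H60.CI
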