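import Pool.Agent.H62.CI.FPB
import Pool.Agent.H50.CI.TC
import Pool.Agent.H50.CI.TE
import Pool.Agent.H50.CI.N5

/-!
# Existence of `Z` (assembly)
-/

set_option autoImplicit false

namespace Pool.Agent.H60.CI

open Pool.Agent.H62.CI

theorem lam_eq_cayInt {H : Type} [Group H] {n : ℕ} (s : Fin n → H) (c : H → Fin n → ℚ)
    (k : H) (w : List (Fin n × Bool)) : Lam s c k w = cayInt s c k w := by
  induction w generalizing k with
  | nil => rfl
  | cons a w ih =>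
    obtain ⟨j, b⟩ := a
    cases b
    · show - c (k * (s j)⁻¹) j + Lam s c (k * (s j)⁻¹) w = _
      rw [ih]; rfl
    · show c k j + Lam s c (k * s j) w = _
      rw [ih]; rfl

theorem exists_Z {H : Type} [Group H] (B : HCpx H) (hC : B.toCpx.Conn) (hSC : B.toCpx.LolliSC)
    (hfg : Group.FG H) (hFP : FPtwo ℚ H) :
    ∃ Z : HIm B, Z.toIm.toCpx.Conn ∧ Z.HFin ∧ Z.toIm.toCpx.H1Zero := by
  classical
  obtain ⟨S, hS⟩ := Group.fg_def.1 hfg
  obtain ⟨n, s, hs⟩ : ∃ (n : ℕ) (s : Fin n → H), Subgroup.closure (Set.range s) = ⊤ := by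
    refine ⟨S.card, fun i => (S.equivFin.symm i : H), ?_⟩
    rw [← hS]
    congr 1
    ext x
    constructor
    · rintro ⟨i, rfl⟩; exact (S.equivFin.symm i).2
    · intro hx; exact ⟨S.equivFin ⟨x, hx⟩, by simp⟩
  obtain ⟨⟨v⟩, hconn⟩ := hC
  choose ws hws using fun j => hconn v (s j • v)
  obtain ⟨m, r, hr, hcoc⟩ := fp_coc hFP s hs
  have hg : ∀ i, B.toCpx.Walk v (gpath B s ws 1 (r i)) v := by
    intro i
    have h1 := gpath_walk B s ws v hws 1 (r i)
    rwa [ev_eq, hr i, mul_one, one_smul] at h1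
  choose L hL hL' using fun i => hSC v (gpath B s ws 1 (r i)) (hg i)
  let M : Set (List (B.E × Bool) × B.F) := {t | ∃ i, ∃ q ∈ L i, t = (q.1, q.2.1)}
  have hM : ∀ t ∈ M, B.toCpx.Walk v t.1 (B.base t.2) := by
    rintro _ ⟨i, q, hq, rfl⟩
    exact hL i q hq
  have hMf : M.Finite := by
    have : M = ⋃ i, (fun q : List (B.E × Bool) × B.F × Bool => (q.1, q.2.1)) '' {q | q ∈ L i} := by
      ext t
      simp only [M, Set.mem_ofPred_eq, Set.mem_iUnion, Set.mem_image]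
      constructor
      · rintro ⟨i, q, hq, rfl⟩; exact ⟨i, q, hq, rfl⟩
      · rintro ⟨i, q, hq, rfl⟩; exact ⟨i, q, hq, rfl⟩
    rw [this]
    exact Set.finite_iUnion fun i => (List.finite_toSet (L i)).image _
  let D : TD B := TD.of B v s ws hws ∅ (by rintro p ⟨⟩) M hM
  have hT : D.T.Finite := TD.of_T_finite B v s ws hws ∅ (by rintro p ⟨⟩) M hM Set.finite_empty hMf
  refine ⟨D.Z, D.conn hs, D.hfin hT hMf, ?_⟩
  intro b hb
  have hb' : ∀ τ : D.Z.Mks, Cpx.integ b (D.Z.toIm.bdw τ) = 0 := hb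
  obtain ⟨ψ, hψ⟩ := hcoc (fun k j => TD.psi0 b (D.wsv k j)) (by
    intro k i
    rw [← lam_eq_cayInt]
    exact TD.lam_zero (D := D) b hb' k (r i) (L i) (fun t ht => ⟨i, t, ht, rfl⟩) (hL' i))
  obtain ⟨Ψ, _, hΨ⟩ := TD.exact_of (D := D) b hb' ψ (by
    intro k j
    have := hψ k j
    rw [this]
    show ψ (k * s j) = ψ k + (ψ (k * s j) - ψ k)
    ring)
  exact ⟨Ψ, hΨ⟩

end Pool.Agent.H60.CI
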