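import Pool.Agent.H62.CI.FPX

/-!
# Row FPA (130 lines): for a group of type FP_2 the cycle module of the Cayley graph is finitely generated

PROOF (comparison of resolutions, no module theory needed). `A = MonoidAlgebra ℚ H`. Data of `FPtwo ℚ H`: `ε, d₁, d₂`.
Choose `x0 : Fin a → A` with `ε x0 = 1`.
* `α₀ : A → A^a`, `α₀ r = r • x0` (`LinearMap.toSpanSingleton A _ x0`); `ε (α₀ r) = aug r` (additive in `r`; on
  `single h q` use the invariance and the rational linearity of `ε`).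
* `β₀ : A^a → A`, `A`-linear with `β₀ (Pi.single i 1) = single 1 (ε (Pi.single i 1))` (use `(Pi.basisFun A (Fin a)).constr ℕ`
  or `∑ i, x i * single 1 (ε (Pi.single i 1))` as an explicit linear map); `aug (β₀ x) = ε x` (write `x = ∑ x_i • Pi.single i 1`).
* `σ₀ : A → A^n`, `σ₀ r = r • y0` with `cayD s y0 = 1 - β₀ x0` (`aug_ker`: `aug (1 - β₀ x0) = 1 - ε x0 = 0`). So
  `cayD s (σ₀ r) = r - β₀ (α₀ r)`.
* `β₁ : A^b → A^n`, `A`-linear with `cayD s (β₁ e_j) = β₀ (d₁ e_j)` (`aug_ker`: `aug (β₀ (d₁ e_j)) = ε (d₁ e_j) = 0`); hence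
  `cayD s (β₁ x) = β₀ (d₁ x)` for all `x`.
* `α₁ : A^n → A^b`, `A`-linear with `d₁ (α₁ e_j) = α₀ (cayD s e_j)` (`ε (α₀ (cayD s e_j)) = aug (cayD s e_j) = 0`); hence
  `d₁ (α₁ x) = α₀ (cayD s x)` for all `x`.
* `t x = x - β₁ (α₁ x) - σ₀ (cayD s x)`; `cayD s (t x) = cayD s x - β₀ (α₀ (cayD s x)) - (cayD s x - β₀ (α₀ (cayD s x))) = 0`.
If `cayD s z = 0` then `z = t z + β₁ (α₁ z)` and `d₁ (α₁ z) = 0`, so `α₁ z = d₂ y`. Hence
`ker (cayD s) = range t ⊔ range (β₁ ∘ d₂)` (the second range is in the kernel: `cayD s (β₁ (d₂ y)) = β₀ (d₁ (d₂ y)) = 0`), which is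
finitely generated (`Submodule.FG.sup`, ranges of finite modules: `Module.Finite.range` / `Submodule.FG.map`).
-/

set_option autoImplicit false

namespace Pool.Agent.H62.CI

variable {H : Type} [Group H]

omit [Group H] in
theorem FPA_single (h : H) (q : ℚ) : aug (MonoidAlgebra.single h q) = q := by
  show (MonoidAlgebra.single h q : MonoidAlgebra ℚ H).coeff.sum (fun _ r => r) = q
  rw [MonoidAlgebra.coeff_single]
  exact Finsupp.sum_single_index rfl

theorem FPA_eps {a : ℕ} (ε : (Fin a → MonoidAlgebra ℚ H) →ₗ[ℚ] ℚ)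
    (hε : ∀ (h : H) x, ε (MonoidAlgebra.single h (1 : ℚ) • x) = ε x) (r : MonoidAlgebra ℚ H)
    (x : Fin a → MonoidAlgebra ℚ H) : ε (r • x) = aug r * ε x := by
  induction r using MonoidAlgebra.induction_linear with
  | zero => rw [zero_smul, map_zero, map_zero, zero_mul]
  | add r r' h1 h2 => rw [add_smul, map_add, map_add, h1, h2, add_mul]
  | single h q =>
    have h1 : (MonoidAlgebra.single h q : MonoidAlgebra ℚ H) • x =
        q • (MonoidAlgebra.single h (1 : ℚ) • x) := by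
      funext i
      simp only [Pi.smul_apply, smul_eq_mul]
      rw [← smul_mul_assoc, MonoidAlgebra.smul_single', mul_one]
    rw [h1, map_smul, hε, smul_eq_mul, FPA_single]

theorem FPA_mul (r x : MonoidAlgebra ℚ H) : aug (r * x) = aug r * aug x := by
  induction r using MonoidAlgebra.induction_linear with
  | zero => rw [zero_mul, map_zero, zero_mul]
  | add r r' h1 h2 => rw [add_mul, map_add, map_add, h1, h2, add_mul]
  | single h q =>
    have h1 : (MonoidAlgebra.single h q : MonoidAlgebra ℚ H) * x =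
        q • (MonoidAlgebra.single h (1 : ℚ) * x) := by
      rw [← smul_mul_assoc, MonoidAlgebra.smul_single', mul_one]
    rw [h1, map_smul, aug_single_mul, smul_eq_mul, FPA_single]

theorem FPA_ext {b : ℕ} {M : Type*} [AddCommGroup M] [Module (MonoidAlgebra ℚ H) M]
    (f g : (Fin b → MonoidAlgebra ℚ H) →ₗ[MonoidAlgebra ℚ H] M)
    (h : ∀ j, f (Pi.single j 1) = g (Pi.single j 1)) (x : Fin b → MonoidAlgebra ℚ H) :
    f x = g x := by
  have h1 : f = g := by
    refine LinearMap.pi_ext' fun j => LinearMap.ext_ring ?_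
    simpa using h j
  rw [h1]

theorem FPA_one : aug (1 : MonoidAlgebra ℚ H) = 1 := by
  rw [MonoidAlgebra.one_def, FPA_single]

theorem fp2_ker (hFP : FPtwo ℚ H) {n : ℕ} (s : Fin n → H)
    (hs : Subgroup.closure (Set.range s) = ⊤) : (LinearMap.ker (cayD s)).FG := by
  classical
  obtain ⟨a, b, c, ε, d₁, d₂, hε, hsurj, h1, h2⟩ := hFP
  obtain ⟨x0, hx0⟩ := hsurj 1
  obtain ⟨β₀, hβ₀⟩ : ∃ β₀ : (Fin a → MonoidAlgebra ℚ H) →ₗ[MonoidAlgebra ℚ H] MonoidAlgebra ℚ H,
      ∀ x, aug (β₀ x) = ε x := by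
    refine ⟨Fintype.linearCombination (MonoidAlgebra ℚ H)
      (fun i => MonoidAlgebra.single 1 (ε (Pi.single i 1))), fun x => ?_⟩
    rw [Fintype.linearCombination_apply, map_sum]
    have h4 : x = ∑ i, x i • (Pi.single i (1 : MonoidAlgebra ℚ H)) := by
      funext j
      rw [Finset.sum_apply, Finset.sum_eq_single j]
      · simp
      · intro i _ hij
        simp [Pi.single_eq_of_ne hij.symm]
      · simp
    conv_rhs => rw [h4, map_sum]
    refine Finset.sum_congr rfl fun i _ => ?_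
    rw [FPA_eps ε hε, smul_eq_mul, FPA_mul, FPA_single]
  obtain ⟨α₀, hα₀, hα₁⟩ : ∃ α₀ : MonoidAlgebra ℚ H →ₗ[MonoidAlgebra ℚ H]
      (Fin a → MonoidAlgebra ℚ H), (∀ r, ε (α₀ r) = aug r) ∧ ∀ r, α₀ r = r • x0 := by
    refine ⟨LinearMap.toSpanSingleton _ _ x0, fun r => ?_, fun r => rfl⟩
    rw [LinearMap.toSpanSingleton_apply, FPA_eps ε hε, hx0, mul_one]
  obtain ⟨y0, hy0⟩ := aug_ker s hs (1 - β₀ x0) (by rw [map_sub, hβ₀, hx0, FPA_one, sub_self])
  obtain ⟨σ₀, hσ₀⟩ : ∃ σ₀ : MonoidAlgebra ℚ H →ₗ[MonoidAlgebra ℚ H] (Fin n → MonoidAlgebra ℚ H),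
      ∀ r, cayD s (σ₀ r) = r - β₀ (α₀ r) := by
    refine ⟨LinearMap.toSpanSingleton _ _ y0, fun r => ?_⟩
    rw [LinearMap.toSpanSingleton_apply, hα₁, map_smul, map_smul, hy0, smul_eq_mul, smul_eq_mul,
      mul_sub, mul_one]
  obtain ⟨β₁, hβ₁⟩ : ∃ β₁ : (Fin b → MonoidAlgebra ℚ H) →ₗ[MonoidAlgebra ℚ H]
      (Fin n → MonoidAlgebra ℚ H), ∀ x, cayD s (β₁ x) = β₀ (d₁ x) := by
    have hb : ∀ j : Fin b, ∃ y, cayD s y = β₀ (d₁ (Pi.single j 1)) :=
      fun j => aug_ker s hs _ (by rw [hβ₀]; exact (h1 _).2 ⟨_, rfl⟩)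
    choose vb hvb using hb
    refine ⟨Fintype.linearCombination (MonoidAlgebra ℚ H) vb, fun x => ?_⟩
    refine FPA_ext ((cayD s).comp (Fintype.linearCombination (MonoidAlgebra ℚ H) vb))
      (β₀.comp d₁) (fun j => ?_) x
    rw [LinearMap.comp_apply, LinearMap.comp_apply, Fintype.linearCombination_apply_single,
      one_smul, hvb]
  obtain ⟨α₁, hα₁⟩ : ∃ α₁ : (Fin n → MonoidAlgebra ℚ H) →ₗ[MonoidAlgebra ℚ H]
      (Fin b → MonoidAlgebra ℚ H), ∀ x, d₁ (α₁ x) = α₀ (cayD s x) := by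
    have hb : ∀ j : Fin n, ∃ y, d₁ y = α₀ (cayD s (Pi.single j 1)) :=
      fun j => (h1 _).1 (by rw [hα₀, aug_cayD])
    choose vb hvb using hb
    refine ⟨Fintype.linearCombination (MonoidAlgebra ℚ H) vb, fun x => ?_⟩
    refine FPA_ext (d₁.comp (Fintype.linearCombination (MonoidAlgebra ℚ H) vb))
      (α₀.comp (cayD s)) (fun j => ?_) x
    rw [LinearMap.comp_apply, LinearMap.comp_apply, Fintype.linearCombination_apply_single,
      one_smul, hvb]
  have key : LinearMap.ker (cayD s) =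
      LinearMap.range (LinearMap.id - β₁.comp α₁ - σ₀.comp (cayD s)) ⊔
        LinearMap.range (β₁.comp d₂) := by
    apply le_antisymm
    · intro z hz
      rw [LinearMap.mem_ker] at hz
      have h3 : d₁ (α₁ z) = 0 := by rw [hα₁, hz, map_zero]
      obtain ⟨y, hy⟩ := (h2 _).1 h3
      rw [Submodule.mem_sup]
      refine ⟨z - β₁ (α₁ z) - σ₀ (cayD s z), ⟨z, rfl⟩, β₁ (α₁ z), ⟨y, ?_⟩, ?_⟩
      · rw [LinearMap.comp_apply, hy]
      · rw [hz, map_zero]
        abel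
    · refine sup_le ?_ ?_
      · rintro _ ⟨x, rfl⟩
        rw [LinearMap.mem_ker]
        show cayD s (x - β₁ (α₁ x) - σ₀ (cayD s x)) = 0
        rw [map_sub, map_sub, hβ₁, hσ₀, hα₁]
        abel
      · rintro _ ⟨x, rfl⟩
        rw [LinearMap.mem_ker, LinearMap.comp_apply, hβ₁, (h2 _).2 ⟨x, rfl⟩, map_zero]
  rw [key, LinearMap.range_eq_map, LinearMap.range_eq_map]
  exact (Module.Finite.fg_top.map _).sup (Module.Finite.fg_top.map _)

end Pool.Agent.H62.CI
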