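import Pool.Agent.H62.CI.FPA

/-!
# Row FPB (200 lines): finitely many relators of `H` detect coboundaries on the Cayley graph

PROOF. Write `val w = FreeGroup.lift s (FreeGroup.mk w)`.  Elementary facts about `cayInt`:
(1) `cayInt s c k (w ++ w') = cayInt s c k w + cayInt s c (k * val w) w'`.
(2) `cayInt s c (k * val w) (FreeGroup.invRev w) = - cayInt s c k w`.
(3) `cayInt s (fun k j => c (g * k) j) k w = cayInt s c (g * k) w`.
Choose a word `p k` with `val (p k) = k` for every `k : H` (`hs`, `FreeGroup.lift_surjective_iff_closure_range_eq_top`, `Quot.ind`/`FreeGroup.mk` is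
surjective).
For `z : Fin n → A` and `c : H → Fin n → ℚ` put `pair c z = ∑ j, (z j).coeff.sum (fun k q => q * c k j)`.
(4) If `cayD s z = 0` then `pair c z = ∑ j, (z j).coeff.sum (fun k q => q * cayInt s c 1 (loop k j))` where
`loop k j = p k ++ [(j, true)] ++ FreeGroup.invRev (p (k * s j))`: by (1), (2) the integral over `loop k j` is
`P k + c k j - P (k * s j)` with `P k = cayInt s c 1 (p k)`, and `∑_j ∑_k z_j(k) (P (k s_j) - P k)` is the value of the linear functional
`x ↦ x.coeff.sum (fun g r => r * P g)` at `cayD s z = 0` (additivity in `z`; check it for `z j = single k q`).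
(5) Let `ker (cayD s)` be generated by the finite set `Z` (`fp2_ker`, `Submodule.fg_def`). Let `R` be the finite set of words `loop k j`, `k` in the support
of `z j`, `z ∈ Z`; they have value 1. Enumerate `R` by `r : Fin m → _`.
Let `c` satisfy `cayInt s c k (r i) = 0` for all `k, i`. By (4) for the translates `c_g = (fun k j => c (g * k) j)` and (3): `pair c_g z = 0` for all
`g : H`, `z ∈ Z`. The set of all `z : Fin n → A` with `∀ g, pair c_g z = 0` is closed under addition and under `a • ·` for `a : A`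
(check for `a = single h q`: `pair c_g (single h q • z) = q * pair c_(g*h) z`). So `pair c z = 0` for all `z ∈ ker (cayD s)`
(`Submodule.span_induction`).
(6) For a word `w` with value 1 let `z_w : Fin n → A` be its chain, starting at `1` (recursion like `cayInt`, with `Pi.single j (single k 1)` instead of
`c k j`): `pair c z_w = cayInt s c 1 w` and `cayD s z_w = single (val w) 1 - 1 = 0` (both by induction, for arbitrary starting point `k`). So
`cayInt s c 1 w = 0`.
(7) Put `ψ k = cayInt s c 1 (p k)`. The word `loop k j` has value 1, so (6) and (1), (2) give `c k j = ψ (k * s j) - ψ k`.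
-/

set_option autoImplicit false

namespace Pool.Agent.H62.CI

variable {H : Type} [Group H]

theorem FPB_cons {n : ℕ} (s : Fin n → H) (j : Fin n) (b : Bool) (w : List (Fin n × Bool)) :
    FreeGroup.lift s (FreeGroup.mk ((j, b) :: w)) =
      cond b (s j) (s j)⁻¹ * FreeGroup.lift s (FreeGroup.mk w) := by
  rw [FreeGroup.lift_mk, FreeGroup.lift_mk, List.map_cons, List.prod_cons]

theorem FPB_app {n : ℕ} (s : Fin n → H) (w w' : List (Fin n × Bool)) :
    FreeGroup.lift s (FreeGroup.mk (w ++ w')) =
      FreeGroup.lift s (FreeGroup.mk w) * FreeGroup.lift s (FreeGroup.mk w') := by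
  rw [← map_mul]
  rfl

theorem FPB_inv {n : ℕ} (s : Fin n → H) (w : List (Fin n × Bool)) :
    FreeGroup.lift s (FreeGroup.mk (FreeGroup.invRev w)) =
      (FreeGroup.lift s (FreeGroup.mk w))⁻¹ := by
  rw [← FreeGroup.inv_mk, map_inv]

theorem cayInt_append {n : ℕ} (s : Fin n → H) (c : H → Fin n → ℚ) (k : H)
    (w w' : List (Fin n × Bool)) :
    cayInt s c k (w ++ w') = cayInt s c k w + cayInt s c (k * FreeGroup.lift s (FreeGroup.mk w)) w' := by
  induction w generalizing k with
  | nil =>
    show cayInt s c k w' = 0 + cayInt s c (k * 1) w'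
    rw [zero_add, mul_one]
  | cons x w ih =>
    obtain ⟨j, b⟩ := x
    rw [FPB_cons, List.cons_append]
    cases b with
    | true =>
      show c k j + cayInt s c (k * s j) (w ++ w') =
        c k j + cayInt s c (k * s j) w + cayInt s c (k * (s j * _)) w'
      rw [ih, mul_assoc, add_assoc]
    | false =>
      show - c (k * (s j)⁻¹) j + cayInt s c (k * (s j)⁻¹) (w ++ w') =
        - c (k * (s j)⁻¹) j + cayInt s c (k * (s j)⁻¹) w + cayInt s c (k * ((s j)⁻¹ * _)) w'
      rw [ih, mul_assoc, add_assoc]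

theorem cayInt_invRev {n : ℕ} (s : Fin n → H) (c : H → Fin n → ℚ) (k : H)
    (w : List (Fin n × Bool)) :
    cayInt s c (k * FreeGroup.lift s (FreeGroup.mk w)) (FreeGroup.invRev w) = - cayInt s c k w := by
  induction w generalizing k with
  | nil =>
    show (0 : ℚ) = - 0
    rw [neg_zero]
  | cons x w ih =>
    obtain ⟨j, b⟩ := x
    rw [FPB_cons, FreeGroup.invRev_cons, cayInt_append, FPB_inv, ← mul_assoc, ih,
      mul_inv_cancel_right]
    cases b with
    | true =>
      show - cayInt s c (k * s j) w + (- c (k * s j * (s j)⁻¹) j + 0) =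
        - (c k j + cayInt s c (k * s j) w)
      rw [mul_inv_cancel_right]
      ring
    | false =>
      show - cayInt s c (k * (s j)⁻¹) w + (c (k * (s j)⁻¹) j + 0) =
        - (- c (k * (s j)⁻¹) j + cayInt s c (k * (s j)⁻¹) w)
      ring

/-- the linear functional with the values `f` on the group elements. -/
noncomputable def FPB_L (f : H → ℚ) : MonoidAlgebra ℚ H →ₗ[ℚ] ℚ where
  toFun := fun x => x.coeff.sum fun k q => q * f k
  map_add' := fun x y => by
    rw [MonoidAlgebra.coeff_add]
    exact Finsupp.sum_add_index' (fun _ => zero_mul _) (fun _ _ _ => add_mul _ _ _)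
  map_smul' := fun r x => by
    rw [MonoidAlgebra.coeff_smul, Finsupp.sum_smul_index' (fun _ => zero_mul _)]
    simp [Finsupp.sum, Finset.mul_sum, mul_assoc]

theorem FPB_L_apply (f : H → ℚ) (x : MonoidAlgebra ℚ H) :
    FPB_L f x = ∑ k ∈ x.coeff.support, x.coeff k * f k := rfl

theorem FPB_L_single (f : H → ℚ) (k : H) (q : ℚ) :
    FPB_L f (MonoidAlgebra.single k q) = q * f k := by
  show (MonoidAlgebra.single k q).coeff.sum (fun k q => q * f k) = q * f k
  rw [MonoidAlgebra.coeff_single]
  exact Finsupp.sum_single_index (zero_mul _)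

theorem FPB_L_add (f g : H → ℚ) (x : MonoidAlgebra ℚ H) :
    FPB_L (fun k => f k + g k) x = FPB_L f x + FPB_L g x := by
  rw [FPB_L_apply, FPB_L_apply, FPB_L_apply, ← Finset.sum_add_distrib]
  exact Finset.sum_congr rfl fun k _ => mul_add _ _ _

theorem FPB_L_sub (f g : H → ℚ) (x : MonoidAlgebra ℚ H) :
    FPB_L (fun k => f k - g k) x = FPB_L f x - FPB_L g x := by
  rw [FPB_L_apply, FPB_L_apply, FPB_L_apply, ← Finset.sum_sub_distrib]
  exact Finset.sum_congr rfl fun k _ => mul_sub _ _ _

theorem FPB_L_mul (f : H → ℚ) (x : MonoidAlgebra ℚ H) (g : H) :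
    FPB_L f (x * (MonoidAlgebra.single g 1 - 1)) = FPB_L (fun k => f (k * g)) x - FPB_L f x := by
  rw [mul_sub, mul_one, map_sub]
  congr 1
  induction x using MonoidAlgebra.induction_linear with
  | zero => rw [zero_mul, map_zero, map_zero]
  | add x y hx hy => rw [add_mul, map_add, map_add, hx, hy]
  | single k q => rw [MonoidAlgebra.single_mul_single, FPB_L_single, FPB_L_single, mul_one]

theorem FPB_L_lmul (f : H → ℚ) (x : MonoidAlgebra ℚ H) (h : H) (q : ℚ) :
    FPB_L f (MonoidAlgebra.single h q * x) = q * FPB_L (fun k => f (h * k)) x := by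
  induction x using MonoidAlgebra.induction_linear with
  | zero => rw [mul_zero, map_zero, map_zero, mul_zero]
  | add x y hx hy => rw [mul_add, map_add, map_add, hx, hy, mul_add]
  | single k r =>
    rw [MonoidAlgebra.single_mul_single, FPB_L_single, FPB_L_single, mul_assoc]

/-- the pairing of a function on the edges with a chain. -/
noncomputable def FPB_pair {n : ℕ} (c : H → Fin n → ℚ) :
    (Fin n → MonoidAlgebra ℚ H) →+ ℚ where
  toFun := fun z => ∑ j, FPB_L (fun k => c k j) (z j)
  map_zero' := Finset.sum_eq_zero fun j _ => map_zero _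
  map_add' := fun x y => by
    rw [← Finset.sum_add_distrib]
    exact Finset.sum_congr rfl fun j _ => map_add _ _ _

theorem FPB_pair_apply {n : ℕ} (c : H → Fin n → ℚ) (z : Fin n → MonoidAlgebra ℚ H) :
    FPB_pair c z = ∑ j, FPB_L (fun k => c k j) (z j) := rfl

theorem FPB_pair_single {n : ℕ} (c : H → Fin n → ℚ) (j : Fin n) (k : H) :
    FPB_pair c (Pi.single j (MonoidAlgebra.single k 1)) = c k j := by
  rw [FPB_pair_apply, Finset.sum_eq_single j]
  · rw [Pi.single_eq_same, FPB_L_single, one_mul]
  · intro i _ hi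
    rw [Pi.single_eq_of_ne hi, map_zero]
  · intro h
    exact absurd (Finset.mem_univ j) h

theorem FPB_smul {n : ℕ} (c : H → Fin n → ℚ) (x : Fin n → MonoidAlgebra ℚ H)
    (hx : ∀ g : H, FPB_pair (fun k j => c (g * k) j) x = 0) (a : MonoidAlgebra ℚ H) (g : H) :
    FPB_pair (fun k j => c (g * k) j) (a • x) = 0 := by
  induction a using MonoidAlgebra.induction_linear with
  | zero => rw [zero_smul, map_zero]
  | add a b ha hb => rw [add_smul, map_add, ha, hb, add_zero]
  | single h q =>
    have h1 := hx (g * h)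
    rw [FPB_pair_apply] at h1 ⊢
    have h2 : ∀ j : Fin n, FPB_L (fun k => c (g * k) j) ((MonoidAlgebra.single h q • x) j) =
        q * FPB_L (fun k => c (g * h * k) j) (x j) := by
      intro j
      rw [Pi.smul_apply, smul_eq_mul, FPB_L_lmul]
      simp only [mul_assoc]
    rw [Finset.sum_congr rfl fun j _ => h2 j, ← Finset.mul_sum, h1, mul_zero]

theorem FPB_translate {n : ℕ} (s : Fin n → H) (c : H → Fin n → ℚ) (g : H) (k : H)
    (w : List (Fin n × Bool)) :
    cayInt s (fun k j => c (g * k) j) k w = cayInt s c (g * k) w := by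
  induction w generalizing k with
  | nil => rfl
  | cons x w ih =>
    obtain ⟨j, b⟩ := x
    cases b with
    | true =>
      show c (g * k) j + cayInt s (fun k j => c (g * k) j) (k * s j) w =
        c (g * k) j + cayInt s c (g * k * s j) w
      rw [ih, mul_assoc]
    | false =>
      show - c (g * (k * (s j)⁻¹)) j + cayInt s (fun k j => c (g * k) j) (k * (s j)⁻¹) w =
        - c (g * k * (s j)⁻¹) j + cayInt s c (g * k * (s j)⁻¹) w
      rw [ih, mul_assoc]

/-- the closed path through the edge `(k, j)`. -/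
def FPB_loop {n : ℕ} (s : Fin n → H) (p : H → List (Fin n × Bool)) (k : H) (j : Fin n) :
    List (Fin n × Bool) := p k ++ ([(j, true)] ++ FreeGroup.invRev (p (k * s j)))

theorem FPB_loop_val {n : ℕ} (s : Fin n → H) (p : H → List (Fin n × Bool))
    (hp : ∀ k, FreeGroup.lift s (FreeGroup.mk (p k)) = k) (k : H) (j : Fin n) :
    FreeGroup.lift s (FreeGroup.mk (FPB_loop s p k j)) = 1 := by
  unfold FPB_loop
  rw [FPB_app, FPB_app, FPB_inv, hp, hp, FPB_cons]
  show k * (s j * 1 * (k * s j)⁻¹) = 1
  group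

theorem FPB_loop_int {n : ℕ} (s : Fin n → H) (c : H → Fin n → ℚ) (p : H → List (Fin n × Bool))
    (hp : ∀ k, FreeGroup.lift s (FreeGroup.mk (p k)) = k) (k : H) (j : Fin n) :
    cayInt s c 1 (FPB_loop s p k j) =
      cayInt s c 1 (p k) + (c k j - cayInt s c 1 (p (k * s j))) := by
  have h1 : FreeGroup.lift s (FreeGroup.mk [(j, true)]) = s j := by
    rw [FPB_cons]
    exact mul_one _
  have h2 := cayInt_invRev s c 1 (p (k * s j))
  rw [hp, one_mul] at h2
  unfold FPB_loop
  rw [cayInt_append, cayInt_append, hp, one_mul, h1, h2]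
  show cayInt s c 1 (p k) + (c k j + 0 + - cayInt s c 1 (p (k * s j))) = _
  ring

theorem FPB_four {n : ℕ} (s : Fin n → H) (c : H → Fin n → ℚ) (p : H → List (Fin n × Bool))
    (hp : ∀ k, FreeGroup.lift s (FreeGroup.mk (p k)) = k) (z : Fin n → MonoidAlgebra ℚ H)
    (hz : z ∈ LinearMap.ker (cayD s)) :
    FPB_pair c z = ∑ j, FPB_L (fun k => cayInt s c 1 (FPB_loop s p k j)) (z j) := by
  have h1 : FPB_L (fun k => cayInt s c 1 (p k)) (cayD s z) = 0 := by
    rw [LinearMap.mem_ker.1 hz, map_zero]
  have h2 : cayD s z = ∑ j, z j * (MonoidAlgebra.single (s j) 1 - 1) := rfl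
  rw [h2, map_sum] at h1
  have h3 : ∀ j : Fin n, FPB_L (fun k => cayInt s c 1 (FPB_loop s p k j)) (z j) =
      FPB_L (fun k => c k j) (z j) -
        FPB_L (fun k => cayInt s c 1 (p k)) (z j * (MonoidAlgebra.single (s j) 1 - 1)) := by
    intro j
    have h4 : (fun k => cayInt s c 1 (FPB_loop s p k j)) =
        fun k => cayInt s c 1 (p k) + (c k j - cayInt s c 1 (p (k * s j))) := by
      funext k
      exact FPB_loop_int s c p hp k j
    rw [h4, FPB_L_add (fun k => cayInt s c 1 (p k)) (fun k => c k j - cayInt s c 1 (p (k * s j))),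
      FPB_L_sub (fun k => c k j) (fun k => cayInt s c 1 (p (k * s j))), FPB_L_mul]
    ring
  rw [Finset.sum_congr rfl fun j _ => h3 j, Finset.sum_sub_distrib, h1, sub_zero,
    FPB_pair_apply]

/-- the chain of a path. -/
noncomputable def FPB_ch {n : ℕ} (s : Fin n → H) :
    H → List (Fin n × Bool) → (Fin n → MonoidAlgebra ℚ H)
  | _, [] => 0
  | k, (j, true) :: w => Pi.single j (MonoidAlgebra.single k 1) + FPB_ch s (k * s j) w
  | k, (j, false) :: w =>
    - Pi.single j (MonoidAlgebra.single (k * (s j)⁻¹) 1) + FPB_ch s (k * (s j)⁻¹) w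

theorem FPB_ch_nil {n : ℕ} (s : Fin n → H) (k : H) : FPB_ch s k [] = 0 := rfl

theorem FPB_ch_true {n : ℕ} (s : Fin n → H) (k : H) (j : Fin n) (w : List (Fin n × Bool)) :
    FPB_ch s k ((j, true) :: w) =
      Pi.single j (MonoidAlgebra.single k 1) + FPB_ch s (k * s j) w := rfl

theorem FPB_ch_false {n : ℕ} (s : Fin n → H) (k : H) (j : Fin n) (w : List (Fin n × Bool)) :
    FPB_ch s k ((j, false) :: w) =
      - Pi.single j (MonoidAlgebra.single (k * (s j)⁻¹) 1) + FPB_ch s (k * (s j)⁻¹) w := rfl

theorem FPB_ch_pair {n : ℕ} (s : Fin n → H) (c : H → Fin n → ℚ) (k : H)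
    (w : List (Fin n × Bool)) : FPB_pair c (FPB_ch s k w) = cayInt s c k w := by
  induction w generalizing k with
  | nil => exact map_zero _
  | cons x w ih =>
    obtain ⟨j, b⟩ := x
    cases b with
    | true =>
      rw [FPB_ch_true, map_add, FPB_pair_single, ih]
      rfl
    | false =>
      rw [FPB_ch_false, map_add, map_neg, FPB_pair_single, ih]
      rfl

theorem FPB_cayD_apply {n : ℕ} (s : Fin n → H) (y : Fin n → MonoidAlgebra ℚ H) :
    cayD s y = ∑ j, y j * (MonoidAlgebra.single (s j) 1 - 1) := rfl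

theorem FPB_bd_single {n : ℕ} (s : Fin n → H) (j : Fin n) (x : MonoidAlgebra ℚ H) :
    cayD s (Pi.single j x) = x * MonoidAlgebra.single (s j) 1 - x := by
  rw [FPB_cayD_apply, Finset.sum_eq_single j]
  · rw [Pi.single_eq_same, mul_sub, mul_one]
  · intro i _ hi
    rw [Pi.single_eq_of_ne hi, zero_mul]
  · intro h
    exact absurd (Finset.mem_univ j) h

theorem FPB_ch_bd {n : ℕ} (s : Fin n → H) (k : H) (w : List (Fin n × Bool)) :
    cayD s (FPB_ch s k w) = MonoidAlgebra.single (k * FreeGroup.lift s (FreeGroup.mk w)) 1 -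
      MonoidAlgebra.single k 1 := by
  induction w generalizing k with
  | nil =>
    rw [FPB_ch_nil, map_zero, ← FreeGroup.one_eq_mk, map_one, mul_one, sub_self]
  | cons x w ih =>
    obtain ⟨j, b⟩ := x
    rw [FPB_cons]
    generalize FreeGroup.lift s (FreeGroup.mk w) = v at ih
    cases b with
    | true =>
      rw [cond_true, FPB_ch_true, map_add, FPB_bd_single, ih,
        MonoidAlgebra.single_mul_single, mul_one, ← mul_assoc]
      generalize MonoidAlgebra.single (k * s j) (1 : ℚ) = a
      generalize MonoidAlgebra.single (k * s j * v) (1 : ℚ) = b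
      generalize MonoidAlgebra.single k (1 : ℚ) = d
      abel
    | false =>
      rw [cond_false, FPB_ch_false, map_add, map_neg, FPB_bd_single, ih,
        MonoidAlgebra.single_mul_single, mul_one, inv_mul_cancel_right, ← mul_assoc]
      generalize MonoidAlgebra.single (k * (s j)⁻¹) (1 : ℚ) = a
      generalize MonoidAlgebra.single (k * (s j)⁻¹ * v) (1 : ℚ) = b
      generalize MonoidAlgebra.single k (1 : ℚ) = d
      abel

theorem fp_coc (hFP : FPtwo ℚ H) {n : ℕ} (s : Fin n → H)
    (hs : Subgroup.closure (Set.range s) = ⊤) :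
    ∃ (m : ℕ) (r : Fin m → List (Fin n × Bool)),
      (∀ i, FreeGroup.lift s (FreeGroup.mk (r i)) = 1) ∧
      ∀ c : H → Fin n → ℚ, (∀ k i, cayInt s c k (r i) = 0) →
        ∃ ψ : H → ℚ, ∀ k j, c k j = ψ (k * s j) - ψ k := by
  classical
  have hsurj := FreeGroup.lift_surjective_iff_closure_range_eq_top.2 hs
  have hp : ∀ k : H, ∃ w : List (Fin n × Bool), FreeGroup.lift s (FreeGroup.mk w) = k := by
    intro k
    obtain ⟨x, hx⟩ := hsurj k
    exact ⟨x.toWord, by rw [FreeGroup.mk_toWord, hx]⟩
  choose p hp using hp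
  obtain ⟨Z, hZ⟩ := fp2_ker hFP s hs
  let R : Finset (List (Fin n × Bool)) := Z.biUnion fun z => Finset.univ.biUnion fun j =>
    (z j).coeff.support.image fun k => FPB_loop s p k j
  have hR : ∀ w ∈ R, FreeGroup.lift s (FreeGroup.mk w) = 1 := by
    intro w hw
    obtain ⟨z, -, hw⟩ := Finset.mem_biUnion.1 hw
    obtain ⟨j, -, hw⟩ := Finset.mem_biUnion.1 hw
    obtain ⟨k, -, rfl⟩ := Finset.mem_image.1 hw
    exact FPB_loop_val s p hp k j
  refine ⟨R.card, fun i => (R.equivFin.symm i : List (Fin n × Bool)),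
    fun i => hR _ (R.equivFin.symm i).2, ?_⟩
  intro c hc
  have hc' : ∀ k, ∀ w ∈ R, cayInt s c k w = 0 := by
    intro k w hw
    have h1 : cayInt s c k ((R.equivFin.symm (R.equivFin ⟨w, hw⟩) : {x // x ∈ R}) :
      List (Fin n × Bool)) = 0 := hc k (R.equivFin ⟨w, hw⟩)
    rw [Equiv.symm_apply_apply] at h1
    exact h1
  have hker : ∀ z ∈ LinearMap.ker (cayD s), ∀ g : H,
      FPB_pair (fun k j => c (g * k) j) z = 0 := by
    intro z hz
    rw [← hZ] at hz
    induction hz using Submodule.span_induction with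
    | mem z hz =>
      intro g
      have hzk : z ∈ LinearMap.ker (cayD s) := by
        rw [← hZ]
        exact Submodule.subset_span hz
      rw [FPB_four s (fun k j => c (g * k) j) p hp z hzk]
      refine Finset.sum_eq_zero fun j _ => ?_
      rw [FPB_L_apply]
      refine Finset.sum_eq_zero fun k hk => ?_
      have hw : FPB_loop s p k j ∈ R :=
        Finset.mem_biUnion.2 ⟨z, hz, Finset.mem_biUnion.2 ⟨j, Finset.mem_univ j,
          Finset.mem_image.2 ⟨k, hk, rfl⟩⟩⟩
      rw [FPB_translate, hc' _ _ hw, mul_zero]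
    | zero =>
      intro g
      exact map_zero _
    | add x y _ _ hx hy =>
      intro g
      rw [map_add, hx g, hy g, add_zero]
    | smul a x _ hx =>
      intro g
      exact FPB_smul c x hx a g
  have hzero : ∀ w : List (Fin n × Bool), FreeGroup.lift s (FreeGroup.mk w) = 1 →
      cayInt s c 1 w = 0 := by
    intro w hw
    have h1 : FPB_ch s 1 w ∈ LinearMap.ker (cayD s) := by
      rw [LinearMap.mem_ker, FPB_ch_bd, hw, mul_one, sub_self]
    have h2 := hker _ h1 1
    simp only [one_mul] at h2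
    rw [← h2]
    exact (FPB_ch_pair s c 1 w).symm
  refine ⟨fun k => cayInt s c 1 (p k), fun k j => ?_⟩
  have h1 := hzero _ (FPB_loop_val s p hp k j)
  rw [FPB_loop_int s c p hp k j] at h1
  linarith

end Pool.Agent.H62.CI
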