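import Pool.Agent.H60.CI.HIm
import Pool.Agent.H50.CI.U0

/-!
# Row FPE (230 lines): a group acting freely and cofinitely on a weakly simply connected complex is finitely presented

PROOF. Let `OV, OE` be the (finite) types of orbits of vertices and edges. For a vertex `x` let `rep x` be the chosen representative
(`Quotient.out`) of its orbit and `h x : H` the unique element with `h x • rep x = x` (unique since the action is free); so `rep (g • x) = rep x`,
`h (g • x) = g * h x` and `h (rep x) = 1`.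
Let `Fr = FreeGroup OE`, let `η : FreeGroup Z.E →* Fr` be `FreeGroup.map (orbit map)`, and let `Φ : Fr →* H` be `FreeGroup.lift` of the function
`OE → H` which sends the orbit of the edge `ε` to `(h (src ε))⁻¹ * h (tgt ε)` (well defined: invariant under `ε ↦ g • ε`).
(1) If `Z.Walk x w y` then `Φ (η (FreeGroup.mk w)) = (h x)⁻¹ * h y`. (Induction on `w`; a letter `(ε, b)` contributes
`(h (oS (ε, b)))⁻¹ * h (oT (ε, b))`.)
Fix a vertex `x0` and `z0 = rep x0` (so `h z0 = 1`), and for every vertex `x` a walk `P x` from `z0` to `x`.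
Relators: `R1 = {η (mk (bd τ)) | τ : Z.F}`; it is finite, because it only depends on the orbit of `τ` (`bd_smul`; `η (mk (w.map (Prod.map (g • ·) id))) =
η (mk w)`) and there are finitely many orbits of 2-cells. `R2 = {η (mk (P (rep x))) | x : Z.V}`; finite since `rep x` takes finitely many values.
Let `N = Subgroup.normalClosure (R1 ∪ R2)`.
(2) `N ≤ Φ.ker`: by (1), `Φ (η (mk (bd τ))) = 1` and `Φ (η (mk (P (rep x)))) = (h z0)⁻¹ * h (rep x) = 1`.
(3) If `Z.Walk x w x` then `η (mk w) ∈ N`: by `hW`, `mk w` is in the normal closure of the `mk (bd τ)`, and `η` maps it into `N`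
(`Subgroup.normalClosure_le_normal` for `N.comap η`). Hence for two walks `w, w'` from `x` to `y`, `η (mk w)` and `η (mk w')` have the same class in the
quotient group `Q = Fr ⧸ N` (apply this to `w ++ FreeGroup.invRev w'`).
(4) Define `Ψ : H → Q`, `Ψ g = class of η (mk (P (g • z0)))`. `Ψ (g * g') = Ψ g * Ψ g'`: the walk `P (g • z0)` followed by the translate
by `g` of `P (g' • z0)` is a walk from `z0` to `(g * g') • z0`, and `η` does not change under translation.
(5) `Ψ (Φ x) = class of x` for `x : Fr`: both sides are homomorphisms in `x`, so let `x` be the orbit of the edge `ε`; we may replace `ε` by a translate and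
assume `src ε = rep (src ε) =: p` (so `h p = 1`). Let `y = tgt ε = g • q`, `g = h y`, `q = rep y`. Then `Φ x = g`. The walk
`P p ++ [(ε, true)] ++ FreeGroup.invRev (g • P q)` goes from `z0` to `g • z0`; its class is
`class (η (mk (P p))) * x * class (η (mk (P q)))⁻¹ = x`, since `η (mk (P p)), η (mk (P q)) ∈ R2`. By (3) this is `Ψ g`.
(6) So `Φ.ker ≤ N`: if `Φ x = 1` then the class of `x` is `Ψ 1 = 1` (by (3) for the closed walk `P z0`, or since `Ψ` is a homomorphism).
(7) `Φ` is surjective: for `g : H`, (1) for `P (g • z0)` gives `Φ (η (mk (P (g • z0)))) = (h z0)⁻¹ * h (g • z0) = g`.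
Conclude with `Group.IsFinitelyPresented.of_surjective Φ` (`FreeGroup OE` is finitely presented by an instance) and
`Φ.ker = N = Subgroup.normalClosure (R1 ∪ R2)`.
-/

set_option autoImplicit false

namespace Pool.Agent.H60.CI

namespace FPE

variable {H : Type} [Group H] (Z : HCpx H)

/-- the chosen representative of the orbit -/
noncomputable def rep (x : Z.V) : Z.V :=
  Quotient.out (Quotient.mk (MulAction.orbitRel H Z.V) x)

theorem rep_ex (x : Z.V) : ∃ g : H, g • rep Z x = x := by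
  have h : (MulAction.orbitRel H Z.V) (rep Z x) x :=
    Quotient.exact (Quotient.out_eq (Quotient.mk (MulAction.orbitRel H Z.V) x))
  obtain ⟨g, hg⟩ := MulAction.orbitRel_apply.1 h
  have hg' : g • x = rep Z x := hg
  exact ⟨g⁻¹, by rw [← hg', inv_smul_smul]⟩

/-- the coordinate in the orbit -/
noncomputable def hh (x : Z.V) : H := (rep_ex Z x).choose

theorem hh_spec (x : Z.V) : hh Z x • rep Z x = x := (rep_ex Z x).choose_spec

theorem cancel {g g' : H} {x : Z.V} (h : g • x = g' • x) : g = g' := by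
  have h1 : (g'⁻¹ * g) • x = x := by rw [mul_smul, h, inv_smul_smul]
  have h2 := Z.free _ _ h1
  exact (inv_mul_eq_one.1 h2).symm

theorem rep_smul (g : H) (x : Z.V) : rep Z (g • x) = rep Z x := by
  unfold rep
  congr 1
  exact Quotient.sound (MulAction.orbitRel_apply.2 ⟨g, rfl⟩)

theorem hh_smul (g : H) (x : Z.V) : hh Z (g • x) = g * hh Z x := by
  have h1 := hh_spec Z (g • x)
  rw [rep_smul] at h1
  refine cancel Z (x := rep Z x) ?_
  rw [h1, mul_smul, hh_spec]

theorem rep_rep (x : Z.V) : rep Z (rep Z x) = rep Z x := by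
  have h1 : rep Z x = (hh Z x)⁻¹ • x := eq_inv_smul_iff.2 (hh_spec Z x)
  conv_lhs => rw [h1]
  rw [rep_smul]

theorem hh_rep (x : Z.V) : hh Z (rep Z x) = 1 := by
  have h1 := hh_spec Z (rep Z x)
  rw [rep_rep] at h1
  exact Z.free _ _ h1

/-- the orbit of an edge -/
def oe (ε : Z.E) : MulAction.orbitRel.Quotient H Z.E := Quotient.mk (MulAction.orbitRel H Z.E) ε

theorem oe_smul (g : H) (ε : Z.E) : oe Z (g • ε) = oe Z ε :=
  Quotient.sound (MulAction.orbitRel_apply.2 ⟨g, rfl⟩)

/-- the projection of words -/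
noncomputable def eta : FreeGroup Z.E →* FreeGroup (MulAction.orbitRel.Quotient H Z.E) :=
  FreeGroup.map (oe Z)

/-- the value on a generator -/
noncomputable def ph0 : MulAction.orbitRel.Quotient H Z.E → H :=
  Quotient.lift (fun ε : Z.E => (hh Z (Z.src ε))⁻¹ * hh Z (Z.tgt ε)) (by
    intro a b h
    obtain ⟨g, hg⟩ := MulAction.orbitRel_apply.1 h
    have hg' : g • b = a := hg
    show (hh Z (Z.src a))⁻¹ * hh Z (Z.tgt a) = (hh Z (Z.src b))⁻¹ * hh Z (Z.tgt b)
    rw [← hg', Z.src_smul, Z.tgt_smul, hh_smul, hh_smul]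
    group)

theorem ph0_oe (ε : Z.E) : ph0 Z (oe Z ε) = (hh Z (Z.src ε))⁻¹ * hh Z (Z.tgt ε) := rfl

/-- the homomorphism onto `H` -/
noncomputable def Ph : FreeGroup (MulAction.orbitRel.Quotient H Z.E) →* H := FreeGroup.lift (ph0 Z)

theorem eta_mk (w : List (Z.E × Bool)) :
    eta Z (FreeGroup.mk w) = FreeGroup.mk (w.map fun x => (oe Z x.1, x.2)) := by
  unfold eta
  rw [FreeGroup.map.mk]

theorem eta_tr (g : H) (w : List (Z.E × Bool)) :
    eta Z (FreeGroup.mk (w.map (Prod.map (g • ·) id))) = eta Z (FreeGroup.mk w) := by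
  rw [eta_mk, eta_mk, List.map_map]
  congr 1
  apply List.map_congr_left
  intro a _
  show (oe Z (g • a.1), a.2) = (oe Z a.1, a.2)
  rw [oe_smul]

theorem walk_tr (g : H) {x y : Z.V} {w : List (Z.E × Bool)} (h : Z.Walk x w y) :
    Z.Walk (g • x) (w.map (Prod.map (g • ·) id)) (g • y) := by
  induction w generalizing x with
  | nil => exact congrArg (g • ·) h
  | cons a w ih =>
    obtain ⟨h1, h2⟩ := h
    have h3 := ih h2
    obtain ⟨e, b⟩ := a
    refine ⟨?_, ?_⟩
    · rw [← h1]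
      cases b
      · exact Z.tgt_smul g e
      · exact Z.src_smul g e
    · have h4 : oT Z.src Z.tgt (Prod.map (g • ·) id (e, b)) = g • oT Z.src Z.tgt (e, b) := by
        cases b
        · exact Z.src_smul g e
        · exact Z.tgt_smul g e
      rw [h4]
      exact h3

theorem Ph_walk {x y : Z.V} {w : List (Z.E × Bool)} (h : Z.Walk x w y) :
    Ph Z (eta Z (FreeGroup.mk w)) = (hh Z x)⁻¹ * hh Z y := by
  induction w generalizing x with
  | nil =>
    have h' : x = y := h
    subst h'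
    have : (FreeGroup.mk [] : FreeGroup Z.E) = 1 := rfl
    rw [this, map_one, map_one, inv_mul_cancel]
  | cons a w ih =>
    obtain ⟨h1, h2⟩ := h
    have h3 := ih h2
    have h4 : (FreeGroup.mk (a :: w) : FreeGroup Z.E) = FreeGroup.mk [a] * FreeGroup.mk w := by
      rw [FreeGroup.mul_mk]
      rfl
    rw [h4, map_mul, map_mul, h3]
    have h5 : Ph Z (eta Z (FreeGroup.mk [a])) = (hh Z x)⁻¹ * hh Z (oT Z.src Z.tgt a) := by
      rw [eta_mk]
      unfold Ph
      rw [FreeGroup.lift_mk]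
      rw [← h1]
      obtain ⟨e, b⟩ := a
      cases b
      · simp [ph0_oe, oS, oT]
      · simp [ph0_oe, oS, oT]
    rw [h5]
    group

end FPE

theorem fp_end {H : Type} [Group H] (Z : HCpx H) (hC : Z.toCpx.Conn)
    (hV : Finite (MulAction.orbitRel.Quotient H Z.V)) (hE : Finite (MulAction.orbitRel.Quotient H Z.E))
    (hF : Finite (MulAction.orbitRel.Quotient H Z.F))
    (hW : ∀ (v : Z.V) (w : List (Z.E × Bool)), Z.Walk v w v →
      FreeGroup.mk w ∈ Subgroup.normalClosure (Set.range fun τ : Z.F => FreeGroup.mk (Z.bd τ))) :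
    Group.IsFinitelyPresented H := by
  obtain ⟨⟨x0⟩, hP⟩ := hC
  obtain ⟨z0, hz0⟩ : ∃ z0, z0 = FPE.rep Z x0 := ⟨_, rfl⟩
  have hhz0 : FPE.hh Z z0 = 1 := by rw [hz0, FPE.hh_rep]
  choose P hPw using hP z0
  obtain ⟨N, hN⟩ : ∃ N : Subgroup (FreeGroup (MulAction.orbitRel.Quotient H Z.E)),
    N = Subgroup.normalClosure ((Set.range fun τ : Z.F => FPE.eta Z (FreeGroup.mk (Z.bd τ))) ∪
      (Set.range fun x : Z.V => FPE.eta Z (FreeGroup.mk (P (FPE.rep Z x))))) := ⟨_, rfl⟩
  have hNn : N.Normal := by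
    rw [hN]
    exact Subgroup.normalClosure_normal
  have hR1 : ∀ τ : Z.F, FPE.eta Z (FreeGroup.mk (Z.bd τ)) ∈ N := fun τ => by
    rw [hN]
    exact Subgroup.subset_normalClosure (Or.inl ⟨τ, rfl⟩)
  have hR2 : ∀ x : Z.V, FPE.eta Z (FreeGroup.mk (P (FPE.rep Z x))) ∈ N := fun x => by
    rw [hN]
    exact Subgroup.subset_normalClosure (Or.inr ⟨x, rfl⟩)
  -- closed walks
  have hcl : ∀ (x : Z.V) (w : List (Z.E × Bool)), Z.Walk x w x → FPE.eta Z (FreeGroup.mk w) ∈ N := by
    intro x w hw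
    have h1 := hW x w hw
    have h2 : Subgroup.normalClosure (Set.range fun τ : Z.F => FreeGroup.mk (Z.bd τ)) ≤
        N.comap (FPE.eta Z) := by
      refine Subgroup.normalClosure_le_normal ?_
      rintro _ ⟨τ, rfl⟩
      exact hR1 τ
    exact h2 h1
  have hpar : ∀ (x y : Z.V) (w w' : List (Z.E × Bool)), Z.Walk x w y → Z.Walk x w' y →
      QuotientGroup.mk' N (FPE.eta Z (FreeGroup.mk w)) =
        QuotientGroup.mk' N (FPE.eta Z (FreeGroup.mk w')) := by
    intro x y w w' h h'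
    have h1 : Z.Walk x (w ++ FreeGroup.invRev w') x := isWalk_append.2 ⟨y, h, isWalk_invRev h'⟩
    have h2 := hcl x _ h1
    rw [← FreeGroup.mul_mk, ← FreeGroup.inv_mk, map_mul, map_inv] at h2
    have h3 : QuotientGroup.mk' N (FPE.eta Z (FreeGroup.mk w) *
        (FPE.eta Z (FreeGroup.mk w'))⁻¹) = 1 := (QuotientGroup.eq_one_iff _).2 h2
    rw [map_mul, map_inv] at h3
    exact mul_inv_eq_one.1 h3
  have hone : ∀ x : FreeGroup (MulAction.orbitRel.Quotient H Z.E), x ∈ N →
      QuotientGroup.mk' N x = 1 := fun x hx => (QuotientGroup.eq_one_iff _).2 hx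
  obtain ⟨Ψ, hΨ⟩ : ∃ Ψ : H →* (FreeGroup (MulAction.orbitRel.Quotient H Z.E) ⧸ N),
      ∀ g, Ψ g = QuotientGroup.mk' N (FPE.eta Z (FreeGroup.mk (P (g • z0)))) := by
    refine ⟨MonoidHom.mk' (fun g => QuotientGroup.mk' N (FPE.eta Z (FreeGroup.mk (P (g • z0)))))
      ?_, fun g => rfl⟩
    intro g g'
    have h1 : Z.Walk z0 (P (g • z0) ++ (P (g' • z0)).map (Prod.map (g • ·) id))
        ((g * g') • z0) := by
      refine isWalk_append.2 ⟨g • z0, hPw _, ?_⟩
      rw [mul_smul]
      exact FPE.walk_tr Z g (hPw _)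
    have h2 := hpar _ _ _ _ (hPw ((g * g') • z0)) h1
    rw [← FreeGroup.mul_mk, map_mul, map_mul, FPE.eta_tr] at h2
    exact h2
  have hcomp : Ψ.comp (FPE.Ph Z) = QuotientGroup.mk' N := by
    refine FreeGroup.ext_hom _ _ fun a => ?_
    induction a using Quotient.ind with
    | _ ε0 =>
      obtain ⟨ε, hε⟩ : ∃ ε, ε = (FPE.hh Z (Z.src ε0))⁻¹ • ε0 := ⟨_, rfl⟩
      have h1 : (Quotient.mk (MulAction.orbitRel H Z.E) ε0) = FPE.oe Z ε := by
        rw [hε, FPE.oe_smul]
        rfl
      have h2 : Z.src ε = FPE.rep Z (Z.src ε0) := by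
        rw [hε, Z.src_smul]
        exact inv_smul_eq_iff.2 (FPE.hh_spec Z (Z.src ε0)).symm
      have h3 : FPE.Ph Z (FreeGroup.of (FPE.oe Z ε)) = FPE.hh Z (Z.tgt ε) := by
        unfold FPE.Ph
        rw [FreeGroup.lift_apply_of, FPE.ph0_oe, h2, FPE.hh_rep, inv_one, one_mul]
      rw [h1, MonoidHom.comp_apply, h3, hΨ]
      have h4 : Z.Walk z0 (P (FPE.rep Z (Z.src ε0)) ++ ([(ε, true)] ++ FreeGroup.invRev
          ((P (FPE.rep Z (Z.tgt ε))).map (Prod.map (FPE.hh Z (Z.tgt ε) • ·) id))))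
          (FPE.hh Z (Z.tgt ε) • z0) := by
        refine isWalk_append.2 ⟨FPE.rep Z (Z.src ε0), hPw _, ?_⟩
        refine isWalk_append.2 ⟨Z.tgt ε, ⟨?_, rfl⟩, ?_⟩
        · exact h2
        · have h5 := FPE.walk_tr Z (FPE.hh Z (Z.tgt ε)) (hPw (FPE.rep Z (Z.tgt ε)))
          rw [FPE.hh_spec] at h5
          exact isWalk_invRev h5
      rw [hpar _ _ _ _ (hPw _) h4, ← FreeGroup.mul_mk, ← FreeGroup.mul_mk, ← FreeGroup.inv_mk,
        map_mul, map_mul, map_mul, map_mul, map_inv, map_inv, FPE.eta_tr, hone _ (hR2 _),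
        hone _ (hR2 _), one_mul, inv_one, mul_one, FPE.eta_mk]
      rfl
  -- the kernel
  have hker : (FPE.Ph Z).ker = N := by
    apply le_antisymm
    · intro x hx
      have h1 : Ψ (FPE.Ph Z x) = QuotientGroup.mk' N x := by
        rw [← MonoidHom.comp_apply, hcomp]
      rw [MonoidHom.mem_ker.1 hx, map_one] at h1
      exact (QuotientGroup.eq_one_iff x).1 h1.symm
    · rw [hN]
      refine Subgroup.normalClosure_le_normal ?_
      rintro _ (⟨τ, rfl⟩ | ⟨x, rfl⟩)
      · show FPE.Ph Z (FPE.eta Z (FreeGroup.mk (Z.bd τ))) = 1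
        rw [FPE.Ph_walk Z (Z.bd_walk τ), inv_mul_cancel]
      · show FPE.Ph Z (FPE.eta Z (FreeGroup.mk (P (FPE.rep Z x)))) = 1
        rw [FPE.Ph_walk Z (hPw _), hhz0, FPE.hh_rep, inv_one, one_mul]
  have hsurj : Function.Surjective (FPE.Ph Z) := by
    intro g
    refine ⟨FPE.eta Z (FreeGroup.mk (P (g • z0))), ?_⟩
    rw [FPE.Ph_walk Z (hPw _), hhz0, inv_one, one_mul, FPE.hh_smul, hhz0, mul_one]
  refine Group.IsFinitelyPresented.of_surjective (FPE.Ph Z) hsurj ⟨_, ?_, (hker.trans hN).symm⟩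
  refine Set.Finite.union ?_ ?_
  · obtain ⟨f', hf'⟩ : ∃ f' : MulAction.orbitRel.Quotient H Z.F →
        FreeGroup (MulAction.orbitRel.Quotient H Z.E),
        ∀ τ : Z.F, f' (Quotient.mk (MulAction.orbitRel H Z.F) τ) =
          FPE.eta Z (FreeGroup.mk (Z.bd τ)) := by
      refine ⟨Quotient.lift (fun τ : Z.F => FPE.eta Z (FreeGroup.mk (Z.bd τ))) ?_, fun τ => rfl⟩
      intro a b h
      obtain ⟨g, hg⟩ := MulAction.orbitRel_apply.1 h
      have hg' : g • b = a := hg
      show FPE.eta Z (FreeGroup.mk (Z.bd a)) = FPE.eta Z (FreeGroup.mk (Z.bd b))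
      rw [← hg', Z.bd_smul, FPE.eta_tr]
    refine (Set.finite_range f').subset ?_
    rintro _ ⟨τ, rfl⟩
    exact ⟨_, hf' τ⟩
  · refine (Set.finite_range (fun q : MulAction.orbitRel.Quotient H Z.V =>
      FPE.eta Z (FreeGroup.mk (P (Quotient.out q))))).subset ?_
    rintro _ ⟨x, rfl⟩
    exact ⟨Quotient.mk (MulAction.orbitRel H Z.V) x, rfl⟩

end Pool.Agent.H60.CI
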