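import Pool.Agent.H62.CI.FP

/-!
# Row FPX (90 lines): exactness of the Cayley graph complex `A^n → A → ℚ`

PROOF. `A = MonoidAlgebra ℚ H`.  (a) `aug (cayD s y) = 0`: `aug (x * (single g 1 - 1)) = 0` for all `x`, by linearity in `x`
(for `x = single k r`: `single k r * single g 1 = single (k * g) r`).
(b) Let `P` be the set of `g : H` with `single g 1 - 1 ∈ range (cayD s)`. It contains `1` and the `s j`
(`y = Pi.single j 1`), it is closed under products: `single (g * g') 1 - 1 = single g 1 * (single g' 1 - 1) + (single g 1 - 1)`
(the range is a left submodule), and under inverses: `single g⁻¹ 1 - 1 = -(single g⁻¹ 1 * (single g 1 - 1))`.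
So `P` is everything, by `Subgroup.closure_induction`.
(c) If `aug x = 0` then `x = ∑_g x_g • single g 1 = ∑_g x_g • (single g 1 - 1)` is in the range
(`r • z = single 1 r * z`, so the range is closed under rational scalars).
-/

set_option autoImplicit false

namespace Pool.Agent.H62.CI

variable {H : Type} [Group H]

theorem FPX_single (g : H) (r : ℚ) : aug (MonoidAlgebra.single g r) = r := by
  show (MonoidAlgebra.single g r).coeff.sum (fun _ r => r) = r
  rw [MonoidAlgebra.coeff_single, Finsupp.sum_single_index rfl]

theorem FPX_mul_single (x : MonoidAlgebra ℚ H) (g : H) :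
    aug (x * MonoidAlgebra.single g 1) = aug x := by
  induction x using MonoidAlgebra.induction_linear with
  | zero => rw [zero_mul]
  | add x y hx hy => rw [add_mul, map_add, map_add, hx, hy]
  | single k r => rw [MonoidAlgebra.single_mul_single, mul_one, FPX_single, FPX_single]

theorem aug_cayD {n : ℕ} (s : Fin n → H) (y : Fin n → MonoidAlgebra ℚ H) : aug (cayD s y) = 0 := by
  show aug (∑ j, y j * (MonoidAlgebra.single (s j) 1 - 1)) = 0
  rw [map_sum]
  refine Finset.sum_eq_zero fun j _ => ?_
  rw [mul_sub, mul_one, map_sub, FPX_mul_single, sub_self]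

theorem aug_ker {n : ℕ} (s : Fin n → H) (hs : Subgroup.closure (Set.range s) = ⊤)
    (x : MonoidAlgebra ℚ H) (hx : aug x = 0) : ∃ y, cayD s y = x := by
  classical
  have hP : ∀ g : H, MonoidAlgebra.single g (1 : ℚ) - 1 ∈ LinearMap.range (cayD s) := by
    intro g
    have hg : g ∈ Subgroup.closure (Set.range s) := by rw [hs]; exact Subgroup.mem_top g
    induction hg using Subgroup.closure_induction with
    | mem z hz =>
      obtain ⟨j, rfl⟩ := hz
      refine ⟨Pi.single j 1, ?_⟩
      show ∑ i, (Pi.single j (1 : MonoidAlgebra ℚ H) : Fin n → MonoidAlgebra ℚ H) i *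
        (MonoidAlgebra.single (s i) 1 - 1) = MonoidAlgebra.single (s j) 1 - 1
      rw [Finset.sum_eq_single j]
      · rw [Pi.single_eq_same, one_mul]
      · intro i _ hi
        rw [Pi.single_eq_of_ne hi, zero_mul]
      · intro h
        exact absurd (Finset.mem_univ j) h
    | one =>
      rw [← MonoidAlgebra.one_def, sub_self]
      exact Submodule.zero_mem _
    | mul g g' _ _ h h' =>
      have e : MonoidAlgebra.single (g * g') (1 : ℚ) - 1 =
          MonoidAlgebra.single g (1 : ℚ) • (MonoidAlgebra.single g' (1 : ℚ) - 1) +
            (MonoidAlgebra.single g (1 : ℚ) - 1) := by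
        rw [smul_eq_mul, mul_sub, MonoidAlgebra.single_mul_single, mul_one, mul_one]
        abel
      rw [e]
      exact Submodule.add_mem _ (Submodule.smul_mem _ _ h') h
    | inv g _ h =>
      have e : MonoidAlgebra.single g⁻¹ (1 : ℚ) - 1 =
          -(MonoidAlgebra.single g⁻¹ (1 : ℚ) • (MonoidAlgebra.single g (1 : ℚ) - 1)) := by
        rw [smul_eq_mul, mul_sub, MonoidAlgebra.single_mul_single, mul_one, mul_one,
          inv_mul_cancel, ← MonoidAlgebra.one_def]
        abel
      rw [e]
      exact Submodule.neg_mem _ (Submodule.smul_mem _ _ h)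
  have key : ∀ x : MonoidAlgebra ℚ H,
      x - MonoidAlgebra.single 1 (aug x) ∈ LinearMap.range (cayD s) := by
    intro x
    induction x using MonoidAlgebra.induction_linear with
    | zero =>
      rw [map_zero, MonoidAlgebra.single_zero, sub_zero]
      exact Submodule.zero_mem _
    | add x y hx hy =>
      have e : x + y - MonoidAlgebra.single 1 (aug (x + y)) =
          (x - MonoidAlgebra.single 1 (aug x)) + (y - MonoidAlgebra.single 1 (aug y)) := by
        rw [map_add, MonoidAlgebra.single_add]
        abel
      rw [e]
      exact Submodule.add_mem _ hx hy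
    | single g r =>
      rw [FPX_single]
      have e : MonoidAlgebra.single g r - MonoidAlgebra.single 1 r =
          MonoidAlgebra.single (1 : H) r • (MonoidAlgebra.single g (1 : ℚ) - 1) := by
        rw [smul_eq_mul, mul_sub, MonoidAlgebra.single_mul_single, one_mul, mul_one, mul_one]
      rw [e]
      exact Submodule.smul_mem _ _ (hP g)
  have h := key x
  rw [hx, MonoidAlgebra.single_zero, sub_zero] at h
  exact h

theorem aug_single_mul (h : H) (x : MonoidAlgebra ℚ H) : aug (MonoidAlgebra.single h 1 * x) = aug x := by
  induction x using MonoidAlgebra.induction_linear with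
  | zero => rw [mul_zero]
  | add x y hx hy => rw [mul_add, map_add, map_add, hx, hy]
  | single k r => rw [MonoidAlgebra.single_mul_single, one_mul, FPX_single, FPX_single]

end Pool.Agent.H62.CI
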