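import Pool.Agent.H50.CI.Top
import Pool.Agent.H62.CI.N7s
import Pool.Agent.H62.CI.DefsR

/-!
# The final theorem: subgroups of type FP_2
-/

noncomputable section

set_option autoImplicit false

namespace Pool.Agent.H62.CI

open Pool.Agent.H60.CI Pool.Agent.H50.CI

theorem final_fp {X : Cpx} (x0 : X.V) (hX : X.CNPI ∨ (X.NPIsc ∧ X.DRc)) (H : Subgroup (Pi1 X x0))
    (h : FPtwo ℚ H) : Group.IsFinitelyPresented H := by
  rcases hX with hX | ⟨h1, h2⟩
  · exact top hX x0 H h
  · exact thmA H ((XtH X x0).restr H) Xt_conn Xt_sc (h2 (Xt X x0) Xt_conn Xt_sc (cov X x0) cov_imm)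
      (noZeroDivisors_subgroup (locInd_sc h1 x0) H) h

end Pool.Agent.H62.CI
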