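import Mathlib
import Pool.Agent.H50.CI.U0
import Pool.Agent.H60.CI.Defs0
import Pool.Agent.H50.CI.N0

set_option autoImplicit false

/-! Coherence of complexes with collapsing nonpositive immersions, M1: this file joins several modules. -/

section S_H60_CI_Im

/-!
# Immersed complexes as 2-complexes; morphisms; quotients by congruences
-/

noncomputable section NC_H60_CI_Im1

set_option linter.unusedVariables false

namespace Pool.Agent.H60.CI

namespace PC

variable {B : Cpx} (D : PC B)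

/-- source of an edge of `D` -/
def esrc (ε : D.Edg) : D.V := ε.1.1
/-- target of an edge of `D` -/
def etgt (ε : D.Edg) : D.V := ε.1.2.2
/-- image in `B` -/
def epr (ε : D.Edg) : B.E := ε.1.2.1
/-- base vertex of a mark -/
def mbase (τ : D.Mks) : D.V := τ.1.1
/-- image in `B` -/
def mpr (τ : D.Mks) : B.F := τ.1.2

theorem edg_ext {ε ε' : D.Edg} (h1 : D.esrc ε = D.esrc ε') (h2 : D.epr ε = D.epr ε')
    (h3 : D.etgt ε = D.etgt ε') : ε = ε' :=
  Subtype.ext (Prod.ext h1 (Prod.ext h2 h3))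

theorem mks_ext {τ τ' : D.Mks} (h1 : D.mbase τ = D.mbase τ') (h2 : D.mpr τ = D.mpr τ') : τ = τ' :=
  Subtype.ext (Prod.ext h1 h2)

theorem W_append {x z : D.V} {w w' : List (B.E × Bool)} :
    D.W x (w ++ w') z ↔ ∃ y, D.W x w y ∧ D.W y w' z := by
  induction w generalizing x with
  | nil => simp [W]
  | cons a w ih =>
    simp only [List.cons_append, W, ih]
    constructor
    · rintro ⟨y, h, z', h1, h2⟩; exact ⟨z', ⟨y, h, h1⟩, h2⟩
    · rintro ⟨y, ⟨y', h, h1⟩, h2⟩; exact ⟨y', h, y, h1, h2⟩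

theorem W_single {x y : D.V} {a : B.E × Bool} : D.W x [a] y ↔ D.oadj x a y := by
  simp [W]

theorem W_append_single {x z : D.V} {w : List (B.E × Bool)} {a : B.E × Bool} :
    D.W x (w ++ [a]) z ↔ ∃ y, D.W x w y ∧ D.oadj y a z := by
  simp only [W_append, W_single]

theorem oadj_inv {x y : D.V} {e : B.E} {b : Bool} : D.oadj x (e, b) y ↔ D.oadj y (e, !b) x := by
  cases b <;> simp [oadj]

/-- an edge path of `D` projects to a word which lifts -/
theorem W_of_walk {x y : D.V} {L : List (D.Edg × Bool)} (h : IsWalk D.esrc D.etgt x L y) :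
    D.W x (L.map (Prod.map D.epr id)) y := by
  induction L generalizing x with
  | nil => exact h
  | cons a L ih =>
    obtain ⟨h1, h2⟩ := h
    refine ⟨_, ?_, ih h2⟩
    obtain ⟨⟨⟨u, e, v⟩, hε⟩, b⟩ := a
    cases b
    · simpa [oadj, oS, oT, esrc, etgt, epr, ← h1] using hε
    · simpa [oadj, oS, oT, esrc, etgt, epr, ← h1] using hε

/-- a word which lifts gives an edge path -/
theorem exists_walk {x y : D.V} {w : List (B.E × Bool)} (h : D.W x w y) :
    ∃ L : List (D.Edg × Bool), IsWalk D.esrc D.etgt x L y ∧ L.map (Prod.map D.epr id) = w := by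
  induction w generalizing x with
  | nil => exact ⟨[], h, rfl⟩
  | cons a w ih =>
    obtain ⟨z, h1, h2⟩ := h
    obtain ⟨L, hL, hL'⟩ := ih h2
    obtain ⟨e, b⟩ := a
    cases b
    · have h1' : D.adj z e x := by simpa [oadj] using h1
      refine ⟨(⟨(z, e, x), h1'⟩, false) :: L, ⟨rfl, hL⟩, ?_⟩
      rw [List.map_cons, hL']
      rfl
    · have h1' : D.adj x e z := by simpa [oadj] using h1
      refine ⟨(⟨(x, e, z), h1'⟩, true) :: L, ⟨rfl, hL⟩, ?_⟩
      rw [List.map_cons, hL']
      rfl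

theorem p_W {x y : D.V} {w : List (B.E × Bool)} (h : D.W x w y) :
    B.Walk (D.p x) w (D.p y) := by
  induction w generalizing x with
  | nil => exact congrArg D.p h
  | cons a w ih =>
    obtain ⟨z, h1, h2⟩ := h
    have : IsWalk B.src B.tgt (D.p z) w (D.p y) := ih h2
    obtain ⟨e, b⟩ := a
    cases b
    · have h1' : D.adj z e x := by simpa [oadj] using h1
      refine ⟨by simp [oS, D.adj_tgt h1'], ?_⟩
      simpa [oT, D.adj_src h1'] using this
    · have h1' : D.adj x e z := by simpa [oadj] using h1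
      refine ⟨by simp [oS, D.adj_src h1'], ?_⟩
      simpa [oT, D.adj_tgt h1'] using this

/-- morphisms of precomplexes over `B` -/
structure Mor (D D' : PC B) where
  f : D.V → D'.V
  p_f : ∀ x, D'.p (f x) = D.p x
  adj_f : ∀ {x e y}, D.adj x e y → D'.adj (f x) e (f y)
  mark_f : ∀ {x σ}, D.mark x σ → D'.mark (f x) σ

theorem Mor.W {D D' : PC B} (m : Mor D D') {x y : D.V} {w : List (B.E × Bool)} (h : D.W x w y) :
    D'.W (m.f x) w (m.f y) := by
  induction w generalizing x with
  | nil => exact congrArg m.f h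
  | cons a w ih =>
    obtain ⟨z, h1, h2⟩ := h
    refine ⟨m.f z, ?_, ih h2⟩
    obtain ⟨e, b⟩ := a
    cases b
    · have h1' : D.adj z e x := by simpa [oadj] using h1
      simpa [oadj] using m.adj_f h1'
    · have h1' : D.adj x e z := by simpa [oadj] using h1
      simpa [oadj] using m.adj_f h1'

/-- the map on edges -/
def Mor.fe {D D' : PC B} (m : Mor D D') (ε : D.Edg) : D'.Edg :=
  ⟨(m.f ε.1.1, ε.1.2.1, m.f ε.1.2.2), m.adj_f ε.2⟩

/-- the map on marks -/
def Mor.fm {D D' : PC B} (m : Mor D D') (τ : D.Mks) : D'.Mks :=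
  ⟨(m.f τ.1.1, τ.1.2), m.mark_f τ.2⟩

end PC

namespace Im

variable {B : Cpx} (I : Im B)

theorem oadj_fun {x y y' : I.V} {a : B.E × Bool} (h : I.oadj x a y) (h' : I.oadj x a y') :
    y = y' := by
  obtain ⟨e, b⟩ := a
  cases b
  · have h1 : I.adj y e x := by simpa [PC.oadj] using h
    have h2 : I.adj y' e x := by simpa [PC.oadj] using h'
    exact I.fun_l h1 h2
  · have h1 : I.adj x e y := by simpa [PC.oadj] using h
    have h2 : I.adj x e y' := by simpa [PC.oadj] using h'
    exact I.fun_r h1 h2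

theorem W_fun {x y y' : I.V} {w : List (B.E × Bool)} (h : I.W x w y) (h' : I.W x w y') :
    y = y' := by
  induction w generalizing x with
  | nil => exact h.symm.trans h'
  | cons a w ih =>
    obtain ⟨z, h1, h2⟩ := h
    obtain ⟨z', h1', h2'⟩ := h'
    obtain rfl := I.oadj_fun h1 h1'
    exact ih h2 h2'

/-- unique lifting of edge paths -/
theorem walk_unique {x y y' : I.V} {L L' : List (I.Edg × Bool)}
    (h : IsWalk I.esrc I.etgt x L y) (h' : IsWalk I.esrc I.etgt x L' y')
    (hp : L.map (Prod.map I.epr id) = L'.map (Prod.map I.epr id)) : L = L' := by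
  induction L generalizing x L' with
  | nil =>
    cases L' with
    | nil => rfl
    | cons a L' => simp at hp
  | cons a L ih =>
    cases L' with
    | nil => simp at hp
    | cons a' L' =>
      simp only [List.map_cons, List.cons.injEq] at hp
      obtain ⟨hp1, hp2⟩ := hp
      obtain ⟨h1, h2⟩ := h
      obtain ⟨h1', h2'⟩ := h'
      have ha : a = a' := by
        obtain ⟨ε, b⟩ := a
        obtain ⟨ε', b'⟩ := a'
        simp only [Prod.map_apply, id_eq, Prod.mk.injEq] at hp1
        obtain ⟨he, rfl⟩ := hp1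
        cases b
        · simp only [oS, Bool.false_eq_true, if_false] at h1 h1'
          have h3 : I.etgt ε = I.etgt ε' := h1.trans h1'.symm
          have h4 : I.esrc ε = I.esrc ε' := by
            have e1 : I.adj (I.esrc ε) (I.epr ε) (I.etgt ε) := ε.2
            have e2 : I.adj (I.esrc ε') (I.epr ε') (I.etgt ε') := ε'.2
            rw [← he, ← h3] at e2
            exact I.fun_l e1 e2
          rw [I.edg_ext h4 he h3]
        · simp only [oS, if_true] at h1 h1'
          have h3 : I.esrc ε = I.esrc ε' := h1.trans h1'.symm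
          have h4 : I.etgt ε = I.etgt ε' := by
            have e1 : I.adj (I.esrc ε) (I.epr ε) (I.etgt ε) := ε.2
            have e2 : I.adj (I.esrc ε') (I.epr ε') (I.etgt ε') := ε'.2
            rw [← he, ← h3] at e2
            exact I.fun_r e1 e2
          rw [I.edg_ext h3 he h4]
      subst ha
      rw [ih h2 h2' hp2]

/-- the boundary word of a mark -/
def bdw (τ : I.Mks) : List (I.Edg × Bool) := (I.exists_walk (I.mark_walk τ.2)).choose

theorem bdw_walk (τ : I.Mks) : IsWalk I.esrc I.etgt (I.mbase τ) (I.bdw τ) (I.mbase τ) :=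
  (I.exists_walk (I.mark_walk τ.2)).choose_spec.1

theorem bdw_map (τ : I.Mks) : (I.bdw τ).map (Prod.map I.epr id) = B.bd (I.mpr τ) :=
  (I.exists_walk (I.mark_walk τ.2)).choose_spec.2

/-- an immersed complex as a 2-complex -/
abbrev toCpx : Cpx where
  V := I.V
  E := I.Edg
  F := I.Mks
  src := I.esrc
  tgt := I.etgt
  base := I.mbase
  bd := I.bdw
  bd_walk := I.bdw_walk

/-- the immersion -/
def hom : Cpx.Hom I.toCpx B where
  v := I.p
  e := I.epr
  f := I.mpr
  src_v := fun ε => (I.adj_src ε.2).symm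
  tgt_v := fun ε => (I.adj_tgt ε.2).symm
  base_v := fun τ => (I.mark_base τ.2).symm
  bd_e := fun τ => (I.bdw_map τ).symm

theorem hom_isImm : I.hom.IsImm where
  src_inj := by
    intro ε ε' h h'
    refine I.edg_ext h h' ?_
    have e1 : I.adj (I.esrc ε) (I.epr ε) (I.etgt ε) := ε.2
    have e2 : I.adj (I.esrc ε') (I.epr ε') (I.etgt ε') := ε'.2
    have h'' : I.epr ε = I.epr ε' := h'
    have h3 : I.esrc ε = I.esrc ε' := h
    rw [← h'', ← h3] at e2
    exact I.fun_r e1 e2
  tgt_inj := by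
    intro ε ε' h h'
    refine I.edg_ext ?_ h' h
    have e1 : I.adj (I.esrc ε) (I.epr ε) (I.etgt ε) := ε.2
    have e2 : I.adj (I.esrc ε') (I.epr ε') (I.etgt ε') := ε'.2
    have h'' : I.epr ε = I.epr ε' := h'
    have h3 : I.etgt ε = I.etgt ε' := h
    rw [← h'', ← h3] at e2
    exact I.fun_l e1 e2
  face_inj := fun τ τ' h h' => I.mks_ext h h'

theorem W_iff_walk {x y : I.V} {w : List (B.E × Bool)} :
    I.W x w y ↔ ∃ L : List (I.Edg × Bool), I.toCpx.Walk x L y ∧ L.map (Prod.map I.epr id) = w := by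
  constructor
  · exact I.exists_walk
  · rintro ⟨L, hL, rfl⟩
    exact I.W_of_walk hL

end Im

theorem isWalk_map {V E V' E' : Type} {src tgt : E → V} {src' tgt' : E' → V'} (f : V → V')
    (g : E → E') (hs : ∀ e, src' (g e) = f (src e)) (ht : ∀ e, tgt' (g e) = f (tgt e))
    {x y : V} {w : List (E × Bool)} (h : IsWalk src tgt x w y) :
    IsWalk src' tgt' (f x) (w.map (Prod.map g id)) (f y) := by
  induction w generalizing x with
  | nil => exact congrArg f h
  | cons a w ih =>
    obtain ⟨h1, h2⟩ := h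
    obtain ⟨e, b⟩ := a
    cases b
    · refine ⟨?_, ?_⟩
      · rw [← h1]; simp [oS, ht]
      · have := ih h2
        simpa [oT, hs] using this
    · refine ⟨?_, ?_⟩
      · rw [← h1]; simp [oS, hs]
      · have := ih h2
        simpa [oT, ht] using this

namespace PC.Mor

variable {B : Cpx}

/-- the cellular map of a morphism of immersed complexes -/
def hom {I J : Im B} (m : PC.Mor I.toPC J.toPC) : Cpx.Hom I.toCpx J.toCpx where
  v := m.f
  e := m.fe
  f := m.fm
  src_v := fun _ => rfl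
  tgt_v := fun _ => rfl
  base_v := fun _ => rfl
  bd_e := by
    intro τ
    refine J.walk_unique (J.bdw_walk (m.fm τ)) (y' := m.f (I.mbase τ)) ?_ ?_
    · exact isWalk_map m.f m.fe (fun _ => rfl) (fun _ => rfl) (I.bdw_walk τ)
    · change (J.bdw (m.fm τ)).map (Prod.map J.epr id)
        = ((I.bdw τ).map (Prod.map m.fe id)).map (Prod.map J.epr id)
      rw [J.bdw_map, List.map_map]
      exact (I.bdw_map τ).symm

theorem hom_isImm {I J : Im B} (m : PC.Mor I.toPC J.toPC) : m.hom.IsImm where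
  src_inj := fun ε ε' h h' => I.hom_isImm.src_inj ε ε' h (congrArg J.epr h')
  tgt_inj := fun ε ε' h h' => I.hom_isImm.tgt_inj ε ε' h (congrArg J.epr h')
  face_inj := fun τ τ' h h' => I.mks_ext h (congrArg J.mpr h')

end PC.Mor

section quotient

variable {B : Cpx}

/-- quotient of a precomplex by a congruence such that the marks close up -/
def PC.quo (D : PC B) (R : Setoid D.V) (hR : D.Cong R)
    (hcl : ∀ {x σ}, D.mark x σ → ∃ y, D.W x (B.bd σ) y ∧ R x y) : Im B where
  V := Quotient R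
  p := Quotient.lift D.p (fun _ _ h => hR.fib h)
  adj := fun a e b => ∃ x y, Quotient.mk R x = a ∧ Quotient.mk R y = b ∧ D.adj x e y
  mark := fun a σ => ∃ x, Quotient.mk R x = a ∧ D.mark x σ
  adj_src := by
    rintro a e b ⟨x, y, rfl, rfl, h⟩
    exact D.adj_src h
  adj_tgt := by
    rintro a e b ⟨x, y, rfl, rfl, h⟩
    exact D.adj_tgt h
  mark_base := by
    rintro a σ ⟨x, rfl, h⟩
    exact D.mark_base h
  fun_r := by
    rintro a e b b' ⟨x, y, rfl, rfl, h⟩ ⟨x', y', h1, rfl, h'⟩
    exact Quotient.sound (hR.fwd h h' (Quotient.exact h1.symm))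
  fun_l := by
    rintro a a' e b ⟨x, y, rfl, rfl, h⟩ ⟨x', y', rfl, h1, h'⟩
    exact Quotient.sound (hR.bwd h h' (Quotient.exact h1.symm))
  mark_walk := by
    rintro a σ ⟨x, rfl, h⟩
    obtain ⟨y, hy, hxy⟩ := hcl h
    have key : ∀ (w : List (B.E × Bool)) (x y : D.V), D.W x w y →
        PC.W { V := Quotient R
               p := Quotient.lift D.p (fun _ _ h => hR.fib h)
               adj := fun a e b => ∃ x y, Quotient.mk R x = a ∧ Quotient.mk R y = b ∧ D.adj x e y
               mark := fun a σ => ∃ x, Quotient.mk R x = a ∧ D.mark x σ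
               adj_src := by
                rintro a e b ⟨x, y, rfl, rfl, h⟩
                exact D.adj_src h
               adj_tgt := by
                rintro a e b ⟨x, y, rfl, rfl, h⟩
                exact D.adj_tgt h
               mark_base := by
                rintro a σ ⟨x, rfl, h⟩
                exact D.mark_base h } (Quotient.mk R x) w (Quotient.mk R y) := by
      intro w
      induction w with
      | nil => rintro x y rfl; rfl
      | cons a w ih =>
        rintro x y ⟨z, h1, h2⟩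
        refine ⟨Quotient.mk R z, ?_, ih z y h2⟩
        obtain ⟨e, b⟩ := a
        cases b
        · have h1' : D.adj z e x := by simpa [PC.oadj] using h1
          simp only [PC.oadj, Bool.false_eq_true, if_false]
          exact ⟨z, x, rfl, rfl, h1'⟩
        · have h1' : D.adj x e z := by simpa [PC.oadj] using h1
          simp only [PC.oadj, if_true]
          exact ⟨x, z, rfl, rfl, h1'⟩
    have := key _ _ _ hy
    rwa [show Quotient.mk R y = Quotient.mk R x from (Quotient.sound hxy).symm] at this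

/-- the projection to the quotient -/
def PC.quoMor (D : PC B) (R : Setoid D.V) (hR : D.Cong R)
    (hcl : ∀ {x σ}, D.mark x σ → ∃ y, D.W x (B.bd σ) y ∧ R x y) :
    PC.Mor D (D.quo R hR hcl).toPC where
  f := Quotient.mk R
  p_f := fun _ => rfl
  adj_f := fun h => ⟨_, _, rfl, rfl, h⟩
  mark_f := fun h => ⟨_, rfl, h⟩

/-- quotient of an immersed complex by a congruence -/
def Im.quo (I : Im B) (R : Setoid I.V) (hR : I.Cong R) : Im B :=
  I.toPC.quo R hR (fun h => ⟨_, I.mark_walk h, R.refl _⟩)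

/-- the projection to the quotient -/
def Im.quoMor (I : Im B) (R : Setoid I.V) (hR : I.Cong R) :
    PC.Mor I.toPC (I.quo R hR).toPC :=
  I.toPC.quoMor R hR (fun h => ⟨_, I.mark_walk h, R.refl _⟩)

end quotient

end Pool.Agent.H60.CI

end NC_H60_CI_Im1

end S_H60_CI_Im

section S_H60_CI_EqF

/-!
# Equivariant functions with finite support modulo the group, as coinvariants (definitions)

`H` acts on the set `T`, `ρ` is a representation of `H` on a `ℚ`-vector space `N`.
`EqF ρ T = (T →₀ N) / ⟨(h • t, ρ h n) - (t, n)⟩`.  If the action on `T` is free this is the space of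
equivariant functions `T → N` with finite support modulo `H`; `ev ρ t` is the evaluation at `t`.
-/

noncomputable section NC_H60_CI_EqF1

namespace Pool.Agent.H60.CI

open Finsupp

variable {H : Type} [Group H]

/-- free actions -/
class FreeAct (H T : Type) [Group H] [MulAction H T] : Prop where
  free : ∀ (h : H) (t : T), h • t = t → h = 1

section

variable {N : Type} [AddCommGroup N] [Module ℚ N] (ρ : Representation ℚ H N)
variable (T : Type) [MulAction H T]

/-- the relations `(h • t, ρ h n) ~ (t, n)` -/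
def eqRel : Submodule ℚ (T →₀ N) :=
  Submodule.span ℚ {z | ∃ (h : H) (t : T) (n : N), z = single (h • t) (ρ h n) - single t n}

/-- equivariant functions `T → N` with finite support modulo `H` -/
abbrev EqF : Type := (T →₀ N) ⧸ eqRel ρ T

end

namespace EqF

variable {N : Type} [AddCommGroup N] [Module ℚ N] (ρ : Representation ℚ H N)
variable {T : Type} [MulAction H T]

/-- the equivariant function supported on the orbit of `t` with value `n` at `t` -/
def sg (t : T) : N →ₗ[ℚ] EqF ρ T := (eqRel ρ T).mkQ ∘ₗ Finsupp.lsingle t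

theorem sg_smul (h : H) (t : T) (n : N) : sg ρ (h • t) (ρ h n) = sg ρ t n := by
  rw [← sub_eq_zero]
  simp only [sg, LinearMap.comp_apply, Finsupp.lsingle_apply]
  rw [← map_sub, Submodule.mkQ_apply, Submodule.Quotient.mk_eq_zero]
  exact Submodule.subset_span ⟨h, t, n, rfl⟩

/-- two linear maps which agree on all `sg t n` are equal -/
theorem hom_ext {W : Type} [AddCommGroup W] [Module ℚ W] {f g : EqF ρ T →ₗ[ℚ] W}
    (h : ∀ t n, f (sg ρ t n) = g (sg ρ t n)) : f = g := by
  apply Submodule.linearMap_qext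
  ext t n
  exact h t n

theorem lift_aux {W : Type} [AddCommGroup W] [Module ℚ W] (L : T → N →ₗ[ℚ] W)
    (hL : ∀ (h : H) (t : T) (n : N), L (h • t) (ρ h n) = L t n) :
    eqRel ρ T ≤ LinearMap.ker (Finsupp.lsum ℚ L) := by
  rw [eqRel, Submodule.span_le]
  rintro z ⟨h, t, n, rfl⟩
  rw [SetLike.mem_coe, LinearMap.mem_ker, map_sub]
  simp [hL, Finsupp.lsum_single]

/-- universal property -/
def lift {W : Type} [AddCommGroup W] [Module ℚ W] (L : T → N →ₗ[ℚ] W)
    (hL : ∀ (h : H) (t : T) (n : N), L (h • t) (ρ h n) = L t n) : EqF ρ T →ₗ[ℚ] W :=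
  (eqRel ρ T).liftQ (Finsupp.lsum ℚ L) (lift_aux ρ L hL)

@[simp] theorem lift_sg {W : Type} [AddCommGroup W] [Module ℚ W] (L : T → N →ₗ[ℚ] W)
    (hL : ∀ (h : H) (t : T) (n : N), L (h • t) (ρ h n) = L t n) (t : T) (n : N) :
    lift ρ L hL (sg ρ t n) = L t n := by
  simp [lift, sg]

open Classical in
/-- the local formula for the evaluation at `t` -/
def evL (t s : T) : N →ₗ[ℚ] N := if h : ∃ g : H, g • s = t then ρ h.choose else 0

theorem evL_eq [FreeAct H T] {t s : T} {g : H} (hg : g • s = t) : evL ρ t s = ρ g := by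
  have h : ∃ g : H, g • s = t := ⟨g, hg⟩
  have h1 := h.choose_spec
  have : h.choose = g := by
    have h2 : (g⁻¹ * h.choose) • s = s := by
      rw [mul_smul, h1, ← hg, inv_smul_smul]
    have h3 := FreeAct.free _ _ h2
    exact (inv_mul_eq_one.mp h3).symm
  rw [evL, dif_pos h, this]

theorem evL_compat [FreeAct H T] (t : T) (h : H) (s : T) (n : N) :
    evL ρ t (h • s) (ρ h n) = evL ρ t s n := by
  by_cases hg : ∃ g : H, g • s = t
  · obtain ⟨g, hg⟩ := hg
    have h1 : (g * h⁻¹) • (h • s) = t := by rw [← mul_smul]; simpa using hg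
    rw [evL_eq ρ hg, evL_eq ρ h1, map_mul]
    simp
  · have h2 : ¬ ∃ g : H, g • (h • s) = t := by
      rintro ⟨g, h2⟩
      exact hg ⟨g * h, by rw [mul_smul]; exact h2⟩
    rw [evL, evL, dif_neg hg, dif_neg h2]
    simp

/-- evaluation of an equivariant function at `t` -/
def ev [FreeAct H T] (t : T) : EqF ρ T →ₗ[ℚ] N := lift ρ (evL ρ t) (evL_compat ρ t)

theorem ev_sg [FreeAct H T] {t s : T} {g : H} (hg : g • s = t) (n : N) :
    ev ρ t (sg ρ s n) = ρ g n := by
  rw [ev, lift_sg, evL_eq ρ hg]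

@[simp] theorem ev_sg_self [FreeAct H T] (t : T) (n : N) : ev ρ t (sg ρ t n) = n := by
  rw [ev_sg ρ (one_smul H t)]; simp

theorem ev_sg_of_not [FreeAct H T] {t s : T} (hg : ∀ g : H, g • s ≠ t) (n : N) :
    ev ρ t (sg ρ s n) = 0 := by
  rw [ev, lift_sg, evL, dif_neg (by simpa using hg)]; simp

/-- functoriality in the coefficients -/
def mapc {N' : Type} [AddCommGroup N'] [Module ℚ N'] (ρ' : Representation ℚ H N')
    (f : N →ₗ[ℚ] N') (hf : ∀ h n, f (ρ h n) = ρ' h (f n)) : EqF ρ T →ₗ[ℚ] EqF ρ' T :=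
  lift ρ (fun t => sg ρ' t ∘ₗ f) (fun h t n => by simp [hf, sg_smul])

@[simp] theorem mapc_sg {N' : Type} [AddCommGroup N'] [Module ℚ N'] (ρ' : Representation ℚ H N')
    (f : N →ₗ[ℚ] N') (hf : ∀ h n, f (ρ h n) = ρ' h (f n)) (t : T) (n : N) :
    mapc (T := T) ρ ρ' f hf (sg ρ t n) = sg ρ' t (f n) := by
  simp [mapc]

/-- push forward along an equivariant map -/
def push {T' : Type} [MulAction H T'] (q : T → T') (hq : ∀ (h : H) (t : T), q (h • t) = h • q t) :
    EqF ρ T →ₗ[ℚ] EqF ρ T' :=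
  lift ρ (fun t => sg ρ (q t)) (fun h t n => by rw [hq, sg_smul])

@[simp] theorem push_sg {T' : Type} [MulAction H T'] (q : T → T')
    (hq : ∀ (h : H) (t : T), q (h • t) = h • q t) (t : T) (n : N) :
    push ρ q hq (sg ρ t n) = sg ρ (q t) n := by
  simp [push]

/-- operator given by an equivariant matrix `D : T → (T' →₀ ℚ)` -/
def mat {T' : Type} [MulAction H T'] (D : T → (T' →₀ ℚ))
    (hD : ∀ (h : H) (t : T), D (h • t) = (D t).mapDomain (h • ·)) : EqF ρ T →ₗ[ℚ] EqF ρ T' :=
  lift ρ (fun t => (D t).sum fun t' r => r • sg ρ t') (fun h t n => by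
    rw [hD, Finsupp.sum_mapDomain_index (by simp) (by intros; rw [add_smul])]
    simp only [Finsupp.sum, LinearMap.sum_apply, LinearMap.smul_apply, sg_smul])

theorem mat_sg {T' : Type} [MulAction H T'] (D : T → (T' →₀ ℚ))
    (hD : ∀ (h : H) (t : T), D (h • t) = (D t).mapDomain (h • ·)) (t : T) (n : N) :
    mat ρ D hD (sg ρ t n) = (D t).sum fun t' r => r • sg ρ t' n := by
  simp [mat, Finsupp.sum]

end EqF

/-- the permutation representation on `T →₀ ℚ` -/
def perm (H : Type) [Group H] (T : Type) [MulAction H T] : Representation ℚ H (T →₀ ℚ) where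
  toFun g := Finsupp.lmapDomain ℚ ℚ (g • ·)
  map_one' := by ext; simp
  map_mul' x y := by ext; simp [mul_smul]

@[simp] theorem perm_single {T : Type} [MulAction H T] (h : H) (t : T) (r : ℚ) :
    perm H T h (single t r) = single (h • t) r := by
  simp [perm]

end Pool.Agent.H60.CI

end NC_H60_CI_EqF1

end S_H60_CI_EqF

section S_H60_CI_Hcx

/-!
# Chains of 2-complexes, boundary operators, statements `T2`, `SS`, `H1z`, `H2z`
-/

noncomputable section NC_H60_CI_Hcx1

namespace Pool.Agent.H60.CI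

open Finsupp

/-- sign of an orientation -/
def sgnb (b : Bool) : ℚ := if b then 1 else -1

/-- chain of a word of oriented edges -/
def wch {E : Type} (w : List (E × Bool)) : E →₀ ℚ := (w.map fun a => single a.1 (sgnb a.2)).sum

/-- sum of a function on the edges along a word -/
def wsum {E : Type} (b : E → ℚ) (w : List (E × Bool)) : ℚ := (w.map fun a => sgnb a.2 * b a.1).sum

@[simp] theorem wch_nil {E : Type} : wch ([] : List (E × Bool)) = 0 := rfl
@[simp] theorem wch_cons {E : Type} (a : E × Bool) (w : List (E × Bool)) :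
    wch (a :: w) = single a.1 (sgnb a.2) + wch w := by simp [wch]
@[simp] theorem wch_append {E : Type} (w w' : List (E × Bool)) :
    wch (w ++ w') = wch w + wch w' := by simp [wch]
@[simp] theorem wsum_nil {E : Type} (b : E → ℚ) : wsum b [] = 0 := rfl
@[simp] theorem wsum_cons {E : Type} (b : E → ℚ) (a : E × Bool) (w : List (E × Bool)) :
    wsum b (a :: w) = sgnb a.2 * b a.1 + wsum b w := by simp [wsum]
@[simp] theorem wsum_append {E : Type} (b : E → ℚ) (w w' : List (E × Bool)) :
    wsum b (w ++ w') = wsum b w + wsum b w' := by simp [wsum]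

theorem linearCombination_wch {E : Type} (b : E → ℚ) (w : List (E × Bool)) :
    Finsupp.linearCombination ℚ b (wch w) = wsum b w := by
  induction w with
  | nil => simp
  | cons a w ih => simp [ih]

theorem mapDomain_wch {E E' : Type} (f : E → E') (w : List (E × Bool)) :
    (wch w).mapDomain f = wch (w.map (Prod.map f id)) := by
  induction w with
  | nil => simp
  | cons a w ih => simp [Finsupp.mapDomain_add, ih]

namespace Cpx

variable (Y : Cpx)

/-- boundary of an edge -/
def d1 (ε : Y.E) : Y.V →₀ ℚ := single (Y.tgt ε) 1 - single (Y.src ε) 1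

/-- boundary of a 2-cell -/
def d2 (σ : Y.F) : Y.E →₀ ℚ := wch (Y.bd σ)

/-- `C_1 → C_0` -/
def L1 : (Y.E →₀ ℚ) →ₗ[ℚ] (Y.V →₀ ℚ) := Finsupp.linearCombination ℚ Y.d1

/-- `C_2 → C_1` -/
def L2 : (Y.F →₀ ℚ) →ₗ[ℚ] (Y.E →₀ ℚ) := Finsupp.linearCombination ℚ Y.d2

/-- `H_1(Y; ℚ) = 0` -/
def H1z : Prop := ∀ z : Y.E →₀ ℚ, Y.L1 z = 0 → ∃ c, Y.L2 c = z

/-- `H_2(Y; ℚ) = 0` -/
def H2z : Prop := ∀ c : Y.F →₀ ℚ, Y.L2 c = 0 → c = 0

/-- the chain of an edge path from `x` to `y` has boundary `y - x` -/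
theorem L1_wch {x y : Y.V} {w : List (Y.E × Bool)} (h : Y.Walk x w y) :
    Y.L1 (wch w) = single y 1 - single x 1 := by
  induction w generalizing x with
  | nil => cases h; simp
  | cons a w ih =>
    obtain ⟨h1, h2⟩ := h
    rw [wch_cons, map_add, ih h2, ← h1]
    rcases a with ⟨e, b⟩
    cases b
    · simp [L1, d1, sgnb, oS, oT]
    · simp [L1, d1, sgnb, oS, oT]

theorem L1_d2 (σ : Y.F) : Y.L1 (Y.d2 σ) = 0 := by
  rw [d2, Y.L1_wch (Y.bd_walk σ), sub_self]

theorem L1_L2 (c : Y.F →₀ ℚ) : Y.L1 (Y.L2 c) = 0 := by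
  induction c using Finsupp.induction_linear with
  | zero => simp
  | add f g hf hg => simp [hf, hg]
  | single σ r => simp [L2, L1_d2]

end Cpx

namespace HCpx

variable {H : Type} [Group H] (Y : HCpx H)

instance : FreeAct H Y.V := ⟨Y.free⟩
instance : FreeAct H Y.E := ⟨fun h ε he => Y.free h (Y.src ε) (by rw [← Y.src_smul, he])⟩
instance : FreeAct H Y.F := ⟨fun h σ hσ => Y.free h (Y.base σ) (by rw [← Y.base_smul, hσ])⟩

theorem d1_smul (h : H) (ε : Y.E) : Y.d1 (h • ε) = (Y.d1 ε).mapDomain (h • ·) := by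
  simp [Cpx.d1, Y.src_smul, Y.tgt_smul, sub_eq_add_neg, Finsupp.mapDomain_add,
    ← Finsupp.single_neg]

theorem d2_smul (h : H) (σ : Y.F) : Y.d2 (h • σ) = (Y.d2 σ).mapDomain (h • ·) := by
  rw [Cpx.d2, Cpx.d2, Y.bd_smul, mapDomain_wch]

variable {N : Type} [AddCommGroup N] [Module ℚ N] (ρ : Representation ℚ H N)

/-- boundary operator on equivariant 1-chains -/
def B1 : EqF ρ Y.E →ₗ[ℚ] EqF ρ Y.V := EqF.mat ρ Y.d1 Y.d1_smul

/-- boundary operator on equivariant 2-chains -/
def B2 : EqF ρ Y.F →ₗ[ℚ] EqF ρ Y.E := EqF.mat ρ Y.d2 Y.d2_smul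

/-- sum over a word of signed `sg` -/
theorem sum_wch (w : List (Y.E × Bool)) (n : N) :
    ((wch w).sum fun e r => r • EqF.sg ρ e n)
      = (w.map fun a => sgnb a.2 • EqF.sg ρ a.1 n).sum := by
  induction w with
  | nil => simp
  | cons a w ih =>
    rw [wch_cons, Finsupp.sum_add_index' (by simp) (by intros; rw [add_smul]), ih]
    simp

theorem B2_sg (σ : Y.F) (n : N) :
    Y.B2 ρ (EqF.sg ρ σ n) = ((Y.bd σ).map fun a => sgnb a.2 • EqF.sg ρ a.1 n).sum := by
  rw [B2, EqF.mat_sg, Cpx.d2, sum_wch]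

theorem B1_sg (ε : Y.E) (n : N) :
    Y.B1 ρ (EqF.sg ρ ε n) = EqF.sg ρ (Y.tgt ε) n - EqF.sg ρ (Y.src ε) n := by
  rw [B1, EqF.mat_sg, Cpx.d1, Finsupp.sum_sub_index (by intros; rw [sub_smul])]
  simp

end HCpx

section

variable {H : Type} [Group H]

/-- every equivariant 2-cycle of `B` with values in `ρ` vanishes -/
def T2 (B : HCpx H) {N : Type} [AddCommGroup N] [Module ℚ N] (ρ : Representation ℚ H N) : Prop :=
  ∀ a : EqF ρ B.F, B.B2 ρ a = 0 → a = 0

/-- the statement `S(Y)`: for all `ρ` with `T2 B ρ` every equivariant 2-cycle of `Y` with values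
in `ρ` vanishes -/
def SS (B Y : HCpx H) : Prop :=
  ∀ (N : Type) [AddCommGroup N] [Module ℚ N] (ρ : Representation ℚ H N), T2 B ρ →
    ∀ c : EqF ρ Y.F, Y.B2 ρ c = 0 → c = 0

/-- equivariant cellular maps -/
structure EqHom (Y' Y : HCpx H) extends Cpx.Hom Y'.toCpx Y.toCpx where
  v_smul : ∀ (h : H) x, v (h • x) = h • v x
  e_smul : ∀ (h : H) x, e (h • x) = h • e x
  f_smul : ∀ (h : H) x, f (h • x) = h • f x

/-- `C_1(Y) / ∂ C_2(Y)` -/
abbrev EE (Y : HCpx H) : Type := (Y.E →₀ ℚ) ⧸ LinearMap.range Y.L2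

theorem range_L2_inv (Y : HCpx H) (h : H) :
    LinearMap.range Y.L2 ≤ (LinearMap.range Y.L2).comap (perm H Y.E h) := by
  rintro _ ⟨c, rfl⟩
  refine ⟨perm H Y.F h c, ?_⟩
  induction c using Finsupp.induction_linear with
  | zero => simp
  | add f g hf hg => simp only [map_add, hf, hg]
  | single σ r =>
    simp only [Cpx.L2, perm_single, Finsupp.linearCombination_single, Y.d2_smul, map_smul]
    rfl

/-- the action of `H` on `C_1(Y) / ∂ C_2(Y)` -/
def qE (Y : HCpx H) : Representation ℚ H (EE Y) :=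
  (perm H Y.E).quotient (LinearMap.range Y.L2) (range_L2_inv Y)

@[simp] theorem qE_mk (Y : HCpx H) (h : H) (z : Y.E →₀ ℚ) :
    qE Y h (Submodule.Quotient.mk z) = Submodule.Quotient.mk (perm H Y.E h z) := rfl

end

end Pool.Agent.H60.CI

end NC_H60_CI_Hcx1

end S_H60_CI_Hcx

section S_H60_CI_HIm

/-!
# Immersed complexes with group action; quotients; equivariant maps
-/

noncomputable section NC_H60_CI_HIm1

set_option linter.unusedVariables false

namespace Pool.Agent.H60.CI

variable {H : Type} [Group H] {B : HCpx H}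

namespace HIm

variable (Z : HIm B)

instance actE : MulAction H Z.Edg where
  smul h ε := ⟨(h • ε.1.1, h • ε.1.2.1, h • ε.1.2.2), Z.adj_smul h ε.2⟩
  one_smul ε := Subtype.ext (by
    show (_, _, _) = ε.1
    simp)
  mul_smul h h' ε := Subtype.ext (by
    show (_, _, _) = (_, _, _)
    simp only [mul_smul]
    rfl)

instance actM : MulAction H Z.Mks where
  smul h τ := ⟨(h • τ.1.1, h • τ.1.2), Z.mark_smul h τ.2⟩
  one_smul τ := Subtype.ext (by
    show (_, _) = τ.1
    simp)
  mul_smul h h' τ := Subtype.ext (by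
    show (_, _) = (_, _)
    simp only [mul_smul]
    rfl)

theorem esrc_smul (h : H) (ε : Z.Edg) : Z.esrc (h • ε) = h • Z.esrc ε := rfl
theorem etgt_smul (h : H) (ε : Z.Edg) : Z.etgt (h • ε) = h • Z.etgt ε := rfl
theorem epr_smul (h : H) (ε : Z.Edg) : Z.epr (h • ε) = h • Z.epr ε := rfl
theorem mbase_smul (h : H) (τ : Z.Mks) : Z.mbase (h • τ) = h • Z.mbase τ := rfl
theorem mpr_smul (h : H) (τ : Z.Mks) : Z.mpr (h • τ) = h • Z.mpr τ := rfl

theorem bdw_smul (h : H) (τ : Z.Mks) :
    Z.bdw (h • τ) = (Z.bdw τ).map (Prod.map (h • ·) id) := by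
  refine Z.toIm.walk_unique (Z.bdw_walk (h • τ)) (y' := h • Z.mbase τ) ?_ ?_
  · exact isWalk_map (h • ·) (h • ·) (fun _ => rfl) (fun _ => rfl) (Z.bdw_walk τ)
  · rw [Z.bdw_map, List.map_map, Z.mpr_smul, B.bd_smul, ← Z.bdw_map τ, List.map_map]
    rfl

/-- an immersed `H`-complex as an `H`-complex -/
abbrev toHCpx : HCpx H where
  toCpx := Z.toIm.toCpx
  aV := Z.act
  aE := Z.actE
  aF := Z.actM
  src_smul := fun _ _ => rfl
  tgt_smul := fun _ _ => rfl
  base_smul := fun _ _ => rfl
  bd_smul := Z.bdw_smul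
  free := fun h v hv => B.free h (Z.p v) ((Z.p_smul h v).symm.trans (congrArg Z.p hv))

/-- the action is free on vertices -/
theorem free (h : H) (v : Z.V) (hv : h • v = v) : h = 1 := Z.toHCpx.free h v hv

/-- the immersion into `B` -/
def eqHom : EqHom Z.toHCpx B where
  toHom := Z.toIm.hom
  v_smul := fun h x => Z.p_smul h x
  e_smul := fun _ _ => rfl
  f_smul := fun _ _ => rfl

end HIm

/-- the equivariant cellular map of an equivariant morphism -/
def PC.Mor.eqHom {Z Y : HIm B} (m : PC.Mor Z.toPC Y.toPC)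
    (hm : ∀ (h : H) (x : Z.V), m.f (h • x) = h • m.f x) : EqHom Z.toHCpx Y.toHCpx where
  toHom := m.hom
  v_smul := hm
  e_smul := fun h ε => Y.edg_ext (hm h _) rfl (hm h _)
  f_smul := fun h τ => Y.mks_ext (hm h _) rfl

/-- invariance of a setoid -/
def HIm.Inv (Z : HIm B) (R : Setoid Z.V) : Prop := ∀ (h : H) (x y : Z.V), R x y → R (h • x) (h • y)

/-- quotient of an immersed `H`-complex by an invariant congruence -/
def HIm.quo (Z : HIm B) (R : Setoid Z.V) (hR : Z.Cong R) (hi : Z.Inv R) : HIm B where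
  toIm := Z.toIm.quo R hR
  act :=
    { smul := fun h => Quotient.map (h • ·) (fun x y hxy => hi h x y hxy)
      one_smul := by
        intro a
        induction a using Quotient.ind with
        | _ a => exact congrArg (Quotient.mk R) (one_smul H a)
      mul_smul := by
        intro h h' a
        induction a using Quotient.ind with
        | _ a => exact congrArg (Quotient.mk R) (mul_smul h h' a) }
  p_smul := by
    intro h a
    induction a using Quotient.ind with
    | _ a => exact Z.p_smul h a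
  adj_smul := by
    rintro h a e b ⟨x, y, rfl, rfl, hxy⟩
    exact ⟨h • x, h • y, rfl, rfl, Z.adj_smul h hxy⟩
  mark_smul := by
    rintro h a σ ⟨x, rfl, hx⟩
    exact ⟨h • x, rfl, Z.mark_smul h hx⟩

/-- the projection to the quotient -/
def HIm.quoMor (Z : HIm B) (R : Setoid Z.V) (hR : Z.Cong R) (hi : Z.Inv R) :
    PC.Mor Z.toPC (Z.quo R hR hi).toPC :=
  Z.toIm.quoMor R hR

theorem HIm.quoMor_smul (Z : HIm B) (R : Setoid Z.V) (hR : Z.Cong R) (hi : Z.Inv R) (h : H)
    (x : Z.V) : (Z.quoMor R hR hi).f (h • x) = h • (Z.quoMor R hR hi).f x := rfl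

/-- the quotient map as an equivariant cellular map -/
def HIm.quoHom (Z : HIm B) (R : Setoid Z.V) (hR : Z.Cong R) (hi : Z.Inv R) :
    EqHom Z.toHCpx (Z.quo R hR hi).toHCpx :=
  (Z.quoMor R hR hi).eqHom (Z.quoMor_smul R hR hi)

/-- finiteness modulo `H` -/
structure HIm.HFin (Z : HIm B) : Prop where
  orb : ∃ S : Finset Z.V, ∀ x : Z.V, ∃ h : H, ∃ s ∈ S, x = h • s
  out : ∀ x : Z.V, {e : B.E | ∃ y, Z.adj x e y}.Finite
  inn : ∀ y : Z.V, {e : B.E | ∃ x, Z.adj x e y}.Finite
  mks : ∀ x : Z.V, {σ : B.F | Z.mark x σ}.Finite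

/-- number of orbits of vertices -/
def HIm.orbs (Z : HIm B) : ℕ := Nat.card (MulAction.orbitRel.Quotient H Z.V)

end Pool.Agent.H60.CI

end NC_H60_CI_HIm1

end S_H60_CI_HIm

section S_H60_CI_Clo

/-!
# The congruence generated by a set of pairs; the spaces `K0(R)`, `D(R)`; the operation `plus`
-/

noncomputable section NC_H60_CI_Clo1

set_option linter.unusedVariables false

namespace Pool.Agent.H60.CI

open Finsupp

namespace PC

variable {B : Cpx} (D : PC B)

/-- congruence closure of a relation `G` -/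
inductive ClR (G : D.V → D.V → Prop) : D.V → D.V → Prop
  | base {x y} : G x y → ClR G x y
  | refl (x) : ClR G x x
  | symm {x y} : ClR G x y → ClR G y x
  | trans {x y z} : ClR G x y → ClR G y z → ClR G x z
  | fwd {x e y x' y'} : D.adj x e y → D.adj x' e y' → ClR G x x' → ClR G y y'
  | bwd {x e y x' y'} : D.adj x e y → D.adj x' e y' → ClR G y y' → ClR G x x'

/-- congruence closure as a setoid -/
def Cl (G : D.V → D.V → Prop) : Setoid D.V where
  r := D.ClR G
  iseqv := ⟨ClR.refl, ClR.symm, ClR.trans⟩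

variable {D}

theorem Cl_fib {G : D.V → D.V → Prop} (hG : ∀ {x y}, G x y → D.p x = D.p y) {x y : D.V}
    (h : D.ClR G x y) : D.p x = D.p y := by
  induction h with
  | base h => exact hG h
  | refl => rfl
  | symm _ ih => exact ih.symm
  | trans _ _ ih1 ih2 => exact ih1.trans ih2
  | fwd h h' _ _ => rw [D.adj_tgt h, D.adj_tgt h']
  | bwd h h' _ _ => rw [D.adj_src h, D.adj_src h']

theorem Cl_cong {G : D.V → D.V → Prop} (hG : ∀ {x y}, G x y → D.p x = D.p y) :
    D.Cong (D.Cl G) where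
  fib := fun h => Cl_fib hG h
  fwd := fun h h' hx => ClR.fwd h h' hx
  bwd := fun h h' hx => ClR.bwd h h' hx

/-- the closure is the smallest equivalence relation closed under folding containing `G` -/
theorem Cl_min {G : D.V → D.V → Prop} {R : D.V → D.V → Prop} (hR : Equivalence R)
    (hG : ∀ {x y}, G x y → R x y)
    (hf : ∀ {x e y x' y'}, D.adj x e y → D.adj x' e y' → D.ClR G x x' → R x x' → R y y')
    (hb : ∀ {x e y x' y'}, D.adj x e y → D.adj x' e y' → D.ClR G y y' → R y y' → R x x') {x y : D.V}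
    (h : D.ClR G x y) : R x y := by
  induction h with
  | base h => exact hG h
  | refl => exact hR.refl _
  | symm _ ih => exact hR.symm ih
  | trans _ _ ih1 ih2 => exact hR.trans ih1 ih2
  | fwd h h' h1 ih => exact hf h h' h1 ih
  | bwd h h' h1 ih => exact hb h h' h1 ih

variable (D)

/-- `K0(R)`: span of the differences of `R`-related vertices -/
def KK (R : Setoid D.V) : Submodule ℚ (D.V →₀ ℚ) :=
  Submodule.span ℚ {z | ∃ x y, R x y ∧ z = single y 1 - single x 1}

/-- `D(R)`: span of `(y - x) - (y' - x')` for edges `x -e- y`, `x' -e- y'` over the same edge `e` of `B`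
with `R x x'` -/
def DD (R : Setoid D.V) : Submodule ℚ (D.V →₀ ℚ) :=
  Submodule.span ℚ {z | ∃ x y x' y' e, D.adj x e y ∧ D.adj x' e y' ∧ R x x' ∧
    z = (single y 1 - single x 1) - (single y' 1 - single x' 1)}

variable {D}

theorem DD_gen {R : Setoid D.V} {x y x' y' : D.V} {e : B.E} (h : D.adj x e y)
    (h' : D.adj x' e y') (hx : R x x') :
    (single y 1 - single x 1) - (single y' 1 - single x' 1) ∈ D.DD R :=
  Submodule.subset_span ⟨x, y, x', y', e, h, h', hx, rfl⟩

theorem KK_gen {R : Setoid D.V} {x y : D.V} (hx : R x y) :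
    (single y 1 - single x 1 : D.V →₀ ℚ) ∈ D.KK R :=
  Submodule.subset_span ⟨x, y, hx, rfl⟩

theorem DD_mono {R R' : Setoid D.V} (h : R ≤ R') : D.DD R ≤ D.DD R' := by
  refine Submodule.span_mono ?_
  rintro z ⟨x, y, x', y', e, h1, h2, h3, rfl⟩
  exact ⟨x, y, x', y', e, h1, h2, h h3, rfl⟩

theorem KK_mono {R R' : Setoid D.V} (h : R ≤ R') : D.KK R ≤ D.KK R' := by
  refine Submodule.span_mono ?_
  rintro z ⟨x, y, h3, rfl⟩
  exact ⟨x, y, h h3, rfl⟩

theorem DD_le_KK {R : Setoid D.V} (hR : D.Cong R) : D.DD R ≤ D.KK R := by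
  rw [DD, Submodule.span_le]
  rintro z ⟨x, y, x', y', e, h1, h2, h3, rfl⟩
  have e1 : (single y 1 - single y' 1 : D.V →₀ ℚ) ∈ D.KK R := KK_gen (R.symm (hR.fwd h1 h2 h3))
  have e2 : (single x 1 - single x' 1 : D.V →₀ ℚ) ∈ D.KK R := KK_gen (R.symm h3)
  have := sub_mem e1 e2
  rw [SetLike.mem_coe]
  convert this using 1
  abel

variable (D)

/-- the operation `R ↦ R⁺ = {(x,y) ∈ R : y - x ∈ D(R)}` -/
def plus (R : Setoid D.V) : Setoid D.V where
  r := fun x y => R x y ∧ (single y 1 - single x 1 : D.V →₀ ℚ) ∈ D.DD R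
  iseqv := by
    refine ⟨fun x => ⟨R.refl x, ?_⟩, fun {x y} h => ⟨R.symm h.1, ?_⟩,
      fun {x y z} h h' => ⟨R.trans h.1 h'.1, ?_⟩⟩
    · rw [sub_self]; exact zero_mem _
    · rw [← neg_sub]; exact neg_mem h.2
    · have := add_mem h.2 h'.2
      convert this using 1
      abel

variable {D}

theorem plus_le (R : Setoid D.V) : D.plus R ≤ R := fun {_ _} h => h.1

theorem plus_cong {R : Setoid D.V} (hR : D.Cong R) : D.Cong (D.plus R) where
  fib := fun h => hR.fib h.1
  fwd := by
    intro x e y x' y' h h' hx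
    refine ⟨hR.fwd h h' hx.1, ?_⟩
    have e1 := DD_gen h h' hx.1
    have := sub_mem hx.2 e1
    convert this using 1
    abel
  bwd := by
    intro x e y x' y' h h' hy
    have hx : R x x' := hR.bwd h h' hy.1
    refine ⟨hx, ?_⟩
    have e1 := DD_gen h h' hx
    have := add_mem hy.2 e1
    convert this using 1
    abel

end PC

namespace HIm

variable {H : Type} [Group H] {B : HCpx H} (Z : HIm B)

theorem DD_smul {R : Setoid Z.V} (hi : Z.Inv R) (h : H) {z : Z.V →₀ ℚ} (hz : z ∈ Z.toPC.DD R) :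
    perm H Z.V h z ∈ Z.toPC.DD R := by
  induction hz using Submodule.span_induction with
  | mem z hz =>
    obtain ⟨x, y, x', y', e, h1, h2, h3, rfl⟩ := hz
    simp only [map_sub, perm_single]
    exact PC.DD_gen (Z.adj_smul h h1) (Z.adj_smul h h2) (hi h _ _ h3)
  | zero => simp
  | add x y _ _ hx hy => rw [map_add]; exact add_mem hx hy
  | smul r x _ hx => rw [map_smul]; exact Submodule.smul_mem _ _ hx

theorem plus_inv {R : Setoid Z.V} (hi : Z.Inv R) : Z.Inv (Z.toPC.plus R) := by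
  intro h x y hxy
  refine ⟨hi h _ _ hxy.1, ?_⟩
  have := Z.DD_smul hi h hxy.2
  simpa using this

/-- the kernel of `p` -/
def kerp : Setoid Z.V := Setoid.ker Z.p

theorem kerp_cong : Z.Cong Z.kerp where
  fib := fun h => h
  fwd := fun h h' _ => by
    show Z.p _ = Z.p _
    rw [Z.adj_tgt h, Z.adj_tgt h']
  bwd := fun h h' _ => by
    show Z.p _ = Z.p _
    rw [Z.adj_src h, Z.adj_src h']

theorem kerp_inv : Z.Inv Z.kerp := fun h x y hxy => by
  show Z.p _ = Z.p _
  rw [Z.p_smul, Z.p_smul, show Z.p x = Z.p y from hxy]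

/-- the tower `R_0 = ker p`, `R_{n+1} = R_n⁺` -/
def tow : ℕ → Setoid Z.V
  | 0 => Z.kerp
  | n + 1 => Z.toPC.plus (tow n)

theorem tow_cong (n : ℕ) : Z.Cong (Z.tow n) := by
  induction n with
  | zero => exact Z.kerp_cong
  | succ n ih => exact PC.plus_cong ih

theorem tow_inv (n : ℕ) : Z.Inv (Z.tow n) := by
  induction n with
  | zero => exact Z.kerp_inv
  | succ n ih => exact Z.plus_inv ih

theorem tow_le (n : ℕ) : Z.tow (n + 1) ≤ Z.tow n := PC.plus_le _

/-- the complexes of the tower -/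
def Yn (n : ℕ) : HIm B := Z.quo (Z.tow n) (Z.tow_cong n) (Z.tow_inv n)

end HIm

end Pool.Agent.H60.CI

end NC_H60_CI_Clo1

end S_H60_CI_Clo

section S_H50_CI_TD

/-!
# The tree construction `Z = D(T, M, s) / Cl`

`B : HCpx K`, `v` a vertex, `T` a prefix closed set of walks from `v`, `M` a set of marks `(u, σ)`
(`u` a walk from `v` to the base point of `σ`, `u ++ bd σ ∈ T`), `s j : K` and `ws j ∈ T` a walk from
`v` to `s j • v`. The precomplex `D` consists of `K` copies of the tree `T`; `Z` is its quotient by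
the smallest congruence with `(k s_j, []) ~ (k, ws j)` and `(k, u) ~ (k, u ++ bd σ)`.
-/

set_option autoImplicit false
set_option linter.unusedVariables false

namespace Pool.Agent.H60.CI

/-- end of a word starting at `x` (only meaningful if the word is a walk) -/
def endW {V E : Type} (src tgt : E → V) : V → List (E × Bool) → V
  | x, [] => x
  | _, a :: u => endW src tgt (oT src tgt a) u

theorem endW_eq {V E : Type} {src tgt : E → V} {x y : V} {u : List (E × Bool)}
    (h : IsWalk src tgt x u y) : endW src tgt x u = y := by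
  induction u generalizing x with
  | nil => exact h
  | cons a u ih => exact ih h.2

theorem endW_append {V E : Type} (src tgt : E → V) (x : V) (u : List (E × Bool)) (a : E × Bool) :
    endW src tgt x (u ++ [a]) = oT src tgt a := by
  induction u generalizing x with
  | nil => rfl
  | cons b u ih => exact ih _

/-- the data of the tree construction -/
structure TD {K : Type} [Group K] (B : HCpx K) where
  v : B.V
  T : Set (List (B.E × Bool))
  nil_mem : [] ∈ T
  pre : ∀ u a, u ++ [a] ∈ T → u ∈ T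
  walk : ∀ u ∈ T, ∃ y, IsWalk B.src B.tgt v u y
  n : ℕ
  s : Fin n → K
  ws : Fin n → List (B.E × Bool)
  ws_mem : ∀ j, ws j ∈ T
  ws_walk : ∀ j, IsWalk B.src B.tgt v (ws j) (s j • v)
  M : Set (List (B.E × Bool) × B.F)
  M_walk : ∀ t ∈ M, IsWalk B.src B.tgt v t.1 (B.base t.2)
  M_mem : ∀ t ∈ M, t.1 ++ B.bd t.2 ∈ T

namespace TD

variable {K : Type} [Group K] {B : HCpx K} (D : TD B)

/-- vertices of the `K` copies of the tree -/
def W : Type := K × {u // u ∈ D.T}

/-- position in `B` -/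
def pos (x : D.W) : B.V := x.1 • endW B.src B.tgt D.v x.2.1

/-- tree edges, over the edges of `B` -/
def tadj (x : D.W) (e : B.E) (y : D.W) : Prop :=
  x.1 = y.1 ∧ (y.2.1 = x.2.1 ++ [(x.1⁻¹ • e, true)] ∨ x.2.1 = y.2.1 ++ [(x.1⁻¹ • e, false)])

/-- marks -/
def tmark (x : D.W) (σ : B.F) : Prop := (x.2.1, x.1⁻¹ • σ) ∈ D.M

/-- the smallest congruence containing the generating pairs -/
inductive Rel : D.W → D.W → Prop
  | refl (x) : Rel x x
  | symm {x y} : Rel x y → Rel y x
  | trans {x y z} : Rel x y → Rel y z → Rel x z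
  | gs (k : K) (j : Fin D.n) : Rel (k * D.s j, ⟨[], D.nil_mem⟩) (k, ⟨D.ws j, D.ws_mem j⟩)
  | gm (k : K) (t) (ht : t ∈ D.M) (h : t.1 ∈ D.T) :
      Rel (k, ⟨t.1, h⟩) (k, ⟨t.1 ++ B.bd t.2, D.M_mem t ht⟩)
  | fwd {x e y x' y'} : D.tadj x e y → D.tadj x' e y' → Rel x x' → Rel y y'
  | bwd {x e y x' y'} : D.tadj x e y → D.tadj x' e y' → Rel y y' → Rel x x'

/-- vertices of `Z` -/
def setoid : Setoid D.W := ⟨D.Rel, .refl, .symm, .trans⟩

def ZV : Type := Quotient D.setoid

/-- the class of a vertex of the trees -/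
def cls (x : D.W) : D.ZV := Quotient.mk D.setoid x

variable {D} in
theorem cls_eq {x y : D.W} : D.cls x = D.cls y ↔ D.Rel x y :=
  ⟨fun h => Quotient.exact (s := D.setoid) h, fun h => Quotient.sound (s := D.setoid) h⟩

variable {D} in
theorem ind_cls {P : D.ZV → Prop} (h : ∀ x, P (D.cls x)) (X : D.ZV) : P X :=
  Quotient.ind (s := D.setoid) h X

theorem mem_of_append (u w : List (B.E × Bool)) (h : u ++ w ∈ D.T) : u ∈ D.T := by
  induction w using List.reverseRecOn with
  | nil => simpa using h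
  | append_singleton w a ih => exact ih (D.pre _ a (by simpa using h))

variable {D}

theorem isWalk_end {u : List (B.E × Bool)} (h : u ∈ D.T) :
    IsWalk B.src B.tgt D.v u (endW B.src B.tgt D.v u) := by
  obtain ⟨y, hy⟩ := D.walk u h
  rw [endW_eq hy]
  exact hy

theorem smul_inv_smul_E (k : K) (e : B.E) : k • (k⁻¹ • e) = e := smul_inv_smul k e

theorem tadj_src {x : D.W} {e : B.E} {y : D.W} (h : D.tadj x e y) : D.pos x = B.src e := by
  obtain ⟨k, u, hu⟩ := x
  obtain ⟨k', u', hu'⟩ := y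
  obtain ⟨h1, h2⟩ := h
  simp only at h1 h2
  subst h1
  rcases h2 with h2 | h2
  · subst h2
    obtain ⟨z, hz, hz'⟩ := isWalk_append.1 (isWalk_end hu')
    have h3 : B.src (k⁻¹ • e) = z := hz'.1
    show k • endW B.src B.tgt D.v u = B.src e
    rw [endW_eq hz, ← h3, ← B.src_smul, smul_inv_smul]
  · subst h2
    show k • endW B.src B.tgt D.v (u' ++ [(k⁻¹ • e, false)]) = B.src e
    rw [endW_append]
    show k • B.src (k⁻¹ • e) = B.src e
    rw [← B.src_smul, smul_inv_smul]

theorem tadj_tgt {x : D.W} {e : B.E} {y : D.W} (h : D.tadj x e y) : D.pos y = B.tgt e := by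
  obtain ⟨k, u, hu⟩ := x
  obtain ⟨k', u', hu'⟩ := y
  obtain ⟨h1, h2⟩ := h
  simp only at h1 h2
  subst h1
  rcases h2 with h2 | h2
  · subst h2
    show k • endW B.src B.tgt D.v (u ++ [(k⁻¹ • e, true)]) = B.tgt e
    rw [endW_append]
    show k • B.tgt (k⁻¹ • e) = B.tgt e
    rw [← B.tgt_smul, smul_inv_smul]
  · subst h2
    obtain ⟨z, hz, hz'⟩ := isWalk_append.1 (isWalk_end hu)
    have h3 : B.tgt (k⁻¹ • e) = z := hz'.1
    show k • endW B.src B.tgt D.v u' = B.tgt e
    rw [endW_eq hz, ← h3, ← B.tgt_smul, smul_inv_smul]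

theorem tmark_base {x : D.W} {σ : B.F} (h : D.tmark x σ) : D.pos x = B.base σ := by
  have h1 := D.M_walk _ h
  show x.1 • endW B.src B.tgt D.v x.2.1 = B.base σ
  rw [endW_eq h1, ← B.base_smul, smul_inv_smul]

theorem Rel.pos_eq {x y : D.W} (h : D.Rel x y) : D.pos x = D.pos y := by
  induction h with
  | refl x => rfl
  | symm _ ih => exact ih.symm
  | trans _ _ ih ih' => exact ih.trans ih'
  | gs k j =>
    show (k * D.s j) • D.v = k • endW B.src B.tgt D.v (D.ws j)
    rw [endW_eq (D.ws_walk j), mul_smul]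
  | gm k t ht h =>
    show k • endW B.src B.tgt D.v t.1 = k • endW B.src B.tgt D.v (t.1 ++ B.bd t.2)
    have h1 := D.M_walk t ht
    have h2 : IsWalk B.src B.tgt D.v (t.1 ++ B.bd t.2) (B.base t.2) :=
      isWalk_append.2 ⟨_, h1, B.bd_walk t.2⟩
    rw [endW_eq h1, endW_eq h2]
  | fwd h h' _ _ => rw [tadj_tgt h, tadj_tgt h']
  | bwd h h' _ _ => rw [tadj_src h, tadj_src h']

/-! ## the action of `K` -/

/-- translate -/
def tr (k : K) (x : D.W) : D.W := (k * x.1, x.2)

theorem tadj_tr (k : K) {x : D.W} {e : B.E} {y : D.W} (h : D.tadj x e y) :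
    D.tadj (tr k x) (k • e) (tr k y) := by
  obtain ⟨h1, h2⟩ := h
  refine ⟨congrArg (k * ·) h1, ?_⟩
  have h3 : (k * x.1)⁻¹ • k • e = x.1⁻¹ • e := by
    rw [mul_inv_rev, mul_smul, inv_smul_smul]
  show y.2.1 = x.2.1 ++ [((k * x.1)⁻¹ • k • e, true)] ∨ x.2.1 = y.2.1 ++ [((k * x.1)⁻¹ • k • e, false)]
  rw [h3]
  exact h2

theorem tmark_tr (k : K) {x : D.W} {σ : B.F} (h : D.tmark x σ) : D.tmark (tr k x) (k • σ) := by
  show (x.2.1, (k * x.1)⁻¹ • k • σ) ∈ D.M
  have h3 : (k * x.1)⁻¹ • k • σ = x.1⁻¹ • σ := by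
    rw [mul_inv_rev, mul_smul, inv_smul_smul]
  rw [h3]
  exact h

theorem Rel.tr (k : K) {x y : D.W} (h : D.Rel x y) : D.Rel (tr k x) (tr k y) := by
  induction h with
  | refl x => exact .refl _
  | symm _ ih => exact ih.symm
  | trans _ _ ih ih' => exact ih.trans ih'
  | gs k' j =>
    have := Rel.gs (D := D) (k * k') j
    rw [mul_assoc] at this
    exact this
  | gm k' t ht h => exact Rel.gm (D := D) (k * k') t ht h
  | fwd h h' _ ih => exact Rel.fwd (tadj_tr k h) (tadj_tr k h') ih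
  | bwd h h' _ ih => exact Rel.bwd (tadj_tr k h) (tadj_tr k h') ih

instance : MulAction K D.ZV where
  smul k X := Quotient.map (TD.tr k) (fun _ _ h => Rel.tr k h) X
  one_smul := by
    refine ind_cls fun x => ?_
    exact congrArg D.cls (Prod.ext (one_mul _) rfl)
  mul_smul := by
    intro k k'
    refine ind_cls fun x => ?_
    exact congrArg D.cls (Prod.ext (mul_assoc _ _ _) rfl)

theorem smul_cls (k : K) (x : D.W) : k • D.cls x = D.cls (TD.tr k x) := rfl

variable (D)

/-- the precomplex underlying `Z` -/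
def ZPC : PC B.toCpx where
  V := D.ZV
  p := Quotient.lift D.pos (fun _ _ h => Rel.pos_eq h)
  adj := fun X e Y => ∃ x y, D.cls x = X ∧ D.cls y = Y ∧ D.tadj x e y
  mark := fun X σ => ∃ x, D.cls x = X ∧ D.tmark x σ
  adj_src := by
    rintro _ e _ ⟨x, y, rfl, rfl, h⟩
    exact tadj_src h
  adj_tgt := by
    rintro _ e _ ⟨x, y, rfl, rfl, h⟩
    exact tadj_tgt h
  mark_base := by
    rintro _ σ ⟨x, rfl, h⟩
    exact tmark_base h

variable {D}

/-- a path of the tree gives a path of `Z` -/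
theorem tree_path (k : K) (w : List (B.E × Bool)) (u : List (B.E × Bool)) (hu : u ∈ D.T)
    (h : u ++ w ∈ D.T) :
    D.ZPC.W (D.cls (k, ⟨u, hu⟩)) (w.map (Prod.map (k • ·) id)) (D.cls (k, ⟨u ++ w, h⟩)) := by
  induction w generalizing u with
  | nil =>
    show D.cls _ = D.cls _
    congr 2
    simp
  | cons a w ih =>
    obtain ⟨e, b⟩ := a
    have h1 : u ++ [(e, b)] ∈ D.T := D.mem_of_append _ w (by simpa using h)
    have h2 : u ++ [(e, b)] ++ w ∈ D.T := by simpa using h
    refine ⟨D.cls (k, ⟨u ++ [(e, b)], h1⟩), ?_, ?_⟩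
    · have h3 : k⁻¹ • k • e = e := inv_smul_smul k e
      cases b
      · show D.ZPC.adj _ (k • e) _
        refine ⟨_, _, rfl, rfl, rfl, Or.inr ?_⟩
        show u ++ [(e, false)] = u ++ [(k⁻¹ • k • e, false)]
        rw [h3]
      · show D.ZPC.adj _ (k • e) _
        refine ⟨_, _, rfl, rfl, rfl, Or.inl ?_⟩
        show u ++ [(e, true)] = u ++ [(k⁻¹ • k • e, true)]
        rw [h3]
    · have h4 := ih (u ++ [(e, b)]) h1 h2
      have h5 : (⟨u ++ [(e, b)] ++ w, h2⟩ : {u // u ∈ D.T}) = ⟨u ++ (e, b) :: w, h⟩ :=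
        Subtype.ext (by simp)
      rw [h5] at h4
      exact h4

variable (D)

/-- the complex `Z`, immersed in `B` -/
def Z : HIm B where
  toPC := D.ZPC
  fun_r := by
    rintro _ e _ _ ⟨x, y, rfl, rfl, h⟩ ⟨x', y', hx, rfl, h'⟩
    exact cls_eq.2 (.fwd h h' (cls_eq.1 hx.symm))
  fun_l := by
    rintro _ _ e _ ⟨x, y, rfl, rfl, h⟩ ⟨x', y', rfl, hy, h'⟩
    exact cls_eq.2 (.bwd h h' (cls_eq.1 hy.symm))
  mark_walk := by
    rintro _ σ ⟨⟨k, u, hu⟩, rfl, h⟩
    have h1 : u ++ B.bd (k⁻¹ • σ) ∈ D.T := D.M_mem _ h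
    have h2 := tree_path k (B.bd (k⁻¹ • σ)) u hu h1
    have h3 : (B.bd (k⁻¹ • σ)).map (Prod.map (k • ·) id) = B.bd σ := by
      rw [← B.bd_smul, smul_inv_smul]
    have h4 : D.cls (k, ⟨u ++ B.bd (k⁻¹ • σ), h1⟩) = D.cls (k, ⟨u, hu⟩) :=
      (cls_eq.2 (.gm k (u, k⁻¹ • σ) h hu)).symm
    rw [h3, h4] at h2
    exact h2
  act := inferInstanceAs (MulAction K D.ZV)
  p_smul := by
    intro k
    refine ind_cls fun x => ?_
    show (k * x.1) • _ = k • x.1 • _
    rw [mul_smul]
    rfl
  adj_smul := by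
    rintro k _ e _ ⟨x, y, rfl, rfl, h⟩
    exact ⟨_, _, rfl, rfl, tadj_tr k h⟩
  mark_smul := by
    rintro k _ σ ⟨x, rfl, h⟩
    exact ⟨_, rfl, tmark_tr k h⟩

end TD

end Pool.Agent.H60.CI

end S_H50_CI_TD

section S_H50_CI_U2

/-!
# ROW U2: walks and immersions
Let `φ : Y → X` be an immersion (`Defs0.lean`: `Cpx.Hom.IsImm`; `oS`, `oT` = start and end of an
oriented edge; `IsWalk`).

1. `walk_unique`: induction on `w`. If both lists are `a :: w`, `a' :: w'`: `Prod.map φ.e id a =
   Prod.map φ.e id a'` gives `a.2 = a'.2` and `φ.e a.1 = φ.e a'.1`; `oS a = v = oS a'`; if `a.2 = true`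
   then `src a.1 = src a'.1` and `src_inj` gives `a.1 = a'.1`, if `a.2 = false` use `tgt_inj`. So
   `a = a'` and the rest by induction.
2. `lift_step`: `FreeGroup.Red.Step (w.map f) u` means `w.map f = L₁ ++ (e, b) :: (e, !b) :: L₂`,
   `u = L₁ ++ L₂`. Split `w = l₁ ++ (ε, b) :: (ε', !b) :: l₂` (`List.map_eq_append_iff`,
   `List.map_eq_cons_iff`) with `φ.e ε = φ.e ε' = e`. The walk condition (`isWalk_append`, in `U0.lean`)
   gives `oT (ε, b) = oS (ε', !b)`; for `b = true` this is `tgt ε = tgt ε'`, for `b = false` it is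
   `src ε = src ε'`; so `ε = ε'` by immersion. Then `w' = l₁ ++ l₂` works (the walk condition:
   `oS (ε, b)` is the end of `l₁` and `oT (ε, !b) = oS (ε, b)`), `Red.Step.not`.
3. `lift_red`: `Relation.ReflTransGen` induction from `lift_step` (`FreeGroup.Red` is
   `Relation.ReflTransGen FreeGroup.Red.Step`).
4. `mk_eq`: `FreeGroup.Red.exact` gives a common reduct `u`; lift both reductions by `lift_red`; the
   two lifted words have the same image `u` and start at `v`, so they and their ends agree by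
   `walk_unique`; `FreeGroup.Red` implies equality of `FreeGroup.mk`
   (`FreeGroup.Red.exact.2 ⟨_, h, .refl⟩` or `FreeGroup.Red.sound`-like lemma).
-/

set_option autoImplicit false

namespace Pool.Agent.H60.CI.Cpx

variable {Y X : Cpx} {φ : Hom Y X}

theorem Hom.IsImm.walk_unique (h : φ.IsImm) {v y y' : Y.V} {w w' : List (Y.E × Bool)}
    (hw : Y.Walk v w y) (hw' : Y.Walk v w' y')
    (he : w.map (Prod.map φ.e id) = w'.map (Prod.map φ.e id)) : w = w' ∧ y = y' := by
  induction w generalizing v w' with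
  | nil =>
    cases w' with
    | nil => exact ⟨rfl, Eq.trans (Eq.symm hw) hw'⟩
    | cons a' w' => exact absurd he (by simp)
  | cons a w ih =>
    cases w' with
    | nil => exact absurd he (by simp)
    | cons a' w' =>
      rw [List.map_cons, List.map_cons] at he
      have he1 := (List.cons.inj he).1
      have he2 := (List.cons.inj he).2
      obtain ⟨h1, h2⟩ := hw
      obtain ⟨h1', h2'⟩ := hw'
      have haa : a = a' := by
        obtain ⟨e, b⟩ := a
        obtain ⟨e', b'⟩ := a'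
        have hb : b = b' := congrArg Prod.snd he1
        have hee : φ.e e = φ.e e' := congrArg Prod.fst he1
        subst hb
        cases b
        · have h3 : Y.tgt e = Y.tgt e' := h1.trans h1'.symm
          rw [h.tgt_inj e e' h3 hee]
        · have h3 : Y.src e = Y.src e' := h1.trans h1'.symm
          rw [h.src_inj e e' h3 hee]
      subst haa
      obtain ⟨e1, e2⟩ := ih h2 h2' he2
      exact ⟨by rw [e1], e2⟩

theorem Hom.IsImm.lift_step (h : φ.IsImm) {v y : Y.V} {w : List (Y.E × Bool)}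
    (hw : Y.Walk v w y) {u : List (X.E × Bool)}
    (hu : FreeGroup.Red.Step (w.map (Prod.map φ.e id)) u) :
    ∃ w', w'.map (Prod.map φ.e id) = u ∧ FreeGroup.Red.Step w w' ∧ Y.Walk v w' y := by
  generalize hm : w.map (Prod.map φ.e id) = m at hu
  cases hu with
  | @not L₁ L₂ x b =>
    rw [List.map_eq_append_iff] at hm
    obtain ⟨l₁, l₂', rfl, hm1, hm2⟩ := hm
    rw [List.map_eq_cons_iff] at hm2
    obtain ⟨a, l₃, rfl, ha, hm3⟩ := hm2
    rw [List.map_eq_cons_iff] at hm3
    obtain ⟨a', l₂, rfl, ha', hm4⟩ := hm3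
    obtain ⟨z, hz1, hz2⟩ := isWalk_append.1 hw
    obtain ⟨k1, k2, k3⟩ := hz2
    obtain ⟨e, c⟩ := a
    obtain ⟨e', c'⟩ := a'
    have hc : c = b := congrArg Prod.snd ha
    have hc' : c' = !b := congrArg Prod.snd ha'
    have hx : φ.e e = x := congrArg Prod.fst ha
    have hx' : φ.e e' = x := congrArg Prod.fst ha'
    subst hc
    subst hc'
    have hee : e = e' := by
      cases c
      · have h3 : Y.src e = Y.src e' := Eq.symm k2
        exact h.src_inj e e' h3 (hx.trans hx'.symm)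
      · have h3 : Y.tgt e = Y.tgt e' := Eq.symm k2
        exact h.tgt_inj e e' h3 (hx.trans hx'.symm)
    subst hee
    refine ⟨l₁ ++ l₂, ?_, FreeGroup.Red.Step.not, ?_⟩
    · rw [List.map_append, hm1, hm4]
    · have hend : oT Y.src Y.tgt (e, !c) = z := by
        rw [← k1]
        cases c <;> rfl
      rw [hend] at k3
      exact isWalk_append.2 ⟨z, hz1, k3⟩

theorem Hom.IsImm.lift_red (h : φ.IsImm) {v y : Y.V} {w : List (Y.E × Bool)}
    (hw : Y.Walk v w y) {u : List (X.E × Bool)}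
    (hu : FreeGroup.Red (w.map (Prod.map φ.e id)) u) :
    ∃ w', w'.map (Prod.map φ.e id) = u ∧ FreeGroup.Red w w' ∧ Y.Walk v w' y := by
  change Relation.ReflTransGen FreeGroup.Red.Step _ _ at hu
  induction hu with
  | refl => exact ⟨w, rfl, Relation.ReflTransGen.refl, hw⟩
  | tail _ hbc ih =>
    obtain ⟨w1, e1, r1, hw1⟩ := ih
    rw [← e1] at hbc
    obtain ⟨w2, e2, r2, hw2⟩ := h.lift_step hw1 hbc
    exact ⟨w2, e2, Relation.ReflTransGen.tail r1 r2, hw2⟩

/-- two walks from the same vertex whose images are equal up to backtracking are equal up to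
backtracking, and have the same end -/
theorem Hom.IsImm.mk_eq (h : φ.IsImm) {v y y' : Y.V} {w w' : List (Y.E × Bool)}
    (hw : Y.Walk v w y) (hw' : Y.Walk v w' y')
    (he : FreeGroup.mk (w.map (Prod.map φ.e id)) = FreeGroup.mk (w'.map (Prod.map φ.e id))) :
    FreeGroup.mk w = FreeGroup.mk w' ∧ y = y' := by
  obtain ⟨u, r1, r2⟩ := FreeGroup.Red.exact.1 he
  obtain ⟨w1, e1, s1, k1⟩ := h.lift_red hw r1
  obtain ⟨w2, e2, s2, k2⟩ := h.lift_red hw' r2
  obtain ⟨e3, e4⟩ := h.walk_unique k1 k2 (e1.trans e2.symm)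
  refine ⟨FreeGroup.Red.exact.2 ⟨w1, s1, ?_⟩, e4⟩
  rw [e3]
  exact s2

end Pool.Agent.H60.CI.Cpx

end S_H50_CI_U2

section S_H50_CI_U3

/-!
# ROW U3: elements of `Nf` are products of lollipops
Definitions: `U0.lean` (`loops`, `relators`, `Nf`, `Cpx.lolli`).

`nf_lolli`: for `g ∈ Nf X x0` there is a list of lollipops `p (bd σ)^{±1} p⁻¹` with `p` walks from `x0`
with product `g`. Proof: `g = (m : FreeGroup X.E)` with `m ∈ Subgroup.normalClosure (relators X x0)`
(`Subgroup.mem_map`). Use `Subgroup.closure_induction` on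
`Subgroup.normalClosure s = Subgroup.closure (Group.conjugatesOfSet s)`, with the predicate
(m : FreeGroup X.E) is such a product:
* generator: a conjugate `l r l⁻¹` with `l : loops X x0`, `r` a relator: `l = mk w` with
  `w` a closed walk at `x0`, `r = mk p * mk (bd σ) * (mk p)⁻¹`; then `l r l⁻¹ = lolli (w ++ p, σ, true)`
  (`FreeGroup.mul_mk`), and `w ++ p` is a walk (`isWalk_append`).
* one: empty list; product: append (`List.prod_append`, `List.map_append`).
* inverse: reverse the list and flip the third components: `(lolli (p, σ, b))⁻¹ = lolli (p, σ, !b)`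
  (`List.prod_inv_reverse`).

`lolli_shift`: `mk q * lolli (p, σ, b) * (mk q)⁻¹ = lolli (q ++ p, σ, b)`: `FreeGroup.mul_mk` and group.
`prod_shift`: conjugating a product of lollipops: induction on the list.
-/

set_option autoImplicit false

namespace Pool.Agent.H50.CI

open Pool.Agent.H60.CI

variable {X : Cpx} {x0 : X.V}

theorem U3_mk_append (w p : List (X.E × Bool)) :
    FreeGroup.mk (w ++ p) = FreeGroup.mk w * FreeGroup.mk p := FreeGroup.mul_mk.symm

theorem lolli_shift (q : List (X.E × Bool)) (t : List (X.E × Bool) × X.F × Bool) :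
    FreeGroup.mk q * X.lolli t * (FreeGroup.mk q)⁻¹ = X.lolli (q ++ t.1, t.2) := by
  unfold Cpx.lolli
  rw [U3_mk_append]
  group

theorem prod_shift (q : List (X.E × Bool)) (L : List (List (X.E × Bool) × X.F × Bool)) :
    FreeGroup.mk q * (L.map X.lolli).prod * (FreeGroup.mk q)⁻¹ =
      ((L.map (fun t => (q ++ t.1, t.2))).map X.lolli).prod := by
  induction L with
  | nil =>
    simp only [List.map_nil, List.prod_nil]
    group
  | cons t L ih =>
    simp only [List.map_cons, List.prod_cons]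
    rw [← ih, ← lolli_shift]
    group

theorem U3_inv (p : List (X.E × Bool)) (σ : X.F) (b : Bool) :
    (X.lolli (p, σ, b))⁻¹ = X.lolli (p, σ, !b) := by
  unfold Cpx.lolli
  cases b <;> simp

theorem U3_inv_list (L : List (List (X.E × Bool) × X.F × Bool)) :
    ((L.map X.lolli).prod)⁻¹ =
      ((L.reverse.map (fun t => (t.1, t.2.1, !t.2.2))).map X.lolli).prod := by
  induction L with
  | nil => simp
  | cons t L ih =>
    obtain ⟨p, σ, b⟩ := t
    simp only [List.map_cons, List.prod_cons, mul_inv_rev, List.reverse_cons, List.map_append,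
      List.prod_append, List.map_nil, List.prod_nil, mul_one]
    rw [ih, U3_inv]

theorem nf_lolli {g : FreeGroup X.E} (hg : g ∈ Nf X x0) :
    ∃ L : List (List (X.E × Bool) × X.F × Bool), (∀ t ∈ L, X.Walk x0 t.1 (X.base t.2.1)) ∧
      g = (L.map X.lolli).prod := by
  obtain ⟨m, hm, rfl⟩ := hg
  have hm' : m ∈ Subgroup.closure (Group.conjugatesOfSet (relators X x0)) := hm
  clear hm
  induction hm' using Subgroup.closure_induction with
  | mem x hx =>
    rw [Group.mem_conjugatesOfSet_iff] at hx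
    obtain ⟨r, ⟨p, σ, hp, hr⟩, hc⟩ := hx
    rw [isConj_iff] at hc
    obtain ⟨l, hl⟩ := hc
    obtain ⟨w, hw, hwl⟩ := l.2
    refine ⟨[(w ++ p, σ, true)], ?_, ?_⟩
    · intro t ht
      rw [List.mem_singleton] at ht
      subst ht
      exact isWalk_append.2 ⟨_, hw, hp⟩
    · rw [← hl]
      simp only [List.map_cons, List.map_nil, List.prod_cons, List.prod_nil, mul_one]
      unfold Cpx.lolli
      simp only [if_true]
      rw [U3_mk_append]
      have h1 : (loops X x0).subtype (l * r * l⁻¹) = (l : FreeGroup X.E) * (r : FreeGroup X.E) * (l : FreeGroup X.E)⁻¹ := rfl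
      rw [h1, hr, ← hwl]
      group
  | one => exact ⟨[], by simp, by simp⟩
  | mul x y _ _ hx hy =>
    obtain ⟨L, hL, hx'⟩ := hx
    obtain ⟨L', hL', hy'⟩ := hy
    refine ⟨L ++ L', ?_, ?_⟩
    · intro t ht
      rcases List.mem_append.1 ht with h | h
      · exact hL t h
      · exact hL' t h
    · rw [map_mul, hx', hy', List.map_append, List.prod_append]
  | inv x _ hx =>
    obtain ⟨L, hL, hx'⟩ := hx
    refine ⟨L.reverse.map (fun t => (t.1, t.2.1, !t.2.2)), ?_, ?_⟩
    · intro t ht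
      rw [List.mem_map] at ht
      obtain ⟨t', ht', rfl⟩ := ht
      exact hL t' (List.mem_reverse.1 ht')
    · rw [map_inv, hx', U3_inv_list]

/-- conversely a product of lollipops based at `x0` lies in `Nf` -/
theorem lolli_mem_nf {t : List (X.E × Bool) × X.F × Bool} (ht : X.Walk x0 t.1 (X.base t.2.1)) :
    X.lolli t ∈ Nf X x0 := by
  obtain ⟨p, σ, b⟩ := t
  have hloop : FreeGroup.mk p * FreeGroup.mk (X.bd σ) * (FreeGroup.mk p)⁻¹ ∈ loops X x0 := by
    refine ⟨p ++ X.bd σ ++ FreeGroup.invRev p, ?_, ?_⟩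
    · exact isWalk_append.2 ⟨_, isWalk_append.2 ⟨_, ht, X.bd_walk σ⟩, isWalk_invRev ht⟩
    · rw [FreeGroup.inv_mk, FreeGroup.mul_mk, FreeGroup.mul_mk]
  have h1 : (⟨_, hloop⟩ : loops X x0) ∈ Subgroup.normalClosure (relators X x0) :=
    Subgroup.subset_normalClosure ⟨p, σ, ht, rfl⟩
  have h2 : X.lolli (p, σ, true) ∈ Nf X x0 := by
    refine ⟨_, h1, ?_⟩
    unfold Cpx.lolli
    simp
  cases b with
  | true => exact h2
  | false =>
    have h3 := inv_mem h2
    rwa [U3_inv] at h3

end Pool.Agent.H50.CI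

end S_H50_CI_U3

section S_H50_CI_U4

/-!
# ROW U4: the universal cover is connected, simply connected, and covers
Definitions in `U1.lean` (`UV`, `UV.go`, `UV.lift`, `Xt`, `cov`, `XtH`), `U0.lean` (`Cpx.LolliSC`).
Recall `Xt.Walk = IsWalk UE.src UE.tgt`, `UV.lift_walk`, `UV.lift_proj`.

`cov_imm`: an edge of `Xt` is `(v, e)` with source `v`: same source and same `e` give equality
(`Subtype.ext`, `Prod.ext`). Same target and same `e`: `UE.tgt ε = ε.1.1.step (e, true) _`; the
vertex `v` is recovered by `UV.step_step` (step back along `(e, false)`): from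
`v.step (e,true) _ = v'.step (e,true) _` apply `step (e,false)` to both (or: `v.1.1 =
RC.mul (v.tgt).1.1 (mk [(e,false)])` by `RC.mul_mul`), and `endp v = src e = endp v'`. Faces `(v, σ)`: clear.

`go_eq_of_walk`: if `Xt.Walk v w v'` then with `w0 := w.map (Prod.map (cov).e id)`: `w0` is a walk of
`X` from `v.endp` to `v'.endp` (`hom_walk_map`, prove it here for any `Hom`), `v' = v.go w0 _ _` and
`w = v.lift w0 _ _` : both `w` and `v.lift w0` are walks of `Xt` from `v` with image `w0`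
(`UV.lift_proj`), so they are equal with equal ends by `(cov_imm).walk_unique` (row U2).

`Xt_conn`: base vertex `⟨(RC.mk 1, x0), [], _⟩`. Every `v` is `go` of the base vertex along any word `p`
with `v = [mk p]` (`UV.lift_walk` gives a walk of `Xt` from the base vertex to `v`); combine
with `isWalk_invRev` and `isWalk_append` (`Cpx.Walk` unfolds to `IsWalk`).

`Xt_sc`: let `w` be a closed walk of `Xt` at `v`, `w0` its image, so `v.go w0 = v`, i.e.
`RC.mul v.1.1 (mk w0) = v.1.1`. Write `v.1.1 = RC.mk (mk p)`, `p` a walk of `X` from `x0` to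
`v.endp` (`v.2`). So `mk p * mk w0 * (mk p)⁻¹ ∈ Nf` (`RC.mk_mul`, `RC.mk_eq`, inverse). By
`nf_lolli` it is a product of lollipops based at `x0`; conjugate by `q := invRev p`
(`prod_shift`, `FreeGroup.inv_mk`): `mk w0 = ∏ lolli (q ++ t.1, t.2)`, words `u := q ++ t.1` walks from
`v.endp`. Let `L` be this list. For `t ∈ L` put `t~ := (v.lift t.1, ⟨(v.go t.1 (X.base t.2.1) _, t.2.1), rfl⟩,
t.2.2)` (attach: `List.attach` or `List.pmap`, because of the walk proofs): a lollipop of `Xt` from `v`. Let `W` be the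
concatenation over `t ∈ L` of the words `t.1 ++ (bd σ or invRev (bd σ)) ++ invRev t.1` and `W~` the
concatenation of `lift t.1 ++ (bd (t~.2.1) or invRev) ++ invRev (lift t.1)`: `W~` is a closed walk of `Xt` at
`v` (each piece is closed at `v`: `UV.lift_walk`, `Xt.bd_walk`, `isWalk_invRev`) with image `W`
(`UV.lift_proj`, `(cov X x0).bd_e`, `invRev` commutes with the map), `FreeGroup.mk W~ = ∏ lolli t~`, and
`mk W = ∏ lolli t = mk w0`. Now `(cov_imm).mk_eq` (row U2) applied to the walks `w` and `W~` gives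
`mk w = mk W~ = ∏ lolli t~`. It is easiest to do induction on the list `L`, proving:
for every `L` of lollipops from `v.endp` there are `W~` and `L~` with `Xt.Walk v W~ v`,
`mk (W~.map (Prod.map cov.e id)) = (L.map X.lolli).prod`, `mk W~ = (L~.map Xt.lolli).prod` and
all `t ∈ L~` walks from `v` (statement `lift_lolli` below).
-/

set_option autoImplicit false

namespace Pool.Agent.H60.CI

theorem U4_map_invRev {E E' : Type} (f : E → E') (L : List (E × Bool)) :
    (FreeGroup.invRev L).map (Prod.map f id) = FreeGroup.invRev (L.map (Prod.map f id)) := by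
  simp only [FreeGroup.invRev, List.map_reverse, List.map_map]
  rfl

theorem U4_mk_conj {E : Type} (p q : List (E × Bool)) :
    FreeGroup.mk (p ++ q ++ FreeGroup.invRev p) = FreeGroup.mk p * FreeGroup.mk q * (FreeGroup.mk p)⁻¹ := by
  rw [← FreeGroup.mul_mk, ← FreeGroup.mul_mk, FreeGroup.inv_mk]

theorem hom_walk_map {Y X : Cpx} (φ : Cpx.Hom Y X) {v y : Y.V} {w : List (Y.E × Bool)}
    (hw : Y.Walk v w y) : X.Walk (φ.v v) (w.map (Prod.map φ.e id)) (φ.v y) := by
  induction w generalizing v with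
  | nil => exact congrArg φ.v hw
  | cons a w ih =>
    obtain ⟨h1, h2⟩ := hw
    obtain ⟨e, b⟩ := a
    cases b
    · refine ⟨(φ.tgt_v e).trans (congrArg φ.v h1), ?_⟩
      have h3 : X.Walk (φ.v (Y.src e)) (w.map (Prod.map φ.e id)) (φ.v y) := ih h2
      rw [← φ.src_v e] at h3
      exact h3
    · refine ⟨(φ.src_v e).trans (congrArg φ.v h1), ?_⟩
      have h3 : X.Walk (φ.v (Y.tgt e)) (w.map (Prod.map φ.e id)) (φ.v y) := ih h2
      rw [← φ.tgt_v e] at h3
      exact h3

end Pool.Agent.H60.CI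

namespace Pool.Agent.H50.CI

open Pool.Agent.H60.CI

variable {X : Cpx} {x0 : X.V}

theorem cov_imm : (cov X x0).IsImm := by
  refine ⟨?_, ?_, ?_⟩
  · intro ε ε' h h'
    exact Subtype.ext (Prod.ext h h')
  · rintro ⟨⟨v, e⟩, hv⟩ ⟨⟨v', e'⟩, hv'⟩ h h'
    have he : e = e' := h'
    subst he
    have h1 : v = v' := by
      refine UV.ext ?_ (hv.trans hv'.symm)
      have h2 : RC.mul (RC.mul v.1.1 (FreeGroup.mk [(e, true)])) (FreeGroup.mk [(e, false)]) =
          RC.mul (RC.mul v'.1.1 (FreeGroup.mk [(e, true)])) (FreeGroup.mk [(e, false)]) :=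
        congrArg (fun u : UV X x0 => RC.mul u.1.1 (FreeGroup.mk [(e, false)])) h
      have h3 : FreeGroup.mk ([(e, true)] ++ [(e, false)]) = 1 := by
        have h1 := FreeGroup.Red.Step.not (L₁ := []) (L₂ := []) (x := e) (b := true)
        exact Quot.sound h1
      rw [RC.mul_mul, RC.mul_mul, FreeGroup.mul_mk, h3, RC.mul_one, RC.mul_one] at h2
      exact h2
    subst h1
    rfl
  · intro τ τ' h h'
    exact Subtype.ext (Prod.ext h h')

theorem go_eq_of_walk {v v' : UV X x0} {w : List (UE X x0 × Bool)} (hw : (Xt X x0).Walk v w v') :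
    ∃ h : X.Walk v.endp (w.map (Prod.map (cov X x0).e id)) v'.endp,
      v.go (w.map (Prod.map (cov X x0).e id)) v'.endp h = v' := by
  have h : X.Walk v.endp (w.map (Prod.map (cov X x0).e id)) v'.endp := hom_walk_map (cov X x0) hw
  refine ⟨h, ?_⟩
  have h1 : (Xt X x0).Walk v (v.lift _ _ h) (v.go _ _ h) := v.lift_walk _ _ h
  have h2 := (cov_imm (X := X) (x0 := x0)).walk_unique hw h1 (v.lift_proj _ _ h).symm
  exact h2.2.symm

theorem U4_piece {Y X : Cpx} (φ : Cpx.Hom Y X) {v u : Y.V} {P : List (Y.E × Bool)}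
    (hP : Y.Walk v P u) (τ : Y.F) (hτ : Y.base τ = u) (b : Bool) :
    ∃ W, Y.Walk v W v ∧ FreeGroup.mk (W.map (Prod.map φ.e id)) =
      X.lolli (P.map (Prod.map φ.e id), φ.f τ, b) ∧ FreeGroup.mk W = Y.lolli (P, τ, b) := by
  subst hτ
  have hbd : Y.Walk (Y.base τ) (Y.bd τ) (Y.base τ) := Y.bd_walk τ
  obtain ⟨Q, hQ⟩ : ∃ Q, Q = if b then Y.bd τ else FreeGroup.invRev (Y.bd τ) := ⟨_, rfl⟩
  have hQw : Y.Walk (Y.base τ) Q (Y.base τ) := by
    rw [hQ]
    cases b
    · exact isWalk_invRev hbd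
    · exact hbd
  refine ⟨P ++ Q ++ FreeGroup.invRev P, isWalk_append.2 ⟨_, isWalk_append.2 ⟨_, hP, hQw⟩,
    isWalk_invRev hP⟩, ?_, ?_⟩
  · rw [List.map_append, List.map_append, U4_map_invRev, U4_mk_conj]
    simp only [Cpx.lolli, hQ]
    cases b
    · simp only [Bool.false_eq_true, if_false, U4_map_invRev, φ.bd_e, FreeGroup.inv_mk]
    · simp only [if_true, φ.bd_e]
  · rw [U4_mk_conj]
    simp only [Cpx.lolli, hQ]
    cases b
    · simp only [Bool.false_eq_true, if_false, FreeGroup.inv_mk]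
    · simp only [if_true]

theorem U4_lift (v : (Xt X x0).V) (L : List (List (X.E × Bool) × X.F × Bool))
    (hL : ∀ t ∈ L, X.Walk (UV.endp v) t.1 (X.base t.2.1)) :
    ∃ (W : List ((Xt X x0).E × Bool)) (L' : List (List ((Xt X x0).E × Bool) × (Xt X x0).F × Bool)),
      (Xt X x0).Walk v W v ∧
      FreeGroup.mk (W.map (Prod.map (cov X x0).e id)) = (L.map X.lolli).prod ∧
      FreeGroup.mk W = (L'.map (Xt X x0).lolli).prod ∧
      ∀ t ∈ L', (Xt X x0).Walk v t.1 ((Xt X x0).base t.2.1) := by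
  induction L with
  | nil => exact ⟨[], [], rfl, rfl, rfl, fun t ht => absurd ht List.not_mem_nil⟩
  | cons t L ih =>
    obtain ⟨W, L', hW, hm, hm', hL'⟩ := ih fun t ht => hL t (List.mem_cons_of_mem _ ht)
    obtain ⟨p, σ, b⟩ := t
    have hp : X.Walk (UV.endp v) p (X.base σ) := hL (p, σ, b) List.mem_cons_self
    obtain ⟨P, hPw, hPp⟩ : ∃ P : List ((Xt X x0).E × Bool),
        (Xt X x0).Walk v P (UV.go v p (X.base σ) hp) ∧ P.map (Prod.map (cov X x0).e id) = p :=
      ⟨UV.lift v p _ hp, UV.lift_walk v p _ hp, UV.lift_proj v p _ hp⟩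
    obtain ⟨τ, hτb, hτf⟩ : ∃ τ : (Xt X x0).F, (Xt X x0).base τ = UV.go v p (X.base σ) hp ∧
        (cov X x0).f τ = σ := ⟨⟨(UV.go v p (X.base σ) hp, σ), rfl⟩, rfl, rfl⟩
    obtain ⟨W1, hW1, hl1, hl2⟩ := U4_piece (cov X x0) hPw τ hτb b
    rw [hPp, hτf] at hl1
    refine ⟨W1 ++ W, (P, τ, b) :: L', isWalk_append.2 ⟨v, hW1, hW⟩, ?_, ?_, ?_⟩
    · rw [List.map_append, ← FreeGroup.mul_mk, hl1, hm, List.map_cons, List.prod_cons]
    · rw [← FreeGroup.mul_mk, hl2, hm', List.map_cons, List.prod_cons]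
    · intro t ht
      rcases List.mem_cons.1 ht with h | h
      · rw [h]
        show (Xt X x0).Walk v P ((Xt X x0).base τ)
        rw [hτb]
        exact hPw
      · exact hL' t h

theorem lift_lolli (v : UV X x0) (L : List (List (X.E × Bool) × X.F × Bool))
    (hL : ∀ t ∈ L, X.Walk v.endp t.1 (X.base t.2.1)) :
    ∃ (W : List (UE X x0 × Bool)) (L' : List (List (UE X x0 × Bool) × UF X x0 × Bool)),
      (Xt X x0).Walk v W v ∧
      FreeGroup.mk (W.map (Prod.map (cov X x0).e id)) = (L.map X.lolli).prod ∧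
      FreeGroup.mk W = (L'.map (Xt X x0).lolli).prod ∧
      ∀ t ∈ L', (Xt X x0).Walk v t.1 ((Xt X x0).base t.2.1) := by
  exact U4_lift v L hL

theorem Xt_conn : (Xt X x0).Conn := by
  obtain ⟨b0, hb0⟩ : ∃ b0 : UV X x0, b0 = ⟨(RC.mk 1, x0), [], rfl, rfl⟩ := ⟨_, rfl⟩
  have hb0e : b0.endp = x0 := by rw [hb0]; rfl
  have hb0c : b0.1.1 = RC.mk 1 := by rw [hb0]
  have key : ∀ v : UV X x0, ∃ w, IsWalk UE.src UE.tgt b0 w v := by
    intro v
    obtain ⟨p, hp, hp'⟩ := v.2
    have hp2 : X.Walk b0.endp p v.endp := by rw [hb0e]; exact hp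
    have h1 : b0.go p v.endp hp2 = v := by
      refine UV.ext ?_ rfl
      show RC.mul b0.1.1 (FreeGroup.mk p) = v.1.1
      rw [hb0c, RC.mk_mul, one_mul, hp']
    have h2 := b0.lift_walk p v.endp hp2
    rw [h1] at h2
    exact ⟨_, h2⟩
  refine ⟨⟨b0⟩, fun x y => ?_⟩
  obtain ⟨w, hw⟩ := key x
  obtain ⟨w', hw'⟩ := key y
  exact ⟨FreeGroup.invRev w ++ w', isWalk_append.2 ⟨_, isWalk_invRev hw, hw'⟩⟩

theorem Xt_sc : (Xt X x0).LolliSC := by
  intro v w hw
  obtain ⟨w0, hw0⟩ : ∃ w0, w0 = w.map (Prod.map (cov X x0).e id) := ⟨_, rfl⟩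
  obtain ⟨h, hgo⟩ := go_eq_of_walk hw
  have h1 : RC.mul v.1.1 (FreeGroup.mk w0) = v.1.1 := by
    rw [hw0]
    exact congrArg (fun u : UV X x0 => u.1.1) hgo
  obtain ⟨p, hp, hp'⟩ := v.2
  rw [← hp', RC.mk_mul, RC.mk_eq] at h1
  have h2 := inv_mem h1
  obtain ⟨L, hL, hLp⟩ := nf_lolli h2
  have h3 : FreeGroup.mk w0 = ((L.map (fun t => (FreeGroup.invRev p ++ t.1, t.2))).map X.lolli).prod := by
    rw [← prod_shift, ← hLp, ← FreeGroup.inv_mk]
    group
  obtain ⟨W, L', hW, hm, hm', hL'⟩ := lift_lolli v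
    (L.map (fun t => (FreeGroup.invRev p ++ t.1, t.2))) (by
      intro t ht
      obtain ⟨s, hs, rfl⟩ := List.mem_map.1 ht
      exact isWalk_append.2 ⟨_, isWalk_invRev hp, hL s hs⟩)
  have h4 := (cov_imm (X := X) (x0 := x0)).mk_eq hw hW (by rw [hm, ← h3, hw0])
  exact ⟨L', hL', h4.1.trans hm'⟩

end Pool.Agent.H50.CI

end S_H50_CI_U4

section S_H50_CI_TA

/-!
# Integration on `Z = D(T, M, s) / Cl`: definitions, descent
-/

noncomputable section NC_H50_CI_TA1

set_option autoImplicit false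
set_option linter.unusedVariables false

namespace Pool.Agent.H60.CI

namespace Cpx

/-- the integral only depends on the class in the free group -/
theorem integ_mk {E M : Type} [AddCommGroup M] (w : E → M) {l l' : List (E × Bool)}
    (h : FreeGroup.mk l = FreeGroup.mk l') : integ w l = integ w l' := by
  have key : ∀ l : List (E × Bool), Multiplicative.ofAdd (integ w l)
      = FreeGroup.lift (fun e => Multiplicative.ofAdd (w e)) (FreeGroup.mk l) := by
    intro l
    induction l with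
    | nil => rfl
    | cons a l ih =>
      have h1 : FreeGroup.mk (a :: l) = FreeGroup.mk [a] * FreeGroup.mk l := by
        rw [FreeGroup.mul_mk]; rfl
      rw [h1, map_mul, ← ih, integ_cons, ofAdd_add]
      congr 1
      obtain ⟨e, b⟩ := a
      cases b <;> simp [FreeGroup.lift_mk]
  have := (key l).trans ((congrArg _ h).trans (key l').symm)
  exact Multiplicative.ofAdd.injective this

theorem integ_invRev {E M : Type} [AddCommGroup M] (w : E → M) (l : List (E × Bool)) :
    integ w (FreeGroup.invRev l) = - integ w l := by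
  induction l with
  | nil => simp [integ]
  | cons a l ih =>
    have h3 : FreeGroup.invRev (a :: l) = FreeGroup.invRev l ++ [(a.1, !a.2)] := by
      simp [FreeGroup.invRev]
    rw [h3, integ_append, ih, integ_cons, integ_cons, integ_nil]
    obtain ⟨e, b⟩ := a
    cases b <;> simp [add_comm]

theorem integ_eq_wsum {E : Type} (w : E → ℚ) (l : List (E × Bool)) : integ w l = wsum w l := by
  induction l with
  | nil => rfl
  | cons a l ih =>
    rw [integ_cons, wsum_cons, ih]
    obtain ⟨e, b⟩ := a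
    cases b <;> simp [sgnb]

end Cpx

/-- value of a word in the letters `s j` -/
def ev {K : Type} [Group K] {n : ℕ} (s : Fin n → K) (ρ : List (Fin n × Bool)) : K :=
  (ρ.map fun a => if a.2 then s a.1 else (s a.1)⁻¹).prod

theorem ev_cons {K : Type} [Group K] {n : ℕ} (s : Fin n → K) (a : Fin n × Bool)
    (ρ : List (Fin n × Bool)) : ev s (a :: ρ) = (if a.2 then s a.1 else (s a.1)⁻¹) * ev s ρ := by
  simp [ev]

/-- the integral of a cochain `lam` of the Cayley graph (`lam k j` = value on the edge from `k` to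
`k s_j`) along the path starting at `k` with label `ρ` -/
def Lam {K : Type} [Group K] {n : ℕ} (s : Fin n → K) (lam : K → Fin n → ℚ) :
    K → List (Fin n × Bool) → ℚ
  | _, [] => 0
  | k, (j, true) :: ρ => lam k j + Lam s lam (k * s j) ρ
  | k, (j, false) :: ρ => - lam (k * (s j)⁻¹) j + Lam s lam (k * (s j)⁻¹) ρ

namespace TD

variable {K : Type} [Group K] {B : HCpx K} {D : TD B}

/-- descent of functions on the trees to `Z` -/
theorem desc {N : Type} [AddCommGroup N] (ψ : D.W → N) (w : D.ZV → B.E → N)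
    (h1 : ∀ {x e y}, D.tadj x e y → ψ y = ψ x + w (D.cls x) e)
    (h2 : ∀ k j, ψ (k * D.s j, ⟨[], D.nil_mem⟩) = ψ (k, ⟨D.ws j, D.ws_mem j⟩))
    (h3 : ∀ (k : K) (t) (ht : t ∈ D.M) (h : t.1 ∈ D.T),
      ψ (k, ⟨t.1, h⟩) = ψ (k, ⟨t.1 ++ B.bd t.2, D.M_mem t ht⟩))
    {x y : D.W} (h : D.Rel x y) : ψ x = ψ y := by
  induction h with
  | refl x => rfl
  | symm _ ih => exact ih.symm
  | trans _ _ ih ih' => exact ih.trans ih'
  | gs k j => exact h2 k j
  | gm k t ht h => exact h3 k t ht h
  | fwd h h' hr ih =>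
    rw [h1 h, h1 h', ih, cls_eq.2 hr]
  | bwd h h' hr ih =>
    have h4 := Rel.bwd h h' hr
    have h5 := (h1 h).symm.trans (ih.trans (h1 h'))
    rw [cls_eq.2 h4] at h5
    exact add_right_cancel h5

/-- the root of the `k`-th tree -/
def root (D : TD B) (k : K) : D.W := (k, ⟨[], D.nil_mem⟩)

/-- the end of the word `ws j` in the `k`-th tree -/
def wsv (D : TD B) (k : K) (j : Fin D.n) : D.W := (k, ⟨D.ws j, D.ws_mem j⟩)

theorem cls_gs (k : K) (j : Fin D.n) : D.cls (D.root (k * D.s j)) = D.cls (D.wsv k j) :=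
  cls_eq.2 (.gs k j)

theorem smul_root (k k' : K) : k • D.cls (D.root k') = D.cls (D.root (k * k')) := rfl

/-- the edge of `Z` of a tree edge -/
def edg {x y : D.W} {e : B.E} (h : D.tadj x e y) : D.Z.Edg :=
  ⟨(D.cls x, e, D.cls y), x, y, rfl, rfl, h⟩

theorem exists_pth (x : D.W) : ∃ L : List (D.Z.Edg × Bool),
    D.Z.toIm.toCpx.Walk (D.cls (D.root x.1)) L (D.cls x) ∧
      L.map (Prod.map D.Z.epr id) = x.2.1.map (Prod.map (x.1 • ·) id) := by
  obtain ⟨k, u, hu⟩ := x
  exact D.Z.exists_walk (tree_path k u [] D.nil_mem hu)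

/-- the path of `Z` from the root to `x` -/
def pth (x : D.W) : List (D.Z.Edg × Bool) := (exists_pth x).choose

theorem pth_walk (x : D.W) : D.Z.toIm.toCpx.Walk (D.cls (D.root x.1)) (pth x) (D.cls x) :=
  (exists_pth x).choose_spec.1

theorem pth_map (x : D.W) :
    (pth x).map (Prod.map D.Z.epr id) = x.2.1.map (Prod.map (x.1 • ·) id) :=
  (exists_pth x).choose_spec.2

theorem pth_unique (x : D.W) {L : List (D.Z.Edg × Bool)} {y : D.ZV}
    (h : D.Z.toIm.toCpx.Walk (D.cls (D.root x.1)) L y)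
    (h' : L.map (Prod.map D.Z.epr id) = x.2.1.map (Prod.map (x.1 • ·) id)) : L = pth x :=
  D.Z.toIm.walk_unique h (pth_walk x) (h'.trans (pth_map x).symm)

/-- the integral of a 1-cochain from the root to `x` -/
def psi0 (b : D.Z.Edg → ℚ) (x : D.W) : ℚ := Cpx.integ b (pth x)

theorem psi0_nil (b : D.Z.Edg → ℚ) (k : K) : psi0 b (D.root k) = 0 := by
  have : ([] : List (D.Z.Edg × Bool)) = pth (D.root k) :=
    pth_unique (D.root k) (y := D.cls (D.root k)) rfl rfl
  rw [psi0, ← this]
  rfl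

theorem psi0_step (b : D.Z.Edg → ℚ) {x y : D.W} {e : B.E} (h : D.tadj x e y) :
    psi0 b y = psi0 b x + b (edg h) := by
  obtain ⟨k, u, hu⟩ := x
  obtain ⟨k', u', hu'⟩ := y
  have h1 : k = k' := h.1
  subst h1
  rcases h.2 with h2 | h2
  · have h3 : pth (k, ⟨u, hu⟩) ++ [(edg h, true)] = pth (k, ⟨u', hu'⟩) := by
      refine pth_unique _ (y := D.cls (k, ⟨u', hu'⟩))
        (isWalk_append.2 ⟨_, pth_walk (k, ⟨u, hu⟩), rfl, rfl⟩) ?_
      rw [List.map_append, pth_map]
      have h2' : u' = u ++ [(k⁻¹ • e, true)] := h2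
      show u.map (Prod.map (k • ·) id) ++ [(e, true)] = u'.map (Prod.map (k • ·) id)
      rw [h2', List.map_append]
      simp
    rw [psi0, psi0, ← h3, Cpx.integ_append, Cpx.integ_cons, Cpx.integ_nil]
    simp
  · have h3 : pth (k, ⟨u', hu'⟩) ++ [(edg h, false)] = pth (k, ⟨u, hu⟩) := by
      refine pth_unique _ (y := D.cls (k, ⟨u, hu⟩))
        (isWalk_append.2 ⟨_, pth_walk (k, ⟨u', hu'⟩), rfl, rfl⟩) ?_
      rw [List.map_append, pth_map]
      have h2' : u = u' ++ [(k⁻¹ • e, false)] := h2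
      show u'.map (Prod.map (k • ·) id) ++ [(e, false)] = u.map (Prod.map (k • ·) id)
      rw [h2', List.map_append]
      simp
    rw [psi0, psi0, ← h3, Cpx.integ_append, Cpx.integ_cons, Cpx.integ_nil]
    simp

/-- the mark of `Z` of a tree mark -/
def mrk {x : D.W} {σ : B.F} (h : D.tmark x σ) : D.Z.Mks := ⟨(D.cls x, σ), x, rfl, h⟩

theorem psi0_gm (b : D.Z.Edg → ℚ) (hb : ∀ τ : D.Z.Mks, Cpx.integ b (D.Z.toIm.bdw τ) = 0)
    (k : K) (t : List (B.E × Bool) × B.F) (ht : t ∈ D.M) (h : t.1 ∈ D.T) :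
    psi0 b (k, ⟨t.1, h⟩) = psi0 b (k, ⟨t.1 ++ B.bd t.2, D.M_mem t ht⟩) := by
  have hm : D.tmark (k, ⟨t.1, h⟩) (k • t.2) := by
    show (t.1, k⁻¹ • k • t.2) ∈ D.M
    rw [inv_smul_smul]
    exact ht
  have h3 : pth (k, ⟨t.1, h⟩) ++ D.Z.toIm.bdw (mrk hm)
      = pth (k, ⟨t.1 ++ B.bd t.2, D.M_mem t ht⟩) := by
    refine pth_unique _ (y := D.cls (k, ⟨t.1, h⟩))
      (isWalk_append.2 ⟨_, pth_walk (k, ⟨t.1, h⟩), D.Z.toIm.bdw_walk (mrk hm)⟩) ?_
    rw [List.map_append, pth_map, D.Z.toIm.bdw_map]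
    show t.1.map (Prod.map (k • ·) id) ++ B.bd (k • t.2) = (t.1 ++ B.bd t.2).map _
    rw [List.map_append, B.bd_smul]
  rw [psi0, psi0, ← h3, Cpx.integ_append, hb, add_zero]

theorem psi0_smul (b : D.Z.Edg → ℚ) (hb : ∀ (k : K) (ε : D.Z.Edg), b (k • ε) = b ε) (k : K)
    (x : D.W) : psi0 b (tr k x) = psi0 b x := by
  have h3 : (pth x).map (Prod.map (fun ε : D.Z.Edg => k • ε) id) = pth (tr k x) := by
    refine pth_unique _ (y := k • D.cls x) ?_ ?_
    · exact isWalk_map (fun x : D.Z.V => k • x) (fun ε : D.Z.Edg => k • ε) (fun _ => rfl)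
        (fun _ => rfl) (pth_walk x)
    · rw [List.map_map]
      have h4 : (Prod.map D.Z.epr id ∘ Prod.map (fun ε : D.Z.Edg => k • ε) id
          : D.Z.Edg × Bool → B.E × Bool) = Prod.map (k • ·) id ∘ Prod.map D.Z.epr id := rfl
      rw [h4, ← List.map_map, pth_map, List.map_map]
      show _ = x.2.1.map (Prod.map ((k * x.1) • ·) id)
      refine List.map_congr_left fun a _ => ?_
      exact Prod.ext (mul_smul k x.1 a.1).symm rfl
  rw [psi0, psi0, ← h3, Cpx.integ_map]
  congr 1
  exact funext fun ε => hb k ε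

/-- value of a 1-cochain on the edge over `e` starting at `X` -/
def bval (b : D.Z.Edg → ℚ) (X : D.ZV) (e : B.E) : ℚ :=
  open Classical in if h : ∃ Y, D.Z.adj X e Y then b ⟨(X, e, h.choose), h.choose_spec⟩ else 0

theorem bval_eq (b : D.Z.Edg → ℚ) (ε : D.Z.Edg) : b ε = bval b (D.Z.esrc ε) (D.Z.epr ε) := by
  have h : ∃ Y, D.Z.adj (D.Z.esrc ε) (D.Z.epr ε) Y := ⟨_, ε.2⟩
  rw [bval, dif_pos h]
  congr 1
  exact D.Z.toIm.hom_isImm.src_inj _ _ rfl rfl

/-- a cocycle whose periods over the generators are a coboundary `c` of the Cayley graph is exact -/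
theorem exact_of (b : D.Z.Edg → ℚ) (hb : ∀ τ : D.Z.Mks, Cpx.integ b (D.Z.toIm.bdw τ) = 0)
    (c : K → ℚ) (hc : ∀ k j, c (k * D.s j) = c k + psi0 b (D.wsv k j)) :
    ∃ Ψ : D.ZV → ℚ, (∀ x, Ψ (D.cls x) = c x.1 + psi0 b x) ∧
      ∀ ε : D.Z.Edg, b ε = Ψ (D.Z.etgt ε) - Ψ (D.Z.esrc ε) := by
  have key : ∀ {x y : D.W}, D.Rel x y → c x.1 + psi0 b x = c y.1 + psi0 b y := by
    intro x y hxy
    refine desc (fun x => c x.1 + psi0 b x) (bval b) ?_ ?_ ?_ hxy
    · intro x e y h
      show c y.1 + psi0 b y = c x.1 + psi0 b x + bval b (D.cls x) e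
      rw [psi0_step b h, ← h.1, bval_eq b (edg h), add_assoc]
      rfl
    · intro k j
      show c (k * D.s j) + psi0 b (D.root (k * D.s j)) = c k + psi0 b (D.wsv k j)
      rw [psi0_nil, add_zero, hc]
    · intro k t ht h
      show c k + _ = c k + _
      rw [psi0_gm b hb k t ht h]
  refine ⟨Quotient.lift (fun x => c x.1 + psi0 b x) (fun _ _ h => key h), fun x => rfl, ?_⟩
  rintro ⟨⟨X, e, Y⟩, hε⟩
  obtain ⟨x, y, hx, hy, h⟩ := hε
  change D.cls x = X at hx
  change D.cls y = Y at hy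
  subst hx
  subst hy
  show b (edg h) = (c y.1 + psi0 b y) - (c x.1 + psi0 b x)
  rw [psi0_step b h, h.1]
  ring

end TD

end Pool.Agent.H60.CI

end NC_H50_CI_TA1

end S_H50_CI_TA
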