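import Mathlib
import Pool.Agent.H50.CI.N0
import Pool.Agent.H62.CI.M1

set_option autoImplicit false

/-! Coherence of complexes with collapsing nonpositive immersions, M2: this file joins several modules. -/

section S_H50_CI_SA

/-!
# Attaching a finite tree of words with marks to an immersed complex, and folding

`Z : Im B`, `v` a vertex of `Z`, `T` a prefix closed set of walks of `B` from `Z.p v`, `M` marks
`(u, σ)` with `u` a walk to the base point of `σ`, `u ++ bd σ ∈ T`. `L.DP` is the disjoint union of `Z` and the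
tree, `L.G` the generating pairs `v ~ []`, `u ~ u ++ bd σ`, `L.B2` the quotient by the generated congruence,
`L.io : Z → B2`, `L.R` its kernel.
-/

noncomputable section NC_H50_CI_SA1

set_option autoImplicit false
set_option linter.unusedVariables false

namespace Pool.Agent.H60.CI

/-- data for attaching a tree of words to `Z` -/
structure LD {B : Cpx} (Z : Im B) where
  v : Z.V
  T : Set (List (B.E × Bool))
  nil_mem : [] ∈ T
  pre : ∀ u a, u ++ [a] ∈ T → u ∈ T
  walk : ∀ u ∈ T, ∃ y, B.Walk (Z.p v) u y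
  M : Set (List (B.E × Bool) × B.F)
  M_walk : ∀ t ∈ M, B.Walk (Z.p v) t.1 (B.base t.2)
  M_mem : ∀ t ∈ M, t.1 ++ B.bd t.2 ∈ T

namespace LD

variable {B : Cpx} {Z : Im B} (L : LD Z)

theorem mem_of_append (u w : List (B.E × Bool)) (h : u ++ w ∈ L.T) : u ∈ L.T := by
  induction w using List.reverseRecOn with
  | nil => simpa using h
  | append_singleton w a ih => exact ih (L.pre _ a (by simpa using h))

theorem walk_end {u : List (B.E × Bool)} (h : u ∈ L.T) :
    B.Walk (Z.p L.v) u (endW B.src B.tgt (Z.p L.v) u) := by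
  obtain ⟨y, hy⟩ := L.walk u h
  rw [endW_eq hy]
  exact hy

/-- adjacency of the disjoint union -/
inductive Adj : Z.V ⊕ {u // u ∈ L.T} → B.E → Z.V ⊕ {u // u ∈ L.T} → Prop
  | inl {x e y} : Z.adj x e y → Adj (.inl x) e (.inl y)
  | fw {u u' : {u // u ∈ L.T}} {e} : u'.1 = u.1 ++ [(e, true)] → Adj (.inr u) e (.inr u')
  | bw {u u' : {u // u ∈ L.T}} {e} : u.1 = u'.1 ++ [(e, false)] → Adj (.inr u) e (.inr u')

/-- marks of the disjoint union -/
inductive Mrk : Z.V ⊕ {u // u ∈ L.T} → B.F → Prop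
  | inl {x σ} : Z.mark x σ → Mrk (.inl x) σ
  | inr {u : {u // u ∈ L.T}} {σ} : (u.1, σ) ∈ L.M → Mrk (.inr u) σ

/-- the disjoint union of `Z` and the tree -/
def DP : PC B where
  V := Z.V ⊕ {u // u ∈ L.T}
  p := Sum.elim Z.p (fun u => endW B.src B.tgt (Z.p L.v) u.1)
  adj := L.Adj
  mark := L.Mrk
  adj_src := by
    intro x e y h
    cases h with
    | inl h => exact Z.adj_src h
    | @fw u u' e h =>
      have h1 := L.walk_end u'.2
      rw [h] at h1
      obtain ⟨z, hz, hz'⟩ := isWalk_append.1 h1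
      show endW B.src B.tgt (Z.p L.v) u.1 = B.src e
      rw [endW_eq hz]
      exact hz'.1.symm
    | @bw u u' e h =>
      show endW B.src B.tgt (Z.p L.v) u.1 = B.src e
      rw [h, endW_append]
      rfl
  adj_tgt := by
    intro x e y h
    cases h with
    | inl h => exact Z.adj_tgt h
    | @fw u u' e h =>
      show endW B.src B.tgt (Z.p L.v) u'.1 = B.tgt e
      rw [h, endW_append]
      rfl
    | @bw u u' e h =>
      have h1 := L.walk_end u.2
      rw [h] at h1
      obtain ⟨z, hz, hz'⟩ := isWalk_append.1 h1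
      show endW B.src B.tgt (Z.p L.v) u'.1 = B.tgt e
      rw [endW_eq hz]
      exact hz'.1.symm
  mark_base := by
    intro x σ h
    cases h with
    | inl h => exact Z.mark_base h
    | @inr u σ h =>
      show endW B.src B.tgt (Z.p L.v) u.1 = B.base σ
      rw [endW_eq (L.M_walk _ h)]

/-- generating pairs -/
inductive G : L.DP.V → L.DP.V → Prop
  | root : G (Sum.inl L.v) (Sum.inr ⟨[], L.nil_mem⟩)
  | mk (t) (ht : t ∈ L.M) (h : t.1 ∈ L.T) :
      G (Sum.inr ⟨t.1, h⟩) (Sum.inr ⟨t.1 ++ B.bd t.2, L.M_mem t ht⟩)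

theorem G_fib {x y : L.DP.V} (h : L.G x y) : L.DP.p x = L.DP.p y := by
  cases h with
  | root => rfl
  | mk t ht h =>
    show endW B.src B.tgt (Z.p L.v) t.1 = endW B.src B.tgt (Z.p L.v) (t.1 ++ B.bd t.2)
    rw [endW_eq (L.M_walk t ht), endW_eq (isWalk_append.2 ⟨_, L.M_walk t ht, B.bd_walk t.2⟩)]

/-- the path of the tree -/
theorem tree_path (w : List (B.E × Bool)) (u : List (B.E × Bool)) (hu : u ∈ L.T)
    (h : u ++ w ∈ L.T) : L.DP.W (Sum.inr ⟨u, hu⟩) w (Sum.inr ⟨u ++ w, h⟩) := by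
  induction w generalizing u with
  | nil =>
    show (Sum.inr _ : L.DP.V) = Sum.inr _
    congr 1
    exact Subtype.ext (by simp)
  | cons a w ih =>
    obtain ⟨e, b⟩ := a
    have h1 : u ++ [(e, b)] ∈ L.T := L.mem_of_append _ w (by simpa using h)
    have h2 : u ++ [(e, b)] ++ w ∈ L.T := by simpa using h
    refine ⟨Sum.inr ⟨u ++ [(e, b)], h1⟩, ?_, ?_⟩
    · cases b
      · show L.Adj _ e _
        exact .bw rfl
      · show L.Adj _ e _
        exact .fw rfl
    · have h4 := ih (u ++ [(e, b)]) h1 h2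
      have h5 : (⟨u ++ [(e, b)] ++ w, h2⟩ : {u // u ∈ L.T}) = ⟨u ++ (e, b) :: w, h⟩ :=
        Subtype.ext (by simp)
      rw [h5] at h4
      exact h4

theorem inl_path {x y : Z.V} {w : List (B.E × Bool)} (h : Z.W x w y) :
    L.DP.W (Sum.inl x) w (Sum.inl y) := by
  induction w generalizing x with
  | nil => exact congrArg Sum.inl h
  | cons a w ih =>
    obtain ⟨z, h1, h2⟩ := h
    refine ⟨Sum.inl z, ?_, ih h2⟩
    obtain ⟨e, b⟩ := a
    cases b
    · have h1' : Z.adj z e x := by simpa [PC.oadj] using h1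
      show L.Adj _ e _
      exact .inl h1'
    · have h1' : Z.adj x e z := by simpa [PC.oadj] using h1
      show L.Adj _ e _
      exact .inl h1'

/-- the congruence generated by `G` -/
def cg : Setoid L.DP.V := L.DP.Cl L.G

theorem cg_cong : L.DP.Cong L.cg := PC.Cl_cong L.G_fib

theorem hcl {x : L.DP.V} {σ : B.F} (h : L.DP.mark x σ) :
    ∃ y, L.DP.W x (B.bd σ) y ∧ L.cg x y := by
  cases h with
  | @inl x σ h => exact ⟨Sum.inl x, L.inl_path (Z.mark_walk h), L.cg.refl _⟩
  | @inr u σ h =>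
    exact ⟨Sum.inr ⟨u.1 ++ B.bd σ, L.M_mem (u.1, σ) h⟩, L.tree_path _ _ u.2 _,
      PC.ClR.base (G.mk (u.1, σ) h u.2)⟩

/-- the quotient -/
def B2 : Im B := L.DP.quo L.cg L.cg_cong L.hcl

/-- the projection of the disjoint union -/
def pr : PC.Mor L.DP L.B2.toPC := L.DP.quoMor L.cg L.cg_cong L.hcl

/-- the map `Z → B2` -/
def io : PC.Mor Z.toPC L.B2.toPC where
  f := fun x => L.pr.f (Sum.inl x)
  p_f := fun x => rfl
  adj_f := fun h => L.pr.adj_f (.inl h)
  mark_f := fun h => L.pr.mark_f (.inl h)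

/-- its kernel -/
def R : Setoid Z.V := Setoid.ker L.io.f

theorem R_iff {x y : Z.V} : L.R x y ↔ L.cg (Sum.inl x) (Sum.inl y) :=
  ⟨fun h => Quotient.exact (s := L.cg) h, fun h => Quotient.sound (s := L.cg) h⟩

theorem R_cong : Z.toPC.Cong L.R where
  fib := fun {x y} h => L.cg_cong.fib (L.R_iff.1 h)
  fwd := fun {x e y x' y'} h h' hx => L.R_iff.2 (L.cg_cong.fwd
    (show L.DP.adj _ e _ from .inl h) (show L.DP.adj _ e _ from .inl h') (L.R_iff.1 hx))
  bwd := fun {x e y x' y'} h h' hx => L.R_iff.2 (L.cg_cong.bwd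
    (show L.DP.adj _ e _ from .inl h) (show L.DP.adj _ e _ from .inl h') (L.R_iff.1 hx))

/-- the vertex of `B2` of a word of the tree -/
def tv (u : {u // u ∈ L.T}) : L.B2.V := L.pr.f (Sum.inr u)

theorem root_eq : L.io.f L.v = L.tv ⟨[], L.nil_mem⟩ :=
  Quotient.sound (s := L.cg) (PC.ClR.base .root)

/-- the marks of `B2` coming from `M` -/
def MC : Set L.B2.Mks := {m | ∃ t, ∃ _ : t ∈ L.M, ∃ h : t.1 ∈ L.T,
  L.B2.mbase m = L.tv ⟨t.1, h⟩ ∧ L.B2.mpr m = t.2}

theorem MC_finite (hM : L.M.Finite) : L.MC.Finite := by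
  classical
  have h1 : ∀ t : List (B.E × Bool) × B.F, ({m | ∃ _ : t ∈ L.M, ∃ h : t.1 ∈ L.T,
      L.B2.mbase m = L.tv ⟨t.1, h⟩ ∧ L.B2.mpr m = t.2} : Set L.B2.Mks).Finite := by
    intro t
    refine Set.Subsingleton.finite ?_
    rintro m ⟨h1, h2, h3, h4⟩ m' ⟨h1', h2', h3', h4'⟩
    exact L.B2.mks_ext (h3.trans h3'.symm) (h4.trans h4'.symm)
  refine (hM.biUnion fun t _ => h1 t).subset ?_
  rintro m ⟨t, ht, h⟩
  exact Set.mem_biUnion ht ⟨ht, h⟩

end LD

end Pool.Agent.H60.CI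

end NC_H50_CI_SA1

end S_H50_CI_SA

section S_H50_CI_SB

/-!
# ROW SB: the kernel of `Z → B2` has finite codimension data
Definitions: `SA.lean` (`LD`, `DP`, `Adj`, `G`, `cg`, `R`), `H60/CI/Clo.lean` (`PC.ClR`, `PC.Cl`, `Cl_min`, `KK`,
`DD`, `DD_gen`, `KK_gen`).

`fd`: for `T`, `M` finite there is a finite set `S` of vectors of `Z.V →₀ ℚ` with
`KK R ≤ DD R ⊔ span S`.
Write `δ x y = single y 1 - single x 1`. All vectors live in `L.DP.V →₀ ℚ`, `L.DP.V = Z.V ⊕ T`.
(1) `W1` := finite set of the `δ x y` with `L.G x y` (`root`, and one for every `t ∈ M`).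
    `KK cg ≤ DD cg ⊔ span W1`: for `cg x y` we show `δ x y ∈ N := DD cg ⊔ span W1` by `PC.Cl_min` with the relation
    `fun x y => δ x y ∈ N` (an equivalence: `δ x x = 0`, `δ y x = - δ x y`, `δ x z = δ x y + δ y z`); generating pairs are
    clear; `fwd`: `δ y y' = δ x x' + (δ x' y' - δ x y)` and `δ x' y' - δ x y` is minus a generator of `DD cg` (it is
    `-( (single y - single x) - (single y' - single x') )`, `DD_gen` with `ClR G x x'`); `bwd`: `ClR.bwd` gives `ClR G x x'`,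
    and `δ x x' = δ y y' - (δ x' y' - δ x y)`.
(2) tree edges: the set `TE` of triples `(u, e, u')` (`u, u' ∈ T`, `L.Adj (inr u) e (inr u')`) is finite: `e` is the
    edge of the last letter of `u'` or of `u` (e.g. `TE` is contained in the finite set of all `(u, e, u')` with
    `e` an edge occurring in a word of `T`). For a tree edge `ε = (u, e, u')` say that it is good if there is an
    edge `x -e- y` of `Z` with `cg (inr u) (inl x)`; for good `ε` choose such `(x_ε, y_ε)`. `W2` := the finite set of all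
    `δ (inr u) (inr u')` (`ε ∈ TE`) and all `δ (inl x_ε) (inl y_ε)` (`ε` good).
    `DD cg ≤ map i (DD R) ⊔ span W2` where `i = Finsupp.lmapDomain ℚ ℚ Sum.inl`. Let
    `(δ x y) - (δ x' y')` be a generator, `Adj x e y`, `Adj x' e y'`, `cg x x'`. Cases (`cases` on `Adj`): both in `Z`:
    it is the image of a generator of `DD R` (`R_iff`). Both tree edges: in `span W2`. First tree edge `ε`,
    second `x' -e- y'` in `Z`: `ε` is good, `δ ε - δ (x', y') = δ ε - δ (x_ε, y_ε) + (δ (x_ε, y_ε) - δ (x', y'))` and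
    the last bracket is the image of a generator of `DD R` (`cg (inl x_ε) (inl x')` by symmetry and
    transitivity). Symmetric case: negative.
(3) Let `π : (L.DP.V →₀ ℚ) →ₗ[ℚ] (Z.V →₀ ℚ)` be the linear map with `π (single (inl x) 1) = single x 1` and
    `π (single (inr u) 1) = 0` (`Finsupp.linearCombination ℚ (Sum.elim (fun x => single x 1) 0)`). `π ∘ i = id`. For a
    generator `single y 1 - single x 1` of `KK R` (`R x y`): `i` of it is in `KK cg`, so it is in
    `map i (DD R) ⊔ span (W1 ∪ W2)`; apply `π`: it lies in `DD R ⊔ span (π '' (W1 ∪ W2))`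
    (`Submodule.map_sup`, `Submodule.map_span`, `Submodule.map_comp`). `S := π '' (W1 ∪ W2)`.
-/

noncomputable section NC_H50_CI_SB1

set_option autoImplicit false
set_option linter.unusedVariables false

namespace Pool.Agent.H60.CI.LD

open Finsupp

variable {B : Cpx} {Z : Im B}

/-- difference of two vertices -/
def SB_d (L : LD Z) (x y : L.DP.V) : L.DP.V →₀ ℚ := single y 1 - single x 1

/-- the inclusion of the chains of `Z` -/
def SB_i (L : LD Z) : (Z.V →₀ ℚ) →ₗ[ℚ] (L.DP.V →₀ ℚ) := Finsupp.lmapDomain ℚ ℚ Sum.inl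

theorem SB_i_d (L : LD Z) (x y : Z.V) :
    L.SB_i (single y 1 - single x 1) = L.SB_d (Sum.inl x) (Sum.inl y) := by
  unfold SB_i SB_d
  rw [map_sub]
  simp only [Finsupp.lmapDomain_apply, Finsupp.mapDomain_single]

/-- tree edges -/
def SB_TE (L : LD Z) : Set ({u // u ∈ L.T} × B.E × {u // u ∈ L.T}) :=
  {t | L.Adj (Sum.inr t.1) t.2.1 (Sum.inr t.2.2)}

theorem SB_TE_finite (L : LD Z) (hT : L.T.Finite) : L.SB_TE.Finite := by
  have : Finite {u // u ∈ L.T} := hT
  have h1 : ∀ q : {u // u ∈ L.T} × {u // u ∈ L.T},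
      ({t | t ∈ L.SB_TE ∧ t.1 = q.1 ∧ t.2.2 = q.2} : Set _).Finite := by
    intro q
    refine Set.Subsingleton.finite ?_
    rintro ⟨u, e, u'⟩ ⟨h1, h2, h3⟩ ⟨v, e', v'⟩ ⟨h1', h2', h3'⟩
    simp only at h2 h3 h2' h3'
    subst h2
    subst h3
    obtain rfl : v = q.1 := h2'
    obtain rfl : v' = q.2 := h3'
    have key : e = e' := by
      have g1 : L.Adj (Sum.inr q.1) e (Sum.inr q.2) := h1
      have g2 : L.Adj (Sum.inr q.1) e' (Sum.inr q.2) := h1'
      cases g1 with
      | fw a1 =>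
        cases g2 with
        | fw a2 =>
          have a3 := a1.symm.trans a2
          simpa using a3
        | bw a2 =>
          exfalso
          have b1 := congrArg List.length a1
          have b2 := congrArg List.length a2
          simp only [List.length_append, List.length_cons, List.length_nil] at b1 b2
          omega
      | bw a1 =>
        cases g2 with
        | fw a2 =>
          exfalso
          have b1 := congrArg List.length a1
          have b2 := congrArg List.length a2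
          simp only [List.length_append, List.length_cons, List.length_nil] at b1 b2
          omega
        | bw a2 =>
          have a3 := a1.symm.trans a2
          simpa using a3
    rw [key]
  refine ((Set.finite_univ (α := {u // u ∈ L.T} × {u // u ∈ L.T})).biUnion
    fun q _ => h1 q).subset ?_
  intro t ht
  exact Set.mem_biUnion (Set.mem_univ (t.1, t.2.2)) ⟨ht, rfl, rfl⟩

theorem SB_we (L : LD Z) (t : {u // u ∈ L.T} × B.E × {u // u ∈ L.T}) :
    ∃ w : L.DP.V →₀ ℚ, ∀ x' y', Z.adj x' t.2.1 y' → L.cg (Sum.inr t.1) (Sum.inl x') →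
      w - L.SB_d (Sum.inl x') (Sum.inl y') ∈ (Z.toPC.DD L.R).map L.SB_i := by
  by_cases hg : ∃ x y, Z.adj x t.2.1 y ∧ L.cg (Sum.inr t.1) (Sum.inl x)
  · obtain ⟨x, y, h1, h2⟩ := hg
    refine ⟨L.SB_d (Sum.inl x) (Sum.inl y), fun x' y' h1' h2' => ?_⟩
    have h3 : L.R x x' := L.R_iff.2 (L.cg.trans (L.cg.symm h2) h2')
    have h4 := PC.DD_gen h1 h1' h3
    refine ⟨_, h4, ?_⟩
    rw [map_sub, SB_i_d, SB_i_d]
  · refine ⟨0, fun x' y' h1' h2' => absurd ⟨x', y', h1', h2'⟩ hg⟩

theorem SB_cases (L : LD Z) {x y : L.DP.V} {e : B.E} (h : L.DP.adj x e y) :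
    (∃ a b : Z.V, x = Sum.inl a ∧ y = Sum.inl b ∧ Z.adj a e b) ∨
      (∃ a b : {u // u ∈ L.T}, x = Sum.inr a ∧ y = Sum.inr b ∧ (a, e, b) ∈ L.SB_TE) := by
  have h' : L.Adj x e y := h
  cases h' with
  | inl g => exact Or.inl ⟨_, _, rfl, rfl, g⟩
  | fw g => exact Or.inr ⟨_, _, rfl, rfl, .fw g⟩
  | bw g => exact Or.inr ⟨_, _, rfl, rfl, .bw g⟩

theorem SB_step2 (L : LD Z) (hT : L.T.Finite) :
    ∃ W : Set (L.DP.V →₀ ℚ), W.Finite ∧
      L.DP.DD L.cg ≤ (Z.toPC.DD L.R).map L.SB_i ⊔ Submodule.span ℚ W := by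
  choose w hw using L.SB_we
  have hTE := L.SB_TE_finite hT
  refine ⟨(fun t : {u // u ∈ L.T} × B.E × {u // u ∈ L.T} =>
      L.SB_d (Sum.inr t.1) (Sum.inr t.2.2)) '' L.SB_TE ∪ w '' L.SB_TE,
    (hTE.image _).union (hTE.image _), ?_⟩
  have m1 : ∀ t ∈ L.SB_TE, L.SB_d (Sum.inr t.1) (Sum.inr t.2.2) ∈
      (Z.toPC.DD L.R).map L.SB_i ⊔ Submodule.span ℚ
        ((fun t : {u // u ∈ L.T} × B.E × {u // u ∈ L.T} =>
          L.SB_d (Sum.inr t.1) (Sum.inr t.2.2)) '' L.SB_TE ∪ w '' L.SB_TE) := fun t ht =>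
    Submodule.mem_sup_right (Submodule.subset_span (Or.inl ⟨t, ht, rfl⟩))
  have m2 : ∀ t ∈ L.SB_TE, w t ∈
      (Z.toPC.DD L.R).map L.SB_i ⊔ Submodule.span ℚ
        ((fun t : {u // u ∈ L.T} × B.E × {u // u ∈ L.T} =>
          L.SB_d (Sum.inr t.1) (Sum.inr t.2.2)) '' L.SB_TE ∪ w '' L.SB_TE) := fun t ht =>
    Submodule.mem_sup_right (Submodule.subset_span (Or.inr ⟨t, ht, rfl⟩))
  unfold PC.DD
  rw [Submodule.span_le]
  rintro z ⟨x, y, x', y', e, h1, h2, h3, rfl⟩
  rcases L.SB_cases h1 with ⟨a, b, rfl, rfl, g1⟩ | ⟨a, b, rfl, rfl, g1⟩ <;>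
    rcases L.SB_cases h2 with ⟨a', b', rfl, rfl, g2⟩ | ⟨a', b', rfl, rfl, g2⟩
  · refine Submodule.mem_sup_left ⟨_, PC.DD_gen g1 g2 (L.R_iff.2 h3), ?_⟩
    rw [map_sub, SB_i_d, SB_i_d]
    rfl
  · have e1 := hw (a', e, b') a b g1 (L.cg.symm h3)
    have e2 := m2 _ g2
    have e3 := m1 _ g2
    have e4 := Submodule.sub_mem _ (Submodule.sub_mem _ e2 (Submodule.mem_sup_left e1)) e3
    have e5 : (single (Sum.inl b) 1 - single (Sum.inl a) 1) -
        (single (Sum.inr b') 1 - single (Sum.inr a') 1)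
        = w (a', e, b') - (w (a', e, b') - L.SB_d (Sum.inl a) (Sum.inl b))
          - L.SB_d (Sum.inr a') (Sum.inr b') := by
      unfold SB_d
      abel
    exact e5 ▸ e4
  · have e1 := hw (a, e, b) a' b' g2 h3
    have e2 := m2 _ g1
    have e3 := m1 _ g1
    have e4 := Submodule.add_mem _ (Submodule.sub_mem _ e3 e2) (Submodule.mem_sup_left e1)
    have e5 : (single (Sum.inr b) 1 - single (Sum.inr a) 1) -
        (single (Sum.inl b') 1 - single (Sum.inl a') 1)
        = L.SB_d (Sum.inr a) (Sum.inr b) - w (a, e, b)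
          + (w (a, e, b) - L.SB_d (Sum.inl a') (Sum.inl b')) := by
      unfold SB_d
      abel
    exact e5 ▸ e4
  · exact Submodule.sub_mem _ (m1 _ g1) (m1 _ g2)

theorem SB_G_finite (L : LD Z) (hM : L.M.Finite) :
    ({w | ∃ x y, L.G x y ∧ w = L.SB_d x y} : Set (L.DP.V →₀ ℚ)).Finite := by
  classical
  have h1 : ∀ t : List (B.E × Bool) × B.F, ({w | ∃ ht : t ∈ L.M, ∃ h : t.1 ∈ L.T,
      w = L.SB_d (Sum.inr ⟨t.1, h⟩) (Sum.inr ⟨t.1 ++ B.bd t.2, L.M_mem t ht⟩)}
        : Set (L.DP.V →₀ ℚ)).Finite := by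
    intro t
    refine Set.Subsingleton.finite ?_
    rintro m ⟨h1, h2, rfl⟩ m' ⟨h1', h2', rfl⟩
    rfl
  refine ((Set.finite_singleton (L.SB_d (Sum.inl L.v) (Sum.inr ⟨[], L.nil_mem⟩))).union
    (hM.biUnion fun t _ => h1 t)).subset ?_
  rintro w ⟨x, y, hG, rfl⟩
  cases hG with
  | root => exact Or.inl rfl
  | mk t ht h => exact Or.inr (Set.mem_biUnion ht ⟨ht, h, rfl⟩)

theorem SB_step1 (L : LD Z) : L.DP.KK L.cg ≤ L.DP.DD L.cg ⊔
    Submodule.span ℚ {w | ∃ x y, L.G x y ∧ w = L.SB_d x y} := by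
  have key : ∀ x y, L.DP.ClR L.G x y → L.SB_d x y ∈ L.DP.DD L.cg ⊔
      Submodule.span ℚ {w | ∃ x y, L.G x y ∧ w = L.SB_d x y} := by
    intro x y h
    refine PC.Cl_min (D := L.DP) (G := L.G) (R := fun x y => L.SB_d x y ∈ L.DP.DD L.cg ⊔
      Submodule.span ℚ {w | ∃ x y, L.G x y ∧ w = L.SB_d x y}) ⟨fun x => ?_, fun {x y} h => ?_,
      fun {x y z} h h' => ?_⟩ (fun {x y} h => ?_) ?_ ?_ h
    · have e : L.SB_d x x = 0 := sub_self _
      rw [e]
      exact Submodule.zero_mem _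
    · have e : L.SB_d y x = - L.SB_d x y := by unfold SB_d; abel
      rw [e]
      exact Submodule.neg_mem _ h
    · have e : L.SB_d x z = L.SB_d x y + L.SB_d y z := by unfold SB_d; abel
      rw [e]
      exact Submodule.add_mem _ h h'
    · exact Submodule.mem_sup_right (Submodule.subset_span ⟨x, y, h, rfl⟩)
    · intro x e y x' y' h1 h2 h3 h4
      have g : (single y 1 - single x 1) - (single y' 1 - single x' 1) ∈ L.DP.DD L.cg :=
        PC.DD_gen h1 h2 h3
      have g2 := Submodule.sub_mem _ h4 (Submodule.mem_sup_left (T := Submodule.span ℚ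
        {w | ∃ x y, L.G x y ∧ w = L.SB_d x y}) g)
      have e1 : L.SB_d y y' = L.SB_d x x' -
          ((single y 1 - single x 1) - (single y' 1 - single x' 1)) := by
        unfold SB_d; abel
      show L.SB_d y y' ∈ _
      rw [e1]
      exact g2
    · intro x e y x' y' h1 h2 h3 h4
      have g : (single y 1 - single x 1) - (single y' 1 - single x' 1) ∈ L.DP.DD L.cg :=
        PC.DD_gen h1 h2 (PC.ClR.bwd h1 h2 h3)
      have g2 := Submodule.add_mem _ h4 (Submodule.mem_sup_left (T := Submodule.span ℚ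
        {w | ∃ x y, L.G x y ∧ w = L.SB_d x y}) g)
      have e1 : L.SB_d x x' = L.SB_d y y' +
          ((single y 1 - single x 1) - (single y' 1 - single x' 1)) := by
        unfold SB_d; abel
      show L.SB_d x x' ∈ _
      rw [e1]
      exact g2
  unfold PC.KK
  rw [Submodule.span_le]
  rintro z ⟨x, y, h, rfl⟩
  exact key x y h

/-- the projection of the chains to the chains of `Z` -/
def SB_pi (L : LD Z) : (L.DP.V →₀ ℚ) →ₗ[ℚ] (Z.V →₀ ℚ) :=
  Finsupp.linearCombination ℚ
    (Sum.elim (fun x : Z.V => (single x (1 : ℚ) : Z.V →₀ ℚ)) (fun _ : {u // u ∈ L.T} => 0))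

theorem SB_pi_i (L : LD Z) (z : Z.V →₀ ℚ) : L.SB_pi (L.SB_i z) = z := by
  induction z using Finsupp.induction_linear with
  | zero => simp
  | add f g hf hg => rw [map_add, map_add, hf, hg]
  | single x r =>
    have h1 : L.SB_i (single x r) = (single (Sum.inl x : L.DP.V) r : L.DP.V →₀ ℚ) := by
      unfold SB_i
      rw [Finsupp.lmapDomain_apply]
      exact Finsupp.mapDomain_single
    have h2 : L.SB_pi (single (Sum.inl x : L.DP.V) r : L.DP.V →₀ ℚ)
        = r • (single x (1 : ℚ) : Z.V →₀ ℚ) := by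
      unfold SB_pi
      exact Finsupp.linearCombination_single _ _ _
    rw [h1, h2, Finsupp.smul_single, smul_eq_mul, mul_one]

theorem fd (L : LD Z) (hT : L.T.Finite) (hM : L.M.Finite) :
    ∃ S : Set (Z.V →₀ ℚ), S.Finite ∧ Z.toPC.KK L.R ≤ Z.toPC.DD L.R ⊔ Submodule.span ℚ S := by
  obtain ⟨W, hW, hW2⟩ := L.SB_step2 hT
  have h1 := L.SB_step1
  have hG := L.SB_G_finite hM
  refine ⟨L.SB_pi '' W ∪ L.SB_pi '' {w | ∃ x y, L.G x y ∧ w = L.SB_d x y},
    (hW.image _).union (hG.image _), ?_⟩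
  have h2 : L.DP.KK L.cg ≤ ((Z.toPC.DD L.R).map L.SB_i ⊔ Submodule.span ℚ W) ⊔
      Submodule.span ℚ {w | ∃ x y, L.G x y ∧ w = L.SB_d x y} :=
    h1.trans (sup_le_sup_right hW2 _)
  have h3 := Submodule.map_mono (f := L.SB_pi) h2
  rw [Submodule.map_sup, Submodule.map_sup, Submodule.map_span, Submodule.map_span,
    ← Submodule.map_comp] at h3
  have h4 : L.SB_pi ∘ₗ L.SB_i = LinearMap.id := LinearMap.ext fun z => L.SB_pi_i z
  rw [h4, Submodule.map_id] at h3
  rw [Submodule.span_union, ← sup_assoc]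
  refine le_trans ?_ h3
  unfold PC.KK
  rw [Submodule.span_le]
  rintro z ⟨x, y, h, rfl⟩
  refine ⟨L.SB_d (Sum.inl x) (Sum.inl y), PC.KK_gen (L.R_iff.1 h), ?_⟩
  rw [← SB_i_d, SB_pi_i]

end Pool.Agent.H60.CI.LD

end NC_H50_CI_SB1

end S_H50_CI_SB

section S_H50_CI_SC

/-!
# ROW SC: the image of a closed path in `B2` is killed by the finitely many marks `MC`
Definitions: `SA.lean` (`LD`, `B2`, `pr`, `io`, `tv`, `MC`, `tree_path`, `root_eq`), `Im.lean` (`Im.bdw`, `W_of_walk`,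
`exists_walk`, `W_fun`, `Im.hom_isImm`, `PC.Mor.W`, `PC.Mor.fe`), `U2.lean` (`Cpx.Hom.IsImm.mk_eq`), `U0.lean`
(`isWalk_append`, `isWalk_invRev`, `Cpx.lolli`).

`closed_mem`. Let `N` be the normal closure on the right side.
(1) for `u ∈ T` there is a walk `P u` of `B2` (`L.B2.toCpx.Walk`) from `io v = tv []` to `tv u` with image
    `(P u).map (Prod.map epr id) = u`: `tree_path` from `[]` and `L.pr.W`, `exists_walk`.
(2) for a list `C` with `(t.1, t.2.1) ∈ M` for `t ∈ C` there is a walk `Q` of `B2` from `io v` to `io v` with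
    `FreeGroup.mk Q ∈ N` and `FreeGroup.mk (Q.map (Prod.map epr id)) = (C.map B.lolli).prod`. Induction on `C`; for
    `t = (u, σ, c)`: let `m : L.B2.Mks` be the mark at `tv u` over `σ` (`L.pr.mark_f (.inr _)`), `m ∈ MC`,
    `Q = P u ++ (bdw m or its invRev) ++ invRev (P u)`. `FreeGroup.mk Q` is a conjugate of
    `(FreeGroup.mk (bdw m))^{±1}` (`FreeGroup.mul_mk`, `FreeGroup.inv_mk`), and the image is `B.lolli t`
    (`Im.bdw_map`; `(FreeGroup.invRev w).map (Prod.map f id) = FreeGroup.invRev (w.map (Prod.map f id))` is `U4_map_invRev`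
    in `U4.lean`).
(3) `w' := w.map (Prod.map L.io.fe id)` is a closed walk of `B2` at `io v` (`isWalk_map`, file `Im.lean`), its image in
    `B` is `w.map (Prod.map Z.epr id)`, whose class is `(C.map B.lolli).prod`, the class of the image of `Q`. By
    `mk_eq` (for `L.B2.hom_isImm`) `FreeGroup.mk w' = FreeGroup.mk Q ∈ N`.
-/

noncomputable section NC_H50_CI_SC1

set_option autoImplicit false
set_option linter.unusedVariables false

namespace Pool.Agent.H60.CI.LD

variable {B : Cpx} {Z : Im B}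

theorem SC_map_invRev {E E' : Type} (f : E → E') (L : List (E × Bool)) :
    (FreeGroup.invRev L).map (Prod.map f id) = FreeGroup.invRev (L.map (Prod.map f id)) := by
  simp only [FreeGroup.invRev, List.map_reverse, List.map_map]
  rfl

theorem SC_path (L : LD Z) (u : {u // u ∈ L.T}) :
    ∃ P : List (L.B2.Edg × Bool), L.B2.toCpx.Walk (L.io.f L.v) P (L.tv u) ∧
      P.map (Prod.map L.B2.epr id) = u.1 := by
  have h0 : [] ++ u.1 ∈ L.T := by simp
  have h := L.pr.W (L.tree_path u.1 [] L.nil_mem h0)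
  have h1 : L.B2.W (L.tv ⟨[], L.nil_mem⟩) u.1 (L.tv u) := h
  rw [← L.root_eq] at h1
  exact L.B2.exists_walk h1

theorem SC_one (L : LD Z) (u : List (B.E × Bool)) (σ : B.F) (c : Bool) (hM : (u, σ) ∈ L.M) :
    ∃ Q : List (L.B2.Edg × Bool), L.B2.toCpx.Walk (L.io.f L.v) Q (L.io.f L.v) ∧
      FreeGroup.mk Q ∈ Subgroup.normalClosure ((fun m => FreeGroup.mk (L.B2.bdw m)) '' L.MC) ∧
      FreeGroup.mk (Q.map (Prod.map L.B2.epr id)) = B.lolli (u, σ, c) := by
  have hu : u ∈ L.T := L.mem_of_append u _ (L.M_mem _ hM)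
  obtain ⟨P, hP, hP'⟩ := L.SC_path ⟨u, hu⟩
  have hmk : L.B2.mark (L.tv ⟨u, hu⟩) σ := L.pr.mark_f (Mrk.inr hM)
  let m : L.B2.Mks := ⟨(L.tv ⟨u, hu⟩, σ), hmk⟩
  have hm : m ∈ L.MC := ⟨(u, σ), hM, hu, rfl, rfl⟩
  have hN : FreeGroup.mk (L.B2.bdw m) ∈
      Subgroup.normalClosure ((fun m => FreeGroup.mk (L.B2.bdw m)) '' L.MC) :=
    Subgroup.subset_normalClosure ⟨m, hm, rfl⟩
  have hw : L.B2.toCpx.Walk (L.tv ⟨u, hu⟩) (L.B2.bdw m) (L.tv ⟨u, hu⟩) := L.B2.bdw_walk m
  have hmap : (L.B2.bdw m).map (Prod.map L.B2.epr id) = B.bd σ := L.B2.bdw_map m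
  have hinv : L.B2.toCpx.Walk (L.tv ⟨u, hu⟩) (FreeGroup.invRev P) (L.io.f L.v) := isWalk_invRev hP
  cases c with
  | true =>
    refine ⟨P ++ L.B2.bdw m ++ FreeGroup.invRev P, ?_, ?_, ?_⟩
    · exact isWalk_append.2 ⟨_, isWalk_append.2 ⟨_, hP, hw⟩, hinv⟩
    · rw [← FreeGroup.mul_mk, ← FreeGroup.mul_mk, ← FreeGroup.inv_mk]
      exact Subgroup.normalClosure_normal.conj_mem _ hN _
    · rw [List.map_append, List.map_append, SC_map_invRev, hP', hmap, ← FreeGroup.mul_mk,
        ← FreeGroup.mul_mk, ← FreeGroup.inv_mk]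
      simp [Cpx.lolli]
  | false =>
    refine ⟨P ++ FreeGroup.invRev (L.B2.bdw m) ++ FreeGroup.invRev P, ?_, ?_, ?_⟩
    · exact isWalk_append.2 ⟨_, isWalk_append.2 ⟨_, hP, isWalk_invRev hw⟩, hinv⟩
    · rw [← FreeGroup.mul_mk, ← FreeGroup.mul_mk, ← FreeGroup.inv_mk, ← FreeGroup.inv_mk]
      exact Subgroup.normalClosure_normal.conj_mem _ (inv_mem hN) _
    · rw [List.map_append, List.map_append, SC_map_invRev, SC_map_invRev, hP', hmap,
        ← FreeGroup.mul_mk, ← FreeGroup.mul_mk, ← FreeGroup.inv_mk, ← FreeGroup.inv_mk]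
      simp [Cpx.lolli]

theorem SC_list (L : LD Z) (C : List (List (B.E × Bool) × B.F × Bool))
    (hC : ∀ t ∈ C, (t.1, t.2.1) ∈ L.M) :
    ∃ Q : List (L.B2.Edg × Bool), L.B2.toCpx.Walk (L.io.f L.v) Q (L.io.f L.v) ∧
      FreeGroup.mk Q ∈ Subgroup.normalClosure ((fun m => FreeGroup.mk (L.B2.bdw m)) '' L.MC) ∧
      FreeGroup.mk (Q.map (Prod.map L.B2.epr id)) = (C.map B.lolli).prod := by
  induction C with
  | nil =>
    refine ⟨[], rfl, ?_, ?_⟩
    · rw [← FreeGroup.one_eq_mk]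
      exact one_mem _
    · simp [← FreeGroup.one_eq_mk]
  | cons t C ih =>
    obtain ⟨Q, h1, h2, h3⟩ := ih (fun t ht => hC t (List.mem_cons_of_mem _ ht))
    obtain ⟨u, σ, c⟩ := t
    obtain ⟨Q', h1', h2', h3'⟩ := L.SC_one u σ c (hC _ List.mem_cons_self)
    refine ⟨Q' ++ Q, isWalk_append.2 ⟨_, h1', h1⟩, ?_, ?_⟩
    · rw [← FreeGroup.mul_mk]
      exact mul_mem h2' h2
    · rw [List.map_append, ← FreeGroup.mul_mk, h3, h3', List.map_cons, List.prod_cons]

theorem closed_mem (L : LD Z) (w : List (Z.Edg × Bool)) (hw : Z.toCpx.Walk L.v w L.v)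
    (C : List (List (B.E × Bool) × B.F × Bool)) (hC : ∀ t ∈ C, (t.1, t.2.1) ∈ L.M)
    (he : FreeGroup.mk (w.map (Prod.map Z.epr id)) = (C.map B.lolli).prod) :
    FreeGroup.mk (w.map (Prod.map L.io.fe id)) ∈
      Subgroup.normalClosure ((fun m => FreeGroup.mk (L.B2.bdw m)) '' L.MC) := by
  obtain ⟨Q, h1, h2, h3⟩ := L.SC_list C hC
  have hw' : L.B2.toCpx.Walk (L.io.f L.v) (w.map (Prod.map L.io.fe id)) (L.io.f L.v) :=
    isWalk_map L.io.f L.io.fe (fun _ => rfl) (fun _ => rfl) hw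
  have h4 : (w.map (Prod.map L.io.fe id)).map (Prod.map L.B2.epr id) = w.map (Prod.map Z.epr id) := by
    rw [List.map_map]
    rfl
  have h5 : FreeGroup.mk ((w.map (Prod.map L.io.fe id)).map (Prod.map L.B2.hom.e id))
      = FreeGroup.mk (Q.map (Prod.map L.B2.hom.e id)) := by
    show FreeGroup.mk ((w.map (Prod.map L.io.fe id)).map (Prod.map L.B2.epr id))
      = FreeGroup.mk (Q.map (Prod.map L.B2.epr id))
    rw [h4, he, h3]
  have h6 := (L.B2.hom_isImm.mk_eq hw' h1 h5).1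
  rw [h6]
  exact h2

end Pool.Agent.H60.CI.LD

end NC_H50_CI_SC1

end S_H50_CI_SC

section S_H60_CI_Good

/-!
# Good complexes; weak simple connectivity
-/

noncomputable section NC_H60_CI_Good1

namespace Pool.Agent.H60.CI

/-- connected, finite modulo `H`, rationally `H_1 = 0` -/
structure HIm.Good {H : Type} [Group H] {B : HCpx H} (Z : HIm B) : Prop where
  conn : Z.toHCpx.Conn
  fin : Z.HFin
  h1 : Z.toHCpx.H1z

/-- weakly simply connected: in the free group on the edges every closed edge path lies in the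
normal closure of the boundary words of the 2-cells -/
def Cpx.WeakSC (Y : Cpx) : Prop := ∀ (v : Y.V) (w : List (Y.E × Bool)), Y.Walk v w v →
  FreeGroup.mk w ∈ Subgroup.normalClosure (Set.range fun τ : Y.F => FreeGroup.mk (Y.bd τ))

end Pool.Agent.H60.CI

end NC_H60_CI_Good1

end S_H60_CI_Good

section S_H60_CI_Hz

/-!
# Row Hz: cochain form and homology form of `H_1 = 0`

* `wsum_eq_integ`: `wsum w l = integ w l` (`sgnb true = 1`, `sgnb false = -1`).
* `H1z_of_H1Zero`: let `L1 z = 0` and suppose `z ∉ range L2`.  There is a linear form `φ` on `Y.E →₀ ℚ` which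
  vanishes on `range L2` and not at `z` (`Submodule.exists_le_ker_of_notMem` or
  `Module.Dual` separation in the quotient).  `w ε = φ (single ε 1)` satisfies
  `wsum w (bd τ) = φ (wch (bd τ)) = φ (L2 (single τ 1)) = 0`, so `w ε = ψ (tgt ε) - ψ (src ε)`, i.e. `φ = Ψ ∘ L1`
  with `Ψ = linearCombination ψ`; `φ z = Ψ (L1 z) = 0`, contradiction.
* `H1Zero_of_LolliSC`: let `w` be a cocycle of `B`, `v0` a vertex.  Put `ψ y = wsum w p` for a chosen walk `p` from
  `v0` to `y`.  Independence of the walk: for a closed walk `c` at `v0`, `FreeGroup.mk c` is a product of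
  lollipops; the homomorphism `FreeGroup E → Multiplicative ℚ`, `ε ↦ w ε`, sends `mk c` to `wsum w c` and
  every lollipop to 0 (`wsum w (bd σ) = 0`).  So `wsum w c = 0`.  Then for an edge `ε`: walk to `src ε`,
  followed by `ε`, followed by the inverse of the walk to `tgt ε` is closed.
* `H1z_of_LolliSC`: combine.
-/

noncomputable section NC_H60_CI_Hz1

namespace Pool.Agent.H60.CI

open Finsupp

theorem wsum_eq_integ {E : Type} (w : E → ℚ) (l : List (E × Bool)) :
    wsum w l = Cpx.integ w l := by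
  unfold wsum Cpx.integ
  congr 1
  refine List.map_congr_left fun a _ => ?_
  rcases a with ⟨e, b⟩
  cases b <;> simp [sgnb]

theorem H1z_of_H1Zero {Y : Cpx} (h : Y.H1Zero) : Y.H1z := by
  intro z hz
  by_contra hne
  have hne' : z ∉ LinearMap.range Y.L2 := fun ⟨c, hc⟩ => hne ⟨c, hc⟩
  obtain ⟨φ, hφ, hφ0⟩ := Submodule.exists_le_ker_of_notMem hne'
  have h1 : ∀ x, φ x = Finsupp.linearCombination ℚ (fun ε => φ (single ε 1)) x := by
    intro x
    conv_lhs => rw [← Finsupp.sum_single x]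
    rw [Finsupp.sum, map_sum, Finsupp.linearCombination_apply, Finsupp.sum]
    refine Finset.sum_congr rfl fun ε _ => ?_
    rw [← map_smul, Finsupp.smul_single, smul_eq_mul, mul_one]
  obtain ⟨ψ, hψ⟩ := h (fun ε => φ (single ε 1)) (by
    intro τ
    rw [← wsum_eq_integ, ← linearCombination_wch, ← h1]
    have h2 : Y.L2 (single τ 1) = wch (Y.bd τ) := by
      rw [Cpx.L2, Finsupp.linearCombination_single, one_smul]
      rfl
    rw [← h2]
    exact hφ0 ⟨_, rfl⟩)
  apply hφ
  have h3 : ∀ x, φ x = Finsupp.linearCombination ℚ ψ (Y.L1 x) := by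
    intro x
    induction x using Finsupp.induction_linear with
    | zero => simp
    | add f g hf hg => simp [hf, hg]
    | single ε r =>
      rw [h1, Cpx.L1, Finsupp.linearCombination_single, Finsupp.linearCombination_single,
        map_smul]
      congr 1
      rw [Cpx.d1, map_sub, Finsupp.linearCombination_single, Finsupp.linearCombination_single,
        one_smul, one_smul]
      exact hψ ε
  rw [h3, hz, map_zero]

/-- the homomorphism `FreeGroup E → ℚ` -/
def Hz_hom {E : Type} (w : E → ℚ) : FreeGroup E →* Multiplicative ℚ :=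
  FreeGroup.lift fun e => Multiplicative.ofAdd (w e)

theorem Hz_hom_mk {E : Type} (w : E → ℚ) (l : List (E × Bool)) :
    Hz_hom w (FreeGroup.mk l) = Multiplicative.ofAdd (Cpx.integ w l) := by
  induction l with
  | nil => rfl
  | cons a l ih =>
    have h1 : FreeGroup.mk (a :: l) = FreeGroup.mk [a] * FreeGroup.mk l := by
      rw [FreeGroup.mul_mk]
      rfl
    rw [h1, map_mul, ih, Cpx.integ_cons, ofAdd_add]
    congr 1
    rcases a with ⟨e, b⟩
    cases b
    · simp [Hz_hom, FreeGroup.lift_mk]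
    · simp [Hz_hom, FreeGroup.lift_mk]

theorem Hz_lolli {B : Cpx} {w : B.E → ℚ} (hw : ∀ τ, Cpx.integ w (B.bd τ) = 0)
    (t : List (B.E × Bool) × B.F × Bool) : Hz_hom w (B.lolli t) = 1 := by
  have h0 : Hz_hom w (FreeGroup.mk (B.bd t.2.1)) = 1 := by
    rw [Hz_hom_mk, hw]
    rfl
  have h1 : Hz_hom w (if t.2.2 then FreeGroup.mk (B.bd t.2.1)
      else (FreeGroup.mk (B.bd t.2.1))⁻¹) = 1 := by
    split_ifs
    · exact h0
    · rw [map_inv, h0, inv_one]
  rw [Cpx.lolli, map_mul, map_mul, h1, map_inv, mul_one, mul_inv_cancel]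

theorem H1Zero_of_LolliSC {B : Cpx} (hC : B.Conn) (hSC : B.LolliSC) : B.H1Zero := by
  intro w hw
  obtain ⟨⟨v0⟩, hconn⟩ := hC
  choose p hp using hconn v0
  have hclosed : ∀ l, B.Walk v0 l v0 → Cpx.integ w l = 0 := by
    intro l hl
    obtain ⟨L, _, hL⟩ := hSC v0 l hl
    have h1 : Hz_hom w (FreeGroup.mk l) = 1 := by
      rw [hL, map_list_prod, List.map_map]
      apply List.prod_eq_one
      intro x hx
      obtain ⟨t, _, rfl⟩ := List.mem_map.1 hx
      exact Hz_lolli hw t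
    rw [Hz_hom_mk] at h1
    exact Multiplicative.ofAdd.injective h1
  have hinv : ∀ l : List (B.E × Bool), Cpx.integ w (FreeGroup.invRev l) = - Cpx.integ w l := by
    intro l
    apply Multiplicative.ofAdd.injective
    rw [← Hz_hom_mk, ← FreeGroup.inv_mk, map_inv, Hz_hom_mk]
    rfl
  refine ⟨fun y => Cpx.integ w (p y), fun ε => ?_⟩
  have h1 : B.Walk v0 (p (B.src ε) ++ ((ε, true) :: FreeGroup.invRev (p (B.tgt ε)))) v0 := by
    refine isWalk_append.2 ⟨_, hp (B.src ε), ?_⟩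
    exact ⟨rfl, isWalk_invRev (hp (B.tgt ε))⟩
  have h2 := hclosed _ h1
  rw [Cpx.integ_append, Cpx.integ_cons, hinv] at h2
  simp only [if_true] at h2
  linarith

theorem H1z_of_LolliSC {B : Cpx} (hC : B.Conn) (hSC : B.LolliSC) : B.H1z :=
  H1z_of_H1Zero (H1Zero_of_LolliSC hC hSC)

end Pool.Agent.H60.CI

end NC_H60_CI_Hz1

end S_H60_CI_Hz

section S_H50_CI_SD

/-!
# ROW SD: the cohomological conditions (H1), (H2)
`Cpx.H1z`, `Cpx.H2z`, `Cpx.L1`, `Cpx.L2`, `wch`, `wsum`: `H60/CI/Hcx.lean`; `wsum_eq_integ`: `H60/CI/Hz.lean`.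
For `b : E → ℚ` let `φ_b = Finsupp.linearCombination ℚ b : (E →₀ ℚ) →ₗ[ℚ] ℚ`; `φ_b (wch w) = wsum b w
= Cpx.integ b w` (`linearCombination_wch`), and every linear functional `φ` is `φ_b` with `b e = φ (single e 1)`.

`coh2`: `L2` is injective (`H2z`, `LinearMap.ker_eq_bot`), so it has a left inverse `s`
(`LinearMap.exists_leftInverse_of_injective`), `φ := (linearCombination ℚ δ) ∘ s`, `b e := φ (single e 1)`;
`integ b (bd τ) = φ (wch (bd τ)) = φ (L2 (single τ 1)) = δ τ`.

`coh1`: `G := Finsupp.lmapDomain ℚ ℚ g.e : (Y.E →₀ ℚ) → (Y2.E →₀ ℚ)`, `G (L2 c) = L2 (mapDomain g.f c)`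
(`Cpx.Hom.L2_map` in `H60/CI`, or by linearity and `mapDomain_wch`, `g.bd_e`). `Z1 := ker Y.L1`, `U := map G Z1`,
`V := span {wch (bd τ) | τ ∈ I2}`.
KEY: `z ∈ Z1`, `G z ∈ V` ⇒ `φ_a z = 0`. Proof: `z = L2 c` (`H1z`), `G z = L2 d` with `d` supported in `I2` (elements of
`V` are such: `Submodule.span_induction` or `Finsupp.mem_span_image_iff_linearCombination`). So
`L2 (mapDomain g.f c) = L2 d`, so `mapDomain g.f c = d` (`H2z`). For `τ ∉ M1`: `c τ = (mapDomain g.f c) (g.f τ)` because `τ` is the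
only preimage of `g.f τ` (`hinj`), and this is `d (g.f τ) = 0` since `g.f τ ∉ I2` (`hI`). So `c` is supported in `M1` and
`φ_a (L2 c) = ∑ c τ * integ a (bd τ) = 0`.
Now define a linear functional on `U ⊔ V` by `G z + v ↦ φ_a z`, well defined by KEY; the quickest way: the
linear map `Ψ : Z1 × V → (Y2.E →₀ ℚ)`, `(z, v) ↦ G z + v`, has kernel contained in the kernel of `(z, v) ↦ φ_a z`; so there is
a linear functional `φ` on `Y2.E →₀ ℚ` with `φ ∘ Ψ = φ_a ∘ fst` (`LinearMap.exists_extend` after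
`Submodule.liftQ`/`LinearMap.range` or: `LinearMap.exists_leftInverse...`; in Mathlib over a field: for linear
maps `f`, `g` with `ker f ≤ ker g` there is `h` with `g = h ∘ f`: `LinearMap.range_dualMap_eq_dualAnnihilator_ker`,
`Module.Dual`: `LinearMap.mem_range_dualMap...`). Put `b e := φ (single e 1)`; `integ b (bd τ) = φ (wch (bd τ)) = 0` for
`τ ∈ I2` (take `z = 0`). The functional `φ_a - φ ∘ G` vanishes on `Z1 = ker L1`; so with
`w e := a e - b (g.e e)` the integral of `w` over every closed walk is `0` (`L1_wch`), and `θ x := integ w (path from x0 to x)`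
(`Conn`, choose paths) satisfies `w e = θ (tgt e) - θ (src e)` (closed walk: path to `src e`, then `e`, then back;
`isWalk_append`, `isWalk_invRev`, `Cpx.integ_invRev` in `H50/CI/TA.lean` may be reproved here).
-/

noncomputable section NC_H50_CI_SD1

set_option autoImplicit false
set_option linter.unusedVariables false

namespace Pool.Agent.H60.CI.Cpx

open Finsupp

theorem SD_ext {A B : Type} [AddCommGroup A] [Module ℚ A] [AddCommGroup B] [Module ℚ B]
    (f : A →ₗ[ℚ] B) (g : A →ₗ[ℚ] ℚ) (h : ∀ x, f x = 0 → g x = 0) :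
    ∃ φ : B →ₗ[ℚ] ℚ, ∀ x, φ (f x) = g x := by
  have h1 : g ∈ LinearMap.range f.dualMap := by
    rw [LinearMap.range_dualMap_eq_dualAnnihilator_ker, Submodule.mem_dualAnnihilator]
    intro x hx
    exact h x hx
  obtain ⟨φ, hφ⟩ := h1
  exact ⟨φ, fun x => LinearMap.congr_fun hφ x⟩

theorem SD_lc {E : Type} (φ : (E →₀ ℚ) →ₗ[ℚ] ℚ) (x : E →₀ ℚ) :
    Finsupp.linearCombination ℚ (fun e => φ (single e 1)) x = φ x := by
  induction x using Finsupp.induction_linear with
  | zero => simp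
  | add f g hf hg => rw [map_add, map_add, hf, hg]
  | single e r =>
    rw [Finsupp.linearCombination_single, ← map_smul, Finsupp.smul_single, smul_eq_mul, mul_one]

theorem SD_integ {E : Type} (φ : (E →₀ ℚ) →ₗ[ℚ] ℚ) (l : List (E × Bool)) :
    integ (fun e => φ (single e 1)) l = φ (wch l) := by
  rw [← wsum_eq_integ, ← linearCombination_wch, SD_lc]

theorem SD_L2_single (Y : Cpx) (τ : Y.F) : Y.L2 (single τ 1) = wch (Y.bd τ) := by
  rw [Cpx.L2, Finsupp.linearCombination_single, one_smul]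
  rfl

theorem SD_L2_map {Y Y2 : Cpx} (g : Hom Y Y2) (c : Y.F →₀ ℚ) :
    (Y.L2 c).mapDomain g.e = Y2.L2 (c.mapDomain g.f) := by
  induction c using Finsupp.induction_linear with
  | zero => simp
  | add f h hf hh => rw [map_add, Finsupp.mapDomain_add, Finsupp.mapDomain_add, map_add, hf, hh]
  | single τ r =>
    rw [Finsupp.mapDomain_single]
    unfold Cpx.L2
    rw [Finsupp.linearCombination_single, Finsupp.linearCombination_single,
      Finsupp.mapDomain_smul]
    congr 1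
    unfold Cpx.d2
    rw [mapDomain_wch, g.bd_e]

theorem coh2 {Y2 : Cpx} (h2 : Y2.H2z) (δ : Y2.F → ℚ) :
    ∃ b : Y2.E → ℚ, ∀ τ, integ b (Y2.bd τ) = δ τ := by
  have hinj : LinearMap.ker Y2.L2 = ⊥ := by
    rw [LinearMap.ker_eq_bot']
    exact h2
  obtain ⟨s, hs⟩ := LinearMap.exists_leftInverse_of_injective Y2.L2 hinj
  refine ⟨fun e => (Finsupp.linearCombination ℚ δ) (s (single e 1)), fun τ => ?_⟩
  have h3 := SD_integ ((Finsupp.linearCombination ℚ δ).comp s) (Y2.bd τ)
  have h4 : s (Y2.L2 (single τ 1)) = single τ 1 := LinearMap.congr_fun hs (single τ 1)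
  rw [← SD_L2_single Y2 τ, LinearMap.comp_apply, h4, Finsupp.linearCombination_single,
    one_smul] at h3
  exact h3

theorem coh1 {Y Y2 : Cpx} (g : Hom Y Y2) (hc : Y.Conn) (h1 : Y.H1z) (h2 : Y2.H2z)
    (M1 : Set Y.F) (I2 : Set Y2.F) (hinj : ∀ τ τ', τ ∉ M1 → g.f τ' = g.f τ → τ' = τ)
    (hI : ∀ τ, τ ∉ M1 → g.f τ ∉ I2) (a : Y.E → ℚ) (ha : ∀ τ ∈ M1, integ a (Y.bd τ) = 0) :
    ∃ (b : Y2.E → ℚ) (θ : Y.V → ℚ), (∀ τ ∈ I2, integ b (Y2.bd τ) = 0) ∧
      ∀ e, a e = b (g.e e) + θ (Y.tgt e) - θ (Y.src e) := by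
  classical
  let φa : (Y.E →₀ ℚ) →ₗ[ℚ] ℚ := Finsupp.linearCombination ℚ a
  let G : (Y.E →₀ ℚ) →ₗ[ℚ] (Y2.E →₀ ℚ) := Finsupp.lmapDomain ℚ ℚ g.e
  let V : Submodule ℚ (Y2.E →₀ ℚ) := (Finsupp.supported ℚ ℚ I2).map Y2.L2
  have key : ∀ z : Y.E →₀ ℚ, Y.L1 z = 0 → G z ∈ V → φa z = 0 := by
    intro z hz hGz
    obtain ⟨c, rfl⟩ := h1 z hz
    obtain ⟨d, hd, hd2⟩ := hGz
    have h3 : Y2.L2 (c.mapDomain g.f) = Y2.L2 d := by
      rw [← SD_L2_map, hd2]
      rfl
    have h4 : c.mapDomain g.f = d := by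
      apply sub_eq_zero.1
      apply h2
      rw [map_sub, h3, sub_self]
    have h5 : ∀ τ, τ ∉ M1 → c τ = 0 := by
      intro τ hτ
      have h6 : (c.mapDomain g.f) (g.f τ) = c τ := by
        unfold Finsupp.mapDomain
        rw [Finsupp.sum_apply]
        have h7 : ∀ τ' r, (single (g.f τ') r : Y2.F →₀ ℚ) (g.f τ) = if τ' = τ then r else 0 := by
          intro τ' r
          rw [Finsupp.single_apply]
          refine if_congr ⟨fun h => hinj τ τ' hτ h, fun h => by rw [h]⟩ rfl rfl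
        simp only [h7]
        rw [Finsupp.sum]
        simp only [Finset.sum_ite_eq']
        split_ifs with h8
        · rfl
        · exact (Finsupp.notMem_support_iff.1 h8).symm
      rw [← h6, h4]
      by_contra hne
      exact hI τ hτ (hd (Finsupp.mem_support_iff.2 hne))
    have h6 : φa (Y.L2 c) = ∑ τ ∈ c.support, c τ • wsum a (Y.bd τ) := by
      have h7 : Y.L2 c = ∑ τ ∈ c.support, c τ • Y.d2 τ := by
        rw [Cpx.L2, Finsupp.linearCombination_apply, Finsupp.sum]
      rw [h7, map_sum]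
      refine Finset.sum_congr rfl fun τ _ => ?_
      rw [map_smul]
      congr 1
      exact linearCombination_wch a (Y.bd τ)
    rw [h6]
    refine Finset.sum_eq_zero fun τ _ => ?_
    by_cases hτ : τ ∈ M1
    · rw [wsum_eq_integ, ha τ hτ, smul_zero]
    · rw [h5 τ hτ, zero_smul]
  obtain ⟨φ, hφ⟩ := SD_ext ((G.comp (LinearMap.ker Y.L1).subtype).coprod V.subtype)
    ((φa.comp (LinearMap.ker Y.L1).subtype).comp
      (LinearMap.fst ℚ (LinearMap.ker Y.L1) V)) (by
    rintro ⟨⟨z, hz⟩, ⟨v, hv⟩⟩ h3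
    have h4 : G z + v = 0 := h3
    refine key z hz ?_
    rw [eq_neg_of_add_eq_zero_left h4]
    exact V.neg_mem hv)
  have hφG : ∀ z, Y.L1 z = 0 → φ (G z) = φa z := by
    intro z hz
    have h3 := hφ (⟨z, hz⟩, 0)
    simpa using h3
  have hφV : ∀ v ∈ V, φ v = 0 := by
    intro v hv
    have h3 := hφ (0, ⟨v, hv⟩)
    simpa using h3
  obtain ⟨Θ, hΘ⟩ := SD_ext Y.L1 (φa - φ.comp G) (by
    intro z hz
    rw [LinearMap.sub_apply, LinearMap.comp_apply, hφG z hz, sub_self])
  refine ⟨fun e => φ (single e 1), fun x => Θ (single x 1), ?_, ?_⟩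
  · intro τ hτ
    rw [SD_integ, ← SD_L2_single]
    exact hφV _ ⟨single τ 1, Finsupp.single_mem_supported ℚ 1 hτ, rfl⟩
  · intro e
    have h3 := hΘ (single e 1)
    have h4 : Y.L1 (single e 1) = single (Y.tgt e) 1 - single (Y.src e) 1 := by
      rw [Cpx.L1, Finsupp.linearCombination_single, one_smul]
      rfl
    have h5 : φa (single e 1) = a e := by
      change Finsupp.linearCombination ℚ a (single e 1) = a e
      rw [Finsupp.linearCombination_single, one_smul]
    have h6 : G (single e 1) = single (g.e e) 1 := Finsupp.mapDomain_single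
    rw [h4, map_sub, LinearMap.sub_apply, LinearMap.comp_apply, h5, h6] at h3
    linarith

end Pool.Agent.H60.CI.Cpx

end NC_H50_CI_SD1

end S_H50_CI_SD

section S_H60_CI_H2dr

/-!
# Row H2dr: immersed complexes over a diagrammatically reducible complex

`B.DR`: every finite non-empty set `S` of 2-cells of `B` contains `σ` with an edge which occurs exactly
once in `bd σ` and not in `bd σ'` for `σ' ∈ S`, `σ' ≠ σ`.

* `DR_im`: if `B.DR` and `I : Im B` then `I.toCpx.DR`.  Let `S` be a finite non-empty set of marks.  The image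
  `S' = mpr '' S` is finite non-empty; take `σ ∈ S'`, `bd σ = w₁ ++ a :: w₂` from `B.DR`, and `τ ∈ S` over
  `σ`.  Then `bdw τ = W₁ ++ A :: W₂` with `map = w₁, a, w₂` (`bdw_map`, split a `List.map` of an
  append/cons).  `A.1` does not occur in `W₁ ++ W₂` because its image `a.1` does not occur in
  `w₁ ++ w₂`.  Let `τ' ∈ S`, `τ' ≠ τ` and suppose `c ∈ bdw τ'` with `c.1 = A.1`.  Then
  `epr c.1 = a.1` occurs in `bd (mpr τ')`, so `mpr τ' = σ` (third condition), and the position is the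
  same: `bdw τ' = W₁' ++ A' :: W₂'` with `map = w₁, a, w₂` and (as `a.1` occurs only once in
  `bd σ`) `c = A'`, so `A' = A` as edges with orientation (`A.2 = a.2 = A'.2`).  The walks
  `W₁ : base τ → start of A`, `W₁' : base τ' → start of A'` end at the same vertex and have the same image
  `w₁`; walking backwards (`isWalk_invRev` and unique lifting `walk_unique`) they start at the same
  vertex: `mbase τ = mbase τ'`, so `τ = τ'` (`mks_ext`), contradiction.
* `H2z_of_DR`: `Y.DR → Y.H2z`.  Let `L2 c = 0`, `c ≠ 0`; apply `DR` to `S = c.support`: `σ ∈ S` and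
  `a`; the coefficient of `L2 c` at the edge `a.1` is `c σ * (±1)` (`L2 c = Σ_{τ ∈ S} c τ • wch (bd τ)` and
  `wch (bd τ)` has coefficient 0 at `a.1` for `τ ≠ σ`, `±1` for `τ = σ`).  So `c σ = 0`, contradiction.
-/

noncomputable section NC_H60_CI_H2dr1

namespace Pool.Agent.H60.CI

open Finsupp

theorem H2dr_split {α β : Type} (f : α → β) (l : List α) (w₁ w₂ : List β) (a : β)
    (h : l.map f = w₁ ++ a :: w₂) :
    ∃ W₁ A W₂, l = W₁ ++ A :: W₂ ∧ W₁.map f = w₁ ∧ f A = a ∧ W₂.map f = w₂ := by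
  obtain ⟨W₁, W, rfl, h1, h2⟩ := List.map_eq_append_iff.1 h
  obtain ⟨A, W₂, rfl, h3, h4⟩ := List.map_eq_cons_iff.1 h2
  exact ⟨W₁, A, W₂, rfl, h1, h3, h4⟩

theorem H2dr_invRev {E E' : Type} (f : E → E') (w : List (E × Bool)) :
    (FreeGroup.invRev w).map (Prod.map f id) = FreeGroup.invRev (w.map (Prod.map f id)) := by
  simp only [FreeGroup.invRev, List.map_reverse, List.map_map]
  rfl

theorem DR_im {B : Cpx} (hB : B.DR) (I : Im B) : I.toCpx.DR := by
  intro S hS hne
  obtain ⟨σ, ⟨τ, hτ, rfl⟩, w₁, a, w₂, hbd, h1, h2⟩ := hB (I.mpr '' S) (hS.image _) (hne.image _)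
  obtain ⟨W₁, A, W₂, hW, hW1, hA, hW2⟩ :=
    H2dr_split (Prod.map I.epr id) (I.bdw τ) w₁ w₂ a ((I.bdw_map τ).trans hbd)
  refine ⟨τ, hτ, W₁, A, W₂, hW, ?_, ?_⟩
  · intro c hc heq
    have h3 : Prod.map I.epr id c ∈ w₁ ++ w₂ := by
      rw [← hW1, ← hW2, ← List.map_append]
      exact List.mem_map_of_mem hc
    apply h1 _ h3
    rw [← hA]
    exact congrArg I.epr heq
  · intro τ' hτ' hne' c hc heq
    have hc1 : (Prod.map I.epr id c).1 = a.1 := by
      rw [← hA]
      exact congrArg I.epr heq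
    have hc2 : Prod.map I.epr id c ∈ B.bd (I.mpr τ') := by
      rw [← I.bdw_map τ']
      exact List.mem_map_of_mem hc
    have hσ : I.mpr τ' = I.mpr τ := by
      by_contra h
      exact h2 (I.mpr τ') ⟨τ', hτ', rfl⟩ h _ hc2 hc1
    obtain ⟨W₁', A', W₂', hW', hW1', hA', hW2'⟩ :=
      H2dr_split (Prod.map I.epr id) (I.bdw τ') w₁ w₂ a
        ((I.bdw_map τ').trans (by rw [hσ]; exact hbd))
    have hc' : c ∈ W₁' ++ A' :: W₂' := by
      rw [← hW']
      exact hc
    have hcA : c = A' := by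
      by_contra h
      have h3 : c ∈ W₁' ++ W₂' := by
        rw [List.mem_append, List.mem_cons] at hc'
        rw [List.mem_append]
        tauto
      have h4 : Prod.map I.epr id c ∈ w₁ ++ w₂ := by
        rw [← hW1', ← hW2', ← List.map_append]
        exact List.mem_map_of_mem h3
      exact h1 _ h4 hc1
    have hAA : A' = A := by
      refine Prod.ext ?_ ?_
      · rw [← hcA]
        exact heq
      · have h5 : (Prod.map I.epr id A').2 = (Prod.map I.epr id A).2 := by rw [hA', hA]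
        exact h5
    have k1 := I.bdw_walk τ
    have k2 := I.bdw_walk τ'
    rw [hW, isWalk_append] at k1
    rw [hW', hAA, isWalk_append] at k2
    obtain ⟨y, hy1, hy2, -⟩ := k1
    obtain ⟨y', hy1', hy2', -⟩ := k2
    have hyy : y' = y := hy2'.symm.trans hy2
    subst hyy
    have m1 := isWalk_invRev hy1
    have m2 := isWalk_invRev hy1'
    have m3 := I.walk_unique m1 m2 (by
      rw [H2dr_invRev, H2dr_invRev, hW1, hW1'])
    rw [← m3] at m2
    exact hne' (I.mks_ext (isWalk_fun m2 m1) hσ)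

theorem H2dr_wch {E : Type} (w : List (E × Bool)) (e : E) (h : ∀ c ∈ w, c.1 ≠ e) :
    wch w e = 0 := by
  classical
  induction w with
  | nil => simp
  | cons a w ih =>
    rw [wch_cons, Finsupp.add_apply, ih (fun c hc => h c (List.mem_cons_of_mem _ hc)), add_zero,
      Finsupp.single_apply, if_neg (h a List.mem_cons_self)]

theorem H2z_of_DR {Y : Cpx} (hY : Y.DR) : Y.H2z := by
  intro c hc
  by_contra hne
  obtain ⟨σ, hσ, w₁, a, w₂, hbd, h1, h2⟩ := hY (c.support : Set Y.F) c.support.finite_toSet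
    (by
      rw [Finset.coe_nonempty]
      exact Finsupp.support_nonempty_iff.2 hne)
  have h3 : (Y.L2 c) a.1 = 0 := by rw [hc]; rfl
  have h4 : (Y.L2 c) a.1 = c σ * sgnb a.2 := by
    have h5 : Y.L2 c = c.sum (fun τ r => r • Y.d2 τ) := Finsupp.linearCombination_apply ℚ c
    rw [h5, Finsupp.sum, Finsupp.finsetSum_apply, Finset.sum_eq_single σ]
    · rw [Finsupp.smul_apply, smul_eq_mul]
      congr 1
      rw [Cpx.d2, hbd, wch_append, wch_cons, Finsupp.add_apply, Finsupp.add_apply,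
        H2dr_wch w₁ a.1 (fun c hc => h1 c (List.mem_append_left _ hc)),
        H2dr_wch w₂ a.1 (fun c hc => h1 c (List.mem_append_right _ hc)),
        Finsupp.single_eq_same, zero_add, add_zero]
    · intro τ hτ hτσ
      rw [Finsupp.smul_apply, Cpx.d2, H2dr_wch (Y.bd τ) a.1 (h2 τ hτ hτσ), smul_zero]
    · intro h
      exact absurd hσ h
  rw [h4] at h3
  rcases mul_eq_zero.1 h3 with h5 | h5
  · exact (Finsupp.mem_support_iff.1 hσ) h5
  · revert h5
    cases a.2 <;> simp [sgnb]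

end Pool.Agent.H60.CI

end NC_H60_CI_H2dr1

end S_H60_CI_H2dr
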