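import Mathlib
import Pool.Agent.H50.CI.N0
import Pool.Agent.H62.CI.M2

set_option autoImplicit false

/-! Coherence of complexes with collapsing nonpositive immersions, M3: this file joins several modules. -/

section S_H62_CI_NF

/-!
# Filtered groups; unitriangular matrices (definitions)

`NF G`: a descending filtration `Γ d` of the group `G` by normal subgroups, separated, with homomorphisms `π d` of `Γ d` onto
the additive group of all functions `ι d → ℚ`, with kernel `Γ (d+1)`, invariant under conjugation by `G`.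
`JJ n d`: matrices with `M i j = 0` for `j < i + d`. `UT n`: unitriangular matrices.
-/

set_option autoImplicit false

namespace Pool.Agent.H60.CI

structure NF (G : Type) [Group G] where
  Γ : ℕ → Subgroup G
  zero : Γ 0 = ⊤
  anti : ∀ d x, x ∈ Γ (d + 1) → x ∈ Γ d
  ι : ℕ → Type
  π : ∀ d, G → ι d → ℚ
  π_mul : ∀ d x y, x ∈ Γ d → y ∈ Γ d → π d (x * y) = π d x + π d y
  π_ker : ∀ d x, x ∈ Γ d → (π d x = 0 ↔ x ∈ Γ (d + 1))
  π_surj : ∀ d m, ∃ x ∈ Γ d, π d x = m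
  conj_mem : ∀ d g x, x ∈ Γ d → g * x * g⁻¹ ∈ Γ d
  π_conj : ∀ d g x, x ∈ Γ d → π d (g * x * g⁻¹) = π d x
  sep : ∀ x, (∀ d, x ∈ Γ d) → x = 1

/-- matrices which vanish below the `d`-th superdiagonal -/
def JJ (n d : ℕ) : Submodule ℚ (Matrix (Fin n) (Fin n) ℚ) where
  carrier := {M | ∀ i j : Fin n, (j : ℕ) < i + d → M i j = 0}
  add_mem' := fun {a b} ha hb i j h => by rw [Matrix.add_apply, ha i j h, hb i j h, add_zero]
  zero_mem' := fun i j _ => rfl
  smul_mem' := fun r a ha i j h => by rw [Matrix.smul_apply, ha i j h, smul_zero]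

theorem JJ_mul {n a b : ℕ} {M N : Matrix (Fin n) (Fin n) ℚ} (hM : M ∈ JJ n a) (hN : N ∈ JJ n b) :
    M * N ∈ JJ n (a + b) := by
  intro i j h
  rw [Matrix.mul_apply]
  refine Finset.sum_eq_zero fun k _ => ?_
  by_cases h1 : (k : ℕ) < i + a
  · rw [hM i k h1, zero_mul]
  · rw [hN k j (by omega), mul_zero]

theorem JJ_mono {n a b : ℕ} (h : a ≤ b) : JJ n b ≤ JJ n a := fun _ hM i j hij =>
  hM i j (by omega)

/-- unitriangular matrices -/
def UT (n : ℕ) : Subgroup (Matrix (Fin n) (Fin n) ℚ)ˣ where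
  carrier := {u | (u : Matrix (Fin n) (Fin n) ℚ) - 1 ∈ JJ n 1 ∧
    ((u⁻¹ : (Matrix (Fin n) (Fin n) ℚ)ˣ) : Matrix (Fin n) (Fin n) ℚ) - 1 ∈ JJ n 1}
  one_mem' := by simp
  mul_mem' := by
    have key : ∀ A B : Matrix (Fin n) (Fin n) ℚ, A - 1 ∈ JJ n 1 → B - 1 ∈ JJ n 1 →
        A * B - 1 ∈ JJ n 1 := by
      intro A B hA hB
      have h1 : A * B - 1 = (A - 1) * (B - 1) + (A - 1) + (B - 1) := by noncomm_ring
      rw [h1]
      exact add_mem (add_mem (JJ_mono (by norm_num) (JJ_mul hA hB)) hA) hB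
    rintro u v ⟨hu, hu'⟩ ⟨hv, hv'⟩
    refine ⟨by rw [Units.val_mul]; exact key _ _ hu hv, ?_⟩
    rw [mul_inv_rev, Units.val_mul]
    exact key _ _ hv' hu'
  inv_mem' := by
    rintro u ⟨hu, hu'⟩
    exact ⟨hu', by rwa [inv_inv]⟩

end Pool.Agent.H60.CI

end S_H62_CI_NF

section S_H62_CI_GAU

/-!
# Row GAU (260 lines): the gauge lemma

Data: a graph `(V1, E1)` with closed words `r1 i`, a set of letters `E2` with words `r2 i`, a map `g : E1 → E2` which maps the words `r1` to words `r2`, and the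
cohomological conditions `H1` (every cocycle of `r1` is the pull back of a cocycle of `r2` plus a coboundary) and `H2` (every function on the relators `r2`
is a coboundary). `lift ρ w` below means `FreeGroup.lift ρ (FreeGroup.mk w)`.

PROOF. (0) `gau_prod` (no cohomology): let `β, ρ : E → G` with `β e ∈ Γ d` for all `e`. For every word `w` there is `Θ ∈ Γ d` with
`lift (fun e => β e * ρ e) w = Θ * lift ρ w` and `π d Θ = (fun i => integ (fun e => π d (β e) i) w)`. Induction on `w`: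
`β e * ρ e * (Θ * L) = (β e * (ρ e * Θ * (ρ e)⁻¹)) * (ρ e * L)` and
`(β e * ρ e)⁻¹ * (Θ * L) = ((ρ e)⁻¹ * ((β e)⁻¹ * Θ) * ρ e) * ((ρ e)⁻¹ * L)`; use `π_mul`, `π_conj`, and `π d x⁻¹ = - π d x` (from `π_mul`, `π_ker`: `π d 1 = 0`).
(1) Claim(d): there are `ρ' : E2 → G`, `φ : V1 → G` with `lift ρ' (r2 i) ∈ Γ d` for all `i` and
`(φ (src e))⁻¹ * ρ e * φ (tgt e) * (ρ' (g e))⁻¹ ∈ Γ d` for all `e`. Claim(0): `ρ' = 1, φ = 1`, `Γ 0 = ⊤`.
(2) Claim(d) implies Claim(d+1). Let `δ i = π d (lift ρ' (r2 i))`. By `H2` for every coordinate `i' : ι d` choose `b : E2 → ι d → ℚ` with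
`integ (fun e => b e i') (r2 i) = - δ i i'`. Choose `β e ∈ Γ d` with `π d (β e) = b e`, and let `ρ1 e = β e * ρ' e`. By (0), `lift ρ1 (r2 i) = Θ * lift ρ' (r2 i)` is in `Γ d` and
its `π d` is `0`, so `lift ρ1 (r2 i) ∈ Γ (d+1)`.
Let `ρ'' e = (φ (src e))⁻¹ * ρ e * φ (tgt e)`; for a walk `w` from `x` to `y`: `lift ρ'' w = (φ x)⁻¹ * lift ρ w * φ y` (induction); so `lift ρ'' (r1 i) = 1`.
Let `a e = ρ'' e * (ρ1 (g e))⁻¹ = (ρ'' e * (ρ' (g e))⁻¹) * (β (g e))⁻¹... ` (write `(ρ1 (g e))⁻¹ = (ρ' (g e))⁻¹ * (β (g e))⁻¹`), so `a e ∈ Γ d` and `ρ'' e = a e * ρ1 (g e)`. By (0) for `β = a`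
and the function `fun e => ρ1 (g e)` on `E1`: `1 = lift ρ'' (r1 i) = Θ * lift ρ1 ((r1 i).map (Prod.map g id)) = Θ * lift ρ1 (r2 (j i))`, so `Θ ∈ Γ (d+1)` and
`integ (fun e => π d (a e) i') (r1 i) = 0` for all coordinates `i'`. By `H1` for every coordinate: `π d (a e) i' = b' (g e) i' + θ (tgt e) i' - θ (src e) i'` with
`integ (fun e => b' e i') (r2 i) = 0`. Choose `β' e ∈ Γ d` with `π d (β' e) = b' e` and `ψ x ∈ Γ d` with `π d (ψ x) = θ x`.
New data: `ρ'new e = β' e * ρ1 e`, `φnew x = φ x * (ψ x)⁻¹`. By (0) `lift ρ'new (r2 i) ∈ Γ (d+1)`. And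
`(φnew (src e))⁻¹ * ρ e * φnew (tgt e) * (ρ'new (g e))⁻¹ = ψ (src e) * a e * (ρ1 (g e) * (ψ (tgt e))⁻¹ * (ρ1 (g e))⁻¹) * (β' (g e))⁻¹` is in `Γ d` and its `π d` is
`θ (src e) + π d (a e) - θ (tgt e) - b' (g e) = 0`.
(3) Conclusion. Fix `d`, take the data of Claim(d), `ρ''` as in (2), `a e = ρ'' e * (ρ' (g e))⁻¹ ∈ Γ d`. By (0):
`(φ x)⁻¹ * lift ρ γ * φ x = lift ρ'' γ = Θ * lift ρ' (γ.map (Prod.map g id))`, `Θ ∈ Γ d`. The second factor is in `Γ d` because `hn` and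
`Subgroup.normalClosure_le_normal` for the normal subgroup `(Γ d).comap (lift ρ')` (`Γ d` is normal by `conj_mem`). So `lift ρ γ ∈ Γ d` (`conj_mem`) for every `d`; `sep`.
-/

set_option autoImplicit false

namespace Pool.Agent.H60.CI

/-- the value of a word -/
def gau_P {E G : Type} [Group G] (ρ : E → G) (w : List (E × Bool)) : G :=
  FreeGroup.lift ρ (FreeGroup.mk w)

theorem gau_P_nil {E G : Type} [Group G] (ρ : E → G) : gau_P ρ [] = 1 := by
  simp [gau_P]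

theorem gau_P_cons_true {E G : Type} [Group G] (ρ : E → G) (e : E) (w : List (E × Bool)) :
    gau_P ρ ((e, true) :: w) = ρ e * gau_P ρ w := by
  simp [gau_P]

theorem gau_P_cons_false {E G : Type} [Group G] (ρ : E → G) (e : E) (w : List (E × Bool)) :
    gau_P ρ ((e, false) :: w) = (ρ e)⁻¹ * gau_P ρ w := by
  simp [gau_P]

theorem gau_map {E E' G : Type} [Group G] (g : E → E') (ρ : E' → G) (w : List (E × Bool)) :
    gau_P ρ (w.map (Prod.map g id)) = gau_P (fun e => ρ (g e)) w := by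
  induction w with
  | nil => simp [gau_P_nil]
  | cons a w ih =>
    obtain ⟨e, b⟩ := a
    cases b
    · simp only [List.map_cons, Prod.map_apply, id_eq]
      rw [gau_P_cons_false, gau_P_cons_false, ih]
    · simp only [List.map_cons, Prod.map_apply, id_eq]
      rw [gau_P_cons_true, gau_P_cons_true, ih]

theorem gau_π_one {G : Type} [Group G] (nf : NF G) (d : ℕ) : nf.π d 1 = 0 :=
  (nf.π_ker d 1 (one_mem _)).2 (one_mem _)

theorem gau_π_inv {G : Type} [Group G] (nf : NF G) (d : ℕ) {x : G} (hx : x ∈ nf.Γ d) :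
    nf.π d x⁻¹ = - nf.π d x := by
  have h := nf.π_mul d x x⁻¹ hx (inv_mem hx)
  rw [mul_inv_cancel, gau_π_one] at h
  exact (neg_eq_of_add_eq_zero_right h.symm).symm

theorem gau_prod {E G : Type} [Group G] (nf : NF G) (β ρ : E → G) (d : ℕ)
    (hβ : ∀ e, β e ∈ nf.Γ d) (w : List (E × Bool)) :
    ∃ Θ ∈ nf.Γ d, gau_P (fun e => β e * ρ e) w = Θ * gau_P ρ w ∧
      ∀ i, nf.π d Θ i = Cpx.integ (fun e => nf.π d (β e) i) w := by
  induction w with
  | nil =>
    refine ⟨1, one_mem _, by simp [gau_P_nil], fun i => ?_⟩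
    rw [gau_π_one, Cpx.integ_nil]; rfl
  | cons a w ih =>
    obtain ⟨Θ, hΘ, hP, hπ⟩ := ih
    obtain ⟨e, b⟩ := a
    cases b
    · have hm : (β e)⁻¹ * Θ ∈ nf.Γ d := mul_mem (inv_mem (hβ e)) hΘ
      refine ⟨(ρ e)⁻¹ * ((β e)⁻¹ * Θ) * ρ e, ?_, ?_, fun i => ?_⟩
      · have := nf.conj_mem d (ρ e)⁻¹ _ hm
        rwa [inv_inv] at this
      · rw [gau_P_cons_false, gau_P_cons_false, hP]
        group
      · have h1 := nf.π_conj d (ρ e)⁻¹ _ hm
        rw [inv_inv] at h1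
        rw [h1, nf.π_mul d _ _ (inv_mem (hβ e)) hΘ, gau_π_inv nf d (hβ e), Cpx.integ_cons,
          Pi.add_apply, hπ i]
        simp
    · have hm : ρ e * Θ * (ρ e)⁻¹ ∈ nf.Γ d := nf.conj_mem d _ _ hΘ
      refine ⟨β e * (ρ e * Θ * (ρ e)⁻¹), mul_mem (hβ e) hm, ?_, fun i => ?_⟩
      · rw [gau_P_cons_true, gau_P_cons_true, hP]
        group
      · rw [nf.π_mul d _ _ (hβ e) hm, nf.π_conj d _ _ hΘ, Cpx.integ_cons, Pi.add_apply, hπ i]
        simp

theorem gau_walk {V1 E1 G : Type} [Group G] (src tgt : E1 → V1) (φ : V1 → G) (ρ : E1 → G)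
    (w : List (E1 × Bool)) : ∀ (x y : V1), IsWalk src tgt x w y →
    gau_P (fun e => (φ (src e))⁻¹ * ρ e * φ (tgt e)) w = (φ x)⁻¹ * gau_P ρ w * φ y := by
  induction w with
  | nil =>
    intro x y h
    have h' : x = y := h
    subst h'
    simp [gau_P_nil]
  | cons a w ih =>
    intro x y h
    obtain ⟨e, b⟩ := a
    obtain ⟨h1, h2⟩ := h
    cases b
    · have h1' : tgt e = x := by simpa [oS] using h1
      have h2' : IsWalk src tgt (src e) w y := by simpa [oT] using h2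
      rw [gau_P_cons_false, gau_P_cons_false, ih _ _ h2', ← h1']
      group
    · have h1' : src e = x := by simpa [oS] using h1
      have h2' : IsWalk src tgt (tgt e) w y := by simpa [oT] using h2
      rw [gau_P_cons_true, gau_P_cons_true, ih _ _ h2', ← h1']
      group

theorem gau_step {V1 E1 E2 I1 I2 : Type} (src tgt : E1 → V1) (g : E1 → E2)
    (r1 : I1 → List (E1 × Bool)) (r2 : I2 → List (E2 × Bool)) (j : I1 → I2)
    (hj : ∀ i, (r1 i).map (Prod.map g id) = r2 (j i))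
    (hcl : ∀ i, ∃ x, IsWalk src tgt x (r1 i) x)
    (H1 : ∀ a : E1 → ℚ, (∀ i, Cpx.integ a (r1 i) = 0) → ∃ (b : E2 → ℚ) (θ : V1 → ℚ),
      (∀ i, Cpx.integ b (r2 i) = 0) ∧ ∀ e, a e = b (g e) + θ (tgt e) - θ (src e))
    (H2 : ∀ δ : I2 → ℚ, ∃ b : E2 → ℚ, ∀ i, Cpx.integ b (r2 i) = δ i)
    {G : Type} [Group G] (nf : NF G) (ρ : E1 → G)
    (hρ : ∀ i, gau_P ρ (r1 i) = 1) (d : ℕ)
    (hd : ∃ (ρ' : E2 → G) (φ : V1 → G), (∀ i, gau_P ρ' (r2 i) ∈ nf.Γ d) ∧
      ∀ e, (φ (src e))⁻¹ * ρ e * φ (tgt e) * (ρ' (g e))⁻¹ ∈ nf.Γ d) :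
    ∃ (ρ' : E2 → G) (φ : V1 → G), (∀ i, gau_P ρ' (r2 i) ∈ nf.Γ (d + 1)) ∧
      ∀ e, (φ (src e))⁻¹ * ρ e * φ (tgt e) * (ρ' (g e))⁻¹ ∈ nf.Γ (d + 1) := by
  obtain ⟨ρ', φ, h1, h2⟩ := hd
  have hb : ∀ i' : nf.ι d, ∃ b : E2 → ℚ, ∀ i, Cpx.integ b (r2 i) =
      - nf.π d (gau_P ρ' (r2 i)) i' := fun i' => H2 (fun i => - nf.π d (gau_P ρ' (r2 i)) i')
  choose b hb using hb
  have hβ : ∀ e : E2, ∃ x ∈ nf.Γ d, nf.π d x = fun i' => b i' e := fun e => nf.π_surj d _
  choose β hβm hβπ using hβ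
  obtain ⟨ρ1, hρ1⟩ : ∃ ρ1 : E2 → G, ρ1 = fun e => β e * ρ' e := ⟨_, rfl⟩
  have h3 : ∀ i, gau_P ρ1 (r2 i) ∈ nf.Γ (d + 1) := by
    intro i
    obtain ⟨Θ, hΘ, hP, hπ⟩ := gau_prod nf β ρ' d hβm (r2 i)
    rw [hρ1, hP]
    rw [← nf.π_ker d _ (mul_mem hΘ (h1 i)), nf.π_mul d _ _ hΘ (h1 i)]
    funext i'
    have h0 : (fun e => nf.π d (β e) i') = b i' := by
      funext e
      rw [hβπ]
    rw [Pi.add_apply, hπ i', h0, hb]
    simp
  obtain ⟨ρ'', hρ''⟩ : ∃ ρ'' : E1 → G, ρ'' = fun e => (φ (src e))⁻¹ * ρ e * φ (tgt e) :=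
    ⟨_, rfl⟩
  have h4 : ∀ i, gau_P ρ'' (r1 i) = 1 := by
    intro i
    obtain ⟨x, hx⟩ := hcl i
    rw [hρ'', gau_walk src tgt φ ρ _ _ _ hx, hρ i]
    group
  obtain ⟨a, ha0⟩ : ∃ a : E1 → G, a = fun e => ρ'' e * (ρ1 (g e))⁻¹ := ⟨_, rfl⟩
  have ha : ∀ e, a e ∈ nf.Γ d := by
    intro e
    have h0 : a e = ((φ (src e))⁻¹ * ρ e * φ (tgt e) * (ρ' (g e))⁻¹) * (β (g e))⁻¹ := by
      rw [ha0, hρ'', hρ1]
      group
    rw [h0]
    exact mul_mem (h2 e) (inv_mem (hβm _))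
  have haρ : ρ'' = fun e => a e * ρ1 (g e) := by
    funext e
    rw [ha0]
    group
  have h5 : ∀ i i', Cpx.integ (fun e => nf.π d (a e) i') (r1 i) = 0 := by
    intro i i'
    obtain ⟨Θ, hΘ, hP, hπ⟩ := gau_prod nf a (fun e => ρ1 (g e)) d ha (r1 i)
    rw [← haρ, h4, ← gau_map, hj] at hP
    have hΘ' : Θ ∈ nf.Γ (d + 1) := by
      have h0 : Θ = (gau_P ρ1 (r2 (j i)))⁻¹ := eq_inv_of_mul_eq_one_left hP.symm
      rw [h0]
      exact inv_mem (h3 _)
    rw [← hπ i', (nf.π_ker d Θ hΘ).2 hΘ']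
    rfl
  have h6 : ∀ i' : nf.ι d, ∃ (b' : E2 → ℚ) (θ : V1 → ℚ), (∀ i, Cpx.integ b' (r2 i) = 0) ∧
      ∀ e, nf.π d (a e) i' = b' (g e) + θ (tgt e) - θ (src e) :=
    fun i' => H1 _ (fun i => h5 i i')
  choose b' θ hb' hθ using h6
  have hβ' : ∀ e : E2, ∃ x ∈ nf.Γ d, nf.π d x = fun i' => b' i' e := fun e => nf.π_surj d _
  choose β' hβ'm hβ'π using hβ'
  have hψ : ∀ x : V1, ∃ y ∈ nf.Γ d, nf.π d y = fun i' => θ i' x := fun e => nf.π_surj d _
  choose ψ hψm hψπ using hψ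
  refine ⟨fun e => β' e * ρ1 e, fun x => φ x * (ψ x)⁻¹, ?_, ?_⟩
  · intro i
    obtain ⟨Θ, hΘ, hP, hπ⟩ := gau_prod nf β' ρ1 d hβ'm (r2 i)
    rw [hP]
    refine mul_mem ((nf.π_ker d _ hΘ).1 ?_) (h3 i)
    funext i'
    have h0 : (fun e => nf.π d (β' e) i') = b' i' := by
      funext e
      rw [hβ'π]
    rw [hπ i', h0, hb']
    rfl
  · intro e
    have h0 : (φ (src e) * (ψ (src e))⁻¹)⁻¹ * ρ e * (φ (tgt e) * (ψ (tgt e))⁻¹) *
        (β' (g e) * ρ1 (g e))⁻¹ = ψ (src e) * (a e *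
          ((ρ1 (g e) * (ψ (tgt e))⁻¹ * (ρ1 (g e))⁻¹) * (β' (g e))⁻¹)) := by
      rw [ha0, hρ'']
      group
    have m1 : (ψ (tgt e))⁻¹ ∈ nf.Γ d := inv_mem (hψm _)
    have m2 : ρ1 (g e) * (ψ (tgt e))⁻¹ * (ρ1 (g e))⁻¹ ∈ nf.Γ d := nf.conj_mem d _ _ m1
    have m3 : (β' (g e))⁻¹ ∈ nf.Γ d := inv_mem (hβ'm _)
    have m4 := mul_mem m2 m3
    have m5 := mul_mem (ha e) m4
    have m6 := mul_mem (hψm (src e)) m5
    show (φ (src e) * (ψ (src e))⁻¹)⁻¹ * ρ e * (φ (tgt e) * (ψ (tgt e))⁻¹) *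
        (β' (g e) * ρ1 (g e))⁻¹ ∈ nf.Γ (d + 1)
    rw [h0, ← nf.π_ker d _ m6, nf.π_mul d _ _ (hψm _) m5, nf.π_mul d _ _ (ha e) m4,
      nf.π_mul d _ _ m2 m3, nf.π_conj d _ _ m1, gau_π_inv nf d (hψm _), gau_π_inv nf d (hβ'm _),
      hψπ, hψπ, hβ'π]
    funext i'
    have := hθ i' e
    simp only [Pi.add_apply, Pi.neg_apply, Pi.zero_apply]
    linarith

theorem gauge {V1 E1 E2 I1 I2 : Type} (src tgt : E1 → V1) (g : E1 → E2)
    (r1 : I1 → List (E1 × Bool)) (r2 : I2 → List (E2 × Bool)) (j : I1 → I2)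
    (hj : ∀ i, (r1 i).map (Prod.map g id) = r2 (j i))
    (hcl : ∀ i, ∃ x, IsWalk src tgt x (r1 i) x)
    (H1 : ∀ a : E1 → ℚ, (∀ i, Cpx.integ a (r1 i) = 0) → ∃ (b : E2 → ℚ) (θ : V1 → ℚ),
      (∀ i, Cpx.integ b (r2 i) = 0) ∧ ∀ e, a e = b (g e) + θ (tgt e) - θ (src e))
    (H2 : ∀ δ : I2 → ℚ, ∃ b : E2 → ℚ, ∀ i, Cpx.integ b (r2 i) = δ i)
    {G : Type} [Group G] (nf : NF G) (ρ : E1 → G)
    (hρ : ∀ i, FreeGroup.lift ρ (FreeGroup.mk (r1 i)) = 1) (x : V1) (γ : List (E1 × Bool))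
    (hγ : IsWalk src tgt x γ x)
    (hn : FreeGroup.mk (γ.map (Prod.map g id)) ∈
      Subgroup.normalClosure (Set.range fun i => FreeGroup.mk (r2 i))) :
    FreeGroup.lift ρ (FreeGroup.mk γ) = 1 := by
  have hall : ∀ d : ℕ, ∃ (ρ' : E2 → G) (φ : V1 → G), (∀ i, gau_P ρ' (r2 i) ∈ nf.Γ d) ∧
      ∀ e, (φ (src e))⁻¹ * ρ e * φ (tgt e) * (ρ' (g e))⁻¹ ∈ nf.Γ d := by
    intro d
    induction d with
    | zero =>
      refine ⟨fun _ => 1, fun _ => 1, fun i => ?_, fun e => ?_⟩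
      · rw [nf.zero]; exact Subgroup.mem_top _
      · rw [nf.zero]; exact Subgroup.mem_top _
    | succ d ih => exact gau_step src tgt g r1 r2 j hj hcl H1 H2 nf ρ hρ d ih
  apply nf.sep
  intro d
  obtain ⟨ρ', φ, h1, h2⟩ := hall d
  have hN : (nf.Γ d).Normal := ⟨fun x hx g => nf.conj_mem d g x hx⟩
  have hC : ((nf.Γ d).comap (FreeGroup.lift ρ')).Normal := hN.comap _
  have h3 : gau_P ρ' (γ.map (Prod.map g id)) ∈ nf.Γ d := by
    have h0 : Subgroup.normalClosure (Set.range fun i => FreeGroup.mk (r2 i)) ≤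
        (nf.Γ d).comap (FreeGroup.lift ρ') := by
      apply Subgroup.normalClosure_le_normal
      rintro _ ⟨i, rfl⟩
      exact h1 i
    exact h0 hn
  obtain ⟨Θ, hΘ, hP, -⟩ := gau_prod nf
    (fun e => (φ (src e))⁻¹ * ρ e * φ (tgt e) * (ρ' (g e))⁻¹) (fun e => ρ' (g e)) d h2 γ
  have h4 : (fun e => (φ (src e))⁻¹ * ρ e * φ (tgt e) * (ρ' (g e))⁻¹ * ρ' (g e)) =
      fun e => (φ (src e))⁻¹ * ρ e * φ (tgt e) := by
    funext e
    group
  rw [h4, gau_walk src tgt φ ρ _ _ _ hγ, ← gau_map g ρ' γ] at hP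
  have h5 : (φ x)⁻¹ * gau_P ρ γ * φ x ∈ nf.Γ d := by
    rw [hP]
    exact mul_mem hΘ h3
  have h6 := nf.conj_mem d (φ x) _ h5
  have h7 : φ x * ((φ x)⁻¹ * gau_P ρ γ * φ x) * (φ x)⁻¹ = gau_P ρ γ := by group
  rw [h7] at h6
  exact h6

/-- Conclusion: if the words `r1` satisfy the free face condition (finitely many), then a closed walk whose image is in the normal
closure of the `r2` is in the normal closure of the `r1`. -/
theorem gauge_fin {V1 E1 E2 I1 I2 : Type} (src tgt : E1 → V1) (g : E1 → E2)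
    (r1 : I1 → List (E1 × Bool)) (r2 : I2 → List (E2 × Bool)) (j : I1 → I2)
    (hj : ∀ i, (r1 i).map (Prod.map g id) = r2 (j i))
    (hcl : ∀ i, ∃ x, IsWalk src tgt x (r1 i) x)
    (H1 : ∀ a : E1 → ℚ, (∀ i, Cpx.integ a (r1 i) = 0) → ∃ (b : E2 → ℚ) (θ : V1 → ℚ),
      (∀ i, Cpx.integ b (r2 i) = 0) ∧ ∀ e, a e = b (g e) + θ (tgt e) - θ (src e))
    (H2 : ∀ δ : I2 → ℚ, ∃ b : E2 → ℚ, ∀ i, Cpx.integ b (r2 i) = δ i)
    (hdet : ∀ h : FreeGroup E1, h ∉ Subgroup.normalClosure (Set.range fun i => FreeGroup.mk (r1 i)) →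
      ∃ (G : Type) (_ : Group G) (_ : Nonempty (NF G)) (θ : FreeGroup E1 →* G),
        (∀ i, θ (FreeGroup.mk (r1 i)) = 1) ∧ θ h ≠ 1)
    (x : V1) (γ : List (E1 × Bool)) (hγ : IsWalk src tgt x γ x)
    (hn : FreeGroup.mk (γ.map (Prod.map g id)) ∈
      Subgroup.normalClosure (Set.range fun i => FreeGroup.mk (r2 i))) :
    FreeGroup.mk γ ∈ Subgroup.normalClosure (Set.range fun i => FreeGroup.mk (r1 i)) := by
  by_contra hc
  obtain ⟨G, hG, ⟨nf⟩, θ, h1, h2⟩ := hdet _ hc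
  have h3 : θ = FreeGroup.lift (fun e => θ (FreeGroup.of e)) := by
    apply FreeGroup.ext_hom
    intro e
    simp
  apply h2
  rw [h3]
  refine gauge src tgt g r1 r2 j hj hcl H1 H2 nf _ ?_ x γ hγ hn
  intro i
  rw [← h3]
  exact h1 i

end Pool.Agent.H60.CI

end S_H62_CI_GAU

section S_H62_CI_MGA

/-!
# Row MGA (200 lines): the filtration of the unitriangular group

PROOF. Write `A = Matrix (Fin n) (Fin n) ℚ` and `u` also for the matrix `(u : A)` of `u : UT n`.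
Geometric series: for `N ∈ JJ n 1`, `(-N)^n ∈ JJ n n`, so `(-N)^n = 0` (`j < i + n` always), hence with
`S = ∑ k ∈ Finset.range n, (-N)^k` one has `(1 + N) * S = 1 = S * (1 + N)` (`mul_neg_geom_sum`/`geom_sum_mul_neg` with `x = -N`), and
`S - 1 ∈ JJ n 1` (if `n = 0` the matrix ring is trivial; else `S = 1 + ∑ (k from 1)` and all the terms with `k ≥ 1` are in `JJ n 1`). This gives `ut_unit`.
`NF (UT n)`: `Γ d = {u | (u : A) - 1 ∈ JJ n (d + 1)}`. Products: `u v - 1 = (u - 1)(v - 1) + (u - 1) + (v - 1)`. Inverses: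
`u⁻¹ - 1 = -(u - 1) - (u⁻¹ - 1)(u - 1)` (multiply out, `u⁻¹ u = 1`). `Γ 0 = ⊤` by definition of `UT`.
`ι d = {i : Fin n // (i : ℕ) + d + 1 < n}`, `π d u i = (u - 1) i (i + d + 1)`.
* `π_mul`: `(u - 1)(v - 1) ∈ JJ n (2 d + 2)` has no entries on the superdiagonal `d + 1`.
* `π_ker`: if `u - 1 ∈ JJ n (d + 1)` and its entries on the superdiagonal `d + 1` vanish then it is in `JJ n (d + 2)`; conversely clear.
* `π_surj`: let `N` be the matrix with entries `m i` at `(i, i + d + 1)` and 0 elsewhere; `N ∈ JJ n (d + 1) ≤ JJ n 1`; use `ut_unit`.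
* `conj_mem`, `π_conj`: `g u g⁻¹ - 1 = g (u - 1) g⁻¹ = U + (g - 1) U + U (g⁻¹ - 1) + (g - 1) U (g⁻¹ - 1)` with `U = u - 1 ∈ JJ n (d + 1)`; the other three terms are
  in `JJ n (d + 2)`.
* `sep`: `u - 1 ∈ JJ n (n + 1)` implies `u = 1`.
-/

set_option autoImplicit false

namespace Pool.Agent.H60.CI

theorem MGA_one (n : ℕ) : (1 : Matrix (Fin n) (Fin n) ℚ) ∈ JJ n 0 := by
  intro i j h
  rw [Matrix.one_apply_ne]
  rintro rfl
  omega

theorem MGA_pow {n : ℕ} {N : Matrix (Fin n) (Fin n) ℚ} (hN : N ∈ JJ n 1) (k : ℕ) :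
    N ^ k ∈ JJ n k := by
  induction k with
  | zero => rw [pow_zero]; exact MGA_one n
  | succ k ih => rw [pow_succ]; exact JJ_mul ih hN

theorem MGA_zero {n d : ℕ} (hd : n ≤ d) {M : Matrix (Fin n) (Fin n) ℚ} (hM : M ∈ JJ n d) :
    M = 0 := by
  ext i j
  have hj := j.isLt
  exact hM i j (by omega)

theorem ut_unit (n : ℕ) (N : Matrix (Fin n) (Fin n) ℚ) (hN : N ∈ JJ n 1) :
    ∃ u : UT n, ((u : (Matrix (Fin n) (Fin n) ℚ)ˣ) : Matrix (Fin n) (Fin n) ℚ) = 1 + N := by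
  have hN' : -N ∈ JJ n 1 := neg_mem hN
  have h0 : (-N) ^ n = 0 := MGA_zero le_rfl (MGA_pow hN' n)
  have h1 := mul_neg_geom_sum (-N) n
  have h2 := geom_sum_mul_neg (-N) n
  rw [h0, sub_zero, sub_neg_eq_add] at h1 h2
  have hS : ∑ k ∈ Finset.range n, (-N) ^ k ∈ JJ n 0 :=
    sum_mem fun k _ => JJ_mono (Nat.zero_le k) (MGA_pow hN' k)
  have hS1 : (∑ k ∈ Finset.range n, (-N) ^ k) - 1 ∈ JJ n 1 := by
    have h3 : (∑ k ∈ Finset.range n, (-N) ^ k) - 1 =
        -(N * ∑ k ∈ Finset.range n, (-N) ^ k) := by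
      rw [add_mul, one_mul] at h1
      rw [← h1]
      abel
    rw [h3]
    exact neg_mem (JJ_mul hN hS)
  refine ⟨⟨⟨1 + N, ∑ k ∈ Finset.range n, (-N) ^ k, h1, h2⟩, ?_, ?_⟩, rfl⟩
  · change 1 + N - 1 ∈ JJ n 1
    rw [add_sub_cancel_left]
    exact hN
  · exact hS1

/-- the underlying matrix -/
def MGA_m {n : ℕ} (u : UT n) : Matrix (Fin n) (Fin n) ℚ :=
  ((u : (Matrix (Fin n) (Fin n) ℚ)ˣ) : Matrix (Fin n) (Fin n) ℚ)

theorem MGA_m_mul {n : ℕ} (u v : UT n) : MGA_m (u * v) = MGA_m u * MGA_m v := rfl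

theorem MGA_m_one (n : ℕ) : MGA_m (1 : UT n) = 1 := rfl

theorem MGA_m_inv {n : ℕ} (u : UT n) : MGA_m u⁻¹ * MGA_m u = 1 := by
  rw [← MGA_m_mul, inv_mul_cancel, MGA_m_one]

theorem MGA_m_inv' {n : ℕ} (u : UT n) : MGA_m u * MGA_m u⁻¹ = 1 := by
  rw [← MGA_m_mul, mul_inv_cancel, MGA_m_one]

theorem MGA_m_inj {n : ℕ} {u v : UT n} (h : MGA_m u = MGA_m v) : u = v :=
  Subtype.ext (Units.ext h)

theorem MGA_m_mem {n : ℕ} (u : UT n) : MGA_m u - 1 ∈ JJ n 1 := u.2.1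

theorem MGA_prod {n : ℕ} (u v : UT n) : MGA_m (u * v) - 1 =
    (MGA_m u - 1) * (MGA_m v - 1) + (MGA_m u - 1) + (MGA_m v - 1) := by
  rw [MGA_m_mul]
  noncomm_ring

theorem MGA_invs {n : ℕ} (u : UT n) : MGA_m u⁻¹ - 1 =
    -(MGA_m u - 1) - (MGA_m u⁻¹ - 1) * (MGA_m u - 1) := by
  have h := MGA_m_inv u
  rw [sub_mul, mul_sub, mul_one, h, one_mul]
  abel

theorem MGA_conj {n : ℕ} (g u : UT n) {d : ℕ} (hu : MGA_m u - 1 ∈ JJ n (d + 1)) :
    MGA_m (g * u * g⁻¹) - 1 - (MGA_m u - 1) ∈ JJ n (d + 2) := by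
  have h := MGA_m_inv' g
  have hg := MGA_m_mem g
  have hg' := MGA_m_mem g⁻¹
  have e : MGA_m (g * u * g⁻¹) - 1 - (MGA_m u - 1) =
      (MGA_m g - 1) * (MGA_m u - 1) + (MGA_m u - 1) * (MGA_m g⁻¹ - 1) +
        (MGA_m g - 1) * (MGA_m u - 1) * (MGA_m g⁻¹ - 1) := by
    have e1 : MGA_m (g * u * g⁻¹) - 1 = MGA_m g * (MGA_m u - 1) * MGA_m g⁻¹ := by
      rw [MGA_m_mul, MGA_m_mul, mul_sub, sub_mul, mul_one, h]
    rw [e1]
    noncomm_ring
  rw [e]
  refine add_mem (add_mem ?_ ?_) ?_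
  · exact JJ_mono (by omega) (JJ_mul hg hu)
  · exact JJ_mono (by omega) (JJ_mul hu hg')
  · exact JJ_mono (by omega) (JJ_mul (JJ_mul hg hu) hg')

/-- the filtration -/
def MGA_G (n d : ℕ) : Subgroup (UT n) where
  carrier := {u | MGA_m u - 1 ∈ JJ n (d + 1)}
  one_mem' := by
    change MGA_m 1 - 1 ∈ JJ n (d + 1)
    rw [MGA_m_one, sub_self]
    exact zero_mem _
  mul_mem' := by
    intro u v hu hv
    change MGA_m (u * v) - 1 ∈ JJ n (d + 1)
    rw [MGA_prod]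
    exact add_mem (add_mem (JJ_mono (by omega) (JJ_mul hu hv)) hu) hv
  inv_mem' := by
    intro u hu
    change MGA_m u⁻¹ - 1 ∈ JJ n (d + 1)
    rw [MGA_invs]
    exact sub_mem (neg_mem hu) (JJ_mono (by omega) (JJ_mul (MGA_m_mem u⁻¹) hu))

theorem MGA_memG {n d : ℕ} {u : UT n} : u ∈ MGA_G n d ↔ MGA_m u - 1 ∈ JJ n (d + 1) := Iff.rfl

/-- entries on the superdiagonal `d + 1` -/
def MGA_pi (n d : ℕ) (u : UT n) (i : {i : Fin n // (i : ℕ) + d + 1 < n}) : ℚ :=
  (MGA_m u - 1) i.1 ⟨(i.1 : ℕ) + d + 1, i.2⟩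

theorem MGA_mul (n d : ℕ) (x y : UT n) (hx : x ∈ MGA_G n d) (hy : y ∈ MGA_G n d) :
    MGA_pi n d (x * y) = MGA_pi n d x + MGA_pi n d y := by
  funext i
  have h1 : ((MGA_m x - 1) * (MGA_m y - 1)) i.1 ⟨(i.1 : ℕ) + d + 1, i.2⟩ = 0 :=
    JJ_mul (MGA_memG.1 hx) (MGA_memG.1 hy) i.1 ⟨(i.1 : ℕ) + d + 1, i.2⟩ (by
      change (i.1 : ℕ) + d + 1 < (i.1 : ℕ) + ((d + 1) + (d + 1))
      omega)
  rw [Pi.add_apply]
  unfold MGA_pi
  rw [MGA_prod, Matrix.add_apply, Matrix.add_apply, h1, zero_add]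

theorem MGA_ker (n d : ℕ) (x : UT n) (hx : x ∈ MGA_G n d) :
    MGA_pi n d x = 0 ↔ x ∈ MGA_G n (d + 1) := by
  constructor
  · intro h
    rw [MGA_memG]
    intro i j hij
    by_cases h1 : (j : ℕ) < i + (d + 1)
    · exact MGA_memG.1 hx i j h1
    · have h2 : (j : ℕ) = i + d + 1 := by omega
      have h3 : (i : ℕ) + d + 1 < n := by
        have := j.isLt
        omega
      have h4 := congrFun h ⟨i, h3⟩
      have h5 : j = ⟨(i : ℕ) + d + 1, h3⟩ := Fin.ext h2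
      rw [h5]
      exact h4
  · intro h
    funext i
    exact MGA_memG.1 h i.1 ⟨(i.1 : ℕ) + d + 1, i.2⟩ (by
      change (i.1 : ℕ) + d + 1 < (i.1 : ℕ) + (d + 1 + 1)
      omega)

theorem MGA_surj (n d : ℕ) (m : {i : Fin n // (i : ℕ) + d + 1 < n} → ℚ) :
    ∃ x ∈ MGA_G n d, MGA_pi n d x = m := by
  classical
  obtain ⟨N, hN⟩ : ∃ N : Matrix (Fin n) (Fin n) ℚ, N = fun (i j : Fin n) =>
      if h : (i : ℕ) + d + 1 < n ∧ (j : ℕ) = i + d + 1 then m ⟨i, h.1⟩ else 0 := ⟨_, rfl⟩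
  have h1 : N ∈ JJ n (d + 1) := by
    intro i j hij
    rw [hN]
    exact dif_neg fun h => by omega
  obtain ⟨u, hu⟩ := ut_unit n N (JJ_mono (by omega) h1)
  have hu' : MGA_m u - 1 = N := by
    change ((u : (Matrix (Fin n) (Fin n) ℚ)ˣ) : Matrix (Fin n) (Fin n) ℚ) - 1 = N
    rw [hu, add_sub_cancel_left]
  refine ⟨u, ?_, ?_⟩
  · rw [MGA_memG, hu']
    exact h1
  · funext i
    unfold MGA_pi
    rw [hu', hN]
    exact dif_pos ⟨i.2, rfl⟩

theorem MGA_cm (n d : ℕ) (g x : UT n) (hx : x ∈ MGA_G n d) : g * x * g⁻¹ ∈ MGA_G n d := by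
  rw [MGA_memG]
  have h1 := JJ_mono (show d + 1 ≤ d + 2 by omega) (MGA_conj g x (MGA_memG.1 hx))
  have h2 := add_mem h1 (MGA_memG.1 hx)
  rwa [sub_add_cancel] at h2

theorem MGA_pc (n d : ℕ) (g x : UT n) (hx : x ∈ MGA_G n d) :
    MGA_pi n d (g * x * g⁻¹) = MGA_pi n d x := by
  funext i
  have h1 := MGA_conj g x (MGA_memG.1 hx) i.1 ⟨(i.1 : ℕ) + d + 1, i.2⟩ (by
      change (i.1 : ℕ) + d + 1 < (i.1 : ℕ) + (d + 2)
      omega)
  rw [Matrix.sub_apply, sub_eq_zero] at h1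
  exact h1

theorem ut_nf (n : ℕ) : Nonempty (NF (UT n)) := by
  refine ⟨{ Γ := MGA_G n
            zero := ?_
            anti := ?_
            ι := fun d => {i : Fin n // (i : ℕ) + d + 1 < n}
            π := MGA_pi n
            π_mul := MGA_mul n
            π_ker := MGA_ker n
            π_surj := MGA_surj n
            conj_mem := MGA_cm n
            π_conj := MGA_pc n
            sep := ?_ }⟩
  · rw [eq_top_iff]
    intro u _
    exact MGA_m_mem u
  · intro d x hx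
    exact JJ_mono (by omega) (MGA_memG.1 hx)
  · intro x hx
    have h1 := MGA_zero (by omega) (MGA_memG.1 (hx n))
    refine MGA_m_inj ?_
    rw [MGA_m_one]
    exact sub_eq_zero.1 h1

end Pool.Agent.H60.CI

end S_H62_CI_MGA

section S_H62_CI_MGC

/-!
# Row MGC (200 lines): a non-trivial element of a free group is detected by a unitriangular representation

PROOF.
(1) `syll`: every element of `FreeGroup α` is `(L.map fun p => FreeGroup.of p.1 ^ p.2).prod` for a list `L : List (α × ℤ)` with all `p.2 ≠ 0` and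
consecutive first entries distinct (`List.IsChain`, or `List.Pairwise` on neighbours). The set of such elements contains `1` (`L = []`) and is stable under left
multiplication by `FreeGroup.of x` and `(FreeGroup.of x)⁻¹`: if `L = (x, k) :: L'` replace it by `(x, k ± 1) :: L'` if `k ± 1 ≠ 0` and by `L'` otherwise; if the first
entry is not `x` (or `L = []`) take `(x, ± 1) :: L`. Every element is `FreeGroup.mk w` (`Quot.ind`): induction on the word `w`.
(2) Let `g ≠ 1`; then `L ≠ []`. Let `r = L.length`, `n = r + 1`, and let `a t, k t` (`t < r`) be the entries of `L`. For `x : α` let `N x` be the matrix with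
`(N x) i j = 1` if `j = i + 1` and `a i = x`, and 0 otherwise; `N x ∈ JJ n 1`. `N x * N x = 0`: an entry would need `a i = x = a (i + 1)`. So `(1 + N x) * (1 + q • N x) =
1 + (q + 1) • N x`. Let `u x : UT n` be the unit with matrix `1 + N x` (`ut_unit`); then the matrix of `(u x) ^ k` is `1 + k • N x` for all integers `k`
(`Int.induction_on`; inverse of `1 + q • N x` is `1 - q • N x`). Let `θ = FreeGroup.lift u`. The matrix of `θ g` is the product of the
`1 + k t • N (a t)`, `t = 0, …, r - 1`.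
(3) For `s ≤ r` let `P s` be the product of the first `s` factors. By induction on `s`: `(P s) 0 j = 0` for `j > s` and `(P s) 0 s = ∏ t < s, k t`:
`(P (s+1)) 0 j = (P s) 0 j + ∑ i, (P s) 0 i * k s * (N (a s)) i j`, where `(N (a s)) i j ≠ 0` only for `j = i + 1`, `a i = a s`; for `j = s + 1` only `i = s` matters.
So `(θ g) 0 r = ∏ k t ≠ 0`, and the entry `(0, r)` of the identity matrix is `0` as `r ≥ 1`. Hence `θ g ≠ 1`. The filtration is `ut_nf n`.
-/

set_option autoImplicit false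

namespace Pool.Agent.H60.CI

/-- syllable form of an element of the free group -/
def MGC_S {α : Type} (g : FreeGroup α) (L : List (α × ℤ)) : Prop :=
  (L.map fun p => FreeGroup.of p.1 ^ p.2).prod = g ∧ (∀ p ∈ L, p.2 ≠ 0) ∧
    L.IsChain (fun p q => p.1 ≠ q.1)

theorem MGC_chain {α : Type} (x : α) (k l : ℤ) (L : List (α × ℤ))
    (h : ((x, k) :: L).IsChain (fun p q => p.1 ≠ q.1)) :
    ((x, l) :: L).IsChain (fun p q => p.1 ≠ q.1) := by
  cases L with
  | nil => exact List.isChain_singleton _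
  | cons q L =>
    rw [List.isChain_cons_cons] at h ⊢
    exact h

theorem MGC_mul {α : Type} (x : α) (e : ℤ) (g : FreeGroup α) (L : List (α × ℤ))
    (h : MGC_S g L) : ∃ L', MGC_S (FreeGroup.of x ^ e * g) L' := by
  classical
  obtain ⟨h1, h2, h3⟩ := h
  subst h1
  by_cases he : e = 0
  · subst he
    exact ⟨L, by rw [zpow_zero, one_mul], h2, h3⟩
  cases L with
  | nil =>
    refine ⟨[(x, e)], ?_, ?_, List.isChain_singleton _⟩
    · simp
    · intro p hp
      rw [List.mem_singleton] at hp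
      rw [hp]
      exact he
  | cons q L =>
    obtain ⟨y, k⟩ := q
    by_cases hxy : x = y
    · subst hxy
      by_cases hk : e + k = 0
      · refine ⟨L, ?_, fun p hp => h2 p (List.mem_cons_of_mem _ hp), h3.tail⟩
        rw [List.map_cons, List.prod_cons, ← mul_assoc, ← zpow_add]
        rw [hk, zpow_zero, one_mul]
      · refine ⟨(x, e + k) :: L, ?_, ?_, MGC_chain x k (e + k) L h3⟩
        · rw [List.map_cons, List.prod_cons, List.map_cons, List.prod_cons, ← mul_assoc,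
            ← zpow_add]
        · intro p hp
          rcases List.mem_cons.1 hp with h4 | h4
          · rw [h4]
            exact hk
          · exact h2 p (List.mem_cons_of_mem _ h4)
    · refine ⟨(x, e) :: (y, k) :: L, ?_, ?_, ?_⟩
      · rw [List.map_cons, List.prod_cons]
      · intro p hp
        rcases List.mem_cons.1 hp with h4 | h4
        · rw [h4]
          exact he
        · exact h2 p h4
      · rw [List.isChain_cons_cons]
        exact ⟨hxy, h3⟩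

theorem MGC_syll {α : Type} (g : FreeGroup α) : ∃ L, MGC_S g L := by
  obtain ⟨w, rfl⟩ : ∃ w, FreeGroup.mk w = g := Quot.exists_rep g
  induction w with
  | nil =>
    exact ⟨[], rfl, fun p hp => absurd hp List.not_mem_nil, List.isChain_nil⟩
  | cons p w ih =>
    obtain ⟨x, b⟩ := p
    obtain ⟨L, hL⟩ := ih
    cases b with
    | true =>
      obtain ⟨L', hL'⟩ := MGC_mul x 1 _ L hL
      refine ⟨L', ?_⟩
      rw [zpow_one] at hL'
      exact hL'
    | false =>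
      obtain ⟨L', hL'⟩ := MGC_mul x (-1) _ L hL
      refine ⟨L', ?_⟩
      rw [zpow_neg_one] at hL'
      exact hL'

open Classical in
/-- the elementary nilpotent matrices -/
noncomputable def MGC_N {α : Type} (n : ℕ) (a : ℕ → α) (x : α) : Matrix (Fin n) (Fin n) ℚ :=
  fun i j => if (j : ℕ) = i + 1 ∧ a i = x then 1 else 0

theorem MGC_N_JJ {α : Type} (n : ℕ) (a : ℕ → α) (x : α) : MGC_N n a x ∈ JJ n 1 := by
  intro i j h
  unfold MGC_N
  rw [if_neg]
  rintro ⟨h1, -⟩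
  omega

theorem MGC_N_sum {α : Type} (n : ℕ) (a : ℕ → α) (x : α) (i : Fin n) (hi : (i : ℕ) + 1 < n)
    (v : Fin n → ℚ) :
    ∑ j, MGC_N n a x i j * v j = open Classical in if a i = x then v ⟨i + 1, hi⟩ else 0 := by
  classical
  rw [Finset.sum_eq_single (⟨(i : ℕ) + 1, hi⟩ : Fin n)]
  · unfold MGC_N
    split_ifs with h1 h2 h2
    · rw [one_mul]
    · exact absurd h1.2 h2
    · exact absurd ⟨rfl, h2⟩ h1
    · rw [zero_mul]
  · intro j _ hj
    unfold MGC_N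
    rw [if_neg, zero_mul]
    rintro ⟨h1, -⟩
    exact hj (Fin.ext h1)
  · intro h
    exact absurd (Finset.mem_univ _) h

theorem MGC_N_sq {α : Type} (n : ℕ) (a : ℕ → α) (x : α)
    (ha : ∀ t, t + 2 < n → a t ≠ a (t + 1)) : MGC_N n a x * MGC_N n a x = 0 := by
  ext i j
  rw [Matrix.mul_apply, Matrix.zero_apply]
  refine Finset.sum_eq_zero fun k _ => ?_
  by_cases h : ((k : ℕ) = i + 1 ∧ a i = x) ∧ ((j : ℕ) = k + 1 ∧ a k = x)
  · exfalso
    obtain ⟨⟨h1, h2⟩, h3, h4⟩ := h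
    have h5 := j.2
    refine ha i (by omega) ?_
    rw [h2, ← h4, h1]
  · rw [not_and_or] at h
    unfold MGC_N
    rcases h with h | h
    · rw [if_neg h, zero_mul]
    · rw [if_neg h, mul_zero]

theorem MGC_zpow {n : ℕ} (U : (Matrix (Fin n) (Fin n) ℚ)ˣ) (N : Matrix (Fin n) (Fin n) ℚ)
    (hU : (U : Matrix (Fin n) (Fin n) ℚ) = 1 + N) (hN : N * N = 0) (k : ℤ) :
    ((U ^ k : (Matrix (Fin n) (Fin n) ℚ)ˣ) : Matrix (Fin n) (Fin n) ℚ) = 1 + (k : ℚ) • N := by
  have hinv : ((U⁻¹ : (Matrix (Fin n) (Fin n) ℚ)ˣ) : Matrix (Fin n) (Fin n) ℚ) = 1 - N := by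
    refine Units.inv_eq_of_mul_eq_one_right ?_
    rw [hU]
    have h1 : (1 + N) * (1 - N) = 1 - N * N := by noncomm_ring
    rw [h1, hN, sub_zero]
  induction k using Int.induction_on with
  | zero => simp
  | succ k ih =>
    rw [zpow_add_one, Units.val_mul, ih, hU]
    have h1 : (1 + ((k : ℤ) : ℚ) • N) * (1 + N) = 1 + N + ((k : ℤ) : ℚ) • N +
        ((k : ℤ) : ℚ) • (N * N) := by
      rw [add_mul, one_mul, mul_add, mul_one, smul_mul_assoc]
      abel
    rw [h1, hN, smul_zero, add_zero]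
    push_cast
    rw [add_smul, one_smul]
    abel
  | pred k ih =>
    rw [zpow_sub_one, Units.val_mul, ih, hinv]
    have h1 : (1 + ((-(k : ℤ) : ℤ) : ℚ) • N) * (1 - N) = 1 - N + ((-(k : ℤ) : ℤ) : ℚ) • N -
        ((-(k : ℤ) : ℤ) : ℚ) • (N * N) := by
      rw [add_mul, one_mul, mul_sub, mul_one, smul_mul_assoc]
      abel
    rw [h1, hN, smul_zero, sub_zero]
    push_cast
    rw [sub_smul, one_smul]
    abel

/-- the corner entry -/
theorem MGC_corner {α : Type} (r : ℕ) (a : ℕ → α) (M : List (α × ℤ)) :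
    ∀ s : ℕ, s + M.length = r → (∀ t (h : t < M.length), a (s + t) = (M[t]).1) →
      (∀ i : Fin (r + 1), (i : ℕ) < s →
        (M.map fun p => 1 + (p.2 : ℚ) • MGC_N (r + 1) a p.1).prod i (Fin.last r) = 0) ∧
      ∀ i : Fin (r + 1), (i : ℕ) = s →
        (M.map fun p => 1 + (p.2 : ℚ) • MGC_N (r + 1) a p.1).prod i (Fin.last r) =
          (M.map fun p => (p.2 : ℚ)).prod := by
  induction M with
  | nil =>
    intro s hs _
    rw [List.length_nil, add_zero] at hs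
    rw [List.map_nil, List.prod_nil, List.map_nil, List.prod_nil]
    refine ⟨fun i hi => Matrix.one_apply_ne ?_, fun i hi => ?_⟩
    · intro h
      rw [h, Fin.val_last] at hi
      omega
    · have h : i = Fin.last r := Fin.ext (by rw [Fin.val_last]; omega)
      rw [h, Matrix.one_apply_eq]
  | cons p M ih =>
    intro s hs ha
    rw [List.length_cons] at hs
    obtain ⟨ih1, ih2⟩ := ih (s + 1) (by omega) (fun t h => by
      have h1 := ha (t + 1) (by rw [List.length_cons]; omega)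
      rw [List.getElem_cons_succ] at h1
      rw [← h1]
      congr 1
      omega)
    have ha0 : a s = p.1 := ha 0 (by rw [List.length_cons]; omega)
    have key : ∀ i : Fin (r + 1), (i : ℕ) ≤ s → ∀ hi : (i : ℕ) + 1 < r + 1,
        ((p :: M).map fun p => 1 + (p.2 : ℚ) • MGC_N (r + 1) a p.1).prod i (Fin.last r) =
          (M.map fun p => 1 + (p.2 : ℚ) • MGC_N (r + 1) a p.1).prod i (Fin.last r) +
            (p.2 : ℚ) * (open Classical in if a i = p.1 then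
              (M.map fun p => 1 + (p.2 : ℚ) • MGC_N (r + 1) a p.1).prod ⟨i + 1, hi⟩
                (Fin.last r) else 0) := by
      intro i _ hi
      rw [List.map_cons, List.prod_cons, add_mul, one_mul, smul_mul_assoc, Matrix.add_apply,
        Matrix.smul_apply, Matrix.mul_apply, smul_eq_mul, MGC_N_sum _ _ _ i hi]
    refine ⟨fun i hi => ?_, fun i hi => ?_⟩
    · rw [key i (by omega) (by omega), ih1 i (by omega), zero_add]
      split_ifs with h
      · rw [ih1 ⟨i + 1, _⟩ (by show (i : ℕ) + 1 < s + 1; omega), mul_zero]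
      · rw [mul_zero]
    · rw [key i (by omega) (by omega), ih1 i (by omega), zero_add,
        if_pos (show a (i : ℕ) = p.1 by rw [hi]; exact ha0),
        ih2 ⟨i + 1, _⟩ (by show (i : ℕ) + 1 = s + 1; omega), List.map_cons, List.prod_cons]

theorem magnus {α : Type} (g : FreeGroup α) (hg : g ≠ 1) :
    ∃ (G : Type) (_ : Group G) (_ : Nonempty (NF G)) (θ : FreeGroup α →* G), θ g ≠ 1 := by
  classical
  obtain ⟨L, h1, h2, h3⟩ := MGC_syll g
  have hL : L ≠ [] := by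
    rintro rfl
    exact hg h1.symm
  obtain ⟨r, hr⟩ : ∃ r, r = L.length := ⟨_, rfl⟩
  have hr0 : 0 < r := by
    rw [hr]
    exact List.length_pos_iff.2 hL
  obtain ⟨a, ha⟩ : ∃ a : ℕ → α, ∀ t (h : t < L.length), a t = (L[t]).1 := by
    refine ⟨fun t => if h : t < L.length then (L[t]).1 else (L[0]'(by omega)).1, fun t h => ?_⟩
    exact dif_pos h
  have hsq : ∀ x, MGC_N (r + 1) a x * MGC_N (r + 1) a x = 0 := by
    intro x
    refine MGC_N_sq _ _ _ fun t ht => ?_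
    rw [List.isChain_iff_getElem] at h3
    rw [ha t (by omega), ha (t + 1) (by omega)]
    exact h3 t (by omega)
  choose u hu using fun x => ut_unit (r + 1) (MGC_N (r + 1) a x) (MGC_N_JJ _ _ _)
  refine ⟨UT (r + 1), inferInstance, ut_nf (r + 1), FreeGroup.lift u, fun hθ => ?_⟩
  obtain ⟨Ψ, hΨ⟩ : ∃ Ψ : FreeGroup α →* Matrix (Fin (r + 1)) (Fin (r + 1)) ℚ,
      ∀ g, Ψ g = ((FreeGroup.lift u g : (Matrix (Fin (r + 1)) (Fin (r + 1)) ℚ)ˣ) :
        Matrix (Fin (r + 1)) (Fin (r + 1)) ℚ) :=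
    ⟨((Units.coeHom _).comp (UT (r + 1)).subtype).comp (FreeGroup.lift u), fun g => rfl⟩
  have hΨ2 : ∀ p : α × ℤ, Ψ (FreeGroup.of p.1 ^ p.2) =
      1 + (p.2 : ℚ) • MGC_N (r + 1) a p.1 := by
    intro p
    rw [hΨ, map_zpow, FreeGroup.lift_apply_of, Subgroup.coe_zpow]
    exact MGC_zpow _ _ (hu p.1) (hsq p.1) p.2
  have h4 : Ψ g = (L.map fun p => 1 + (p.2 : ℚ) • MGC_N (r + 1) a p.1).prod := by
    rw [← h1, map_list_prod, List.map_map]
    congr 1
    exact List.map_congr_left fun p _ => hΨ2 p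
  have h5 : Ψ g = 1 := by
    rw [hΨ, hθ]
    rfl
  obtain ⟨-, h6⟩ := MGC_corner r a L 0 (by omega) (fun t h => by rw [zero_add]; exact ha t h)
  have h7 := h6 0 rfl
  rw [← h4, h5, Matrix.one_apply_ne] at h7
  · have h8 : (L.map fun p => (p.2 : ℚ)).prod ≠ 0 := by
      rw [Ne, List.prod_eq_zero_iff, List.mem_map]
      rintro ⟨p, hp, hp2⟩
      exact h2 p hp (by exact_mod_cast hp2)
    exact h8 h7.symm
  · intro h
    have h9 := congrArg Fin.val h
    rw [Fin.val_last] at h9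
    change 0 = r at h9
    omega

end Pool.Agent.H60.CI

end S_H62_CI_MGC

section S_H62_CI_TIE

/-!
# Row TIE (120 lines): Tietze elimination with free faces

PROOF. By induction on the number of elements of the finite set `T` (`Set.Finite.induction_on` does not fit directly: do induction on `T.ncard`, for all `g`).
`T = ∅`: then the normal closure is trivial, `g ≠ 1`; use `magnus`.
`T ≠ ∅`: apply `hff` to `S = T`: `σ ∈ T`, `r σ = w₁ ++ a :: w₂`, the letter `s = a.1` does not occur in `w₁, w₂` nor in `r σ'` for the other `σ' ∈ T`. Let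
`u = mk w₁`, `v = mk w₂`, so `mk (r σ) = u * (of s)^{±1} * v` (sign given by `a.2`). Let `η : FreeGroup α →* FreeGroup α` be the lift of the function which sends `s` to
`(u⁻¹ * v⁻¹)^{±1}` (same sign) and every other letter `t` to `of t`. Then
(1) `η (mk w) = mk w` for every word `w` in which `s` does not occur (induction on `w`). So `η (mk (r σ)) = u * (u⁻¹ * v⁻¹) * v = 1` and
`η (mk (r σ')) = mk (r σ')` for `σ' ∈ T`, `σ' ≠ σ`.
(2) For all `x`: `η x * x⁻¹` (equivalently: the classes of `η x` and `x` in the quotient by the normal closure of `mk (r σ)` agree): two homomorphisms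
`FreeGroup α →* FreeGroup α ⧸ normalClosure {mk (r σ)}` which agree on the generators (`FreeGroup.ext_hom`); for the generator `s` this is
`u⁻¹ v⁻¹ ≡ (of s)^{±1}` because `u (of s)^{±1} v ≡ 1`.
(3) `η g` is not in the normal closure of `T' = T \ {σ}`: otherwise `η g` is in the normal closure of `T`, and so is `g` by (2).
By induction (`hff` is inherited by `T' ⊆ T`) there are `G`, `θ'` with `θ' (mk (r σ')) = 1` for `σ' ∈ T'` and `θ' (η g) ≠ 1`. Put `θ = θ'.comp η`: it kills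
`mk (r σ)` and the other `mk (r σ')` by (1), and `θ g ≠ 1`.
-/

set_option autoImplicit false

namespace Pool.Agent.H60.CI

theorem TIE_cons {α : Type} (c : α × Bool) (w : List (α × Bool)) :
    FreeGroup.mk (c :: w) = FreeGroup.mk [c] * FreeGroup.mk w := by
  rw [FreeGroup.mul_mk]
  rfl

theorem tietze {α β : Type} (r : β → List (α × Bool)) (T : Set β) (hT : T.Finite)
    (hff : ∀ S : Set β, S ⊆ T → S.Nonempty → ∃ σ ∈ S, ∃ w₁ a w₂, r σ = w₁ ++ a :: w₂ ∧
      (∀ c ∈ w₁ ++ w₂, c.1 ≠ a.1) ∧ ∀ σ' ∈ S, σ' ≠ σ → ∀ c ∈ r σ', c.1 ≠ a.1)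
    (g : FreeGroup α) (hg : g ∉ Subgroup.normalClosure ((fun b => FreeGroup.mk (r b)) '' T)) :
    ∃ (G : Type) (_ : Group G) (_ : Nonempty (NF G)) (θ : FreeGroup α →* G),
      (∀ b ∈ T, θ (FreeGroup.mk (r b)) = 1) ∧ θ g ≠ 1 := by
  classical
  obtain ⟨n, hn⟩ : ∃ n, T.ncard = n := ⟨_, rfl⟩
  induction n generalizing T g with
  | zero =>
    have hT0 : T = ∅ := (Set.ncard_eq_zero hT).1 hn
    have hg1 : g ≠ 1 := by
      rintro rfl
      exact hg (one_mem _)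
    obtain ⟨G, hG, hNF, θ, hθ⟩ := magnus g hg1
    refine ⟨G, hG, hNF, θ, ?_, hθ⟩
    intro b hb
    rw [hT0] at hb
    exact absurd hb (Set.notMem_empty b)
  | succ n ih =>
    have hne : T.Nonempty := by
      rw [Set.nonempty_iff_ne_empty]
      rintro rfl
      simp at hn
    obtain ⟨σ, hσ, w₁, a, w₂, hr, h1, h2⟩ := hff T (fun _ h => h) hne
    obtain ⟨s, b⟩ := a
    obtain ⟨u, hu⟩ : ∃ u : FreeGroup α, u = FreeGroup.mk w₁ := ⟨_, rfl⟩
    obtain ⟨v, hv⟩ : ∃ v : FreeGroup α, v = FreeGroup.mk w₂ := ⟨_, rfl⟩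
    have hrel : FreeGroup.mk (r σ) = u * (FreeGroup.mk [(s, b)] * v) := by
      rw [hr, ← FreeGroup.mul_mk, TIE_cons, hu, hv]
    obtain ⟨η, hη⟩ : ∃ η : FreeGroup α →* FreeGroup α, η = FreeGroup.lift
      (fun t => if t = s then (if b then u⁻¹ * v⁻¹ else (u⁻¹ * v⁻¹)⁻¹) else FreeGroup.of t) :=
      ⟨_, rfl⟩
    have hηs : η (FreeGroup.mk [(s, b)]) = u⁻¹ * v⁻¹ := by
      rw [hη]
      cases b <;> simp [FreeGroup.lift_mk]
    have hηt : ∀ t, t ≠ s → η (FreeGroup.of t) = FreeGroup.of t := by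
      intro t ht
      rw [hη, FreeGroup.lift_apply_of, if_neg ht]
    have hη1 : ∀ w : List (α × Bool), (∀ c ∈ w, c.1 ≠ s) → η (FreeGroup.mk w) = FreeGroup.mk w := by
      intro w
      induction w with
      | nil => intro _; exact map_one η
      | cons c w ihw =>
        intro hc
        rw [TIE_cons, map_mul, ihw fun c' hc' => hc c' (List.mem_cons_of_mem _ hc')]
        congr 1
        obtain ⟨t, b'⟩ := c
        have ht : t ≠ s := hc (t, b') List.mem_cons_self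
        cases b' with
        | true => exact hηt t ht
        | false =>
          have h3 : (FreeGroup.mk [(t, false)] : FreeGroup α) = (FreeGroup.of t)⁻¹ := rfl
          rw [h3, map_inv, hηt t ht]
    have hu1 : η u = u := by
      rw [hu]
      exact hη1 w₁ fun c hc => h1 c (List.mem_append_left _ hc)
    have hv1 : η v = v := by
      rw [hv]
      exact hη1 w₂ fun c hc => h1 c (List.mem_append_right _ hc)
    have hησ : η (FreeGroup.mk (r σ)) = 1 := by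
      rw [hrel, map_mul, map_mul, hηs, hu1, hv1]
      group
    -- the quotient
    obtain ⟨N, hN⟩ : ∃ N : Subgroup (FreeGroup α),
      N = Subgroup.normalClosure ((fun b => FreeGroup.mk (r b)) '' T) := ⟨_, rfl⟩
    have hNn : N.Normal := by
      rw [hN]
      exact Subgroup.normalClosure_normal
    rw [← hN] at hg
    have hσN : FreeGroup.mk (r σ) ∈ N := by
      rw [hN]
      exact Subgroup.subset_normalClosure ⟨σ, hσ, rfl⟩
    have hφ : (QuotientGroup.mk' N).comp η = QuotientGroup.mk' N := by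
      have h3 : QuotientGroup.mk' N (FreeGroup.mk [(s, b)]) = QuotientGroup.mk' N (u⁻¹ * v⁻¹) := by
        have h4 : QuotientGroup.mk' N (FreeGroup.mk (r σ)) = 1 := by
          rw [QuotientGroup.mk'_apply, QuotientGroup.eq_one_iff]
          exact hσN
        rw [hrel, map_mul, map_mul] at h4
        rw [map_mul, map_inv, map_inv, eq_mul_inv_iff_mul_eq, eq_inv_iff_mul_eq_one]
        exact mul_eq_one_iff_eq_inv.2 (eq_inv_of_mul_eq_one_right h4)
      refine FreeGroup.ext_hom _ _ fun t => ?_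
      show QuotientGroup.mk' N (η (FreeGroup.of t)) = QuotientGroup.mk' N (FreeGroup.of t)
      by_cases ht : t = s
      · subst ht
        cases b with
        | true =>
          have h5 : (FreeGroup.of t : FreeGroup α) = FreeGroup.mk [(t, true)] := rfl
          rw [h5, hηs, h3]
        | false =>
          have h5 : (FreeGroup.of t : FreeGroup α) = (FreeGroup.mk [(t, false)])⁻¹ := rfl
          rw [h5, map_inv, hηs, map_inv, map_inv, h3]
      · rw [hηt t ht]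
    have hT'ncard : (T \ {σ}).ncard = n := by
      have h3 := Set.ncard_sdiff_singleton_add_one hσ hT
      omega
    have hT'sub : T \ {σ} ⊆ T := Set.sdiff_subset
    have hg' : η g ∉ Subgroup.normalClosure ((fun b => FreeGroup.mk (r b)) '' (T \ {σ})) := by
      intro hcon
      have h3 : η g ∈ N := by
        rw [hN]
        exact Subgroup.normalClosure_mono (Set.image_mono hT'sub) hcon
      have h4 : QuotientGroup.mk' N (η g) = 1 := by
        rw [QuotientGroup.mk'_apply, QuotientGroup.eq_one_iff]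
        exact h3
      have h5 : QuotientGroup.mk' N g = 1 := by
        rw [← h4]
        exact (DFunLike.congr_fun hφ g).symm
      rw [QuotientGroup.mk'_apply, QuotientGroup.eq_one_iff] at h5
      exact hg h5
    obtain ⟨G, hG, hNF, θ', h3, h4⟩ := ih (T \ {σ}) (hT.subset hT'sub)
      (fun S hS hSne => hff S (hS.trans hT'sub) hSne) (η g) hg' hT'ncard
    refine ⟨G, hG, hNF, θ'.comp η, ?_, h4⟩
    intro b' hb'
    by_cases hbσ : b' = σ
    · show θ' (η (FreeGroup.mk (r b'))) = 1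
      rw [hbσ, hησ, map_one]
    · show θ' (η (FreeGroup.mk (r b'))) = 1
      rw [hη1 (r b') (h2 b' hb' hbσ)]
      exact h3 b' ⟨hb', hbσ⟩

end Pool.Agent.H60.CI

end S_H62_CI_TIE

section S_H50_CI_SE

/-!
# Assembly of Section 5: finite closure implies weak simple connectivity
-/

noncomputable section NC_H50_CI_SE1

set_option autoImplicit false
set_option linter.unusedVariables false

namespace Pool.Agent.H60.CI

/-- the lollipop tree of a list of lollipops -/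
def LD.ofList {B : Cpx} (Z : Im B) (v : Z.V) (C : List (List (B.E × Bool) × B.F × Bool))
    (hC : ∀ t ∈ C, B.Walk (Z.p v) t.1 (B.base t.2.1)) : LD Z where
  v := v
  T := {u | u = [] ∨ ∃ t ∈ C, u <+: t.1 ++ B.bd t.2.1}
  nil_mem := Or.inl rfl
  pre := by
    rintro u a (h | ⟨t, ht, h⟩)
    · simp at h
    · exact Or.inr ⟨t, ht, (List.prefix_append u [a]).trans h⟩
  walk := by
    rintro u (h | ⟨t, ht, h⟩)
    · exact ⟨Z.p v, by subst h; rfl⟩
    · obtain ⟨w, hw⟩ := h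
      have h1 : B.Walk (Z.p v) (t.1 ++ B.bd t.2.1) (B.base t.2.1) :=
        isWalk_append.2 ⟨_, hC t ht, B.bd_walk _⟩
      rw [← hw] at h1
      obtain ⟨y, hy, _⟩ := isWalk_append.1 h1
      exact ⟨y, hy⟩
  M := {m | ∃ t ∈ C, m = (t.1, t.2.1)}
  M_walk := by
    rintro _ ⟨t, ht, rfl⟩
    exact hC t ht
  M_mem := by
    rintro _ ⟨t, ht, rfl⟩
    exact Or.inr ⟨t, ht, List.prefix_rfl⟩

theorem LD.ofList_T {B : Cpx} (Z : Im B) (v : Z.V) (C : List (List (B.E × Bool) × B.F × Bool))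
    (hC : ∀ t ∈ C, B.Walk (Z.p v) t.1 (B.base t.2.1)) : (LD.ofList Z v C hC).T.Finite := by
  have h1 : ({u | ∃ t ∈ C, u <+: t.1 ++ B.bd t.2.1} : Set (List (B.E × Bool))).Finite := by
    have h2 : ∀ t : List (B.E × Bool) × B.F × Bool,
        ({u | u <+: t.1 ++ B.bd t.2.1} : Set (List (B.E × Bool))).Finite := by
      intro t
      refine (List.finite_toSet (t.1 ++ B.bd t.2.1).inits).subset ?_
      intro u hu
      exact (List.mem_inits _ _).2 hu
    refine ((List.finite_toSet C).biUnion fun t _ => h2 t).subset ?_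
    rintro u ⟨t, ht, h⟩
    exact Set.mem_biUnion ht h
  refine ((Set.finite_singleton ([] : List (B.E × Bool))).union h1).subset ?_
  rintro u (h | h)
  · exact Or.inl h
  · exact Or.inr h

theorem LD.ofList_M {B : Cpx} (Z : Im B) (v : Z.V) (C : List (List (B.E × Bool) × B.F × Bool))
    (hC : ∀ t ∈ C, B.Walk (Z.p v) t.1 (B.base t.2.1)) : (LD.ofList Z v C hC).M.Finite := by
  refine ((List.finite_toSet C).image fun t => (t.1, t.2.1)).subset ?_
  rintro _ ⟨t, ht, rfl⟩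
  exact ⟨t, ht, rfl⟩

variable {H : Type} [Group H] {B : HCpx H}

theorem weakSC_of_fc (hSC : B.LolliSC) (hDR : B.DR) (Z : HIm B) (hG : Z.Good)
    (hfc : ∀ R : Setoid Z.V, Z.toPC.Cong R →
      (∃ S : Set (Z.V →₀ ℚ), S.Finite ∧ Z.toPC.KK R ≤ Z.toPC.DD R ⊔ Submodule.span ℚ S) →
      {x : Z.V | ∃ y, y ≠ x ∧ R x y}.Finite) : Z.toHCpx.WeakSC := by
  classical
  intro v w hw
  have hw1 : B.Walk (Z.p v) (w.map (Prod.map Z.epr id)) (Z.p v) := Z.toPC.p_W (Z.toPC.W_of_walk hw)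
  obtain ⟨C, hC, he⟩ := hSC (Z.p v) (w.map (Prod.map Z.epr id)) hw1
  let L : LD Z.toIm := LD.ofList Z.toIm v C hC
  have hT : L.T.Finite := LD.ofList_T _ _ _ _
  have hM : L.M.Finite := LD.ofList_M _ _ _ _
  have hV := hfc L.R L.R_cong (L.fd hT hM)
  set V0 : Set Z.V := {x : Z.V | ∃ y, y ≠ x ∧ L.R x y} with hV0
  let M1 : Set Z.Mks := {τ | Z.mbase τ ∈ V0 ∨ L.io.fm τ ∈ L.MC}
  have key : ∀ τ τ' : Z.Mks, Z.mbase τ ∉ V0 → L.io.fm τ' = L.io.fm τ → τ' = τ := by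
    intro τ τ' h1 h2
    have h3 : L.io.f (Z.mbase τ') = L.io.f (Z.mbase τ) := congrArg L.B2.mbase h2
    have h4 : Z.mpr τ' = Z.mpr τ := congrArg L.B2.mpr h2
    refine Z.toPC.mks_ext ?_ h4
    by_contra h5
    exact h1 ⟨Z.mbase τ', h5, h3.symm⟩
  have hM1 : M1.Finite := by
    have h1 : ({τ | Z.mbase τ ∈ V0} : Set Z.Mks).Finite := by
      have h2 : ∀ x : Z.V, ({τ | Z.mbase τ = x} : Set Z.Mks).Finite := by
        intro x
        refine Set.Finite.of_finite_image ((hG.fin.mks x).subset ?_) ?_ (f := Z.mpr)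
        · rintro _ ⟨τ, hτ, rfl⟩
          have h3 : Z.mark (Z.mbase τ) (Z.mpr τ) := τ.2
          have h4 : Z.mbase τ = x := hτ
          rw [h4] at h3
          exact h3
        · intro τ hτ τ' hτ' h
          exact Z.toPC.mks_ext (hτ.trans hτ'.symm) h
      refine (hV.biUnion fun x _ => h2 x).subset ?_
      intro τ hτ
      exact Set.mem_biUnion hτ rfl
    have h2 : ({τ | Z.mbase τ ∉ V0 ∧ L.io.fm τ ∈ L.MC} : Set Z.Mks).Finite := by
      refine Set.Finite.of_finite_image ((L.MC_finite hM).subset ?_) ?_ (f := L.io.fm)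
      · rintro _ ⟨τ, hτ, rfl⟩
        exact hτ.2
      · intro τ hτ τ' hτ' h
        exact key τ' τ hτ'.1 h
    refine (h1.union h2).subset ?_
    rintro τ (hτ | hτ)
    · exact Or.inl hτ
    · by_cases h3 : Z.mbase τ ∈ V0
      · exact Or.inl h3
      · exact Or.inr ⟨h3, hτ⟩
  let I2 : Set L.B2.Mks := L.io.fm '' M1 ∪ L.MC
  have hinj : ∀ τ τ' : Z.Mks, τ ∉ M1 → L.io.fm τ' = L.io.fm τ → τ' = τ := by
    intro τ τ' h1 h2
    exact key τ τ' (fun h => h1 (Or.inl h)) h2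
  have hI : ∀ τ : Z.Mks, τ ∉ M1 → L.io.fm τ ∉ I2 := by
    rintro τ h1 (⟨τ', h2, h3⟩ | h2)
    · have h4 := hinj τ τ' h1 h3
      rw [h4] at h2
      exact h1 h2
    · exact h1 (Or.inr h2)
  have h2z : L.B2.toCpx.H2z := H2z_of_DR (DR_im hDR L.B2)
  have hmem : FreeGroup.mk w ∈ Subgroup.normalClosure
      (Set.range fun i : {τ // τ ∈ M1} => FreeGroup.mk (Z.bdw i.1)) := by
    refine gauge_fin Z.esrc Z.etgt L.io.fe (fun i : {τ // τ ∈ M1} => Z.bdw i.1)
      (fun i : {m // m ∈ I2} => L.B2.bdw i.1)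
      (fun i => ⟨L.io.fm i.1, Or.inl ⟨i.1, i.2, rfl⟩⟩) ?_ ?_ ?_ ?_ ?_ v w hw ?_
    · intro i
      exact (L.io.hom.bd_e i.1).symm
    · intro i
      exact ⟨_, Z.bdw_walk i.1⟩
    · intro a ha
      obtain ⟨b, θ, h1, h2⟩ := Cpx.coh1 L.io.hom hG.conn hG.h1 h2z M1 I2 hinj hI a
        (fun τ hτ => ha ⟨τ, hτ⟩)
      exact ⟨b, θ, fun i => h1 i.1 i.2, h2⟩
    · intro δ
      obtain ⟨b, hb⟩ := Cpx.coh2 h2z (fun m => if h : m ∈ I2 then δ ⟨m, h⟩ else 0)
      refine ⟨b, fun i => ?_⟩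
      have h1 := hb i.1
      rw [dif_pos i.2] at h1
      exact h1
    · intro h hh
      have h3 : h ∉ Subgroup.normalClosure ((fun b : Z.Mks => FreeGroup.mk (Z.bdw b)) '' M1) := by
        intro h4
        apply hh
        have h5 : (Set.range fun i : {τ // τ ∈ M1} => FreeGroup.mk (Z.bdw i.1)) =
            (fun b : Z.Mks => FreeGroup.mk (Z.bdw b)) '' M1 := by
          ext x
          constructor
          · rintro ⟨i, rfl⟩
            exact ⟨i.1, i.2, rfl⟩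
          · rintro ⟨τ, hτ, rfl⟩
            exact ⟨⟨τ, hτ⟩, rfl⟩
        rw [h5]
        exact h4
      obtain ⟨G, hGr, hNF, θ, h6, h7⟩ := tietze Z.bdw M1 hM1
        (fun S hS hne => DR_im hDR Z.toIm S (hM1.subset hS) hne) h h3
      exact ⟨G, hGr, hNF, θ, fun i => h6 i.1 i.2, h7⟩
    · have h3 := L.closed_mem w hw C (fun t ht => ⟨t, ht, rfl⟩) he
      refine Subgroup.normalClosure_mono ?_ h3
      rintro _ ⟨m, hm, rfl⟩
      exact ⟨⟨m, Or.inr hm⟩, rfl⟩
  refine Subgroup.normalClosure_mono ?_ hmem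
  rintro _ ⟨i, rfl⟩
  exact ⟨i.1, rfl⟩

end Pool.Agent.H60.CI

end NC_H50_CI_SE1

end S_H50_CI_SE
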