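import Mathlib
import Pool.Agent.H62.CI.M1

set_option autoImplicit false

/-! Coherence of complexes with collapsing nonpositive immersions, M4: this file joins several modules. -/

section S_H60_CI_ChA

/-!
# Row ChA: chain maps; the homology of a quotient by a congruence

`I : Im B`, `R` a congruence, `Y = I.quo R hR`, `m = I.quoMor R hR : I → Y`, `m.fe`, `m.fm` the maps on
edges and marks.  Chains `L1 : C_1 → C_0`, `L2 : C_2 → C_1`.

* `Hom.L1_map`, `Hom.L2_map`: linear in the chain, check on `single` (`src_v`, `tgt_v`, `bd_e`,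
  `mapDomain_wch`).
* `mapDomain_ker`: if `mapDomain f z = 0` then `z` lies in the span of the `single s 1 - single s' 1`
  with `f s = f s'`.  Proof: choose for every value a representative: `r s` with `f (r s) = f s`,
  depending only on `f s` (`r = g ∘ f`); `z = Σ z_s (single s - single (r s)) + Σ z_s single (r s)` and the
  last sum is `mapDomain g (mapDomain f z) = 0`.
* `fe_surj`, `fm_surj`: by definition of the quotient.  `fe_eq`: two edges have the same image iff they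
  lie over the same edge of `B` and their sources are `R`-related (targets: `hR.fwd`).
* `link1`: `L1 v ∈ DD R` and `H1z I` imply `mapDomain fe v ∈ range L2` (of `Y`): `DD R` is spanned by
  `L1 (single ε 1 - single ε' 1)` with `fe ε = fe ε'`, so `L1 v = L1 k` with `mapDomain fe k = 0`;
  `L1 (v - k) = 0`, so `v - k = L2 c` and `mapDomain fe v = mapDomain fe (L2 c) = L2 (mapDomain fm c)`.
* `link2`: if `mapDomain fe v = L2 c'` then `c' = mapDomain fm c` (`fm_surj`), so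
  `mapDomain fe (v - L2 c) = 0`; by `mapDomain_ker` and `fe_eq`, `v - L2 c` is a combination of
  `single ε 1 - single ε' 1` with `fe ε = fe ε'`, so `L1 v = L1 (v - L2 c) ∈ DD R`.
* `quo_H1z`: suppose `y - x ∈ DD R` whenever `R x y`, and `H1z I`.  Let `z` be a 1-cycle of `Y`;
  `z = mapDomain fe v`; `mapDomain m.f (L1 v) = 0`, so `L1 v` is a combination of `y - x` with
  `R x y`, so `L1 v ∈ DD R`; `link1`.
-/

noncomputable section NC_H60_CI_ChA1

namespace Pool.Agent.H60.CI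

open Finsupp

theorem Cpx.Hom.L1_map {Y X : Cpx} (φ : Cpx.Hom Y X) (z : Y.E →₀ ℚ) :
    X.L1 (z.mapDomain φ.e) = (Y.L1 z).mapDomain φ.v := by
  induction z using Finsupp.induction_linear with
  | zero => simp
  | add f g hf hg => rw [Finsupp.mapDomain_add, map_add, map_add, Finsupp.mapDomain_add, hf, hg]
  | single ε r =>
    rw [Finsupp.mapDomain_single]
    simp only [Cpx.L1, Finsupp.linearCombination_single]
    rw [Finsupp.mapDomain_smul]
    congr 1
    simp only [Cpx.d1, φ.src_v, φ.tgt_v, sub_eq_add_neg, ← Finsupp.single_neg,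
      Finsupp.mapDomain_add, Finsupp.mapDomain_single]

theorem Cpx.Hom.L2_map {Y X : Cpx} (φ : Cpx.Hom Y X) (c : Y.F →₀ ℚ) :
    X.L2 (c.mapDomain φ.f) = (Y.L2 c).mapDomain φ.e := by
  induction c using Finsupp.induction_linear with
  | zero => simp
  | add f g hf hg => rw [Finsupp.mapDomain_add, map_add, map_add, Finsupp.mapDomain_add, hf, hg]
  | single σ r =>
    rw [Finsupp.mapDomain_single]
    simp only [Cpx.L2, Finsupp.linearCombination_single]
    rw [Finsupp.mapDomain_smul]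
    congr 1
    rw [Cpx.d2, Cpx.d2, φ.bd_e, mapDomain_wch]

theorem mapDomain_ker {S T : Type} (f : S → T) (z : S →₀ ℚ) (hz : z.mapDomain f = 0) :
    z ∈ Submodule.span ℚ
      {w : S →₀ ℚ | ∃ s s', f s = f s' ∧ w = single s 1 - single s' 1} := by
  classical
  rcases isEmpty_or_nonempty S with hS | hS
  · have : z = 0 := Finsupp.ext fun s => hS.elim s
    rw [this]; exact zero_mem _
  set g : T → S := Function.invFun f with hg
  have hfg : ∀ s, f (g (f s)) = f s := fun s => Function.invFun_eq ⟨s, rfl⟩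
  have key : ∀ z : S →₀ ℚ, z - (z.mapDomain f).mapDomain g ∈ Submodule.span ℚ
      {w : S →₀ ℚ | ∃ s s', f s = f s' ∧ w = single s 1 - single s' 1} := by
    intro z
    induction z using Finsupp.induction_linear with
    | zero => simp
    | add a b ha hb =>
      have := add_mem ha hb
      rw [Finsupp.mapDomain_add, Finsupp.mapDomain_add]
      convert this using 1
      abel
    | single s r =>
      rw [Finsupp.mapDomain_single, Finsupp.mapDomain_single]
      have h1 : (single s r - single (g (f s)) r : S →₀ ℚ)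
          = r • (single s 1 - single (g (f s)) 1) := by
        rw [smul_sub, Finsupp.smul_single, Finsupp.smul_single, smul_eq_mul, mul_one]
      rw [h1]
      exact Submodule.smul_mem _ _ (Submodule.subset_span ⟨s, g (f s), (hfg s).symm, rfl⟩)
  have := key z
  rwa [hz, Finsupp.mapDomain_zero, sub_zero] at this

theorem mapDomain_surj {S T : Type} {f : S → T} (hf : Function.Surjective f) (z : T →₀ ℚ) :
    ∃ v : S →₀ ℚ, v.mapDomain f = z := by
  obtain ⟨g, hg⟩ := hf.hasRightInverse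
  refine ⟨z.mapDomain g, ?_⟩
  rw [← Finsupp.mapDomain_comp]
  have : f ∘ g = id := funext hg
  rw [this, Finsupp.mapDomain_id]

namespace Im

variable {B : Cpx} (I : Im B) (R : Setoid I.V) (hR : I.Cong R)

theorem fe_surj : Function.Surjective (I.quoMor R hR).fe := by
  intro ε
  obtain ⟨x, y, hx, hy, h⟩ := ε.2
  refine ⟨⟨(x, ε.1.2.1, y), h⟩, Subtype.ext ?_⟩
  exact Prod.ext hx (Prod.ext rfl hy)

theorem fm_surj : Function.Surjective (I.quoMor R hR).fm := by
  intro τ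
  obtain ⟨x, hx, h⟩ := τ.2
  refine ⟨⟨(x, τ.1.2), h⟩, Subtype.ext ?_⟩
  exact Prod.ext hx rfl

theorem fe_eq (ε ε' : I.Edg) : (I.quoMor R hR).fe ε = (I.quoMor R hR).fe ε' ↔
    I.epr ε = I.epr ε' ∧ R (I.esrc ε) (I.esrc ε') := by
  obtain ⟨⟨x, e, y⟩, h⟩ := ε
  obtain ⟨⟨x', e', y'⟩, h'⟩ := ε'
  constructor
  · intro h1
    have h2 := congrArg Subtype.val h1
    have h3 : ((Quotient.mk R x, e, Quotient.mk R y) : Quotient R × B.E × Quotient R)
        = (Quotient.mk R x', e', Quotient.mk R y') := h2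
    rw [Prod.mk.injEq, Prod.mk.injEq] at h3
    exact ⟨h3.2.1, Quotient.exact h3.1⟩
  · rintro ⟨h1, h2⟩
    have h1' : e = e' := h1
    have h2' : R x x' := h2
    subst h1'
    have h3 : R y y' := hR.fwd h h' h2'
    apply Subtype.ext
    show ((Quotient.mk R x, e, Quotient.mk R y) : Quotient R × B.E × Quotient R)
        = (Quotient.mk R x', e, Quotient.mk R y')
    rw [Quotient.sound h2', Quotient.sound h3]

theorem ChA_L1_single (ε : I.Edg) :
    I.toCpx.L1 (single ε 1) = single (I.etgt ε) 1 - single (I.esrc ε) 1 := by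
  show Finsupp.linearCombination ℚ I.toCpx.d1 (single ε 1) = _
  rw [Finsupp.linearCombination_single, one_smul]
  rfl

theorem ChA_diff_mem (ε ε' : I.Edg) (h : (I.quoMor R hR).fe ε = (I.quoMor R hR).fe ε') :
    I.toCpx.L1 (single ε 1 - single ε' 1) ∈ I.toPC.DD R := by
  have h1 := (I.fe_eq R hR ε ε').1 h
  rw [map_sub, ChA_L1_single, ChA_L1_single]
  obtain ⟨⟨x, e, y⟩, h2⟩ := ε
  obtain ⟨⟨x', e', y'⟩, h2'⟩ := ε'
  obtain ⟨h3, h4⟩ := h1
  have h3' : e = e' := h3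
  subst h3'
  exact PC.DD_gen h2 h2' h4

theorem ChA_DD_lift (w : I.V →₀ ℚ) (hw : w ∈ I.toPC.DD R) :
    ∃ k : I.Edg →₀ ℚ, k.mapDomain (I.quoMor R hR).fe = 0 ∧ I.toCpx.L1 k = w := by
  induction hw using Submodule.span_induction with
  | mem z hz =>
    obtain ⟨x, y, x', y', e, h1, h2, h3, rfl⟩ := hz
    obtain ⟨ε, hε⟩ : ∃ ε : I.Edg, ε.1 = (x, e, y) := ⟨⟨(x, e, y), h1⟩, rfl⟩
    obtain ⟨ε', hε'⟩ : ∃ ε : I.Edg, ε.1 = (x', e, y') := ⟨⟨(x', e, y'), h2⟩, rfl⟩
    have e1 : I.esrc ε = x := by rw [PC.esrc, hε]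
    have e2 : I.etgt ε = y := by rw [PC.etgt, hε]
    have e3 : I.epr ε = e := by rw [PC.epr, hε]
    have e1' : I.esrc ε' = x' := by rw [PC.esrc, hε']
    have e2' : I.etgt ε' = y' := by rw [PC.etgt, hε']
    have e3' : I.epr ε' = e := by rw [PC.epr, hε']
    refine ⟨single ε 1 - single ε' 1, ?_, ?_⟩
    · have : (I.quoMor R hR).fe ε = (I.quoMor R hR).fe ε' :=
        (I.fe_eq R hR _ _).2 ⟨by rw [e3, e3'], by rw [e1, e1']; exact h3⟩
      rw [sub_eq_add_neg, ← Finsupp.single_neg, Finsupp.mapDomain_add, Finsupp.mapDomain_single,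
        Finsupp.mapDomain_single, this, ← Finsupp.single_add, add_neg_cancel, Finsupp.single_zero]
    · rw [map_sub, ChA_L1_single, ChA_L1_single, e1, e2, e1', e2']
  | zero => exact ⟨0, Finsupp.mapDomain_zero, map_zero _⟩
  | add x y _ _ hx hy =>
    obtain ⟨k, hk, hk'⟩ := hx
    obtain ⟨l, hl, hl'⟩ := hy
    refine ⟨k + l, ?_, ?_⟩
    · rw [Finsupp.mapDomain_add, hk, hl, add_zero]
    · rw [map_add, hk', hl']
  | smul r x _ hx =>
    obtain ⟨k, hk, hk'⟩ := hx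
    refine ⟨r • k, ?_, ?_⟩
    · rw [Finsupp.mapDomain_smul, hk, smul_zero]
    · rw [map_smul, hk']

theorem link1 (hH : I.toCpx.H1z) (v : I.Edg →₀ ℚ) (hv : I.toCpx.L1 v ∈ I.toPC.DD R) :
    ∃ c, (I.quo R hR).toCpx.L2 c = v.mapDomain (I.quoMor R hR).fe := by
  obtain ⟨k, hk, hk'⟩ := I.ChA_DD_lift R hR _ hv
  obtain ⟨c, hc⟩ := hH (v - k) (by rw [map_sub, hk', sub_self])
  refine ⟨c.mapDomain (I.quoMor R hR).fm, ?_⟩
  have h1 := (I.quoMor R hR).hom.L2_map c
  have h2 : (I.quo R hR).toCpx.L2 (c.mapDomain (I.quoMor R hR).fm)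
      = (I.toCpx.L2 c).mapDomain (I.quoMor R hR).fe := h1
  rw [h2, hc]
  have h3 : v = (v - k) + k := by abel
  conv_rhs => rw [h3, Finsupp.mapDomain_add, hk, add_zero]

theorem link2 (v : I.Edg →₀ ℚ) (c : (I.quo R hR).Mks →₀ ℚ)
    (h : (I.quo R hR).toCpx.L2 c = v.mapDomain (I.quoMor R hR).fe) :
    I.toCpx.L1 v ∈ I.toPC.DD R := by
  obtain ⟨c', hc'⟩ := mapDomain_surj (I.fm_surj R hR) c
  have h2 : (I.quo R hR).toCpx.L2 (c'.mapDomain (I.quoMor R hR).fm)
      = (I.toCpx.L2 c').mapDomain (I.quoMor R hR).fe := (I.quoMor R hR).hom.L2_map c'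
  have hc2 : (I.quo R hR).toCpx.L2 c = (I.toCpx.L2 c').mapDomain (I.quoMor R hR).fe := by
    rw [← h2, hc']
  have h3 : (v - I.toCpx.L2 c').mapDomain (I.quoMor R hR).fe = 0 := by
    have h4 : v.mapDomain (I.quoMor R hR).fe = (I.toCpx.L2 c').mapDomain (I.quoMor R hR).fe := by
      rw [← h, hc2]
    have h5 : (v - I.toCpx.L2 c' + I.toCpx.L2 c').mapDomain (I.quoMor R hR).fe
        = (v - I.toCpx.L2 c').mapDomain (I.quoMor R hR).fe
          + (I.toCpx.L2 c').mapDomain (I.quoMor R hR).fe := Finsupp.mapDomain_add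
    rw [sub_add_cancel, h4] at h5
    exact left_eq_add.1 (h5.trans (add_comm _ _))
  have h6 := mapDomain_ker _ _ h3
  have h7 : I.toCpx.L1 v = I.toCpx.L1 (v - I.toCpx.L2 c') := by
    rw [map_sub, I.toCpx.L1_L2, sub_zero]
  rw [h7]
  have key : ∀ z ∈ Submodule.span ℚ
      {w : I.Edg →₀ ℚ | ∃ s s', (I.quoMor R hR).fe s = (I.quoMor R hR).fe s' ∧
        w = single s 1 - single s' 1}, I.toCpx.L1 z ∈ I.toPC.DD R := by
    intro z hz
    induction hz using Submodule.span_induction with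
    | mem z hz =>
      obtain ⟨s, s', hs, rfl⟩ := hz
      exact I.ChA_diff_mem R hR s s' hs
    | zero => rw [map_zero]; exact zero_mem _
    | add x y _ _ hx hy => rw [map_add]; exact add_mem hx hy
    | smul r x _ hx => rw [map_smul]; exact Submodule.smul_mem _ _ hx
  exact key _ h6

theorem quo_H1z (hH : I.toCpx.H1z)
    (h : ∀ x y, R x y → (single y 1 - single x 1 : I.V →₀ ℚ) ∈ I.toPC.DD R) :
    (I.quo R hR).toCpx.H1z := by
  intro z hz
  obtain ⟨v, hv⟩ := mapDomain_surj (I.fe_surj R hR) z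
  have h1 : (I.quo R hR).toCpx.L1 (v.mapDomain (I.quoMor R hR).fe)
      = (I.toCpx.L1 v).mapDomain (Quotient.mk R) := (I.quoMor R hR).hom.L1_map v
  have h2 : (I.toCpx.L1 v).mapDomain (Quotient.mk R) = 0 := by
    rw [← h1, hv]; exact hz
  have h3 := mapDomain_ker _ _ h2
  have key : ∀ z ∈ Submodule.span ℚ
      {w : I.V →₀ ℚ | ∃ s s', Quotient.mk R s = Quotient.mk R s' ∧
        w = single s 1 - single s' 1}, z ∈ I.toPC.DD R := by
    intro z hz
    induction hz using Submodule.span_induction with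
    | mem z hz =>
      obtain ⟨s, s', hs, rfl⟩ := hz
      exact h s' s (R.symm (Quotient.exact hs))
    | zero => exact zero_mem _
    | add x y _ _ hx hy => exact add_mem hx hy
    | smul r x _ hx => exact Submodule.smul_mem _ _ hx
  obtain ⟨c, hc⟩ := I.link1 R hR hH v (key _ h3)
  exact ⟨c, by rw [hc, hv]⟩

/-- quotients of connected complexes are connected -/
theorem quo_Conn (hC : I.toCpx.Conn) : (I.quo R hR).toCpx.Conn := by
  obtain ⟨⟨x0⟩, h2⟩ := hC
  refine ⟨⟨(Quotient.mk R x0 : Quotient R)⟩, ?_⟩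
  intro a b
  induction a using Quotient.inductionOn with
  | _ x =>
  induction b using Quotient.inductionOn with
  | _ y =>
  obtain ⟨w, hw⟩ := h2 x y
  exact ⟨w.map (Prod.map (I.quoMor R hR).fe id),
    isWalk_map (I.quoMor R hR).f (I.quoMor R hR).fe (fun _ => rfl) (fun _ => rfl) hw⟩

end Im

end Pool.Agent.H60.CI

end NC_H60_CI_ChA1

end S_H60_CI_ChA

section S_H60_CI_Lam

/-!
# Row Lam: the map `Λ : (boundaries of 1-chains of Z) → C_1(Y)/∂C_2(Y)`, `Y = Z/R`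

`Z : HIm B` with `H1z`, `R` an invariant congruence, `Y = Z.quo R hR hi`.
`lamS` is a linear section of `L1 : C_1(Z) → range L1`; `lam v = [mapDomain fe (lamS v)]`.

* `lam_L1`: `lam ⟨L1 c, _⟩ = [mapDomain fe c]`: `L1 (lamS (L1 c) - c) = 0`, so
  `lamS (L1 c) - c = L2 c'` (`H1z`), and `mapDomain fe (L2 c') = L2 (mapDomain fm c')` (`Hom.L2_map`).
* `lam_eq_zero`: `lam v = 0 ↔ v ∈ DD R`: `lam v = 0` iff `mapDomain fe (lamS v) ∈ range L2` iff (`link1`,
  `link2`) `L1 (lamS v) = v ∈ DD R`.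
* `lam_perm`: equivariance: `v = L1 c`, `perm h (L1 c) = L1 (perm h c)` and
  `mapDomain fe (perm h c) = perm h (mapDomain fe c)`.
* `diff_mem`: for a connected `Z` all `single y 1 - single x 1` are in `range L1` (`Cpx.L1_wch`).
* `L (x, y) = lam (y - x)`: `L_add`, `L_smul`, `L_zero`, `L_edge` follow.
-/

noncomputable section NC_H60_CI_Lam1

namespace Pool.Agent.H60.CI

open Finsupp

variable {H : Type} [Group H] {B : HCpx H}

namespace HIm

variable (Z : HIm B)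

theorem exists_lamS : ∃ s : LinearMap.range Z.toHCpx.L1 →ₗ[ℚ] (Z.Edg →₀ ℚ),
    ∀ v, Z.toHCpx.L1 (s v) = v := by
  obtain ⟨s, hs⟩ := LinearMap.exists_rightInverse_of_surjective (Z.toHCpx.L1.rangeRestrict)
    (LinearMap.range_rangeRestrict _)
  refine ⟨s, fun v => ?_⟩
  have h := congrArg (fun f => f v) hs
  have h2 := congrArg Subtype.val h
  exact h2

/-- a linear section of `L1` -/
def lamS : LinearMap.range Z.toHCpx.L1 →ₗ[ℚ] (Z.Edg →₀ ℚ) := Z.exists_lamS.choose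

theorem L1_lamS (v : LinearMap.range Z.toHCpx.L1) : Z.toHCpx.L1 (Z.lamS v) = v :=
  Z.exists_lamS.choose_spec v

variable (R : Setoid Z.V) (hR : Z.Cong R) (hi : Z.Inv R)

/-- the map `Λ` -/
def lam : LinearMap.range Z.toHCpx.L1 →ₗ[ℚ] EE (Z.quo R hR hi).toHCpx :=
  (LinearMap.range (Z.quo R hR hi).toHCpx.L2).mkQ ∘ₗ
    (Finsupp.lmapDomain ℚ ℚ (Z.quoMor R hR hi).fe) ∘ₗ Z.lamS

theorem Lam_key (hH : Z.toHCpx.H1z) (c c' : Z.Edg →₀ ℚ)
    (h : Z.toHCpx.L1 c = Z.toHCpx.L1 c') :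
    (Submodule.Quotient.mk (c.mapDomain (Z.quoMor R hR hi).fe) : EE (Z.quo R hR hi).toHCpx)
      = Submodule.Quotient.mk (c'.mapDomain (Z.quoMor R hR hi).fe) := by
  rw [Submodule.Quotient.eq]
  obtain ⟨d, hd⟩ := hH (c - c') (by rw [map_sub, h, sub_self])
  refine ⟨d.mapDomain (Z.quoMor R hR hi).fm, ?_⟩
  have h1 := (Z.quoMor R hR hi).hom.L2_map d
  have h2 : (Finsupp.mapDomain (Z.quoMor R hR hi).fe (c - c'))
      = Finsupp.mapDomain (Z.quoMor R hR hi).fe c - Finsupp.mapDomain (Z.quoMor R hR hi).fe c' :=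
    (Finsupp.lmapDomain ℚ ℚ (Z.quoMor R hR hi).fe).map_sub c c'
  rw [← h2, ← hd]
  exact h1

theorem Lam_apply (v : LinearMap.range Z.toHCpx.L1) :
    Z.lam R hR hi v
      = Submodule.Quotient.mk ((Z.lamS v).mapDomain (Z.quoMor R hR hi).fe) := rfl

theorem lam_L1 (hH : Z.toHCpx.H1z) (c : Z.Edg →₀ ℚ) :
    Z.lam R hR hi ⟨Z.toHCpx.L1 c, ⟨c, rfl⟩⟩
      = Submodule.Quotient.mk (c.mapDomain (Z.quoMor R hR hi).fe) := by
  rw [Lam_apply]
  exact Z.Lam_key R hR hi hH _ _ (Z.L1_lamS ⟨Z.toHCpx.L1 c, ⟨c, rfl⟩⟩)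

theorem lam_eq_zero (hH : Z.toHCpx.H1z) (v : LinearMap.range Z.toHCpx.L1) :
    Z.lam R hR hi v = 0 ↔ (v : Z.V →₀ ℚ) ∈ Z.toPC.DD R := by
  rw [Lam_apply, Submodule.Quotient.mk_eq_zero]
  constructor
  · rintro ⟨c, hc⟩
    have := Z.toIm.link2 R hR (Z.lamS v) c hc
    have h2 : Z.toIm.toCpx.L1 (Z.lamS v) = v := Z.L1_lamS v
    rwa [h2] at this
  · intro hv
    have h2 : Z.toIm.toCpx.L1 (Z.lamS v) = v := Z.L1_lamS v
    rw [← h2] at hv
    obtain ⟨c, hc⟩ := Z.toIm.link1 R hR hH (Z.lamS v) hv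
    exact ⟨c, hc⟩

theorem Lam_L1perm (h : H) (c : Z.Edg →₀ ℚ) :
    Z.toHCpx.L1 (perm H Z.Edg h c) = perm H Z.V h (Z.toHCpx.L1 c) := by
  induction c using Finsupp.induction_linear with
  | zero => simp
  | add f g hf hg => simp only [map_add, hf, hg]
  | single σ r =>
    rw [perm_single]
    simp only [Cpx.L1, Finsupp.linearCombination_single, map_smul]
    congr 1
    exact Z.toHCpx.d1_smul h σ

theorem perm_range (h : H) (v : LinearMap.range Z.toHCpx.L1) :
    perm H Z.V h (v : Z.V →₀ ℚ) ∈ LinearMap.range Z.toHCpx.L1 := by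
  obtain ⟨v, c, rfl⟩ := v
  exact ⟨perm H Z.Edg h c, Z.Lam_L1perm h c⟩

theorem Lam_mapperm (h : H) (c : Z.Edg →₀ ℚ) :
    (perm H Z.Edg h c).mapDomain (Z.quoMor R hR hi).fe
      = perm H (Z.quo R hR hi).Edg h (c.mapDomain (Z.quoMor R hR hi).fe) := by
  induction c using Finsupp.induction_linear with
  | zero => simp
  | add f g hf hg => simp only [map_add, Finsupp.mapDomain_add, hf, hg]
  | single σ r =>
    rw [perm_single, Finsupp.mapDomain_single, Finsupp.mapDomain_single, perm_single]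
    rfl

theorem lam_perm (hH : Z.toHCpx.H1z) (h : H) (v : LinearMap.range Z.toHCpx.L1) :
    Z.lam R hR hi ⟨perm H Z.V h (v : Z.V →₀ ℚ), Z.perm_range h v⟩
      = qE (Z.quo R hR hi).toHCpx h (Z.lam R hR hi v) := by
  obtain ⟨v, c, rfl⟩ := v
  rw [lam_L1 Z R hR hi hH c, qE_mk, Lam_apply]
  have h1 := Z.Lam_mapperm R hR hi h c
  have h3 : (Submodule.Quotient.mk (perm H (Z.quo R hR hi).Edg h
      (c.mapDomain (Z.quoMor R hR hi).fe)) : EE (Z.quo R hR hi).toHCpx)
      = Submodule.Quotient.mk ((perm H Z.Edg h c).mapDomain (Z.quoMor R hR hi).fe) := by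
    rw [h1]
  refine Eq.trans ?_ h3.symm
  refine Z.Lam_key R hR hi hH _ _ ?_
  rw [Lam_L1perm]
  exact Z.L1_lamS _

theorem diff_mem (hC : Z.toHCpx.Conn) (x y : Z.V) :
    (single y 1 - single x 1 : Z.V →₀ ℚ) ∈ LinearMap.range Z.toHCpx.L1 := by
  obtain ⟨w, hw⟩ := hC.2 x y
  exact ⟨wch w, Z.toHCpx.L1_wch hw⟩

/-- the class of a path from `x` to `y` -/
def Ll (hC : Z.toHCpx.Conn) (x y : Z.V) : EE (Z.quo R hR hi).toHCpx :=
  Z.lam R hR hi ⟨single y 1 - single x 1, Z.diff_mem hC x y⟩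

theorem Ll_add (hC : Z.toHCpx.Conn) (x y z : Z.V) :
    Z.Ll R hR hi hC x y + Z.Ll R hR hi hC y z = Z.Ll R hR hi hC x z := by
  unfold Ll
  rw [← map_add]
  congr 1
  refine Subtype.ext ?_
  show (single y 1 - single x 1 : Z.V →₀ ℚ) + (single z 1 - single y 1) = single z 1 - single x 1
  abel

theorem Ll_smul (hC : Z.toHCpx.Conn) (hH : Z.toHCpx.H1z) (h : H) (x y : Z.V) :
    Z.Ll R hR hi hC (h • x) (h • y) = qE (Z.quo R hR hi).toHCpx h (Z.Ll R hR hi hC x y) := by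
  unfold Ll
  rw [← lam_perm Z R hR hi hH]
  congr 1
  refine Subtype.ext ?_
  show (single (h • y) 1 - single (h • x) 1 : Z.V →₀ ℚ)
    = perm H Z.V h (single y 1 - single x 1)
  rw [map_sub, perm_single, perm_single]

theorem Ll_eq_zero (hC : Z.toHCpx.Conn) (hH : Z.toHCpx.H1z) (x y : Z.V) :
    Z.Ll R hR hi hC x y = 0 ↔ (single y 1 - single x 1 : Z.V →₀ ℚ) ∈ Z.toPC.DD R := by
  unfold Ll
  rw [lam_eq_zero Z R hR hi hH]

theorem Ll_edge (hC : Z.toHCpx.Conn) (hH : Z.toHCpx.H1z) (ε : Z.Edg) :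
    Z.Ll R hR hi hC (Z.esrc ε) (Z.etgt ε)
      = Submodule.Quotient.mk (single ((Z.quoMor R hR hi).fe ε) 1) := by
  unfold Ll
  have h1 : Z.toHCpx.L1 (single ε 1) = single (Z.etgt ε) 1 - single (Z.esrc ε) 1 := by
    simp only [Cpx.L1, Finsupp.linearCombination_single, one_smul]
    rfl
  have h2 := Z.lam_L1 R hR hi hH (single ε 1)
  rw [Finsupp.mapDomain_single] at h2
  rw [← h2]
  congr 1
  exact Subtype.ext h1.symm

end HIm

end Pool.Agent.H60.CI

end NC_H60_CI_Lam1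

end S_H60_CI_Lam

section S_H60_CI_MoDefs

/-!
# Moments of an equivariant 2-chain: definitions

`q : Y' → Y` an equivariant immersion, `u : V(Y') → E_Y = C_1(Y)/∂C_2(Y)` equivariant with
`u (tgt e) - u (src e) = κ (q e)` for all edges `e` of `Y'`, injective on the fibres of `q`.
-/

noncomputable section NC_H60_CI_MoDefs1

namespace Pool.Agent.H60.CI

open Finsupp TensorProduct

variable {H : Type} [Group H]

/-- the data of the moment argument -/
structure MomData (Y' Y : HCpx H) where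
  q : EqHom Y' Y
  u : Y'.V → EE Y
  κ : Y.E → EE Y
  u_smul : ∀ (h : H) v, u (h • v) = qE Y h (u v)
  κ_smul : ∀ (h : H) ε, κ (h • ε) = qE Y h (κ ε)
  u_edge : ∀ e : Y'.E, u (Y'.tgt e) - u (Y'.src e) = κ (q.e e)
  face_inj : ∀ τ τ', Y'.base τ = Y'.base τ' → q.f τ = q.f τ' → τ = τ'
  u_inj : ∀ v v', q.v v = q.v v' → u v = u v' → v = v'

section

variable (Y : HCpx H) {N : Type} [AddCommGroup N] [Module ℚ N] (ρ : Representation ℚ H N)

/-- functions on the dual space of `E_Y` with values in `N` -/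
abbrev DN (N : Type) : Type := Module.Dual ℚ (EE Y) → N

/-- the action on `DN`: `(h • φ) ℓ = h • φ (ℓ ∘ h)` -/
def rD : Representation ℚ H (DN Y N) where
  toFun h :=
    { toFun := fun φ ℓ => ρ h (φ (ℓ ∘ₗ qE Y h))
      map_add' := fun _ _ => by ext; simp
      map_smul' := fun _ _ => by ext; simp }
  map_one' := by
    ext φ ℓ
    simp [Module.End.one_eq_id]
  map_mul' x y := by
    ext φ ℓ
    simp only [map_mul]
    rfl

theorem rD_apply (h : H) (φ : DN Y N) (ℓ : Module.Dual ℚ (EE Y)) :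
    rD Y ρ h φ ℓ = ρ h (φ (ℓ ∘ₗ qE Y h)) := rfl

variable (N)

/-- multiplication of a function on the dual by `ℓ ↦ (ℓ e)^k` -/
def mulD (k : ℕ) (e : EE Y) : DN Y N →ₗ[ℚ] DN Y N where
  toFun φ := fun ℓ => (ℓ e) ^ k • φ ℓ
  map_add' _ _ := by ext; simp
  map_smul' r φ := by
    ext ℓ
    simp only [Pi.smul_apply, RingHom.id_apply]
    rw [smul_comm]

/-- `a ↦ (ℓ ↦ (ℓ e)^n a)` -/
def pw (n : ℕ) (e : EE Y) : N →ₗ[ℚ] DN Y N where
  toFun a := fun ℓ => (ℓ e) ^ n • a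
  map_add' _ _ := by ext; simp
  map_smul' r φ := by
    ext ℓ
    simp only [Pi.smul_apply, RingHom.id_apply]
    rw [smul_comm]

/-- `a ↦ e ⊗ (ℓ ↦ (ℓ e)^n a)` -/
def gg (n : ℕ) (e : EE Y) : N →ₗ[ℚ] (EE Y) ⊗[ℚ] (DN Y N) :=
  (TensorProduct.mk ℚ (EE Y) (DN Y N) e) ∘ₗ pw Y N n e

/-- `C(n,j) (id ⊗ mulD (n-j) κ)` -/
def opA (n j : ℕ) (e : EE Y) : (EE Y) ⊗[ℚ] (DN Y N) →ₗ[ℚ] (EE Y) ⊗[ℚ] (DN Y N) :=
  (n.choose j : ℚ) • (mulD Y N (n - j) e).lTensor (EE Y)

/-- `φ ↦ C(n,j) e ⊗ mulD (n-j) e φ` -/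
def opB (n j : ℕ) (e : EE Y) : DN Y N →ₗ[ℚ] (EE Y) ⊗[ℚ] (DN Y N) :=
  (n.choose j : ℚ) • ((TensorProduct.mk ℚ (EE Y) (DN Y N) e) ∘ₗ mulD Y N (n - j) e)

variable {N}

/-- the coefficient representation `E_Y ⊗ DN` -/
abbrev rT : Representation ℚ H ((EE Y) ⊗[ℚ] (DN Y N)) := (qE Y).tprod (rD Y ρ)

theorem pw_equiv (n : ℕ) (h : H) (e : EE Y) (a : N) :
    pw Y N n (qE Y h e) (ρ h a) = rD Y ρ h (pw Y N n e a) := by
  ext ℓ
  simp [rD_apply, pw]

theorem gg_equiv (n : ℕ) (h : H) (e : EE Y) (a : N) :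
    gg Y N n (qE Y h e) (ρ h a) = rT Y ρ h (gg Y N n e a) := by
  simp [gg, pw_equiv]

theorem mulD_equiv (n : ℕ) (h : H) (e : EE Y) (φ : DN Y N) :
    mulD Y N n (qE Y h e) (rD Y ρ h φ) = rD Y ρ h (mulD Y N n e φ) := by
  ext ℓ
  simp [rD_apply, mulD]

theorem opA_equiv (n j : ℕ) (h : H) (e : EE Y) (z : (EE Y) ⊗[ℚ] (DN Y N)) :
    opA Y N n j (qE Y h e) (rT Y ρ h z) = rT Y ρ h (opA Y N n j e z) := by
  induction z using TensorProduct.induction_on with
  | zero => simp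
  | add x y hx hy => simp only [map_add, hx, hy]
  | tmul x φ =>
    simp only [opA, LinearMap.smul_apply, Representation.tprod_apply, TensorProduct.map_tmul,
      LinearMap.lTensor_tmul, mulD_equiv, map_smul]

theorem opB_equiv (n j : ℕ) (h : H) (e : EE Y) (φ : DN Y N) :
    opB Y N n j (qE Y h e) (rD Y ρ h φ) = rT Y ρ h (opB Y N n j e φ) := by
  simp only [opB, LinearMap.smul_apply, LinearMap.comp_apply, TensorProduct.mk_apply,
    Representation.tprod_apply, map_smul, TensorProduct.map_tmul, mulD_equiv]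

end

namespace MomData

variable {Y' Y : HCpx H} (d : MomData Y' Y)
variable {N : Type} [AddCommGroup N] [Module ℚ N] (ρ : Representation ℚ H N)

/-- the `n`-th moment with values in functions on the dual:
`sg τ a ↦ sg (q τ) (ℓ ↦ ℓ(u(base τ))^n a)` -/
def mm (n : ℕ) : EqF ρ Y'.F →ₗ[ℚ] EqF (rD Y ρ) Y.F :=
  EqF.lift ρ (fun τ => EqF.sg (rD Y ρ) (d.q.f τ) ∘ₗ pw Y N n (d.u (Y'.base τ)))
    (fun h τ a => by
      simp only [LinearMap.comp_apply, Y'.base_smul, d.u_smul, pw_equiv, d.q.f_smul,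
        EqF.sg_smul])

/-- `sg τ a ↦ sg (q τ) (u ⊗ (ℓ ↦ ℓ(u)^n a))`, `u = u(base τ)` -/
def tt (n : ℕ) : EqF ρ Y'.F →ₗ[ℚ] EqF (rT Y ρ) Y.F :=
  EqF.lift ρ (fun τ => EqF.sg (rT Y ρ) (d.q.f τ) ∘ₗ gg Y N n (d.u (Y'.base τ)))
    (fun h τ a => by
      simp only [LinearMap.comp_apply, Y'.base_smul, d.u_smul, gg_equiv, d.q.f_smul,
        EqF.sg_smul])

/-- `sg e a ↦ sg (q e) (u ⊗ (ℓ ↦ ℓ(u)^n a))`, `u = u(src e)` -/
def nn (n : ℕ) : EqF ρ Y'.E →ₗ[ℚ] EqF (rT Y ρ) Y.E :=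
  EqF.lift ρ (fun e => EqF.sg (rT Y ρ) (d.q.e e) ∘ₗ gg Y N n (d.u (Y'.src e)))
    (fun h τ a => by
      simp only [LinearMap.comp_apply, Y'.src_smul, d.u_smul, gg_equiv, d.q.e_smul,
        EqF.sg_smul])

/-- the oriented edges of a word together with the offset of the source of the edge:
if the word starts at a vertex with value `e0` of `u` then `off` is the value at the source -/
def offs (e0 : EE Y) : List (Y.E × Bool) → List ((Y.E × Bool) × EE Y)
  | [] => []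
  | a :: w => (a, if a.2 then e0 else e0 - d.κ a.1) :: offs (e0 + sgnb a.2 • d.κ a.1) w

theorem offs_equiv (h : H) (e0 : EE Y) (w : List (Y.E × Bool)) :
    d.offs (qE Y h e0) (w.map (Prod.map (h • ·) id))
      = (d.offs e0 w).map (Prod.map (Prod.map (h • ·) id) (qE Y h)) := by
  induction w generalizing e0 with
  | nil => rfl
  | cons a w ih =>
    rcases a with ⟨ε, b⟩
    have := ih (e0 + sgnb b • d.κ ε)
    simp only [map_add, map_smul] at this
    cases b <;> simp_all [offs, d.κ_smul]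

/-- `sg σ m ↦ Σ_{(a, off)} ±sg a (opA n j off m)` -/
def Th (n j : ℕ) : EqF (rT Y ρ) Y.F →ₗ[ℚ] EqF (rT Y ρ) Y.E :=
  EqF.lift (rT Y ρ)
    (fun σ => ((d.offs 0 (Y.bd σ)).map fun p =>
      sgnb p.1.2 • (EqF.sg (rT Y ρ) p.1.1 ∘ₗ opA Y N n j p.2)).sum)
    (fun h σ m => by
      have h0 : d.offs 0 (Y.bd (h • σ))
          = (d.offs 0 (Y.bd σ)).map (Prod.map (Prod.map (h • ·) id) (qE Y h)) := by
        rw [Y.bd_smul]; simpa using d.offs_equiv h 0 (Y.bd σ)
      rw [h0, List.map_map]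
      generalize d.offs 0 (Y.bd σ) = L
      induction L with
      | nil => simp
      | cons p L ih =>
        simp only [List.map_cons, List.sum_cons, LinearMap.add_apply, ih]
        congr 1
        simp only [Function.comp_apply, Prod.map_fst, Prod.map_snd, id_eq, LinearMap.smul_apply,
          LinearMap.comp_apply]
        rw [opA_equiv, EqF.sg_smul])

/-- `sg σ φ ↦ Σ_{(a, off)} ±sg a (opB n j off φ)` -/
def Xi (n j : ℕ) : EqF (rD Y ρ) Y.F →ₗ[ℚ] EqF (rT Y ρ) Y.E :=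
  EqF.lift (rD Y ρ)
    (fun σ => ((d.offs 0 (Y.bd σ)).map fun p =>
      sgnb p.1.2 • (EqF.sg (rT Y ρ) p.1.1 ∘ₗ opB Y N n j p.2)).sum)
    (fun h σ m => by
      have h0 : d.offs 0 (Y.bd (h • σ))
          = (d.offs 0 (Y.bd σ)).map (Prod.map (Prod.map (h • ·) id) (qE Y h)) := by
        rw [Y.bd_smul]; simpa using d.offs_equiv h 0 (Y.bd σ)
      rw [h0, List.map_map]
      generalize d.offs 0 (Y.bd σ) = L
      induction L with
      | nil => simp
      | cons p L ih =>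
        simp only [List.map_cons, List.sum_cons, LinearMap.add_apply, ih]
        congr 1
        simp only [Function.comp_apply, Prod.map_fst, Prod.map_snd, id_eq, LinearMap.smul_apply,
          LinearMap.comp_apply]
        rw [opB_equiv, EqF.sg_smul])

end MomData

end Pool.Agent.H60.CI

end NC_H60_CI_MoDefs1

end S_H60_CI_MoDefs

section S_H60_CI_MoA

/-!
# Row MoA: the expansion identity of the moment argument

Notation of `MoDefs`.

* `gg_expand`: `(u+k) ⊗ (ℓ ↦ ℓ(u+k)^n a) = Σ_{j ≤ n} opA n j k (gg j u a) + opB n j k (pw j u a)`: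
  binomial theorem `ℓ(u+k)^n = (ℓ u + ℓ k)^n = Σ_j C(n,j) (ℓ u)^j (ℓ k)^(n-j)` (`add_pow`), so
  `pw n (u+k) a = Σ_j C(n,j) mulD (n-j) k (pw j u a)` and tensor with `u + k`.
* `offs_walk`: for a walk `w` of `Y'` starting at `x` with `u x = u0 + e0`, the image word has
  `(nn n) (Σ ±sg a' n) = Σ_{(a,off) ∈ offs e0 (q w)} ±sg a (gg n (u0 + off) a)`: induction on `w`
  generalizing `x e0`; for the first oriented edge `(ε, true)`: `src ε = x`, `u (src ε) = u0 + e0`,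
  the end is `tgt ε` with `u (tgt ε) = u (src ε) + κ (q ε)` (`u_edge`); for `(ε, false)`: `tgt ε = x`,
  `u (src ε) = u (tgt ε) - κ (q ε) = u0 + (e0 - κ)`, and the end is `src ε`.
* `nn_B2`: both sides are linear, check on `sg τ a` (`EqF.hom_ext`): use `B2_sg`, `offs_walk` with
  `x = base τ`, `e0 = 0`, `u0 = u (base τ)`, `bd_e` (`Y.bd (q τ) = (Y'.bd τ).map (Prod.map q.e id)`),
  then `gg_expand` with `k = off`, and exchange the two finite sums.
* `Th_self`: `opA n n e = id` (`mulD 0 = id`, `C(n,n) = 1`), hence `Th n n = B2`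
  (the first components of `offs e0 w` are the letters of `w`; `B2_sg`).
* `mm_zero`: `pw 0 e a` is the constant function `a`; so `mm 0 c = mapc const (push q.f c)`.
* `mm_succ`: with `kap : E_Y ⊗ DN → DN`, `e ⊗ φ ↦ (ℓ ↦ ℓ(e) φ(ℓ))`, `mm (n+1) c = mapc kap (tt n c)`.
-/

noncomputable section NC_H60_CI_MoA1

namespace Pool.Agent.H60.CI

open Finsupp TensorProduct

variable {H : Type} [Group H]

theorem MoA_pw (Y : HCpx H) {N : Type} [AddCommGroup N] [Module ℚ N] (n : ℕ) (u k : EE Y)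
    (a : N) : pw Y N n (u + k) a
      = ∑ j ∈ Finset.range (n + 1), (n.choose j : ℚ) • mulD Y N (n - j) k (pw Y N j u a) := by
  funext ℓ
  rw [Finset.sum_apply]
  show (ℓ (u + k)) ^ n • a = _
  rw [map_add, add_pow, Finset.sum_smul]
  refine Finset.sum_congr rfl fun j _ => ?_
  show _ = (n.choose j : ℚ) • ((ℓ k) ^ (n - j) • ((ℓ u) ^ j • a))
  rw [smul_smul, smul_smul]
  congr 1
  ring

theorem MoA_opA (Y : HCpx H) {N : Type} [AddCommGroup N] [Module ℚ N] (n j : ℕ) (k u : EE Y)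
    (φ : DN Y N) : opA Y N n j k (u ⊗ₜ φ) = (n.choose j : ℚ) • (u ⊗ₜ mulD Y N (n - j) k φ) := rfl

theorem MoA_opB (Y : HCpx H) {N : Type} [AddCommGroup N] [Module ℚ N] (n j : ℕ) (k : EE Y)
    (φ : DN Y N) : opB Y N n j k φ = (n.choose j : ℚ) • (k ⊗ₜ mulD Y N (n - j) k φ) := rfl

theorem gg_expand (Y : HCpx H) {N : Type} [AddCommGroup N] [Module ℚ N] (n : ℕ) (u k : EE Y)
    (a : N) : gg Y N n (u + k) a
      = ∑ j ∈ Finset.range (n + 1), (opA Y N n j k (gg Y N j u a) + opB Y N n j k (pw Y N j u a)) := by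
  show (u + k) ⊗ₜ pw Y N n (u + k) a = _
  rw [MoA_pw, TensorProduct.tmul_sum]
  refine Finset.sum_congr rfl fun j _ => ?_
  rw [show gg Y N j u a = u ⊗ₜ pw Y N j u a from rfl, MoA_opA, MoA_opB, TensorProduct.tmul_smul,
    TensorProduct.add_tmul, smul_add]

namespace MomData

variable {Y' Y : HCpx H} (d : MomData Y' Y)
variable {N : Type} [AddCommGroup N] [Module ℚ N] (ρ : Representation ℚ H N)

theorem offs_walk (n : ℕ) (u0 : EE Y) (a : N) (w : List (Y'.E × Bool)) (x y : Y'.V)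
    (hw : Y'.Walk x w y) (e0 : EE Y) (hx : d.u x = u0 + e0) :
    (w.map fun b => sgnb b.2 • d.nn ρ n (EqF.sg ρ b.1 a)).sum
      = ((d.offs e0 (w.map (Prod.map d.q.e id))).map fun p =>
          sgnb p.1.2 • EqF.sg (rT Y ρ) p.1.1 (gg Y N n (u0 + p.2) a)).sum := by
  induction w generalizing x e0 with
  | nil => rfl
  | cons b w ih =>
    obtain ⟨ε, b⟩ := b
    obtain ⟨h1, h2⟩ := hw
    have hn : d.nn ρ n (EqF.sg ρ ε a) = EqF.sg (rT Y ρ) (d.q.e ε) (gg Y N n (d.u (Y'.src ε)) a) := by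
      rw [MomData.nn, EqF.lift_sg]
      rfl
    have hu := d.u_edge ε
    cases b
    · have h1' : Y'.tgt ε = x := h1
      have hx2 : d.u (Y'.src ε) = u0 + (e0 + sgnb false • d.κ (d.q.e ε)) := by
        rw [← hu, h1', hx]
        have h3 : sgnb false = -1 := rfl
        rw [h3, neg_one_smul]
        abel
      have h3 := ih (Y'.src ε) h2 (e0 + sgnb false • d.κ (d.q.e ε)) hx2
      simp only [List.map_cons, List.sum_cons, Prod.map_apply, id_eq, MomData.offs,
        Bool.false_eq_true, if_false]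
      rw [h3, hn]
      congr 4
      rw [hx2]
      have h3 : sgnb false = -1 := rfl
      rw [h3, neg_one_smul, sub_eq_add_neg]
    · have h1' : Y'.src ε = x := h1
      have hx2 : d.u (Y'.tgt ε) = u0 + (e0 + sgnb true • d.κ (d.q.e ε)) := by
        rw [← hu, h1', hx]
        have h3 : sgnb true = 1 := rfl
        rw [h3, one_smul]
        abel
      have h3 := ih (Y'.tgt ε) h2 (e0 + sgnb true • d.κ (d.q.e ε)) hx2
      simp only [List.map_cons, List.sum_cons, Prod.map_apply, id_eq, MomData.offs, if_true]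
      rw [h3, hn, h1', hx]

theorem nn_B2 (n : ℕ) (c : EqF ρ Y'.F) :
    d.nn ρ n (Y'.B2 ρ c)
      = ∑ j ∈ Finset.range (n + 1), (d.Th ρ n j (d.tt ρ j c) + d.Xi ρ n j (d.mm ρ j c)) := by
  have key : (d.nn ρ n) ∘ₗ (Y'.B2 ρ) = ∑ j ∈ Finset.range (n + 1),
      ((d.Th ρ n j) ∘ₗ (d.tt ρ j) + (d.Xi ρ n j) ∘ₗ (d.mm ρ j)) := by
    refine EqF.hom_ext ρ fun τ a => ?_
    have hbd : d.offs 0 ((Y'.bd τ).map (Prod.map d.q.e id)) = d.offs 0 (Y.bd (d.q.f τ)) := by
      rw [d.q.bd_e]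
    have h1 := d.offs_walk ρ n (d.u (Y'.base τ)) a (Y'.bd τ) (Y'.base τ) (Y'.base τ)
      (Y'.bd_walk τ) 0 (by rw [add_zero])
    rw [hbd] at h1
    have h2 : d.nn ρ n (Y'.B2 ρ (EqF.sg ρ τ a)) =
        ((Y'.bd τ).map fun b => sgnb b.2 • d.nn ρ n (EqF.sg ρ b.1 a)).sum := by
      rw [HCpx.B2_sg, map_list_sum, List.map_map]
      congr 1
      refine List.map_congr_left fun b _ => ?_
      rw [Function.comp_apply, map_smul]
    rw [LinearMap.comp_apply, h2, h1, LinearMap.sum_apply]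
    have h3 : ∀ j, ((d.Th ρ n j) ∘ₗ (d.tt ρ j) + (d.Xi ρ n j) ∘ₗ (d.mm ρ j)) (EqF.sg ρ τ a) =
        (((d.offs 0 (Y.bd (d.q.f τ))).map fun p =>
          sgnb p.1.2 • (EqF.sg (rT Y ρ) p.1.1 ∘ₗ opA Y N n j p.2)).sum)
            (gg Y N j (d.u (Y'.base τ)) a) +
        (((d.offs 0 (Y.bd (d.q.f τ))).map fun p =>
          sgnb p.1.2 • (EqF.sg (rT Y ρ) p.1.1 ∘ₗ opB Y N n j p.2)).sum)
            (pw Y N j (d.u (Y'.base τ)) a) := by
      intro j
      rw [LinearMap.add_apply, LinearMap.comp_apply, LinearMap.comp_apply, MomData.tt,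
        EqF.lift_sg, MomData.mm, EqF.lift_sg, LinearMap.comp_apply, LinearMap.comp_apply,
        MomData.Th, EqF.lift_sg, MomData.Xi, EqF.lift_sg]
    rw [Finset.sum_congr rfl fun j _ => h3 j]
    generalize d.offs 0 (Y.bd (d.q.f τ)) = L
    generalize d.u (Y'.base τ) = u
    induction L with
    | nil => simp
    | cons p L ih =>
      simp only [List.map_cons, List.sum_cons, LinearMap.add_apply, ih]
      rw [gg_expand, map_sum, Finset.smul_sum, ← Finset.sum_add_distrib]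
      refine Finset.sum_congr rfl fun j _ => ?_
      simp only [LinearMap.smul_apply, LinearMap.comp_apply, map_add, smul_add]
      abel
  have h := LinearMap.congr_fun key c
  rw [LinearMap.comp_apply, LinearMap.sum_apply] at h
  exact h

theorem Th_self (n : ℕ) (c : EqF (rT Y ρ) Y.F) : d.Th ρ n n c = Y.B2 (rT Y ρ) c := by
  have hA : ∀ e : EE Y, opA Y N n n e = LinearMap.id := by
    intro e
    have h0 : mulD Y N (n - n) e = LinearMap.id := by
      refine LinearMap.ext fun φ => funext fun ℓ => ?_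
      show (ℓ e) ^ (n - n) • φ ℓ = φ ℓ
      rw [Nat.sub_self, pow_zero, one_smul]
    rw [opA, h0, Nat.choose_self, Nat.cast_one, one_smul, LinearMap.lTensor_id]
  have key : d.Th ρ n n = Y.B2 (rT Y ρ) := by
    refine EqF.hom_ext (rT Y ρ) fun σ m => ?_
    rw [MomData.Th, EqF.lift_sg, HCpx.B2_sg]
    have h : ∀ (w : List (Y.E × Bool)) (e0 : EE Y), (((d.offs e0 w).map fun p =>
        sgnb p.1.2 • (EqF.sg (rT Y ρ) p.1.1 ∘ₗ opA Y N n n p.2)).sum) m =
        (w.map fun b => sgnb b.2 • EqF.sg (rT Y ρ) b.1 m).sum := by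
      intro w
      induction w with
      | nil => intro e0; rfl
      | cons b w ih =>
        intro e0
        simp only [MomData.offs, List.map_cons, List.sum_cons, LinearMap.add_apply, ih,
          LinearMap.smul_apply, LinearMap.comp_apply]
        rw [hA, LinearMap.id_apply]
    exact h _ _
  rw [key]

/-- constant functions on the dual -/
def cst (Y : HCpx H) (N : Type) [AddCommGroup N] [Module ℚ N] : N →ₗ[ℚ] DN Y N where
  toFun a := fun _ => a
  map_add' _ _ := rfl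
  map_smul' _ _ := rfl

theorem mm_zero (c : EqF ρ Y'.F) :
    d.mm ρ 0 c = EqF.mapc ρ (rD Y ρ) (cst Y N) (fun _ _ => rfl) (EqF.push ρ d.q.f d.q.f_smul c) := by
  have key : d.mm ρ 0 = (EqF.mapc ρ (rD Y ρ) (cst Y N) (fun _ _ => rfl)) ∘ₗ
      (EqF.push ρ d.q.f d.q.f_smul) := by
    refine EqF.hom_ext ρ fun τ a => ?_
    rw [LinearMap.comp_apply, EqF.push_sg, EqF.mapc_sg, MomData.mm, EqF.lift_sg,
      LinearMap.comp_apply]
    congr 1
    funext ℓ
    show (ℓ (d.u (Y'.base τ))) ^ 0 • a = a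
    rw [pow_zero, one_smul]
  rw [key]
  rfl

/-- `e ⊗ φ ↦ (ℓ ↦ ℓ(e) φ(ℓ))` -/
def kap (Y : HCpx H) (N : Type) [AddCommGroup N] [Module ℚ N] :
    (EE Y) ⊗[ℚ] (DN Y N) →ₗ[ℚ] DN Y N :=
  TensorProduct.lift
    { toFun := fun e => mulD Y N 1 e
      map_add' := fun e e' => by
        ext φ ℓ
        simp [mulD, add_smul]
      map_smul' := fun r e => by
        ext φ ℓ
        simp [mulD, mul_smul] }

theorem kap_tmul (Y : HCpx H) (N : Type) [AddCommGroup N] [Module ℚ N] (e : EE Y) (φ : DN Y N) :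
    kap Y N (e ⊗ₜ φ) = mulD Y N 1 e φ := by
  simp [kap]

theorem kap_equiv (h : H) (z : (EE Y) ⊗[ℚ] (DN Y N)) :
    kap Y N (rT Y ρ h z) = rD Y ρ h (kap Y N z) := by
  induction z using TensorProduct.induction_on with
  | zero => simp
  | add x y hx hy => simp only [map_add, hx, hy]
  | tmul e φ =>
    rw [Representation.tprod_apply, TensorProduct.map_tmul, kap_tmul, kap_tmul, mulD_equiv]

theorem mm_succ (n : ℕ) (c : EqF ρ Y'.F) :
    d.mm ρ (n + 1) c = EqF.mapc (rT Y ρ) (rD Y ρ) (kap Y N) (kap_equiv ρ) (d.tt ρ n c) := by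
  have key : d.mm ρ (n + 1) = (EqF.mapc (rT Y ρ) (rD Y ρ) (kap Y N) (kap_equiv ρ)) ∘ₗ
      (d.tt ρ n) := by
    refine EqF.hom_ext ρ fun τ a => ?_
    rw [LinearMap.comp_apply, MomData.mm, EqF.lift_sg, MomData.tt, EqF.lift_sg,
      LinearMap.comp_apply, LinearMap.comp_apply, EqF.mapc_sg]
    congr 1
    show _ = kap Y N (d.u (Y'.base τ) ⊗ₜ pw Y N n (d.u (Y'.base τ)) a)
    rw [kap_tmul]
    funext ℓ
    show (ℓ (d.u (Y'.base τ))) ^ (n + 1) • a = (ℓ (d.u (Y'.base τ))) ^ 1 • ((ℓ (d.u (Y'.base τ))) ^ n • a)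
    rw [smul_smul, pow_one, pow_succ']
  rw [key]
  rfl

/-- `push` commutes with the boundary operators -/
theorem push_B2 (c : EqF ρ Y'.F) :
    Y.B2 ρ (EqF.push ρ d.q.f d.q.f_smul c) = EqF.push ρ d.q.e d.q.e_smul (Y'.B2 ρ c) := by
  have key : (Y.B2 ρ) ∘ₗ (EqF.push ρ d.q.f d.q.f_smul) =
      (EqF.push ρ d.q.e d.q.e_smul) ∘ₗ (Y'.B2 ρ) := by
    refine EqF.hom_ext ρ fun τ a => ?_
    rw [LinearMap.comp_apply, LinearMap.comp_apply, EqF.push_sg, HCpx.B2_sg, HCpx.B2_sg,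
      d.q.bd_e, map_list_sum, List.map_map, List.map_map]
    congr 1
    refine List.map_congr_left fun b _ => ?_
    rw [Function.comp_apply, Function.comp_apply, map_smul, EqF.push_sg]
    rfl
  exact LinearMap.congr_fun key c

end MomData

end Pool.Agent.H60.CI

end NC_H60_CI_MoA1

end S_H60_CI_MoA

section S_H60_CI_EqA

/-!
# Row EqA: API of `EqF` (evaluation, decomposition, exactness in the coefficients)

All statements: `EqF ρ T = (T →₀ N) / ⟨(h • t, ρ h n) - (t, n)⟩`, `sg ρ t n` = class of `(t, n)`,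
`ev ρ t` = evaluation (for free actions), `ev ρ t (sg ρ s n) = ρ g n` if `g • s = t`, `= 0` if `t`
is not in the orbit of `s` (`ev_sg`, `ev_sg_of_not`).

Proofs.
* `ev_smul`: both sides are linear in `c`, so by `hom_ext` take `c = sg s n`.  If `g • s = t` then
  `(h * g) • s = h • t`; if `t` is not in the orbit of `s` neither is `h • t`.
* `decomp`: induction over `c` (`Submodule.mkQ_surjective`, `Finsupp.induction_linear`, or better:
  write `c = Σ_{t ∈ A} sg t (z t)` with `A` finite, choose a representative of each orbit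
  meeting `A` (for instance with `Quotient.out` of `MulAction.orbitRel.Quotient H T`), move every
  term to the representative with `sg_smul`, and read off the coefficient with `ev`.)
  Possible clean way: let `r t := (⟦t⟧ : orbitRel.Quotient H T).out`; every `c` is `Σ` over a
  finite set of orbits `o` of `sg o.out (m o)`; then `ev o.out c = m o` because different orbits
  do not interact.
* `ext`: from `decomp`, all `ev ρ s c = 0`.
* `mapc_injective`: `ev ρ' t (mapc c) = f (ev ρ t c)` (`ev_mapc`) and `ext`.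
* `mapc_exact`: `c = Σ_{s ∈ S} sg s (ev s c)`, `g (ev s c) = ev s (mapc g c) = 0`, choose `m s` with
  `f (m s) = ev s c`, take `c' = Σ sg s (m s)`.
* `mapc_surjective`: every `c` is a finite sum of `sg t n`.
-/

noncomputable section NC_H60_CI_EqA1

namespace Pool.Agent.H60.CI.EqF

open Finsupp

variable {H : Type} [Group H]
variable {N : Type} [AddCommGroup N] [Module ℚ N] (ρ : Representation ℚ H N)
variable {T : Type} [MulAction H T]

theorem induction_sg {P : EqF ρ T → Prop} (c : EqF ρ T) (h0 : P 0)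
    (hadd : ∀ c d, P c → P d → P (c + d)) (hs : ∀ t n, P (sg ρ t n)) : P c := by
  obtain ⟨z, rfl⟩ := (eqRel ρ T).mkQ_surjective c
  induction z using Finsupp.induction_linear with
  | zero =>
    rw [map_zero]
    exact h0
  | add f g hf hg =>
    rw [map_add]
    exact hadd _ _ hf hg
  | single t n => exact hs t n

theorem ev_smul [FreeAct H T] (h : H) (t : T) (c : EqF ρ T) :
    ev ρ (h • t) c = ρ h (ev ρ t c) := by
  induction c using induction_sg with
  | h0 => simp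
  | hadd c d hc hd => rw [map_add, map_add, map_add, hc, hd]
  | hs s n =>
    by_cases hg : ∃ g : H, g • s = t
    · obtain ⟨g, hg⟩ := hg
      rw [ev_sg ρ hg, ev_sg ρ (g := h * g) (by rw [mul_smul, hg]), map_mul]
      rfl
    · rw [ev_sg_of_not ρ (fun g hg' => hg ⟨g, hg'⟩), ev_sg_of_not ρ (fun g hg' => hg ⟨h⁻¹ * g, by
        rw [mul_smul, hg', inv_smul_smul]⟩), map_zero]

/-- canonical representative of the orbit -/
def EqA_r (H : Type) {T : Type} [Group H] [MulAction H T] (t : T) : T :=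
  (Quotient.mk (MulAction.orbitRel H T) t).out

theorem EqA_r_mem (t : T) : ∃ g : H, g • t = EqA_r H t := by
  have h : (MulAction.orbitRel H T) (EqA_r H t) t :=
    Quotient.exact (Quotient.out_eq (Quotient.mk (MulAction.orbitRel H T) t))
  obtain ⟨g, hg⟩ := MulAction.orbitRel_apply.1 h
  exact ⟨g, hg⟩

theorem EqA_r_smul (h : H) (t : T) : EqA_r H (h • t) = EqA_r H t := by
  unfold EqA_r
  congr 1
  apply Quotient.sound
  exact MulAction.orbitRel_apply.2 ⟨h, rfl⟩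

theorem EqA_decomp [FreeAct H T] (c : EqF ρ T) : ∃ A : Finset T, (∀ a ∈ A, EqA_r H a = a) ∧
    ∀ A' : Finset T, A ⊆ A' → (∀ a ∈ A', EqA_r H a = a) → c = ∑ s ∈ A', sg ρ s (ev ρ s c) := by
  classical
  induction c using induction_sg with
  | h0 => exact ⟨∅, by simp, fun A' _ _ => by simp⟩
  | hadd c d hc hd =>
    obtain ⟨A, hA1, hA2⟩ := hc
    obtain ⟨B, hB1, hB2⟩ := hd
    refine ⟨A ∪ B, ?_, ?_⟩
    · intro a ha
      rcases Finset.mem_union.1 ha with h | h
      · exact hA1 a h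
      · exact hB1 a h
    · intro A' h1 h2
      have e1 := hA2 A' (Finset.subset_union_left.trans h1) h2
      have e2 := hB2 A' (Finset.subset_union_right.trans h1) h2
      conv_lhs => rw [e1, e2]
      rw [← Finset.sum_add_distrib]
      exact Finset.sum_congr rfl fun s _ => by rw [map_add, map_add]
  | hs t n =>
    obtain ⟨g, hg⟩ := EqA_r_mem (H := H) t
    refine ⟨{EqA_r H t}, ?_, ?_⟩
    · intro a ha
      rw [Finset.mem_singleton] at ha
      subst ha
      rw [← hg, EqA_r_smul, hg]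
    · intro A' h1 h2
      rw [Finset.sum_eq_single (EqA_r H t)]
      · rw [ev_sg ρ hg]
        conv_rhs => rw [← hg]
        rw [sg_smul]
      · intro a ha hne
        rw [ev_sg_of_not ρ ?_, map_zero]
        intro g' hg'
        apply hne
        rw [← h2 a ha, ← hg', EqA_r_smul]
      · intro h3
        exact absurd (h1 (Finset.mem_singleton_self _)) h3

theorem decomp [FreeAct H T] (c : EqF ρ T) : ∃ S : Finset T,
    (∀ s ∈ S, ∀ s' ∈ S, (∃ h : H, h • s = s') → s = s') ∧ c = ∑ s ∈ S, sg ρ s (ev ρ s c) := by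
  obtain ⟨A, hA1, hA2⟩ := EqA_decomp ρ c
  refine ⟨A, ?_, hA2 A (Finset.Subset.refl A) hA1⟩
  rintro s hs s' hs' ⟨h, hh⟩
  rw [← hA1 s hs, ← hA1 s' hs', ← hh, EqA_r_smul]

theorem ext [FreeAct H T] {c : EqF ρ T} (hc : ∀ t, ev ρ t c = 0) : c = 0 := by
  obtain ⟨S, -, hS⟩ := decomp ρ c
  rw [hS]
  exact Finset.sum_eq_zero fun s _ => by rw [hc, map_zero]

theorem ev_mapc [FreeAct H T] {N' : Type} [AddCommGroup N'] [Module ℚ N']
    (ρ' : Representation ℚ H N') (f : N →ₗ[ℚ] N') (hf : ∀ h n, f (ρ h n) = ρ' h (f n)) (t : T)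
    (c : EqF ρ T) : ev ρ' t (mapc ρ ρ' f hf c) = f (ev ρ t c) := by
  induction c using induction_sg with
  | h0 => simp
  | hadd c d hc hd => rw [map_add, map_add, map_add, map_add, hc, hd]
  | hs s n =>
    rw [mapc_sg]
    by_cases hg : ∃ g : H, g • s = t
    · obtain ⟨g, hg⟩ := hg
      rw [ev_sg ρ' hg, ev_sg ρ hg, hf]
    · rw [ev_sg_of_not ρ (fun g hg' => hg ⟨g, hg'⟩), ev_sg_of_not ρ' (fun g hg' => hg ⟨g, hg'⟩),
        map_zero]

theorem mapc_injective [FreeAct H T] {N' : Type} [AddCommGroup N'] [Module ℚ N']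
    (ρ' : Representation ℚ H N') (f : N →ₗ[ℚ] N') (hf : ∀ h n, f (ρ h n) = ρ' h (f n))
    (hinj : Function.Injective f) : Function.Injective (mapc (T := T) ρ ρ' f hf) := by
  rw [injective_iff_map_eq_zero]
  intro c hc
  apply ext
  intro t
  apply hinj
  rw [map_zero, ← ev_mapc ρ ρ' f hf, hc, map_zero]

theorem mapc_surjective {N' : Type} [AddCommGroup N'] [Module ℚ N']
    (ρ' : Representation ℚ H N') (f : N →ₗ[ℚ] N') (hf : ∀ h n, f (ρ h n) = ρ' h (f n))
    (hsur : Function.Surjective f) : Function.Surjective (mapc (T := T) ρ ρ' f hf) := by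
  intro c
  induction c using induction_sg with
  | h0 => exact ⟨0, map_zero _⟩
  | hadd c d hc hd =>
    obtain ⟨c', hc⟩ := hc
    obtain ⟨d', hd⟩ := hd
    exact ⟨c' + d', by rw [map_add, hc, hd]⟩
  | hs t n =>
    obtain ⟨m, rfl⟩ := hsur n
    exact ⟨sg ρ t m, mapc_sg ρ ρ' f hf t m⟩

theorem mapc_exact [FreeAct H T] {N₁ N₃ : Type} [AddCommGroup N₁] [Module ℚ N₁]
    [AddCommGroup N₃] [Module ℚ N₃] (ρ₁ : Representation ℚ H N₁) (ρ₃ : Representation ℚ H N₃)
    (f : N₁ →ₗ[ℚ] N) (hf : ∀ h n, f (ρ₁ h n) = ρ h (f n))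
    (g : N →ₗ[ℚ] N₃) (hg : ∀ h n, g (ρ h n) = ρ₃ h (g n))
    (hex : ∀ n, g n = 0 → ∃ m, f m = n) (c : EqF ρ T) (hc : mapc ρ ρ₃ g hg c = 0) :
    ∃ c' : EqF ρ₁ T, mapc ρ₁ ρ f hf c' = c := by
  obtain ⟨S, -, hS⟩ := decomp ρ c
  have h1 : ∀ s, ∃ m, f m = ev ρ s c := by
    intro s
    apply hex
    rw [← ev_mapc ρ ρ₃ g hg, hc, map_zero]
  choose m hm using h1
  refine ⟨∑ s ∈ S, sg ρ₁ s (m s), ?_⟩
  conv_rhs => rw [hS]
  rw [map_sum]
  exact Finset.sum_congr rfl fun s _ => by rw [mapc_sg, hm]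

/-- `mapc` is functorial -/
theorem mapc_mapc {N₁ N₃ : Type} [AddCommGroup N₁] [Module ℚ N₁]
    [AddCommGroup N₃] [Module ℚ N₃] (ρ₁ : Representation ℚ H N₁) (ρ₃ : Representation ℚ H N₃)
    (f : N₁ →ₗ[ℚ] N) (hf : ∀ h n, f (ρ₁ h n) = ρ h (f n))
    (g : N →ₗ[ℚ] N₃) (hg : ∀ h n, g (ρ h n) = ρ₃ h (g n)) (c : EqF ρ₁ T) :
    mapc ρ ρ₃ g hg (mapc ρ₁ ρ f hf c)
      = mapc ρ₁ ρ₃ (g ∘ₗ f) (fun h n => by simp [hf, hg]) c := by
  induction c using induction_sg with
  | h0 => simp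
  | hadd c d hc hd => rw [map_add, map_add, map_add, hc, hd]
  | hs t n =>
    rw [mapc_sg, mapc_sg, mapc_sg]
    rfl

/-- `mapc` commutes with `mat` -/
theorem mapc_mat {N' : Type} [AddCommGroup N'] [Module ℚ N'] (ρ' : Representation ℚ H N')
    (f : N →ₗ[ℚ] N') (hf : ∀ h n, f (ρ h n) = ρ' h (f n)) {T' : Type} [MulAction H T']
    (D : T → (T' →₀ ℚ)) (hD : ∀ (h : H) (t : T), D (h • t) = (D t).mapDomain (h • ·))
    (c : EqF ρ T) :
    mapc ρ ρ' f hf (mat ρ D hD c) = mat ρ' D hD (mapc ρ ρ' f hf c) := by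
  induction c using induction_sg with
  | h0 => simp
  | hadd c d hc hd => rw [map_add, map_add, map_add, map_add, hc, hd]
  | hs t n =>
    rw [mapc_sg, mat_sg, mat_sg, Finsupp.sum, Finsupp.sum, map_sum]
    exact Finset.sum_congr rfl fun t' _ => by rw [map_smul, mapc_sg]

end Pool.Agent.H60.CI.EqF

end NC_H60_CI_EqA1

end S_H60_CI_EqA

section S_H60_CI_Sep

/-!
# Row Sep: separation by moments (pure linear algebra)

Let `e i` (`i ∈ I`, finite) be distinct vectors of a `ℚ`-vector space `E`, `c i` vectors of `N`, and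
`Σ_i ℓ(e i)^n c i = 0` for all linear forms `ℓ` and all `n`.  Then all `c i = 0`.

Proof.
* `exists_sep`: there is a linear form `ℓ` with `ℓ (e i) ≠ ℓ (e j)` for all `i ≠ j` in `I`.  By
  induction on the finite set `D` of non-zero vectors (`D` = all differences `e i - e j`, `i ≠ j`):
  for every finite set `D` of non-zero vectors there is `ℓ` with `ℓ v ≠ 0` for `v ∈ D`: if `ℓ` works
  for `D` and `ℓ v = 0` for the new `v`, take `ℓ'` with `ℓ' v ≠ 0`
  (`Module.exists_dual_forall_apply_ne_zero` or `Module.forall_dual_apply_eq_zero_iff`) and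
  `ℓ + r • ℓ'` with `r : ℚ` non-zero and outside the finite set `{- ℓ v' / ℓ' v'}`.
  (Mathlib may have it: `Module.Dual.exists_forall_mem_ne_zero_of_forall_exists` or
  `Module.exists_dual_forall_apply_ne_zero`.)
* For a polynomial `P : Polynomial ℚ`: `Σ_i P(ℓ (e i)) • c i = 0` by linearity.  Lagrange: for `i0 ∈ I`
  take `P = ∏_{j ∈ I, j ≠ i0} (X - ℓ (e j))`, which vanishes at `ℓ (e j)`, `j ≠ i0`, and not at
  `ℓ (e i0)`.  So `P(ℓ (e i0)) • c i0 = 0` and `c i0 = 0`.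
-/

namespace Pool.Agent.H60.CI

theorem exists_sep {ι E : Type} [AddCommGroup E] [Module ℚ E] (I : Finset ι) (e : ι → E)
    (hinj : ∀ i ∈ I, ∀ j ∈ I, e i = e j → i = j) :
    ∃ ℓ : Module.Dual ℚ E, ∀ i ∈ I, ∀ j ∈ I, ℓ (e i) = ℓ (e j) → i = j := by
  classical
  obtain ⟨ℓ, hℓ⟩ := Module.exists_dual_forall_apply_ne_zero (K := ℚ)
    (fun q : {q : I × I // q.1 ≠ q.2} => e q.1.1 - e q.1.2) (by
      rintro ⟨⟨i, j⟩, hij⟩ h0
      apply hij
      exact Subtype.ext (hinj i i.2 j j.2 (sub_eq_zero.1 h0)))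
  refine ⟨ℓ, fun i hi j hj h => ?_⟩
  by_contra hne
  refine hℓ ⟨(⟨i, hi⟩, ⟨j, hj⟩), fun h2 => hne (congrArg Subtype.val h2)⟩ ?_
  show ℓ (e i - e j) = 0
  rw [map_sub, h, sub_self]

theorem Sep_poly {ι E N : Type} [AddCommGroup E] [Module ℚ E] [AddCommGroup N] [Module ℚ N]
    (I : Finset ι) (e : ι → E) (c : ι → N) (ℓ : Module.Dual ℚ E)
    (h : ∀ n : ℕ, ∑ i ∈ I, (ℓ (e i)) ^ n • c i = 0) (P : Polynomial ℚ) :
    ∑ i ∈ I, (P.eval (ℓ (e i))) • c i = 0 := by
  have h1 : ∀ i ∈ I, (P.eval (ℓ (e i))) • c i =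
      ∑ n ∈ Finset.range (P.natDegree + 1), P.coeff n • ((ℓ (e i)) ^ n • c i) := by
    intro i _
    rw [Polynomial.eval_eq_sum_range, Finset.sum_smul]
    exact Finset.sum_congr rfl fun n _ => mul_smul _ _ _
  rw [Finset.sum_congr rfl h1, Finset.sum_comm]
  refine Finset.sum_eq_zero fun n _ => ?_
  rw [← Finset.smul_sum, h n, smul_zero]

theorem moment_sep {ι E N : Type} [AddCommGroup E] [Module ℚ E] [AddCommGroup N] [Module ℚ N]
    (I : Finset ι) (e : ι → E) (c : ι → N) (hinj : ∀ i ∈ I, ∀ j ∈ I, e i = e j → i = j)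
    (h : ∀ (ℓ : Module.Dual ℚ E) (n : ℕ), ∑ i ∈ I, (ℓ (e i)) ^ n • c i = 0) :
    ∀ i ∈ I, c i = 0 := by
  classical
  obtain ⟨ℓ, hℓ⟩ := exists_sep I e hinj
  intro i hi
  have h1 := Sep_poly I e c ℓ (h ℓ)
    (∏ j ∈ I.erase i, (Polynomial.X - Polynomial.C (ℓ (e j))))
  rw [Finset.sum_eq_single i] at h1
  · refine (smul_eq_zero.1 h1).resolve_left ?_
    rw [Polynomial.eval_prod]
    refine Finset.prod_ne_zero_iff.2 ?_
    intro j hj
    rw [Polynomial.eval_sub, Polynomial.eval_X, Polynomial.eval_C, sub_ne_zero]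
    intro h2
    exact (Finset.mem_erase.1 hj).1 (hℓ j (Finset.mem_erase.1 hj).2 i hi h2.symm)
  · intro j hj hji
    rw [Polynomial.eval_prod, Finset.prod_eq_zero (Finset.mem_erase.2 ⟨hji, hj⟩), zero_smul]
    rw [Polynomial.eval_sub, Polynomial.eval_X, Polynomial.eval_C, sub_self]
  · intro h2
    exact absurd hi h2

end Pool.Agent.H60.CI

end S_H60_CI_Sep

section S_H60_CI_MoB

/-!
# Row MoB: an equivariant 2-chain whose moments all vanish is zero

Let `c : EqF ρ Y'.F` with `mm n c = 0` for all `n`.  Then `c = 0`.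

Proof.  By `EqF.decomp`, `c = Σ_{τ ∈ S} sg τ (c_τ)` with `c_τ = ev τ c` and the elements of `S` in
different orbits.  By `EqF.ext` it suffices: `ev τ0 c = 0` for all `τ0 : Y'.F`.  Fix `τ0`, put
`σ = q τ0`.  Let `S' ⊆ S` be the set of `τ ∈ S` such that some `h_τ • q τ = σ` (`h_τ` is unique), and for
`τ ∈ S'` put `τ' = h_τ • τ`; these are distinct 2-cells over `σ` (different orbits).  Then
`0 = ev σ (mm n c) = Σ_{τ ∈ S'} rD h_τ (pw n (u (base τ)) c_τ) = Σ_{τ ∈ S'} pw n (u (base τ')) (ρ h_τ c_τ)`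
(`ev_sg`, `ev_sg_of_not`, `pw_equiv`, `u_smul`, `base_smul`), i.e.
`Σ_{τ ∈ S'} ℓ(u (base τ'))^n • (ρ h_τ c_τ) = 0` for all `ℓ`, `n`.  The vectors `u (base τ')` are distinct:
if `u (base τ') = u (base τ'')` then, as `q (base τ') = base (q τ') = base σ = q (base τ'')`
(`base_v`), `base τ' = base τ''` by `u_inj` and `τ' = τ''` by `face_inj`.  So `moment_sep` gives
`ρ h_τ c_τ = 0`, `c_τ = 0` for all `τ ∈ S'`.  Finally `ev τ0 c = Σ_{τ ∈ S} ev τ0 (sg τ c_τ)`: if `τ` is in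
the orbit of `τ0` then `τ ∈ S'` and `c_τ = 0`; otherwise the term is 0.
-/

noncomputable section NC_H60_CI_MoB1

namespace Pool.Agent.H60.CI

open Finsupp TensorProduct

variable {H : Type} [Group H]

theorem MomData.eq_zero_of_mm {Y' Y : HCpx H} (d : MomData Y' Y)
    {N : Type} [AddCommGroup N] [Module ℚ N] (ρ : Representation ℚ H N)
    (c : EqF ρ Y'.F) (hc : ∀ n, d.mm ρ n c = 0) : c = 0 := by
  classical
  apply EqF.ext
  intro τ0
  obtain ⟨S, hS, hcS⟩ := EqF.decomp ρ c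
  obtain ⟨z, hz⟩ : ∃ z : Y'.F → N, z = fun τ => EqF.ev ρ τ c := ⟨_, rfl⟩
  have hcz : c = ∑ τ ∈ S, EqF.sg ρ τ (z τ) := by rw [hz]; exact hcS
  obtain ⟨σ, hσ⟩ : ∃ σ, σ = d.q.f τ0 := ⟨_, rfl⟩
  have hh : ∀ τ : Y'.F, ∃ h : H, (∃ h' : H, h' • d.q.f τ = σ) → h • d.q.f τ = σ := by
    intro τ
    by_cases h : ∃ h' : H, h' • d.q.f τ = σ
    · obtain ⟨h', h1⟩ := h
      exact ⟨h', fun _ => h1⟩
    · exact ⟨1, fun h2 => absurd h2 h⟩
  choose hf hhf using hh
  have key : ∀ (ℓ : Module.Dual ℚ (EE Y)) (n : ℕ),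
      ∑ τ ∈ S.filter (fun τ => ∃ h' : H, h' • d.q.f τ = σ),
        (ℓ (d.u (Y'.base (hf τ • τ)))) ^ n • ρ (hf τ) (z τ) = 0 := by
    intro ℓ n
    have h1 : EqF.ev (rD Y ρ) σ (d.mm ρ n c) = 0 := by rw [hc, map_zero]
    rw [hcz, map_sum, map_sum] at h1
    have h2 : ∀ τ ∈ S, EqF.ev (rD Y ρ) σ (d.mm ρ n (EqF.sg ρ τ (z τ))) =
        if (∃ h' : H, h' • d.q.f τ = σ) then
          pw Y N n (d.u (Y'.base (hf τ • τ))) (ρ (hf τ) (z τ)) else 0 := by
      intro τ _
      have h3 : d.mm ρ n (EqF.sg ρ τ (z τ)) =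
          EqF.sg (rD Y ρ) (d.q.f τ) (pw Y N n (d.u (Y'.base τ)) (z τ)) := by
        rw [MomData.mm, EqF.lift_sg]
        rfl
      rw [h3]
      split_ifs with h
      · rw [EqF.ev_sg (rD Y ρ) (hhf τ h), Y'.base_smul, d.u_smul, pw_equiv]
      · exact EqF.ev_sg_of_not (rD Y ρ) (fun g hg => h ⟨g, hg⟩) _
    rw [Finset.sum_congr rfl h2, ← Finset.sum_filter] at h1
    have h4 := congrFun h1 ℓ
    rw [Finset.sum_apply] at h4
    exact h4
  have hinj : ∀ τ ∈ S.filter (fun τ => ∃ h' : H, h' • d.q.f τ = σ),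
      ∀ τ' ∈ S.filter (fun τ => ∃ h' : H, h' • d.q.f τ = σ),
      d.u (Y'.base (hf τ • τ)) = d.u (Y'.base (hf τ' • τ')) → τ = τ' := by
    intro τ hτ τ' hτ' he
    rw [Finset.mem_filter] at hτ hτ'
    have h1 : ∀ τ : Y'.F, (∃ h' : H, h' • d.q.f τ = σ) → d.q.f (hf τ • τ) = σ := by
      intro τ h
      rw [d.q.f_smul]
      exact hhf τ h
    have h2 := d.u_inj _ _ (by
      rw [← d.q.base_v, ← d.q.base_v, h1 τ hτ.2, h1 τ' hτ'.2]) he
    have h3 := d.face_inj _ _ h2 (by rw [h1 τ hτ.2, h1 τ' hτ'.2])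
    refine hS τ hτ.1 τ' hτ'.1 ⟨(hf τ')⁻¹ * hf τ, ?_⟩
    rw [mul_smul, h3, inv_smul_smul]
  have h0 := moment_sep _ (fun τ => d.u (Y'.base (hf τ • τ))) (fun τ => ρ (hf τ) (z τ)) hinj key
  rw [hcz, map_sum]
  refine Finset.sum_eq_zero fun τ hτ => ?_
  by_cases hg : ∃ g : H, g • τ = τ0
  · obtain ⟨g, hg⟩ := hg
    have h1 : ∃ h' : H, h' • d.q.f τ = σ := ⟨g, by rw [← d.q.f_smul, hg, hσ]⟩
    have h2 : ρ (hf τ) (z τ) = 0 := h0 τ (Finset.mem_filter.2 ⟨hτ, h1⟩)
    have h3 : z τ = 0 := by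
      have h4 : ρ (hf τ)⁻¹ (ρ (hf τ) (z τ)) = z τ := by
        rw [← Module.End.mul_apply, ← map_mul, inv_mul_cancel, map_one]
        rfl
      rw [← h4, h2, map_zero]
    rw [h3, map_zero, map_zero]
  · exact EqF.ev_sg_of_not ρ (fun g h => hg ⟨g, h⟩) _

end Pool.Agent.H60.CI

end NC_H60_CI_MoB1

end S_H60_CI_MoB

section S_H60_CI_EqB

/-!
# Row EqB: exchanging the two variables of an equivariant function

An element of `EqF (PT ρ S) T` is an equivariant function `T → (S →₀ ℚ) ⊗ N`, i.e. an equivariant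
function of two variables; `swap` exchanges the variables:
`swap (sg t (single s 1 ⊗ n)) = sg s (single t 1 ⊗ n)`.

Proofs.
* `swap_aux` (well defined): it suffices (linearity; `TensorProduct.induction_on`,
  `Finsupp.induction_linear`) to check `single s r ⊗ n`:
  `L (h • t) (single (h • s) r ⊗ ρ h n) = r • sg (h • s) (single (h • t) 1 ⊗ ρ h n)
     = r • sg (h • s) (PT ρ T h (single t 1 ⊗ n)) = r • sg s (single t 1 ⊗ n)` by `sg_smul`.
* `swap_sg`: unfold.  `swap_swap`: `hom_ext`, then tensor/finsupp extensionality.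
* `swap_mat`: both sides linear in `c`; check `c = sg t (single s 1 ⊗ n)`:
  `mat D c = Σ_{t'} D t t' • sg t' (single s 1 ⊗ n)`, swap gives `Σ D t t' • sg s (single t' 1 ⊗ n)
   = sg s ((D t) ⊗ n)`, and `mapc (lin D ⊗ id) (sg s (single t 1 ⊗ n)) = sg s (lin D (single t 1) ⊗ n)`.
* `swap_mapc` follows from `swap_mat` and `swap_swap`.
-/

noncomputable section NC_H60_CI_EqB1

namespace Pool.Agent.H60.CI

open Finsupp TensorProduct

variable {H : Type} [Group H]
variable {N : Type} [AddCommGroup N] [Module ℚ N] (ρ : Representation ℚ H N)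

/-- the representation `(S →₀ ℚ) ⊗ N` -/
abbrev PT (S : Type) [MulAction H S] : Representation ℚ H ((S →₀ ℚ) ⊗[ℚ] N) :=
  (perm H S).tprod ρ

namespace EqF

variable (S T : Type) [MulAction H S] [MulAction H T]

/-- the local formula for `swap` -/
def swapL (t : T) : (S →₀ ℚ) ⊗[ℚ] N →ₗ[ℚ] EqF (PT ρ T) S :=
  TensorProduct.lift (Finsupp.linearCombination ℚ
    (fun s : S => (sg (PT ρ T) s) ∘ₗ (TensorProduct.mk ℚ (T →₀ ℚ) N (single t 1))))

theorem EqB_PT_tmul {S : Type} [MulAction H S] (h : H) (f : S →₀ ℚ) (n : N) :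
    PT ρ S h (f ⊗ₜ[ℚ] n) = (perm H S h f) ⊗ₜ[ℚ] (ρ h n) := rfl

theorem swapL_single (t : T) (s : S) (r : ℚ) (n : N) :
    swapL ρ S T t (single s r ⊗ₜ[ℚ] n) = r • sg (PT ρ T) s (single t 1 ⊗ₜ[ℚ] n) := by
  unfold swapL
  rw [TensorProduct.lift.tmul, Finsupp.linearCombination_single]
  rfl

theorem swap_aux (h : H) (t : T) (n : (S →₀ ℚ) ⊗[ℚ] N) :
    swapL ρ S T (h • t) (PT ρ S h n) = swapL ρ S T t n := by
  induction n using TensorProduct.induction_on with
  | zero => simp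
  | add x y hx hy => rw [map_add, map_add, hx, hy, map_add]
  | tmul f n =>
    induction f using Finsupp.induction_linear with
    | zero => simp
    | add f g hf hg =>
      rw [TensorProduct.add_tmul, map_add, map_add, hf, hg, map_add]
    | single s r =>
      rw [EqB_PT_tmul, perm_single, swapL_single, swapL_single]
      congr 1
      have h1 := sg_smul (PT ρ T) h s (single t 1 ⊗ₜ[ℚ] n)
      rw [EqB_PT_tmul, perm_single] at h1
      exact h1

/-- exchanging the two variables -/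
def swap : EqF (PT ρ S) T →ₗ[ℚ] EqF (PT ρ T) S :=
  lift (PT ρ S) (swapL ρ S T) (swap_aux ρ S T)

variable {S T}

theorem swap_sg (t : T) (s : S) (n : N) :
    swap ρ S T (sg (PT ρ S) t (single s 1 ⊗ₜ n)) = sg (PT ρ T) s (single t 1 ⊗ₜ n) := by
  unfold swap
  rw [lift_sg, swapL_single, one_smul]

theorem EqB_ext {W : Type} [AddCommGroup W] [Module ℚ W] {f g : EqF (PT ρ S) T →ₗ[ℚ] W}
    (h : ∀ t s n, f (sg (PT ρ S) t (single s 1 ⊗ₜ[ℚ] n)) = g (sg (PT ρ S) t (single s 1 ⊗ₜ[ℚ] n))) :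
    f = g := by
  apply hom_ext
  intro t x
  induction x using TensorProduct.induction_on with
  | zero => simp
  | add x y hx hy => rw [map_add, map_add, map_add, hx, hy]
  | tmul z n =>
    induction z using Finsupp.induction_linear with
    | zero => simp
    | add a b ha hb => rw [TensorProduct.add_tmul, map_add, map_add, map_add, ha, hb]
    | single s r =>
      have h1 : (single s r : S →₀ ℚ) = r • single s 1 := by simp
      rw [h1, ← TensorProduct.smul_tmul', map_smul, map_smul, map_smul, h]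

theorem swap_swap (c : EqF (PT ρ S) T) : swap ρ T S (swap ρ S T c) = c := by
  have h : (swap ρ T S) ∘ₗ (swap ρ S T) = LinearMap.id := by
    apply EqB_ext
    intro t s n
    rw [LinearMap.comp_apply, swap_sg, swap_sg, LinearMap.id_apply]
  exact LinearMap.congr_fun h c

/-- the linear map of a matrix -/
def lin {T T' : Type} (D : T → (T' →₀ ℚ)) : (T →₀ ℚ) →ₗ[ℚ] (T' →₀ ℚ) :=
  Finsupp.linearCombination ℚ D

@[simp] theorem lin_single {T T' : Type} (D : T → (T' →₀ ℚ)) (t : T) (r : ℚ) :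
    lin D (single t r) = r • D t := by
  simp [lin]

theorem lin_equiv {T' : Type} [MulAction H T'] (D : T → (T' →₀ ℚ))
    (hD : ∀ (h : H) (t : T), D (h • t) = (D t).mapDomain (h • ·)) (h : H) (z : T →₀ ℚ) :
    lin D (perm H T h z) = perm H T' h (lin D z) := by
  induction z using Finsupp.induction_linear with
  | zero => simp
  | add f g hf hg => rw [map_add, map_add, hf, hg, map_add, map_add]
  | single t r => rw [perm_single, lin_single, lin_single, map_smul, hD]; rfl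

theorem lin_rTensor_equiv {T' : Type} [MulAction H T'] (D : T → (T' →₀ ℚ))
    (hD : ∀ (h : H) (t : T), D (h • t) = (D t).mapDomain (h • ·)) (h : H)
    (z : (T →₀ ℚ) ⊗[ℚ] N) :
    (lin D).rTensor N (PT ρ T h z) = PT ρ T' h ((lin D).rTensor N z) := by
  induction z using TensorProduct.induction_on with
  | zero => simp
  | add x y hx hy => rw [map_add, map_add, hx, hy, map_add, map_add]
  | tmul f n =>
    rw [EqB_PT_tmul, LinearMap.rTensor_tmul, LinearMap.rTensor_tmul, EqB_PT_tmul,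
      lin_equiv D hD]

theorem EqB_lin_sum {T' W : Type} [AddCommGroup W] [Module ℚ W] (K : (T' →₀ ℚ) →ₗ[ℚ] W)
    (z : T' →₀ ℚ) : K z = z.sum fun t' r => r • K (single t' 1) := by
  have h : K = Finsupp.linearCombination ℚ fun t' => K (single t' 1) := by
    ext t'
    simp
  conv_lhs => rw [h]
  rfl

theorem swap_mat {T' : Type} [MulAction H T'] (D : T → (T' →₀ ℚ))
    (hD : ∀ (h : H) (t : T), D (h • t) = (D t).mapDomain (h • ·)) (c : EqF (PT ρ S) T) :
    swap ρ S T' (mat (PT ρ S) D hD c)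
      = mapc (PT ρ T) (PT ρ T') ((lin D).rTensor N) (lin_rTensor_equiv ρ D hD)
          (swap ρ S T c) := by
  have h : (swap ρ S T') ∘ₗ (mat (PT ρ S) D hD) =
      (mapc (PT ρ T) (PT ρ T') ((lin D).rTensor N) (lin_rTensor_equiv ρ D hD)) ∘ₗ
        (swap ρ S T) := by
    apply EqB_ext
    intro t s n
    rw [LinearMap.comp_apply, LinearMap.comp_apply, swap_sg, mapc_sg, mat_sg,
      LinearMap.rTensor_tmul, lin_single, one_smul]
    have h1 := EqB_lin_sum ((sg (PT ρ T') s) ∘ₗ ((TensorProduct.mk ℚ (T' →₀ ℚ) N).flip n)) (D t)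
    have h2 : ((sg (PT ρ T') s) ∘ₗ ((TensorProduct.mk ℚ (T' →₀ ℚ) N).flip n)) (D t) =
        sg (PT ρ T') s (D t ⊗ₜ[ℚ] n) := rfl
    rw [← h2, h1]
    unfold Finsupp.sum
    rw [map_sum]
    refine Finset.sum_congr rfl fun t' _ => ?_
    rw [map_smul, swap_sg]
    rfl
  exact LinearMap.congr_fun h c

theorem swap_mapc {T' : Type} [MulAction H T'] (D : T → (T' →₀ ℚ))
    (hD : ∀ (h : H) (t : T), D (h • t) = (D t).mapDomain (h • ·)) (c : EqF (PT ρ T) S) :
    swap ρ T' S (mapc (PT ρ T) (PT ρ T') ((lin D).rTensor N) (lin_rTensor_equiv ρ D hD) c)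
      = mat (PT ρ S) D hD (swap ρ T S c) := by
  have h1 := swap_mat ρ D hD (swap ρ T S c)
  rw [swap_swap] at h1
  rw [← h1, swap_swap]

end EqF

end Pool.Agent.H60.CI

end NC_H60_CI_EqB1

end S_H60_CI_EqB

section S_H60_CI_CcA

/-!
# Row CcA: tensoring the chain complexes with a vector space; `∂∂ = 0` on equivariant chains

Everything is over the field `ℚ`, so tensoring with `N` is exact (`Module.Flat`).
* `rT_exact1`: `H1z B` says that `(B.F →₀ ℚ) → (B.E →₀ ℚ) → (B.V →₀ ℚ)` is exact at the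
  middle (use `L1_L2` for the other inclusion): `Function.Exact B.L2 B.L1`; then
  `Module.Flat.rTensor_exact`.
* `rT_inj2`: `H2z B` says that `B.L2` is injective; `Module.Flat.rTensor_preserves_injective_linearMap`.
* `piQ_surj`: `Submodule.mkQ` is surjective, `LinearMap.rTensor_surjective`.
* `piQ_exact`: `Function.Exact Y.L2 (mkQ (range L2))` and right exactness `rTensor_exact`.
* `piQ_equiv`, `piQ_L2`: check on pure tensors (`TensorProduct.induction_on`).
* `B1_B2`: `hom_ext`; `B1 (B2 (sg σ n)) = Σ_{a ∈ bd σ} ±(sg (tgt a) n - sg (src a) n)`; for a walk `w`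
  from `x` to `y` the sum is `sg y n - sg x n` (induction on `w`), and `bd σ` is closed.
-/

noncomputable section NC_H60_CI_CcA1

namespace Pool.Agent.H60.CI

open Finsupp TensorProduct

variable {H : Type} [Group H]
variable {N : Type} [AddCommGroup N] [Module ℚ N] (ρ : Representation ℚ H N)

theorem CcA_exact (B : Cpx) (hB : B.H1z) : Function.Exact B.L2 B.L1 := by
  intro z
  constructor
  · intro h
    exact hB z h
  · rintro ⟨c, rfl⟩
    exact B.L1_L2 c

theorem rT_exact1 (B : Cpx) (hB : B.H1z) (z : (B.E →₀ ℚ) ⊗[ℚ] N)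
    (hz : (B.L1).rTensor N z = 0) : ∃ c, (B.L2).rTensor N c = z :=
  (Module.Flat.rTensor_exact N (CcA_exact B hB) z).1 hz

theorem rT_inj2 (B : Cpx) (hB : B.H2z) : Function.Injective ((B.L2).rTensor N) := by
  apply Module.Flat.rTensor_preserves_injective_linearMap
  exact (injective_iff_map_eq_zero _).2 hB

/-- the projection `C_1(Y) ⊗ N → (C_1(Y) / ∂ C_2(Y)) ⊗ N` -/
def piQ (Y : HCpx H) (N : Type) [AddCommGroup N] [Module ℚ N] :
    (Y.E →₀ ℚ) ⊗[ℚ] N →ₗ[ℚ] (EE Y) ⊗[ℚ] N :=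
  (LinearMap.range Y.L2).mkQ.rTensor N

theorem piQ_surj (Y : HCpx H) : Function.Surjective (piQ Y N) :=
  LinearMap.rTensor_surjective N (Submodule.mkQ_surjective _)

theorem CcA_exact2 (Y : HCpx H) : Function.Exact Y.L2 (LinearMap.range Y.L2).mkQ := by
  intro z
  rw [Submodule.mkQ_apply, Submodule.Quotient.mk_eq_zero]
  rfl

theorem piQ_exact (Y : HCpx H) (z : (Y.E →₀ ℚ) ⊗[ℚ] N) (hz : piQ Y N z = 0) :
    ∃ c, (Y.L2).rTensor N c = z :=
  (rTensor_exact N (CcA_exact2 Y) (Submodule.mkQ_surjective _) z).1 hz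

theorem piQ_L2 (Y : HCpx H) (c : (Y.F →₀ ℚ) ⊗[ℚ] N) : piQ Y N ((Y.L2).rTensor N c) = 0 :=
  (rTensor_exact N (CcA_exact2 Y) (Submodule.mkQ_surjective _) _).2 ⟨c, rfl⟩

theorem piQ_equiv (Y : HCpx H) (h : H) (z : (Y.E →₀ ℚ) ⊗[ℚ] N) :
    piQ Y N (PT ρ Y.E h z) = ((qE Y).tprod ρ) h (piQ Y N z) := by
  induction z using TensorProduct.induction_on with
  | zero => simp
  | add x y hx hy => rw [map_add, map_add, hx, hy, map_add, map_add]
  | tmul f n => rfl

theorem CcA_walk (Y : HCpx H) (n : N) {x y : Y.V} {w : List (Y.E × Bool)} (h : Y.Walk x w y) :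
    Y.B1 ρ ((w.map fun a => sgnb a.2 • EqF.sg ρ a.1 n).sum) = EqF.sg ρ y n - EqF.sg ρ x n := by
  induction w generalizing x with
  | nil =>
    cases h
    simp
  | cons a w ih =>
    obtain ⟨h1, h2⟩ := h
    rw [List.map_cons, List.sum_cons, map_add, ih h2, map_smul, HCpx.B1_sg, ← h1]
    rcases a with ⟨e, b⟩
    cases b
    · simp [sgnb, oS, oT]
    · simp [sgnb, oS, oT]

theorem B1_B2 (Y : HCpx H) (c : EqF ρ Y.F) : Y.B1 ρ (Y.B2 ρ c) = 0 := by
  have h : (Y.B1 ρ) ∘ₗ (Y.B2 ρ) = 0 := by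
    apply EqF.hom_ext
    intro σ n
    rw [LinearMap.comp_apply, HCpx.B2_sg, CcA_walk ρ Y n (Y.bd_walk σ), sub_self, LinearMap.zero_apply]
  exact LinearMap.congr_fun h c

end Pool.Agent.H60.CI

end NC_H60_CI_CcA1

end S_H60_CI_CcA

section S_H60_CI_CcB

/-!
# Row CcB: Claim C

`B` is acyclic in degrees 1 and 2 (`H1z`, `H2z`), `Y` has `H_2 = 0`.  Then `T2 B (E_Y ⊗ ρ)` where
`E_Y = C_1(Y) / ∂ C_2(Y)`.

Proof (diagram chase).  Write `K = PT ρ`.  `lin Y.d2 = Y.L2` by `rfl`.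
Let `a : EqF ((qE Y).tprod ρ) B.F` with `B2 a = 0`.
1. `piQ` is surjective and equivariant: `a = mapc piQ a'` with `a' : EqF (PT ρ Y.E) B.F`
   (`mapc_surjective`).
2. `mapc piQ (B2 a') = B2 (mapc piQ a') = 0` (`mapc_mat`), so by `mapc_exact` and `piQ_exact` there is
   `w : EqF (PT ρ Y.F) B.E` with `mapc (Y.L2 ⊗ id) w = B2 a'`.
3. `mapc (Y.L2 ⊗ id) (B1 w) = B1 (mapc (Y.L2 ⊗ id) w) = B1 (B2 a') = 0` (`B1_B2`), so `B1 w = 0` by
   `mapc_injective` and `rT_inj2 Y hY`.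
4. `swap w : EqF (PT ρ B.E) Y.F` and `mapc (B.L1 ⊗ id) (swap w) = swap (B1 w) = 0` (`swap_mat`), so by
   `mapc_exact` and `rT_exact1 B hB1` there is `v' : EqF (PT ρ B.F) Y.F` with
   `mapc (B.L2 ⊗ id) v' = swap w`.  Put `v = swap v' : EqF (PT ρ Y.F) B.F`; then
   `B2 v = swap (mapc (B.L2 ⊗ id) v') = swap (swap w) = w` (`swap_mapc`, `swap_swap`).
5. `B2 (a' - mapc (Y.L2 ⊗ id) v) = B2 a' - mapc (Y.L2 ⊗ id) (B2 v) = 0`; apply `swap`:
   `mapc (B.L2 ⊗ id) (swap (a' - ...)) = 0`, and `B.L2 ⊗ id` is injective (`rT_inj2 B hB2`), so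
   `swap (a' - ...) = 0`, `a' = mapc (Y.L2 ⊗ id) v` (`swap_swap`).
6. `a = mapc piQ (mapc (Y.L2 ⊗ id) v) = mapc 0 v = 0` (`mapc_mapc`, `piQ_L2`).
-/

noncomputable section NC_H60_CI_CcB1

namespace Pool.Agent.H60.CI

open Finsupp TensorProduct

variable {H : Type} [Group H]

private theorem CcB_zero (Y : HCpx H) {T : Type} [MulAction H T]
    {N : Type} [AddCommGroup N] [Module ℚ N] (ρ : Representation ℚ H N)
    (R : Representation ℚ H ((EE Y) ⊗[ℚ] N))
    (hpe : ∀ (h : H) (z : (Y.E →₀ ℚ) ⊗[ℚ] N), piQ Y N (PT ρ Y.E h z) = R h (piQ Y N z))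
    (eL : ∀ (h : H) (z : (Y.F →₀ ℚ) ⊗[ℚ] N), (EqF.lin Y.d2).rTensor N (PT ρ Y.F h z) =
      PT ρ Y.E h ((EqF.lin Y.d2).rTensor N z)) (v : EqF (PT ρ Y.F) T) :
    EqF.mapc (PT ρ Y.E) R (piQ Y N) hpe
      (EqF.mapc (PT ρ Y.F) (PT ρ Y.E) ((EqF.lin Y.d2).rTensor N) eL v) = 0 := by
  induction v using EqF.induction_sg with
  | h0 => rw [map_zero, map_zero]
  | hadd c d hc hd => rw [map_add, map_add, hc, hd, add_zero]
  | hs t n =>
    rw [EqF.mapc_sg, EqF.mapc_sg]
    have h1 : piQ Y N ((EqF.lin Y.d2).rTensor N n) = 0 := piQ_L2 Y n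
    rw [h1, map_zero]

private theorem CcB_main (B Y : HCpx H) (hB1 : B.H1z) (hB2 : B.H2z) (hY : Y.H2z)
    {N : Type} [AddCommGroup N] [Module ℚ N] (ρ : Representation ℚ H N)
    (R : Representation ℚ H ((EE Y) ⊗[ℚ] N))
    (hpe : ∀ (h : H) (z : (Y.E →₀ ℚ) ⊗[ℚ] N), piQ Y N (PT ρ Y.E h z) = R h (piQ Y N z)) :
    T2 B R := by
  intro a ha
  -- equivariance of the boundary maps
  have eL := EqF.lin_rTensor_equiv (N := N) ρ Y.d2 Y.d2_smul
  have eB2 := EqF.lin_rTensor_equiv (N := N) ρ B.d2 B.d2_smul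
  have eB1 := EqF.lin_rTensor_equiv (N := N) ρ B.d1 B.d1_smul
  -- step 1
  obtain ⟨a', rfl⟩ := EqF.mapc_surjective (T := B.F) (PT ρ Y.E) R (piQ Y N) hpe (piQ_surj Y) a
  -- step 2
  have s2 : EqF.mapc (PT ρ Y.E) R (piQ Y N) hpe (B.B2 (PT ρ Y.E) a') = 0 :=
    (EqF.mapc_mat (PT ρ Y.E) R (piQ Y N) hpe B.d2 B.d2_smul a').trans ha
  obtain ⟨w, hw⟩ := EqF.mapc_exact (PT ρ Y.E) (PT ρ Y.F) R ((EqF.lin Y.d2).rTensor N) eL
    (piQ Y N) hpe (fun z hz => piQ_exact Y z hz) (B.B2 (PT ρ Y.E) a') s2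
  -- step 3
  have s3 : EqF.mapc (PT ρ Y.F) (PT ρ Y.E) ((EqF.lin Y.d2).rTensor N) eL
      (B.B1 (PT ρ Y.F) w) = 0 := by
    have h1 := EqF.mapc_mat (PT ρ Y.F) (PT ρ Y.E) ((EqF.lin Y.d2).rTensor N) eL B.d1 B.d1_smul w
    rw [hw] at h1
    exact h1.trans (B1_B2 (PT ρ Y.E) B a')
  have s3' : B.B1 (PT ρ Y.F) w = 0 := by
    have h1 := EqF.mapc_injective (T := B.V) (PT ρ Y.F) (PT ρ Y.E) ((EqF.lin Y.d2).rTensor N) eL
      (rT_inj2 Y.toCpx hY)
    apply h1
    rw [s3, map_zero]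
  -- step 4
  have s4 : EqF.mapc (PT ρ B.E) (PT ρ B.V) ((EqF.lin B.d1).rTensor N) eB1
      (EqF.swap ρ Y.F B.E w) = 0 := by
    have h1 := EqF.swap_mat ρ (S := Y.F) B.d1 B.d1_smul w
    rw [← h1]
    have h2 : EqF.mat (PT ρ Y.F) B.d1 B.d1_smul w = 0 := s3'
    rw [h2, map_zero]
  obtain ⟨v', hv'⟩ := EqF.mapc_exact (PT ρ B.E) (PT ρ B.F) (PT ρ B.V)
    ((EqF.lin B.d2).rTensor N) eB2 ((EqF.lin B.d1).rTensor N) eB1
    (fun z hz => rT_exact1 B.toCpx hB1 z hz) (EqF.swap ρ Y.F B.E w) s4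
  obtain ⟨v, hv⟩ : ∃ v : EqF (PT ρ Y.F) B.F, v = EqF.swap ρ B.F Y.F v' := ⟨_, rfl⟩
  have s4' : B.B2 (PT ρ Y.F) v = w := by
    have h1 := EqF.swap_mat ρ (S := Y.F) B.d2 B.d2_smul v
    have h2 : EqF.swap ρ Y.F B.F v = v' := by
      rw [hv, EqF.swap_swap]
    rw [h2, hv'] at h1
    have h3 := congrArg (EqF.swap ρ B.E Y.F) h1
    rw [EqF.swap_swap, EqF.swap_swap] at h3
    exact h3
  -- step 5
  have s5 : EqF.mat (PT ρ Y.E) B.d2 B.d2_smul
      (a' - EqF.mapc (PT ρ Y.F) (PT ρ Y.E) ((EqF.lin Y.d2).rTensor N) eL v) = 0 := by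
    have h1 := EqF.mapc_mat (PT ρ Y.F) (PT ρ Y.E) ((EqF.lin Y.d2).rTensor N) eL B.d2 B.d2_smul v
    have h2 : EqF.mat (PT ρ Y.F) B.d2 B.d2_smul v = w := s4'
    rw [h2, hw] at h1
    rw [map_sub, ← h1]
    exact sub_self _
  have s5' : a' - EqF.mapc (PT ρ Y.F) (PT ρ Y.E) ((EqF.lin Y.d2).rTensor N) eL v = 0 := by
    have h1 := EqF.swap_mat ρ (S := Y.E) B.d2 B.d2_smul
      (a' - EqF.mapc (PT ρ Y.F) (PT ρ Y.E) ((EqF.lin Y.d2).rTensor N) eL v)
    rw [s5, map_zero] at h1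
    have h2 := EqF.mapc_injective (T := Y.E) (PT ρ B.F) (PT ρ B.E) ((EqF.lin B.d2).rTensor N) eB2
      (rT_inj2 B.toCpx hB2)
    have h3 := h2 (h1.symm.trans (map_zero _).symm)
    have h4 := congrArg (EqF.swap ρ B.F Y.E) h3
    rw [EqF.swap_swap, map_zero] at h4
    exact h4
  -- step 6
  rw [sub_eq_zero] at s5'
  rw [s5']
  exact CcB_zero Y ρ R hpe eL v

theorem claimC (B Y : HCpx H) (hB1 : B.H1z) (hB2 : B.H2z) (hY : Y.H2z)
    {N : Type} [AddCommGroup N] [Module ℚ N] (ρ : Representation ℚ H N) :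
    T2 B ((qE Y).tprod ρ) := by
  exact CcB_main B Y hB1 hB2 hY ρ _ (piQ_equiv ρ Y)

end Pool.Agent.H60.CI

end NC_H60_CI_CcB1

end S_H60_CI_CcB

section S_H60_CI_MoC

/-!
# Row MoC: the induction step `SS B Y → SS B Y'`

Let `ρ` with `T2 B ρ` and `c : EqF ρ Y'.F` with `B2 c = 0`.
1. `push q c` is a cycle (`push_B2`), so `push q c = 0` by `SS B Y` (applied to `ρ`), so `mm 0 c = 0`
   (`mm_zero`).
2. Strong induction on `n`: `tt n c = 0`.  Suppose `tt j c = 0` for `j < n`.  Then `mm j c = 0` for all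
   `j ≤ n` (`mm_zero` for `j = 0`, `mm_succ` for `j ≥ 1`).  By `nn_B2`,
   `0 = nn n (B2 c) = Σ_{j ≤ n} (Th n j (tt j c) + Xi n j (mm j c)) = Th n n (tt n c) = B2 (tt n c)`
   (`Th_self`).  `T2 B (rT Y ρ)` holds by `claimC` (with `rD Y ρ` instead of `ρ`), so `tt n c = 0` by
   `SS B Y` applied to `rT Y ρ`.
3. So `mm n c = 0` for all `n` and `c = 0` by `eq_zero_of_mm`.
-/

noncomputable section NC_H60_CI_MoC1

namespace Pool.Agent.H60.CI

open Finsupp TensorProduct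

variable {H : Type} [Group H]

theorem MomData.SS_step {B Y' Y : HCpx H} (hB1 : B.H1z) (hB2 : B.H2z) (hY : Y.H2z)
    (d : MomData Y' Y) (hS : SS B Y) : SS B Y' := by
  intro N _ _ ρ hT c hc
  have hp : EqF.push ρ d.q.f d.q.f_smul c = 0 := by
    apply hS N ρ hT
    rw [d.push_B2 ρ c, hc, map_zero]
  have hm0 : d.mm ρ 0 c = 0 := by rw [d.mm_zero, hp, map_zero]
  have ht : ∀ n, d.tt ρ n c = 0 := by
    intro n
    induction n using Nat.strong_induction_on with
    | _ n ih =>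
      have hm : ∀ j, j ≤ n → d.mm ρ j c = 0 := by
        intro j hj
        cases j with
        | zero => exact hm0
        | succ j => rw [d.mm_succ, ih j (by omega), map_zero]
      have h1 := d.nn_B2 ρ n c
      rw [hc, map_zero, Finset.sum_eq_single n] at h1
      · rw [hm n le_rfl, map_zero, add_zero, d.Th_self] at h1
        exact hS _ (rT Y ρ) (claimC B Y hB1 hB2 hY (rD Y ρ)) _ h1.symm
      · intro j hj hjn
        have hlt : j < n := by
          have := Finset.mem_range.1 hj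
          omega
        rw [ih j hlt, hm j hlt.le, map_zero, map_zero, add_zero]
      · intro h
        exact absurd (Finset.mem_range.2 (Nat.lt_succ_self n)) h
  apply d.eq_zero_of_mm ρ c
  intro n
  cases n with
  | zero => exact hm0
  | succ n => rw [d.mm_succ, ht n, map_zero]

theorem MoC_push_B2 {Y' Y : HCpx H} (q : EqHom Y' Y) {N : Type} [AddCommGroup N] [Module ℚ N]
    (ρ : Representation ℚ H N) (c : EqF ρ Y'.F) :
    Y.B2 ρ (EqF.push ρ q.f q.f_smul c) = EqF.push ρ q.e q.e_smul (Y'.B2 ρ c) := by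
  have key : (Y.B2 ρ) ∘ₗ (EqF.push ρ q.f q.f_smul) =
      (EqF.push ρ q.e q.e_smul) ∘ₗ (Y'.B2 ρ) := by
    refine EqF.hom_ext ρ fun τ a => ?_
    rw [LinearMap.comp_apply, LinearMap.comp_apply, EqF.push_sg, HCpx.B2_sg, HCpx.B2_sg,
      q.bd_e, map_list_sum, List.map_map, List.map_map]
    congr 1
    refine List.map_congr_left fun b _ => ?_
    simp
  exact LinearMap.congr_fun key c

/-- start of the induction: `Y → B` injective on 2-cells -/
theorem SS_of_injective {B Y : HCpx H} (f : EqHom Y B) (hf : Function.Injective f.f) : SS B Y := by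
  intro N _ _ ρ hT c hc
  have hp : EqF.push ρ f.f f.f_smul c = 0 := by
    apply hT
    rw [MoC_push_B2 f ρ c, hc, map_zero]
  apply EqF.ext
  intro τ
  have key : (EqF.ev ρ (f.f τ)) ∘ₗ (EqF.push ρ f.f f.f_smul) = EqF.ev ρ τ := by
    refine EqF.hom_ext ρ fun s a => ?_
    rw [LinearMap.comp_apply, EqF.push_sg]
    by_cases hg : ∃ g : H, g • s = τ
    · obtain ⟨g, hg⟩ := hg
      rw [EqF.ev_sg ρ hg, EqF.ev_sg ρ (g := g) (by rw [← f.f_smul, hg])]
    · rw [EqF.ev_sg_of_not ρ (fun g h => hg ⟨g, h⟩), EqF.ev_sg_of_not ρ (fun g h => hg ⟨g, hf (by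
        rw [f.f_smul, h])⟩)]
  rw [← key, LinearMap.comp_apply, hp, map_zero]

end Pool.Agent.H60.CI

end NC_H60_CI_MoC1

end S_H60_CI_MoC
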