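import Mathlib
import Pool.Agent.H62.CI.M1
import Pool.Agent.H62.CI.M2
import Pool.Agent.H62.CI.M4

set_option autoImplicit false

/-! Coherence of complexes with collapsing nonpositive immersions, M5: this file joins several modules. -/

section S_H60_CI_TowA

/-!
# Row TowA: an equivariant section of `Z → Z/R`

`exists_beta`: `H` acts freely on `Y.V`, `Y = Z.quo R hR hi` (`HCpx.free` type field / see `Hcx.lean`); choose a
representative `y_o` of each orbit `o` (`Quotient.out` of the orbit relation), `z_o : Z.V` over `y_o`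
(`Quotient.out`), and for `y = h • y_o` (unique `h`, by freeness) put `β y = h • z_o`.
-/

noncomputable section NC_H60_CI_TowA1

set_option linter.unusedVariables false

namespace Pool.Agent.H60.CI

variable {H : Type} [Group H] {B : HCpx H}

theorem TowA_free_section {Y T : Type} [MulAction H Y] [MulAction H T] (f : T → Y)
    (hf : Function.Surjective f) (he : ∀ (h : H) t, f (h • t) = h • f t)
    (hfree : ∀ (h : H) (y : Y), h • y = y → h = 1) :
    ∃ β : Y → T, (∀ y, f (β y) = y) ∧ ∀ (h : H) y, β (h • y) = h • β y := by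
  classical
  have h1 : ∀ y : Y, ∃ h : H, h • (Quotient.out (Quotient.mk (MulAction.orbitRel H Y) y)) = y := by
    intro y
    have h2 : (MulAction.orbitRel H Y) (Quotient.out (Quotient.mk (MulAction.orbitRel H Y) y)) y :=
      Quotient.mk_out (s := MulAction.orbitRel H Y) y
    have h3 := (MulAction.orbitRel H Y).symm h2
    exact MulAction.orbitRel_apply.1 h3
  choose g hg using h1
  choose z hz using hf
  refine ⟨fun y => g y • z (Quotient.out (Quotient.mk (MulAction.orbitRel H Y) y)), ?_, ?_⟩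
  · intro y
    rw [he, hz]
    exact hg y
  · intro h y
    have h4 : (Quotient.mk (MulAction.orbitRel H Y) (h • y))
        = (Quotient.mk (MulAction.orbitRel H Y) y) := by
      apply Quotient.sound
      exact MulAction.orbitRel_apply.2 ⟨h, rfl⟩
    have h5 : g (h • y) = h * g y := by
      have e1 := hg (h • y)
      have e2 := hg y
      rw [h4] at e1
      have e3 : (g (h • y))⁻¹ • (h • y) = Quotient.out (Quotient.mk (MulAction.orbitRel H Y) y) := by
        rw [inv_smul_eq_iff]; exact e1.symm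
      have e4 : (g y)⁻¹ • y = Quotient.out (Quotient.mk (MulAction.orbitRel H Y) y) := by
        rw [inv_smul_eq_iff]; exact e2.symm
      have e5 : (g y * ((g (h • y))⁻¹ * h)) • y = y := by
        rw [mul_smul, mul_smul, e3, ← e4, smul_inv_smul]
      have e6 := hfree _ _ e5
      have e7 : (g (h • y))⁻¹ * h = (g y)⁻¹ := by
        exact eq_inv_of_mul_eq_one_right e6
      have e8 : h = g (h • y) * (g y)⁻¹ := by
        rw [← e7]; group
      conv_rhs => rw [e8]
      group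
    show g (h • y) • z (Quotient.out (Quotient.mk (MulAction.orbitRel H Y) (h • y)))
      = h • g y • z (Quotient.out (Quotient.mk (MulAction.orbitRel H Y) y))
    rw [h4, h5, mul_smul]

theorem HIm.exists_beta (Z : HIm B) (R : Setoid Z.V) (hR : Z.Cong R) (hi : Z.Inv R) :
    ∃ β : (Z.quo R hR hi).V → Z.V, (∀ y, (Z.quoMor R hR hi).f (β y) = y) ∧
      ∀ (h : H) y, β (h • y) = h • β y := by
  exact TowA_free_section (Z.quoMor R hR hi).f (fun y => Quotient.exists_rep y)
    (fun h t => Z.quoMor_smul R hR hi h t) (fun h y hy => (Z.quo R hR hi).free h y hy)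

end Pool.Agent.H60.CI

end NC_H60_CI_TowA1

end S_H60_CI_TowA

section S_H60_CI_TowM

/-!
# Row TowM: the moment data of one step of the tower

`Z : HIm B` connected with `H_1 = 0`; `R` an invariant congruence, `R' = plus R`; `Y = Z/R`, `Y' = Z/R'`,
`q : Y' → Y` the projection, `L(x,y) = Ll R .. x y ∈ E_Y` the class of a path from `x` to `y`.

* `exists_beta` (row TowA): there is an equivariant `β : Y.V → Z.V` with `⟦β y⟧ = y`.
* `qmap`: the projection `q` as a morphism (`Quotient.map id`).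
* `momData`: `u ⟦x⟧ = L(β(q ⟦x⟧), x)`: well defined since for `R' x x'` we have `R x x'` and
  `x' - x ∈ DD R`, so `L(x, x') = 0` (`Ll_eq_zero`) and `L(β, x') = L(β, x) + L(x, x')` (`Ll_add`).
  `κ ε = [single ε 1] - L(β(src ε), β(tgt ε))`.
  - `u_smul`, `κ_smul`: `Ll_smul`, equivariance of `β`.
  - `u_edge`: let `e` be an edge of `Y'`, choose an edge `ε̃` of `Z` over it, with source `x` and target `y`
    (so `src e = ⟦x⟧`, `tgt e = ⟦y⟧`); `u ⟦y⟧ - u ⟦x⟧ = L(β(q⟦y⟧), y) - L(β(q⟦x⟧), x)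
      = L(x, y) - L(β(q⟦x⟧), β(q⟦y⟧))` by `Ll_add`, and `L(x, y) = [single (fe ε̃) 1]` (`Ll_edge`),
    `fe ε̃ = q.e e`, `src (q.e e) = q⟦x⟧`, `tgt (q.e e) = q⟦y⟧`.
  - `face_inj`: `Mor.hom_isImm`.
  - `u_inj`: `q⟦x⟧ = q⟦x'⟧` gives `R x x'`; `L(β, x) = L(β, x')` gives `L(x, x') = 0`, so
    `x' - x ∈ DD R` and `R' x x'`.
-/

noncomputable section NC_H60_CI_TowM1

set_option linter.unusedVariables false

namespace Pool.Agent.H60.CI

open Finsupp

variable {H : Type} [Group H] {B : HCpx H}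

namespace HIm

variable (Z : HIm B)

/-- the projection `Z / R⁺ → Z / R` -/
def qmap (R : Setoid Z.V) (hR : Z.Cong R) (hi : Z.Inv R) :
    PC.Mor (Z.quo (Z.toPC.plus R) (PC.plus_cong hR) (Z.plus_inv hi)).toPC
      (Z.quo R hR hi).toPC where
  f := Quotient.map id (fun _ _ h => h.1)
  p_f := by
    intro a
    induction a using Quotient.ind with
    | _ a => rfl
  adj_f := by
    rintro a e b ⟨x, y, rfl, rfl, h⟩
    exact ⟨x, y, rfl, rfl, h⟩
  mark_f := by
    rintro a σ ⟨x, rfl, h⟩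
    exact ⟨x, rfl, h⟩

theorem qmap_smul (R : Setoid Z.V) (hR : Z.Cong R) (hi : Z.Inv R) (h : H)
    (x : (Z.quo (Z.toPC.plus R) (PC.plus_cong hR) (Z.plus_inv hi)).V) :
    (Z.qmap R hR hi).f (h • x) = h • (Z.qmap R hR hi).f x := by
  induction x using Quotient.ind with
  | _ x => rfl

/-- the map `u` of the moment data -/
def TowM_u (R : Setoid Z.V) (hR : Z.Cong R) (hi : Z.Inv R)
    (hC : Z.toHCpx.Conn) (hH : Z.toHCpx.H1z) (β : (Z.quo R hR hi).V → Z.V) :
    (Z.quo (Z.toPC.plus R) (PC.plus_cong hR) (Z.plus_inv hi)).V → EE (Z.quo R hR hi).toHCpx :=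
  Quotient.lift (fun x => Z.Ll R hR hi hC (β (Quotient.mk R x)) x) (by
    intro x x' h
    have h1 : Quotient.mk R x = Quotient.mk R x' := Quotient.sound h.1
    have h2 : Z.Ll R hR hi hC x x' = 0 := (Z.Ll_eq_zero R hR hi hC hH x x').2 h.2
    show Z.Ll R hR hi hC (β (Quotient.mk R x)) x = Z.Ll R hR hi hC (β (Quotient.mk R x')) x'
    rw [← h1, ← Z.Ll_add R hR hi hC (β (Quotient.mk R x)) x x', h2, add_zero])

/-- the map `κ` of the moment data -/
def TowM_k (R : Setoid Z.V) (hR : Z.Cong R) (hi : Z.Inv R)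
    (hC : Z.toHCpx.Conn) (β : (Z.quo R hR hi).V → Z.V) (ε : (Z.quo R hR hi).Edg) :
    EE (Z.quo R hR hi).toHCpx :=
  Submodule.Quotient.mk (single ε 1) -
    Z.Ll R hR hi hC (β ((Z.quo R hR hi).esrc ε)) (β ((Z.quo R hR hi).etgt ε))

theorem TowM_u_smul (R : Setoid Z.V) (hR : Z.Cong R) (hi : Z.Inv R)
    (hC : Z.toHCpx.Conn) (hH : Z.toHCpx.H1z) (β : (Z.quo R hR hi).V → Z.V)
    (hβs : ∀ (h : H) y, β (h • y) = h • β y) (h : H)
    (v : (Z.quo (Z.toPC.plus R) (PC.plus_cong hR) (Z.plus_inv hi)).V) :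
    Z.TowM_u R hR hi hC hH β (h • v) =
      qE (Z.quo R hR hi).toHCpx h (Z.TowM_u R hR hi hC hH β v) := by
  induction v using Quotient.ind with
  | _ x =>
    have h1 : β (Quotient.mk R (h • x)) = h • β (Quotient.mk R x) := hβs h (Quotient.mk R x)
    show Z.Ll R hR hi hC (β (Quotient.mk R (h • x))) (h • x) =
      qE (Z.quo R hR hi).toHCpx h (Z.Ll R hR hi hC (β (Quotient.mk R x)) x)
    rw [h1, Z.Ll_smul R hR hi hC hH]

theorem TowM_k_smul (R : Setoid Z.V) (hR : Z.Cong R) (hi : Z.Inv R)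
    (hC : Z.toHCpx.Conn) (hH : Z.toHCpx.H1z) (β : (Z.quo R hR hi).V → Z.V)
    (hβs : ∀ (h : H) y, β (h • y) = h • β y) (h : H) (ε : (Z.quo R hR hi).Edg) :
    Z.TowM_k R hR hi hC β (h • ε) =
      qE (Z.quo R hR hi).toHCpx h (Z.TowM_k R hR hi hC β ε) := by
  unfold TowM_k
  rw [map_sub, qE_mk, perm_single, HIm.esrc_smul, HIm.etgt_smul, hβs, hβs,
    Z.Ll_smul R hR hi hC hH]

theorem TowM_u_edge (R : Setoid Z.V) (hR : Z.Cong R) (hi : Z.Inv R)
    (hC : Z.toHCpx.Conn) (hH : Z.toHCpx.H1z) (β : (Z.quo R hR hi).V → Z.V)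
    (e : (Z.quo (Z.toPC.plus R) (PC.plus_cong hR) (Z.plus_inv hi)).Edg) :
    Z.TowM_u R hR hi hC hH β
        ((Z.quo (Z.toPC.plus R) (PC.plus_cong hR) (Z.plus_inv hi)).etgt e) -
      Z.TowM_u R hR hi hC hH β
        ((Z.quo (Z.toPC.plus R) (PC.plus_cong hR) (Z.plus_inv hi)).esrc e) =
      Z.TowM_k R hR hi hC β ((Z.qmap R hR hi).fe e) := by
  obtain ⟨⟨a, e0, b⟩, he⟩ := e
  obtain ⟨x, y, hx, hy, hadj⟩ := he
  change Quotient.mk (Z.toPC.plus R) x = a at hx
  change Quotient.mk (Z.toPC.plus R) y = b at hy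
  subst hx
  subst hy
  have h1 := Z.Ll_edge R hR hi hC hH ⟨(x, e0, y), hadj⟩
  have h1' : Z.Ll R hR hi hC x y = Submodule.Quotient.mk
      (single ((Z.quoMor R hR hi).fe (⟨(x, e0, y), hadj⟩ : Z.Edg)) 1) := h1
  show Z.Ll R hR hi hC (β (Quotient.mk R y)) y - Z.Ll R hR hi hC (β (Quotient.mk R x)) x =
    Submodule.Quotient.mk (single ((Z.quoMor R hR hi).fe (⟨(x, e0, y), hadj⟩ : Z.Edg)) 1) -
      Z.Ll R hR hi hC (β (Quotient.mk R x)) (β (Quotient.mk R y))
  rw [← h1']
  have h2 := Z.Ll_add R hR hi hC (β (Quotient.mk R x)) x y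
  have h3 := Z.Ll_add R hR hi hC (β (Quotient.mk R x)) (β (Quotient.mk R y)) y
  rw [← h3] at h2
  rw [sub_eq_sub_iff_add_eq_add, add_comm, ← h2, add_comm]

theorem TowM_u_inj (R : Setoid Z.V) (hR : Z.Cong R) (hi : Z.Inv R)
    (hC : Z.toHCpx.Conn) (hH : Z.toHCpx.H1z) (β : (Z.quo R hR hi).V → Z.V)
    (v v' : (Z.quo (Z.toPC.plus R) (PC.plus_cong hR) (Z.plus_inv hi)).V)
    (hq : (Z.qmap R hR hi).f v = (Z.qmap R hR hi).f v')
    (hu : Z.TowM_u R hR hi hC hH β v = Z.TowM_u R hR hi hC hH β v') : v = v' := by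
  induction v using Quotient.ind with
  | _ x =>
    induction v' using Quotient.ind with
    | _ x' =>
      have h1 : Quotient.mk R x = Quotient.mk R x' := hq
      have h2 : Z.Ll R hR hi hC (β (Quotient.mk R x)) x =
        Z.Ll R hR hi hC (β (Quotient.mk R x')) x' := hu
      rw [← h1, ← Z.Ll_add R hR hi hC (β (Quotient.mk R x)) x x'] at h2
      have h3 : Z.Ll R hR hi hC x x' = 0 := by
        have := h2.symm
        rwa [add_eq_left] at this
      exact Quotient.sound ⟨Quotient.exact h1, (Z.Ll_eq_zero R hR hi hC hH x x').1 h3⟩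

theorem exists_momData (R : Setoid Z.V) (hR : Z.Cong R) (hi : Z.Inv R)
    (hC : Z.toHCpx.Conn) (hH : Z.toHCpx.H1z) :
    ∃ d : MomData (Z.quo (Z.toPC.plus R) (PC.plus_cong hR) (Z.plus_inv hi)).toHCpx
        (Z.quo R hR hi).toHCpx,
      d.q = (Z.qmap R hR hi).eqHom (Z.qmap_smul R hR hi) := by
  obtain ⟨β, -, hβs⟩ := Z.exists_beta R hR hi
  exact ⟨{  q := (Z.qmap R hR hi).eqHom (Z.qmap_smul R hR hi)
            u := Z.TowM_u R hR hi hC hH β
            κ := Z.TowM_k R hR hi hC β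
            u_smul := Z.TowM_u_smul R hR hi hC hH β hβs
            κ_smul := Z.TowM_k_smul R hR hi hC hH β hβs
            u_edge := Z.TowM_u_edge R hR hi hC hH β
            face_inj := (Z.qmap R hR hi).hom_isImm.face_inj
            u_inj := Z.TowM_u_inj R hR hi hC hH β }, rfl⟩

end HIm

end Pool.Agent.H60.CI

end NC_H60_CI_TowM1

end S_H60_CI_TowM

section S_H60_CI_TowS

/-!
# Row TowS: the statement `SS` for all levels of the tower

Induction on `n`.
* `n = 0`: `Y_0 = Z / ker p → B` is injective on 2-cells (a mark is determined by its base vertex, which is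
  determined by its image under `p`, and its image): `SS_of_injective` with `(Z.Yn 0).eqHom`
  (see `MoC.lean` or `MoB.lean` for the name and form of `SS_of_injective`).
* `n + 1`: `MomData.SS_step` with the moment data of `exists_momData` for `R = Z.tow n`, whose `plus` is
  `Z.tow (n + 1)` by definition (`H2z` of `Y` from `H2z_of_DR (DR_im hDR _)`).
-/

noncomputable section NC_H60_CI_TowS1

set_option linter.unusedVariables false

namespace Pool.Agent.H60.CI

variable {H : Type} [Group H] {B : HCpx H}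

theorem HIm.SS_Yn (Z : HIm B) (hB1 : B.H1z) (hDR : B.DR) (hC : Z.toHCpx.Conn)
    (hH : Z.toHCpx.H1z) (n : ℕ) : SS B (Z.Yn n).toHCpx := by
  have hB2 : B.H2z := H2z_of_DR hDR
  induction n with
  | zero =>
    refine SS_of_injective (Z.Yn 0).eqHom ?_
    intro τ τ' h
    have hp : Function.Injective (Z.Yn 0).p := by
      intro x y hxy
      induction x using Quotient.ind with
      | _ x =>
        induction y using Quotient.ind with
        | _ y => exact Quotient.sound hxy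
    refine (Z.Yn 0).mks_ext (hp ?_) h
    have h1 : (Z.Yn 0).p ((Z.Yn 0).mbase τ) = B.base ((Z.Yn 0).mpr τ) := (Z.Yn 0).mark_base τ.2
    have h2 : (Z.Yn 0).p ((Z.Yn 0).mbase τ') = B.base ((Z.Yn 0).mpr τ') := (Z.Yn 0).mark_base τ'.2
    rw [h1, h2]
    exact congrArg B.base h
  | succ n ih =>
    obtain ⟨d, -⟩ := Z.exists_momData (Z.tow n) (Z.tow_cong n) (Z.tow_inv n) hC hH
    exact MomData.SS_step hB1 hB2 (H2z_of_DR (DR_im hDR _)) d ih

end Pool.Agent.H60.CI

end NC_H60_CI_TowS1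

end S_H60_CI_TowS

section S_H60_CI_TfA

/-!
# Row TfA: the coefficient module `ℚH / λ ℚH`

For `lam : MonoidAlgebra ℚ H` the vector space `NL lam = ℚH / lam ℚH` with the action
`h • [r] = [r h⁻¹]` is a representation `rL lam` of `H`.  For an `H`-set `T` the map
`hat : (T →₀ ℚ) → EqF (rL lam) T`, `single t 1 ↦ sg t [1]`, is surjective with kernel
`lam • (T →₀ ℚ)`.  The action of `ℚH` on `T →₀ ℚ` is `(perm H T).asAlgebraHom`.

Proofs.
* `rR`: `(r h'⁻¹) h⁻¹ = r (h h')⁻¹`.
* `hat_surj`: `sg t [r] = Σ_g r_g • sg t [g]` and `sg t [g] = sg (g • t) [1]` (apply `sg_smul` with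
  `h = g⁻¹` to `sg (g⁻¹ • (g • t)) (rL g⁻¹ [1])`).  In fact `sg t [r] = hat (r • single t 1)` (`hat_act`).
* `hat_lam`: `hat (lam • z) = 0`: for `z = single t 1`, `hat (lam • single t 1) = sg t [lam] = 0`.
* `hat_ker`: define `inv : EqF (rL lam) T → (T →₀ ℚ) / (lam • (T →₀ ℚ))` by `lift`,
  `inv (sg t [r]) = [r • single t 1]` (well defined: `[lam r'] ↦ [lam • (r' • single t 1)] = 0`,
  and `(h • t, [r h⁻¹]) ↦ [(r h⁻¹) • single (h • t) 1] = [r • single t 1]`); then `inv (hat z) = [z]`.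
* `act_injective`: if `ℚH` has no zero divisors and `H` acts freely on `T` then `lam • z = 0` with
  `lam ≠ 0` implies `z = 0`: suppose `z t0 ≠ 0`; let `r : MonoidAlgebra ℚ H`, `r_g = z (g • t0)`
  (finitely supported as the action is free); the coefficient of `lam • z` at `g • t0` is
  `Σ_h lam_h z (h⁻¹ g • t0) = (lam * r)_g`, so `lam * r = 0`, `r = 0`, `z t0 = r_1 = 0`.
-/

noncomputable section NC_H60_CI_TfA1

namespace Pool.Agent.H60.CI

open Finsupp

variable {H : Type} [Group H]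

/-- the action `h • r = r h⁻¹` on `ℚH` -/
def rR (H : Type) [Group H] : Representation ℚ H (MonoidAlgebra ℚ H) where
  toFun h := LinearMap.mulRight ℚ (MonoidAlgebra.single h⁻¹ (1 : ℚ))
  map_one' := by
    ext x
    simp [MonoidAlgebra.one_def.symm]
  map_mul' x y := by
    ext z
    simp [mul_assoc]

theorem rR_apply (h : H) (r : MonoidAlgebra ℚ H) : rR H h r = r * MonoidAlgebra.single h⁻¹ 1 := rfl

/-- the right ideal `lam ℚH` as a subspace -/
def idL (lam : MonoidAlgebra ℚ H) : Submodule ℚ (MonoidAlgebra ℚ H) :=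
  LinearMap.range (LinearMap.mulLeft ℚ lam)

theorem idL_inv (lam : MonoidAlgebra ℚ H) (h : H) : idL lam ≤ (idL lam).comap (rR H h) := by
  rintro _ ⟨r, rfl⟩
  refine ⟨r * MonoidAlgebra.single h⁻¹ 1, ?_⟩
  simp [rR_apply, mul_assoc]

/-- `ℚH / lam ℚH` -/
abbrev NL (lam : MonoidAlgebra ℚ H) : Type := MonoidAlgebra ℚ H ⧸ idL lam

/-- the action of `H` on `ℚH / lam ℚH` -/
def rL (lam : MonoidAlgebra ℚ H) : Representation ℚ H (NL lam) :=
  (rR H).quotient (idL lam) (idL_inv lam)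

/-- the action of `ℚH` on `T →₀ ℚ` -/
abbrev act (H : Type) [Group H] (T : Type) [MulAction H T] (lam : MonoidAlgebra ℚ H) :
    (T →₀ ℚ) →ₗ[ℚ] (T →₀ ℚ) := (perm H T).asAlgebraHom lam

/-- the map `single t 1 ↦ sg t [1]` -/
def hat (lam : MonoidAlgebra ℚ H) (T : Type) [MulAction H T] : (T →₀ ℚ) →ₗ[ℚ] EqF (rL lam) T :=
  Finsupp.linearCombination ℚ fun t => EqF.sg (rL lam) t (Submodule.Quotient.mk 1)

theorem TfA_act_single (T : Type) [MulAction H T] (g : H) (q : ℚ) :
    act H T (MonoidAlgebra.single g q) = q • perm H T g :=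
  Representation.asAlgebraHom_single _ _ _

theorem TfA_act_single_single (T : Type) [MulAction H T] (g : H) (q : ℚ) (t : T) (s : ℚ) :
    act H T (MonoidAlgebra.single g q) (single t s) = q • single (g • t) s := by
  rw [TfA_act_single, LinearMap.smul_apply, perm_single]

theorem TfA_act_add (T : Type) [MulAction H T] (a b : MonoidAlgebra ℚ H) :
    act H T (a + b) = act H T a + act H T b := map_add _ _ _

theorem TfA_act_zero (T : Type) [MulAction H T] : act H T 0 = 0 := map_zero _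

theorem TfA_act_one (T : Type) [MulAction H T] : act H T 1 = 1 := map_one _

theorem TfA_act_mul (T : Type) [MulAction H T] (a b : MonoidAlgebra ℚ H) (z : T →₀ ℚ) :
    act H T (a * b) z = act H T a (act H T b z) := by
  unfold act
  rw [map_mul]
  rfl

theorem hat_single (lam : MonoidAlgebra ℚ H) (T : Type) [MulAction H T] (t : T) (q : ℚ) :
    hat lam T (single t q) = q • EqF.sg (rL lam) t (Submodule.Quotient.mk 1) := by
  unfold hat
  rw [Finsupp.linearCombination_single]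

theorem TfA_rL_mk (lam : MonoidAlgebra ℚ H) (h : H) (r : MonoidAlgebra ℚ H) :
    rL lam h (Submodule.Quotient.mk r) = Submodule.Quotient.mk (r * MonoidAlgebra.single h⁻¹ 1) :=
  rfl

theorem hat_act (lam : MonoidAlgebra ℚ H) (T : Type) [MulAction H T] (t : T)
    (r : MonoidAlgebra ℚ H) :
    hat lam T (act H T r (single t 1)) = EqF.sg (rL lam) t (Submodule.Quotient.mk r) := by
  induction r using MonoidAlgebra.induction_linear with
  | zero => simp [TfA_act_zero]
  | add f g hf hg => rw [TfA_act_add, LinearMap.add_apply, map_add, hf, hg, ← map_add]; rfl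
  | single g q =>
    rw [TfA_act_single_single, map_smul, hat_single, one_smul]
    have h1 : (Submodule.Quotient.mk 1 : NL lam) =
        rL lam g (Submodule.Quotient.mk (MonoidAlgebra.single g 1)) := by
      rw [TfA_rL_mk, MonoidAlgebra.single_mul_single, mul_inv_cancel, one_mul]
      rfl
    rw [h1, EqF.sg_smul, ← map_smul]
    congr 1
    rw [← Submodule.Quotient.mk_smul, MonoidAlgebra.smul_single', mul_one]

theorem hat_surj (lam : MonoidAlgebra ℚ H) (T : Type) [MulAction H T] :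
    Function.Surjective (hat lam T) := by
  intro x
  obtain ⟨f, rfl⟩ := Submodule.Quotient.mk_surjective _ x
  induction f using Finsupp.induction_linear with
  | zero => exact ⟨0, by simp⟩
  | add f g hf hg =>
    obtain ⟨a, ha⟩ := hf
    obtain ⟨b, hb⟩ := hg
    refine ⟨a + b, ?_⟩
    rw [map_add, ha, hb]
    rfl
  | single t n =>
    obtain ⟨r, rfl⟩ := Submodule.Quotient.mk_surjective _ n
    exact ⟨act H T r (single t 1), hat_act lam T t r⟩

theorem TfA_single_smul {T : Type} (t : T) (q : ℚ) : (single t q : T →₀ ℚ) = q • single t 1 := by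
  simp

theorem hat_lam (lam : MonoidAlgebra ℚ H) (T : Type) [MulAction H T] (z : T →₀ ℚ) :
    hat lam T (act H T lam z) = 0 := by
  induction z using Finsupp.induction_linear with
  | zero => simp
  | add f g hf hg => rw [map_add, map_add, hf, hg, add_zero]
  | single t q =>
    rw [TfA_single_smul, map_smul, map_smul, hat_act]
    have h1 : (Submodule.Quotient.mk lam : NL lam) = 0 := by
      rw [Submodule.Quotient.mk_eq_zero]
      exact ⟨1, by simp⟩
    rw [h1, map_zero, smul_zero]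

/-- the map `[r] ↦ [r • single t 1]` -/
def TfA_L (lam : MonoidAlgebra ℚ H) (T : Type) [MulAction H T] (t : T) :
    NL lam →ₗ[ℚ] (T →₀ ℚ) ⧸ LinearMap.range (act H T lam) :=
  (idL lam).liftQ ((LinearMap.range (act H T lam)).mkQ ∘ₗ
    (LinearMap.applyₗ (single t 1)) ∘ₗ (perm H T).asAlgebraHom.toLinearMap) (by
      rintro _ ⟨r, rfl⟩
      rw [LinearMap.mem_ker]
      show Submodule.Quotient.mk (act H T (lam * r) (single t 1)) = 0
      rw [Submodule.Quotient.mk_eq_zero, TfA_act_mul]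
      exact ⟨_, rfl⟩)

theorem TfA_L_mk (lam : MonoidAlgebra ℚ H) (T : Type) [MulAction H T] (t : T)
    (r : MonoidAlgebra ℚ H) :
    TfA_L lam T t (Submodule.Quotient.mk r) = Submodule.Quotient.mk (act H T r (single t 1)) := rfl

theorem TfA_L_rel (lam : MonoidAlgebra ℚ H) (T : Type) [MulAction H T] (h : H) (t : T)
    (n : NL lam) : TfA_L lam T (h • t) (rL lam h n) = TfA_L lam T t n := by
  obtain ⟨r, rfl⟩ := Submodule.Quotient.mk_surjective _ n
  rw [TfA_rL_mk, TfA_L_mk, TfA_L_mk, TfA_act_mul, TfA_act_single_single, one_smul, inv_smul_smul]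

theorem hat_ker (lam : MonoidAlgebra ℚ H) (T : Type) [MulAction H T] (z : T →₀ ℚ)
    (hz : hat lam T z = 0) : ∃ z', act H T lam z' = z := by
  have key : ∀ w : T →₀ ℚ, EqF.lift (rL lam) (TfA_L lam T) (TfA_L_rel lam T) (hat lam T w) =
      Submodule.Quotient.mk w := by
    intro w
    induction w using Finsupp.induction_linear with
    | zero => simp
    | add f g hf hg => rw [map_add, map_add, hf, hg]; rfl
    | single t q =>
      rw [hat_single, map_smul, EqF.lift_sg, TfA_L_mk, TfA_act_one, Module.End.one_apply,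
        ← Submodule.Quotient.mk_smul, ← TfA_single_smul]
  have h1 := key z
  rw [hz, map_zero] at h1
  exact (Submodule.Quotient.mk_eq_zero _).mp h1.symm

/-- `hat` commutes with equivariant matrices -/
theorem hat_mat (lam : MonoidAlgebra ℚ H) {T T' : Type} [MulAction H T] [MulAction H T']
    (D : T → (T' →₀ ℚ)) (hD : ∀ (h : H) (t : T), D (h • t) = (D t).mapDomain (h • ·))
    (z : T →₀ ℚ) :
    EqF.mat (rL lam) D hD (hat lam T z) = hat lam T' (Finsupp.linearCombination ℚ D z) := by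
  induction z using Finsupp.induction_linear with
  | zero => simp
  | add f g hf hg => rw [map_add, map_add, hf, hg, map_add, map_add]
  | single t q =>
    rw [hat_single, map_smul, EqF.mat_sg, Finsupp.linearCombination_single, map_smul]
    rfl

/-- linear maps given by equivariant matrices commute with the action of `ℚH` -/
theorem act_lin (lam : MonoidAlgebra ℚ H) {T T' : Type} [MulAction H T] [MulAction H T']
    (D : T → (T' →₀ ℚ)) (hD : ∀ (h : H) (t : T), D (h • t) = (D t).mapDomain (h • ·))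
    (z : T →₀ ℚ) :
    Finsupp.linearCombination ℚ D (act H T lam z)
      = act H T' lam (Finsupp.linearCombination ℚ D z) := by
  induction z using Finsupp.induction_linear with
  | zero => simp
  | add f g hf hg => rw [map_add, map_add, hf, hg, map_add, map_add]
  | single t q =>
    rw [Finsupp.linearCombination_single, TfA_single_smul, map_smul, map_smul, map_smul]
    congr 1
    induction lam using MonoidAlgebra.induction_linear with
    | zero => simp [TfA_act_zero]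
    | add f g hf hg =>
      rw [TfA_act_add, LinearMap.add_apply, map_add, hf, hg, TfA_act_add, LinearMap.add_apply]
    | single g s =>
      rw [TfA_act_single_single, map_smul, Finsupp.linearCombination_single, one_smul, hD,
        TfA_act_single, LinearMap.smul_apply]
      rfl

theorem TfA_perm_apply (T : Type) [MulAction H T] (h : H) (z : T →₀ ℚ) (t : T) :
    perm H T h z t = z (h⁻¹ • t) := by
  have h1 : t = h • (h⁻¹ • t) := (smul_inv_smul h t).symm
  conv_lhs => rw [h1]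
  exact Finsupp.mapDomain_apply (MulAction.injective h) z (h⁻¹ • t)

theorem TfA_inj (T : Type) [MulAction H T] [FreeAct H T] (t0 : T) :
    Function.Injective fun g : H => g • t0 := by
  intro a b hab
  have h1 : (b⁻¹ * a) • t0 = t0 := by
    rw [mul_smul]
    show b⁻¹ • (fun g : H => g • t0) a = t0
    rw [hab]
    exact inv_smul_smul b t0
  exact (inv_mul_eq_one.mp (FreeAct.free _ _ h1)).symm

/-- restriction to an orbit -/
def TfA_P (T : Type) [MulAction H T] [FreeAct H T] (t0 : T) (z : T →₀ ℚ) : MonoidAlgebra ℚ H :=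
  MonoidAlgebra.ofCoeff (Finsupp.comapDomain (fun g : H => g • t0) z (TfA_inj T t0).injOn)

theorem TfA_P_apply (T : Type) [MulAction H T] [FreeAct H T] (t0 : T) (z : T →₀ ℚ) (g : H) :
    (TfA_P T t0 z).coeff g = z (g • t0) := rfl

theorem TfA_P_act (T : Type) [MulAction H T] [FreeAct H T] (t0 : T) (lam : MonoidAlgebra ℚ H)
    (z : T →₀ ℚ) : TfA_P T t0 (act H T lam z) = lam * TfA_P T t0 z := by
  induction lam using MonoidAlgebra.induction_linear with
  | zero =>
    ext g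
    rw [TfA_P_apply, TfA_act_zero]
    simp
  | add a b ha hb =>
    rw [add_mul, ← ha, ← hb]
    ext g
    rw [MonoidAlgebra.coeff_add, Finsupp.add_apply, TfA_P_apply, TfA_P_apply, TfA_P_apply,
      TfA_act_add, LinearMap.add_apply, Finsupp.add_apply]
  | single h q =>
    ext g
    rw [TfA_P_apply, MonoidAlgebra.coeff_single_mul_apply, TfA_P_apply, TfA_act_single,
      LinearMap.smul_apply, Finsupp.smul_apply, TfA_perm_apply, smul_eq_mul, mul_smul]

theorem act_injective [NoZeroDivisors (MonoidAlgebra ℚ H)] (T : Type) [MulAction H T]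
    [FreeAct H T] {lam : MonoidAlgebra ℚ H} (hlam : lam ≠ 0) {z : T →₀ ℚ}
    (hz : act H T lam z = 0) : z = 0 := by
  ext t0
  have h1 := TfA_P_act T t0 lam z
  rw [hz] at h1
  have h2 : TfA_P T t0 (0 : T →₀ ℚ) = (0 : MonoidAlgebra ℚ H) := by
    ext g
    rw [TfA_P_apply]
    simp
  rw [h2] at h1
  have h3 : TfA_P T t0 z = (0 : MonoidAlgebra ℚ H) := by
    rcases mul_eq_zero.mp h1.symm with h | h
    · exact absurd h hlam
    · exact h
  have h4 := TfA_P_apply T t0 z (1 : H)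
  rw [h3, one_smul] at h4
  rw [← h4]
  simp

end Pool.Agent.H60.CI

end NC_H60_CI_TfA1

end S_H60_CI_TfA

section S_H60_CI_TfB

/-!
# Row TfB: `C_1(Y) / ∂ C_2(Y)` is torsion-free over `ℚH`

* `T2_rL`: if `B` has `H_1 = H_2 = 0` and `ℚH` is a domain, `lam ≠ 0`, then `T2 B (rL lam)`.
  Proof: let `a : EqF (rL lam) B.F` with `B2 a = 0`; `a = hat c` (`hat_surj`);
  `hat (L2 c) = B2 (hat c) = 0` (`hat_mat` with `D = d2`; `lin d2 = L2` is `rfl`), so `L2 c = lam • d`
  (`hat_ker`); `lam • L1 d = L1 (lam • d) = L1 (L2 c) = 0` (`act_lin`, `L1_L2`), so `L1 d = 0`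
  (`act_injective` on `B.V`), `d = L2 c'` (`H1z`); `L2 (c - lam • c') = 0` (`act_lin`), `c = lam • c'`
  (`H2z`) and `a = hat (lam • c') = 0` (`hat_lam`).
* `tf_EE`: if moreover `SS B Y` then `lam • z = L2 c` (`z` a 1-chain of `Y`, `lam ≠ 0`) implies
  `z ∈ range L2`.  Proof: `B2 (hat c) = hat (L2 c) = hat (lam • z) = 0`, so `hat c = 0` by `SS B Y`
  and `T2_rL`; `c = lam • c'` (`hat_ker`); `lam • (z - L2 c') = 0`, so `z = L2 c'` (`act_injective`
  on `Y.E`).
* `fd_EE`: let `e : EE Y` and let `S : Set H` be infinite such that all `qE Y h e`, `h ∈ S`, lie in a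
  finite dimensional subspace `W`.  Then `e = 0`.  Proof: `e = [z]`.  Take `finrank W + 1` distinct
  elements `h_0, h_1, ...` of `S`; the vectors `qE Y (h_i) e` are linearly dependent:
  `Σ a_i qE Y (h_i) e = 0` with some `a_i ≠ 0`; `lam = Σ a_i single h_i 1 ≠ 0` as the `h_i` are
  distinct, and `lam • z ∈ range L2`, so `z ∈ range L2` by `tf_EE`.
-/

noncomputable section NC_H60_CI_TfB1

namespace Pool.Agent.H60.CI

open Finsupp

variable {H : Type} [Group H]

theorem T2_rL [NoZeroDivisors (MonoidAlgebra ℚ H)] (B : HCpx H) (hB1 : B.H1z) (hB2 : B.H2z)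
    {lam : MonoidAlgebra ℚ H} (hlam : lam ≠ 0) : T2 B (rL lam) := by
  intro a ha
  obtain ⟨c, rfl⟩ := hat_surj lam B.F a
  have h1 : hat lam B.E (B.L2 c) = 0 := by
    have h2 := hat_mat lam B.d2 B.d2_smul c
    have h3 : EqF.mat (rL lam) B.d2 B.d2_smul (hat lam B.F c) = 0 := ha
    rw [h3] at h2
    exact h2.symm
  obtain ⟨d, hd⟩ := hat_ker lam B.E _ h1
  have h4 : act H B.V lam (B.L1 d) = 0 := by
    have h5 := act_lin lam B.d1 B.d1_smul d
    have h6 : B.L1 (act H B.E lam d) = 0 := by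
      rw [hd]
      exact B.L1_L2 c
    exact h5.symm.trans h6
  have h7 : B.L1 d = 0 := act_injective B.V hlam h4
  obtain ⟨c', hc'⟩ := hB1 d h7
  have h8 : B.L2 (c - act H B.F lam c') = 0 := by
    have h9 : B.L2 (act H B.F lam c') = act H B.E lam (B.L2 c') :=
      act_lin lam B.d2 B.d2_smul c'
    rw [map_sub, h9, hc', hd, sub_self]
  have h10 := hB2 _ h8
  rw [sub_eq_zero.mp h10]
  exact hat_lam lam B.F c'

theorem tf_EE [NoZeroDivisors (MonoidAlgebra ℚ H)] (B Y : HCpx H) (hB1 : B.H1z) (hB2 : B.H2z)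
    (hS : SS B Y) {lam : MonoidAlgebra ℚ H} (hlam : lam ≠ 0) (z : Y.E →₀ ℚ) (c : Y.F →₀ ℚ)
    (h : act H Y.E lam z = Y.L2 c) : ∃ c', Y.L2 c' = z := by
  have h1 : Y.B2 (rL lam) (hat lam Y.F c) = 0 := by
    have h2 : Y.B2 (rL lam) (hat lam Y.F c) = hat lam Y.E (Y.L2 c) :=
      hat_mat lam Y.d2 Y.d2_smul c
    rw [h2, ← h]
    exact hat_lam lam Y.E z
  have h3 := hS _ (rL lam) (T2_rL B hB1 hB2 hlam) _ h1
  obtain ⟨c', hc'⟩ := hat_ker lam Y.F c h3
  refine ⟨c', ?_⟩
  have h4 : act H Y.E lam (z - Y.L2 c') = 0 := by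
    have h5 : Y.L2 (act H Y.F lam c') = act H Y.E lam (Y.L2 c') :=
      act_lin lam Y.d2 Y.d2_smul c'
    rw [map_sub, h, ← h5, hc', sub_self]
  have h6 := act_injective Y.E hlam h4
  exact (sub_eq_zero.mp h6).symm

theorem TfB_act_mk (Y : HCpx H) (lam : MonoidAlgebra ℚ H) (z : Y.E →₀ ℚ) :
    (Submodule.Quotient.mk (act H Y.E lam z) : EE Y)
      = lam.coeff.sum fun h q => q • qE Y h (Submodule.Quotient.mk z) := by
  induction lam using MonoidAlgebra.induction_linear with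
  | zero => simp [TfA_act_zero]
  | add f g hf hg =>
    rw [TfA_act_add, LinearMap.add_apply, Submodule.Quotient.mk_add, hf, hg,
      MonoidAlgebra.coeff_add, Finsupp.sum_add_index' (by simp) (by intros; rw [add_smul])]
  | single h q =>
    rw [TfA_act_single, LinearMap.smul_apply, Submodule.Quotient.mk_smul,
      MonoidAlgebra.coeff_single, Finsupp.sum_single_index (by simp)]
    rfl

theorem fd_EE [NoZeroDivisors (MonoidAlgebra ℚ H)] (B Y : HCpx H) (hB1 : B.H1z) (hB2 : B.H2z)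
    (hS : SS B Y) (e : EE Y) (S : Set H) (hSinf : S.Infinite) (W : Submodule ℚ (EE Y))
    [FiniteDimensional ℚ W] (hW : ∀ h ∈ S, qE Y h e ∈ W) : e = 0 := by
  obtain ⟨z, rfl⟩ := Submodule.Quotient.mk_surjective _ e
  have hinf : Infinite S := hSinf.to_subtype
  let v : S → W := fun h => ⟨qE Y h.1 (Submodule.Quotient.mk z), hW h.1 h.2⟩
  have hnot : ¬ LinearIndependent ℚ v := by
    intro hli
    have h1 : Finite S := hli.finite
    exact not_finite S
  have hne : ∃ l : S →₀ ℚ, Finsupp.linearCombination ℚ v l = 0 ∧ l ≠ 0 := by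
    by_contra hcon
    apply hnot
    rw [linearIndependent_iff]
    intro l hl
    by_contra hl0
    exact hcon ⟨l, hl, hl0⟩
  obtain ⟨l, hl, hl0⟩ := hne
  let lam : MonoidAlgebra ℚ H := MonoidAlgebra.ofCoeff (l.mapDomain Subtype.val)
  have hco : lam.coeff = l.mapDomain Subtype.val := rfl
  have hlam : lam ≠ 0 := by
    intro h0
    apply hl0
    have h1 : l.mapDomain Subtype.val = 0 := by
      rw [← hco, h0]
      rfl
    exact (Finsupp.mapDomain_injective Subtype.val_injective)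
      (h1.trans Finsupp.mapDomain_zero.symm)
  have hz : (Submodule.Quotient.mk (act H Y.E lam z) : EE Y) = 0 := by
    rw [TfB_act_mk, hco, Finsupp.sum_mapDomain_index (by simp) (by intros; rw [add_smul])]
    have h1 := congrArg W.subtype hl
    rw [Finsupp.linearCombination_apply, Finsupp.sum, map_sum, map_zero] at h1
    rw [Finsupp.sum, ← h1]
    refine Finset.sum_congr rfl fun x _ => ?_
    rw [map_smul]
    rfl
  rw [Submodule.Quotient.mk_eq_zero] at hz
  obtain ⟨c, hc⟩ := hz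
  rw [Submodule.Quotient.mk_eq_zero]
  exact tf_EE B Y hB1 hB2 hS hlam z c hc.symm

end Pool.Agent.H60.CI

end NC_H60_CI_TfB1

end S_H60_CI_TfB

section S_H60_CI_FdD

/-!
# Row FdD: translates of a difference in a finite dimensional space

`Z : HIm B` connected with `H_1 = 0`, `n` a level of the tower, `R = Z.tow n`, `Z.tow n x y`.  If the
translates `perm h (y - x)` by an infinite set of `h ∈ H` lie in `W ⊔ DD R` with `W` finite dimensional,
then `y - x ∈ DD R`.

Proof.  Let `Λ = Z.lam R ..`, defined on `range L1`, `ker Λ = DD R` (`lam_eq_zero`).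
`e = Λ (y - x)`.  For `h ∈ S`: `perm h (y - x) = w + d` with `w ∈ W`, `d ∈ DD R ≤ range L1` (a generator of
`DD R` is `L1 (single ε 1 - single ε' 1)`), so `w ∈ W ⊓ range L1` and
`qE h e = Λ (perm h (y - x)) = Λ w` (`lam_perm`), which lies in the finite dimensional space
`W' = (W.comap (range L1).subtype).map Λ`.  By `fd_EE` (with `SS_Yn`, `H2z` of `B` from `DR`),
`e = 0`, so `y - x ∈ DD R`.
-/

noncomputable section NC_H60_CI_FdD1

set_option linter.unusedVariables false

namespace Pool.Agent.H60.CI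

open Finsupp

variable {H : Type} [Group H] {B : HCpx H}

theorem HIm.fdD [NoZeroDivisors (MonoidAlgebra ℚ H)] (Z : HIm B) (hB1 : B.H1z) (hDR : B.DR)
    (hC : Z.toHCpx.Conn) (hH : Z.toHCpx.H1z) (n : ℕ) (x y : Z.V)
    (S : Set H) (hS : S.Infinite) (W : Submodule ℚ (Z.V →₀ ℚ)) [FiniteDimensional ℚ W]
    (hW : ∀ h ∈ S, (single (h • y) 1 - single (h • x) 1 : Z.V →₀ ℚ) ∈ W ⊔ Z.toPC.DD (Z.tow n)) :
    (single y 1 - single x 1 : Z.V →₀ ℚ) ∈ Z.toPC.DD (Z.tow n) := by
  have hSS : SS B (Z.quo (Z.tow n) (Z.tow_cong n) (Z.tow_inv n)).toHCpx := Z.SS_Yn hB1 hDR hC hH n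
  have hB2 : B.H2z := H2z_of_DR hDR
  have hDDle : Z.toPC.DD (Z.tow n) ≤ LinearMap.range Z.toHCpx.L1 := by
    rw [PC.DD, Submodule.span_le]
    rintro _ ⟨a, b, a', b', e, -, -, -, rfl⟩
    exact Submodule.sub_mem _ (Z.diff_mem hC a b) (Z.diff_mem hC a' b')
  let Λ := Z.lam (Z.tow n) (Z.tow_cong n) (Z.tow_inv n)
  let v0 : LinearMap.range Z.toHCpx.L1 := ⟨single y 1 - single x 1, Z.diff_mem hC x y⟩
  have hperm : ∀ h : H, perm H Z.V h (v0 : Z.V →₀ ℚ) = single (h • y) 1 - single (h • x) 1 := by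
    intro h
    show perm H Z.V h (single y 1 - single x 1) = _
    rw [map_sub, perm_single, perm_single]
  let W1 : Submodule ℚ (LinearMap.range Z.toHCpx.L1) := W.comap (LinearMap.range Z.toHCpx.L1).subtype
  have hfin1 : FiniteDimensional ℚ W1 := by
    let f : W1 →ₗ[ℚ] W :=
      { toFun := fun v => ⟨(v.1 : Z.V →₀ ℚ), v.2⟩
        map_add' := fun _ _ => rfl
        map_smul' := fun _ _ => rfl }
    have hf : Function.Injective f := by
      intro a b hab
      apply Subtype.ext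
      apply Subtype.ext
      exact congrArg (fun u : W => (u : Z.V →₀ ℚ)) hab
    exact Module.Finite.of_injective f hf
  have hfin2 : FiniteDimensional ℚ (W1.map Λ) := inferInstance
  have hmain : ∀ h ∈ S, qE (Z.quo (Z.tow n) (Z.tow_cong n) (Z.tow_inv n)).toHCpx h (Λ v0) ∈ W1.map Λ := by
    intro h hh
    obtain ⟨w, hw, d, hd, hwd⟩ := Submodule.mem_sup.1 (hW h hh)
    rw [← hperm h] at hwd
    have hdr := hDDle hd
    have hwr : w ∈ LinearMap.range Z.toHCpx.L1 := by
      have h1 : w = perm H Z.V h (v0 : Z.V →₀ ℚ) - d := by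
        rw [← hwd, add_sub_cancel_right]
      rw [h1]
      exact Submodule.sub_mem _ (Z.perm_range h v0) hdr
    have h2 : Λ ⟨d, hdr⟩ = 0 := (Z.lam_eq_zero (Z.tow n) (Z.tow_cong n) (Z.tow_inv n) hH ⟨d, hdr⟩).2 hd
    have h3 : qE (Z.quo (Z.tow n) (Z.tow_cong n) (Z.tow_inv n)).toHCpx h (Λ v0) = Λ ⟨w, hwr⟩ := by
      rw [← Z.lam_perm (Z.tow n) (Z.tow_cong n) (Z.tow_inv n) hH h v0]
      have h4 : (⟨perm H Z.V h (v0 : Z.V →₀ ℚ), Z.perm_range h v0⟩ : LinearMap.range Z.toHCpx.L1)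
          = ⟨w, hwr⟩ + ⟨d, hdr⟩ := Subtype.ext hwd.symm
      rw [h4]
      show Λ _ = _
      rw [map_add, h2, add_zero]
    rw [h3]
    exact ⟨⟨w, hwr⟩, hw, rfl⟩
  have he := fd_EE B (Z.quo (Z.tow n) (Z.tow_cong n) (Z.tow_inv n)).toHCpx hB1 hB2 hSS (Λ v0) S hS
    (W1.map Λ) hmain
  exact (Z.lam_eq_zero (Z.tow n) (Z.tow_cong n) (Z.tow_inv n) hH v0).1 he

end Pool.Agent.H60.CI

end NC_H60_CI_FdD1

end S_H60_CI_FdD

section S_H60_CI_Orb

/-!
# Row Orb: orbits of vertices of quotients; fibres of `p` are finite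

`Z : HIm B` with `Z.HFin` (finitely many orbits of vertices, finitely many edges and marks at each vertex).

* `fib_finite`: for `b : B.V` the set `{x | p x = b}` is finite: every `x` is `h • s` with `s ∈ S` (finite),
  and for `s ∈ S` there is at most one `h` with `p (h • s) = h • p s = b` (the action on `B.V` is free).
* `quo_HFin`: the quotient by an invariant congruence is `HFin`: orbits: images; edges at `⟦x⟧`: an edge at
  `⟦x⟧` over `e` comes from an edge at some `x'` with `R x x'`, `p x' = p x`, finitely many `x'`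
  (`fib_finite`).
* `orbs_finite`: the set of orbits is finite.
* `orbs_quo_le`: `(Z / R).orbs ≤ Z.orbs`: the map of orbit sets is surjective.
* `orbs_lt`: let `R' ≤ R` be invariant congruences and `R x y` but not `R' x y` for some `x y`.  Then
  `(Z/R).orbs < (Z/R').orbs`: the map on orbit sets `V(Z/R')/H → V(Z/R)/H` is surjective; if the numbers were
  equal (or ≥) it would be bijective, so `⟦x⟧` and `⟦y⟧` lie in the same `H`-orbit of `V(Z/R')`:
  `R' (h • x) y` for some `h`; `p y = h • p x` and `p y = p x`, so `h = 1` and `R' x y`, contradiction.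
* `tow_stable`: there is `n ≤ Z.orbs` with `tow (n+1) = tow n`: otherwise `(Yn n).orbs` is strictly increasing
  for `n ≤ Z.orbs + 1`, but it is bounded by `Z.orbs`.
* `eq_bot_of_orbs`: if `(Z/R).orbs ≥ Z.orbs` then `R x y → x = y` (`orbs_lt` with `R' = ⊥`, whose quotient has
  the same number of orbits as `Z`).
-/

noncomputable section NC_H60_CI_Orb1

set_option linter.unusedVariables false

namespace Pool.Agent.H60.CI

open Finsupp

variable {H : Type} [Group H] {B : HCpx H}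

section general

variable {X Y : Type} [MulAction H X] [MulAction H Y]

/-- the map of orbit sets of an equivariant map -/
def Orb_map (f : X → Y) (hf : ∀ (h : H) (x : X), f (h • x) = h • f x) :
    MulAction.orbitRel.Quotient H X → MulAction.orbitRel.Quotient H Y :=
  Quotient.map' f (by
    intro a b hab
    obtain ⟨h, hh⟩ := hab
    refine ⟨h, ?_⟩
    show h • f b = f a
    rw [← hf]
    exact congrArg f hh)

theorem Orb_map_surj (f : X → Y) (hf : ∀ (h : H) (x : X), f (h • x) = h • f x)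
    (hs : Function.Surjective f) : Function.Surjective (Orb_map f hf) := by
  intro q
  induction q using Quotient.inductionOn' with
  | h y =>
    obtain ⟨x, rfl⟩ := hs y
    exact ⟨Quotient.mk'' x, rfl⟩

end general

namespace HIm

variable (Z : HIm B)

theorem fib_finite (hF : Z.HFin) (b : B.V) : {x : Z.V | Z.p x = b}.Finite := by
  obtain ⟨S, hS⟩ := hF.orb
  have h1 : {x : Z.V | Z.p x = b} ⊆ ⋃ s ∈ S, {x : Z.V | Z.p x = b ∧ ∃ h : H, x = h • s} := by
    intro x hx
    obtain ⟨h, s, hs, hxs⟩ := hS x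
    exact Set.mem_biUnion hs ⟨hx, h, hxs⟩
  refine Set.Finite.subset (Set.Finite.biUnion S.finite_toSet fun s _ => ?_) h1
  refine Set.Subsingleton.finite ?_
  rintro x ⟨hx, h, rfl⟩ y ⟨hy, h', rfl⟩
  have h2 : h • Z.p s = h' • Z.p s := by
    rw [← Z.p_smul, ← Z.p_smul, hx, hy]
  have h3 : (h'⁻¹ * h) • Z.p s = Z.p s := by
    rw [mul_smul, h2, inv_smul_smul]
  have h4 := B.free _ _ h3
  have h5 : h = h' := by
    rw [inv_mul_eq_one] at h4
    exact h4.symm
  rw [h5]

theorem quo_HFin (hF : Z.HFin) (R : Setoid Z.V) (hR : Z.Cong R) (hi : Z.Inv R) :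
    (Z.quo R hR hi).HFin := by
  classical
  refine ⟨?_, ?_, ?_, ?_⟩
  · obtain ⟨S, hS⟩ := hF.orb
    let q : Z.V → (Z.quo R hR hi).V := Quotient.mk R
    refine ⟨S.image q, fun x => ?_⟩
    induction x using Quotient.ind with
    | _ x =>
      obtain ⟨h, s, hs, hxs⟩ := hS x
      exact ⟨h, q s, Finset.mem_image_of_mem q hs, congrArg (Quotient.mk R) hxs⟩
  · intro x
    induction x using Quotient.ind with
    | _ a =>
      have h1 : {e : B.E | ∃ y, (Z.quo R hR hi).adj (Quotient.mk R a) e y} ⊆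
          ⋃ x ∈ {x : Z.V | Z.p x = Z.p a}, {e : B.E | ∃ y, Z.adj x e y} := by
        rintro e ⟨y, x', y', hx', rfl, hxy⟩
        exact Set.mem_biUnion (show Z.p x' = Z.p a from hR.fib (Quotient.exact hx')) ⟨y', hxy⟩
      exact Set.Finite.subset (Set.Finite.biUnion (Z.fib_finite hF _) fun x _ => hF.out x) h1
  · intro x
    induction x using Quotient.ind with
    | _ a =>
      have h1 : {e : B.E | ∃ y, (Z.quo R hR hi).adj y e (Quotient.mk R a)} ⊆
          ⋃ x ∈ {x : Z.V | Z.p x = Z.p a}, {e : B.E | ∃ y, Z.adj y e x} := by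
        rintro e ⟨y, x', y', rfl, hy', hxy⟩
        exact Set.mem_biUnion (show Z.p y' = Z.p a from hR.fib (Quotient.exact hy')) ⟨x', hxy⟩
      exact Set.Finite.subset (Set.Finite.biUnion (Z.fib_finite hF _) fun x _ => hF.inn x) h1
  · intro x
    induction x using Quotient.ind with
    | _ a =>
      have h1 : {σ : B.F | (Z.quo R hR hi).mark (Quotient.mk R a) σ} ⊆
          ⋃ x ∈ {x : Z.V | Z.p x = Z.p a}, {σ : B.F | Z.mark x σ} := by
        rintro σ ⟨x', hx', hxy⟩
        exact Set.mem_biUnion (show Z.p x' = Z.p a from hR.fib (Quotient.exact hx')) hxy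
      exact Set.Finite.subset (Set.Finite.biUnion (Z.fib_finite hF _) fun x _ => hF.mks x) h1

theorem orbs_finite (hF : Z.HFin) : Finite (MulAction.orbitRel.Quotient H Z.V) := by
  obtain ⟨S, hS⟩ := hF.orb
  refine Finite.of_surjective
    (fun s : S => (Quotient.mk'' (s : Z.V) : MulAction.orbitRel.Quotient H Z.V)) ?_
  intro q
  induction q using Quotient.inductionOn' with
  | h x =>
    obtain ⟨h, s, hs, hxs⟩ := hS x
    refine ⟨⟨s, hs⟩, ?_⟩
    refine Quotient.sound' ?_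
    refine ⟨h⁻¹, ?_⟩
    show h⁻¹ • x = s
    rw [hxs, inv_smul_smul]

theorem orbs_quo_le (hF : Z.HFin) (R : Setoid Z.V) (hR : Z.Cong R) (hi : Z.Inv R) :
    (Z.quo R hR hi).orbs ≤ Z.orbs := by
  haveI := Z.orbs_finite hF
  have h1 := Orb_map_surj (H := H) (X := Z.V) (Y := (Z.quo R hR hi).V)
    (fun x => (Z.quoMor R hR hi).f x) (Z.quoMor_smul R hR hi)
    (by
      intro q
      induction q using Quotient.ind with
      | _ a => exact ⟨a, rfl⟩)
  exact Nat.card_le_card_of_surjective _ h1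

theorem orbs_lt (hF : Z.HFin) (R R' : Setoid Z.V) (hR : Z.Cong R) (hi : Z.Inv R)
    (hR' : Z.Cong R') (hi' : Z.Inv R') (hle : R' ≤ R) (x y : Z.V) (hxy : R x y)
    (hxy' : ¬ R' x y) : (Z.quo R hR hi).orbs < (Z.quo R' hR' hi').orbs := by
  haveI := (Z.quo R' hR' hi').orbs_finite (Z.quo_HFin hF R' hR' hi')
  let g : (Z.quo R' hR' hi').V → (Z.quo R hR hi).V := Quotient.map id fun a b h => hle h
  have hg : ∀ (h : H) (a : (Z.quo R' hR' hi').V), g (h • a) = h • g a := by
    intro h a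
    induction a using Quotient.ind with
    | _ a => rfl
  have hs : Function.Surjective g := by
    intro q
    induction q using Quotient.ind with
    | _ a => exact ⟨Quotient.mk R' a, rfl⟩
  have h1 := Orb_map_surj g hg hs
  by_contra hcon
  rw [not_lt] at hcon
  have h2 := (Function.Surjective.bijective_of_nat_card_le h1 hcon).1
  have h3 : Orb_map g hg (Quotient.mk'' (Quotient.mk R' x : (Z.quo R' hR' hi').V)) =
      Orb_map g hg (Quotient.mk'' (Quotient.mk R' y : (Z.quo R' hR' hi').V)) := by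
    have h4 : g (Quotient.mk R' x : (Z.quo R' hR' hi').V) =
        g (Quotient.mk R' y : (Z.quo R' hR' hi').V) :=
      Quotient.sound (s := R) hxy
    show (Quotient.mk'' (g _) : MulAction.orbitRel.Quotient H _) = Quotient.mk'' (g _)
    rw [h4]
  have h5 := Quotient.exact' (h2 h3)
  obtain ⟨h, hh⟩ := h5
  have h6 : h • (Z.quoMor R' hR' hi').f y = (Z.quoMor R' hR' hi').f x := hh
  have h7 : (Z.quoMor R' hR' hi').f (h • y) = (Z.quoMor R' hR' hi').f x :=
    (Z.quoMor_smul R' hR' hi' h y).trans h6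
  have h8 : R' (h • y) x := Quotient.exact (s := R') h7
  have h9 : h • Z.p y = Z.p y := by
    rw [← Z.p_smul, hR'.fib h8, hR.fib hxy]
  have h10 := B.free _ _ h9
  rw [h10, one_smul] at h8
  exact hxy' (R'.symm h8)

theorem tow_stable (hF : Z.HFin) : ∃ n, Z.tow (n + 1) = Z.tow n := by
  by_contra hcon
  rw [not_exists] at hcon
  have h1 : ∀ n, (Z.Yn n).orbs < (Z.Yn (n + 1)).orbs := by
    intro n
    have h2 : ¬ Z.tow n ≤ Z.tow (n + 1) := fun h => hcon n (le_antisymm (Z.tow_le n) h)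
    have h3 : ∃ x y, Z.tow n x y ∧ ¬ Z.tow (n + 1) x y := by
      by_contra h4
      refine h2 fun {x y} hx => ?_
      by_contra h5
      exact h4 ⟨x, y, hx, h5⟩
    obtain ⟨x, y, hx, hy⟩ := h3
    exact Z.orbs_lt hF (Z.tow n) (Z.tow (n + 1)) (Z.tow_cong n) (Z.tow_inv n)
      (Z.tow_cong (n + 1)) (Z.tow_inv (n + 1)) (Z.tow_le n) x y hx hy
  have h2 : ∀ n, n ≤ (Z.Yn n).orbs := by
    intro n
    induction n with
    | zero => exact Nat.zero_le _
    | succ n ih => exact Nat.succ_le_of_lt (lt_of_le_of_lt ih (h1 n))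
  have h3 := h2 (Z.orbs + 1)
  have h4 : (Z.Yn (Z.orbs + 1)).orbs ≤ Z.orbs := Z.orbs_quo_le hF _ _ _
  omega

theorem eq_bot_of_orbs (hF : Z.HFin) (R : Setoid Z.V) (hR : Z.Cong R) (hi : Z.Inv R)
    (h : Z.orbs ≤ (Z.quo R hR hi).orbs) (x y : Z.V) (hxy : R x y) : x = y := by
  by_contra hne
  have hR' : Z.Cong (⊥ : Setoid Z.V) := by
    refine ⟨?_, ?_, ?_⟩
    · intro a b hab
      have : a = b := hab
      rw [this]
    · intro a e b a' b' h1 h2 h3
      have h4 : a = a' := h3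
      subst h4
      exact (Z.fun_r h1 h2 : b = b')
    · intro a e b a' b' h1 h2 h3
      have h4 : b = b' := h3
      subst h4
      exact (Z.fun_l h1 h2 : a = a')
  have hi' : Z.Inv (⊥ : Setoid Z.V) := by
    intro g a b hab
    have h4 : a = b := hab
    subst h4
    exact Setoid.refl' _ _
  have h1 := Z.orbs_lt hF R ⊥ hR hi hR' hi' bot_le x y hxy hne
  have h2 := Z.orbs_quo_le hF ⊥ hR' hi'
  omega

end HIm

end Pool.Agent.H60.CI

end NC_H60_CI_Orb1

end S_H60_CI_Orb

section S_H50_CI_SG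

/-!
# Section 4: finite closure
-/

noncomputable section NC_H50_CI_SG1

set_option autoImplicit false
set_option linter.unusedVariables false

namespace Pool.Agent.H60.CI

open Finsupp

variable {H : Type} [Group H] {B : HCpx H}

/-- for a good complex with the smallest number of vertex orbits the tower ends with equality -/
theorem SG_bot (Z : HIm B) (hG : Z.Good) (hmin : ∀ Z' : HIm B, Z'.Good → Z.orbs ≤ Z'.orbs) :
    ∃ n, ∀ x y, Z.tow n x y → x = y := by
  obtain ⟨n, hn⟩ := Z.tow_stable hG.fin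
  refine ⟨n, Z.eq_bot_of_orbs hG.fin (Z.tow n) (Z.tow_cong n) (Z.tow_inv n) (hmin _ ?_)⟩
  refine ⟨Z.toIm.quo_Conn (Z.tow n) (Z.tow_cong n) hG.conn,
    Z.quo_HFin hG.fin _ _ _, Z.toIm.quo_H1z (Z.tow n) (Z.tow_cong n) hG.h1 ?_⟩
  intro x y hxy
  rw [← hn] at hxy
  exact hxy.2

theorem SG_pairs (Z : HIm B) (hF : Z.HFin) : ∃ P : Finset (Z.V × Z.V), ∀ x y, Z.p x = Z.p y →
    ∃ h : H, ∃ q ∈ P, x = h • q.1 ∧ y = h • q.2 := by
  classical
  obtain ⟨S, hS⟩ := hF.orb
  refine ⟨S.biUnion fun s => (Z.fib_finite hF (Z.p s)).toFinset.image fun t => (s, t), ?_⟩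
  intro x y hxy
  obtain ⟨h, s, hs, rfl⟩ := hS x
  refine ⟨h, (s, h⁻¹ • y), ?_, rfl, (smul_inv_smul h y).symm⟩
  rw [Finset.mem_biUnion]
  refine ⟨s, hs, Finset.mem_image.2 ⟨h⁻¹ • y, ?_, rfl⟩⟩
  rw [Set.Finite.mem_toFinset]
  show Z.p (h⁻¹ • y) = Z.p s
  rw [Z.p_smul, ← hxy, Z.p_smul, inv_smul_smul]

theorem SG_step [NoZeroDivisors (MonoidAlgebra ℚ H)] (Z : HIm B) (hB1 : B.H1z) (hDR : B.DR)
    (hG : Z.Good) (n : ℕ) (R : Setoid Z.V) (W : Submodule ℚ (Z.V →₀ ℚ)) [FiniteDimensional ℚ W]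
    (hW : Z.toPC.KK (R ⊓ Z.tow n) ≤ W ⊔ Z.toPC.DD (R ⊓ Z.tow n)) :
    {q : Z.V × Z.V | R q.1 q.2 ∧ Z.tow n q.1 q.2 ∧ ¬ Z.tow (n + 1) q.1 q.2}.Finite := by
  classical
  by_contra hinf
  obtain ⟨P, hP⟩ := SG_pairs Z hG.fin
  have h1 : {q : Z.V × Z.V | R q.1 q.2 ∧ Z.tow n q.1 q.2 ∧ ¬ Z.tow (n + 1) q.1 q.2} ⊆
      ⋃ q ∈ P, (fun h : H => (h • q.1, h • q.2)) '' {h : H | R (h • q.1) (h • q.2) ∧
        Z.tow n (h • q.1) (h • q.2) ∧ ¬ Z.tow (n + 1) (h • q.1) (h • q.2)} := by
    rintro ⟨x, y⟩ hq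
    obtain ⟨h, q, hqP, hx, hy⟩ := hP x y ((Z.tow_cong n).fib hq.2.1)
    refine Set.mem_biUnion hqP ⟨h, ?_, Prod.ext hx.symm hy.symm⟩
    show R (h • q.1) (h • q.2) ∧ Z.tow n (h • q.1) (h • q.2) ∧ ¬ Z.tow (n + 1) (h • q.1) (h • q.2)
    rw [← hx, ← hy]
    exact hq
  have h2 : ∃ q ∈ P, {h : H | R (h • q.1) (h • q.2) ∧
        Z.tow n (h • q.1) (h • q.2) ∧ ¬ Z.tow (n + 1) (h • q.1) (h • q.2)}.Infinite := by
    by_contra hcon
    refine hinf ((P.finite_toSet.biUnion fun q hq => ?_).subset h1)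
    refine Set.Finite.image _ ?_
    by_contra h3
    exact hcon ⟨q, hq, h3⟩
  obtain ⟨q, hq, hS⟩ := h2
  have hle : Z.toPC.DD (R ⊓ Z.tow n) ≤ Z.toPC.DD (Z.tow n) := PC.DD_mono inf_le_right
  have h4 := Z.fdD hB1 hDR hG.conn hG.h1 n q.1 q.2 _ hS W (by
    intro h hh
    have h5 : (single (h • q.2) 1 - single (h • q.1) 1 : Z.V →₀ ℚ) ∈ Z.toPC.KK (R ⊓ Z.tow n) :=
      PC.KK_gen ⟨hh.1, hh.2.1⟩
    exact sup_le_sup_left hle W (hW h5))
  obtain ⟨h, hh⟩ := hS.nonempty
  apply hh.2.2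
  have h6 : Z.tow n q.1 q.2 := by
    have := Z.tow_inv n h⁻¹ _ _ hh.2.1
    rwa [inv_smul_smul, inv_smul_smul] at this
  exact Z.tow_inv (n + 1) h _ _ (show Z.tow (n + 1) q.1 q.2 from ⟨h6, h4⟩)

theorem SG_DD (Z : HIm B) (hF : Z.HFin) (n : ℕ) (R : Setoid Z.V)
    (hA : {q : Z.V × Z.V | R q.1 q.2 ∧ Z.tow n q.1 q.2 ∧ ¬ Z.tow (n + 1) q.1 q.2}.Finite) :
    ∃ W : Submodule ℚ (Z.V →₀ ℚ), FiniteDimensional ℚ W ∧
      Z.toPC.DD (R ⊓ Z.tow n) ≤ W ⊔ Z.toPC.DD (R ⊓ Z.tow (n + 1)) := by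
  classical
  set A := {q : Z.V × Z.V | R q.1 q.2 ∧ Z.tow n q.1 q.2 ∧ ¬ Z.tow (n + 1) q.1 q.2} with hAdef
  let S : Set (Z.V →₀ ℚ) := ⋃ q ∈ A, ⋃ e ∈ {e : B.E | ∃ y, Z.adj q.1 e y},
    {z | ∃ y y', Z.adj q.1 e y ∧ Z.adj q.2 e y' ∧
      z = (single y 1 - single q.1 1) - (single y' 1 - single q.2 1)}
  have hS : S.Finite := by
    refine hA.biUnion fun q hq => (hF.out q.1).biUnion fun e he => ?_
    refine Set.Subsingleton.finite ?_
    rintro z ⟨y, y', h1, h2, rfl⟩ z' ⟨w, w', h3, h4, rfl⟩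
    rw [Z.fun_r h1 h3, Z.fun_r h2 h4]
  refine ⟨Submodule.span ℚ S, FiniteDimensional.span_of_finite ℚ hS, ?_⟩
  conv_lhs => rw [PC.DD]
  rw [Submodule.span_le]
  rintro z ⟨x, y, x', y', e, h1, h2, h3, rfl⟩
  by_cases h4 : Z.tow (n + 1) x x'
  · exact Submodule.mem_sup_right (PC.DD_gen h1 h2 ⟨h3.1, h4⟩)
  · refine Submodule.mem_sup_left (Submodule.subset_span ?_)
    refine Set.mem_biUnion (show (x, x') ∈ A from ⟨h3.1, h3.2, h4⟩) ?_
    exact Set.mem_biUnion (show e ∈ {e : B.E | ∃ y, Z.adj x e y} from ⟨y, h1⟩) ⟨y, y', h1, h2, rfl⟩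

/-- finite closure -/
theorem finite_closure [NoZeroDivisors (MonoidAlgebra ℚ H)] (Z : HIm B) (hB1 : B.H1z)
    (hDR : B.DR) (hG : Z.Good) (hmin : ∀ Z' : HIm B, Z'.Good → Z.orbs ≤ Z'.orbs)
    (R : Setoid Z.V) (hR : Z.toPC.Cong R)
    (hfin : ∃ S : Set (Z.V →₀ ℚ), S.Finite ∧ Z.toPC.KK R ≤ Z.toPC.DD R ⊔ Submodule.span ℚ S) :
    {x : Z.V | ∃ y, y ≠ x ∧ R x y}.Finite := by
  classical
  have key : ∀ n, ∃ W : Submodule ℚ (Z.V →₀ ℚ), FiniteDimensional ℚ W ∧
      Z.toPC.KK (R ⊓ Z.tow n) ≤ W ⊔ Z.toPC.DD (R ⊓ Z.tow n) := by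
    intro n
    induction n with
    | zero =>
      obtain ⟨S, hS, h1⟩ := hfin
      refine ⟨Submodule.span ℚ S, FiniteDimensional.span_of_finite ℚ hS, ?_⟩
      have h2 : R ⊓ Z.tow 0 = R := by
        refine le_antisymm inf_le_left ?_
        intro x y hxy
        exact ⟨hxy, hR.fib hxy⟩
      rw [h2, sup_comm]
      exact h1
    | succ n ih =>
      obtain ⟨W, hW, h1⟩ := ih
      obtain ⟨W', hW', h2⟩ := SG_DD Z hG.fin n R (SG_step Z hB1 hDR hG n R W h1)
      refine ⟨W ⊔ W', inferInstance, ?_⟩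
      have h3 : R ⊓ Z.tow (n + 1) ≤ R ⊓ Z.tow n := inf_le_inf_left _ (Z.tow_le n)
      calc Z.toPC.KK (R ⊓ Z.tow (n + 1)) ≤ Z.toPC.KK (R ⊓ Z.tow n) := PC.KK_mono h3
        _ ≤ W ⊔ Z.toPC.DD (R ⊓ Z.tow n) := h1
        _ ≤ W ⊔ (W' ⊔ Z.toPC.DD (R ⊓ Z.tow (n + 1))) := sup_le_sup_left h2 W
        _ = W ⊔ W' ⊔ Z.toPC.DD (R ⊓ Z.tow (n + 1)) := (sup_assoc _ _ _).symm
  have hA : ∀ n, {q : Z.V × Z.V | R q.1 q.2 ∧ Z.tow n q.1 q.2 ∧ ¬ Z.tow (n + 1) q.1 q.2}.Finite := by
    intro n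
    obtain ⟨W, hW, h1⟩ := key n
    exact SG_step Z hB1 hDR hG n R W h1
  obtain ⟨N, hN⟩ := SG_bot Z hG hmin
  have hall : ∀ m, {q : Z.V × Z.V | R q.1 q.2 ∧ ¬ Z.tow m q.1 q.2}.Finite := by
    intro m
    induction m with
    | zero =>
      refine Set.finite_empty.subset ?_
      rintro q ⟨h1, h2⟩
      exact h2 (hR.fib h1)
    | succ m ih =>
      refine (ih.union (hA m)).subset ?_
      rintro q ⟨h1, h2⟩
      by_cases h3 : Z.tow m q.1 q.2
      · exact Or.inr ⟨h1, h3, h2⟩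
      · exact Or.inl ⟨h1, h3⟩
  refine ((hall N).image Prod.fst).subset ?_
  rintro x ⟨y, hne, hxy⟩
  exact ⟨(x, y), ⟨hxy, fun h => hne (hN _ _ h).symm⟩, rfl⟩

end Pool.Agent.H60.CI

end NC_H50_CI_SG1

end S_H50_CI_SG
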