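import Mathlib
import Pool.Agent.H50.CI.N0
import Pool.Agent.H62.CI.DefsR
import Pool.Agent.H62.CI.M1

set_option autoImplicit false

/-! Coherence of complexes with collapsing nonpositive immersions, M6: this file joins several modules. -/

section S_H50_CI_TB

/-!
# ROW TB: paths with labels in the generators
Definitions: `TD.lean` (`TD`, `cls`, `Z`), `TA.lean` (`ev`, `Lam`, `root`, `wsv`, `pth`, `psi0`,
`Cpx.integ_mk`, `Cpx.integ_invRev`), `Im.lean` (`PC.exists_walk`, `Im.bdw`, `Im.hom_isImm`).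

`gpath` is the path of `B` starting at `k • v` obtained by following the label `ρ`: letter `(j, true)`
means the translate `k • ws j` (from `k v` to `k s_j v`), letter `(j, false)` the inverse of
`k s_j⁻¹ • ws j`.

1. `gpath_walk`: induction on `ρ`; `isWalk_map` (file `Im.lean`, with `f = (k • ·)`, `g = (k • ·)`,
   `B.src_smul`, `B.tgt_smul`), `isWalk_invRev` and `isWalk_append`; `ev_cons`; `mul_smul`, `mul_assoc`.
2. `gpath_smul`: induction on `ρ`; `List.map_append`, `List.map_map`, `mul_smul`, `mul_assoc`.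
3. `gpath_lift`: induction on `ρ`, generalizing `k`. Letter `(j, true)`: the path `pth (D.wsv k j)` of `Z` goes
   from `cls (root k)` to `cls (wsv k j) = cls (root (k * s j))` (`cls_gs`), has image `k • ws j` (`pth_map`) and
   integral `psi0 b (wsv k j)` (definition). Letter `(j, false)`: with `k' = k * (s j)⁻¹` the inverse
   (`FreeGroup.invRev`, `isWalk_invRev`, `Cpx.integ_invRev`, `U4_map_invRev` in `U4.lean`) of
   `pth (D.wsv k' j)`, from `cls (root (k' * s j)) = cls (root k)` to `cls (root k')`.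
-/

noncomputable section NC_H50_CI_TB1

set_option autoImplicit false
set_option linter.unusedVariables false

namespace Pool.Agent.H60.CI

/-- the path of `B` starting at `k • v` with label `ρ` in the generators -/
def gpath {K : Type} [Group K] (B : HCpx K) {n : ℕ} (s : Fin n → K)
    (ws : Fin n → List (B.E × Bool)) : K → List (Fin n × Bool) → List (B.E × Bool)
  | _, [] => []
  | k, (j, true) :: ρ => (ws j).map (Prod.map (k • ·) id) ++ gpath B s ws (k * s j) ρ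
  | k, (j, false) :: ρ => (FreeGroup.invRev (ws j)).map (Prod.map ((k * (s j)⁻¹) • ·) id) ++
      gpath B s ws (k * (s j)⁻¹) ρ

theorem gpath_walk {K : Type} [Group K] (B : HCpx K) {n : ℕ} (s : Fin n → K)
    (ws : Fin n → List (B.E × Bool)) (v : B.V)
    (h : ∀ j, B.Walk v (ws j) (s j • v)) (k : K) (ρ : List (Fin n × Bool)) :
    B.Walk (k • v) (gpath B s ws k ρ) ((k * ev s ρ) • v) := by
  induction ρ generalizing k with
  | nil =>
    show k • v = (k * ev s []) • v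
    have h1 : ev s [] = 1 := rfl
    rw [h1, mul_one]
  | cons a ρ ih =>
    obtain ⟨j, b⟩ := a
    cases b
    · have h1 : B.Walk ((k * (s j)⁻¹) • v) ((ws j).map (Prod.map ((k * (s j)⁻¹) • ·) id))
          ((k * (s j)⁻¹) • (s j • v)) :=
        isWalk_map ((k * (s j)⁻¹) • ·) ((k * (s j)⁻¹) • ·) (fun e => B.src_smul _ e)
          (fun e => B.tgt_smul _ e) (h j)
      rw [smul_smul, inv_mul_cancel_right] at h1
      have h2 := isWalk_invRev h1
      rw [← U4_map_invRev] at h2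
      have h3 := ih (k * (s j)⁻¹)
      have h4 : k * ev s ((j, false) :: ρ) = k * (s j)⁻¹ * ev s ρ := by
        rw [ev_cons, mul_assoc]
        rfl
      rw [h4]
      exact isWalk_append.2 ⟨_, h2, h3⟩
    · have h1 : B.Walk (k • v) ((ws j).map (Prod.map (k • ·) id)) (k • (s j • v)) :=
        isWalk_map (k • ·) (k • ·) (fun e => B.src_smul _ e) (fun e => B.tgt_smul _ e) (h j)
      rw [smul_smul] at h1
      have h3 := ih (k * s j)
      have h4 : k * ev s ((j, true) :: ρ) = k * s j * ev s ρ := by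
        rw [ev_cons, mul_assoc]
        rfl
      rw [h4]
      exact isWalk_append.2 ⟨_, h1, h3⟩

theorem TB_map_map {K : Type} [Group K] (B : HCpx K) (h k : K) (L : List (B.E × Bool)) :
    (L.map (Prod.map (k • ·) id)).map (Prod.map (h • ·) id) =
      L.map (Prod.map ((h * k) • ·) id) := by
  rw [List.map_map]
  refine List.map_congr_left fun a _ => ?_
  exact Prod.ext (mul_smul h k a.1).symm rfl

theorem gpath_smul {K : Type} [Group K] (B : HCpx K) {n : ℕ} (s : Fin n → K)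
    (ws : Fin n → List (B.E × Bool)) (h k : K) (ρ : List (Fin n × Bool)) :
    gpath B s ws (h * k) ρ = (gpath B s ws k ρ).map (Prod.map (h • ·) id) := by
  induction ρ generalizing k with
  | nil => rfl
  | cons a ρ ih =>
    obtain ⟨j, b⟩ := a
    cases b
    · show (FreeGroup.invRev (ws j)).map (Prod.map ((h * k * (s j)⁻¹) • ·) id) ++
        gpath B s ws (h * k * (s j)⁻¹) ρ = ((FreeGroup.invRev (ws j)).map
          (Prod.map ((k * (s j)⁻¹) • ·) id) ++ gpath B s ws (k * (s j)⁻¹) ρ).map (Prod.map (h • ·) id)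
      rw [List.map_append, TB_map_map, ← ih, mul_assoc]
    · show (ws j).map (Prod.map ((h * k) • ·) id) ++ gpath B s ws (h * k * s j) ρ =
        ((ws j).map (Prod.map (k • ·) id) ++ gpath B s ws (k * s j) ρ).map (Prod.map (h • ·) id)
      rw [List.map_append, TB_map_map, ← ih, mul_assoc]

namespace TD

variable {K : Type} [Group K] {B : HCpx K} {D : TD B}

theorem gpath_lift (b : D.Z.Edg → ℚ) (k : K) (ρ : List (Fin D.n × Bool)) :
    ∃ L : List (D.Z.Edg × Bool),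
      D.Z.toIm.toCpx.Walk (D.cls (D.root k)) L (D.cls (D.root (k * ev D.s ρ))) ∧
      L.map (Prod.map D.Z.epr id) = gpath B D.s D.ws k ρ ∧
      Cpx.integ b L = Lam D.s (fun k j => psi0 b (D.wsv k j)) k ρ := by
  induction ρ generalizing k with
  | nil =>
    refine ⟨[], ?_, rfl, rfl⟩
    show D.cls (D.root k) = D.cls (D.root (k * ev D.s []))
    have h1 : ev D.s [] = 1 := rfl
    rw [h1, mul_one]
  | cons a ρ ih =>
    obtain ⟨j, b⟩ := a
    cases b
    · obtain ⟨k', hk'⟩ : ∃ k', k' = k * (D.s j)⁻¹ := ⟨_, rfl⟩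
      obtain ⟨L2, hL2, hm2, hi2⟩ := ih (k * (D.s j)⁻¹)
      rw [← hk'] at hL2 hm2 hi2
      have h1 : D.Z.toIm.toCpx.Walk (D.cls (D.root k')) (pth (D.wsv k' j)) (D.cls (D.wsv k' j)) :=
        pth_walk (D.wsv k' j)
      have h2 : D.cls (D.wsv k' j) = D.cls (D.root k) := by
        rw [← cls_gs, hk', inv_mul_cancel_right]
      rw [h2] at h1
      have h3 := isWalk_invRev h1
      have h4 : k * ev D.s ((j, false) :: ρ) = k' * ev D.s ρ := by
        rw [ev_cons, hk', mul_assoc]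
        rfl
      refine ⟨FreeGroup.invRev (pth (D.wsv k' j)) ++ L2, ?_, ?_, ?_⟩
      · rw [h4]
        exact isWalk_append.2 ⟨_, h3, hL2⟩
      · rw [List.map_append, U4_map_invRev, pth_map, hm2]
        show FreeGroup.invRev ((D.ws j).map (Prod.map (k' • ·) id)) ++ gpath B D.s D.ws k' ρ =
          (FreeGroup.invRev (D.ws j)).map (Prod.map ((k * (D.s j)⁻¹) • ·) id) ++
            gpath B D.s D.ws (k * (D.s j)⁻¹) ρ
        rw [← hk', U4_map_invRev]
      · rw [Cpx.integ_append, Cpx.integ_invRev, hi2]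
        show -psi0 b (D.wsv k' j) + _ = -psi0 b (D.wsv (k * (D.s j)⁻¹) j) + Lam D.s _ (k * (D.s j)⁻¹) ρ
        rw [← hk']
    · obtain ⟨L2, hL2, hm2, hi2⟩ := ih (k * D.s j)
      have h1 : D.Z.toIm.toCpx.Walk (D.cls (D.root k)) (pth (D.wsv k j)) (D.cls (D.wsv k j)) :=
        pth_walk (D.wsv k j)
      rw [← cls_gs] at h1
      have h4 : k * ev D.s ((j, true) :: ρ) = k * D.s j * ev D.s ρ := by
        rw [ev_cons, mul_assoc]
        rfl
      refine ⟨pth (D.wsv k j) ++ L2, ?_, ?_, ?_⟩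
      · rw [h4]
        exact isWalk_append.2 ⟨_, h1, hL2⟩
      · rw [List.map_append, pth_map, hm2]
        rfl
      · rw [Cpx.integ_append, hi2]
        rfl

end TD

end Pool.Agent.H60.CI

end NC_H50_CI_TB1

end S_H50_CI_TB

section S_H50_CI_TE

/-!
# ROW TE: lollipops in `Z`
Definitions: `TD.lean` (`TD`, `cls`, `Z`), `TA.lean` (`ev`, `Lam`, `root`, `wsv`, `pth`, `psi0`,
`Cpx.integ_mk`, `Cpx.integ_invRev`), `TB.lean` (`gpath`), `Im.lean` (`PC.exists_walk`, `Im.bdw`,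
`Im.hom_isImm`).

1. `lolli_lift`: induction on the list `L`. For one lollipop `(u, σ, c)` with `(u, σ) ∈ M`: `u ∈ T` by
   `D.mem_of_append`; `P = pth (k, u) ++ Q ++ invRev (pth (k, u))` where `Q = bdw (mrk _)` (mark
   `(cls (k, u), k • σ)`; see the proof of `psi0_gm`) if `c = true` and its `invRev` if `c = false`.
   Image: `FreeGroup.map (k • ·) (B.lolli (u, σ, c))` (`Im.bdw_map`, `B.bd_smul`, `FreeGroup.map.mk`,
   `FreeGroup.inv_mk`, `FreeGroup.mul_mk`). Integral: `x ± 0 - x = 0`.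
2. `lam_zero`: `gpath_lift` for `k` gives a path `L1` with image `gpath k ρ = k • gpath 1 ρ` (`gpath_smul` with
   `k * 1`), so `mk` of the image is `FreeGroup.map (k • ·) (mk (gpath 1 ρ))
   = FreeGroup.map (k • ·) (L.map B.lolli).prod`, which is the image of the path `P` of `lolli_lift`;
   both start at `cls (root k)`, so `Cpx.Hom.IsImm.mk_eq` (file `U2.lean`, for `D.Z.toIm.hom_isImm`) gives
   `mk L1 = mk P`, and `Cpx.integ_mk` gives equality of the integrals.
3. `cls_eq_of_lolli`: the paths `pth (k, p)` and `P ++ pth (k, q)` start at `cls (root k)` and have images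
   with the same class in the free group; `mk_eq` gives that the ends agree.
-/

noncomputable section NC_H50_CI_TE1

set_option autoImplicit false
set_option linter.unusedVariables false

namespace Pool.Agent.H60.CI.TD

variable {K : Type} [Group K] {B : HCpx K} {D : TD B}

theorem TE_inv {E E' : Type} (f : E → E') (L : List (E × Bool)) :
    (FreeGroup.invRev L).map (Prod.map f id) = FreeGroup.invRev (L.map (Prod.map f id)) := by
  simp only [FreeGroup.invRev, List.map_reverse, List.map_map]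
  rfl

theorem TE_mk {E E' : Type} (f : E → E') (L : List (E × Bool)) :
    FreeGroup.mk (L.map (Prod.map f id)) = FreeGroup.map f (FreeGroup.mk L) := by
  rw [FreeGroup.map.mk]
  rfl

theorem TE_one (b : D.Z.Edg → ℚ) (hb : ∀ τ : D.Z.Mks, Cpx.integ b (D.Z.toIm.bdw τ) = 0) (k : K)
    (u : List (B.E × Bool)) (σ : B.F) (c : Bool) (ht : (u, σ) ∈ D.M) :
    ∃ P : List (D.Z.Edg × Bool),
      D.Z.toIm.toCpx.Walk (D.cls (D.root k)) P (D.cls (D.root k)) ∧
      FreeGroup.mk (P.map (Prod.map D.Z.epr id)) = FreeGroup.map (k • ·) (B.lolli (u, σ, c)) ∧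
      Cpx.integ b P = 0 := by
  have hu : u ∈ D.T := D.mem_of_append u (B.bd σ) (D.M_mem (u, σ) ht)
  have hm : D.tmark (k, ⟨u, hu⟩) (k • σ) := by
    show (u, k⁻¹ • k • σ) ∈ D.M
    rw [inv_smul_smul]
    exact ht
  obtain ⟨p, hp⟩ : ∃ p : List (D.Z.Edg × Bool), p = pth (k, ⟨u, hu⟩) := ⟨_, rfl⟩
  have hpw : D.Z.toIm.toCpx.Walk (D.cls (D.root k)) p (D.cls (k, ⟨u, hu⟩)) := by
    rw [hp]; exact pth_walk (k, ⟨u, hu⟩)
  have hpm : p.map (Prod.map D.Z.epr id) = u.map (Prod.map (k • ·) id) := by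
    rw [hp]; exact pth_map (k, ⟨u, hu⟩)
  obtain ⟨q, hq⟩ : ∃ q : List (D.Z.Edg × Bool), q = D.Z.toIm.bdw (mrk hm) := ⟨_, rfl⟩
  have hqw : D.Z.toIm.toCpx.Walk (D.cls (k, ⟨u, hu⟩)) q (D.cls (k, ⟨u, hu⟩)) := by
    rw [hq]; exact D.Z.toIm.bdw_walk (mrk hm)
  have hqm : q.map (Prod.map D.Z.epr id) = (B.bd σ).map (Prod.map (k • ·) id) := by
    rw [hq, ← B.bd_smul]
    exact D.Z.toIm.bdw_map (mrk hm)
  have hqi : Cpx.integ b q = 0 := by rw [hq]; exact hb _
  cases c with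
  | true =>
    refine ⟨p ++ (q ++ FreeGroup.invRev p), isWalk_append.2 ⟨_, hpw, isWalk_append.2 ⟨_, hqw,
      isWalk_invRev hpw⟩⟩, ?_, ?_⟩
    · rw [List.map_append, List.map_append, TE_inv, hpm, hqm, ← FreeGroup.mul_mk, ← FreeGroup.mul_mk,
        ← FreeGroup.inv_mk, TE_mk, TE_mk]
      simp only [Cpx.lolli, if_true, map_mul, map_inv]
      rw [mul_assoc]
    · rw [Cpx.integ_append, Cpx.integ_append, Cpx.integ_invRev, hqi]
      ring
  | false =>
    refine ⟨p ++ (FreeGroup.invRev q ++ FreeGroup.invRev p), isWalk_append.2 ⟨_, hpw, isWalk_append.2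
      ⟨_, isWalk_invRev hqw, isWalk_invRev hpw⟩⟩, ?_, ?_⟩
    · rw [List.map_append, List.map_append, TE_inv, TE_inv, hpm, hqm, ← FreeGroup.mul_mk, ← FreeGroup.mul_mk,
        ← FreeGroup.inv_mk, ← FreeGroup.inv_mk, TE_mk, TE_mk]
      simp only [Cpx.lolli, Bool.false_eq_true, if_false, map_mul, map_inv]
      rw [mul_assoc]
    · rw [Cpx.integ_append, Cpx.integ_append, Cpx.integ_invRev, Cpx.integ_invRev, hqi]
      ring

theorem lolli_lift (b : D.Z.Edg → ℚ) (hb : ∀ τ : D.Z.Mks, Cpx.integ b (D.Z.toIm.bdw τ) = 0) (k : K)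
    (L : List (List (B.E × Bool) × B.F × Bool)) (hL : ∀ t ∈ L, (t.1, t.2.1) ∈ D.M) :
    ∃ P : List (D.Z.Edg × Bool),
      D.Z.toIm.toCpx.Walk (D.cls (D.root k)) P (D.cls (D.root k)) ∧
      FreeGroup.mk (P.map (Prod.map D.Z.epr id)) = FreeGroup.map (k • ·) (L.map B.lolli).prod ∧
      Cpx.integ b P = 0 := by
  induction L with
  | nil =>
    refine ⟨[], rfl, ?_, rfl⟩
    rw [List.map_nil, List.map_nil, List.prod_nil, map_one]
    rfl
  | cons t L ih =>
    obtain ⟨P, h1, h2, h3⟩ := ih (fun t' ht' => hL t' (List.mem_cons_of_mem _ ht'))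
    obtain ⟨u, σ, c⟩ := t
    obtain ⟨Q, g1, g2, g3⟩ := TE_one b hb k u σ c (hL (u, σ, c) List.mem_cons_self)
    refine ⟨Q ++ P, isWalk_append.2 ⟨_, g1, h1⟩, ?_, ?_⟩
    · rw [List.map_append, ← FreeGroup.mul_mk, g2, h2, List.map_cons, List.prod_cons, map_mul]
    · rw [Cpx.integ_append, g3, h3, add_zero]

theorem lam_zero (b : D.Z.Edg → ℚ) (hb : ∀ τ : D.Z.Mks, Cpx.integ b (D.Z.toIm.bdw τ) = 0) (k : K)
    (ρ : List (Fin D.n × Bool)) (L : List (List (B.E × Bool) × B.F × Bool))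
    (hL : ∀ t ∈ L, (t.1, t.2.1) ∈ D.M)
    (he : FreeGroup.mk (gpath B D.s D.ws 1 ρ) = (L.map B.lolli).prod) :
    Lam D.s (fun k j => psi0 b (D.wsv k j)) k ρ = 0 := by
  obtain ⟨P, h1, h2, h3⟩ := lolli_lift b hb k L hL
  obtain ⟨L1, g1, g2, g3⟩ := gpath_lift (D := D) b k ρ
  rw [← g3, ← h3]
  apply Cpx.integ_mk
  refine (D.Z.toIm.hom_isImm.mk_eq (φ := D.Z.toIm.hom) g1 h1 ?_).1
  have h4 : gpath B D.s D.ws k ρ = (gpath B D.s D.ws 1 ρ).map (Prod.map (k • ·) id) := by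
    rw [← gpath_smul, mul_one]
  show FreeGroup.mk (L1.map (Prod.map D.Z.epr id)) = FreeGroup.mk (P.map (Prod.map D.Z.epr id))
  rw [g2, h2, h4, TE_mk, he]

theorem cls_eq_of_lolli (k : K) {p q : List (B.E × Bool)} (hp : p ∈ D.T) (hq : q ∈ D.T)
    (L : List (List (B.E × Bool) × B.F × Bool)) (hL : ∀ t ∈ L, (t.1, t.2.1) ∈ D.M)
    (he : FreeGroup.mk p = (L.map B.lolli).prod * FreeGroup.mk q) :
    D.cls (k, ⟨p, hp⟩) = D.cls (k, ⟨q, hq⟩) := by
  obtain ⟨P, h1, h2, h3⟩ := lolli_lift (fun _ => 0) (fun τ => by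
    have h : ∀ l : List (D.Z.Edg × Bool), Cpx.integ (fun _ => (0 : ℚ)) l = 0 := by
      intro l
      induction l with
      | nil => rfl
      | cons a l ih =>
        rw [Cpx.integ_cons, ih]
        simp
    exact h _) k L hL
  have g1 : D.Z.toIm.toCpx.Walk (D.cls (D.root k)) (P ++ pth (k, ⟨q, hq⟩)) (D.cls (k, ⟨q, hq⟩)) :=
    isWalk_append.2 ⟨_, h1, pth_walk (k, ⟨q, hq⟩)⟩
  refine (D.Z.toIm.hom_isImm.mk_eq (φ := D.Z.toIm.hom) (pth_walk (k, ⟨p, hp⟩)) g1 ?_).2
  show FreeGroup.mk ((pth (k, ⟨p, hp⟩)).map (Prod.map D.Z.epr id)) =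
    FreeGroup.mk ((P ++ pth (k, ⟨q, hq⟩)).map (Prod.map D.Z.epr id))
  rw [List.map_append, ← FreeGroup.mul_mk, h2, pth_map, pth_map, TE_mk, TE_mk, he, map_mul]

end Pool.Agent.H60.CI.TD

end NC_H50_CI_TE1

end S_H50_CI_TE

section S_H50_CI_TC

/-!
# ROW TC: finiteness modulo `K` and connectedness of `Z`; constructor
Definitions: `TD.lean`, `TA.lean`, `HIm.lean` (`HIm.HFin`).

1. `finV` (`T` finite): `S` = image of the finite set `T` under `u ↦ D.cls (1, u)`; every vertex is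
   `D.cls (k, u) = k • D.cls (1, u)` (`smul_cls`, `ind_cls`).
2. `finE` (`T` finite): for `u ∈ T` with last letter: edges of `Z` are `edg h` with `h : D.tadj x e y`,
   `x = (k, u)`, `y = (k, u')` and `u' = u ++ [(k⁻¹ e, true)]` or `u = u' ++ [(k⁻¹ e, false)]`. So the edge is
   `k • ε` with `ε` an edge `edg h'`, `h' : D.tadj (1, u) (k⁻¹ • e) (1, u')`. The set
   `{ε | ∃ u u' e' (h' : D.tadj (1, u) e' (1, u')), ε = edg h'}` is finite: it injects into `T × T` and the letter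
   `e'` is determined by `(u, u')` up to the two alternatives: more simply, the map `ε ↦ ` (the longer one of
   the two words, whose last letter gives `e'` and the other word) shows that it is the image of the
   finite set `T` under a partial function; e.g. define for `w ∈ T` the set `A w` of such edges
   with `u' = w` or `u = w` longer; it has at most one element each. Any proof is fine.
3. `finM` (`M` finite): marks are `k • (cls (1, u), σ)` with `(u, σ) ∈ M`.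
4. `hfin`: `orb` from `finV`. `out`, `inn`, `mks`: e.g. the map `e ↦` (edge of `Z` from `X` over `e`) maps
   `{e | ∃ Y, Z.adj X e Y}` injectively to `{ε | Z.esrc ε = X}`, and this set is finite: by `finE` each such `ε`
   is `k • s` with `s ∈ S`, and `k` is determined by `s` (`k • Z.esrc s = X`, freeness `HIm.free`:
   `k • y = k' • y → k = k'`); a finite union over `s ∈ S` of sets with at most one element. Same for `inn`
   (targets) and `mks`.
5. `conn` (the `s j` generate `K`): every `D.cls (k, u)` is joined to `D.cls (root k)` by `pth` (`pth_walk`);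
   `D.cls (root k)` is joined to `D.cls (root (k * s j))` by `pth (wsv k j)` and `cls_gs`. The set of `g` such
   that for all `k` the vertices `cls (root k)` and `cls (root (k * g))` are joined by a path is a subgroup
   containing all `s j` (`isWalk_append`, `isWalk_invRev`), so it is everything. `Cpx.Conn` also asks
   for `Nonempty`.
6. `TD.of`: already complete (constructor from a set of words and a set of marks); `of_T_finite`: the set of
   prefixes of a finite set of words is finite (`List.inits`, `Set.Finite.subset`, `Set.Finite.biUnion`).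
-/

noncomputable section NC_H50_CI_TC1

set_option autoImplicit false
set_option linter.unusedVariables false

namespace Pool.Agent.H60.CI.TD

variable {K : Type} [Group K] {B : HCpx K}

theorem TC_cls (k : K) (D : TD B) (u : {u // u ∈ D.T}) :
    D.cls (k, u) = k • D.cls ((1 : K), u) :=
  congrArg D.cls (Prod.ext (mul_one k).symm rfl)

theorem finV (D : TD B) (hT : D.T.Finite) : ∃ S : Finset D.Z.V, ∀ x, ∃ k : K, ∃ s ∈ S, x = k • s := by
  have hf : Finite {u // u ∈ D.T} := hT.to_subtype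
  have h1 : (Set.range fun u : {u // u ∈ D.T} => D.cls ((1 : K), u)).Finite :=
    Set.finite_range _
  refine ⟨h1.toFinset, ?_⟩
  refine ind_cls (D := D) (P := fun x => ∃ k : K, ∃ s ∈ h1.toFinset, x = k • s) ?_
  rintro ⟨k, u⟩
  exact ⟨k, D.cls ((1 : K), u), h1.mem_toFinset.2 ⟨u, rfl⟩, TC_cls k D u⟩

/-- the edge of the tree ending with the word `w` -/
def TC_A (D : TD B) (w : List (B.E × Bool)) : Set D.Z.Edg :=
  {ε | ∃ (u : List (B.E × Bool)) (hu : u ∈ D.T) (hw : w ∈ D.T) (e : B.E),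
    (w = u ++ [(e, true)] ∧
      ε.1 = (D.cls ((1 : K), ⟨u, hu⟩), e, D.cls ((1 : K), ⟨w, hw⟩))) ∨
    (w = u ++ [(e, false)] ∧
      ε.1 = (D.cls ((1 : K), ⟨w, hw⟩), e, D.cls ((1 : K), ⟨u, hu⟩)))}

theorem TC_A_sub (D : TD B) (w : List (B.E × Bool)) : (TC_A D w).Subsingleton := by
  rintro ε ⟨u, hu, hw, e, h⟩ ε' ⟨u', hu', hw', e', h'⟩
  apply Subtype.ext
  rcases h with ⟨h1, h2⟩ | ⟨h1, h2⟩ <;> rcases h' with ⟨h1', h2'⟩ | ⟨h1', h2'⟩ <;>
    obtain ⟨h3, h4⟩ := List.append_inj' (h1.symm.trans h1') rfl <;> subst h3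
  · have h5 : e = e' := by simpa using h4
    subst h5
    rw [h2, h2']
  · simp at h4
  · simp at h4
  · have h5 : e = e' := by simpa using h4
    subst h5
    rw [h2, h2']

theorem finE (D : TD B) (hT : D.T.Finite) : ∃ S : Finset D.Z.Edg, ∀ ε, ∃ k : K, ∃ s ∈ S, ε = k • s := by
  have h1 : (⋃ w ∈ D.T, TC_A D w).Finite := hT.biUnion fun w _ => (TC_A_sub D w).finite
  refine ⟨h1.toFinset, ?_⟩
  rintro ⟨⟨X, e, Y⟩, hε⟩
  obtain ⟨⟨k, u, hu⟩, ⟨k', u', hu'⟩, hx, hy, hk, h⟩ := hε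
  change D.cls _ = X at hx
  change D.cls _ = Y at hy
  subst hx
  subst hy
  change k = k' at hk
  subst hk
  change u' = u ++ [(k⁻¹ • e, true)] ∨ u = u' ++ [(k⁻¹ • e, false)] at h
  have h' : D.tadj ((1 : K), ⟨u, hu⟩) (k⁻¹ • e) ((1 : K), ⟨u', hu'⟩) := by
    refine ⟨rfl, ?_⟩
    show u' = u ++ [((1 : K)⁻¹ • k⁻¹ • e, true)] ∨ u = u' ++ [((1 : K)⁻¹ • k⁻¹ • e, false)]
    rw [inv_one, one_smul]
    exact h
  refine ⟨k, edg h', ?_, ?_⟩
  · rw [Set.Finite.mem_toFinset, Set.mem_iUnion₂]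
    rcases h with h | h
    · exact ⟨u', hu', u, hu, hu', k⁻¹ • e, Or.inl ⟨h, rfl⟩⟩
    · exact ⟨u, hu, u', hu', hu, k⁻¹ • e, Or.inr ⟨h, rfl⟩⟩
  · refine D.Z.edg_ext (TC_cls k D _) ?_ (TC_cls k D _)
    exact (smul_inv_smul k e).symm

theorem finM (D : TD B) (hM : D.M.Finite) : ∃ S : Finset D.Z.Mks, ∀ τ, ∃ k : K, ∃ s ∈ S, τ = k • s := by
  have h0 : ∀ t : List (B.E × Bool) × B.F, {τ : D.Z.Mks | ∃ h : t.1 ∈ D.T,
      τ.1 = (D.cls ((1 : K), ⟨t.1, h⟩), t.2)}.Subsingleton := by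
    rintro t τ ⟨h, h1⟩ τ' ⟨h', h1'⟩
    exact Subtype.ext (h1.trans h1'.symm)
  have h1 : (⋃ t ∈ D.M, {τ : D.Z.Mks | ∃ h : t.1 ∈ D.T,
      τ.1 = (D.cls ((1 : K), ⟨t.1, h⟩), t.2)}).Finite := hM.biUnion fun t _ => (h0 t).finite
  refine ⟨h1.toFinset, ?_⟩
  rintro ⟨⟨X, σ⟩, hτ⟩
  obtain ⟨⟨k, u, hu⟩, hx, h⟩ := hτ
  change D.cls _ = X at hx
  subst hx
  change (u, k⁻¹ • σ) ∈ D.M at h
  have h' : D.tmark ((1 : K), ⟨u, hu⟩) (k⁻¹ • σ) := by
    show (u, (1 : K)⁻¹ • k⁻¹ • σ) ∈ D.M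
    rw [inv_one, one_smul]
    exact h
  refine ⟨k, mrk h', ?_, ?_⟩
  · rw [Set.Finite.mem_toFinset, Set.mem_iUnion₂]
    exact ⟨(u, k⁻¹ • σ), h, hu, rfl⟩
  · refine D.Z.mks_ext (TC_cls k D _) ?_
    exact (smul_inv_smul k σ).symm

theorem TC_sub (D : TD B) {β : Type} [MulAction K β] (x a : D.Z.V) (b : β) :
    {e : β | ∃ k : K, x = k • a ∧ e = k • b}.Subsingleton := by
  rintro e ⟨k, h1, h2⟩ e' ⟨k', h1', h2'⟩
  have h3 : (k'⁻¹ * k) • a = a := by
    rw [mul_smul, ← h1, h1', inv_smul_smul]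
  have h4 := D.Z.free _ _ h3
  have h5 : k' = k := inv_mul_eq_one.1 h4
  rw [h2, h2', h5]

theorem hfin (D : TD B) (hT : D.T.Finite) (hM : D.M.Finite) : D.Z.HFin := by
  obtain ⟨S, hS⟩ := finE D hT
  obtain ⟨S', hS'⟩ := finM D hM
  refine ⟨finV D hT, fun x => ?_, fun y => ?_, fun x => ?_⟩
  · refine (S.finite_toSet.biUnion fun s _ => (TC_sub D x (D.Z.esrc s) (D.Z.epr s)).finite).subset ?_
    rintro e ⟨y, h⟩
    obtain ⟨k, s, hs, h1⟩ := hS ⟨(x, e, y), h⟩
    rw [Set.mem_iUnion₂]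
    refine ⟨s, hs, k, ?_, ?_⟩
    · exact congrArg D.Z.esrc h1
    · exact congrArg D.Z.epr h1
  · refine (S.finite_toSet.biUnion fun s _ => (TC_sub D y (D.Z.etgt s) (D.Z.epr s)).finite).subset ?_
    rintro e ⟨x, h⟩
    obtain ⟨k, s, hs, h1⟩ := hS ⟨(x, e, y), h⟩
    rw [Set.mem_iUnion₂]
    refine ⟨s, hs, k, ?_, ?_⟩
    · exact congrArg D.Z.etgt h1
    · exact congrArg D.Z.epr h1
  · refine (S'.finite_toSet.biUnion fun s _ =>
      (TC_sub D x (D.Z.mbase s) (D.Z.mpr s)).finite).subset ?_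
    rintro σ h
    obtain ⟨k, s, hs, h1⟩ := hS' ⟨(x, σ), h⟩
    rw [Set.mem_iUnion₂]
    refine ⟨s, hs, k, ?_, ?_⟩
    · exact congrArg D.Z.mbase h1
    · exact congrArg D.Z.mpr h1

theorem conn (D : TD B) (hs : Subgroup.closure (Set.range D.s) = ⊤) : D.Z.toIm.toCpx.Conn := by
  have hrefl : ∀ x : D.ZV, ∃ w, D.Z.toIm.toCpx.Walk x w x := fun x => ⟨[], rfl⟩
  have hsymm : ∀ {x y : D.ZV}, (∃ w, D.Z.toIm.toCpx.Walk x w y) →
      ∃ w, D.Z.toIm.toCpx.Walk y w x := by
    rintro x y ⟨w, hw⟩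
    exact ⟨_, isWalk_invRev hw⟩
  have htrans : ∀ {x y z : D.ZV}, (∃ w, D.Z.toIm.toCpx.Walk x w y) →
      (∃ w, D.Z.toIm.toCpx.Walk y w z) → ∃ w, D.Z.toIm.toCpx.Walk x w z := by
    rintro x y z ⟨w, hw⟩ ⟨w', hw'⟩
    exact ⟨w ++ w', isWalk_append.2 ⟨y, hw, hw'⟩⟩
  have hroot : ∀ x : D.W, ∃ w, D.Z.toIm.toCpx.Walk (D.cls (D.root x.1)) w (D.cls x) :=
    fun x => ⟨_, pth_walk x⟩
  have hgen : ∀ g : K, ∀ k : K, ∃ w, D.Z.toIm.toCpx.Walk (D.cls (D.root k)) w
      (D.cls (D.root (k * g))) := by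
    intro g
    have hg : g ∈ Subgroup.closure (Set.range D.s) := by rw [hs]; exact Subgroup.mem_top g
    induction hg using Subgroup.closure_induction with
    | mem x hx =>
      obtain ⟨j, rfl⟩ := hx
      intro k
      rw [cls_gs]
      exact hroot (D.wsv k j)
    | one =>
      intro k
      rw [mul_one]
      exact hrefl _
    | mul x y _ _ hx hy =>
      intro k
      rw [← mul_assoc]
      exact htrans (hx k) (hy (k * x))
    | inv x _ hx =>
      intro k
      have h1 := hx (k * x⁻¹)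
      rw [inv_mul_cancel_right] at h1
      exact hsymm h1
  refine ⟨⟨D.cls (D.root 1)⟩, ?_⟩
  refine ind_cls (D := D) (P := fun x => ∀ y : D.ZV, ∃ w, D.Z.toIm.toCpx.Walk x w y) fun x => ?_
  refine ind_cls (D := D) (P := fun y => ∃ w, D.Z.toIm.toCpx.Walk (D.cls x) w y) fun y => ?_
  refine htrans (hsymm (hroot x)) (htrans ?_ (hroot y))
  have h1 := hgen (x.1⁻¹ * y.1) x.1
  rw [mul_inv_cancel_left] at h1
  exact h1

/-- constructor: all prefixes of the words in `P`, of the `ws j` and of the `u ++ bd σ`, `(u, σ) ∈ M` -/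
def of (B : HCpx K) (v : B.V) {n : ℕ} (s : Fin n → K) (ws : Fin n → List (B.E × Bool))
    (hws : ∀ j, B.Walk v (ws j) (s j • v)) (P : Set (List (B.E × Bool)))
    (hP : ∀ p ∈ P, ∃ y, B.Walk v p y) (M : Set (List (B.E × Bool) × B.F))
    (hM : ∀ t ∈ M, B.Walk v t.1 (B.base t.2)) : TD B where
  v := v
  T := {u | u = [] ∨ (∃ p ∈ P, u <+: p) ∨ (∃ j, u <+: ws j) ∨ ∃ t ∈ M, u <+: t.1 ++ B.bd t.2}
  nil_mem := Or.inl rfl
  pre := by
    intro u a h
    have h1 : u <+: u ++ [a] := List.prefix_append _ _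
    rcases h with h | ⟨p, hp, h⟩ | ⟨j, h⟩ | ⟨t, ht, h⟩
    · simp at h
    · exact Or.inr (Or.inl ⟨p, hp, h1.trans h⟩)
    · exact Or.inr (Or.inr (Or.inl ⟨j, h1.trans h⟩))
    · exact Or.inr (Or.inr (Or.inr ⟨t, ht, h1.trans h⟩))
  walk := by
    have key : ∀ (u p : List (B.E × Bool)) (y : B.V), u <+: p → B.Walk v p y →
        ∃ y, IsWalk B.src B.tgt v u y := by
      rintro u _ y ⟨w, rfl⟩ h
      obtain ⟨z, hz, _⟩ := isWalk_append.1 h
      exact ⟨z, hz⟩
    rintro u (h | ⟨p, hp, h⟩ | ⟨j, h⟩ | ⟨t, ht, h⟩)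
    · exact ⟨v, by subst h; rfl⟩
    · obtain ⟨y, hy⟩ := hP p hp
      exact key _ _ _ h hy
    · exact key _ _ _ h (hws j)
    · exact key _ _ _ h (isWalk_append.2 ⟨_, hM t ht, B.bd_walk t.2⟩)
  n := n
  s := s
  ws := ws
  ws_mem := fun j => Or.inr (Or.inr (Or.inl ⟨j, List.prefix_rfl⟩))
  ws_walk := hws
  M := M
  M_walk := hM
  M_mem := fun t ht => Or.inr (Or.inr (Or.inr ⟨t, ht, List.prefix_rfl⟩))

theorem TC_inits {α : Type} (p : List α) : {u : List α | u <+: p}.Finite := by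
  refine (List.finite_toSet p.inits).subset ?_
  intro u hu
  exact (List.mem_inits u p).2 hu

theorem of_T_finite (B : HCpx K) (v : B.V) {n : ℕ} (s : Fin n → K) (ws : Fin n → List (B.E × Bool))
    (hws : ∀ j, B.Walk v (ws j) (s j • v)) (P : Set (List (B.E × Bool)))
    (hP : ∀ p ∈ P, ∃ y, B.Walk v p y) (M : Set (List (B.E × Bool) × B.F))
    (hM : ∀ t ∈ M, B.Walk v t.1 (B.base t.2)) (hPf : P.Finite) (hMf : M.Finite) :
    (TD.of B v s ws hws P hP M hM).T.Finite := by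
  have h1 : ({[]} ∪ ((⋃ p ∈ P, {u | u <+: p}) ∪ ((⋃ j : Fin n, {u | u <+: ws j}) ∪
      ⋃ t ∈ M, {u | u <+: t.1 ++ B.bd t.2})) : Set (List (B.E × Bool))).Finite := by
    refine (Set.finite_singleton _).union ((hPf.biUnion fun p _ => TC_inits p).union
      ((Set.finite_iUnion fun j => TC_inits (ws j)).union (hMf.biUnion fun t _ => TC_inits _)))
  refine h1.subset ?_
  rintro u (h | ⟨p, hp, h⟩ | ⟨j, h⟩ | ⟨t, ht, h⟩)
  · exact Or.inl h
  · exact Or.inr (Or.inl (Set.mem_iUnion₂.2 ⟨p, hp, h⟩))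
  · exact Or.inr (Or.inr (Or.inl (Set.mem_iUnion.2 ⟨j, h⟩)))
  · exact Or.inr (Or.inr (Or.inr (Set.mem_iUnion₂.2 ⟨t, ht, h⟩)))

end Pool.Agent.H60.CI.TD

end NC_H50_CI_TC1

end S_H50_CI_TC

section S_H50_CI_N2

/-!
# ROW N2: `H¹ = 0` implies Euler characteristic at least one
`Y` finite connected, every rational 1-cocycle is a coboundary (`Cpx.H1Zero`, `N0.lean`). Linear maps
`d0 : (Y.V → ℚ) →ₗ (Y.E → ℚ)`, `(d0 ψ) ε = ψ (tgt ε) - ψ (src ε)`, and
`d1 : (Y.E → ℚ) →ₗ (Y.F → ℚ)`, `(d1 w) τ = integ w (bd τ)` (linear: `Cpx.integ` is a list sum).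
* `ker d0` = constants: if `d0 ψ = 0` then `ψ` is constant along walks (induction on the word), so
  constant by connectedness. So `finrank (ker d0) ≤ 1` (`ker d0 ≤ span {1}`).
* `ker d1 ≤ range d0` by hypothesis.
Rank-nullity (`LinearMap.finrank_range_add_finrank_ker`) with `finrank (Y.V → ℚ) = card V` etc.:
`card V = rk d0 + nullity d0 ≤ rk d0 + 1`; and we need `chi ≥ 1`:
`card E = rk d1 + nullity d1 ≤ card F + rk d0`, and `rk d0 = card V - nullity d0 ≤ card V - 1` because the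
constant function `1` lies in `ker d0` and is not zero (`Y.V` is non-empty), so `nullity d0 ≥ 1`.
Hence `card E ≤ card F + card V - 1`. (Only `nullity d0 ≥ 1` is used; connectedness is not needed
beyond `Nonempty Y.V`.) `Nat.card = Fintype.card`.
-/

set_option autoImplicit false

namespace Pool.Agent.H60.CI.Cpx

theorem N2_add {E : Type} (w w' : E → ℚ) (l : List (E × Bool)) :
    integ (w + w') l = integ w l + integ w' l := by
  induction l with
  | nil => simp [integ_nil]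
  | cons a l ih =>
    rw [integ_cons, integ_cons, integ_cons, ih]
    split_ifs
    · show w a.1 + w' a.1 + _ = _
      ring
    · show -(w a.1 + w' a.1) + _ = _
      ring

theorem N2_smul {E : Type} (c : ℚ) (w : E → ℚ) (l : List (E × Bool)) :
    integ (c • w) l = c * integ w l := by
  induction l with
  | nil => simp [integ_nil]
  | cons a l ih =>
    rw [integ_cons, integ_cons, ih]
    split_ifs
    · show c * w a.1 + _ = _
      ring
    · show -(c * w a.1) + _ = _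
      ring

theorem one_le_chi (Y : Cpx) [Finite Y.V] [Finite Y.E] [Finite Y.F] (hc : Y.Conn)
    (h : Y.H1Zero) : 1 ≤ Y.chi := by
  classical
  have : Fintype Y.V := Fintype.ofFinite _
  have : Fintype Y.E := Fintype.ofFinite _
  have : Fintype Y.F := Fintype.ofFinite _
  let d0 : (Y.V → ℚ) →ₗ[ℚ] (Y.E → ℚ) :=
    { toFun := fun ψ ε => ψ (Y.tgt ε) - ψ (Y.src ε)
      map_add' := by
        intro ψ ψ'
        funext ε
        show (ψ (Y.tgt ε) + ψ' (Y.tgt ε)) - (ψ (Y.src ε) + ψ' (Y.src ε)) =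
          (ψ (Y.tgt ε) - ψ (Y.src ε)) + (ψ' (Y.tgt ε) - ψ' (Y.src ε))
        ring
      map_smul' := by
        intro c ψ
        funext ε
        show c * ψ (Y.tgt ε) - c * ψ (Y.src ε) = c * (ψ (Y.tgt ε) - ψ (Y.src ε))
        ring }
  let d1 : (Y.E → ℚ) →ₗ[ℚ] (Y.F → ℚ) :=
    { toFun := fun w τ => integ w (Y.bd τ)
      map_add' := by
        intro w w'
        funext τ
        exact N2_add w w' (Y.bd τ)
      map_smul' := by
        intro c w
        funext τ
        exact N2_smul c w (Y.bd τ) }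
  have hle : LinearMap.ker d1 ≤ LinearMap.range d0 := by
    intro w hw
    have h1 : ∀ τ, integ w (Y.bd τ) = 0 := by
      intro τ
      have h2 : d1 w = 0 := hw
      exact congrFun h2 τ
    obtain ⟨ψ, hψ⟩ := h w h1
    refine ⟨ψ, ?_⟩
    funext ε
    exact (hψ ε).symm
  obtain ⟨x0⟩ := hc.1
  have hone : (fun _ : Y.V => (1 : ℚ)) ∈ LinearMap.ker d0 := by
    rw [LinearMap.mem_ker]
    funext ε
    show (1 : ℚ) - 1 = 0
    ring
  have hnt : Nontrivial (LinearMap.ker d0) := by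
    refine ⟨⟨⟨_, hone⟩, 0, ?_⟩⟩
    intro h0
    have h1 : (fun _ : Y.V => (1 : ℚ)) = 0 := congrArg Subtype.val h0
    have h2 := congrFun h1 x0
    exact one_ne_zero h2
  have k0 : 0 < Module.finrank ℚ (LinearMap.ker d0) := Module.finrank_pos
  have r0 := LinearMap.finrank_range_add_finrank_ker d0
  have r1 := LinearMap.finrank_range_add_finrank_ker d1
  have s1 := Submodule.finrank_mono hle
  have s2 := Submodule.finrank_le (LinearMap.range d1)
  rw [Module.finrank_fintype_fun_eq_card] at r0 r1 s2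
  unfold chi
  rw [Nat.card_eq_fintype_card, Nat.card_eq_fintype_card, Nat.card_eq_fintype_card]
  omega

end Pool.Agent.H60.CI.Cpx

end S_H50_CI_N2

section S_H50_CI_N3

/-!
# ROW N3: subcomplexes of a collapsible complex have free faces
`Cpx.Built` is in `N0.lean`, `Cpx.DR` in `U0.lean`. Three inductions on `Built Y A B C`:
* `edge_mem`: edges of `B` have both ends in `A`.
* `bd_mem`: 2-cells `τ ∈ C` have all edges of `bd τ` in `B`.
* `free`: if `S ⊆ C` is non-empty then some `σ ∈ S` has a position `bd σ = w₁ ++ a :: w₂` such that the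
  edge `a.1` occurs neither in `w₁ ++ w₂` nor in `bd σ'`, `σ' ∈ S`, `σ' ≠ σ`. Induction: `point`:
  `S = ∅`, contradiction; `leaf`: `C` is unchanged; `face e τ`: if `τ ∉ S` then `S ⊆ C`, induction. If
  `τ ∈ S` take `σ = τ`, `a = (e, b)`: other edges of `bd τ` lie in `B` and `e ∉ B`; `σ' ∈ S`, `σ' ≠ τ` lies in
  the old `C`, so the edges of `bd σ'` lie in the old `B` by `bd_mem`, and `e ∉ B`.
* `dr_of_collapsible`: `free` with `A = B = C = univ`.
-/

set_option autoImplicit false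

namespace Pool.Agent.H60.CI.Cpx

variable {Y : Cpx} {A : Set Y.V} {B : Set Y.E} {C : Set Y.F}

theorem Built.edge_mem (h : Built Y A B C) {e : Y.E} (he : e ∈ B) : Y.src e ∈ A ∧ Y.tgt e ∈ A := by
  induction h with
  | point x => exact absurd he (Set.notMem_empty _)
  | leaf x e' h hx he' hor ih =>
    rcases he with rfl | he
    · rcases hor with ⟨h1, h2⟩ | ⟨h1, h2⟩
      · exact ⟨Set.mem_insert_of_mem _ h1, h2 ▸ Set.mem_insert _ _⟩
      · exact ⟨h1 ▸ Set.mem_insert _ _, Set.mem_insert_of_mem _ h2⟩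
    · exact ⟨Set.mem_insert_of_mem _ (ih he).1, Set.mem_insert_of_mem _ (ih he).2⟩
  | face e' τ h he' hτ hs ht hex ih =>
    rcases he with rfl | he
    · exact ⟨hs, ht⟩
    · exact ih he

theorem Built.bd_mem (h : Built Y A B C) {τ : Y.F} (hτ : τ ∈ C) : ∀ a ∈ Y.bd τ, a.1 ∈ B := by
  induction h with
  | point x => exact absurd hτ (Set.notMem_empty _)
  | leaf x e' h hx he' hor ih =>
    intro a ha
    exact Set.mem_insert_of_mem _ (ih hτ a ha)
  | face e' τ' h he' hτ' hs ht hex ih =>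
    intro a ha
    rcases hτ with rfl | hτ
    · obtain ⟨w₁, b, w₂, hb, hw⟩ := hex
      rw [hb, List.mem_append, List.mem_cons] at ha
      rcases ha with ha | ha | ha
      · exact Set.mem_insert_of_mem _ (hw a (List.mem_append.2 (Or.inl ha)))
      · rw [ha]
        exact Set.mem_insert _ _
      · exact Set.mem_insert_of_mem _ (hw a (List.mem_append.2 (Or.inr ha)))
    · exact Set.mem_insert_of_mem _ (ih hτ a ha)

theorem Built.free (h : Built Y A B C) (S : Set Y.F) (hS : S ⊆ C) (hne : S.Nonempty) :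
    ∃ σ ∈ S, ∃ w₁ a w₂, Y.bd σ = w₁ ++ a :: w₂ ∧ (∀ c ∈ w₁ ++ w₂, c.1 ≠ a.1) ∧
      ∀ σ' ∈ S, σ' ≠ σ → ∀ c ∈ Y.bd σ', c.1 ≠ a.1 := by
  induction h with
  | point x =>
    obtain ⟨σ, hσ⟩ := hne
    exact absurd (hS hσ) (Set.notMem_empty _)
  | leaf x e' h hx he' hor ih => exact ih hS
  | face e' τ h he' hτ hs ht hex ih =>
    by_cases hτS : τ ∈ S
    · obtain ⟨w₁, b, w₂, hb, hw⟩ := hex
      refine ⟨τ, hτS, w₁, (e', b), w₂, hb, ?_, ?_⟩
      · intro c hc h1
        have h2 := hw c hc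
        rw [h1] at h2
        exact he' h2
      · intro σ' hσ' hne' c hc h1
        have h2 : c.1 ∈ _ := h.bd_mem ((hS hσ').resolve_left hne') c hc
        rw [h1] at h2
        exact he' h2
    · refine ih fun σ hσ => ?_
      rcases hS hσ with h1 | h1
      · rw [h1] at hσ
        exact absurd hσ hτS
      · exact h1

theorem dr_of_collapsible (h : Y.Collapsible) : Y.DR := by
  intro S _ hne
  exact Built.free h S (Set.subset_univ S) hne

end Pool.Agent.H60.CI.Cpx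

end S_H50_CI_N3

section S_H50_CI_N6

/-!
# ROW N6: the universal cover is diagrammatically reducible
`K` a trivial group (only one element), `B : HCpx K` connected, `LolliSC`, `cv : B → X` an immersion, `X` with
collapsing nonpositive immersions. Claim: every finite non-empty set `S` of 2-cells of `B` has a free
face (`Cpx.DR`, file `U0.lean`).

Proof. Fix `v : B.V` (`hc.1`). For every `σ` choose a walk `u σ` from `v` to `B.base σ` (`hc.2`).
`P := {u σ ++ q | σ ∈ S, q <+: B.bd σ}` (finite; all elements are walks from `v`, `isWalk_append`). For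
`p, q` with `B.Walk v p y`, `B.Walk v q y` for some `y`, the word `p ++ FreeGroup.invRev q` is a closed walk,
so `LolliSC` gives a list `L p q` with `FreeGroup.mk (p ++ invRev q) = ((L p q).map B.lolli).prod`, i.e.
`FreeGroup.mk p = (..).prod * FreeGroup.mk q` (choose `L p q` for all pairs of words by `choose` or
`Classical`, empty list if there is no common end).
`M := {(u σ, σ) | σ ∈ S} ∪ ⋃ p q ∈ P with common end, {(t.1, t.2.1) | t ∈ L p q}`: finite.
`D := TD.of B v (n := 0) Fin.elim0 Fin.elim0 _ P _ M _` (file `TC.lean`; `T` finite by `of_T_finite`).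
* `D.Z.toIm.toCpx` has finitely many vertices, edges, 2-cells: `finV`, `finE`, `finM` and `K` trivial
  (`k • s = s`).
* it is connected: `conn` (`Subgroup` of a trivial group: `Subsingleton`).
* `H1Zero`: `exact_of` with `c = 0` (no `j`).
* so `1 ≤ chi` (`one_le_chi`), and CNPI for `Cpx.Hom.comp cv D.Z.toIm.hom` (`Cpx.Hom.IsImm.comp`,
  `hom_isImm`) gives `Collapsible`, and `dr_of_collapsible` gives `DR` for `D.Z.toIm.toCpx`.
KEY: for `p, q ∈ P` with the same end (`Walk v p y`, `Walk v q y`), `D.cls (1, p) = D.cls (1, q)`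
(`cls_eq_of_lolli`).
For `σ ∈ S` let `τ σ := mrk` of `D.tmark (1, u σ) σ` (`one_smul`, `inv_one`). LEMMA: for `σ ∈ S` and
`c ∈ D.Z.bdw (τ σ)` there is `p ∈ P` with `D.Z.esrc c.1 = D.cls (1, p)` and
`B.Walk v p (B.src (D.Z.epr c.1))`. Proof: `bdw (τ σ) = l₁ ++ c :: l₂` (`List.append_of_mem` or
`List.mem_iff_append`), the image of `l₁` is a prefix `q` of `B.bd σ` (`bdw_map`), the path `l₁` goes from
`D.cls (1, u σ)` to `oS c`, and by `tree_path` (with `k = 1`) and `Im.W_fun` this end is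
`D.cls (1, u σ ++ q)`; likewise `oT c = D.cls (1, u σ ++ q ++ [c'])` with `c'` the image of `c`. If `c.2 = true`
then `src = oS` otherwise `src = oT`. The position (`D.Z.p`, `TD.pos`) of `D.cls (1, p)` is the end of `p`,
and `D.Z.p (esrc ε) = B.src (epr ε)` (`adj_src`).
CONSEQUENCE: `σ, σ' ∈ S`, `c ∈ bdw (τ σ)`, `c' ∈ bdw (τ σ')`, `epr c.1 = epr c'.1` imply `c.1 = c'.1`
(same source by KEY, then `hom_isImm.src_inj`).
Apply `DR` to `{τ σ | σ ∈ S}`: get `σ₀` and `bdw (τ σ₀) = w₁ ++ a :: w₂`. Push to `B` by `bdw_map`: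
`B.bd σ₀ = w₁' ++ a' :: w₂'`; every `c' ∈ w₁' ++ w₂'` is the image of `c ∈ w₁ ++ w₂`, so `c'.1 = a'.1` gives
`c.1 = a.1` by the consequence, contradiction. For `σ' ∈ S`, `σ' ≠ σ₀`: `τ σ' ≠ τ σ₀`, `c' ∈ B.bd σ'` is the
image of `c ∈ bdw (τ σ')`, same argument.

`dr_Xt`: apply this to `(XtH X x0).restr ⊥` (`U1.lean`), `Xt_conn`, `Xt_sc`, `cov_imm` (`U4.lean`).
-/

noncomputable section NC_H50_CI_N61

set_option autoImplicit false
set_option linter.unusedVariables false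

namespace Pool.Agent.H50.CI

open Pool.Agent.H60.CI

open TD

variable {K : Type} [Group K] {B : HCpx K}

theorem N6_walk (D : TD B) {u w : List (B.E × Bool)} (hu : u ∈ D.T) (h : u ++ w ∈ D.T)
    {l : List (D.Z.Edg × Bool)} {y : D.Z.V}
    (hl : IsWalk D.Z.esrc D.Z.etgt (D.cls ((1 : K), ⟨u, hu⟩)) l y)
    (hm : l.map (Prod.map D.Z.epr id) = w) : y = D.cls ((1 : K), ⟨u ++ w, h⟩) := by
  have h1 := D.Z.W_of_walk hl
  rw [hm] at h1
  have h2 := tree_path (D := D) (1 : K) w u hu h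
  have h3 : w.map (Prod.map ((1 : K) • ·) id) = w := by
    have h4 : (Prod.map ((1 : K) • ·) id : B.E × Bool → B.E × Bool) = id := by
      funext a
      exact Prod.ext (one_smul K a.1) rfl
    rw [h4, List.map_id]
  rw [h3] at h2
  exact D.Z.toIm.W_fun h1 h2

theorem N6_end (D : TD B) {p : List (B.E × Bool)} (hp : p ∈ D.T) (ε : D.Z.Edg)
    (h : D.Z.esrc ε = D.cls ((1 : K), ⟨p, hp⟩)) : B.Walk D.v p (B.src (D.Z.epr ε)) := by
  have h1 : D.Z.p (D.Z.esrc ε) = B.src (D.Z.epr ε) := D.Z.adj_src ε.2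
  rw [h] at h1
  change (1 : K) • endW B.src B.tgt D.v p = _ at h1
  rw [one_smul] at h1
  rw [← h1]
  exact isWalk_end hp

theorem N6_bdw (D : TD B) {u : List (B.E × Bool)} (hu : u ∈ D.T) {σ : B.F}
    (hm : D.tmark ((1 : K), ⟨u, hu⟩) σ) (c : D.Z.Edg × Bool) (hc : c ∈ D.Z.toIm.bdw (mrk hm)) :
    ∃ q, q <+: B.bd σ ∧ ∃ h : u ++ q ∈ D.T, D.Z.esrc c.1 = D.cls ((1 : K), ⟨u ++ q, h⟩) ∧
      B.Walk D.v (u ++ q) (B.src (D.Z.epr c.1)) := by
  obtain ⟨l₁, l₂, hl⟩ := List.append_of_mem hc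
  have hwalk := D.Z.toIm.bdw_walk (mrk hm)
  have hmap : (D.Z.toIm.bdw (mrk hm)).map (Prod.map D.Z.epr id) = B.bd σ :=
    D.Z.toIm.bdw_map (mrk hm)
  rw [hl] at hwalk hmap
  have hM : (u, σ) ∈ D.M := by
    have h1 : (u, (1 : K)⁻¹ • σ) ∈ D.M := hm
    rw [inv_one, one_smul] at h1
    exact h1
  have hT : u ++ B.bd σ ∈ D.T := D.M_mem _ hM
  obtain ⟨y, h1, h2, h3⟩ := isWalk_append.1 hwalk
  obtain ⟨q₁, hq₁⟩ : ∃ q₁, q₁ = l₁.map (Prod.map D.Z.epr id) := ⟨_, rfl⟩
  obtain ⟨c', hc'⟩ : ∃ c', c' = Prod.map D.Z.epr id c := ⟨_, rfl⟩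
  obtain ⟨q₂, hq₂⟩ : ∃ q₂, q₂ = l₂.map (Prod.map D.Z.epr id) := ⟨_, rfl⟩
  have hbd : B.bd σ = q₁ ++ c' :: q₂ := by
    rw [← hmap, List.map_append, List.map_cons, hq₁, hc', hq₂]
  have hT1 : u ++ q₁ ∈ D.T := by
    refine D.mem_of_append _ (c' :: q₂) ?_
    rw [List.append_assoc, ← hbd]
    exact hT
  have hT2 : u ++ (q₁ ++ [c']) ∈ D.T := by
    refine D.mem_of_append _ q₂ ?_
    have h4 : u ++ (q₁ ++ [c']) ++ q₂ = u ++ B.bd σ := by
      rw [hbd]
      simp
    rw [h4]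
    exact hT
  have e1 : y = D.cls ((1 : K), ⟨u ++ q₁, hT1⟩) := N6_walk D hu hT1 h1 hq₁.symm
  have e2 : oT D.Z.esrc D.Z.etgt c = D.cls ((1 : K), ⟨u ++ (q₁ ++ [c']), hT2⟩) := by
    refine N6_walk D hu hT2 (l := l₁ ++ [c]) (isWalk_append.2 ⟨y, h1, h2, rfl⟩) ?_
    rw [List.map_append, hq₁, hc']
    rfl
  obtain ⟨ε, b⟩ := c
  cases b with
  | true =>
    have e3 : D.Z.esrc ε = D.cls ((1 : K), ⟨u ++ q₁, hT1⟩) := by
      rw [← e1, ← h2]
      rfl
    exact ⟨q₁, ⟨c' :: q₂, hbd.symm⟩, hT1, e3, N6_end D hT1 ε e3⟩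
  | false =>
    have e3 : D.Z.esrc ε = D.cls ((1 : K), ⟨u ++ (q₁ ++ [c']), hT2⟩) := e2
    refine ⟨q₁ ++ [c'], ⟨q₂, ?_⟩, hT2, e3, N6_end D hT2 ε e3⟩
    rw [hbd]
    simp

theorem N6_fin {α : Type} [MulAction K α] [Subsingleton K] (S : Finset α)
    (h : ∀ x : α, ∃ k : K, ∃ s ∈ S, x = k • s) : Finite α := by
  rw [← Set.finite_univ_iff]
  refine S.finite_toSet.subset ?_
  intro x _
  obtain ⟨k, s, hs, hx⟩ := h x
  rw [Subsingleton.elim k 1, one_smul] at hx
  rw [hx]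
  exact hs

theorem N6_dr [Subsingleton K] (D : TD B) (hn : D.n = 0) (hT : D.T.Finite) (hM : D.M.Finite)
    {X : Cpx} (hX : X.CNPI) (cv : Cpx.Hom B.toCpx X) (hcv : cv.IsImm) :
    D.Z.toIm.toCpx.DR := by
  have hemp : ∀ j : Fin D.n, False := by
    intro j
    have h1 := j.2
    omega
  obtain ⟨SV, hSV⟩ := finV D hT
  obtain ⟨SE, hSE⟩ := finE D hT
  obtain ⟨SM, hSM⟩ := finM D hM
  have fV : Finite D.Z.toIm.toCpx.V := N6_fin (α := D.Z.V) SV hSV
  have fE : Finite D.Z.toIm.toCpx.E := N6_fin (α := D.Z.Edg) SE hSE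
  have fF : Finite D.Z.toIm.toCpx.F := N6_fin (α := D.Z.Mks) SM hSM
  have hconn : D.Z.toIm.toCpx.Conn := by
    refine D.conn ?_
    refine Subgroup.ext fun x => ⟨fun _ => Subgroup.mem_top _, fun _ => ?_⟩
    rw [Subsingleton.elim x 1]
    exact one_mem _
  have hH1 : D.Z.toIm.toCpx.H1Zero := by
    intro w hw
    obtain ⟨Ψ, _, h2⟩ := exact_of (D := D) w hw (fun _ => 0) (fun k j => (hemp j).elim)
    exact ⟨Ψ, h2⟩
  have hchi := Cpx.one_le_chi D.Z.toIm.toCpx hconn hH1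
  rcases hX D.Z.toIm.toCpx fV fE fF hconn (Cpx.Hom.comp cv D.Z.toIm.hom)
    (hcv.comp D.Z.toIm.hom_isImm) with h | h
  · omega
  · exact Cpx.dr_of_collapsible h

theorem dr_of_cnpi {K : Type} [Group K] [Subsingleton K] (B : HCpx K) (hc : B.Conn)
    (hs : B.LolliSC) {X : Cpx} (hX : X.CNPI) (cv : Cpx.Hom B.toCpx X) (hcv : cv.IsImm) : B.DR := by
  intro S hSf hSne
  obtain ⟨⟨v⟩, hconn⟩ := hc
  choose u hu using fun σ : B.F => hconn v (B.base σ)
  -- the words
  obtain ⟨P, hPdef⟩ : ∃ P : Set (List (B.E × Bool)),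
      P = {p | ∃ σ ∈ S, ∃ q, q <+: B.bd σ ∧ p = u σ ++ q} := ⟨_, rfl⟩
  have hPf : P.Finite := by
    have h1 : (⋃ σ ∈ S, (fun q => u σ ++ q) '' {q | q <+: B.bd σ}).Finite :=
      hSf.biUnion fun σ _ => (TC_inits (B.bd σ)).image _
    refine h1.subset ?_
    rw [hPdef]
    rintro p ⟨σ, hσ, q, hq, rfl⟩
    exact Set.mem_iUnion₂.2 ⟨σ, hσ, q, hq, rfl⟩
  have hP : ∀ p ∈ P, ∃ y, B.Walk v p y := by
    rw [hPdef]
    rintro p ⟨σ, hσ, q, ⟨r, hr⟩, rfl⟩
    have h1 : B.Walk (B.base σ) (q ++ r) (B.base σ) := by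
      rw [hr]
      exact B.bd_walk σ
    obtain ⟨y, hy, _⟩ := isWalk_append.1 h1
    exact ⟨y, isWalk_append.2 ⟨_, hu σ, hy⟩⟩
  have hLex : ∀ p q : List (B.E × Bool), ∃ L : List (List (B.E × Bool) × B.F × Bool),
      (∃ y, B.Walk v p y ∧ B.Walk v q y) → (∀ t ∈ L, B.Walk v t.1 (B.base t.2.1)) ∧
        FreeGroup.mk (p ++ FreeGroup.invRev q) = (L.map B.lolli).prod := by
    intro p q
    by_cases h : ∃ y, B.Walk v p y ∧ B.Walk v q y
    · obtain ⟨y, h1, h2⟩ := h
      obtain ⟨L, h3, h4⟩ := hs v (p ++ FreeGroup.invRev q)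
        (isWalk_append.2 ⟨y, h1, isWalk_invRev h2⟩)
      exact ⟨L, fun _ => ⟨h3, h4⟩⟩
    · exact ⟨[], fun h' => absurd h' h⟩
  choose L hL using hLex
  obtain ⟨M, hMdef⟩ : ∃ M : Set (List (B.E × Bool) × B.F),
      M = (fun σ => (u σ, σ)) '' S ∪ {t | ∃ p ∈ P, ∃ q ∈ P, (∃ y, B.Walk v p y ∧ B.Walk v q y) ∧
        ∃ s ∈ L p q, t = (s.1, s.2.1)} := ⟨_, rfl⟩
  have hMf : M.Finite := by
    rw [hMdef]
    refine (hSf.image _).union ?_
    have h1 : (⋃ p ∈ P, ⋃ q ∈ P, (fun s : List (B.E × Bool) × B.F × Bool => (s.1, s.2.1)) ''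
        {s | s ∈ L p q}).Finite :=
      hPf.biUnion fun p _ => hPf.biUnion fun q _ => (List.finite_toSet (L p q)).image _
    refine h1.subset ?_
    rintro t ⟨p, hp, q, hq, _, s, hs1, rfl⟩
    exact Set.mem_iUnion₂.2 ⟨p, hp, Set.mem_iUnion₂.2 ⟨q, hq, s, hs1, rfl⟩⟩
  have hM : ∀ t ∈ M, B.Walk v t.1 (B.base t.2) := by
    rw [hMdef]
    rintro t (⟨σ, _, rfl⟩ | ⟨p, _, q, _, hy, s, hs1, rfl⟩)
    · exact hu σ
    · exact (hL p q hy).1 s hs1
  -- the complex
  obtain ⟨D, hDv, hDn, hPT, hMM, hTf, hMf'⟩ : ∃ D : TD B, D.v = v ∧ D.n = 0 ∧ P ⊆ D.T ∧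
      M ⊆ D.M ∧ D.T.Finite ∧ D.M.Finite := by
    refine ⟨TD.of B v (n := 0) (fun j => j.elim0) (fun j => j.elim0) (fun j => j.elim0) P hP M hM,
      rfl, rfl, ?_, fun t ht => ht, ?_, hMf⟩
    · intro p hp
      exact Or.inr (Or.inl ⟨p, hp, List.prefix_rfl⟩)
    · exact of_T_finite B v _ _ _ P hP M hM hPf hMf
  have hDR := N6_dr D hDn hTf hMf' hX cv hcv
  have key : ∀ (p q : List (B.E × Bool)) (hp : p ∈ P) (hq : q ∈ P) (hp' : p ∈ D.T) (hq' : q ∈ D.T)
      (y : B.V), B.Walk v p y → B.Walk v q y →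
      D.cls ((1 : K), ⟨p, hp'⟩) = D.cls ((1 : K), ⟨q, hq'⟩) := by
    intro p q hp hq hp' hq' y h1 h2
    have hy : ∃ y, B.Walk v p y ∧ B.Walk v q y := ⟨y, h1, h2⟩
    refine cls_eq_of_lolli 1 hp' hq' (L p q) ?_ ?_
    · intro t ht
      apply hMM
      rw [hMdef]
      exact Or.inr ⟨p, hp, q, hq, hy, t, ht, rfl⟩
    · rw [← (hL p q hy).2, ← FreeGroup.mul_mk, ← FreeGroup.inv_mk, inv_mul_cancel_right]
  have hMS : ∀ σ : S, (u σ, (σ : B.F)) ∈ D.M := by
    intro σ
    apply hMM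
    rw [hMdef]
    exact Or.inl ⟨σ.1, σ.2, rfl⟩
  have huT : ∀ σ : S, u σ ∈ D.T := fun σ => D.mem_of_append _ _ (D.M_mem _ (hMS σ))
  have htm : ∀ σ : S, D.tmark ((1 : K), ⟨u σ, huT σ⟩) σ := by
    intro σ
    show (u σ, (1 : K)⁻¹ • (σ : B.F)) ∈ D.M
    rw [inv_one, one_smul]
    exact hMS σ
  obtain ⟨tau, htau⟩ : ∃ tau : S → D.Z.Mks, tau = fun σ => mrk (htm σ) := ⟨_, rfl⟩
  have hmpr : ∀ σ : S, D.Z.mpr (tau σ) = σ := by
    intro σ
    rw [htau]
    rfl
  have hmap : ∀ σ : S, (D.Z.toIm.bdw (tau σ)).map (Prod.map D.Z.epr id) = B.bd σ := by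
    intro σ
    rw [D.Z.toIm.bdw_map]
    exact congrArg B.bd (hmpr σ)
  have cons : ∀ (σ σ' : S) (c c' : D.Z.Edg × Bool), c ∈ D.Z.toIm.bdw (tau σ) →
      c' ∈ D.Z.toIm.bdw (tau σ') → D.Z.epr c.1 = D.Z.epr c'.1 → c.1 = c'.1 := by
    intro σ σ' c c' hc1 hc2 he
    rw [htau] at hc1 hc2
    obtain ⟨q, hq, hqT, h1, h2⟩ := N6_bdw D (huT σ) (htm σ) c hc1
    obtain ⟨q', hq', hqT', h1', h2'⟩ := N6_bdw D (huT σ') (htm σ') c' hc2
    refine D.Z.toIm.hom_isImm.src_inj _ _ ?_ he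
    show D.Z.esrc c.1 = D.Z.esrc c'.1
    rw [h1, h1']
    rw [hDv] at h2 h2'
    rw [← he] at h2'
    refine key _ _ ?_ ?_ _ _ _ h2 h2'
    · rw [hPdef]
      exact ⟨σ, σ.2, q, hq, rfl⟩
    · rw [hPdef]
      exact ⟨σ', σ'.2, q', hq', rfl⟩
  have : Finite S := hSf.to_subtype
  have hDR' : ∃ (σ₀ : S) (w₁ : List (D.Z.Edg × Bool)) (a : D.Z.Edg × Bool)
      (w₂ : List (D.Z.Edg × Bool)), D.Z.toIm.bdw (tau σ₀) = w₁ ++ a :: w₂ ∧
      (∀ c ∈ w₁ ++ w₂, c.1 ≠ a.1) ∧
      ∀ σ' : S, tau σ' ≠ tau σ₀ → ∀ c ∈ D.Z.toIm.bdw (tau σ'), c.1 ≠ a.1 := by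
    obtain ⟨τ₀, ⟨σ₀, rfl⟩, w₁, a, w₂, h1, h2, h3⟩ := hDR (Set.range tau) (Set.finite_range _) (by
      obtain ⟨σ, hσ⟩ := hSne
      exact ⟨tau ⟨σ, hσ⟩, ⟨σ, hσ⟩, rfl⟩)
    exact ⟨σ₀, w₁, a, w₂, h1, h2, fun σ' h => h3 (tau σ') ⟨σ', rfl⟩ h⟩
  obtain ⟨σ₀, w₁, a, w₂, h1', h2, h3⟩ := hDR'
  have ha : a ∈ D.Z.toIm.bdw (tau σ₀) := by
    rw [h1']
    simp
  refine ⟨σ₀, σ₀.2, w₁.map (Prod.map D.Z.epr id), Prod.map D.Z.epr id a,
    w₂.map (Prod.map D.Z.epr id), ?_, ?_, ?_⟩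
  · rw [← hmap σ₀, h1', List.map_append, List.map_cons]
  · intro c' hc' hca
    rw [← List.map_append] at hc'
    obtain ⟨c, hc, rfl⟩ := List.mem_map.1 hc'
    refine h2 c hc ?_
    refine cons σ₀ σ₀ c a ?_ ha hca
    rw [h1']
    rcases List.mem_append.1 hc with h | h
    · exact List.mem_append_left _ h
    · exact List.mem_append_right _ (List.mem_cons_of_mem _ h)
  · intro σ' hσ' hne c' hc' hca
    rw [← hmap ⟨σ', hσ'⟩] at hc'
    obtain ⟨c, hc, rfl⟩ := List.mem_map.1 hc'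
    refine h3 ⟨σ', hσ'⟩ ?_ c hc ?_
    · intro h4
      apply hne
      have h5 := congrArg D.Z.mpr h4
      rw [hmpr, hmpr] at h5
      exact h5
    · exact cons ⟨σ', hσ'⟩ σ₀ c a hc ha hca

theorem dr_Xt {X : Cpx} (hX : X.CNPI) (x0 : X.V) : (Xt X x0).DR := by
  exact dr_of_cnpi ((XtH X x0).restr ⊥) Xt_conn Xt_sc hX (cov X x0) cov_imm

end Pool.Agent.H50.CI

end NC_H50_CI_N61

end S_H50_CI_N6

section S_H50_CI_N4

/-!
# ROW N4: a connected free cover of a collapsible complex is trivial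
`Z : HCpx K` (group `K` acting on the complex `Z`, freely on vertices), quotient complex `Z.quot`
(`N0.lean`; cells = orbits, `Z.proj : Z → Z.quot`). `Z` connected, `Z.quot` collapsible. Claim `K = 1`.

`exists_kappa`: for `Built Z.quot A B C` there is `κ : Z.V → K` with
 (1) `κ (k • v) = k * κ v` for all `k` and all `v` with `[v] ∈ A`;
 (2) `κ (src ε) = κ (tgt ε)` for all `ε : Z.E` with `[ε] ∈ B`.
Write `[·]` for `Z.proj.v`, `Z.proj.e` (`= Quotient.mk''`); `[v] = [v']` iff `∃ k, k • v' = v`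
(`Quotient.exact`, `MulAction.orbitRel_apply`). Induction on `Built`:
* `point x`: choose `v0` with `[v0] = x` (`Quotient.exists_rep`); for `[v] = x` let `κ v` be the `k` with
  `k • v0 = v` (unique by `Z.free`), otherwise `κ v = 1`.
* `leaf x e`: say `src e ∈ A`, `tgt e = x` (other case symmetric, with `src` and `tgt` exchanged). For `[v] = x`
  there is `ε` with `[ε] = e` and `tgt ε = v`: take a representative `ε0` of `e`; `[tgt ε0] = x = [v]`, so
  `k • tgt ε0 = v`, `ε = k • ε0`; it is unique: `[ε] = [ε']` gives `ε' = k • ε`, then `tgt ε' = k • tgt ε`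
  and `tgt ε' = tgt ε` force `k = 1` (`Z.free`). Put `κ' v = κ (src ε)` for `[v] = x`, `κ' v = κ v`
  otherwise. (1): for `[v] = x`: the edge at `k • v` is `k • ε` (uniqueness), and
  `[src ε] = src e ∈ A`. (2): for `[ε] ∈ B` both ends of `[ε]` lie in `A` (`Built.edge_mem`, row N3),
  `x ∉ A`, so `κ'` and `κ` agree there; for `[ε] = e`: `κ' (tgt ε) = κ (src ε)` and `κ' (src ε) = κ (src ε)`
  (`[src ε] ∈ A`, so it is not `x`).
* `face e τ`: keep `κ`. (2) for `[ε] = e`: `bd τ = w₁ ++ (e, b) :: w₂` in the quotient. Take a representative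
  `τ0` of `τ`; `(Z.bd τ0).map (mk × id) = w₁ ++ (e, b) :: w₂`, so `Z.bd τ0 = v₁ ++ (ε1, b) :: v₂` with `[ε1] = e`;
  `ε = k • ε1`; replace `τ0` by `k • τ0` (`Z.bd_smul`) to have `ε1 = ε`. All edges of `v₁`, `v₂` have class in
  `B`, so `κ` is constant along `v₁` and `v₂` (small lemma: `IsWalk x w y` and all edges of `w` satisfy (2)
  imply `κ x = κ y`); so `κ (oS (ε, b)) = κ (base) = κ (oT (ε, b))`, which is the claim.

`trivial_of_quot_collapsible`: `κ` for `A = B = univ`; `Z` connected so `κ` is constant (walk lemma);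
`κ (k • v) = k * κ v = κ v` gives `k = 1`.
-/

set_option autoImplicit false

namespace Pool.Agent.H60.CI.HCpx

variable {K : Type} [Group K]

theorem N4_v (Z : HCpx K) {v v' : Z.V} : Z.proj.v v = Z.proj.v v' ↔ ∃ k : K, k • v' = v := by
  change (Quotient.mk'' v : MulAction.orbitRel.Quotient K Z.V) = Quotient.mk'' v' ↔ _
  rw [Quotient.eq'']
  exact Iff.rfl

theorem N4_e (Z : HCpx K) {v v' : Z.E} : Z.proj.e v = Z.proj.e v' ↔ ∃ k : K, k • v' = v := by
  change (Quotient.mk'' v : MulAction.orbitRel.Quotient K Z.E) = Quotient.mk'' v' ↔ _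
  rw [Quotient.eq'']
  exact Iff.rfl

theorem N4_ke (Z : HCpx K) (k : K) (ε : Z.E) : Z.proj.e (k • ε) = Z.proj.e ε :=
  (N4_e Z).2 ⟨k, rfl⟩

theorem N4_kv (Z : HCpx K) (k : K) (v : Z.V) : Z.proj.v (k • v) = Z.proj.v v :=
  (N4_v Z).2 ⟨k, rfl⟩

theorem N4_free (Z : HCpx K) {a b : K} {v : Z.V} (h : a • v = b • v) : a = b := by
  have h1 : (b⁻¹ * a) • v = v := by rw [mul_smul, h, inv_smul_smul]
  have h2 := Z.free _ _ h1
  rwa [inv_mul_eq_one, eq_comm] at h2

theorem N4_walk {M : Type} (Z : HCpx K) (κ : Z.V → M) : ∀ (w : List (Z.E × Bool)) (x y : Z.V),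
    IsWalk Z.src Z.tgt x w y → (∀ a ∈ w, κ (Z.src a.1) = κ (Z.tgt a.1)) → κ x = κ y := by
  intro w
  induction w with
  | nil =>
    intro x y h _
    have h' : x = y := h
    rw [h']
  | cons a w ih =>
    intro x y h hw
    obtain ⟨h1, h2⟩ := h
    have h3 := ih _ y h2 fun c hc => hw c (List.mem_cons_of_mem _ hc)
    have h4 := hw a List.mem_cons_self
    rw [← h3, ← h1]
    unfold oS oT
    split_ifs
    · exact h4
    · exact h4.symm

theorem N4_split (Z : HCpx K) : ∀ (w₁ : List (Z.E × Bool)) (a : Z.E × Bool)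
    (w₂ : List (Z.E × Bool)) (x y : Z.V), IsWalk Z.src Z.tgt x (w₁ ++ a :: w₂) y →
    IsWalk Z.src Z.tgt x w₁ (oS Z.src Z.tgt a) ∧ IsWalk Z.src Z.tgt (oT Z.src Z.tgt a) w₂ y := by
  intro w₁
  induction w₁ with
  | nil =>
    intro a w₂ x y h
    exact ⟨h.1.symm, h.2⟩
  | cons c w ih =>
    intro a w₂ x y h
    obtain ⟨h1, h2⟩ := h
    obtain ⟨h3, h4⟩ := ih a w₂ _ y h2
    exact ⟨⟨h1, h3⟩, h4⟩

theorem N4_leaf (Z : HCpx K) (κ : Z.V → K) (A : Set Z.quot.V)
    (hκ : ∀ (k : K) (v : Z.V), Z.proj.v v ∈ A → κ (k • v) = k * κ v)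
    (x : Z.quot.V) (hx : x ∉ A) (e : Z.quot.E) (s t : Z.E → Z.V)
    (hs : ∀ (k : K) (ε : Z.E), s (k • ε) = k • s ε) (ht : ∀ (k : K) (ε : Z.E), t (k • ε) = k • t ε)
    (hsA : ∀ ε, Z.proj.e ε = e → Z.proj.v (s ε) ∈ A)
    (htx : ∀ ε, Z.proj.e ε = e → Z.proj.v (t ε) = x) :
    ∃ κ' : Z.V → K, (∀ v, Z.proj.v v ∈ A → κ' v = κ v) ∧
      (∀ (k : K) (v : Z.V), Z.proj.v v ∈ insert x A → κ' (k • v) = k * κ' v) ∧
      ∀ ε, Z.proj.e ε = e → κ' (s ε) = κ' (t ε) := by
  classical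
  have hex : ∀ v, Z.proj.v v = x → ∃ ε, Z.proj.e ε = e ∧ t ε = v := by
    intro v hv
    obtain ⟨ε0, h0⟩ : ∃ ε0 : Z.E, Z.proj.e ε0 = e := Quotient.exists_rep e
    have h1 : Z.proj.v v = Z.proj.v (t ε0) := by rw [hv, htx ε0 h0]
    obtain ⟨k, hk⟩ := (N4_v Z).1 h1
    exact ⟨k • ε0, by rw [N4_ke, h0], by rw [ht, hk]⟩
  have huni : ∀ ε ε', Z.proj.e ε = e → Z.proj.e ε' = e → t ε = t ε' → ε = ε' := by
    intro ε ε' h h' htt
    obtain ⟨k, hk⟩ := (N4_e Z).1 (h.trans h'.symm)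
    have h1 : k • t ε' = t ε' := by rw [← ht, hk, htt]
    have h2 : k = 1 := Z.free _ _ h1
    rw [← hk, h2, one_smul]
  let κ' : Z.V → K := fun v => if h : Z.proj.v v = x then κ (s (Classical.choose (hex v h))) else κ v
  have hval : ∀ ε, Z.proj.e ε = e → κ' (t ε) = κ (s ε) := by
    intro ε hε
    have h := htx ε hε
    change (if h : Z.proj.v (t ε) = x then κ (s (Classical.choose (hex (t ε) h))) else κ (t ε)) = _
    rw [dif_pos h]
    have h1 := Classical.choose_spec (hex (t ε) h)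
    rw [huni _ ε h1.1 hε h1.2]
  have hold : ∀ v, Z.proj.v v ∈ A → κ' v = κ v := by
    intro v hv
    have h : Z.proj.v v ≠ x := fun h => hx (h ▸ hv)
    change (if h : Z.proj.v v = x then κ (s (Classical.choose (hex v h))) else κ v) = _
    rw [dif_neg h]
  refine ⟨κ', hold, ?_, ?_⟩
  · intro k v hv
    rcases hv with hv | hv
    · obtain ⟨ε, hε, hv'⟩ := hex v hv
      rw [← hv', hval ε hε, ← ht, hval _ (by rw [N4_ke, hε]), hs, hκ k _ (hsA ε hε)]
    · rw [hold v hv, hold _ (by rw [N4_kv]; exact hv), hκ k v hv]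
  · intro ε hε
    rw [hval ε hε, hold _ (hsA ε hε)]

theorem exists_kappa (Z : HCpx K) {A : Set Z.quot.V} {B : Set Z.quot.E} {C : Set Z.quot.F}
    (h : Cpx.Built Z.quot A B C) :
    ∃ κ : Z.V → K, (∀ (k : K) (v : Z.V), Z.proj.v v ∈ A → κ (k • v) = k * κ v) ∧
      ∀ ε : Z.E, Z.proj.e ε ∈ B → κ (Z.src ε) = κ (Z.tgt ε) := by
  classical
  induction h with
  | point x =>
    obtain ⟨v0, h0⟩ : ∃ v0 : Z.V, Z.proj.v v0 = x := Quotient.exists_rep x
    have hex : ∀ v, Z.proj.v v = x → ∃ k : K, k • v0 = v := fun v hv =>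
      (N4_v Z).1 (hv.trans h0.symm)
    refine ⟨fun v => if h : Z.proj.v v = x then Classical.choose (hex v h) else 1, ?_, ?_⟩
    · intro k v hv
      have hv' : Z.proj.v v = x := hv
      have hv2 : Z.proj.v (k • v) = x := by rw [N4_kv, hv']
      simp only
      rw [dif_pos hv', dif_pos hv2]
      have h1 := Classical.choose_spec (hex v hv')
      have h2 := Classical.choose_spec (hex (k • v) hv2)
      apply N4_free Z (v := v0)
      rw [h2, mul_smul, h1]
    · intro ε hε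
      exact absurd hε (Set.notMem_empty _)
  | @leaf A B C x e hb hx he hor ih =>
    obtain ⟨κ, h1, h2⟩ := ih
    rcases hor with ⟨ha, hb'⟩ | ⟨ha, hb'⟩
    · obtain ⟨κ', k1, k2, k3⟩ := N4_leaf Z κ A h1 x hx e Z.src Z.tgt Z.src_smul Z.tgt_smul
        (fun ε hε => by
          have h3 := Z.proj.src_v ε
          rw [hε] at h3
          rw [← h3]
          exact ha)
        (fun ε hε => by
          have h3 := Z.proj.tgt_v ε
          rw [hε] at h3
          rw [← h3]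
          exact hb')
      refine ⟨κ', k2, fun ε hε => ?_⟩
      rcases hε with hε | hε
      · exact k3 ε hε
      · have h4 := hb.edge_mem hε
        rw [k1 _ (by rw [← Z.proj.src_v]; exact h4.1), k1 _ (by rw [← Z.proj.tgt_v]; exact h4.2)]
        exact h2 ε hε
    · obtain ⟨κ', k1, k2, k3⟩ := N4_leaf Z κ A h1 x hx e Z.tgt Z.src Z.tgt_smul Z.src_smul
        (fun ε hε => by
          have h3 := Z.proj.tgt_v ε
          rw [hε] at h3
          rw [← h3]
          exact hb')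
        (fun ε hε => by
          have h3 := Z.proj.src_v ε
          rw [hε] at h3
          rw [← h3]
          exact ha)
      refine ⟨κ', k2, fun ε hε => ?_⟩
      rcases hε with hε | hε
      · exact (k3 ε hε).symm
      · have h4 := hb.edge_mem hε
        rw [k1 _ (by rw [← Z.proj.src_v]; exact h4.1), k1 _ (by rw [← Z.proj.tgt_v]; exact h4.2)]
        exact h2 ε hε
  | @face A B C e τ hb he hτ hs ht hw ih =>
    obtain ⟨κ, h1, h2⟩ := ih
    refine ⟨κ, h1, fun ε hε => ?_⟩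
    rcases hε with hε | hε
    · obtain ⟨w₁, b, w₂, hbd, hB⟩ := hw
      obtain ⟨τ0, hτ0⟩ : ∃ τ0 : Z.F, Z.proj.f τ0 = τ := Quotient.exists_rep τ
      have hm : (Z.bd τ0).map (Prod.map Z.proj.e id) = w₁ ++ (e, b) :: w₂ := by
        rw [← hbd, ← hτ0, Z.proj.bd_e]
      obtain ⟨v₁, v, hv, hv1, hv2⟩ := List.map_eq_append_iff.1 hm
      obtain ⟨a, v₂, hv3, hv4, hv5⟩ := List.map_eq_cons_iff.1 hv2
      obtain ⟨ε1, b1⟩ := a
      have hε1 : Z.proj.e ε1 = e := congrArg Prod.fst hv4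
      have hb1 : b1 = b := congrArg Prod.snd hv4
      obtain ⟨k, hk⟩ := (N4_e Z).1 ((show Z.proj.e ε = e from hε).trans hε1.symm)
      have hbdk : Z.bd (k • τ0) = v₁.map (Prod.map (k • ·) id) ++
          (ε, b1) :: v₂.map (Prod.map (k • ·) id) := by
        rw [Z.bd_smul, hv, hv3, List.map_append, List.map_cons]
        congr 2
        rw [← hk]
        rfl
      have hwalk := Z.bd_walk (k • τ0)
      rw [hbdk] at hwalk
      obtain ⟨q1, q2⟩ := N4_split Z _ _ _ _ _ hwalk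
      have p1 : ∀ a ∈ v₁.map (Prod.map (k • ·) id), κ (Z.src a.1) = κ (Z.tgt a.1) := by
        intro a ha
        obtain ⟨c, hc, rfl⟩ := List.mem_map.1 ha
        apply h2
        change Z.proj.e (k • c.1) ∈ B
        rw [N4_ke]
        have h5 : Prod.map Z.proj.e id c ∈ w₁ := by
          rw [← hv1]
          exact List.mem_map_of_mem hc
        exact hB _ (List.mem_append_left _ h5)
      have p2 : ∀ a ∈ v₂.map (Prod.map (k • ·) id), κ (Z.src a.1) = κ (Z.tgt a.1) := by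
        intro a ha
        obtain ⟨c, hc, rfl⟩ := List.mem_map.1 ha
        apply h2
        change Z.proj.e (k • c.1) ∈ B
        rw [N4_ke]
        have h5 : Prod.map Z.proj.e id c ∈ w₂ := by
          rw [← hv5]
          exact List.mem_map_of_mem hc
        exact hB _ (List.mem_append_right _ h5)
      have r1 := N4_walk Z κ _ _ _ q1 p1
      have r2 := N4_walk Z κ _ _ _ q2 p2
      have r3 : κ (oS Z.src Z.tgt (ε, b1)) = κ (oT Z.src Z.tgt (ε, b1)) := r1.symm.trans r2.symm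
      cases b1
      · exact r3.symm
      · exact r3
    · exact h2 ε hε

theorem trivial_of_quot_collapsible (Z : HCpx K) (hc : Z.Conn) (h : Z.quot.Collapsible) (k : K) :
    k = 1 := by
  obtain ⟨κ, h1, h2⟩ := exists_kappa Z h
  obtain ⟨⟨v⟩, hconn⟩ := hc
  obtain ⟨w, hw⟩ := hconn v (k • v)
  have h3 := N4_walk Z κ w _ _ hw fun a _ => h2 a.1 (Set.mem_univ _)
  rw [h1 k v (Set.mem_univ _)] at h3
  exact mul_eq_right.1 h3.symm

end Pool.Agent.H60.CI.HCpx

end S_H50_CI_N4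

section S_H50_CI_N1

/-!
# ROW N1: maps out of the quotient complex
`Z : HCpx K`, `Z.quot` (file `N0.lean`), `Z.proj`.
1. `quot_hom`: a cellular map `φ : Z → X` which is an immersion and is constant on `K`-orbits of
   cells descends to `ψ : Z.quot → X` (`Quotient.liftOn'`/`Quotient.lift`), with `ψ (proj x) = φ x`, and `ψ` is an
   immersion: if `[ε]`, `[ε']` have the same source orbit and the same image then `k • src ε' = src ε`
   for some `k` (`N4_v` in `N4.lean`), so `k • ε'` and `ε` have the same source and the same image, so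
   they are equal and `[ε] = [ε']`. Same for targets and 2-cells.
2. `quot_conn`: project walks (`hom_walk_map` in `U4.lean` or `isWalk_map` in `Im.lean`; here it is easiest to
   prove it directly by induction on the word with `Z.proj`; `Quotient.exists_rep`/`Quotient.ind`).
3. `quot_finite`: a quotient with finitely many representatives is finite (`Set.Finite`/`Finite.of_surjective`
   from the subtype of the finset).
4. `quot_h1`: if every `K`-invariant cocycle of `Z` is the coboundary of a `K`-invariant function then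
   `Z.quot.H1Zero`: pull a cocycle `w` of the quotient back to `w ∘ Z.proj.e` (invariant; cocycle by
   `Cpx.integ_map` and `Z.proj.bd_e`), get `Ψ`, descend it (`Quotient.lift`).
-/

set_option autoImplicit false
set_option linter.unusedVariables false

namespace Pool.Agent.H60.CI.HCpx

variable {K : Type} [Group K]

theorem quot_hom (Z : HCpx K) {X : Cpx} (φ : Cpx.Hom Z.toCpx X) (hφ : φ.IsImm)
    (hv : ∀ (k : K) (x : Z.V), φ.v (k • x) = φ.v x) (he : ∀ (k : K) (x : Z.E), φ.e (k • x) = φ.e x)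
    (hf : ∀ (k : K) (x : Z.F), φ.f (k • x) = φ.f x) :
    ∃ ψ : Cpx.Hom Z.quot X, ψ.IsImm := by
  obtain ⟨ψ, hψe, hψf⟩ : ∃ ψ : Cpx.Hom Z.quot X,
      (∀ x, ψ.e (Z.proj.e x) = φ.e x) ∧ (∀ x, ψ.f (Z.proj.f x) = φ.f x) := by
    refine ⟨{
      v := fun x => Quotient.liftOn' x φ.v (by rintro a b ⟨k, rfl⟩; exact hv k b)
      e := fun x => Quotient.liftOn' x φ.e (by rintro a b ⟨k, rfl⟩; exact he k b)
      f := fun x => Quotient.liftOn' x φ.f (by rintro a b ⟨k, rfl⟩; exact hf k b)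
      src_v := ?_
      tgt_v := ?_
      base_v := ?_
      bd_e := ?_ }, ?_, ?_⟩
    · intro ε
      induction ε using Quotient.ind with
      | _ ε => exact φ.src_v ε
    · intro ε
      induction ε using Quotient.ind with
      | _ ε => exact φ.tgt_v ε
    · intro τ
      induction τ using Quotient.ind with
      | _ τ => exact φ.base_v τ
    · intro τ
      induction τ using Quotient.ind with
      | _ τ =>
        refine (φ.bd_e τ).trans ?_
        refine Eq.trans ?_ (List.map_map (l := Z.bd τ)).symm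
        rfl
    · intro x
      rfl
    · intro x
      rfl
  refine ⟨ψ, ?_, ?_, ?_⟩
  · intro ε ε' h1 h2
    obtain ⟨a, rfl⟩ : ∃ a : Z.E, Z.proj.e a = ε := Quotient.exists_rep ε
    obtain ⟨b, rfl⟩ : ∃ b : Z.E, Z.proj.e b = ε' := Quotient.exists_rep ε'
    rw [Z.proj.src_v, Z.proj.src_v] at h1
    rw [hψe, hψe] at h2
    obtain ⟨k, hk⟩ := (N4_v Z).1 h1
    have h3 : a = k • b := hφ.src_inj a (k • b) (by rw [Z.src_smul, hk]) (by rw [he, h2])
    rw [h3, N4_ke]
  · intro ε ε' h1 h2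
    obtain ⟨a, rfl⟩ : ∃ a : Z.E, Z.proj.e a = ε := Quotient.exists_rep ε
    obtain ⟨b, rfl⟩ : ∃ b : Z.E, Z.proj.e b = ε' := Quotient.exists_rep ε'
    rw [Z.proj.tgt_v, Z.proj.tgt_v] at h1
    rw [hψe, hψe] at h2
    obtain ⟨k, hk⟩ := (N4_v Z).1 h1
    have h3 : a = k • b := hφ.tgt_inj a (k • b) (by rw [Z.tgt_smul, hk]) (by rw [he, h2])
    rw [h3, N4_ke]
  · intro τ τ' h1 h2
    obtain ⟨a, rfl⟩ : ∃ a : Z.F, Z.proj.f a = τ := Quotient.exists_rep τ
    obtain ⟨b, rfl⟩ : ∃ b : Z.F, Z.proj.f b = τ' := Quotient.exists_rep τ'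
    rw [Z.proj.base_v, Z.proj.base_v] at h1
    rw [hψf, hψf] at h2
    obtain ⟨k, hk⟩ := (N4_v Z).1 h1
    have h3 : a = k • b := hφ.face_inj a (k • b) (by rw [Z.base_smul, hk]) (by rw [hf, h2])
    rw [h3]
    exact Quotient.sound ⟨k, rfl⟩

theorem N1_walk (Z : HCpx K) (w : List (Z.E × Bool)) (x y : Z.V) (h : IsWalk Z.src Z.tgt x w y) :
    IsWalk Z.quot.src Z.quot.tgt (Z.proj.v x) (w.map (Prod.map Z.proj.e id)) (Z.proj.v y) := by
  induction w generalizing x with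
  | nil => exact congrArg Z.proj.v h
  | cons a w ih =>
    obtain ⟨h1, h2⟩ := h
    obtain ⟨e, b⟩ := a
    refine ⟨?_, ?_⟩
    · rw [← h1]
      cases b <;> rfl
    · have h3 := ih _ h2
      cases b <;> exact h3

theorem quot_conn (Z : HCpx K) (h : Z.Conn) : Z.quot.Conn := by
  obtain ⟨⟨v⟩, hconn⟩ := h
  refine ⟨⟨Z.proj.v v⟩, fun x y => ?_⟩
  obtain ⟨a, rfl⟩ : ∃ a : Z.V, Z.proj.v a = x := Quotient.exists_rep x
  obtain ⟨b, rfl⟩ : ∃ b : Z.V, Z.proj.v b = y := Quotient.exists_rep y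
  obtain ⟨w, hw⟩ := hconn a b
  exact ⟨_, N1_walk Z w a b hw⟩

theorem quot_finite {T : Type} [MulAction K T] (S : Finset T) (h : ∀ x : T, ∃ k : K, ∃ s ∈ S, x = k • s) :
    Finite (MulAction.orbitRel.Quotient K T) := by
  refine Finite.of_surjective
    (fun s : {x // x ∈ S} => (Quotient.mk'' (s : T) : MulAction.orbitRel.Quotient K T)) ?_
  intro q
  obtain ⟨x, rfl⟩ : ∃ x : T, (Quotient.mk'' x : MulAction.orbitRel.Quotient K T) = q :=
    Quotient.exists_rep q
  obtain ⟨k, s, hs, rfl⟩ := h x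
  refine ⟨⟨s, hs⟩, ?_⟩
  symm
  exact Quotient.sound ⟨k, rfl⟩

theorem quot_h1 (Z : HCpx K)
    (h : ∀ w : Z.E → ℚ, (∀ τ, Cpx.integ w (Z.bd τ) = 0) → (∀ (k : K) (ε : Z.E), w (k • ε) = w ε) →
      ∃ ψ : Z.V → ℚ, (∀ (k : K) (x : Z.V), ψ (k • x) = ψ x) ∧
        ∀ ε, w ε = ψ (Z.tgt ε) - ψ (Z.src ε)) : Z.quot.H1Zero := by
  intro w hw
  obtain ⟨ψ, h1, h2⟩ := h (w ∘ Z.proj.e) (fun τ => by
    rw [← Cpx.integ_map, ← Z.proj.bd_e]
    exact hw _) (fun k ε => by
    change w (Z.proj.e (k • ε)) = w (Z.proj.e ε)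
    rw [N4_ke])
  refine ⟨fun x => Quotient.liftOn' x ψ (by rintro a b ⟨k, rfl⟩; exact h1 k b), ?_⟩
  intro ε
  induction ε using Quotient.ind with
  | _ ε => exact h2 ε

end Pool.Agent.H60.CI.HCpx

end S_H50_CI_N1

section S_H50_CI_N5

/-!
# ROW N5: finitely many relators detecting that there is no homomorphism to `ℚ`
`K` generated by `s j`, every homomorphism `K →* Multiplicative ℚ` trivial. Definitions `ev`, `Lam` in
`TA.lean`.

`lam_const`: for a constant cochain `Lam s (fun _ j => lam j) k ρ` does not depend on `k`, equals the value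
`toAdd (FreeGroup.lift (fun j => Multiplicative.ofAdd (lam j)) (FreeGroup.mk ρ))`. Induction on `ρ`.
`ev_eq`: `ev s ρ = FreeGroup.lift s (FreeGroup.mk ρ)` (`FreeGroup.lift_mk`; `cond`/`if`).

Main statement. For a list `R` of relators let `A R` be the submodule of `Fin n → ℚ` of all `lam` with
`Lam .. ρ = 0` for all `ρ ∈ R` (linear in `lam`). Choose a list `R` of relators (`ev s ρ = 1`) with
`finrank (A R)` minimal. Claim `A R = ⊥`. Let `lam ∈ A R`. For every relator `ρ`: `A (ρ :: R) ≤ A R` and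
by minimality `finrank (A R) ≤ finrank (A (ρ :: R))`, so equality
(`Submodule.eq_of_le_of_finrank_le`), so `Lam lam ρ = 0`. So the homomorphism
`FreeGroup.lift (fun j => ofAdd (lam j)) : FreeGroup (Fin n) →* Multiplicative ℚ` kills the kernel of
`FreeGroup.lift s : FreeGroup (Fin n) →* K` (every element is `FreeGroup.mk ρ`), which is surjective
(its range contains the `s j`, `Subgroup.closure (range s) = ⊤`). So it factors
(`MonoidHom.liftOfSurjective` or `QuotientGroup.lift` with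
`QuotientGroup.quotientKerEquivOfSurjective`) over `K`, hence it is trivial and `lam j = 0`.
-/

noncomputable section NC_H50_CI_N51

set_option autoImplicit false
set_option linter.unusedVariables false

namespace Pool.Agent.H60.CI

theorem lam_const {K : Type} [Group K] {n : ℕ} (s : Fin n → K) (lam : Fin n → ℚ) (k : K)
    (ρ : List (Fin n × Bool)) : Lam s (fun _ j => lam j) k ρ =
      Multiplicative.toAdd (FreeGroup.lift (fun j => Multiplicative.ofAdd (lam j)) (FreeGroup.mk ρ)) := by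
  induction ρ generalizing k with
  | nil => simp [Lam, FreeGroup.lift_mk]
  | cons a ρ ih =>
    obtain ⟨j, b⟩ := a
    have h1 : (FreeGroup.mk ((j, b) :: ρ) : FreeGroup (Fin n)) =
        FreeGroup.mk [(j, b)] * FreeGroup.mk ρ := by
      rw [FreeGroup.mul_mk]; rfl
    rw [h1, map_mul, toAdd_mul]
    cases b with
    | true =>
      show lam j + Lam s (fun _ j => lam j) (k * s j) ρ = _
      rw [ih]
      simp [FreeGroup.lift_mk]
    | false =>
      show - lam j + Lam s (fun _ j => lam j) (k * (s j)⁻¹) ρ = _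
      rw [ih]
      simp [FreeGroup.lift_mk]

theorem ev_eq {K : Type} [Group K] {n : ℕ} (s : Fin n → K) (ρ : List (Fin n × Bool)) :
    ev s ρ = FreeGroup.lift s (FreeGroup.mk ρ) := by
  rw [FreeGroup.lift_mk, ev]
  congr 1
  refine List.map_congr_left fun a _ => ?_
  obtain ⟨j, b⟩ := a
  cases b <;> rfl

theorem N5_add {K : Type} [Group K] {n : ℕ} (s : Fin n → K) (lam lam' : Fin n → ℚ)
    (ρ : List (Fin n × Bool)) (k : K) : Lam s (fun _ j => (lam + lam') j) k ρ =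
      Lam s (fun _ j => lam j) k ρ + Lam s (fun _ j => lam' j) k ρ := by
  induction ρ generalizing k with
  | nil => simp [Lam]
  | cons a ρ ih =>
    obtain ⟨j, b⟩ := a
    cases b with
    | true =>
      show (lam + lam') j + Lam s (fun _ j => (lam + lam') j) (k * s j) ρ =
        (lam j + Lam s (fun _ j => lam j) (k * s j) ρ) +
          (lam' j + Lam s (fun _ j => lam' j) (k * s j) ρ)
      rw [ih, Pi.add_apply]
      ring
    | false =>
      show -(lam + lam') j + Lam s (fun _ j => (lam + lam') j) (k * (s j)⁻¹) ρ =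
        (-lam j + Lam s (fun _ j => lam j) (k * (s j)⁻¹) ρ) +
          (-lam' j + Lam s (fun _ j => lam' j) (k * (s j)⁻¹) ρ)
      rw [ih, Pi.add_apply]
      ring

theorem N5_smul {K : Type} [Group K] {n : ℕ} (s : Fin n → K) (c : ℚ) (lam : Fin n → ℚ)
    (ρ : List (Fin n × Bool)) (k : K) : Lam s (fun _ j => (c • lam) j) k ρ =
      c * Lam s (fun _ j => lam j) k ρ := by
  induction ρ generalizing k with
  | nil => simp [Lam]
  | cons a ρ ih =>
    obtain ⟨j, b⟩ := a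
    cases b with
    | true =>
      show (c • lam) j + Lam s (fun _ j => (c • lam) j) (k * s j) ρ =
        c * (lam j + Lam s (fun _ j => lam j) (k * s j) ρ)
      rw [ih, Pi.smul_apply, smul_eq_mul]
      ring
    | false =>
      show -(c • lam) j + Lam s (fun _ j => (c • lam) j) (k * (s j)⁻¹) ρ =
        c * (-lam j + Lam s (fun _ j => lam j) (k * (s j)⁻¹) ρ)
      rw [ih, Pi.smul_apply, smul_eq_mul]
      ring

/-- the constant cochains vanishing on the relators of `R` -/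
def N5_A {K : Type} [Group K] {n : ℕ} (s : Fin n → K) (R : List (List (Fin n × Bool))) :
    Submodule ℚ (Fin n → ℚ) where
  carrier := {lam | ∀ ρ ∈ R, Lam s (fun _ j => lam j) 1 ρ = 0}
  add_mem' := by
    intro x y hx hy ρ hρ
    rw [N5_add, hx ρ hρ, hy ρ hρ, add_zero]
  zero_mem' := by
    intro ρ hρ
    have h := N5_smul s 0 0 ρ 1
    rw [zero_smul, zero_mul] at h
    exact h
  smul_mem' := by
    intro c x hx ρ hρ
    rw [N5_smul, hx ρ hρ, mul_zero]

theorem N5_mem {K : Type} [Group K] {n : ℕ} (s : Fin n → K) (R : List (List (Fin n × Bool)))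
    (lam : Fin n → ℚ) : lam ∈ N5_A s R ↔ ∀ ρ ∈ R, Lam s (fun _ j => lam j) 1 ρ = 0 := Iff.rfl

theorem N5_surj {K : Type} [Group K] {n : ℕ} (s : Fin n → K)
    (hs : Subgroup.closure (Set.range s) = ⊤) : Function.Surjective (FreeGroup.lift s) := by
  rw [← MonoidHom.range_eq_top, eq_top_iff, ← hs, Subgroup.closure_le]
  rintro _ ⟨j, rfl⟩
  exact ⟨FreeGroup.of j, by simp⟩

theorem exists_relators {K : Type} [Group K] {n : ℕ} (s : Fin n → K)
    (hs : Subgroup.closure (Set.range s) = ⊤) (h0 : ∀ f : K →* Multiplicative ℚ, f = 1) :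
    ∃ R : List (List (Fin n × Bool)), (∀ ρ ∈ R, ev s ρ = 1) ∧
      ∀ lam : Fin n → ℚ, (∀ ρ ∈ R, ∀ k, Lam s (fun _ j => lam j) k ρ = 0) → lam = 0 := by
  classical
  have hex : ∃ m : ℕ, ∃ R : List (List (Fin n × Bool)), (∀ ρ ∈ R, ev s ρ = 1) ∧
      Module.finrank ℚ (N5_A s R) = m := ⟨_, [], by simp, rfl⟩
  obtain ⟨R, hR, hRm⟩ := Nat.find_spec hex
  refine ⟨R, hR, fun lam hlam => ?_⟩
  have hlamA : lam ∈ N5_A s R := fun ρ hρ => hlam ρ hρ 1
  have hall : ∀ ρ : List (Fin n × Bool), ev s ρ = 1 → Lam s (fun _ j => lam j) 1 ρ = 0 := by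
    intro ρ hρ
    have hle : N5_A s (ρ :: R) ≤ N5_A s R :=
      fun x hx ρ' hρ' => hx ρ' (List.mem_cons_of_mem _ hρ')
    have hfr : Module.finrank ℚ (N5_A s R) ≤ Module.finrank ℚ (N5_A s (ρ :: R)) := by
      rw [hRm]
      refine Nat.find_min' hex ⟨ρ :: R, ?_, rfl⟩
      intro ρ' hρ'
      rcases List.mem_cons.mp hρ' with rfl | h
      · exact hρ
      · exact hR ρ' h
    have heq := Submodule.eq_of_le_of_finrank_le hle hfr
    rw [← heq] at hlamA
    exact hlamA ρ List.mem_cons_self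
  have hker : (FreeGroup.lift s).ker ≤
      (FreeGroup.lift (fun j => Multiplicative.ofAdd (lam j))).ker := by
    intro x hx
    have hx' : FreeGroup.mk x.toWord = x := FreeGroup.mk_toWord
    rw [MonoidHom.mem_ker] at hx ⊢
    have h1 := hall x.toWord (by rw [ev_eq, hx', hx])
    rw [lam_const, hx'] at h1
    exact Multiplicative.toAdd.injective h1
  have hsurj := N5_surj s hs
  obtain ⟨g, hg⟩ : ∃ g : K →* Multiplicative ℚ, ∀ x, g (FreeGroup.lift s x) =
      FreeGroup.lift (fun j => Multiplicative.ofAdd (lam j)) x :=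
    ⟨(FreeGroup.lift s).liftOfRightInverse _ (Function.rightInverse_surjInv hsurj) ⟨_, hker⟩,
      fun x => MonoidHom.liftOfRightInverse_comp_apply _ _ _ ⟨_, hker⟩ x⟩
  funext j
  have h1 := hg (FreeGroup.of j)
  rw [h0 g, MonoidHom.one_apply, FreeGroup.lift_apply_of] at h1
  have h2 := congrArg Multiplicative.toAdd h1
  rw [toAdd_one, toAdd_ofAdd] at h2
  exact h2.symm

end Pool.Agent.H60.CI

end NC_H50_CI_N51

end S_H50_CI_N5

section S_H50_CI_N8

/-!
# ROW N8: locally indicable groups have unique products, so their group rings are domains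
`LocInd G`: every finitely generated subgroup `K ≠ ⊥` has a nontrivial homomorphism to `ℚ`.

`uniqueProds`: `UniqueProds G` (Mathlib: `UniqueProds.uniqueMul_of_nonempty : A.Nonempty → B.Nonempty →
∃ a0 ∈ A, ∃ b0 ∈ B, UniqueMul A B a0 b0`). Strong induction on `A.card + B.card`. If
`A.card = 1` and `B.card = 1` it is clear (`uniqueMul_of_subsingleton`-like; or use
`Finset.card_eq_one`). Otherwise fix `a1 ∈ A`, `b1 ∈ B`, put `A1 = a1⁻¹ • A`, `B1 = B • b1⁻¹` (images under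
`a ↦ a1⁻¹ a`, `b ↦ b b1⁻¹`), both contain `1` and have the same cardinalities, and a unique product for `A1`,
`B1` gives one for `A`, `B` (`a b = a' b'` iff `(a1⁻¹ a) (b b1⁻¹) = (a1⁻¹ a') (b' b1⁻¹)`). Let
`K = Subgroup.closure (A1 ∪ B1)`, finitely generated and `≠ ⊥` (one of `A1`, `B1` has an element `≠ 1`). Take
`f : K → ℚ` nontrivial. Extend to a function `F : G → ℚ` by `0` outside `K`. `F` is not constant on `A1`
or not constant on `B1` (otherwise `F = F 1 = 0` on `A1 ∪ B1`, so `f = 1` on the generators and `f = 1`,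
`Subgroup.closure_induction` or `MonoidHom.eq_of_eqOn_dense`-type lemma). Let `A2 ⊆ A1`, `B2 ⊆ B1` be the
subsets where `F` is maximal (`Finset.exists_max_image`, `Finset.filter`): non-empty, and
`A2.card + B2.card < A1.card + B1.card`. By induction `A2`, `B2` have a unique product `a0 b0`. It is
unique for `A1`, `B1`: if `a b = a0 b0` with `a ∈ A1`, `b ∈ B1` then `F a + F b = F (a b) = F a0 + F b0`
(`f` is a homomorphism on `K`), with `F a ≤ F a0`, `F b ≤ F b0`, so equality, `a ∈ A2`, `b ∈ B2`, so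
`a = a0`, `b = b0`.

`noZeroDivisors_subgroup`: for `K ≤ G`: `UniqueProds K` (`UniqueProds.of_injective_mulHom` or prove directly
by mapping finsets into `G`; Mathlib may have `UniqueProds.of_mulHom`), then Mathlib's instance
`MonoidAlgebra` over `ℚ` with `UniqueProds` has `NoZeroDivisors`.
-/

set_option autoImplicit false

namespace Pool.Agent.H50.CI

/-- locally indicable -/
def LocInd (G : Type) [Group G] : Prop :=
  ∀ K : Subgroup G, K.FG → K ≠ ⊥ → ∃ f : K →* Multiplicative ℚ, f ≠ 1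

theorem N8_aux {G : Type} [Group G] (h : LocInd G) : ∀ (n : ℕ) (A B : Finset G),
    A.card + B.card ≤ n → A.Nonempty → B.Nonempty → ∃ a ∈ A, ∃ b ∈ B, UniqueMul A B a b := by
  classical
  intro n
  induction n with
  | zero =>
    intro A B hc hA hB
    have h1 := hA.card_pos
    omega
  | succ n ih =>
    intro A B hc hA hB
    by_cases h1 : A.card ≤ 1 ∧ B.card ≤ 1
    · exact UniqueMul.of_card_le_one hA hB h1.1 h1.2
    obtain ⟨a1, ha1⟩ := hA
    obtain ⟨b1, hb1⟩ := hB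
    obtain ⟨S, hS⟩ : ∃ S : Finset G, S = A.image (fun a => a1⁻¹ * a) ∪ B.image (fun b => b * b1⁻¹) :=
      ⟨_, rfl⟩
    have hSA : ∀ a ∈ A, a1⁻¹ * a ∈ S := by
      intro a ha
      rw [hS]
      exact Finset.mem_union_left _ (Finset.mem_image_of_mem _ ha)
    have hSB : ∀ b ∈ B, b * b1⁻¹ ∈ S := by
      intro b hb
      rw [hS]
      exact Finset.mem_union_right _ (Finset.mem_image_of_mem _ hb)
    have hSS : ∀ s ∈ S, (∃ a ∈ A, a1⁻¹ * a = s) ∨ ∃ b ∈ B, b * b1⁻¹ = s := by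
      intro s hs
      rw [hS] at hs
      rcases Finset.mem_union.1 hs with hs | hs
      · exact Or.inl (Finset.mem_image.1 hs)
      · exact Or.inr (Finset.mem_image.1 hs)
    have hKA : ∀ a ∈ A, a1⁻¹ * a ∈ Subgroup.closure (S : Set G) := fun a ha =>
      Subgroup.subset_closure (hSA a ha)
    have hKB : ∀ b ∈ B, b * b1⁻¹ ∈ Subgroup.closure (S : Set G) := fun b hb =>
      Subgroup.subset_closure (hSB b hb)
    have hne : Subgroup.closure (S : Set G) ≠ ⊥ := by
      intro hbot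
      apply h1
      constructor
      · refine Finset.card_le_one_iff.2 ?_
        have h2 : ∀ a ∈ A, a = a1 := by
          intro a ha
          have h3 := hKA a ha
          rw [hbot, Subgroup.mem_bot, inv_mul_eq_one] at h3
          exact h3.symm
        intro a b ha hb
        rw [h2 a ha, h2 b hb]
      · refine Finset.card_le_one_iff.2 ?_
        have h2 : ∀ b ∈ B, b = b1 := by
          intro b hb
          have h3 := hKB b hb
          rw [hbot, Subgroup.mem_bot, mul_inv_eq_one] at h3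
          exact h3
        intro a b ha hb
        rw [h2 a ha, h2 b hb]
    obtain ⟨f, hf⟩ := h (Subgroup.closure (S : Set G)) ⟨S, rfl⟩ hne
    obtain ⟨F, hF⟩ : ∃ F : G → ℚ, F = fun g => if hg : g ∈ Subgroup.closure (S : Set G) then
        Multiplicative.toAdd (f ⟨g, hg⟩) else 0 := ⟨_, rfl⟩
    have hFg : ∀ g (hg : g ∈ Subgroup.closure (S : Set G)),
        F g = Multiplicative.toAdd (f ⟨g, hg⟩) := by
      intro g hg
      rw [hF]
      exact dif_pos hg
    have hFm : ∀ g ∈ Subgroup.closure (S : Set G), ∀ g' ∈ Subgroup.closure (S : Set G),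
        F (g * g') = F g + F g' := by
      intro g hg g' hg'
      rw [hFg _ hg, hFg _ hg', hFg _ (mul_mem hg hg'), ← toAdd_mul, ← map_mul]
      rfl
    have hF1 : F 1 = 0 := by
      have h2 := hFm 1 (one_mem _) 1 (one_mem _)
      rw [mul_one] at h2
      linarith
    have hprod : ∀ a ∈ A, ∀ b ∈ B, ∀ a' ∈ A, ∀ b' ∈ B, a * b = a' * b' →
        F (a1⁻¹ * a) + F (b * b1⁻¹) = F (a1⁻¹ * a') + F (b' * b1⁻¹) := by
      intro a ha b hb a' ha' b' hb' he
      rw [← hFm _ (hKA a ha) _ (hKB b hb), ← hFm _ (hKA a' ha') _ (hKB b' hb')]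
      congr 1
      calc a1⁻¹ * a * (b * b1⁻¹) = a1⁻¹ * (a * b) * b1⁻¹ := by group
        _ = a1⁻¹ * (a' * b') * b1⁻¹ := by rw [he]
        _ = a1⁻¹ * a' * (b' * b1⁻¹) := by group
    obtain ⟨aM, haM, hMA⟩ := A.exists_max_image (fun a => F (a1⁻¹ * a)) ⟨a1, ha1⟩
    obtain ⟨bM, hbM, hMB⟩ := B.exists_max_image (fun b => F (b * b1⁻¹)) ⟨b1, hb1⟩
    obtain ⟨A2, hA2⟩ : ∃ A2, A2 = A.filter (fun a => F (a1⁻¹ * a) = F (a1⁻¹ * aM)) := ⟨_, rfl⟩
    obtain ⟨B2, hB2⟩ : ∃ B2, B2 = B.filter (fun b => F (b * b1⁻¹) = F (bM * b1⁻¹)) := ⟨_, rfl⟩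
    have hA2m : ∀ a, a ∈ A2 ↔ a ∈ A ∧ F (a1⁻¹ * a) = F (a1⁻¹ * aM) := by
      intro a
      rw [hA2, Finset.mem_filter]
    have hB2m : ∀ b, b ∈ B2 ↔ b ∈ B ∧ F (b * b1⁻¹) = F (bM * b1⁻¹) := by
      intro b
      rw [hB2, Finset.mem_filter]
    have hA2s : A2 ⊆ A := by rw [hA2]; exact Finset.filter_subset _ _
    have hB2s : B2 ⊆ B := by rw [hB2]; exact Finset.filter_subset _ _
    have hlt : A2.card + B2.card < A.card + B.card := by
      by_contra hge
      have h2 := Finset.card_le_card hA2s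
      have h3 := Finset.card_le_card hB2s
      have h4 : A2 = A := Finset.eq_of_subset_of_card_le hA2s (by omega)
      have h5 : B2 = B := Finset.eq_of_subset_of_card_le hB2s (by omega)
      apply hf
      refine MonoidHom.eq_of_eqOn_dense (Subgroup.closure_closure_coe_preimage (k := (S : Set G))) ?_
      rintro ⟨s, hs⟩ hsS
      have hsS' : s ∈ S := hsS
      have h6 : F s = 0 := by
        rcases hSS s hsS' with ⟨a, ha, rfl⟩ | ⟨b, hb, rfl⟩
        · rw [((hA2m a).1 (by rw [h4]; exact ha)).2, ← ((hA2m a1).1 (by rw [h4]; exact ha1)).2,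
            inv_mul_cancel, hF1]
        · rw [((hB2m b).1 (by rw [h5]; exact hb)).2, ← ((hB2m b1).1 (by rw [h5]; exact hb1)).2,
            mul_inv_cancel, hF1]
      rw [hFg s hs] at h6
      exact Multiplicative.toAdd.injective h6
    obtain ⟨a0, ha0, b0, hb0, hu⟩ := ih A2 B2 (by omega) ⟨aM, (hA2m aM).2 ⟨haM, rfl⟩⟩
      ⟨bM, (hB2m bM).2 ⟨hbM, rfl⟩⟩
    have ha0' := (hA2m a0).1 ha0
    have hb0' := (hB2m b0).1 hb0
    refine ⟨a0, ha0'.1, b0, hb0'.1, ?_⟩
    intro a b ha hb he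
    have h2 := hprod a ha b hb a0 ha0'.1 b0 hb0'.1 he
    have h3 := hMA a ha
    have h4 := hMB b hb
    have h5 := ha0'.2
    have h6 := hb0'.2
    exact hu ((hA2m a).2 ⟨ha, by linarith⟩) ((hB2m b).2 ⟨hb, by linarith⟩) he

theorem uniqueProds {G : Type} [Group G] (h : LocInd G) : UniqueProds G := by
  exact ⟨fun {A B} hA hB => N8_aux h _ A B le_rfl hA hB⟩

theorem noZeroDivisors_subgroup {G : Type} [Group G] (h : LocInd G) (K : Subgroup G) :
    NoZeroDivisors (MonoidAlgebra ℚ K) := by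
  have h1 : UniqueProds K :=
    UniqueProds.of_injective_mulHom (K.subtype : K →ₙ* G) K.subtype_injective (uniqueProds h)
  infer_instance

end Pool.Agent.H50.CI

end S_H50_CI_N8

section S_H50_CI_N7

/-!
# ROW N7: collapsing nonpositive immersions: the fundamental group is locally indicable
`LocInd`: file `N8.lean`. Let `K ≤ Pi1 X x0` be finitely generated, without nontrivial homomorphism to
`Multiplicative ℚ`. Claim `K = ⊥`.

`exists_gens`: generators `s : Fin n → K` with `Subgroup.closure (Set.range s) = ⊤` (in `Subgroup K`):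
`K.FG` gives `Group.FG K` (`Group.fg_iff_subgroup_fg`), a finite set, enumerate it.
`B := (XtH X x0).restr K` (`U1.lean`), `B.Conn` and `B.LolliSC` are `Xt_conn`, `Xt_sc` (`U4.lean`, same
underlying complex). `v : B.V`, `ws j` a walk from `v` to `s j • v` (`Xt_conn`). `R` from `exists_relators`
(`N5.lean`). For `ρ ∈ R` the word `gpath B s ws 1 ρ` is a walk from `1 • v` to `(1 * ev s ρ) • v = v`
(`gpath_walk`), so `LolliSC` gives `L ρ` with `FreeGroup.mk (gpath B s ws 1 ρ) = ((L ρ).map B.lolli).prod` and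
`t.1` a walk from `v` to `base t.2.1` for `t ∈ L ρ`. `M := {(t.1, t.2.1) | ρ ∈ R, t ∈ L ρ}` (finite),
`P := ∅`, `D := TD.of B v s ws _ ∅ _ M _` (`TC.lean`), `D.T` finite (`of_T_finite`).
`Z := D.Z.toHCpx` (`HIm.lean`; underlying complex `D.Z.toIm.toCpx`, `Z.E = D.Z.Edg`, `Z.bd = bdw`).
`Z.Conn` by `conn`. `Z.quot` is finite (`quot_finite` with `finV`, `finE`, `finM`), connected
(`quot_conn`), and `H1Zero` by `quot_h1`: let `w` be a `K`-invariant cocycle. `psi0 w (wsv k j)` does not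
depend on `k` (`psi0_smul`, `wsv k j = tr k (wsv 1 j)` up to `mul_one`); call it `lam j`. By `lam_zero`
`Lam D.s (fun _ j => lam j) k ρ = 0` for all `k`, `ρ ∈ R`, so `lam = 0`. `exact_of` with `c = 0` gives `Ψ` with
`Ψ (cls x) = 0 + psi0 w x`, which is invariant by `psi0_smul` (`smul_cls`, `ind_cls`).
So `1 ≤ Z.quot.chi` (`one_le_chi`). The immersion `Cpx.Hom.comp (cov X x0) D.Z.toIm.hom : Z → X` (`cov_imm`,
`hom_isImm`, `IsImm.comp`) is constant on `K`-orbits (`HIm.p_smul`, `epr_smul`, `mpr_smul`, and the covering map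
forgets the class: `UV.smul_endp` is `rfl`), so `quot_hom` gives an immersion `Z.quot → X`. CNPI gives
`Z.quot.Collapsible`, and `trivial_of_quot_collapsible` (`N4.lean`) gives `k = 1` for all `k : K`.
-/

noncomputable section NC_H50_CI_N71

set_option autoImplicit false
set_option linter.unusedVariables false

namespace Pool.Agent.H50.CI

open Pool.Agent.H60.CI

theorem exists_gens {G : Type} [Group G] (K : Subgroup G) (hK : K.FG) :
    ∃ (n : ℕ) (s : Fin n → K), Subgroup.closure (Set.range s) = ⊤ := by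
  have h1 : Group.FG K := (Group.fg_iff_subgroup_fg K).2 hK
  obtain ⟨S, hS⟩ := h1.out
  refine ⟨S.card, fun i => (S.equivFin.symm i : K), ?_⟩
  rw [← hS]
  congr 1
  ext x
  constructor
  · rintro ⟨i, rfl⟩
    exact (S.equivFin.symm i).2
  · intro hx
    refine ⟨S.equivFin ⟨x, hx⟩, ?_⟩
    show (S.equivFin.symm (S.equivFin ⟨x, hx⟩) : K) = x
    rw [Equiv.symm_apply_apply]

theorem N7_main {K : Type} [Group K] {B : HCpx K} (D : TD B) {X : Cpx} (hX : X.CNPI)
    (φ : Cpx.Hom B.toCpx X) (hφ : φ.IsImm) (hv : ∀ (k : K) (x : B.V), φ.v (k • x) = φ.v x)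
    (he : ∀ (k : K) (x : B.E), φ.e (k • x) = φ.e x) (hf : ∀ (k : K) (x : B.F), φ.f (k • x) = φ.f x)
    (hs : Subgroup.closure (Set.range D.s) = ⊤) (hT : D.T.Finite) (hM : D.M.Finite)
    (R : List (List (Fin D.n × Bool)))
    (hR : ∀ lam : Fin D.n → ℚ, (∀ ρ ∈ R, ∀ k, Lam D.s (fun _ j => lam j) k ρ = 0) → lam = 0)
    (hL : ∀ ρ ∈ R, ∃ L : List (List (B.E × Bool) × B.F × Bool), (∀ t ∈ L, (t.1, t.2.1) ∈ D.M) ∧
      FreeGroup.mk (gpath B D.s D.ws 1 ρ) = (L.map B.lolli).prod) (k : K) : k = 1 := by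
  have hc : D.Z.toHCpx.Conn := TD.conn D hs
  have fV : Finite D.Z.toHCpx.quot.V := by
    obtain ⟨S, h⟩ := TD.finV D hT
    exact HCpx.quot_finite S h
  have fE : Finite D.Z.toHCpx.quot.E := by
    obtain ⟨S, h⟩ := TD.finE D hT
    exact HCpx.quot_finite S h
  have fF : Finite D.Z.toHCpx.quot.F := by
    obtain ⟨S, h⟩ := TD.finM D hM
    exact HCpx.quot_finite S h
  have h1 : D.Z.toHCpx.quot.H1Zero := by
    refine HCpx.quot_h1 D.Z.toHCpx fun w hw hinv => ?_
    have hwsv : ∀ (k : K) (j : Fin D.n), TD.psi0 w (D.wsv k j) = TD.psi0 w (D.wsv 1 j) := by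
      intro k j
      have h2 : TD.tr k (D.wsv 1 j) = D.wsv k j := Prod.ext (mul_one k) rfl
      rw [← h2]
      exact TD.psi0_smul w hinv k (D.wsv 1 j)
    have hfun : (fun (k : K) (j : Fin D.n) => TD.psi0 w (D.wsv k j)) =
        fun _ j => TD.psi0 w (D.wsv 1 j) := by
      funext k j
      exact hwsv k j
    have hlam : (fun j => TD.psi0 w (D.wsv 1 j)) = 0 := by
      apply hR
      intro ρ hρ k
      obtain ⟨L, g1, g2⟩ := hL ρ hρ
      have g3 := TD.lam_zero w hw k ρ L g1 g2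
      rw [hfun] at g3
      exact g3
    obtain ⟨Ψ, p1, p2⟩ := TD.exact_of w hw (fun _ => 0) (fun k j => by
      have g4 := congrFun hlam j
      have g5 : TD.psi0 w (D.wsv k j) = 0 := (hwsv k j).trans g4
      rw [g5, add_zero])
    refine ⟨Ψ, fun k => ?_, p2⟩
    refine TD.ind_cls (D := D) (P := fun x => Ψ (k • x) = Ψ x) fun x => ?_
    show Ψ (D.cls (TD.tr k x)) = Ψ (D.cls x)
    rw [p1, p1, TD.psi0_smul w hinv k x]
  have hqc := HCpx.quot_conn D.Z.toHCpx hc
  have hchi := Cpx.one_le_chi D.Z.toHCpx.quot hqc h1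
  have hΦ : (Cpx.Hom.comp φ D.Z.toIm.hom).IsImm := hφ.comp D.Z.toIm.hom_isImm
  obtain ⟨ψ, hψ⟩ := HCpx.quot_hom D.Z.toHCpx (Cpx.Hom.comp φ D.Z.toIm.hom) hΦ
    (fun k x => (congrArg φ.v (D.Z.p_smul k x)).trans (hv k _))
    (fun k x => he k (D.Z.epr x)) (fun k x => hf k (D.Z.mpr x))
  rcases hX D.Z.toHCpx.quot fV fE fF hqc ψ hψ with h2 | h2
  · omega
  · exact HCpx.trivial_of_quot_collapsible D.Z.toHCpx hc h2 k

theorem locInd {X : Cpx} (hX : X.CNPI) (x0 : X.V) : LocInd (Pi1 X x0) := by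
  intro K hK hne
  by_contra hcon
  push Not at hcon
  apply hne
  obtain ⟨n, s, hs⟩ := exists_gens K hK
  obtain ⟨B, hB⟩ : ∃ B : HCpx K, B = (XtH X x0).restr K := ⟨_, rfl⟩
  have hBc : B.Conn := by
    rw [hB]
    exact Xt_conn
  have hBs : B.LolliSC := by
    rw [hB]
    exact Xt_sc
  obtain ⟨φ, hφ, hv, he, hf⟩ : ∃ φ : Cpx.Hom B.toCpx X, φ.IsImm ∧
      (∀ (k : K) (x : B.V), φ.v (k • x) = φ.v x) ∧ (∀ (k : K) (x : B.E), φ.e (k • x) = φ.e x) ∧
      ∀ (k : K) (x : B.F), φ.f (k • x) = φ.f x := by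
    rw [hB]
    exact ⟨cov X x0, cov_imm, fun k x => rfl, fun k x => rfl, fun k x => rfl⟩
  obtain ⟨⟨v⟩, hconn⟩ := hBc
  have hws' : ∀ j, ∃ w, B.Walk v w (s j • v) := fun j => hconn v (s j • v)
  choose ws hws using hws'
  obtain ⟨R, hR1, hR2⟩ := exists_relators s hs hcon
  have hL : ∀ ρ : List (Fin n × Bool), ∃ L : List (List (B.E × Bool) × B.F × Bool), ρ ∈ R →
      (∀ t ∈ L, B.Walk v t.1 (B.base t.2.1)) ∧
      FreeGroup.mk (gpath B s ws 1 ρ) = (L.map B.lolli).prod := by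
    intro ρ
    by_cases hρ : ρ ∈ R
    · have h1 := gpath_walk B s ws v hws 1 ρ
      rw [hR1 ρ hρ, mul_one, one_smul] at h1
      obtain ⟨L, h2, h3⟩ := hBs v _ h1
      exact ⟨L, fun _ => ⟨h2, h3⟩⟩
    · exact ⟨[], fun h => absurd h hρ⟩
  choose L hL using hL
  obtain ⟨Ml, hMl⟩ : ∃ Ml : List (List (B.E × Bool) × B.F),
      Ml = R.flatMap (fun ρ => (L ρ).map fun t => (t.1, t.2.1)) := ⟨_, rfl⟩
  have hMm : ∀ t, t ∈ Ml ↔ ∃ ρ ∈ R, ∃ t' ∈ L ρ, (t'.1, t'.2.1) = t := by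
    intro t
    rw [hMl, List.mem_flatMap]
    simp only [List.mem_map]
  have hMw : ∀ t ∈ {t | t ∈ Ml}, B.Walk v t.1 (B.base t.2) := by
    intro t ht
    obtain ⟨ρ, hρ, t', ht', rfl⟩ := (hMm t).1 ht
    exact (hL ρ hρ).1 t' ht'
  have hMf : {t | t ∈ Ml}.Finite := List.finite_toSet Ml
  have hTf := TD.of_T_finite B v s ws hws ∅ (fun p hp => absurd hp (Set.notMem_empty p))
    {t | t ∈ Ml} hMw Set.finite_empty hMf
  rw [Subgroup.eq_bot_iff_forall]
  intro g hg
  have key := N7_main (TD.of B v s ws hws ∅ (fun p hp => absurd hp (Set.notMem_empty p))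
    {t | t ∈ Ml} hMw) hX φ hφ hv he hf hs hTf hMf R hR2
    (fun ρ hρ => ⟨L ρ, fun t ht => (hMm _).2 ⟨ρ, hρ, t, ht, rfl⟩, (hL ρ hρ).2⟩) ⟨g, hg⟩
  exact congrArg Subtype.val key

end Pool.Agent.H50.CI

end NC_H50_CI_N71

end S_H50_CI_N7

section S_H62_CI_NSC

/-!
# Row NSC (130 lines): a connected free cover of a simply connected complex is trivial

`Z : HCpx K`, `Z.quot` the quotient complex, `Z.proj` the projection (`N0.lean`), `N4_v, N4_e, N4_kv, N4_ke, N4_free` in `N4.lean`.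

PROOF. (a) `nsc_imm`: `Z.proj` is an immersion. If `src ε = src ε'` and `proj ε = proj ε'` then `ε = k • ε'`, so `k • src ε' = src ε = src ε'`, `k = 1` (`Z.free`).
Same for targets and for base points of 2-cells.
(b) `nsc_lift`: if `Z.quot.Walk (Z.proj.v v) u y` then there are `w, z` with `Z.Walk v w z`, `w.map (Prod.map Z.proj.e id) = u`, `Z.proj.v z = y`. Induction on `u`,
generalizing `v`: for the letter `(e, b)` choose a representative `ε0` of `e`; `oS (ε0, b)` and `v` have the same class, so `k • oS (ε0, b) = v`; use the letter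
`(k • ε0, b)` and continue at `k • oT (ε0, b)`.
(c) `nsc_lolli`: for `v` and a list `L` of lollipops of `Z.quot` with `Z.quot.Walk (Z.proj.v v) t.1 (Z.quot.base t.2.1)` for `t ∈ L` there is `P` with `Z.Walk v P v` and
`FreeGroup.mk (P.map (Prod.map Z.proj.e id)) = (L.map Z.quot.lolli).prod`. Induction on `L`. For one lollipop `(u, σ, b)`: lift `u` to a walk `p` from `v` to `z` by (b),
`Z.proj.v z = Z.quot.base σ`; a representative `τ` of `σ` can be translated so that `Z.base τ = z`; take `p ++ Z.bd τ ++ invRev p` (or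
`p ++ invRev (Z.bd τ) ++ invRev p` if `b = false`). (`U4_piece` in `U4.lean` is exactly this construction for an arbitrary cellular map.)
(d) Let `v : Z.V`, `w` a walk of `Z` from `v` to `k • v` (`hc`). Its image is a closed walk at `Z.proj.v v` (`hom_walk_map`, `N4_kv`), so by `h` its class is `(L.map lolli).prod`, which
is the class of the image of the closed walk `P` of (c). `Cpx.Hom.IsImm.mk_eq` (`U2.lean`) gives `k • v = v`, so `k = 1`.
-/

set_option autoImplicit false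

namespace Pool.Agent.H60.CI.HCpx

variable {K : Type} [Group K]

theorem NSC_f (Z : HCpx K) {τ τ' : Z.F} : Z.proj.f τ = Z.proj.f τ' ↔ ∃ k : K, k • τ' = τ := by
  change (Quotient.mk'' τ : MulAction.orbitRel.Quotient K Z.F) = Quotient.mk'' τ' ↔ _
  rw [Quotient.eq'']
  exact Iff.rfl

/-- the projection is an immersion -/
theorem NSC_imm (Z : HCpx K) : Z.proj.IsImm := by
  refine ⟨?_, ?_, ?_⟩
  · intro ε ε' h h'
    obtain ⟨k, hk⟩ := (N4_e Z).1 h'
    have h1 : k • Z.src ε' = Z.src ε' := by rw [← Z.src_smul, hk, h]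
    have h2 := Z.free _ _ h1
    rw [h2, one_smul] at hk
    exact hk.symm
  · intro ε ε' h h'
    obtain ⟨k, hk⟩ := (N4_e Z).1 h'
    have h1 : k • Z.tgt ε' = Z.tgt ε' := by rw [← Z.tgt_smul, hk, h]
    have h2 := Z.free _ _ h1
    rw [h2, one_smul] at hk
    exact hk.symm
  · intro τ τ' h h'
    obtain ⟨k, hk⟩ := (NSC_f Z).1 h'
    have h1 : k • Z.base τ' = Z.base τ' := by rw [← Z.base_smul, hk, h]
    have h2 := Z.free _ _ h1
    rw [h2, one_smul] at hk
    exact hk.symm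

/-- walks of the quotient lift -/
theorem NSC_lift (Z : HCpx K) : ∀ (u : List (Z.quot.E × Bool)) (v : Z.V) (y : Z.quot.V),
    Z.quot.Walk (Z.proj.v v) u y →
    ∃ (w : List (Z.E × Bool)) (z : Z.V), Z.Walk v w z ∧ w.map (Prod.map Z.proj.e id) = u ∧
      Z.proj.v z = y := by
  intro u
  induction u with
  | nil =>
    intro v y h
    exact ⟨[], v, rfl, rfl, h⟩
  | cons a u ih =>
    intro v y h
    obtain ⟨h1, h2⟩ := h
    obtain ⟨e, b⟩ := a
    obtain ⟨ε0, rfl⟩ : ∃ ε0 : Z.E, Z.proj.e ε0 = e := Quotient.exists_rep e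
    have h3 : oS Z.quot.src Z.quot.tgt (Z.proj.e ε0, b) = Z.proj.v (oS Z.src Z.tgt (ε0, b)) := by
      cases b <;> rfl
    rw [h3] at h1
    obtain ⟨k, hk⟩ := (N4_v Z).1 h1.symm
    have h4 : oS Z.src Z.tgt (k • ε0, b) = v := by
      rw [← hk]
      cases b
      · exact Z.tgt_smul k ε0
      · exact Z.src_smul k ε0
    have h5 : oT Z.quot.src Z.quot.tgt (Z.proj.e ε0, b) =
        Z.proj.v (oT Z.src Z.tgt (k • ε0, b)) := by
      have h6 : oT Z.src Z.tgt (k • ε0, b) = k • oT Z.src Z.tgt (ε0, b) := by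
        cases b
        · exact Z.src_smul k ε0
        · exact Z.tgt_smul k ε0
      rw [h6, N4_kv]
      cases b <;> rfl
    rw [h5] at h2
    obtain ⟨w, z, hw, hwu, hz⟩ := ih _ _ h2
    refine ⟨(k • ε0, b) :: w, z, ⟨h4, hw⟩, ?_, hz⟩
    rw [List.map_cons, hwu]
    congr 1
    exact Prod.ext (N4_ke Z k ε0) rfl

/-- products of lollipops lift to closed walks -/
theorem NSC_lolli (Z : HCpx K) (v : Z.V)
    (L : List (List (Z.quot.E × Bool) × Z.quot.F × Bool))
    (hL : ∀ t ∈ L, Z.quot.Walk (Z.proj.v v) t.1 (Z.quot.base t.2.1)) :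
    ∃ P : List (Z.E × Bool), Z.Walk v P v ∧
      FreeGroup.mk (P.map (Prod.map Z.proj.e id)) = (L.map Z.quot.lolli).prod := by
  induction L with
  | nil => exact ⟨[], rfl, rfl⟩
  | cons t L ih =>
    obtain ⟨P, hP, hPm⟩ := ih fun t ht => hL t (List.mem_cons_of_mem _ ht)
    obtain ⟨u, σ, b⟩ := t
    have hu : Z.quot.Walk (Z.proj.v v) u (Z.quot.base σ) := hL (u, σ, b) List.mem_cons_self
    obtain ⟨p, z, hp, hpu, hz⟩ := NSC_lift Z u v _ hu
    obtain ⟨τ0, hτ0⟩ : ∃ τ0 : Z.F, Z.proj.f τ0 = σ := Quotient.exists_rep σ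
    rw [← hτ0, Z.proj.base_v] at hz
    obtain ⟨k, hk⟩ := (N4_v Z).1 hz
    have hb : Z.base (k • τ0) = z := by rw [Z.base_smul, hk]
    have hf : Z.proj.f (k • τ0) = σ := by
      rw [← hτ0]
      exact (NSC_f Z).2 ⟨k, rfl⟩
    obtain ⟨W, hW, hWm, -⟩ := Pool.Agent.H50.CI.U4_piece Z.proj hp (k • τ0) hb b
    refine ⟨W ++ P, isWalk_append.2 ⟨v, hW, hP⟩, ?_⟩
    rw [List.map_append, ← FreeGroup.mul_mk, hWm, hPm, hpu, hf, List.map_cons, List.prod_cons]

theorem trivial_of_quot_sc (Z : HCpx K) (hc : Z.Conn) (h : Z.quot.LolliSC) (k : K) : k = 1 := by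
  obtain ⟨⟨v⟩, hconn⟩ := hc
  obtain ⟨w, hw⟩ := hconn v (k • v)
  have h1 := hom_walk_map Z.proj hw
  rw [N4_kv] at h1
  obtain ⟨L, hL, hLm⟩ := h _ _ h1
  obtain ⟨P, hP, hPm⟩ := NSC_lolli Z v L hL
  have h2 := (NSC_imm Z).mk_eq hw hP (by rw [hLm, hPm])
  exact Z.free k v h2.2

end Pool.Agent.H60.CI.HCpx

end S_H62_CI_NSC

section S_H62_CI_N7s

/-!
# Nonpositive immersions (weak form): the fundamental group is locally indicable

Copy of `N7.lean` (helper50) with the hypothesis: every finite connected complex immersed in `X` has nonpositive Euler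
characteristic or is simply connected.
-/

noncomputable section NC_H62_CI_N7s1

set_option autoImplicit false
set_option linter.unusedVariables false


namespace Pool.Agent.H62.CI

open Pool.Agent.H60.CI Pool.Agent.H50.CI

theorem N7s_main {K : Type} [Group K] {B : HCpx K} (D : TD B) {X : Cpx} (hX : X.NPIsc)
    (φ : Cpx.Hom B.toCpx X) (hφ : φ.IsImm) (hv : ∀ (k : K) (x : B.V), φ.v (k • x) = φ.v x)
    (he : ∀ (k : K) (x : B.E), φ.e (k • x) = φ.e x) (hf : ∀ (k : K) (x : B.F), φ.f (k • x) = φ.f x)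
    (hs : Subgroup.closure (Set.range D.s) = ⊤) (hT : D.T.Finite) (hM : D.M.Finite)
    (R : List (List (Fin D.n × Bool)))
    (hR : ∀ lam : Fin D.n → ℚ, (∀ ρ ∈ R, ∀ k, Lam D.s (fun _ j => lam j) k ρ = 0) → lam = 0)
    (hL : ∀ ρ ∈ R, ∃ L : List (List (B.E × Bool) × B.F × Bool), (∀ t ∈ L, (t.1, t.2.1) ∈ D.M) ∧
      FreeGroup.mk (gpath B D.s D.ws 1 ρ) = (L.map B.lolli).prod) (k : K) : k = 1 := by
  have hc : D.Z.toHCpx.Conn := TD.conn D hs
  have fV : Finite D.Z.toHCpx.quot.V := by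
    obtain ⟨S, h⟩ := TD.finV D hT
    exact HCpx.quot_finite S h
  have fE : Finite D.Z.toHCpx.quot.E := by
    obtain ⟨S, h⟩ := TD.finE D hT
    exact HCpx.quot_finite S h
  have fF : Finite D.Z.toHCpx.quot.F := by
    obtain ⟨S, h⟩ := TD.finM D hM
    exact HCpx.quot_finite S h
  have h1 : D.Z.toHCpx.quot.H1Zero := by
    refine HCpx.quot_h1 D.Z.toHCpx fun w hw hinv => ?_
    have hwsv : ∀ (k : K) (j : Fin D.n), TD.psi0 w (D.wsv k j) = TD.psi0 w (D.wsv 1 j) := by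
      intro k j
      have h2 : TD.tr k (D.wsv 1 j) = D.wsv k j := Prod.ext (mul_one k) rfl
      rw [← h2]
      exact TD.psi0_smul w hinv k (D.wsv 1 j)
    have hfun : (fun (k : K) (j : Fin D.n) => TD.psi0 w (D.wsv k j)) =
        fun _ j => TD.psi0 w (D.wsv 1 j) := by
      funext k j
      exact hwsv k j
    have hlam : (fun j => TD.psi0 w (D.wsv 1 j)) = 0 := by
      apply hR
      intro ρ hρ k
      obtain ⟨L, g1, g2⟩ := hL ρ hρ
      have g3 := TD.lam_zero w hw k ρ L g1 g2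
      rw [hfun] at g3
      exact g3
    obtain ⟨Ψ, p1, p2⟩ := TD.exact_of w hw (fun _ => 0) (fun k j => by
      have g4 := congrFun hlam j
      have g5 : TD.psi0 w (D.wsv k j) = 0 := (hwsv k j).trans g4
      rw [g5, add_zero])
    refine ⟨Ψ, fun k => ?_, p2⟩
    refine TD.ind_cls (D := D) (P := fun x => Ψ (k • x) = Ψ x) fun x => ?_
    show Ψ (D.cls (TD.tr k x)) = Ψ (D.cls x)
    rw [p1, p1, TD.psi0_smul w hinv k x]
  have hqc := HCpx.quot_conn D.Z.toHCpx hc
  have hchi := Cpx.one_le_chi D.Z.toHCpx.quot hqc h1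
  have hΦ : (Cpx.Hom.comp φ D.Z.toIm.hom).IsImm := hφ.comp D.Z.toIm.hom_isImm
  obtain ⟨ψ, hψ⟩ := HCpx.quot_hom D.Z.toHCpx (Cpx.Hom.comp φ D.Z.toIm.hom) hΦ
    (fun k x => (congrArg φ.v (D.Z.p_smul k x)).trans (hv k _))
    (fun k x => he k (D.Z.epr x)) (fun k x => hf k (D.Z.mpr x))
  rcases hX D.Z.toHCpx.quot fV fE fF hqc ψ hψ with h2 | h2
  · omega
  · exact HCpx.trivial_of_quot_sc D.Z.toHCpx hc h2 k

theorem locInd_sc {X : Cpx} (hX : X.NPIsc) (x0 : X.V) : LocInd (Pi1 X x0) := by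
  intro K hK hne
  by_contra hcon
  push Not at hcon
  apply hne
  obtain ⟨n, s, hs⟩ := exists_gens K hK
  obtain ⟨B, hB⟩ : ∃ B : HCpx K, B = (XtH X x0).restr K := ⟨_, rfl⟩
  have hBc : B.Conn := by
    rw [hB]
    exact Xt_conn
  have hBs : B.LolliSC := by
    rw [hB]
    exact Xt_sc
  obtain ⟨φ, hφ, hv, he, hf⟩ : ∃ φ : Cpx.Hom B.toCpx X, φ.IsImm ∧
      (∀ (k : K) (x : B.V), φ.v (k • x) = φ.v x) ∧ (∀ (k : K) (x : B.E), φ.e (k • x) = φ.e x) ∧
      ∀ (k : K) (x : B.F), φ.f (k • x) = φ.f x := by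
    rw [hB]
    exact ⟨cov X x0, cov_imm, fun k x => rfl, fun k x => rfl, fun k x => rfl⟩
  obtain ⟨⟨v⟩, hconn⟩ := hBc
  have hws' : ∀ j, ∃ w, B.Walk v w (s j • v) := fun j => hconn v (s j • v)
  choose ws hws using hws'
  obtain ⟨R, hR1, hR2⟩ := exists_relators s hs hcon
  have hL : ∀ ρ : List (Fin n × Bool), ∃ L : List (List (B.E × Bool) × B.F × Bool), ρ ∈ R →
      (∀ t ∈ L, B.Walk v t.1 (B.base t.2.1)) ∧
      FreeGroup.mk (gpath B s ws 1 ρ) = (L.map B.lolli).prod := by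
    intro ρ
    by_cases hρ : ρ ∈ R
    · have h1 := gpath_walk B s ws v hws 1 ρ
      rw [hR1 ρ hρ, mul_one, one_smul] at h1
      obtain ⟨L, h2, h3⟩ := hBs v _ h1
      exact ⟨L, fun _ => ⟨h2, h3⟩⟩
    · exact ⟨[], fun h => absurd h hρ⟩
  choose L hL using hL
  obtain ⟨Ml, hMl⟩ : ∃ Ml : List (List (B.E × Bool) × B.F),
      Ml = R.flatMap (fun ρ => (L ρ).map fun t => (t.1, t.2.1)) := ⟨_, rfl⟩
  have hMm : ∀ t, t ∈ Ml ↔ ∃ ρ ∈ R, ∃ t' ∈ L ρ, (t'.1, t'.2.1) = t := by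
    intro t
    rw [hMl, List.mem_flatMap]
    simp only [List.mem_map]
  have hMw : ∀ t ∈ {t | t ∈ Ml}, B.Walk v t.1 (B.base t.2) := by
    intro t ht
    obtain ⟨ρ, hρ, t', ht', rfl⟩ := (hMm t).1 ht
    exact (hL ρ hρ).1 t' ht'
  have hMf : {t | t ∈ Ml}.Finite := List.finite_toSet Ml
  have hTf := TD.of_T_finite B v s ws hws ∅ (fun p hp => absurd hp (Set.notMem_empty p))
    {t | t ∈ Ml} hMw Set.finite_empty hMf
  rw [Subgroup.eq_bot_iff_forall]
  intro g hg
  have key := N7s_main (TD.of B v s ws hws ∅ (fun p hp => absurd hp (Set.notMem_empty p))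
    {t | t ∈ Ml} hMw) hX φ hφ hv he hf hs hTf hMf R hR2
    (fun ρ hρ => ⟨L ρ, fun t ht => (hMm _).2 ⟨ρ, hρ, t, ht, rfl⟩, (hL ρ hρ).2⟩) ⟨g, hg⟩
  exact congrArg Subtype.val key

end Pool.Agent.H62.CI

end NC_H62_CI_N7s1

end S_H62_CI_N7s
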