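import Mathlib
import Pool.Agent.H62.CI.FP
import Pool.Agent.H50.CI.U0
import Pool.Agent.H62.CI.DefsR
import Pool.Agent.H62.CI.M1
import Pool.Agent.H62.CI.M2
import Pool.Agent.H62.CI.M3
import Pool.Agent.H62.CI.M5
import Pool.Agent.H62.CI.M6

set_option autoImplicit false

/-! Coherence of complexes with collapsing nonpositive immersions, M7: this file joins several modules. -/

section S_H62_CI_FPX

/-!
# Row FPX (90 lines): exactness of the Cayley graph complex `A^n → A → ℚ`

PROOF. `A = MonoidAlgebra ℚ H`.  (a) `aug (cayD s y) = 0`: `aug (x * (single g 1 - 1)) = 0` for all `x`, by linearity in `x`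
(for `x = single k r`: `single k r * single g 1 = single (k * g) r`).
(b) Let `P` be the set of `g : H` with `single g 1 - 1 ∈ range (cayD s)`. It contains `1` and the `s j`
(`y = Pi.single j 1`), it is closed under products: `single (g * g') 1 - 1 = single g 1 * (single g' 1 - 1) + (single g 1 - 1)`
(the range is a left submodule), and under inverses: `single g⁻¹ 1 - 1 = -(single g⁻¹ 1 * (single g 1 - 1))`.
So `P` is everything, by `Subgroup.closure_induction`.
(c) If `aug x = 0` then `x = ∑_g x_g • single g 1 = ∑_g x_g • (single g 1 - 1)` is in the range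
(`r • z = single 1 r * z`, so the range is closed under rational scalars).
-/

set_option autoImplicit false

namespace Pool.Agent.H62.CI

variable {H : Type} [Group H]

theorem FPX_single (g : H) (r : ℚ) : aug (MonoidAlgebra.single g r) = r := by
  show (MonoidAlgebra.single g r).coeff.sum (fun _ r => r) = r
  rw [MonoidAlgebra.coeff_single, Finsupp.sum_single_index rfl]

theorem FPX_mul_single (x : MonoidAlgebra ℚ H) (g : H) :
    aug (x * MonoidAlgebra.single g 1) = aug x := by
  induction x using MonoidAlgebra.induction_linear with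
  | zero => rw [zero_mul]
  | add x y hx hy => rw [add_mul, map_add, map_add, hx, hy]
  | single k r => rw [MonoidAlgebra.single_mul_single, mul_one, FPX_single, FPX_single]

theorem aug_cayD {n : ℕ} (s : Fin n → H) (y : Fin n → MonoidAlgebra ℚ H) : aug (cayD s y) = 0 := by
  show aug (∑ j, y j * (MonoidAlgebra.single (s j) 1 - 1)) = 0
  rw [map_sum]
  refine Finset.sum_eq_zero fun j _ => ?_
  rw [mul_sub, mul_one, map_sub, FPX_mul_single, sub_self]

theorem aug_ker {n : ℕ} (s : Fin n → H) (hs : Subgroup.closure (Set.range s) = ⊤)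
    (x : MonoidAlgebra ℚ H) (hx : aug x = 0) : ∃ y, cayD s y = x := by
  classical
  have hP : ∀ g : H, MonoidAlgebra.single g (1 : ℚ) - 1 ∈ LinearMap.range (cayD s) := by
    intro g
    have hg : g ∈ Subgroup.closure (Set.range s) := by rw [hs]; exact Subgroup.mem_top g
    induction hg using Subgroup.closure_induction with
    | mem z hz =>
      obtain ⟨j, rfl⟩ := hz
      refine ⟨Pi.single j 1, ?_⟩
      show ∑ i, (Pi.single j (1 : MonoidAlgebra ℚ H) : Fin n → MonoidAlgebra ℚ H) i *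
        (MonoidAlgebra.single (s i) 1 - 1) = MonoidAlgebra.single (s j) 1 - 1
      rw [Finset.sum_eq_single j]
      · rw [Pi.single_eq_same, one_mul]
      · intro i _ hi
        rw [Pi.single_eq_of_ne hi, zero_mul]
      · intro h
        exact absurd (Finset.mem_univ j) h
    | one =>
      rw [← MonoidAlgebra.one_def, sub_self]
      exact Submodule.zero_mem _
    | mul g g' _ _ h h' =>
      have e : MonoidAlgebra.single (g * g') (1 : ℚ) - 1 =
          MonoidAlgebra.single g (1 : ℚ) • (MonoidAlgebra.single g' (1 : ℚ) - 1) +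
            (MonoidAlgebra.single g (1 : ℚ) - 1) := by
        rw [smul_eq_mul, mul_sub, MonoidAlgebra.single_mul_single, mul_one, mul_one]
        abel
      rw [e]
      exact Submodule.add_mem _ (Submodule.smul_mem _ _ h') h
    | inv g _ h =>
      have e : MonoidAlgebra.single g⁻¹ (1 : ℚ) - 1 =
          -(MonoidAlgebra.single g⁻¹ (1 : ℚ) • (MonoidAlgebra.single g (1 : ℚ) - 1)) := by
        rw [smul_eq_mul, mul_sub, MonoidAlgebra.single_mul_single, mul_one, mul_one,
          inv_mul_cancel, ← MonoidAlgebra.one_def]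
        abel
      rw [e]
      exact Submodule.neg_mem _ (Submodule.smul_mem _ _ h)
  have key : ∀ x : MonoidAlgebra ℚ H,
      x - MonoidAlgebra.single 1 (aug x) ∈ LinearMap.range (cayD s) := by
    intro x
    induction x using MonoidAlgebra.induction_linear with
    | zero =>
      rw [map_zero, MonoidAlgebra.single_zero, sub_zero]
      exact Submodule.zero_mem _
    | add x y hx hy =>
      have e : x + y - MonoidAlgebra.single 1 (aug (x + y)) =
          (x - MonoidAlgebra.single 1 (aug x)) + (y - MonoidAlgebra.single 1 (aug y)) := by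
        rw [map_add, MonoidAlgebra.single_add]
        abel
      rw [e]
      exact Submodule.add_mem _ hx hy
    | single g r =>
      rw [FPX_single]
      have e : MonoidAlgebra.single g r - MonoidAlgebra.single 1 r =
          MonoidAlgebra.single (1 : H) r • (MonoidAlgebra.single g (1 : ℚ) - 1) := by
        rw [smul_eq_mul, mul_sub, MonoidAlgebra.single_mul_single, one_mul, mul_one, mul_one]
      rw [e]
      exact Submodule.smul_mem _ _ (hP g)
  have h := key x
  rw [hx, MonoidAlgebra.single_zero, sub_zero] at h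
  exact h

theorem aug_single_mul (h : H) (x : MonoidAlgebra ℚ H) : aug (MonoidAlgebra.single h 1 * x) = aug x := by
  induction x using MonoidAlgebra.induction_linear with
  | zero => rw [mul_zero]
  | add x y hx hy => rw [mul_add, map_add, map_add, hx, hy]
  | single k r => rw [MonoidAlgebra.single_mul_single, one_mul, FPX_single, FPX_single]

end Pool.Agent.H62.CI

end S_H62_CI_FPX

section S_H62_CI_FPA

/-!
# Row FPA (130 lines): for a group of type FP_2 the cycle module of the Cayley graph is finitely generated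

PROOF (comparison of resolutions, no module theory needed). `A = MonoidAlgebra ℚ H`. Data of `FPtwo ℚ H`: `ε, d₁, d₂`.
Choose `x0 : Fin a → A` with `ε x0 = 1`.
* `α₀ : A → A^a`, `α₀ r = r • x0` (`LinearMap.toSpanSingleton A _ x0`); `ε (α₀ r) = aug r` (additive in `r`; on
  `single h q` use the invariance and the rational linearity of `ε`).
* `β₀ : A^a → A`, `A`-linear with `β₀ (Pi.single i 1) = single 1 (ε (Pi.single i 1))` (use `(Pi.basisFun A (Fin a)).constr ℕ`
  or `∑ i, x i * single 1 (ε (Pi.single i 1))` as an explicit linear map); `aug (β₀ x) = ε x` (write `x = ∑ x_i • Pi.single i 1`).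
* `σ₀ : A → A^n`, `σ₀ r = r • y0` with `cayD s y0 = 1 - β₀ x0` (`aug_ker`: `aug (1 - β₀ x0) = 1 - ε x0 = 0`). So
  `cayD s (σ₀ r) = r - β₀ (α₀ r)`.
* `β₁ : A^b → A^n`, `A`-linear with `cayD s (β₁ e_j) = β₀ (d₁ e_j)` (`aug_ker`: `aug (β₀ (d₁ e_j)) = ε (d₁ e_j) = 0`); hence
  `cayD s (β₁ x) = β₀ (d₁ x)` for all `x`.
* `α₁ : A^n → A^b`, `A`-linear with `d₁ (α₁ e_j) = α₀ (cayD s e_j)` (`ε (α₀ (cayD s e_j)) = aug (cayD s e_j) = 0`); hence
  `d₁ (α₁ x) = α₀ (cayD s x)` for all `x`.
* `t x = x - β₁ (α₁ x) - σ₀ (cayD s x)`; `cayD s (t x) = cayD s x - β₀ (α₀ (cayD s x)) - (cayD s x - β₀ (α₀ (cayD s x))) = 0`.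
If `cayD s z = 0` then `z = t z + β₁ (α₁ z)` and `d₁ (α₁ z) = 0`, so `α₁ z = d₂ y`. Hence
`ker (cayD s) = range t ⊔ range (β₁ ∘ d₂)` (the second range is in the kernel: `cayD s (β₁ (d₂ y)) = β₀ (d₁ (d₂ y)) = 0`), which is
finitely generated (`Submodule.FG.sup`, ranges of finite modules: `Module.Finite.range` / `Submodule.FG.map`).
-/

set_option autoImplicit false

namespace Pool.Agent.H62.CI

variable {H : Type} [Group H]

omit [Group H] in
theorem FPA_single (h : H) (q : ℚ) : aug (MonoidAlgebra.single h q) = q := by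
  show (MonoidAlgebra.single h q : MonoidAlgebra ℚ H).coeff.sum (fun _ r => r) = q
  rw [MonoidAlgebra.coeff_single]
  exact Finsupp.sum_single_index rfl

theorem FPA_eps {a : ℕ} (ε : (Fin a → MonoidAlgebra ℚ H) →ₗ[ℚ] ℚ)
    (hε : ∀ (h : H) x, ε (MonoidAlgebra.single h (1 : ℚ) • x) = ε x) (r : MonoidAlgebra ℚ H)
    (x : Fin a → MonoidAlgebra ℚ H) : ε (r • x) = aug r * ε x := by
  induction r using MonoidAlgebra.induction_linear with
  | zero => rw [zero_smul, map_zero, map_zero, zero_mul]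
  | add r r' h1 h2 => rw [add_smul, map_add, map_add, h1, h2, add_mul]
  | single h q =>
    have h1 : (MonoidAlgebra.single h q : MonoidAlgebra ℚ H) • x =
        q • (MonoidAlgebra.single h (1 : ℚ) • x) := by
      funext i
      simp only [Pi.smul_apply, smul_eq_mul]
      rw [← smul_mul_assoc, MonoidAlgebra.smul_single', mul_one]
    rw [h1, map_smul, hε, smul_eq_mul, FPA_single]

theorem FPA_mul (r x : MonoidAlgebra ℚ H) : aug (r * x) = aug r * aug x := by
  induction r using MonoidAlgebra.induction_linear with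
  | zero => rw [zero_mul, map_zero, zero_mul]
  | add r r' h1 h2 => rw [add_mul, map_add, map_add, h1, h2, add_mul]
  | single h q =>
    have h1 : (MonoidAlgebra.single h q : MonoidAlgebra ℚ H) * x =
        q • (MonoidAlgebra.single h (1 : ℚ) * x) := by
      rw [← smul_mul_assoc, MonoidAlgebra.smul_single', mul_one]
    rw [h1, map_smul, aug_single_mul, smul_eq_mul, FPA_single]

theorem FPA_ext {b : ℕ} {M : Type*} [AddCommGroup M] [Module (MonoidAlgebra ℚ H) M]
    (f g : (Fin b → MonoidAlgebra ℚ H) →ₗ[MonoidAlgebra ℚ H] M)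
    (h : ∀ j, f (Pi.single j 1) = g (Pi.single j 1)) (x : Fin b → MonoidAlgebra ℚ H) :
    f x = g x := by
  have h1 : f = g := by
    refine LinearMap.pi_ext' fun j => LinearMap.ext_ring ?_
    simpa using h j
  rw [h1]

theorem FPA_one : aug (1 : MonoidAlgebra ℚ H) = 1 := by
  rw [MonoidAlgebra.one_def, FPA_single]

theorem fp2_ker (hFP : FPtwo ℚ H) {n : ℕ} (s : Fin n → H)
    (hs : Subgroup.closure (Set.range s) = ⊤) : (LinearMap.ker (cayD s)).FG := by
  classical
  obtain ⟨a, b, c, ε, d₁, d₂, hε, hsurj, h1, h2⟩ := hFP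
  obtain ⟨x0, hx0⟩ := hsurj 1
  obtain ⟨β₀, hβ₀⟩ : ∃ β₀ : (Fin a → MonoidAlgebra ℚ H) →ₗ[MonoidAlgebra ℚ H] MonoidAlgebra ℚ H,
      ∀ x, aug (β₀ x) = ε x := by
    refine ⟨Fintype.linearCombination (MonoidAlgebra ℚ H)
      (fun i => MonoidAlgebra.single 1 (ε (Pi.single i 1))), fun x => ?_⟩
    rw [Fintype.linearCombination_apply, map_sum]
    have h4 : x = ∑ i, x i • (Pi.single i (1 : MonoidAlgebra ℚ H)) := by
      funext j
      rw [Finset.sum_apply, Finset.sum_eq_single j]
      · simp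
      · intro i _ hij
        simp [Pi.single_eq_of_ne hij.symm]
      · simp
    conv_rhs => rw [h4, map_sum]
    refine Finset.sum_congr rfl fun i _ => ?_
    rw [FPA_eps ε hε, smul_eq_mul, FPA_mul, FPA_single]
  obtain ⟨α₀, hα₀, hα₁⟩ : ∃ α₀ : MonoidAlgebra ℚ H →ₗ[MonoidAlgebra ℚ H]
      (Fin a → MonoidAlgebra ℚ H), (∀ r, ε (α₀ r) = aug r) ∧ ∀ r, α₀ r = r • x0 := by
    refine ⟨LinearMap.toSpanSingleton _ _ x0, fun r => ?_, fun r => rfl⟩
    rw [LinearMap.toSpanSingleton_apply, FPA_eps ε hε, hx0, mul_one]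
  obtain ⟨y0, hy0⟩ := aug_ker s hs (1 - β₀ x0) (by rw [map_sub, hβ₀, hx0, FPA_one, sub_self])
  obtain ⟨σ₀, hσ₀⟩ : ∃ σ₀ : MonoidAlgebra ℚ H →ₗ[MonoidAlgebra ℚ H] (Fin n → MonoidAlgebra ℚ H),
      ∀ r, cayD s (σ₀ r) = r - β₀ (α₀ r) := by
    refine ⟨LinearMap.toSpanSingleton _ _ y0, fun r => ?_⟩
    rw [LinearMap.toSpanSingleton_apply, hα₁, map_smul, map_smul, hy0, smul_eq_mul, smul_eq_mul,
      mul_sub, mul_one]
  obtain ⟨β₁, hβ₁⟩ : ∃ β₁ : (Fin b → MonoidAlgebra ℚ H) →ₗ[MonoidAlgebra ℚ H]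
      (Fin n → MonoidAlgebra ℚ H), ∀ x, cayD s (β₁ x) = β₀ (d₁ x) := by
    have hb : ∀ j : Fin b, ∃ y, cayD s y = β₀ (d₁ (Pi.single j 1)) :=
      fun j => aug_ker s hs _ (by rw [hβ₀]; exact (h1 _).2 ⟨_, rfl⟩)
    choose vb hvb using hb
    refine ⟨Fintype.linearCombination (MonoidAlgebra ℚ H) vb, fun x => ?_⟩
    refine FPA_ext ((cayD s).comp (Fintype.linearCombination (MonoidAlgebra ℚ H) vb))
      (β₀.comp d₁) (fun j => ?_) x
    rw [LinearMap.comp_apply, LinearMap.comp_apply, Fintype.linearCombination_apply_single,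
      one_smul, hvb]
  obtain ⟨α₁, hα₁⟩ : ∃ α₁ : (Fin n → MonoidAlgebra ℚ H) →ₗ[MonoidAlgebra ℚ H]
      (Fin b → MonoidAlgebra ℚ H), ∀ x, d₁ (α₁ x) = α₀ (cayD s x) := by
    have hb : ∀ j : Fin n, ∃ y, d₁ y = α₀ (cayD s (Pi.single j 1)) :=
      fun j => (h1 _).1 (by rw [hα₀, aug_cayD])
    choose vb hvb using hb
    refine ⟨Fintype.linearCombination (MonoidAlgebra ℚ H) vb, fun x => ?_⟩
    refine FPA_ext (d₁.comp (Fintype.linearCombination (MonoidAlgebra ℚ H) vb))
      (α₀.comp (cayD s)) (fun j => ?_) x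
    rw [LinearMap.comp_apply, LinearMap.comp_apply, Fintype.linearCombination_apply_single,
      one_smul, hvb]
  have key : LinearMap.ker (cayD s) =
      LinearMap.range (LinearMap.id - β₁.comp α₁ - σ₀.comp (cayD s)) ⊔
        LinearMap.range (β₁.comp d₂) := by
    apply le_antisymm
    · intro z hz
      rw [LinearMap.mem_ker] at hz
      have h3 : d₁ (α₁ z) = 0 := by rw [hα₁, hz, map_zero]
      obtain ⟨y, hy⟩ := (h2 _).1 h3
      rw [Submodule.mem_sup]
      refine ⟨z - β₁ (α₁ z) - σ₀ (cayD s z), ⟨z, rfl⟩, β₁ (α₁ z), ⟨y, ?_⟩, ?_⟩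
      · rw [LinearMap.comp_apply, hy]
      · rw [hz, map_zero]
        abel
    · refine sup_le ?_ ?_
      · rintro _ ⟨x, rfl⟩
        rw [LinearMap.mem_ker]
        show cayD s (x - β₁ (α₁ x) - σ₀ (cayD s x)) = 0
        rw [map_sub, map_sub, hβ₁, hσ₀, hα₁]
        abel
      · rintro _ ⟨x, rfl⟩
        rw [LinearMap.mem_ker, LinearMap.comp_apply, hβ₁, (h2 _).2 ⟨x, rfl⟩, map_zero]
  rw [key, LinearMap.range_eq_map, LinearMap.range_eq_map]
  exact (Module.Finite.fg_top.map _).sup (Module.Finite.fg_top.map _)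

end Pool.Agent.H62.CI

end S_H62_CI_FPA

section S_H62_CI_FPB

/-!
# Row FPB (200 lines): finitely many relators of `H` detect coboundaries on the Cayley graph

PROOF. Write `val w = FreeGroup.lift s (FreeGroup.mk w)`.  Elementary facts about `cayInt`:
(1) `cayInt s c k (w ++ w') = cayInt s c k w + cayInt s c (k * val w) w'`.
(2) `cayInt s c (k * val w) (FreeGroup.invRev w) = - cayInt s c k w`.
(3) `cayInt s (fun k j => c (g * k) j) k w = cayInt s c (g * k) w`.
Choose a word `p k` with `val (p k) = k` for every `k : H` (`hs`, `FreeGroup.lift_surjective_iff_closure_range_eq_top`, `Quot.ind`/`FreeGroup.mk` is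
surjective).
For `z : Fin n → A` and `c : H → Fin n → ℚ` put `pair c z = ∑ j, (z j).coeff.sum (fun k q => q * c k j)`.
(4) If `cayD s z = 0` then `pair c z = ∑ j, (z j).coeff.sum (fun k q => q * cayInt s c 1 (loop k j))` where
`loop k j = p k ++ [(j, true)] ++ FreeGroup.invRev (p (k * s j))`: by (1), (2) the integral over `loop k j` is
`P k + c k j - P (k * s j)` with `P k = cayInt s c 1 (p k)`, and `∑_j ∑_k z_j(k) (P (k s_j) - P k)` is the value of the linear functional
`x ↦ x.coeff.sum (fun g r => r * P g)` at `cayD s z = 0` (additivity in `z`; check it for `z j = single k q`).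
(5) Let `ker (cayD s)` be generated by the finite set `Z` (`fp2_ker`, `Submodule.fg_def`). Let `R` be the finite set of words `loop k j`, `k` in the support
of `z j`, `z ∈ Z`; they have value 1. Enumerate `R` by `r : Fin m → _`.
Let `c` satisfy `cayInt s c k (r i) = 0` for all `k, i`. By (4) for the translates `c_g = (fun k j => c (g * k) j)` and (3): `pair c_g z = 0` for all
`g : H`, `z ∈ Z`. The set of all `z : Fin n → A` with `∀ g, pair c_g z = 0` is closed under addition and under `a • ·` for `a : A`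
(check for `a = single h q`: `pair c_g (single h q • z) = q * pair c_(g*h) z`). So `pair c z = 0` for all `z ∈ ker (cayD s)`
(`Submodule.span_induction`).
(6) For a word `w` with value 1 let `z_w : Fin n → A` be its chain, starting at `1` (recursion like `cayInt`, with `Pi.single j (single k 1)` instead of
`c k j`): `pair c z_w = cayInt s c 1 w` and `cayD s z_w = single (val w) 1 - 1 = 0` (both by induction, for arbitrary starting point `k`). So
`cayInt s c 1 w = 0`.
(7) Put `ψ k = cayInt s c 1 (p k)`. The word `loop k j` has value 1, so (6) and (1), (2) give `c k j = ψ (k * s j) - ψ k`.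
-/

set_option autoImplicit false

namespace Pool.Agent.H62.CI

variable {H : Type} [Group H]

theorem FPB_cons {n : ℕ} (s : Fin n → H) (j : Fin n) (b : Bool) (w : List (Fin n × Bool)) :
    FreeGroup.lift s (FreeGroup.mk ((j, b) :: w)) =
      cond b (s j) (s j)⁻¹ * FreeGroup.lift s (FreeGroup.mk w) := by
  rw [FreeGroup.lift_mk, FreeGroup.lift_mk, List.map_cons, List.prod_cons]

theorem FPB_app {n : ℕ} (s : Fin n → H) (w w' : List (Fin n × Bool)) :
    FreeGroup.lift s (FreeGroup.mk (w ++ w')) =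
      FreeGroup.lift s (FreeGroup.mk w) * FreeGroup.lift s (FreeGroup.mk w') := by
  rw [← map_mul]
  rfl

theorem FPB_inv {n : ℕ} (s : Fin n → H) (w : List (Fin n × Bool)) :
    FreeGroup.lift s (FreeGroup.mk (FreeGroup.invRev w)) =
      (FreeGroup.lift s (FreeGroup.mk w))⁻¹ := by
  rw [← FreeGroup.inv_mk, map_inv]

theorem cayInt_append {n : ℕ} (s : Fin n → H) (c : H → Fin n → ℚ) (k : H)
    (w w' : List (Fin n × Bool)) :
    cayInt s c k (w ++ w') = cayInt s c k w + cayInt s c (k * FreeGroup.lift s (FreeGroup.mk w)) w' := by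
  induction w generalizing k with
  | nil =>
    show cayInt s c k w' = 0 + cayInt s c (k * 1) w'
    rw [zero_add, mul_one]
  | cons x w ih =>
    obtain ⟨j, b⟩ := x
    rw [FPB_cons, List.cons_append]
    cases b with
    | true =>
      show c k j + cayInt s c (k * s j) (w ++ w') =
        c k j + cayInt s c (k * s j) w + cayInt s c (k * (s j * _)) w'
      rw [ih, mul_assoc, add_assoc]
    | false =>
      show - c (k * (s j)⁻¹) j + cayInt s c (k * (s j)⁻¹) (w ++ w') =
        - c (k * (s j)⁻¹) j + cayInt s c (k * (s j)⁻¹) w + cayInt s c (k * ((s j)⁻¹ * _)) w'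
      rw [ih, mul_assoc, add_assoc]

theorem cayInt_invRev {n : ℕ} (s : Fin n → H) (c : H → Fin n → ℚ) (k : H)
    (w : List (Fin n × Bool)) :
    cayInt s c (k * FreeGroup.lift s (FreeGroup.mk w)) (FreeGroup.invRev w) = - cayInt s c k w := by
  induction w generalizing k with
  | nil =>
    show (0 : ℚ) = - 0
    rw [neg_zero]
  | cons x w ih =>
    obtain ⟨j, b⟩ := x
    rw [FPB_cons, FreeGroup.invRev_cons, cayInt_append, FPB_inv, ← mul_assoc, ih,
      mul_inv_cancel_right]
    cases b with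
    | true =>
      show - cayInt s c (k * s j) w + (- c (k * s j * (s j)⁻¹) j + 0) =
        - (c k j + cayInt s c (k * s j) w)
      rw [mul_inv_cancel_right]
      ring
    | false =>
      show - cayInt s c (k * (s j)⁻¹) w + (c (k * (s j)⁻¹) j + 0) =
        - (- c (k * (s j)⁻¹) j + cayInt s c (k * (s j)⁻¹) w)
      ring

/-- the linear functional with the values `f` on the group elements. -/
noncomputable def FPB_L (f : H → ℚ) : MonoidAlgebra ℚ H →ₗ[ℚ] ℚ where
  toFun := fun x => x.coeff.sum fun k q => q * f k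
  map_add' := fun x y => by
    rw [MonoidAlgebra.coeff_add]
    exact Finsupp.sum_add_index' (fun _ => zero_mul _) (fun _ _ _ => add_mul _ _ _)
  map_smul' := fun r x => by
    rw [MonoidAlgebra.coeff_smul, Finsupp.sum_smul_index' (fun _ => zero_mul _)]
    simp [Finsupp.sum, Finset.mul_sum, mul_assoc]

theorem FPB_L_apply (f : H → ℚ) (x : MonoidAlgebra ℚ H) :
    FPB_L f x = ∑ k ∈ x.coeff.support, x.coeff k * f k := rfl

theorem FPB_L_single (f : H → ℚ) (k : H) (q : ℚ) :
    FPB_L f (MonoidAlgebra.single k q) = q * f k := by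
  show (MonoidAlgebra.single k q).coeff.sum (fun k q => q * f k) = q * f k
  rw [MonoidAlgebra.coeff_single]
  exact Finsupp.sum_single_index (zero_mul _)

theorem FPB_L_add (f g : H → ℚ) (x : MonoidAlgebra ℚ H) :
    FPB_L (fun k => f k + g k) x = FPB_L f x + FPB_L g x := by
  rw [FPB_L_apply, FPB_L_apply, FPB_L_apply, ← Finset.sum_add_distrib]
  exact Finset.sum_congr rfl fun k _ => mul_add _ _ _

theorem FPB_L_sub (f g : H → ℚ) (x : MonoidAlgebra ℚ H) :
    FPB_L (fun k => f k - g k) x = FPB_L f x - FPB_L g x := by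
  rw [FPB_L_apply, FPB_L_apply, FPB_L_apply, ← Finset.sum_sub_distrib]
  exact Finset.sum_congr rfl fun k _ => mul_sub _ _ _

theorem FPB_L_mul (f : H → ℚ) (x : MonoidAlgebra ℚ H) (g : H) :
    FPB_L f (x * (MonoidAlgebra.single g 1 - 1)) = FPB_L (fun k => f (k * g)) x - FPB_L f x := by
  rw [mul_sub, mul_one, map_sub]
  congr 1
  induction x using MonoidAlgebra.induction_linear with
  | zero => rw [zero_mul, map_zero, map_zero]
  | add x y hx hy => rw [add_mul, map_add, map_add, hx, hy]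
  | single k q => rw [MonoidAlgebra.single_mul_single, FPB_L_single, FPB_L_single, mul_one]

theorem FPB_L_lmul (f : H → ℚ) (x : MonoidAlgebra ℚ H) (h : H) (q : ℚ) :
    FPB_L f (MonoidAlgebra.single h q * x) = q * FPB_L (fun k => f (h * k)) x := by
  induction x using MonoidAlgebra.induction_linear with
  | zero => rw [mul_zero, map_zero, map_zero, mul_zero]
  | add x y hx hy => rw [mul_add, map_add, map_add, hx, hy, mul_add]
  | single k r =>
    rw [MonoidAlgebra.single_mul_single, FPB_L_single, FPB_L_single, mul_assoc]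

/-- the pairing of a function on the edges with a chain. -/
noncomputable def FPB_pair {n : ℕ} (c : H → Fin n → ℚ) :
    (Fin n → MonoidAlgebra ℚ H) →+ ℚ where
  toFun := fun z => ∑ j, FPB_L (fun k => c k j) (z j)
  map_zero' := Finset.sum_eq_zero fun j _ => map_zero _
  map_add' := fun x y => by
    rw [← Finset.sum_add_distrib]
    exact Finset.sum_congr rfl fun j _ => map_add _ _ _

theorem FPB_pair_apply {n : ℕ} (c : H → Fin n → ℚ) (z : Fin n → MonoidAlgebra ℚ H) :
    FPB_pair c z = ∑ j, FPB_L (fun k => c k j) (z j) := rfl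

theorem FPB_pair_single {n : ℕ} (c : H → Fin n → ℚ) (j : Fin n) (k : H) :
    FPB_pair c (Pi.single j (MonoidAlgebra.single k 1)) = c k j := by
  rw [FPB_pair_apply, Finset.sum_eq_single j]
  · rw [Pi.single_eq_same, FPB_L_single, one_mul]
  · intro i _ hi
    rw [Pi.single_eq_of_ne hi, map_zero]
  · intro h
    exact absurd (Finset.mem_univ j) h

theorem FPB_smul {n : ℕ} (c : H → Fin n → ℚ) (x : Fin n → MonoidAlgebra ℚ H)
    (hx : ∀ g : H, FPB_pair (fun k j => c (g * k) j) x = 0) (a : MonoidAlgebra ℚ H) (g : H) :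
    FPB_pair (fun k j => c (g * k) j) (a • x) = 0 := by
  induction a using MonoidAlgebra.induction_linear with
  | zero => rw [zero_smul, map_zero]
  | add a b ha hb => rw [add_smul, map_add, ha, hb, add_zero]
  | single h q =>
    have h1 := hx (g * h)
    rw [FPB_pair_apply] at h1 ⊢
    have h2 : ∀ j : Fin n, FPB_L (fun k => c (g * k) j) ((MonoidAlgebra.single h q • x) j) =
        q * FPB_L (fun k => c (g * h * k) j) (x j) := by
      intro j
      rw [Pi.smul_apply, smul_eq_mul, FPB_L_lmul]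
      simp only [mul_assoc]
    rw [Finset.sum_congr rfl fun j _ => h2 j, ← Finset.mul_sum, h1, mul_zero]

theorem FPB_translate {n : ℕ} (s : Fin n → H) (c : H → Fin n → ℚ) (g : H) (k : H)
    (w : List (Fin n × Bool)) :
    cayInt s (fun k j => c (g * k) j) k w = cayInt s c (g * k) w := by
  induction w generalizing k with
  | nil => rfl
  | cons x w ih =>
    obtain ⟨j, b⟩ := x
    cases b with
    | true =>
      show c (g * k) j + cayInt s (fun k j => c (g * k) j) (k * s j) w =
        c (g * k) j + cayInt s c (g * k * s j) w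
      rw [ih, mul_assoc]
    | false =>
      show - c (g * (k * (s j)⁻¹)) j + cayInt s (fun k j => c (g * k) j) (k * (s j)⁻¹) w =
        - c (g * k * (s j)⁻¹) j + cayInt s c (g * k * (s j)⁻¹) w
      rw [ih, mul_assoc]

/-- the closed path through the edge `(k, j)`. -/
def FPB_loop {n : ℕ} (s : Fin n → H) (p : H → List (Fin n × Bool)) (k : H) (j : Fin n) :
    List (Fin n × Bool) := p k ++ ([(j, true)] ++ FreeGroup.invRev (p (k * s j)))

theorem FPB_loop_val {n : ℕ} (s : Fin n → H) (p : H → List (Fin n × Bool))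
    (hp : ∀ k, FreeGroup.lift s (FreeGroup.mk (p k)) = k) (k : H) (j : Fin n) :
    FreeGroup.lift s (FreeGroup.mk (FPB_loop s p k j)) = 1 := by
  unfold FPB_loop
  rw [FPB_app, FPB_app, FPB_inv, hp, hp, FPB_cons]
  show k * (s j * 1 * (k * s j)⁻¹) = 1
  group

theorem FPB_loop_int {n : ℕ} (s : Fin n → H) (c : H → Fin n → ℚ) (p : H → List (Fin n × Bool))
    (hp : ∀ k, FreeGroup.lift s (FreeGroup.mk (p k)) = k) (k : H) (j : Fin n) :
    cayInt s c 1 (FPB_loop s p k j) =
      cayInt s c 1 (p k) + (c k j - cayInt s c 1 (p (k * s j))) := by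
  have h1 : FreeGroup.lift s (FreeGroup.mk [(j, true)]) = s j := by
    rw [FPB_cons]
    exact mul_one _
  have h2 := cayInt_invRev s c 1 (p (k * s j))
  rw [hp, one_mul] at h2
  unfold FPB_loop
  rw [cayInt_append, cayInt_append, hp, one_mul, h1, h2]
  show cayInt s c 1 (p k) + (c k j + 0 + - cayInt s c 1 (p (k * s j))) = _
  ring

theorem FPB_four {n : ℕ} (s : Fin n → H) (c : H → Fin n → ℚ) (p : H → List (Fin n × Bool))
    (hp : ∀ k, FreeGroup.lift s (FreeGroup.mk (p k)) = k) (z : Fin n → MonoidAlgebra ℚ H)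
    (hz : z ∈ LinearMap.ker (cayD s)) :
    FPB_pair c z = ∑ j, FPB_L (fun k => cayInt s c 1 (FPB_loop s p k j)) (z j) := by
  have h1 : FPB_L (fun k => cayInt s c 1 (p k)) (cayD s z) = 0 := by
    rw [LinearMap.mem_ker.1 hz, map_zero]
  have h2 : cayD s z = ∑ j, z j * (MonoidAlgebra.single (s j) 1 - 1) := rfl
  rw [h2, map_sum] at h1
  have h3 : ∀ j : Fin n, FPB_L (fun k => cayInt s c 1 (FPB_loop s p k j)) (z j) =
      FPB_L (fun k => c k j) (z j) -
        FPB_L (fun k => cayInt s c 1 (p k)) (z j * (MonoidAlgebra.single (s j) 1 - 1)) := by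
    intro j
    have h4 : (fun k => cayInt s c 1 (FPB_loop s p k j)) =
        fun k => cayInt s c 1 (p k) + (c k j - cayInt s c 1 (p (k * s j))) := by
      funext k
      exact FPB_loop_int s c p hp k j
    rw [h4, FPB_L_add (fun k => cayInt s c 1 (p k)) (fun k => c k j - cayInt s c 1 (p (k * s j))),
      FPB_L_sub (fun k => c k j) (fun k => cayInt s c 1 (p (k * s j))), FPB_L_mul]
    ring
  rw [Finset.sum_congr rfl fun j _ => h3 j, Finset.sum_sub_distrib, h1, sub_zero,
    FPB_pair_apply]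

/-- the chain of a path. -/
noncomputable def FPB_ch {n : ℕ} (s : Fin n → H) :
    H → List (Fin n × Bool) → (Fin n → MonoidAlgebra ℚ H)
  | _, [] => 0
  | k, (j, true) :: w => Pi.single j (MonoidAlgebra.single k 1) + FPB_ch s (k * s j) w
  | k, (j, false) :: w =>
    - Pi.single j (MonoidAlgebra.single (k * (s j)⁻¹) 1) + FPB_ch s (k * (s j)⁻¹) w

theorem FPB_ch_nil {n : ℕ} (s : Fin n → H) (k : H) : FPB_ch s k [] = 0 := rfl

theorem FPB_ch_true {n : ℕ} (s : Fin n → H) (k : H) (j : Fin n) (w : List (Fin n × Bool)) :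
    FPB_ch s k ((j, true) :: w) =
      Pi.single j (MonoidAlgebra.single k 1) + FPB_ch s (k * s j) w := rfl

theorem FPB_ch_false {n : ℕ} (s : Fin n → H) (k : H) (j : Fin n) (w : List (Fin n × Bool)) :
    FPB_ch s k ((j, false) :: w) =
      - Pi.single j (MonoidAlgebra.single (k * (s j)⁻¹) 1) + FPB_ch s (k * (s j)⁻¹) w := rfl

theorem FPB_ch_pair {n : ℕ} (s : Fin n → H) (c : H → Fin n → ℚ) (k : H)
    (w : List (Fin n × Bool)) : FPB_pair c (FPB_ch s k w) = cayInt s c k w := by
  induction w generalizing k with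
  | nil => exact map_zero _
  | cons x w ih =>
    obtain ⟨j, b⟩ := x
    cases b with
    | true =>
      rw [FPB_ch_true, map_add, FPB_pair_single, ih]
      rfl
    | false =>
      rw [FPB_ch_false, map_add, map_neg, FPB_pair_single, ih]
      rfl

theorem FPB_cayD_apply {n : ℕ} (s : Fin n → H) (y : Fin n → MonoidAlgebra ℚ H) :
    cayD s y = ∑ j, y j * (MonoidAlgebra.single (s j) 1 - 1) := rfl

theorem FPB_bd_single {n : ℕ} (s : Fin n → H) (j : Fin n) (x : MonoidAlgebra ℚ H) :
    cayD s (Pi.single j x) = x * MonoidAlgebra.single (s j) 1 - x := by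
  rw [FPB_cayD_apply, Finset.sum_eq_single j]
  · rw [Pi.single_eq_same, mul_sub, mul_one]
  · intro i _ hi
    rw [Pi.single_eq_of_ne hi, zero_mul]
  · intro h
    exact absurd (Finset.mem_univ j) h

theorem FPB_ch_bd {n : ℕ} (s : Fin n → H) (k : H) (w : List (Fin n × Bool)) :
    cayD s (FPB_ch s k w) = MonoidAlgebra.single (k * FreeGroup.lift s (FreeGroup.mk w)) 1 -
      MonoidAlgebra.single k 1 := by
  induction w generalizing k with
  | nil =>
    rw [FPB_ch_nil, map_zero, ← FreeGroup.one_eq_mk, map_one, mul_one, sub_self]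
  | cons x w ih =>
    obtain ⟨j, b⟩ := x
    rw [FPB_cons]
    generalize FreeGroup.lift s (FreeGroup.mk w) = v at ih
    cases b with
    | true =>
      rw [cond_true, FPB_ch_true, map_add, FPB_bd_single, ih,
        MonoidAlgebra.single_mul_single, mul_one, ← mul_assoc]
      generalize MonoidAlgebra.single (k * s j) (1 : ℚ) = a
      generalize MonoidAlgebra.single (k * s j * v) (1 : ℚ) = b
      generalize MonoidAlgebra.single k (1 : ℚ) = d
      abel
    | false =>
      rw [cond_false, FPB_ch_false, map_add, map_neg, FPB_bd_single, ih,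
        MonoidAlgebra.single_mul_single, mul_one, inv_mul_cancel_right, ← mul_assoc]
      generalize MonoidAlgebra.single (k * (s j)⁻¹) (1 : ℚ) = a
      generalize MonoidAlgebra.single (k * (s j)⁻¹ * v) (1 : ℚ) = b
      generalize MonoidAlgebra.single k (1 : ℚ) = d
      abel

theorem fp_coc (hFP : FPtwo ℚ H) {n : ℕ} (s : Fin n → H)
    (hs : Subgroup.closure (Set.range s) = ⊤) :
    ∃ (m : ℕ) (r : Fin m → List (Fin n × Bool)),
      (∀ i, FreeGroup.lift s (FreeGroup.mk (r i)) = 1) ∧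
      ∀ c : H → Fin n → ℚ, (∀ k i, cayInt s c k (r i) = 0) →
        ∃ ψ : H → ℚ, ∀ k j, c k j = ψ (k * s j) - ψ k := by
  classical
  have hsurj := FreeGroup.lift_surjective_iff_closure_range_eq_top.2 hs
  have hp : ∀ k : H, ∃ w : List (Fin n × Bool), FreeGroup.lift s (FreeGroup.mk w) = k := by
    intro k
    obtain ⟨x, hx⟩ := hsurj k
    exact ⟨x.toWord, by rw [FreeGroup.mk_toWord, hx]⟩
  choose p hp using hp
  obtain ⟨Z, hZ⟩ := fp2_ker hFP s hs
  let R : Finset (List (Fin n × Bool)) := Z.biUnion fun z => Finset.univ.biUnion fun j =>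
    (z j).coeff.support.image fun k => FPB_loop s p k j
  have hR : ∀ w ∈ R, FreeGroup.lift s (FreeGroup.mk w) = 1 := by
    intro w hw
    obtain ⟨z, -, hw⟩ := Finset.mem_biUnion.1 hw
    obtain ⟨j, -, hw⟩ := Finset.mem_biUnion.1 hw
    obtain ⟨k, -, rfl⟩ := Finset.mem_image.1 hw
    exact FPB_loop_val s p hp k j
  refine ⟨R.card, fun i => (R.equivFin.symm i : List (Fin n × Bool)),
    fun i => hR _ (R.equivFin.symm i).2, ?_⟩
  intro c hc
  have hc' : ∀ k, ∀ w ∈ R, cayInt s c k w = 0 := by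
    intro k w hw
    have h1 : cayInt s c k ((R.equivFin.symm (R.equivFin ⟨w, hw⟩) : {x // x ∈ R}) :
      List (Fin n × Bool)) = 0 := hc k (R.equivFin ⟨w, hw⟩)
    rw [Equiv.symm_apply_apply] at h1
    exact h1
  have hker : ∀ z ∈ LinearMap.ker (cayD s), ∀ g : H,
      FPB_pair (fun k j => c (g * k) j) z = 0 := by
    intro z hz
    rw [← hZ] at hz
    induction hz using Submodule.span_induction with
    | mem z hz =>
      intro g
      have hzk : z ∈ LinearMap.ker (cayD s) := by
        rw [← hZ]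
        exact Submodule.subset_span hz
      rw [FPB_four s (fun k j => c (g * k) j) p hp z hzk]
      refine Finset.sum_eq_zero fun j _ => ?_
      rw [FPB_L_apply]
      refine Finset.sum_eq_zero fun k hk => ?_
      have hw : FPB_loop s p k j ∈ R :=
        Finset.mem_biUnion.2 ⟨z, hz, Finset.mem_biUnion.2 ⟨j, Finset.mem_univ j,
          Finset.mem_image.2 ⟨k, hk, rfl⟩⟩⟩
      rw [FPB_translate, hc' _ _ hw, mul_zero]
    | zero =>
      intro g
      exact map_zero _
    | add x y _ _ hx hy =>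
      intro g
      rw [map_add, hx g, hy g, add_zero]
    | smul a x _ hx =>
      intro g
      exact FPB_smul c x hx a g
  have hzero : ∀ w : List (Fin n × Bool), FreeGroup.lift s (FreeGroup.mk w) = 1 →
      cayInt s c 1 w = 0 := by
    intro w hw
    have h1 : FPB_ch s 1 w ∈ LinearMap.ker (cayD s) := by
      rw [LinearMap.mem_ker, FPB_ch_bd, hw, mul_one, sub_self]
    have h2 := hker _ h1 1
    simp only [one_mul] at h2
    rw [← h2]
    exact (FPB_ch_pair s c 1 w).symm
  refine ⟨fun k => cayInt s c 1 (p k), fun k j => ?_⟩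
  have h1 := hzero _ (FPB_loop_val s p hp k j)
  rw [FPB_loop_int s c p hp k j] at h1
  linarith

end Pool.Agent.H62.CI

end S_H62_CI_FPB

section S_H62_CI_EXZ

/-!
# Existence of `Z` (assembly)
-/

set_option autoImplicit false

namespace Pool.Agent.H60.CI

open Pool.Agent.H62.CI

theorem lam_eq_cayInt {H : Type} [Group H] {n : ℕ} (s : Fin n → H) (c : H → Fin n → ℚ)
    (k : H) (w : List (Fin n × Bool)) : Lam s c k w = cayInt s c k w := by
  induction w generalizing k with
  | nil => rfl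
  | cons a w ih =>
    obtain ⟨j, b⟩ := a
    cases b
    · show - c (k * (s j)⁻¹) j + Lam s c (k * (s j)⁻¹) w = _
      rw [ih]; rfl
    · show c k j + Lam s c (k * s j) w = _
      rw [ih]; rfl

theorem exists_Z {H : Type} [Group H] (B : HCpx H) (hC : B.toCpx.Conn) (hSC : B.toCpx.LolliSC)
    (hfg : Group.FG H) (hFP : FPtwo ℚ H) :
    ∃ Z : HIm B, Z.toIm.toCpx.Conn ∧ Z.HFin ∧ Z.toIm.toCpx.H1Zero := by
  classical
  obtain ⟨S, hS⟩ := Group.fg_def.1 hfg
  obtain ⟨n, s, hs⟩ : ∃ (n : ℕ) (s : Fin n → H), Subgroup.closure (Set.range s) = ⊤ := by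
    refine ⟨S.card, fun i => (S.equivFin.symm i : H), ?_⟩
    rw [← hS]
    congr 1
    ext x
    constructor
    · rintro ⟨i, rfl⟩; exact (S.equivFin.symm i).2
    · intro hx; exact ⟨S.equivFin ⟨x, hx⟩, by simp⟩
  obtain ⟨⟨v⟩, hconn⟩ := hC
  choose ws hws using fun j => hconn v (s j • v)
  obtain ⟨m, r, hr, hcoc⟩ := fp_coc hFP s hs
  have hg : ∀ i, B.toCpx.Walk v (gpath B s ws 1 (r i)) v := by
    intro i
    have h1 := gpath_walk B s ws v hws 1 (r i)
    rwa [ev_eq, hr i, mul_one, one_smul] at h1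
  choose L hL hL' using fun i => hSC v (gpath B s ws 1 (r i)) (hg i)
  let M : Set (List (B.E × Bool) × B.F) := {t | ∃ i, ∃ q ∈ L i, t = (q.1, q.2.1)}
  have hM : ∀ t ∈ M, B.toCpx.Walk v t.1 (B.base t.2) := by
    rintro _ ⟨i, q, hq, rfl⟩
    exact hL i q hq
  have hMf : M.Finite := by
    have : M = ⋃ i, (fun q : List (B.E × Bool) × B.F × Bool => (q.1, q.2.1)) '' {q | q ∈ L i} := by
      ext t
      simp only [M, Set.mem_ofPred_eq, Set.mem_iUnion, Set.mem_image]
      constructor
      · rintro ⟨i, q, hq, rfl⟩; exact ⟨i, q, hq, rfl⟩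
      · rintro ⟨i, q, hq, rfl⟩; exact ⟨i, q, hq, rfl⟩
    rw [this]
    exact Set.finite_iUnion fun i => (List.finite_toSet (L i)).image _
  let D : TD B := TD.of B v s ws hws ∅ (by rintro p ⟨⟩) M hM
  have hT : D.T.Finite := TD.of_T_finite B v s ws hws ∅ (by rintro p ⟨⟩) M hM Set.finite_empty hMf
  refine ⟨D.Z, D.conn hs, D.hfin hT hMf, ?_⟩
  intro b hb
  have hb' : ∀ τ : D.Z.Mks, Cpx.integ b (D.Z.toIm.bdw τ) = 0 := hb
  obtain ⟨ψ, hψ⟩ := hcoc (fun k j => TD.psi0 b (D.wsv k j)) (by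
    intro k i
    rw [← lam_eq_cayInt]
    exact TD.lam_zero (D := D) b hb' k (r i) (L i) (fun t ht => ⟨i, t, ht, rfl⟩) (hL' i))
  obtain ⟨Ψ, _, hΨ⟩ := TD.exact_of (D := D) b hb' ψ (by
    intro k j
    have := hψ k j
    rw [this]
    show ψ (k * s j) = ψ k + (ψ (k * s j) - ψ k)
    ring)
  exact ⟨Ψ, hΨ⟩

end Pool.Agent.H60.CI

end S_H62_CI_EXZ

section S_H62_CI_FPE

/-!
# Row FPE (230 lines): a group acting freely and cofinitely on a weakly simply connected complex is finitely presented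

PROOF. Let `OV, OE` be the (finite) types of orbits of vertices and edges. For a vertex `x` let `rep x` be the chosen representative
(`Quotient.out`) of its orbit and `h x : H` the unique element with `h x • rep x = x` (unique since the action is free); so `rep (g • x) = rep x`,
`h (g • x) = g * h x` and `h (rep x) = 1`.
Let `Fr = FreeGroup OE`, let `η : FreeGroup Z.E →* Fr` be `FreeGroup.map (orbit map)`, and let `Φ : Fr →* H` be `FreeGroup.lift` of the function
`OE → H` which sends the orbit of the edge `ε` to `(h (src ε))⁻¹ * h (tgt ε)` (well defined: invariant under `ε ↦ g • ε`).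
(1) If `Z.Walk x w y` then `Φ (η (FreeGroup.mk w)) = (h x)⁻¹ * h y`. (Induction on `w`; a letter `(ε, b)` contributes
`(h (oS (ε, b)))⁻¹ * h (oT (ε, b))`.)
Fix a vertex `x0` and `z0 = rep x0` (so `h z0 = 1`), and for every vertex `x` a walk `P x` from `z0` to `x`.
Relators: `R1 = {η (mk (bd τ)) | τ : Z.F}`; it is finite, because it only depends on the orbit of `τ` (`bd_smul`; `η (mk (w.map (Prod.map (g • ·) id))) =
η (mk w)`) and there are finitely many orbits of 2-cells. `R2 = {η (mk (P (rep x))) | x : Z.V}`; finite since `rep x` takes finitely many values.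
Let `N = Subgroup.normalClosure (R1 ∪ R2)`.
(2) `N ≤ Φ.ker`: by (1), `Φ (η (mk (bd τ))) = 1` and `Φ (η (mk (P (rep x)))) = (h z0)⁻¹ * h (rep x) = 1`.
(3) If `Z.Walk x w x` then `η (mk w) ∈ N`: by `hW`, `mk w` is in the normal closure of the `mk (bd τ)`, and `η` maps it into `N`
(`Subgroup.normalClosure_le_normal` for `N.comap η`). Hence for two walks `w, w'` from `x` to `y`, `η (mk w)` and `η (mk w')` have the same class in the
quotient group `Q = Fr ⧸ N` (apply this to `w ++ FreeGroup.invRev w'`).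
(4) Define `Ψ : H → Q`, `Ψ g = class of η (mk (P (g • z0)))`. `Ψ (g * g') = Ψ g * Ψ g'`: the walk `P (g • z0)` followed by the translate
by `g` of `P (g' • z0)` is a walk from `z0` to `(g * g') • z0`, and `η` does not change under translation.
(5) `Ψ (Φ x) = class of x` for `x : Fr`: both sides are homomorphisms in `x`, so let `x` be the orbit of the edge `ε`; we may replace `ε` by a translate and
assume `src ε = rep (src ε) =: p` (so `h p = 1`). Let `y = tgt ε = g • q`, `g = h y`, `q = rep y`. Then `Φ x = g`. The walk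
`P p ++ [(ε, true)] ++ FreeGroup.invRev (g • P q)` goes from `z0` to `g • z0`; its class is
`class (η (mk (P p))) * x * class (η (mk (P q)))⁻¹ = x`, since `η (mk (P p)), η (mk (P q)) ∈ R2`. By (3) this is `Ψ g`.
(6) So `Φ.ker ≤ N`: if `Φ x = 1` then the class of `x` is `Ψ 1 = 1` (by (3) for the closed walk `P z0`, or since `Ψ` is a homomorphism).
(7) `Φ` is surjective: for `g : H`, (1) for `P (g • z0)` gives `Φ (η (mk (P (g • z0)))) = (h z0)⁻¹ * h (g • z0) = g`.
Conclude with `Group.IsFinitelyPresented.of_surjective Φ` (`FreeGroup OE` is finitely presented by an instance) and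
`Φ.ker = N = Subgroup.normalClosure (R1 ∪ R2)`.
-/

set_option autoImplicit false

namespace Pool.Agent.H60.CI

namespace FPE

variable {H : Type} [Group H] (Z : HCpx H)

/-- the chosen representative of the orbit -/
noncomputable def rep (x : Z.V) : Z.V :=
  Quotient.out (Quotient.mk (MulAction.orbitRel H Z.V) x)

theorem rep_ex (x : Z.V) : ∃ g : H, g • rep Z x = x := by
  have h : (MulAction.orbitRel H Z.V) (rep Z x) x :=
    Quotient.exact (Quotient.out_eq (Quotient.mk (MulAction.orbitRel H Z.V) x))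
  obtain ⟨g, hg⟩ := MulAction.orbitRel_apply.1 h
  have hg' : g • x = rep Z x := hg
  exact ⟨g⁻¹, by rw [← hg', inv_smul_smul]⟩

/-- the coordinate in the orbit -/
noncomputable def hh (x : Z.V) : H := (rep_ex Z x).choose

theorem hh_spec (x : Z.V) : hh Z x • rep Z x = x := (rep_ex Z x).choose_spec

theorem cancel {g g' : H} {x : Z.V} (h : g • x = g' • x) : g = g' := by
  have h1 : (g'⁻¹ * g) • x = x := by rw [mul_smul, h, inv_smul_smul]
  have h2 := Z.free _ _ h1
  exact (inv_mul_eq_one.1 h2).symm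

theorem rep_smul (g : H) (x : Z.V) : rep Z (g • x) = rep Z x := by
  unfold rep
  congr 1
  exact Quotient.sound (MulAction.orbitRel_apply.2 ⟨g, rfl⟩)

theorem hh_smul (g : H) (x : Z.V) : hh Z (g • x) = g * hh Z x := by
  have h1 := hh_spec Z (g • x)
  rw [rep_smul] at h1
  refine cancel Z (x := rep Z x) ?_
  rw [h1, mul_smul, hh_spec]

theorem rep_rep (x : Z.V) : rep Z (rep Z x) = rep Z x := by
  have h1 : rep Z x = (hh Z x)⁻¹ • x := eq_inv_smul_iff.2 (hh_spec Z x)
  conv_lhs => rw [h1]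
  rw [rep_smul]

theorem hh_rep (x : Z.V) : hh Z (rep Z x) = 1 := by
  have h1 := hh_spec Z (rep Z x)
  rw [rep_rep] at h1
  exact Z.free _ _ h1

/-- the orbit of an edge -/
def oe (ε : Z.E) : MulAction.orbitRel.Quotient H Z.E := Quotient.mk (MulAction.orbitRel H Z.E) ε

theorem oe_smul (g : H) (ε : Z.E) : oe Z (g • ε) = oe Z ε :=
  Quotient.sound (MulAction.orbitRel_apply.2 ⟨g, rfl⟩)

/-- the projection of words -/
noncomputable def eta : FreeGroup Z.E →* FreeGroup (MulAction.orbitRel.Quotient H Z.E) :=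
  FreeGroup.map (oe Z)

/-- the value on a generator -/
noncomputable def ph0 : MulAction.orbitRel.Quotient H Z.E → H :=
  Quotient.lift (fun ε : Z.E => (hh Z (Z.src ε))⁻¹ * hh Z (Z.tgt ε)) (by
    intro a b h
    obtain ⟨g, hg⟩ := MulAction.orbitRel_apply.1 h
    have hg' : g • b = a := hg
    show (hh Z (Z.src a))⁻¹ * hh Z (Z.tgt a) = (hh Z (Z.src b))⁻¹ * hh Z (Z.tgt b)
    rw [← hg', Z.src_smul, Z.tgt_smul, hh_smul, hh_smul]
    group)

theorem ph0_oe (ε : Z.E) : ph0 Z (oe Z ε) = (hh Z (Z.src ε))⁻¹ * hh Z (Z.tgt ε) := rfl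

/-- the homomorphism onto `H` -/
noncomputable def Ph : FreeGroup (MulAction.orbitRel.Quotient H Z.E) →* H := FreeGroup.lift (ph0 Z)

theorem eta_mk (w : List (Z.E × Bool)) :
    eta Z (FreeGroup.mk w) = FreeGroup.mk (w.map fun x => (oe Z x.1, x.2)) := by
  unfold eta
  rw [FreeGroup.map.mk]

theorem eta_tr (g : H) (w : List (Z.E × Bool)) :
    eta Z (FreeGroup.mk (w.map (Prod.map (g • ·) id))) = eta Z (FreeGroup.mk w) := by
  rw [eta_mk, eta_mk, List.map_map]
  congr 1
  apply List.map_congr_left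
  intro a _
  show (oe Z (g • a.1), a.2) = (oe Z a.1, a.2)
  rw [oe_smul]

theorem walk_tr (g : H) {x y : Z.V} {w : List (Z.E × Bool)} (h : Z.Walk x w y) :
    Z.Walk (g • x) (w.map (Prod.map (g • ·) id)) (g • y) := by
  induction w generalizing x with
  | nil => exact congrArg (g • ·) h
  | cons a w ih =>
    obtain ⟨h1, h2⟩ := h
    have h3 := ih h2
    obtain ⟨e, b⟩ := a
    refine ⟨?_, ?_⟩
    · rw [← h1]
      cases b
      · exact Z.tgt_smul g e
      · exact Z.src_smul g e
    · have h4 : oT Z.src Z.tgt (Prod.map (g • ·) id (e, b)) = g • oT Z.src Z.tgt (e, b) := by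
        cases b
        · exact Z.src_smul g e
        · exact Z.tgt_smul g e
      rw [h4]
      exact h3

theorem Ph_walk {x y : Z.V} {w : List (Z.E × Bool)} (h : Z.Walk x w y) :
    Ph Z (eta Z (FreeGroup.mk w)) = (hh Z x)⁻¹ * hh Z y := by
  induction w generalizing x with
  | nil =>
    have h' : x = y := h
    subst h'
    have : (FreeGroup.mk [] : FreeGroup Z.E) = 1 := rfl
    rw [this, map_one, map_one, inv_mul_cancel]
  | cons a w ih =>
    obtain ⟨h1, h2⟩ := h
    have h3 := ih h2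
    have h4 : (FreeGroup.mk (a :: w) : FreeGroup Z.E) = FreeGroup.mk [a] * FreeGroup.mk w := by
      rw [FreeGroup.mul_mk]
      rfl
    rw [h4, map_mul, map_mul, h3]
    have h5 : Ph Z (eta Z (FreeGroup.mk [a])) = (hh Z x)⁻¹ * hh Z (oT Z.src Z.tgt a) := by
      rw [eta_mk]
      unfold Ph
      rw [FreeGroup.lift_mk]
      rw [← h1]
      obtain ⟨e, b⟩ := a
      cases b
      · simp [ph0_oe, oS, oT]
      · simp [ph0_oe, oS, oT]
    rw [h5]
    group

end FPE

theorem fp_end {H : Type} [Group H] (Z : HCpx H) (hC : Z.toCpx.Conn)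
    (hV : Finite (MulAction.orbitRel.Quotient H Z.V)) (hE : Finite (MulAction.orbitRel.Quotient H Z.E))
    (hF : Finite (MulAction.orbitRel.Quotient H Z.F))
    (hW : ∀ (v : Z.V) (w : List (Z.E × Bool)), Z.Walk v w v →
      FreeGroup.mk w ∈ Subgroup.normalClosure (Set.range fun τ : Z.F => FreeGroup.mk (Z.bd τ))) :
    Group.IsFinitelyPresented H := by
  obtain ⟨⟨x0⟩, hP⟩ := hC
  obtain ⟨z0, hz0⟩ : ∃ z0, z0 = FPE.rep Z x0 := ⟨_, rfl⟩
  have hhz0 : FPE.hh Z z0 = 1 := by rw [hz0, FPE.hh_rep]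
  choose P hPw using hP z0
  obtain ⟨N, hN⟩ : ∃ N : Subgroup (FreeGroup (MulAction.orbitRel.Quotient H Z.E)),
    N = Subgroup.normalClosure ((Set.range fun τ : Z.F => FPE.eta Z (FreeGroup.mk (Z.bd τ))) ∪
      (Set.range fun x : Z.V => FPE.eta Z (FreeGroup.mk (P (FPE.rep Z x))))) := ⟨_, rfl⟩
  have hNn : N.Normal := by
    rw [hN]
    exact Subgroup.normalClosure_normal
  have hR1 : ∀ τ : Z.F, FPE.eta Z (FreeGroup.mk (Z.bd τ)) ∈ N := fun τ => by
    rw [hN]
    exact Subgroup.subset_normalClosure (Or.inl ⟨τ, rfl⟩)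
  have hR2 : ∀ x : Z.V, FPE.eta Z (FreeGroup.mk (P (FPE.rep Z x))) ∈ N := fun x => by
    rw [hN]
    exact Subgroup.subset_normalClosure (Or.inr ⟨x, rfl⟩)
  -- closed walks
  have hcl : ∀ (x : Z.V) (w : List (Z.E × Bool)), Z.Walk x w x → FPE.eta Z (FreeGroup.mk w) ∈ N := by
    intro x w hw
    have h1 := hW x w hw
    have h2 : Subgroup.normalClosure (Set.range fun τ : Z.F => FreeGroup.mk (Z.bd τ)) ≤
        N.comap (FPE.eta Z) := by
      refine Subgroup.normalClosure_le_normal ?_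
      rintro _ ⟨τ, rfl⟩
      exact hR1 τ
    exact h2 h1
  have hpar : ∀ (x y : Z.V) (w w' : List (Z.E × Bool)), Z.Walk x w y → Z.Walk x w' y →
      QuotientGroup.mk' N (FPE.eta Z (FreeGroup.mk w)) =
        QuotientGroup.mk' N (FPE.eta Z (FreeGroup.mk w')) := by
    intro x y w w' h h'
    have h1 : Z.Walk x (w ++ FreeGroup.invRev w') x := isWalk_append.2 ⟨y, h, isWalk_invRev h'⟩
    have h2 := hcl x _ h1
    rw [← FreeGroup.mul_mk, ← FreeGroup.inv_mk, map_mul, map_inv] at h2
    have h3 : QuotientGroup.mk' N (FPE.eta Z (FreeGroup.mk w) *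
        (FPE.eta Z (FreeGroup.mk w'))⁻¹) = 1 := (QuotientGroup.eq_one_iff _).2 h2
    rw [map_mul, map_inv] at h3
    exact mul_inv_eq_one.1 h3
  have hone : ∀ x : FreeGroup (MulAction.orbitRel.Quotient H Z.E), x ∈ N →
      QuotientGroup.mk' N x = 1 := fun x hx => (QuotientGroup.eq_one_iff _).2 hx
  obtain ⟨Ψ, hΨ⟩ : ∃ Ψ : H →* (FreeGroup (MulAction.orbitRel.Quotient H Z.E) ⧸ N),
      ∀ g, Ψ g = QuotientGroup.mk' N (FPE.eta Z (FreeGroup.mk (P (g • z0)))) := by
    refine ⟨MonoidHom.mk' (fun g => QuotientGroup.mk' N (FPE.eta Z (FreeGroup.mk (P (g • z0)))))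
      ?_, fun g => rfl⟩
    intro g g'
    have h1 : Z.Walk z0 (P (g • z0) ++ (P (g' • z0)).map (Prod.map (g • ·) id))
        ((g * g') • z0) := by
      refine isWalk_append.2 ⟨g • z0, hPw _, ?_⟩
      rw [mul_smul]
      exact FPE.walk_tr Z g (hPw _)
    have h2 := hpar _ _ _ _ (hPw ((g * g') • z0)) h1
    rw [← FreeGroup.mul_mk, map_mul, map_mul, FPE.eta_tr] at h2
    exact h2
  have hcomp : Ψ.comp (FPE.Ph Z) = QuotientGroup.mk' N := by
    refine FreeGroup.ext_hom _ _ fun a => ?_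
    induction a using Quotient.ind with
    | _ ε0 =>
      obtain ⟨ε, hε⟩ : ∃ ε, ε = (FPE.hh Z (Z.src ε0))⁻¹ • ε0 := ⟨_, rfl⟩
      have h1 : (Quotient.mk (MulAction.orbitRel H Z.E) ε0) = FPE.oe Z ε := by
        rw [hε, FPE.oe_smul]
        rfl
      have h2 : Z.src ε = FPE.rep Z (Z.src ε0) := by
        rw [hε, Z.src_smul]
        exact inv_smul_eq_iff.2 (FPE.hh_spec Z (Z.src ε0)).symm
      have h3 : FPE.Ph Z (FreeGroup.of (FPE.oe Z ε)) = FPE.hh Z (Z.tgt ε) := by
        unfold FPE.Ph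
        rw [FreeGroup.lift_apply_of, FPE.ph0_oe, h2, FPE.hh_rep, inv_one, one_mul]
      rw [h1, MonoidHom.comp_apply, h3, hΨ]
      have h4 : Z.Walk z0 (P (FPE.rep Z (Z.src ε0)) ++ ([(ε, true)] ++ FreeGroup.invRev
          ((P (FPE.rep Z (Z.tgt ε))).map (Prod.map (FPE.hh Z (Z.tgt ε) • ·) id))))
          (FPE.hh Z (Z.tgt ε) • z0) := by
        refine isWalk_append.2 ⟨FPE.rep Z (Z.src ε0), hPw _, ?_⟩
        refine isWalk_append.2 ⟨Z.tgt ε, ⟨?_, rfl⟩, ?_⟩
        · exact h2
        · have h5 := FPE.walk_tr Z (FPE.hh Z (Z.tgt ε)) (hPw (FPE.rep Z (Z.tgt ε)))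
          rw [FPE.hh_spec] at h5
          exact isWalk_invRev h5
      rw [hpar _ _ _ _ (hPw _) h4, ← FreeGroup.mul_mk, ← FreeGroup.mul_mk, ← FreeGroup.inv_mk,
        map_mul, map_mul, map_mul, map_mul, map_inv, map_inv, FPE.eta_tr, hone _ (hR2 _),
        hone _ (hR2 _), one_mul, inv_one, mul_one, FPE.eta_mk]
      rfl
  -- the kernel
  have hker : (FPE.Ph Z).ker = N := by
    apply le_antisymm
    · intro x hx
      have h1 : Ψ (FPE.Ph Z x) = QuotientGroup.mk' N x := by
        rw [← MonoidHom.comp_apply, hcomp]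
      rw [MonoidHom.mem_ker.1 hx, map_one] at h1
      exact (QuotientGroup.eq_one_iff x).1 h1.symm
    · rw [hN]
      refine Subgroup.normalClosure_le_normal ?_
      rintro _ (⟨τ, rfl⟩ | ⟨x, rfl⟩)
      · show FPE.Ph Z (FPE.eta Z (FreeGroup.mk (Z.bd τ))) = 1
        rw [FPE.Ph_walk Z (Z.bd_walk τ), inv_mul_cancel]
      · show FPE.Ph Z (FPE.eta Z (FreeGroup.mk (P (FPE.rep Z x)))) = 1
        rw [FPE.Ph_walk Z (hPw _), hhz0, FPE.hh_rep, inv_one, one_mul]
  have hsurj : Function.Surjective (FPE.Ph Z) := by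
    intro g
    refine ⟨FPE.eta Z (FreeGroup.mk (P (g • z0))), ?_⟩
    rw [FPE.Ph_walk Z (hPw _), hhz0, inv_one, one_mul, FPE.hh_smul, hhz0, mul_one]
  refine Group.IsFinitelyPresented.of_surjective (FPE.Ph Z) hsurj ⟨_, ?_, (hker.trans hN).symm⟩
  refine Set.Finite.union ?_ ?_
  · obtain ⟨f', hf'⟩ : ∃ f' : MulAction.orbitRel.Quotient H Z.F →
        FreeGroup (MulAction.orbitRel.Quotient H Z.E),
        ∀ τ : Z.F, f' (Quotient.mk (MulAction.orbitRel H Z.F) τ) =
          FPE.eta Z (FreeGroup.mk (Z.bd τ)) := by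
      refine ⟨Quotient.lift (fun τ : Z.F => FPE.eta Z (FreeGroup.mk (Z.bd τ))) ?_, fun τ => rfl⟩
      intro a b h
      obtain ⟨g, hg⟩ := MulAction.orbitRel_apply.1 h
      have hg' : g • b = a := hg
      show FPE.eta Z (FreeGroup.mk (Z.bd a)) = FPE.eta Z (FreeGroup.mk (Z.bd b))
      rw [← hg', Z.bd_smul, FPE.eta_tr]
    refine (Set.finite_range f').subset ?_
    rintro _ ⟨τ, rfl⟩
    exact ⟨_, hf' τ⟩
  · refine (Set.finite_range (fun q : MulAction.orbitRel.Quotient H Z.V =>
      FPE.eta Z (FreeGroup.mk (P (Quotient.out q))))).subset ?_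
    rintro _ ⟨x, rfl⟩
    exact ⟨Quotient.mk (MulAction.orbitRel H Z.V) x, rfl⟩

end Pool.Agent.H60.CI

end S_H62_CI_FPE

section S_H62_CI_FPF

/-!
# Finiteness of the sets of orbits of cells of an immersed complex which is finite modulo the group
-/

set_option autoImplicit false

namespace Pool.Agent.H60.CI

variable {H : Type} [Group H] {B : HCpx H}

theorem fpf_orb {T : Type} [MulAction H T] (S : Set T) (hS : S.Finite)
    (h : ∀ x : T, ∃ k : H, ∃ s ∈ S, x = k • s) : Finite (MulAction.orbitRel.Quotient H T) := by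
  have := hS.to_subtype
  refine Finite.of_surjective
    (fun s : S => (Quotient.mk'' (s : T) : MulAction.orbitRel.Quotient H T)) ?_
  intro q
  induction q using Quotient.ind with
  | _ x =>
    obtain ⟨k, s, hs, rfl⟩ := h x
    exact ⟨⟨s, hs⟩, Quotient.sound ⟨k⁻¹, inv_smul_smul k s⟩⟩

theorem fpf_V (Z : HIm B) (hF : Z.HFin) : Finite (MulAction.orbitRel.Quotient H Z.toHCpx.V) := by
  obtain ⟨S, hS⟩ := hF.orb
  exact fpf_orb (T := Z.V) (S : Set Z.V) S.finite_toSet hS

theorem fpf_E (Z : HIm B) (hF : Z.HFin) : Finite (MulAction.orbitRel.Quotient H Z.toHCpx.E) := by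
  obtain ⟨S, hS⟩ := hF.orb
  refine fpf_orb (T := Z.Edg) {ε | Z.esrc ε ∈ S} ?_ ?_
  · have h1 : {ε : Z.Edg | Z.esrc ε ∈ S} ⊆ ⋃ x ∈ S, {ε : Z.Edg | Z.esrc ε = x} := by
      intro ε hε
      simp only [Set.mem_iUnion]
      exact ⟨_, hε, rfl⟩
    refine Set.Finite.subset (Set.Finite.biUnion S.finite_toSet fun x _ => ?_) h1
    refine Set.Finite.of_finite_image (f := Z.epr) ?_ ?_
    · refine (hF.out x).subset ?_
      rintro _ ⟨ε, hε, rfl⟩
      have h2 : Z.esrc ε = x := hε
      exact ⟨Z.etgt ε, by rw [← h2]; exact ε.2⟩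
    · intro ε hε ε' hε' he
      have h2 : Z.esrc ε = x := hε
      have h3 : Z.esrc ε' = x := hε'
      exact Z.toIm.hom_isImm.src_inj ε ε' (h2.trans h3.symm) he
  · intro ε
    obtain ⟨k, s, hs, hx⟩ := hS (Z.esrc ε)
    refine ⟨k, k⁻¹ • ε, ?_, (smul_inv_smul k ε).symm⟩
    show k⁻¹ • Z.esrc ε ∈ S
    rw [hx, inv_smul_smul]
    exact hs

theorem fpf_F (Z : HIm B) (hF : Z.HFin) : Finite (MulAction.orbitRel.Quotient H Z.toHCpx.F) := by
  obtain ⟨S, hS⟩ := hF.orb
  refine fpf_orb (T := Z.Mks) {τ | Z.mbase τ ∈ S} ?_ ?_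
  · have h1 : {τ : Z.Mks | Z.mbase τ ∈ S} ⊆ ⋃ x ∈ S, {τ : Z.Mks | Z.mbase τ = x} := by
      intro τ hτ
      simp only [Set.mem_iUnion]
      exact ⟨_, hτ, rfl⟩
    refine Set.Finite.subset (Set.Finite.biUnion S.finite_toSet fun x _ => ?_) h1
    refine Set.Finite.of_finite_image (f := Z.mpr) ?_ ?_
    · refine (hF.mks x).subset ?_
      rintro _ ⟨τ, hτ, rfl⟩
      have h2 : Z.mbase τ = x := hτ
      have h3 : Z.mark (Z.mbase τ) (Z.mpr τ) := τ.2
      rw [h2] at h3
      exact h3
    · intro τ hτ τ' hτ' he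
      have h2 : Z.mbase τ = x := hτ
      have h3 : Z.mbase τ' = x := hτ'
      exact Z.mks_ext (h2.trans h3.symm) he
  · intro τ
    obtain ⟨k, s, hs, hx⟩ := hS (Z.mbase τ)
    refine ⟨k, k⁻¹ • τ, ?_, (smul_inv_smul k τ).symm⟩
    show k⁻¹ • Z.mbase τ ∈ S
    rw [hx, inv_smul_smul]
    exact hs

theorem fp_of_weakSC_aux (Z : HIm B) (hC : Z.toHCpx.toCpx.Conn) (hF : Z.HFin)
    (hW : ∀ (v : Z.toHCpx.V) (w : List (Z.toHCpx.E × Bool)), Z.toHCpx.toCpx.Walk v w v →
      FreeGroup.mk w ∈ Subgroup.normalClosure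
        (Set.range fun τ : Z.toHCpx.F => FreeGroup.mk (Z.toHCpx.bd τ))) :
    Group.IsFinitelyPresented H :=
  fp_end Z.toHCpx hC (fpf_V Z hF) (fpf_E Z hF) (fpf_F Z hF) hW

end Pool.Agent.H60.CI

end S_H62_CI_FPF

section S_H62_CI_EXM

/-!
# Existence of a minimal `Z`; finite presentation at the end
-/

set_option autoImplicit false

namespace Pool.Agent.H60.CI

open Pool.Agent.H62.CI

variable {H : Type} [Group H]

theorem exists_good (B : HCpx H) (hC : B.toCpx.Conn) (hSC : B.toCpx.LolliSC)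
    (hfg : Group.FG H) (hFP : FPtwo ℚ H) : ∃ Z : HIm B, Z.Good := by
  obtain ⟨Z, h1, h2, h3⟩ := exists_Z B hC hSC hfg hFP
  exact ⟨Z, ⟨h1, h2, H1z_of_H1Zero h3⟩⟩

theorem exists_min (B : HCpx H) (h : ∃ Z : HIm B, Z.Good) :
    ∃ Z : HIm B, Z.Good ∧ ∀ Z' : HIm B, Z'.Good → Z.orbs ≤ Z'.orbs := by
  classical
  have hex : ∃ n, ∃ Z : HIm B, Z.Good ∧ Z.orbs = n := by
    obtain ⟨Z, hZ⟩ := h
    exact ⟨_, Z, hZ, rfl⟩
  obtain ⟨Z, hZ, hn⟩ := Nat.find_spec hex
  refine ⟨Z, hZ, fun Z' hZ' => ?_⟩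
  rw [hn]
  exact Nat.find_min' hex ⟨Z', hZ', rfl⟩

theorem fp_of_weakSC {B : HCpx H} (Z : HIm B) (hC : Z.toHCpx.toCpx.Conn) (hF : Z.HFin)
    (hW : Z.toHCpx.toCpx.WeakSC) : Group.IsFinitelyPresented H :=
  fp_of_weakSC_aux Z hC hF hW

end Pool.Agent.H60.CI

end S_H62_CI_EXM

section S_H62_CI_FPZ

/-!
# Row FPZ (170 lines): type FP_2 over ℤ implies type FP_2 over ℚ

PROOF. Let `ι : MonoidAlgebra ℤ H →+* MonoidAlgebra ℚ H` be the ring homomorphism induced by `ℤ → ℚ` (`MonoidAlgebra.mapRangeRingHom` /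
coefficientwise cast); it is injective, and every `x : MonoidAlgebra ℚ H` has `m • x = ι x'` for some `m : ℕ`, `m ≠ 0` (common denominator of the
finitely many coefficients; e.g. `IsLocalization.exist_integer_multiples_of_finset (nonZeroDivisors ℤ)` or a product of the denominators). The same for
finitely many entries: for `x : Fin b → MonoidAlgebra ℚ H` there are `m ≠ 0` and `x'` with `m • x = ι ∘ x'`.
Let `ε, d₁, d₂` be the data over ℤ. Put (matrices): `D₁ x = ∑ j, x j • (ι ∘ d₁ (Pi.single j 1))`, `D₂` similarly, and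
`E x = ∑ i, (x i).coeff.sum (fun _ q => q * (ε (Pi.single i 1) : ℚ))`, a ℚ-linear, `H`-invariant map. Then
`D₁ (ι ∘ y) = ι ∘ (d₁ y)`, `D₂ (ι ∘ y) = ι ∘ (d₂ y)` (write `y = ∑ y_j • Pi.single j 1`) and `E (ι ∘ x) = (ε x : ℚ)` (write `x = ∑ x_i • Pi.single i 1` and
`x_i = ∑ single h (x_i h)`; `ε (single h r • e_i) = r * ε e_i` by ℤ-linearity and invariance).
* `E` is surjective: `ε x0 = 1` for some `x0` and `E (q • (ι ∘ x0)) = q`.
* `E x = 0 ↔ ∃ y, D₁ y = x`. If `x = D₁ y`: choose `m ≠ 0` with `m • y = ι ∘ y'`; `m * E x = E (D₁ (ι ∘ y')) = ε (d₁ y') = 0`. If `E x = 0`: choose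
  `m • x = ι ∘ x'`; `ε x' = 0` so `x' = d₁ y'` and `x = D₁ (m⁻¹ • (ι ∘ y'))` (`D₁` is ℚ-linear).
* `D₁ x = 0 ↔ ∃ y, D₂ y = x` in the same way, using the injectivity of `ι`.
-/

set_option autoImplicit false

namespace Pool.Agent.H62.CI

variable {H : Type} [Group H]

/-- the embedding of the group rings -/
noncomputable def FPZ_i (H : Type) [Group H] : MonoidAlgebra ℤ H →+* MonoidAlgebra ℚ H :=
  MonoidAlgebra.mapRingHom H (Int.castRingHom ℚ)

theorem FPZ_coeff (x : MonoidAlgebra ℤ H) (k : H) :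
    (FPZ_i H x).coeff k = (x.coeff k : ℚ) := by
  unfold FPZ_i
  rw [MonoidAlgebra.coeff_mapRingHom]
  rfl

theorem FPZ_single (k : H) (r : ℤ) :
    FPZ_i H (MonoidAlgebra.single k r) = MonoidAlgebra.single k (r : ℚ) := by
  unfold FPZ_i
  rw [MonoidAlgebra.mapRingHom_single]
  rfl

theorem FPZ_inj : Function.Injective (FPZ_i H) := by
  intro x y hxy
  ext k
  have h1 : (FPZ_i H x).coeff k = (FPZ_i H y).coeff k := by rw [hxy]
  rw [FPZ_coeff, FPZ_coeff] at h1
  exact_mod_cast h1

theorem FPZ_smul (m : ℤ) (x : MonoidAlgebra ℤ H) :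
    (m : ℚ) • FPZ_i H x = FPZ_i H (m • x) := by
  ext k
  rw [MonoidAlgebra.coeff_smul_apply, FPZ_coeff, FPZ_coeff, MonoidAlgebra.coeff_smul_apply]
  simp

theorem FPZ_den1 (x : MonoidAlgebra ℚ H) :
    ∃ m : ℤ, m ≠ 0 ∧ ∃ x' : MonoidAlgebra ℤ H, (m : ℚ) • x = FPZ_i H x' := by
  induction x using MonoidAlgebra.induction_linear with
  | zero => exact ⟨1, one_ne_zero, 0, by simp⟩
  | add x y hx hy =>
    obtain ⟨m, hm, x', hx'⟩ := hx
    obtain ⟨k, hk, y', hy'⟩ := hy
    refine ⟨m * k, mul_ne_zero hm hk, k • x' + m • y', ?_⟩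
    rw [map_add, ← FPZ_smul, ← FPZ_smul, ← hx', ← hy', smul_add, smul_smul, smul_smul]
    push_cast
    rw [mul_comm (k : ℚ) (m : ℚ)]
  | single h r =>
    refine ⟨r.den, by exact_mod_cast r.den_nz, MonoidAlgebra.single h r.num, ?_⟩
    rw [FPZ_single, MonoidAlgebra.smul_single, smul_eq_mul]
    congr 1
    push_cast
    rw [mul_comm]
    exact Rat.mul_den_eq_num r

theorem FPZ_den {b : ℕ} (x : Fin b → MonoidAlgebra ℚ H) :
    ∃ m : ℤ, m ≠ 0 ∧ ∃ x' : Fin b → MonoidAlgebra ℤ H,
      (m : ℚ) • x = fun j => FPZ_i H (x' j) := by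
  choose m hm x' hx' using fun j => FPZ_den1 (x j)
  have h1 : ∀ j, ∃ c : ℤ, ∏ i, m i = m j * c := fun j =>
    Finset.dvd_prod_of_mem m (Finset.mem_univ j)
  choose c hc using h1
  refine ⟨∏ i, m i, Finset.prod_ne_zero_iff.2 fun i _ => hm i, fun j => c j • x' j, ?_⟩
  funext j
  rw [← FPZ_smul, ← hx', Pi.smul_apply, smul_smul, hc j]
  push_cast
  rw [mul_comm]

/-- the matrix map -/
noncomputable def FPZ_D {a b : ℕ}
    (d : (Fin b → MonoidAlgebra ℤ H) →ₗ[MonoidAlgebra ℤ H] (Fin a → MonoidAlgebra ℤ H)) :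
    (Fin b → MonoidAlgebra ℚ H) →ₗ[MonoidAlgebra ℚ H] (Fin a → MonoidAlgebra ℚ H) where
  toFun := fun x i => ∑ j, x j * FPZ_i H (d (Pi.single j 1) i)
  map_add' := fun x y => by
    funext i
    simp [add_mul, Finset.sum_add_distrib]
  map_smul' := fun r x => by
    funext i
    simp [Finset.mul_sum, mul_assoc]

theorem FPZ_D_i {a b : ℕ}
    (d : (Fin b → MonoidAlgebra ℤ H) →ₗ[MonoidAlgebra ℤ H] (Fin a → MonoidAlgebra ℤ H))
    (y : Fin b → MonoidAlgebra ℤ H) :
    FPZ_D d (fun j => FPZ_i H (y j)) = fun i => FPZ_i H (d y i) := by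
  funext i
  have h1 : d y = ∑ j, y j • d (Pi.single j 1) := by
    have h2 : y = ∑ j, y j • (Pi.single j 1 : Fin b → MonoidAlgebra ℤ H) := by
      funext k
      rw [Finset.sum_apply, Finset.sum_eq_single k]
      · simp
      · intro j _ hj
        simp [hj.symm]
      · intro h
        exact absurd (Finset.mem_univ k) h
    conv_lhs => rw [h2]
    rw [map_sum]
    exact Finset.sum_congr rfl fun j _ => map_smul d _ _
  rw [h1, Finset.sum_apply, map_sum]
  change ∑ j, FPZ_i H (y j) * FPZ_i H (d (Pi.single j 1) i) = _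
  refine Finset.sum_congr rfl fun j _ => ?_
  rw [Pi.smul_apply, smul_eq_mul, map_mul]

theorem FPZ_D_smul {a b : ℕ}
    (d : (Fin b → MonoidAlgebra ℤ H) →ₗ[MonoidAlgebra ℤ H] (Fin a → MonoidAlgebra ℤ H))
    (m : ℚ) (x : Fin b → MonoidAlgebra ℚ H) : FPZ_D d (m • x) = m • FPZ_D d x := by
  funext i
  change ∑ j, (m • x) j * FPZ_i H (d (Pi.single j 1) i) =
    m • ∑ j, x j * FPZ_i H (d (Pi.single j 1) i)
  rw [Finset.smul_sum]
  exact Finset.sum_congr rfl fun j _ => by rw [Pi.smul_apply, smul_mul_assoc]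

omit [Group H] in
theorem FPZ_aug_single (k : H) (r : ℚ) : aug (MonoidAlgebra.single k r) = r := by
  change (MonoidAlgebra.single k r).coeff.sum (fun _ r => r) = r
  rw [MonoidAlgebra.coeff_single]
  exact Finsupp.sum_single_index rfl

theorem FPZ_aug_inv (k : H) (z : MonoidAlgebra ℚ H) :
    aug (MonoidAlgebra.single k (1 : ℚ) * z) = aug z := by
  induction z using MonoidAlgebra.induction_linear with
  | zero => simp
  | add x y hx hy => rw [mul_add, map_add, map_add, hx, hy]
  | single h r =>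
    rw [MonoidAlgebra.single_mul_single, FPZ_aug_single, FPZ_aug_single, one_mul]

/-- the augmentation -/
noncomputable def FPZ_E {a : ℕ} (ε : (Fin a → MonoidAlgebra ℤ H) →ₗ[ℤ] ℤ) :
    (Fin a → MonoidAlgebra ℚ H) →ₗ[ℚ] ℚ where
  toFun := fun x => ∑ i, aug (x i) * (ε (Pi.single i 1) : ℚ)
  map_add' := fun x y => by
    simp [add_mul, Finset.sum_add_distrib]
  map_smul' := fun r x => by
    simp [Finset.mul_sum, mul_assoc]

theorem FPZ_E_i {a : ℕ} (ε : (Fin a → MonoidAlgebra ℤ H) →ₗ[ℤ] ℤ)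
    (hε : ∀ (h : H) x, ε (MonoidAlgebra.single h (1 : ℤ) • x) = ε x)
    (x : Fin a → MonoidAlgebra ℤ H) : FPZ_E ε (fun i => FPZ_i H (x i)) = (ε x : ℚ) := by
  have h1 : ∀ i (z : MonoidAlgebra ℤ H),
      aug (FPZ_i H z) * (ε (Pi.single i 1) : ℚ) = (ε (Pi.single i z) : ℚ) := by
    intro i z
    induction z using MonoidAlgebra.induction_linear with
    | zero => simp
    | add x y hx hy =>
      rw [map_add, map_add, add_mul, hx, hy, Pi.single_add, map_add]
      push_cast
      rfl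
    | single h r =>
      rw [FPZ_single, FPZ_aug_single]
      have h2 : (Pi.single i (MonoidAlgebra.single h r) : Fin a → MonoidAlgebra ℤ H) =
          r • (MonoidAlgebra.single h (1 : ℤ) • Pi.single i 1) := by
        funext k
        by_cases hk : k = i
        · subst hk
          simp only [Pi.single_eq_same, Pi.smul_apply, smul_eq_mul, mul_one]
          rw [MonoidAlgebra.smul_single]
          simp
        · simp [hk]
      rw [h2, map_smul, hε]
      simp
  have h2 : ε x = ∑ i, ε (Pi.single i (x i)) := by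
    conv_lhs => rw [← Finset.univ_sum_single x]
    rw [map_sum]
  rw [h2]
  push_cast
  change ∑ i, aug (FPZ_i H (x i)) * (ε (Pi.single i 1) : ℚ) = _
  exact Finset.sum_congr rfl fun i _ => h1 i (x i)

theorem fptwo_rat {H : Type} [Group H] (h : FPtwo ℤ H) : FPtwo ℚ H := by
  obtain ⟨a, b, c, ε, d₁, d₂, hinv, hsurj, hex1, hex2⟩ := h
  refine ⟨a, b, c, FPZ_E ε, FPZ_D d₁, FPZ_D d₂, ?_, ?_, ?_, ?_⟩
  · intro h x
    change ∑ i, aug ((MonoidAlgebra.single h (1 : ℚ) • x) i) * (ε (Pi.single i 1) : ℚ) =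
      ∑ i, aug (x i) * (ε (Pi.single i 1) : ℚ)
    refine Finset.sum_congr rfl fun i _ => ?_
    rw [Pi.smul_apply, smul_eq_mul, FPZ_aug_inv]
  · intro r
    obtain ⟨x0, hx0⟩ := hsurj 1
    refine ⟨r • fun i => FPZ_i H (x0 i), ?_⟩
    rw [map_smul, FPZ_E_i ε hinv, hx0]
    simp
  · intro x
    constructor
    · intro hx
      obtain ⟨m, hm, x', hx'⟩ := FPZ_den x
      have h1 : ((ε x' : ℤ) : ℚ) = 0 := by
        rw [← FPZ_E_i ε hinv, ← hx', map_smul, hx, smul_zero]
      have h2 : ε x' = 0 := by exact_mod_cast h1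
      obtain ⟨y', hy'⟩ := (hex1 x').1 h2
      have hm' : (m : ℚ) ≠ 0 := by exact_mod_cast hm
      refine ⟨(m : ℚ)⁻¹ • fun j => FPZ_i H (y' j), ?_⟩
      rw [FPZ_D_smul, FPZ_D_i, hy', ← hx', smul_smul, inv_mul_cancel₀ hm', one_smul]
    · rintro ⟨y, rfl⟩
      obtain ⟨m, hm, y', hy'⟩ := FPZ_den y
      have hm' : (m : ℚ) ≠ 0 := by exact_mod_cast hm
      have h1 : (m : ℚ) • FPZ_E ε (FPZ_D d₁ y) = 0 := by
        rw [← map_smul, ← FPZ_D_smul, hy', FPZ_D_i, FPZ_E_i ε hinv, (hex1 _).2 ⟨y', rfl⟩,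
          Int.cast_zero]
      rcases smul_eq_zero.1 h1 with h2 | h2
      · exact absurd h2 hm'
      · exact h2
  · intro x
    constructor
    · intro hx
      obtain ⟨m, hm, x', hx'⟩ := FPZ_den x
      have h2 : d₁ x' = 0 := by
        have h1 : (fun i => FPZ_i H (d₁ x' i)) = 0 := by
          rw [← FPZ_D_i, ← hx', FPZ_D_smul, hx, smul_zero]
        funext i
        apply FPZ_inj
        rw [Pi.zero_apply, map_zero]
        exact congrFun h1 i
      obtain ⟨y', hy'⟩ := (hex2 x').1 h2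
      have hm' : (m : ℚ) ≠ 0 := by exact_mod_cast hm
      refine ⟨(m : ℚ)⁻¹ • fun j => FPZ_i H (y' j), ?_⟩
      rw [FPZ_D_smul, FPZ_D_i, hy', ← hx', smul_smul, inv_mul_cancel₀ hm', one_smul]
    · rintro ⟨y, rfl⟩
      obtain ⟨m, hm, y', hy'⟩ := FPZ_den y
      have hm' : (m : ℚ) ≠ 0 := by exact_mod_cast hm
      have h1 : (m : ℚ) • FPZ_D d₁ (FPZ_D d₂ y) = 0 := by
        rw [← FPZ_D_smul, ← FPZ_D_smul, hy', FPZ_D_i, FPZ_D_i, (hex2 _).2 ⟨y', rfl⟩]
        funext i
        simp
      rcases smul_eq_zero.1 h1 with h2 | h2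
      · exact absurd h2 hm'
      · exact h2

end Pool.Agent.H62.CI

end S_H62_CI_FPZ

section S_H62_CI_FPG

/-!
# Groups of type FP_2 over the rationals are finitely generated
-/

set_option autoImplicit false

namespace Pool.Agent.H62.CI



theorem FPG_aug_single {H : Type} [Group H] (h : H) (q : ℚ) : aug (MonoidAlgebra.single h q) = q := by
  show (MonoidAlgebra.single h q).coeff.sum (fun _ r => r) = q
  rw [MonoidAlgebra.coeff_single, Finsupp.sum_single_index rfl]

theorem FPG_eps {H : Type} [Group H] {a : ℕ} (ε : (Fin a → MonoidAlgebra ℚ H) →ₗ[ℚ] ℚ)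
    (hε : ∀ (h : H) x, ε (MonoidAlgebra.single h (1 : ℚ) • x) = ε x) (r : MonoidAlgebra ℚ H)
    (x : Fin a → MonoidAlgebra ℚ H) : ε (r • x) = aug r * ε x := by
  induction r using MonoidAlgebra.induction_linear with
  | zero => rw [zero_smul, map_zero, map_zero, zero_mul]
  | add r s hr hs => rw [add_smul, map_add, map_add, hr, hs, add_mul]
  | single h q =>
    have e1 : MonoidAlgebra.single h q = q • MonoidAlgebra.single h (1 : ℚ) := by
      rw [MonoidAlgebra.smul_single, smul_eq_mul, mul_one]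
    rw [e1, smul_assoc, map_smul, hε, map_smul, FPG_aug_single, smul_eq_mul, smul_eq_mul, mul_one]

theorem FPG_decomp {H : Type} [Group H] {a : ℕ} (x : Fin a → MonoidAlgebra ℚ H) :
    x = ∑ i, x i • (Pi.single i (1 : MonoidAlgebra ℚ H) : Fin a → MonoidAlgebra ℚ H) := by
  funext j
  rw [Finset.sum_apply, Finset.sum_eq_single j]
  · rw [Pi.smul_apply, Pi.single_eq_same, smul_eq_mul, mul_one]
  · intro b _ hb
    rw [Pi.smul_apply, Pi.single_eq_of_ne (Ne.symm hb), smul_zero]
  · intro h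
    exact absurd (Finset.mem_univ j) h

theorem FPG_map {H : Type} [Group H] (K : Subgroup H) (r : MonoidAlgebra ℚ H) (hr : ∀ h ∈ r.coeff.support, h ∈ K)
    (g : H) (q : ℚ) :
    Finsupp.mapDomain (fun h : H => (h : H ⧸ K)) (MonoidAlgebra.single g q * r).coeff =
      Finsupp.single (g : H ⧸ K) (q * aug r) := by
  have e1 : MonoidAlgebra.single g q * r =
      r.coeff.sum (fun h s => MonoidAlgebra.single (g * h) (q * s)) := by
    rw [MonoidAlgebra.mul_def, MonoidAlgebra.coeff_single, Finsupp.sum_single_index]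
    simp
  rw [e1, MonoidAlgebra.coeff_finsuppSum, Finsupp.sum, Finsupp.mapDomain_finsetSum]
  have e2 : aug r = ∑ h ∈ r.coeff.support, r.coeff h := rfl
  rw [e2, Finset.mul_sum, Finsupp.single_finsetSum]
  apply Finset.sum_congr rfl
  intro h hh
  rw [MonoidAlgebra.coeff_single, Finsupp.mapDomain_single]
  have e3 : ((g * h : H) : H ⧸ K) = (g : H ⧸ K) := by
    rw [QuotientGroup.eq]
    simpa using K.inv_mem (hr h hh)
  rw [e3]

theorem fptwo_fg {H : Type} [Group H] (h : FPtwo ℚ H) : Group.FG H := by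
  classical
  obtain ⟨a, b, c, ε, d₁, d₂, hε, hsurj, hex, -⟩ := h
  -- the finite set
  let S : Finset H := Finset.univ.biUnion (fun j : Fin b => Finset.univ.biUnion (fun i : Fin a =>
    ((d₁ (Pi.single j 1)) i).coeff.support))
  let K : Subgroup H := Subgroup.closure (S : Set H)
  have hS : ∀ (j : Fin b) (i : Fin a), ∀ h ∈ ((d₁ (Pi.single j 1)) i).coeff.support, h ∈ K := by
    intro j i h hh
    apply Subgroup.subset_closure
    rw [Finset.mem_coe, Finset.mem_biUnion]
    refine ⟨j, Finset.mem_univ _, ?_⟩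
    rw [Finset.mem_biUnion]
    exact ⟨i, Finset.mem_univ _, hh⟩
  let mk : H → H ⧸ K := fun h => (h : H ⧸ K)
  let Φ : (Fin a → MonoidAlgebra ℚ H) → (H ⧸ K →₀ ℚ) := fun x =>
    ∑ i, ε (Pi.single i 1) • Finsupp.mapDomain mk (x i).coeff
  have hΦ : ∀ x, Φ x = ∑ i, ε (Pi.single i 1) • Finsupp.mapDomain mk (x i).coeff := fun x => rfl
  have hadd : ∀ x y, Φ (x + y) = Φ x + Φ y := by
    intro x y
    rw [hΦ, hΦ, hΦ, ← Finset.sum_add_distrib]
    apply Finset.sum_congr rfl
    intro i _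
    rw [Pi.add_apply, MonoidAlgebra.coeff_add, Finsupp.mapDomain_add, smul_add]
  have hzero : Φ 0 = 0 := by
    rw [hΦ]
    apply Finset.sum_eq_zero
    intro i _
    rw [Pi.zero_apply, MonoidAlgebra.coeff_zero, Finsupp.mapDomain_zero, smul_zero]
  have hsum : ∀ (n : ℕ) (f : Fin n → (Fin a → MonoidAlgebra ℚ H)), Φ (∑ j, f j) = ∑ j, Φ (f j) := by
    intro n f
    let Φ' : (Fin a → MonoidAlgebra ℚ H) →+ (H ⧸ K →₀ ℚ) := ⟨⟨Φ, hzero⟩, hadd⟩
    exact map_sum Φ' f Finset.univ
  have hgen : ∀ (r : MonoidAlgebra ℚ H) (j : Fin b), Φ (r • d₁ (Pi.single j 1)) = 0 := by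
    intro r j
    induction r using MonoidAlgebra.induction_linear with
    | zero => rw [zero_smul, hzero]
    | add r s hr hs => rw [add_smul, hadd, hr, hs, add_zero]
    | single g q =>
      have h0 : ε (d₁ (Pi.single j 1)) = 0 := (hex _).2 ⟨_, rfl⟩
      have h1 : ε (d₁ (Pi.single j 1)) = ∑ i, aug ((d₁ (Pi.single j 1)) i) * ε (Pi.single i 1) := by
        conv_lhs => rw [FPG_decomp (d₁ (Pi.single j 1)), map_sum]
        apply Finset.sum_congr rfl
        intro i _
        rw [FPG_eps ε hε]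
      rw [hΦ]
      have h2 : ∀ i, ε (Pi.single i 1) • Finsupp.mapDomain mk
          ((MonoidAlgebra.single g q • d₁ (Pi.single j 1)) i).coeff =
          Finsupp.single (g : H ⧸ K) (q * (aug ((d₁ (Pi.single j 1)) i) * ε (Pi.single i 1))) := by
        intro i
        rw [Pi.smul_apply, smul_eq_mul, FPG_map K _ (hS j i) g q, Finsupp.smul_single, smul_eq_mul]
        congr 1
        ring
      rw [Finset.sum_congr rfl (fun i _ => h2 i), ← Finsupp.single_finsetSum, ← Finset.mul_sum,
        ← h1, h0, mul_zero, Finsupp.single_zero]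
  have hker : ∀ x, ε x = 0 → Φ x = 0 := by
    intro x hx
    obtain ⟨y, rfl⟩ := (hex x).1 hx
    rw [FPG_decomp y, map_sum, hsum]
    apply Finset.sum_eq_zero
    intro j _
    rw [map_smul, hgen]
  -- some i has nonzero image
  have hi : ∃ i, ε (Pi.single i 1) ≠ 0 := by
    by_contra hcon
    push Not at hcon
    obtain ⟨x, hx⟩ := hsurj 1
    rw [FPG_decomp x, map_sum] at hx
    have : ∑ i, ε (x i • (Pi.single i (1 : MonoidAlgebra ℚ H) : Fin a → MonoidAlgebra ℚ H)) = 0 := by
      apply Finset.sum_eq_zero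
      intro i _
      rw [FPG_eps ε hε, hcon i, mul_zero]
    rw [this] at hx
    exact zero_ne_one hx
  obtain ⟨i, hi⟩ := hi
  have htop : K = ⊤ := by
    rw [eq_top_iff]
    intro h _
    have hx : ε ((MonoidAlgebra.single h (1 : ℚ) - 1) • (Pi.single i (1 : MonoidAlgebra ℚ H) : Fin a → MonoidAlgebra ℚ H)) = 0 := by
      rw [sub_smul, map_sub, hε, one_smul, sub_self]
    have h1 := hker _ hx
    rw [hΦ, Finset.sum_eq_single i] at h1
    · rw [Pi.smul_apply, Pi.single_eq_same, smul_eq_mul, mul_one, smul_eq_zero] at h1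
      have h2 := h1.resolve_left hi
      have e1 : (MonoidAlgebra.single h (1 : ℚ) - 1 : MonoidAlgebra ℚ H).coeff =
          Finsupp.single h 1 - Finsupp.single 1 1 := rfl
      rw [e1, sub_eq_add_neg, Finsupp.mapDomain_add, ← Finsupp.single_neg, Finsupp.mapDomain_single,
        Finsupp.mapDomain_single, Finsupp.single_neg, ← sub_eq_add_neg, sub_eq_zero] at h2
      have h3 : mk h = mk 1 := by
        rcases Finsupp.single_eq_single_iff _ _ _ _ |>.1 h2 with h3 | h3
        · exact h3.1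
        · exact absurd h3.1 one_ne_zero
      have h4 : (1 : H)⁻¹ * h ∈ K := by
        have : ((1 : H) : H ⧸ K) = (h : H ⧸ K) := h3.symm
        exact QuotientGroup.eq.1 this
      simpa using h4
    · intro k _ hk
      rw [Pi.smul_apply, Pi.single_eq_of_ne (by exact hk), smul_zero, MonoidAlgebra.coeff_zero,
        Finsupp.mapDomain_zero, smul_zero]
    · intro h'
      exact absurd (Finset.mem_univ i) h'
  exact ⟨⟨S, htop⟩⟩

end Pool.Agent.H62.CI

end S_H62_CI_FPG

section S_H50_CI_Fin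

/-!
# From Theorem A to the statement on complexes with collapsing nonpositive immersions
-/

noncomputable section NC_H50_CI_Fin1

set_option autoImplicit false

namespace Pool.Agent.H50.CI

open Pool.Agent.H60.CI Pool.Agent.H62.CI

/-- Theorem A (proved in `Pool/Agent/H60/CI`) -/
def ThmA : Prop := ∀ (H : Type) [Group H] (B : HCpx H), B.Conn → B.LolliSC → B.DR →
  NoZeroDivisors (MonoidAlgebra ℚ H) → FPtwo ℚ H → Group.IsFinitelyPresented H

theorem main (hA : ThmA) {X : Cpx} (hX : X.CNPI) (x0 : X.V) (H : Subgroup (Pi1 X x0))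
    (h : FPtwo ℚ H) : Group.IsFinitelyPresented H :=
  hA H ((XtH X x0).restr H) Xt_conn Xt_sc (dr_Xt hX x0)
    (noZeroDivisors_subgroup (locInd hX x0) H) h

end Pool.Agent.H50.CI

end NC_H50_CI_Fin1

end S_H50_CI_Fin

section S_H50_CI_Top

/-!
# Theorem A and the final theorem
-/

noncomputable section NC_H50_CI_Top1

set_option autoImplicit false

namespace Pool.Agent.H50.CI

open Pool.Agent.H60.CI Pool.Agent.H62.CI

theorem thmA : ThmA := by
  intro H _ B hC hSC hDR hN hFP
  obtain ⟨Z, hG, hmin⟩ := exists_min B (exists_good B hC hSC (fptwo_fg hFP) hFP)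
  exact fp_of_weakSC Z hG.conn hG.fin (weakSC_of_fc hSC hDR Z hG
    (finite_closure Z (H1z_of_LolliSC hC hSC) hDR hG hmin))

theorem top {X : Cpx} (hX : X.CNPI) (x0 : X.V) (H : Subgroup (Pi1 X x0))
    (h : FPtwo ℚ H) : Group.IsFinitelyPresented H :=
  main thmA hX x0 H h

end Pool.Agent.H50.CI

end NC_H50_CI_Top1

end S_H50_CI_Top

section S_H62_CI_Fin2

/-!
# The final theorem: subgroups of type FP_2
-/

noncomputable section NC_H62_CI_Fin21

set_option autoImplicit false

namespace Pool.Agent.H62.CI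

open Pool.Agent.H60.CI Pool.Agent.H50.CI

theorem final_fp {X : Cpx} (x0 : X.V) (hX : X.CNPI ∨ (X.NPIsc ∧ X.DRc)) (H : Subgroup (Pi1 X x0))
    (h : FPtwo ℚ H) : Group.IsFinitelyPresented H := by
  rcases hX with hX | ⟨h1, h2⟩
  · exact top hX x0 H h
  · exact thmA H ((XtH X x0).restr H) Xt_conn Xt_sc (h2 (Xt X x0) Xt_conn Xt_sc (cov X x0) cov_imm)
      (noZeroDivisors_subgroup (locInd_sc h1 x0) H) h

end Pool.Agent.H62.CI

end NC_H62_CI_Fin21

end S_H62_CI_Fin2
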