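import Pool.Agent.H62.CI.NF

/-!
# Row MGA (200 lines): the filtration of the unitriangular group

PROOF. Write `A = Matrix (Fin n) (Fin n) ℚ` and `u` also for the matrix `(u : A)` of `u : UT n`.
Geometric series: for `N ∈ JJ n 1`, `(-N)^n ∈ JJ n n`, so `(-N)^n = 0` (`j < i + n` always), hence with
`S = ∑ k ∈ Finset.range n, (-N)^k` one has `(1 + N) * S = 1 = S * (1 + N)` (`mul_neg_geom_sum`/`geom_sum_mul_neg` with `x = -N`), and
`S - 1 ∈ JJ n 1` (if `n = 0` the matrix ring is trivial; else `S = 1 + ∑ (k from 1)` and all the terms with `k ≥ 1` are in `JJ n 1`). This gives `ut_unit`.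
`NF (UT n)`: `Γ d = {u | (u : A) - 1 ∈ JJ n (d + 1)}`. Products: `u v - 1 = (u - 1)(v - 1) + (u - 1) + (v - 1)`. Inverses:
`u⁻¹ - 1 = -(u - 1) - (u⁻¹ - 1)(u - 1)` (multiply out, `u⁻¹ u = 1`). `Γ 0 = ⊤` by definition of `UT`.
`ι d = {i : Fin n // (i : ℕ) + d + 1 < n}`, `π d u i = (u - 1) i (i + d + 1)`.
* `π_mul`: `(u - 1)(v - 1) ∈ JJ n (2 d + 2)` has no entries on the superdiagonal `d + 1`.
* `π_ker`: if `u - 1 ∈ JJ n (d + 1)` and its entries on the superdiagonal `d + 1` vanish then it is in `JJ n (d + 2)`; conversely clear.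
* `π_surj`: let `N` be the matrix with entries `m i` at `(i, i + d + 1)` and 0 elsewhere; `N ∈ JJ n (d + 1) ≤ JJ n 1`; use `ut_unit`.
* `conj_mem`, `π_conj`: `g u g⁻¹ - 1 = g (u - 1) g⁻¹ = U + (g - 1) U + U (g⁻¹ - 1) + (g - 1) U (g⁻¹ - 1)` with `U = u - 1 ∈ JJ n (d + 1)`; the other three terms are
  in `JJ n (d + 2)`.
* `sep`: `u - 1 ∈ JJ n (n + 1)` implies `u = 1`.
-/

set_option autoImplicit false

namespace Pool.Agent.H60.CI

theorem MGA_one (n : ℕ) : (1 : Matrix (Fin n) (Fin n) ℚ) ∈ JJ n 0 := by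
  intro i j h
  rw [Matrix.one_apply_ne]
  rintro rfl
  omega

theorem MGA_pow {n : ℕ} {N : Matrix (Fin n) (Fin n) ℚ} (hN : N ∈ JJ n 1) (k : ℕ) :
    N ^ k ∈ JJ n k := by
  induction k with
  | zero => rw [pow_zero]; exact MGA_one n
  | succ k ih => rw [pow_succ]; exact JJ_mul ih hN

theorem MGA_zero {n d : ℕ} (hd : n ≤ d) {M : Matrix (Fin n) (Fin n) ℚ} (hM : M ∈ JJ n d) :
    M = 0 := by
  ext i j
  have hj := j.isLt
  exact hM i j (by omega)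

theorem ut_unit (n : ℕ) (N : Matrix (Fin n) (Fin n) ℚ) (hN : N ∈ JJ n 1) :
    ∃ u : UT n, ((u : (Matrix (Fin n) (Fin n) ℚ)ˣ) : Matrix (Fin n) (Fin n) ℚ) = 1 + N := by
  have hN' : -N ∈ JJ n 1 := neg_mem hN
  have h0 : (-N) ^ n = 0 := MGA_zero le_rfl (MGA_pow hN' n)
  have h1 := mul_neg_geom_sum (-N) n
  have h2 := geom_sum_mul_neg (-N) n
  rw [h0, sub_zero, sub_neg_eq_add] at h1 h2
  have hS : ∑ k ∈ Finset.range n, (-N) ^ k ∈ JJ n 0 :=
    sum_mem fun k _ => JJ_mono (Nat.zero_le k) (MGA_pow hN' k)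
  have hS1 : (∑ k ∈ Finset.range n, (-N) ^ k) - 1 ∈ JJ n 1 := by
    have h3 : (∑ k ∈ Finset.range n, (-N) ^ k) - 1 =
        -(N * ∑ k ∈ Finset.range n, (-N) ^ k) := by
      rw [add_mul, one_mul] at h1
      rw [← h1]
      abel
    rw [h3]
    exact neg_mem (JJ_mul hN hS)
  refine ⟨⟨⟨1 + N, ∑ k ∈ Finset.range n, (-N) ^ k, h1, h2⟩, ?_, ?_⟩, rfl⟩
  · change 1 + N - 1 ∈ JJ n 1
    rw [add_sub_cancel_left]
    exact hN
  · exact hS1

/-- the underlying matrix -/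
def MGA_m {n : ℕ} (u : UT n) : Matrix (Fin n) (Fin n) ℚ :=
  ((u : (Matrix (Fin n) (Fin n) ℚ)ˣ) : Matrix (Fin n) (Fin n) ℚ)

theorem MGA_m_mul {n : ℕ} (u v : UT n) : MGA_m (u * v) = MGA_m u * MGA_m v := rfl

theorem MGA_m_one (n : ℕ) : MGA_m (1 : UT n) = 1 := rfl

theorem MGA_m_inv {n : ℕ} (u : UT n) : MGA_m u⁻¹ * MGA_m u = 1 := by
  rw [← MGA_m_mul, inv_mul_cancel, MGA_m_one]

theorem MGA_m_inv' {n : ℕ} (u : UT n) : MGA_m u * MGA_m u⁻¹ = 1 := by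
  rw [← MGA_m_mul, mul_inv_cancel, MGA_m_one]

theorem MGA_m_inj {n : ℕ} {u v : UT n} (h : MGA_m u = MGA_m v) : u = v :=
  Subtype.ext (Units.ext h)

theorem MGA_m_mem {n : ℕ} (u : UT n) : MGA_m u - 1 ∈ JJ n 1 := u.2.1

theorem MGA_prod {n : ℕ} (u v : UT n) : MGA_m (u * v) - 1 =
    (MGA_m u - 1) * (MGA_m v - 1) + (MGA_m u - 1) + (MGA_m v - 1) := by
  rw [MGA_m_mul]
  noncomm_ring

theorem MGA_invs {n : ℕ} (u : UT n) : MGA_m u⁻¹ - 1 =
    -(MGA_m u - 1) - (MGA_m u⁻¹ - 1) * (MGA_m u - 1) := by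
  have h := MGA_m_inv u
  rw [sub_mul, mul_sub, mul_one, h, one_mul]
  abel

theorem MGA_conj {n : ℕ} (g u : UT n) {d : ℕ} (hu : MGA_m u - 1 ∈ JJ n (d + 1)) :
    MGA_m (g * u * g⁻¹) - 1 - (MGA_m u - 1) ∈ JJ n (d + 2) := by
  have h := MGA_m_inv' g
  have hg := MGA_m_mem g
  have hg' := MGA_m_mem g⁻¹
  have e : MGA_m (g * u * g⁻¹) - 1 - (MGA_m u - 1) =
      (MGA_m g - 1) * (MGA_m u - 1) + (MGA_m u - 1) * (MGA_m g⁻¹ - 1) +
        (MGA_m g - 1) * (MGA_m u - 1) * (MGA_m g⁻¹ - 1) := by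
    have e1 : MGA_m (g * u * g⁻¹) - 1 = MGA_m g * (MGA_m u - 1) * MGA_m g⁻¹ := by
      rw [MGA_m_mul, MGA_m_mul, mul_sub, sub_mul, mul_one, h]
    rw [e1]
    noncomm_ring
  rw [e]
  refine add_mem (add_mem ?_ ?_) ?_
  · exact JJ_mono (by omega) (JJ_mul hg hu)
  · exact JJ_mono (by omega) (JJ_mul hu hg')
  · exact JJ_mono (by omega) (JJ_mul (JJ_mul hg hu) hg')

/-- the filtration -/
def MGA_G (n d : ℕ) : Subgroup (UT n) where
  carrier := {u | MGA_m u - 1 ∈ JJ n (d + 1)}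
  one_mem' := by
    change MGA_m 1 - 1 ∈ JJ n (d + 1)
    rw [MGA_m_one, sub_self]
    exact zero_mem _
  mul_mem' := by
    intro u v hu hv
    change MGA_m (u * v) - 1 ∈ JJ n (d + 1)
    rw [MGA_prod]
    exact add_mem (add_mem (JJ_mono (by omega) (JJ_mul hu hv)) hu) hv
  inv_mem' := by
    intro u hu
    change MGA_m u⁻¹ - 1 ∈ JJ n (d + 1)
    rw [MGA_invs]
    exact sub_mem (neg_mem hu) (JJ_mono (by omega) (JJ_mul (MGA_m_mem u⁻¹) hu))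

theorem MGA_memG {n d : ℕ} {u : UT n} : u ∈ MGA_G n d ↔ MGA_m u - 1 ∈ JJ n (d + 1) := Iff.rfl

/-- entries on the superdiagonal `d + 1` -/
def MGA_pi (n d : ℕ) (u : UT n) (i : {i : Fin n // (i : ℕ) + d + 1 < n}) : ℚ :=
  (MGA_m u - 1) i.1 ⟨(i.1 : ℕ) + d + 1, i.2⟩

theorem MGA_mul (n d : ℕ) (x y : UT n) (hx : x ∈ MGA_G n d) (hy : y ∈ MGA_G n d) :
    MGA_pi n d (x * y) = MGA_pi n d x + MGA_pi n d y := by
  funext i
  have h1 : ((MGA_m x - 1) * (MGA_m y - 1)) i.1 ⟨(i.1 : ℕ) + d + 1, i.2⟩ = 0 :=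
    JJ_mul (MGA_memG.1 hx) (MGA_memG.1 hy) i.1 ⟨(i.1 : ℕ) + d + 1, i.2⟩ (by
      change (i.1 : ℕ) + d + 1 < (i.1 : ℕ) + ((d + 1) + (d + 1))
      omega)
  rw [Pi.add_apply]
  unfold MGA_pi
  rw [MGA_prod, Matrix.add_apply, Matrix.add_apply, h1, zero_add]

theorem MGA_ker (n d : ℕ) (x : UT n) (hx : x ∈ MGA_G n d) :
    MGA_pi n d x = 0 ↔ x ∈ MGA_G n (d + 1) := by
  constructor
  · intro h
    rw [MGA_memG]
    intro i j hij
    by_cases h1 : (j : ℕ) < i + (d + 1)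
    · exact MGA_memG.1 hx i j h1
    · have h2 : (j : ℕ) = i + d + 1 := by omega
      have h3 : (i : ℕ) + d + 1 < n := by
        have := j.isLt
        omega
      have h4 := congrFun h ⟨i, h3⟩
      have h5 : j = ⟨(i : ℕ) + d + 1, h3⟩ := Fin.ext h2
      rw [h5]
      exact h4
  · intro h
    funext i
    exact MGA_memG.1 h i.1 ⟨(i.1 : ℕ) + d + 1, i.2⟩ (by
      change (i.1 : ℕ) + d + 1 < (i.1 : ℕ) + (d + 1 + 1)
      omega)

theorem MGA_surj (n d : ℕ) (m : {i : Fin n // (i : ℕ) + d + 1 < n} → ℚ) :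
    ∃ x ∈ MGA_G n d, MGA_pi n d x = m := by
  classical
  obtain ⟨N, hN⟩ : ∃ N : Matrix (Fin n) (Fin n) ℚ, N = fun (i j : Fin n) =>
      if h : (i : ℕ) + d + 1 < n ∧ (j : ℕ) = i + d + 1 then m ⟨i, h.1⟩ else 0 := ⟨_, rfl⟩
  have h1 : N ∈ JJ n (d + 1) := by
    intro i j hij
    rw [hN]
    exact dif_neg fun h => by omega
  obtain ⟨u, hu⟩ := ut_unit n N (JJ_mono (by omega) h1)
  have hu' : MGA_m u - 1 = N := by
    change ((u : (Matrix (Fin n) (Fin n) ℚ)ˣ) : Matrix (Fin n) (Fin n) ℚ) - 1 = N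
    rw [hu, add_sub_cancel_left]
  refine ⟨u, ?_, ?_⟩
  · rw [MGA_memG, hu']
    exact h1
  · funext i
    unfold MGA_pi
    rw [hu', hN]
    exact dif_pos ⟨i.2, rfl⟩

theorem MGA_cm (n d : ℕ) (g x : UT n) (hx : x ∈ MGA_G n d) : g * x * g⁻¹ ∈ MGA_G n d := by
  rw [MGA_memG]
  have h1 := JJ_mono (show d + 1 ≤ d + 2 by omega) (MGA_conj g x (MGA_memG.1 hx))
  have h2 := add_mem h1 (MGA_memG.1 hx)
  rwa [sub_add_cancel] at h2

theorem MGA_pc (n d : ℕ) (g x : UT n) (hx : x ∈ MGA_G n d) :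
    MGA_pi n d (g * x * g⁻¹) = MGA_pi n d x := by
  funext i
  have h1 := MGA_conj g x (MGA_memG.1 hx) i.1 ⟨(i.1 : ℕ) + d + 1, i.2⟩ (by
      change (i.1 : ℕ) + d + 1 < (i.1 : ℕ) + (d + 2)
      omega)
  rw [Matrix.sub_apply, sub_eq_zero] at h1
  exact h1

theorem ut_nf (n : ℕ) : Nonempty (NF (UT n)) := by
  refine ⟨{ Γ := MGA_G n
            zero := ?_
            anti := ?_
            ι := fun d => {i : Fin n // (i : ℕ) + d + 1 < n}
            π := MGA_pi n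
            π_mul := MGA_mul n
            π_ker := MGA_ker n
            π_surj := MGA_surj n
            conj_mem := MGA_cm n
            π_conj := MGA_pc n
            sep := ?_ }⟩
  · rw [eq_top_iff]
    intro u _
    exact MGA_m_mem u
  · intro d x hx
    exact JJ_mono (by omega) (MGA_memG.1 hx)
  · intro x hx
    have h1 := MGA_zero (by omega) (MGA_memG.1 (hx n))
    refine MGA_m_inj ?_
    rw [MGA_m_one]
    exact sub_eq_zero.1 h1

end Pool.Agent.H60.CI
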