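import Pool.Agent.H62.CI.MGA

/-!
# Row MGC (200 lines): a non-trivial element of a free group is detected by a unitriangular representation

PROOF.
(1) `syll`: every element of `FreeGroup α` is `(L.map fun p => FreeGroup.of p.1 ^ p.2).prod` for a list `L : List (α × ℤ)` with all `p.2 ≠ 0` and
consecutive first entries distinct (`List.IsChain`, or `List.Pairwise` on neighbours). The set of such elements contains `1` (`L = []`) and is stable under left
multiplication by `FreeGroup.of x` and `(FreeGroup.of x)⁻¹`: if `L = (x, k) :: L'` replace it by `(x, k ± 1) :: L'` if `k ± 1 ≠ 0` and by `L'` otherwise; if the first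
entry is not `x` (or `L = []`) take `(x, ± 1) :: L`. Every element is `FreeGroup.mk w` (`Quot.ind`): induction on the word `w`.
(2) Let `g ≠ 1`; then `L ≠ []`. Let `r = L.length`, `n = r + 1`, and let `a t, k t` (`t < r`) be the entries of `L`. For `x : α` let `N x` be the matrix with
`(N x) i j = 1` if `j = i + 1` and `a i = x`, and 0 otherwise; `N x ∈ JJ n 1`. `N x * N x = 0`: an entry would need `a i = x = a (i + 1)`. So `(1 + N x) * (1 + q • N x) =
1 + (q + 1) • N x`. Let `u x : UT n` be the unit with matrix `1 + N x` (`ut_unit`); then the matrix of `(u x) ^ k` is `1 + k • N x` for all integers `k`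
(`Int.induction_on`; inverse of `1 + q • N x` is `1 - q • N x`). Let `θ = FreeGroup.lift u`. The matrix of `θ g` is the product of the
`1 + k t • N (a t)`, `t = 0, …, r - 1`.
(3) For `s ≤ r` let `P s` be the product of the first `s` factors. By induction on `s`: `(P s) 0 j = 0` for `j > s` and `(P s) 0 s = ∏ t < s, k t`:
`(P (s+1)) 0 j = (P s) 0 j + ∑ i, (P s) 0 i * k s * (N (a s)) i j`, where `(N (a s)) i j ≠ 0` only for `j = i + 1`, `a i = a s`; for `j = s + 1` only `i = s` matters.
So `(θ g) 0 r = ∏ k t ≠ 0`, and the entry `(0, r)` of the identity matrix is `0` as `r ≥ 1`. Hence `θ g ≠ 1`. The filtration is `ut_nf n`.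
-/

set_option autoImplicit false

namespace Pool.Agent.H60.CI

/-- syllable form of an element of the free group -/
def MGC_S {α : Type} (g : FreeGroup α) (L : List (α × ℤ)) : Prop :=
  (L.map fun p => FreeGroup.of p.1 ^ p.2).prod = g ∧ (∀ p ∈ L, p.2 ≠ 0) ∧
    L.IsChain (fun p q => p.1 ≠ q.1)

theorem MGC_chain {α : Type} (x : α) (k l : ℤ) (L : List (α × ℤ))
    (h : ((x, k) :: L).IsChain (fun p q => p.1 ≠ q.1)) :
    ((x, l) :: L).IsChain (fun p q => p.1 ≠ q.1) := by
  cases L with
  | nil => exact List.isChain_singleton _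
  | cons q L =>
    rw [List.isChain_cons_cons] at h ⊢
    exact h

theorem MGC_mul {α : Type} (x : α) (e : ℤ) (g : FreeGroup α) (L : List (α × ℤ))
    (h : MGC_S g L) : ∃ L', MGC_S (FreeGroup.of x ^ e * g) L' := by
  classical
  obtain ⟨h1, h2, h3⟩ := h
  subst h1
  by_cases he : e = 0
  · subst he
    exact ⟨L, by rw [zpow_zero, one_mul], h2, h3⟩
  cases L with
  | nil =>
    refine ⟨[(x, e)], ?_, ?_, List.isChain_singleton _⟩
    · simp
    · intro p hp
      rw [List.mem_singleton] at hp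
      rw [hp]
      exact he
  | cons q L =>
    obtain ⟨y, k⟩ := q
    by_cases hxy : x = y
    · subst hxy
      by_cases hk : e + k = 0
      · refine ⟨L, ?_, fun p hp => h2 p (List.mem_cons_of_mem _ hp), h3.tail⟩
        rw [List.map_cons, List.prod_cons, ← mul_assoc, ← zpow_add]
        rw [hk, zpow_zero, one_mul]
      · refine ⟨(x, e + k) :: L, ?_, ?_, MGC_chain x k (e + k) L h3⟩
        · rw [List.map_cons, List.prod_cons, List.map_cons, List.prod_cons, ← mul_assoc,
            ← zpow_add]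
        · intro p hp
          rcases List.mem_cons.1 hp with h4 | h4
          · rw [h4]
            exact hk
          · exact h2 p (List.mem_cons_of_mem _ h4)
    · refine ⟨(x, e) :: (y, k) :: L, ?_, ?_, ?_⟩
      · rw [List.map_cons, List.prod_cons]
      · intro p hp
        rcases List.mem_cons.1 hp with h4 | h4
        · rw [h4]
          exact he
        · exact h2 p h4
      · rw [List.isChain_cons_cons]
        exact ⟨hxy, h3⟩

theorem MGC_syll {α : Type} (g : FreeGroup α) : ∃ L, MGC_S g L := by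
  obtain ⟨w, rfl⟩ : ∃ w, FreeGroup.mk w = g := Quot.exists_rep g
  induction w with
  | nil =>
    exact ⟨[], rfl, fun p hp => absurd hp List.not_mem_nil, List.isChain_nil⟩
  | cons p w ih =>
    obtain ⟨x, b⟩ := p
    obtain ⟨L, hL⟩ := ih
    cases b with
    | true =>
      obtain ⟨L', hL'⟩ := MGC_mul x 1 _ L hL
      refine ⟨L', ?_⟩
      rw [zpow_one] at hL'
      exact hL'
    | false =>
      obtain ⟨L', hL'⟩ := MGC_mul x (-1) _ L hL
      refine ⟨L', ?_⟩
      rw [zpow_neg_one] at hL'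
      exact hL'

open Classical in
/-- the elementary nilpotent matrices -/
noncomputable def MGC_N {α : Type} (n : ℕ) (a : ℕ → α) (x : α) : Matrix (Fin n) (Fin n) ℚ :=
  fun i j => if (j : ℕ) = i + 1 ∧ a i = x then 1 else 0

theorem MGC_N_JJ {α : Type} (n : ℕ) (a : ℕ → α) (x : α) : MGC_N n a x ∈ JJ n 1 := by
  intro i j h
  unfold MGC_N
  rw [if_neg]
  rintro ⟨h1, -⟩
  omega

theorem MGC_N_sum {α : Type} (n : ℕ) (a : ℕ → α) (x : α) (i : Fin n) (hi : (i : ℕ) + 1 < n)
    (v : Fin n → ℚ) :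
    ∑ j, MGC_N n a x i j * v j = open Classical in if a i = x then v ⟨i + 1, hi⟩ else 0 := by
  classical
  rw [Finset.sum_eq_single (⟨(i : ℕ) + 1, hi⟩ : Fin n)]
  · unfold MGC_N
    split_ifs with h1 h2 h2
    · rw [one_mul]
    · exact absurd h1.2 h2
    · exact absurd ⟨rfl, h2⟩ h1
    · rw [zero_mul]
  · intro j _ hj
    unfold MGC_N
    rw [if_neg, zero_mul]
    rintro ⟨h1, -⟩
    exact hj (Fin.ext h1)
  · intro h
    exact absurd (Finset.mem_univ _) h

theorem MGC_N_sq {α : Type} (n : ℕ) (a : ℕ → α) (x : α)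
    (ha : ∀ t, t + 2 < n → a t ≠ a (t + 1)) : MGC_N n a x * MGC_N n a x = 0 := by
  ext i j
  rw [Matrix.mul_apply, Matrix.zero_apply]
  refine Finset.sum_eq_zero fun k _ => ?_
  by_cases h : ((k : ℕ) = i + 1 ∧ a i = x) ∧ ((j : ℕ) = k + 1 ∧ a k = x)
  · exfalso
    obtain ⟨⟨h1, h2⟩, h3, h4⟩ := h
    have h5 := j.2
    refine ha i (by omega) ?_
    rw [h2, ← h4, h1]
  · rw [not_and_or] at h
    unfold MGC_N
    rcases h with h | h
    · rw [if_neg h, zero_mul]
    · rw [if_neg h, mul_zero]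

theorem MGC_zpow {n : ℕ} (U : (Matrix (Fin n) (Fin n) ℚ)ˣ) (N : Matrix (Fin n) (Fin n) ℚ)
    (hU : (U : Matrix (Fin n) (Fin n) ℚ) = 1 + N) (hN : N * N = 0) (k : ℤ) :
    ((U ^ k : (Matrix (Fin n) (Fin n) ℚ)ˣ) : Matrix (Fin n) (Fin n) ℚ) = 1 + (k : ℚ) • N := by
  have hinv : ((U⁻¹ : (Matrix (Fin n) (Fin n) ℚ)ˣ) : Matrix (Fin n) (Fin n) ℚ) = 1 - N := by
    refine Units.inv_eq_of_mul_eq_one_right ?_
    rw [hU]
    have h1 : (1 + N) * (1 - N) = 1 - N * N := by noncomm_ring
    rw [h1, hN, sub_zero]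
  induction k using Int.induction_on with
  | zero => simp
  | succ k ih =>
    rw [zpow_add_one, Units.val_mul, ih, hU]
    have h1 : (1 + ((k : ℤ) : ℚ) • N) * (1 + N) = 1 + N + ((k : ℤ) : ℚ) • N +
        ((k : ℤ) : ℚ) • (N * N) := by
      rw [add_mul, one_mul, mul_add, mul_one, smul_mul_assoc]
      abel
    rw [h1, hN, smul_zero, add_zero]
    push_cast
    rw [add_smul, one_smul]
    abel
  | pred k ih =>
    rw [zpow_sub_one, Units.val_mul, ih, hinv]
    have h1 : (1 + ((-(k : ℤ) : ℤ) : ℚ) • N) * (1 - N) = 1 - N + ((-(k : ℤ) : ℤ) : ℚ) • N -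
        ((-(k : ℤ) : ℤ) : ℚ) • (N * N) := by
      rw [add_mul, one_mul, mul_sub, mul_one, smul_mul_assoc]
      abel
    rw [h1, hN, smul_zero, sub_zero]
    push_cast
    rw [sub_smul, one_smul]
    abel

/-- the corner entry -/
theorem MGC_corner {α : Type} (r : ℕ) (a : ℕ → α) (M : List (α × ℤ)) :
    ∀ s : ℕ, s + M.length = r → (∀ t (h : t < M.length), a (s + t) = (M[t]).1) →
      (∀ i : Fin (r + 1), (i : ℕ) < s →
        (M.map fun p => 1 + (p.2 : ℚ) • MGC_N (r + 1) a p.1).prod i (Fin.last r) = 0) ∧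
      ∀ i : Fin (r + 1), (i : ℕ) = s →
        (M.map fun p => 1 + (p.2 : ℚ) • MGC_N (r + 1) a p.1).prod i (Fin.last r) =
          (M.map fun p => (p.2 : ℚ)).prod := by
  induction M with
  | nil =>
    intro s hs _
    rw [List.length_nil, add_zero] at hs
    rw [List.map_nil, List.prod_nil, List.map_nil, List.prod_nil]
    refine ⟨fun i hi => Matrix.one_apply_ne ?_, fun i hi => ?_⟩
    · intro h
      rw [h, Fin.val_last] at hi
      omega
    · have h : i = Fin.last r := Fin.ext (by rw [Fin.val_last]; omega)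
      rw [h, Matrix.one_apply_eq]
  | cons p M ih =>
    intro s hs ha
    rw [List.length_cons] at hs
    obtain ⟨ih1, ih2⟩ := ih (s + 1) (by omega) (fun t h => by
      have h1 := ha (t + 1) (by rw [List.length_cons]; omega)
      rw [List.getElem_cons_succ] at h1
      rw [← h1]
      congr 1
      omega)
    have ha0 : a s = p.1 := ha 0 (by rw [List.length_cons]; omega)
    have key : ∀ i : Fin (r + 1), (i : ℕ) ≤ s → ∀ hi : (i : ℕ) + 1 < r + 1,
        ((p :: M).map fun p => 1 + (p.2 : ℚ) • MGC_N (r + 1) a p.1).prod i (Fin.last r) =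
          (M.map fun p => 1 + (p.2 : ℚ) • MGC_N (r + 1) a p.1).prod i (Fin.last r) +
            (p.2 : ℚ) * (open Classical in if a i = p.1 then
              (M.map fun p => 1 + (p.2 : ℚ) • MGC_N (r + 1) a p.1).prod ⟨i + 1, hi⟩
                (Fin.last r) else 0) := by
      intro i _ hi
      rw [List.map_cons, List.prod_cons, add_mul, one_mul, smul_mul_assoc, Matrix.add_apply,
        Matrix.smul_apply, Matrix.mul_apply, smul_eq_mul, MGC_N_sum _ _ _ i hi]
    refine ⟨fun i hi => ?_, fun i hi => ?_⟩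
    · rw [key i (by omega) (by omega), ih1 i (by omega), zero_add]
      split_ifs with h
      · rw [ih1 ⟨i + 1, _⟩ (by show (i : ℕ) + 1 < s + 1; omega), mul_zero]
      · rw [mul_zero]
    · rw [key i (by omega) (by omega), ih1 i (by omega), zero_add,
        if_pos (show a (i : ℕ) = p.1 by rw [hi]; exact ha0),
        ih2 ⟨i + 1, _⟩ (by show (i : ℕ) + 1 = s + 1; omega), List.map_cons, List.prod_cons]

theorem magnus {α : Type} (g : FreeGroup α) (hg : g ≠ 1) :
    ∃ (G : Type) (_ : Group G) (_ : Nonempty (NF G)) (θ : FreeGroup α →* G), θ g ≠ 1 := by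
  classical
  obtain ⟨L, h1, h2, h3⟩ := MGC_syll g
  have hL : L ≠ [] := by
    rintro rfl
    exact hg h1.symm
  obtain ⟨r, hr⟩ : ∃ r, r = L.length := ⟨_, rfl⟩
  have hr0 : 0 < r := by
    rw [hr]
    exact List.length_pos_iff.2 hL
  obtain ⟨a, ha⟩ : ∃ a : ℕ → α, ∀ t (h : t < L.length), a t = (L[t]).1 := by
    refine ⟨fun t => if h : t < L.length then (L[t]).1 else (L[0]'(by omega)).1, fun t h => ?_⟩
    exact dif_pos h
  have hsq : ∀ x, MGC_N (r + 1) a x * MGC_N (r + 1) a x = 0 := by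
    intro x
    refine MGC_N_sq _ _ _ fun t ht => ?_
    rw [List.isChain_iff_getElem] at h3
    rw [ha t (by omega), ha (t + 1) (by omega)]
    exact h3 t (by omega)
  choose u hu using fun x => ut_unit (r + 1) (MGC_N (r + 1) a x) (MGC_N_JJ _ _ _)
  refine ⟨UT (r + 1), inferInstance, ut_nf (r + 1), FreeGroup.lift u, fun hθ => ?_⟩
  obtain ⟨Ψ, hΨ⟩ : ∃ Ψ : FreeGroup α →* Matrix (Fin (r + 1)) (Fin (r + 1)) ℚ,
      ∀ g, Ψ g = ((FreeGroup.lift u g : (Matrix (Fin (r + 1)) (Fin (r + 1)) ℚ)ˣ) :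
        Matrix (Fin (r + 1)) (Fin (r + 1)) ℚ) :=
    ⟨((Units.coeHom _).comp (UT (r + 1)).subtype).comp (FreeGroup.lift u), fun g => rfl⟩
  have hΨ2 : ∀ p : α × ℤ, Ψ (FreeGroup.of p.1 ^ p.2) =
      1 + (p.2 : ℚ) • MGC_N (r + 1) a p.1 := by
    intro p
    rw [hΨ, map_zpow, FreeGroup.lift_apply_of, Subgroup.coe_zpow]
    exact MGC_zpow _ _ (hu p.1) (hsq p.1) p.2
  have h4 : Ψ g = (L.map fun p => 1 + (p.2 : ℚ) • MGC_N (r + 1) a p.1).prod := by
    rw [← h1, map_list_prod, List.map_map]
    congr 1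
    exact List.map_congr_left fun p _ => hΨ2 p
  have h5 : Ψ g = 1 := by
    rw [hΨ, hθ]
    rfl
  obtain ⟨-, h6⟩ := MGC_corner r a L 0 (by omega) (fun t h => by rw [zero_add]; exact ha t h)
  have h7 := h6 0 rfl
  rw [← h4, h5, Matrix.one_apply_ne] at h7
  · have h8 : (L.map fun p => (p.2 : ℚ)).prod ≠ 0 := by
      rw [Ne, List.prod_eq_zero_iff, List.mem_map]
      rintro ⟨p, hp, hp2⟩
      exact h2 p hp (by exact_mod_cast hp2)
    exact h8 h7.symm
  · intro h
    have h9 := congrArg Fin.val h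
    rw [Fin.val_last] at h9
    change 0 = r at h9
    omega

end Pool.Agent.H60.CI
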