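import Mathlib

/-!
# Filtered groups; unitriangular matrices (definitions)

`NF G`: a descending filtration `Γ d` of the group `G` by normal subgroups, separated, with homomorphisms `π d` of `Γ d` onto
the additive group of all functions `ι d → ℚ`, with kernel `Γ (d+1)`, invariant under conjugation by `G`.
`JJ n d`: matrices with `M i j = 0` for `j < i + d`. `UT n`: unitriangular matrices.
-/

set_option autoImplicit false

namespace Pool.Agent.H60.CI

structure NF (G : Type) [Group G] where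
  Γ : ℕ → Subgroup G
  zero : Γ 0 = ⊤
  anti : ∀ d x, x ∈ Γ (d + 1) → x ∈ Γ d
  ι : ℕ → Type
  π : ∀ d, G → ι d → ℚ
  π_mul : ∀ d x y, x ∈ Γ d → y ∈ Γ d → π d (x * y) = π d x + π d y
  π_ker : ∀ d x, x ∈ Γ d → (π d x = 0 ↔ x ∈ Γ (d + 1))
  π_surj : ∀ d m, ∃ x ∈ Γ d, π d x = m
  conj_mem : ∀ d g x, x ∈ Γ d → g * x * g⁻¹ ∈ Γ d
  π_conj : ∀ d g x, x ∈ Γ d → π d (g * x * g⁻¹) = π d x
  sep : ∀ x, (∀ d, x ∈ Γ d) → x = 1

/-- matrices which vanish below the `d`-th superdiagonal -/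
def JJ (n d : ℕ) : Submodule ℚ (Matrix (Fin n) (Fin n) ℚ) where
  carrier := {M | ∀ i j : Fin n, (j : ℕ) < i + d → M i j = 0}
  add_mem' := fun {a b} ha hb i j h => by rw [Matrix.add_apply, ha i j h, hb i j h, add_zero]
  zero_mem' := fun i j _ => rfl
  smul_mem' := fun r a ha i j h => by rw [Matrix.smul_apply, ha i j h, smul_zero]

theorem JJ_mul {n a b : ℕ} {M N : Matrix (Fin n) (Fin n) ℚ} (hM : M ∈ JJ n a) (hN : N ∈ JJ n b) :
    M * N ∈ JJ n (a + b) := by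
  intro i j h
  rw [Matrix.mul_apply]
  refine Finset.sum_eq_zero fun k _ => ?_
  by_cases h1 : (k : ℕ) < i + a
  · rw [hM i k h1, zero_mul]
  · rw [hN k j (by omega), mul_zero]

theorem JJ_mono {n a b : ℕ} (h : a ≤ b) : JJ n b ≤ JJ n a := fun _ hM i j hij =>
  hM i j (by omega)

/-- unitriangular matrices -/
def UT (n : ℕ) : Subgroup (Matrix (Fin n) (Fin n) ℚ)ˣ where
  carrier := {u | (u : Matrix (Fin n) (Fin n) ℚ) - 1 ∈ JJ n 1 ∧
    ((u⁻¹ : (Matrix (Fin n) (Fin n) ℚ)ˣ) : Matrix (Fin n) (Fin n) ℚ) - 1 ∈ JJ n 1}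
  one_mem' := by simp
  mul_mem' := by
    have key : ∀ A B : Matrix (Fin n) (Fin n) ℚ, A - 1 ∈ JJ n 1 → B - 1 ∈ JJ n 1 →
        A * B - 1 ∈ JJ n 1 := by
      intro A B hA hB
      have h1 : A * B - 1 = (A - 1) * (B - 1) + (A - 1) + (B - 1) := by noncomm_ring
      rw [h1]
      exact add_mem (add_mem (JJ_mono (by norm_num) (JJ_mul hA hB)) hA) hB
    rintro u v ⟨hu, hu'⟩ ⟨hv, hv'⟩
    refine ⟨by rw [Units.val_mul]; exact key _ _ hu hv, ?_⟩
    rw [mul_inv_rev, Units.val_mul]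
    exact key _ _ hv' hu'
  inv_mem' := by
    rintro u ⟨hu, hu'⟩
    exact ⟨hu', by rwa [inv_inv]⟩

end Pool.Agent.H60.CI
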